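import Pool.Agent.K3M.Defs
import Pool.Agent.K3C.Trit

/-!
# JT: the joint condition on the CM fields from conditions on the fields and on the pairs of fields
-/

set_option autoImplicit false

open scoped BigOperators
open Matrix Polynomial

namespace Pool.Agent.K3M

open Pool.Agent.DRB Pool.Agent.K3D Pool.Agent.K3E Pool.Agent.K3C Pool.Agent.K3P

noncomputable section

/-- The condition on the pairs of CM fields: some automorphism of `ℂ` is the identity on the conjugates of the
first field and complex conjugation on the conjugates of the second one; equivalently, the intersection of the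
normal closures of the two fields is totally real. -/
def PairConj {s : ℕ} {h : Fin s → ℕ} {B : ∀ j, AbVar (h j)} {n m : Fin s → ℕ}
    (K : ∀ j, KSC (B j) (n j) (m j)) : Prop :=
  ∀ j j', j ≠ j' → ∃ σ : ℂ ≃ₐ[ℚ] ℂ, (∀ z, Polynomial.aeval z (K j).P = 0 → σ z = z) ∧
    ∀ z, Polynomial.aeval z (K j').P = 0 → σ z = (starRingEnd ℂ) z

theorem JTrit_of {s : ℕ} {h : Fin s → ℕ} {B : ∀ j, AbVar (h j)} {n m : Fin s → ℕ}
    (K : ∀ j, KSC (B j) (n j) (m j)) (hT : ∀ j, (K j).Trit) (hP : PairConj K) : JTrit K := by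
  classical
  intro R hR1 hR2 hR3 hR0
  -- an element of minimal support
  have hex : ∃ k : ℕ, ∃ f ∈ R, f ≠ 0 ∧ (Finset.univ.filter fun j => f j ≠ 0).card = k := by
    obtain ⟨f, hf, hf0⟩ : ∃ f, f ∈ R ∧ f ≠ 0 := by
      by_contra hcon
      push Not at hcon
      exact hR0 ((AddSubgroup.eq_bot_iff_forall R).2 hcon)
    exact ⟨_, f, hf, hf0, rfl⟩
  obtain ⟨f, hf, hf0, hfk⟩ := Nat.find_spec hex
  have hmin : ∀ f' ∈ R, f' ≠ 0 → (Finset.univ.filter fun j => f j ≠ 0).card ≤
      (Finset.univ.filter fun j => f' j ≠ 0).card := by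
    intro f' hf' hf0'
    rw [hfk]
    exact Nat.find_min' hex ⟨f', hf', hf0', rfl⟩
  obtain ⟨j0, hj0⟩ : ∃ j, f j ≠ 0 := by
    by_contra hcon
    push Not at hcon
    exact hf0 (funext hcon)
  -- the support is `{j0}`
  have hsupp : ∀ j, j ≠ j0 → f j = 0 := by
    intro j hj
    by_contra hfj
    obtain ⟨σ, h1, h2⟩ := hP j j0 hj
    let f' : Fin s → ℂ → ℤ := fun i z => f i (σ z) - f i z
    have hf' : f' ∈ R := R.sub_mem (hR3 σ f hf) hf
    have hj' : f' j = 0 := by
      funext z
      show f j (σ z) - f j z = 0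
      by_cases hz : aeval z (K j).P = 0
      · rw [h1 z hz, sub_self]
      · rw [hR1 f hf j z hz, hR1 f hf j _ (C8T.root_symm (K j) σ hz), sub_self]
    have hj0' : f' j0 ≠ 0 := by
      intro h0
      apply hj0
      funext z
      have h3 := congrFun h0 z
      have h4 : f j0 (σ z) - f j0 z = 0 := h3
      by_cases hz : aeval z (K j0).P = 0
      · rw [h2 z hz, hR2 f hf] at h4
        show f j0 z = 0
        omega
      · exact hR1 f hf j0 z hz
    have hf0' : f' ≠ 0 := fun h0 => hj0' (by rw [h0]; rfl)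
    have h5 := hmin f' hf' hf0'
    have h6 : (Finset.univ.filter fun j => f' j ≠ 0) ⊂ (Finset.univ.filter fun j => f j ≠ 0) := by
      rw [Finset.ssubset_iff_of_subset]
      · exact ⟨j, Finset.mem_filter.2 ⟨Finset.mem_univ _, hfj⟩, fun h => (Finset.mem_filter.1 h).2 hj'⟩
      · intro i hi
        refine Finset.mem_filter.2 ⟨Finset.mem_univ _, fun h => (Finset.mem_filter.1 hi).2 ?_⟩
        funext z
        show f i (σ z) - f i z = 0
        rw [h]
        simp
    exact absurd (Finset.card_lt_card h6) (not_lt.2 h5)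
  -- apply the condition for one field
  let T : AddSubgroup (ℂ → ℤ) :=
    { carrier := {u | (Pi.single j0 u : Fin s → ℂ → ℤ) ∈ R}
      add_mem' := by
        intro u v hu hv
        show (Pi.single j0 (u + v) : Fin s → ℂ → ℤ) ∈ R
        rw [Pi.single_add]
        exact R.add_mem hu hv
      zero_mem' := by
        show (Pi.single j0 0 : Fin s → ℂ → ℤ) ∈ R
        rw [Pi.single_zero]
        exact R.zero_mem
      neg_mem' := by
        intro u hu
        show (Pi.single j0 (-u) : Fin s → ℂ → ℤ) ∈ R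
        rw [Pi.single_neg]
        exact R.neg_mem hu }
  have hTm : ∀ u, u ∈ T ↔ (Pi.single j0 u : Fin s → ℂ → ℤ) ∈ R := fun u => Iff.rfl
  have hsingle : ∀ (u : ℂ → ℤ) (z : ℂ), (Pi.single j0 u : Fin s → ℂ → ℤ) j0 z = u z := fun u z => by
    rw [Pi.single_eq_same]
  have hfs : f = Pi.single j0 (f j0) := by
    funext j
    by_cases hj : j = j0
    · subst hj; rw [Pi.single_eq_same]
    · rw [hsupp j hj, Pi.single_eq_of_ne hj]
  obtain ⟨u, hu, hu0, c, hc⟩ := hT j0 T
    (fun u hu z hz => by rw [← hsingle u z]; exact hR1 _ ((hTm u).1 hu) j0 z hz)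
    (fun u hu z => by rw [← hsingle u z, ← hsingle u _]; exact hR2 _ ((hTm u).1 hu) j0 z)
    (fun σ u hu => by
      rw [hTm]
      have h3 := hR3 σ _ ((hTm u).1 hu)
      have h4 : (fun j z => (Pi.single j0 u : Fin s → ℂ → ℤ) j (σ z)) =
          (Pi.single j0 (fun z => u (σ z)) : Fin s → ℂ → ℤ) := by
        funext j z
        by_cases hj : j = j0
        · subst hj; rw [Pi.single_eq_same, Pi.single_eq_same]
        · rw [Pi.single_eq_of_ne hj, Pi.single_eq_of_ne hj]; rfl
      rw [h4] at h3
      exact h3)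
    (fun hb => by
      have h3 : f j0 ∈ T := by rw [hTm, ← hfs]; exact hf
      rw [hb, AddSubgroup.mem_bot] at h3
      exact hj0 h3)
  refine ⟨Pi.single j0 u, (hTm u).1 hu, ?_, j0, fun j hj => by rw [Pi.single_eq_of_ne hj], c,
    fun z => ?_⟩
  · intro h0
    apply hu0
    have := congrFun h0 j0
    rwa [Pi.single_eq_same] at this
  · rw [Pi.single_eq_same]
    exact hc z

end

end Pool.Agent.K3M
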