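import Pool.Agent.K3P.Stmts
import Pool.Agent.K3C.Stmts

/-!
# One Kuga-Satake variety with complex multiplication, abstract Lie algebras: statements
-/

open scoped BigOperators
open Matrix

namespace Pool.Agent.K3M

open Pool.Agent.DRB Pool.Agent.K3D Pool.Agent.K3E Pool.Agent.K3C Pool.Agent.K3P

noncomputable section

/-- `a` belongs to the image of the Lie algebra `L` in the endomorphisms of `T`. -/
def LTl {g n m : ℕ} {A : AbVar g} (L : Matrix (Idx g) (Idx g) ℂ → ℂ → Prop) (K : KSC A n m)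
    (a : Matrix (Fin n) (Fin n) ℂ) : Prop :=
  ∃ (X : Matrix (Idx g) (Idx g) ℂ) (ξ : ℂ), L X ξ ∧ K.Act X a

/-- The subspace `W` of `T` is stable under the Lie algebra `L`. -/
def LStl {g n m : ℕ} {A : AbVar g} (L : Matrix (Idx g) (Idx g) ℂ → ℂ → Prop) (K : KSC A n m)
    (W : Submodule ℂ (Fin n → ℂ)) : Prop :=
  ∀ X ξ, L X ξ → ∀ v ∈ W, ∃ w ∈ W, X * K.cl v - K.cl v * X = K.cl w

/-- The real Lie algebra acting on `T`. -/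
def lieC {g n m : ℕ} {A : AbVar g} (L : Matrix (Idx g) (Idx g) ℂ → ℂ → Prop) (K : KSC A n m)
    (a : Matrix (Fin n) (Fin n) ℝ) : Prop :=
  LTl L K (a.map Complex.ofReal)

/-- M5C (variant of C5C). -/
def Stmt_M5c : Prop :=
  ∀ (g : ℕ) (A : AbVar g) (L : Matrix (Idx g) (Idx g) ℂ → ℂ → Prop), LieFam A L →
    ∀ (n m : ℕ) (K : KSC A n m), ∀ W : Submodule ℂ (Fin n → ℂ),
    LStl L K W → (∀ v ∈ W, (∀ w ∈ W, K.bil v w = 0) → v = 0) → ∀ a ∈ K.S, ∀ v ∈ W, a *ᵥ v ∈ W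

/-- M5D (variant of C5D). -/
def Stmt_M5d : Prop :=
  ∀ (g : ℕ) (A : AbVar g) (L : Matrix (Idx g) (Idx g) ℂ → ℂ → Prop), LieFam A L →
    ∀ (n m : ℕ) (K : KSC A n m), 1 ≤ m → ∀ W : Submodule ℂ (Fin n → ℂ),
    LStl L K W → ∀ a ∈ K.S, ∀ v ∈ W, a *ᵥ v ∈ W

/-- M7X (variant of C7X). -/
def Stmt_M7x : Prop :=
  ∀ (g : ℕ) (A : AbVar g) (L : Matrix (Idx g) (Idx g) ℂ → ℂ → Prop), LieFam A L →
    ∀ (n m : ℕ) (K : KSC A n m), 1 ≤ m → Even m →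
    ∀ z : ℂ, Polynomial.aeval z K.P = 0 → ∀ φ : (Fin n → ℂ) →ₗ[ℂ] (Fin n → ℂ),
      (∀ v ∈ K.Tl z, φ v ∈ K.Tl ((starRingEnd ℂ) z)) → (∀ v ∈ K.Tl z, φ v = 0 → v = 0) →
      (∀ v ∈ K.Tl z, ∀ w ∈ K.Tl z, K.bil v (φ w) = K.bil w (φ v)) →
      ¬ ∀ a, LTl L K a → ∃ c : ℂ, ∀ v ∈ K.Tl z, a *ᵥ (φ v) = φ (a *ᵥ v) + c • φ v

/-- M8A (variant of C8A). -/
def Stmt_M8a : Prop :=
  ∀ (g : ℕ) (A : AbVar g) (L : Matrix (Idx g) (Idx g) ℂ → ℂ → Prop), LieFam A L →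
    ∀ (n m : ℕ) (K : KSC A n m) (as : List (Matrix (Fin n) (Fin n) ℝ)),
    (∀ a ∈ as, lieC L K a) → ∃ h, lieC L K h ∧ IsHypLog (as.map fun a => NormedSpace.exp a).prod h

/-- M8B (variant of C8B). -/
def Stmt_M8b : Prop :=
  ∀ (g : ℕ) (A : AbVar g) (L : Matrix (Idx g) (Idx g) ℂ → ℂ → Prop), LieFam A L →
    ∀ (n m : ℕ) (K : KSC A n m), 1 ≤ m → (Even m ∨ m = 1) →
    ∀ a ∈ K.S, ∀ b ∈ K.S, LTl L K (a * b - b * a)

end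

end Pool.Agent.K3M
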