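import Pool.Agent.K3D.K8b
import Pool.Agent.K3C.C8a
import Pool.Agent.K3M.M8y

/-!
# M8a: hyperbolic logarithms, for a family of elements of the Lie algebra
-/

open scoped BigOperators Matrix
open Matrix

namespace Pool.Agent.K3M

open Pool.Agent.DRB Pool.Agent.K3D Pool.Agent.K3E Pool.Agent.K3C Pool.Agent.K3P

noncomputable section

namespace M8X

open K8X (Lm Rm Lm_apply Rm_apply exp_mul_exp_neg exp_intertwine exp_ofReal cj cj_apply cj_mulVec)
open C8Y (clL clL_apply exists_mat)

section clifford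

variable {g n m : ℕ} {A : AbVar g} (K : KSC A n m)

theorem unit_prod {ι : Type} [Fintype ι] [DecidableEq ι] (Xs : List (Matrix ι ι ℂ × ℂ)) :
    IsUnit (Xs.map fun p => NormedSpace.exp p.1).prod := by
  induction Xs with
  | nil => simp
  | cons a Xs ih =>
    rw [List.map_cons, List.prod_cons]
    exact (Matrix.isUnit_exp a.1).mul ih

theorem lift_list (L : Matrix (Idx g) (Idx g) ℂ → ℂ → Prop) (as : List (Matrix (Fin n) (Fin n) ℝ))
    (has : ∀ a ∈ as, lieC L K a) :
    ∃ Xs : List (Matrix (Idx g) (Idx g) ℂ × ℂ), (∀ p ∈ Xs, L p.1 p.2) ∧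
      ∀ v, (Xs.map fun p => NormedSpace.exp p.1).prod * K.cl v =
        K.cl (((as.map fun a => NormedSpace.exp a).prod.map Complex.ofReal) *ᵥ v) *
          (Xs.map fun p => NormedSpace.exp p.1).prod := by
  induction as with
  | nil =>
    refine ⟨[], fun p hp => absurd hp (List.not_mem_nil), fun v => ?_⟩
    have h1 : ((List.map (fun a : Matrix (Fin n) (Fin n) ℝ => NormedSpace.exp a) []).prod.map
        Complex.ofReal) = (1 : Matrix (Fin n) (Fin n) ℂ) := by
      rw [List.map_nil, List.prod_nil]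
      exact Matrix.map_one _ Complex.ofReal_zero Complex.ofReal_one
    rw [h1, Matrix.one_mulVec, List.map_nil, List.prod_nil, one_mul, mul_one]
  | cons a as ih =>
    obtain ⟨Xs, h1, h2⟩ := ih fun b hb => has b (List.mem_cons_of_mem _ hb)
    obtain ⟨X, ξ, hX, hXa⟩ := has a List.mem_cons_self
    refine ⟨(X, ξ) :: Xs, fun p hp => ?_, fun v => ?_⟩
    · rcases List.mem_cons.1 hp with rfl | hp
      · exact hX
      · exact h1 p hp
    · have h3 := exp_intertwine (clL K) X (a.map Complex.ofReal) (fun w => hXa w)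
        (((as.map fun a => NormedSpace.exp a).prod.map Complex.ofReal) *ᵥ v)
      rw [clL_apply, clL_apply, Matrix.mulVec_mulVec, ← exp_ofReal] at h3
      have h4 : ((List.map (fun a : Matrix (Fin n) (Fin n) ℝ => NormedSpace.exp a)
          (a :: as)).prod.map Complex.ofReal) = ((NormedSpace.exp a).map Complex.ofReal) *
          ((as.map fun a => NormedSpace.exp a).prod.map Complex.ofReal) := by
        rw [List.map_cons, List.prod_cons]
        exact Matrix.map_mul (f := Complex.ofRealHom)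
      rw [h4, List.map_cons, List.prod_cons, mul_assoc, h2 v, ← mul_assoc, h3, mul_assoc]

/-- Products of generalized eigenvectors. -/
theorem gen_mul (x : Matrix (Idx g) (Idx g) ℂ) (G : Matrix (Fin n) (Fin n) ℂ)
    (hx : ∀ v, x * K.cl v = K.cl (G *ᵥ v) * x) (β γ : ℂ) :
    ∀ (N k l : ℕ), k + l ≤ N → ∀ (v : Fin n → ℂ) (w : Idx g → ℂ),
      ((G - β • (1 : Matrix (Fin n) (Fin n) ℂ)) ^ k) *ᵥ v = 0 →
      ((x - γ • (1 : Matrix (Idx g) (Idx g) ℂ)) ^ l) *ᵥ w = 0 →
      ((x - (β * γ) • (1 : Matrix (Idx g) (Idx g) ℂ)) ^ N) *ᵥ (K.cl v *ᵥ w) = 0 := by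
  intro N
  have hcl0 : K.cl 0 = 0 := by rw [← clL_apply, map_zero]
  induction N with
  | zero =>
    intro k l hkl v w hv _
    have hk : k = 0 := by omega
    rw [hk, pow_zero, Matrix.one_mulVec] at hv
    rw [hv, hcl0, Matrix.zero_mulVec, Matrix.mulVec_zero]
  | succ N ih =>
    intro k l hkl v w hv hw
    rcases Nat.eq_zero_or_pos k with hk | hk
    · rw [hk, pow_zero, Matrix.one_mulVec] at hv
      rw [hv, hcl0, Matrix.zero_mulVec, Matrix.mulVec_zero]
    rcases Nat.eq_zero_or_pos l with hl | hl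
    · rw [hl, pow_zero, Matrix.one_mulVec] at hw
      rw [hw, Matrix.mulVec_zero, Matrix.mulVec_zero]
    obtain ⟨k, rfl⟩ : ∃ k', k = k' + 1 := ⟨k - 1, by omega⟩
    obtain ⟨l, rfl⟩ : ∃ l', l = l' + 1 := ⟨l - 1, by omega⟩
    have h1 : (x - (β * γ) • (1 : Matrix (Idx g) (Idx g) ℂ)) *ᵥ (K.cl v *ᵥ w) =
        K.cl ((G - β • (1 : Matrix (Fin n) (Fin n) ℂ)) *ᵥ v) *ᵥ (x *ᵥ w) +
        β • (K.cl v *ᵥ ((x - γ • (1 : Matrix (Idx g) (Idx g) ℂ)) *ᵥ w)) := by
      have h2 : K.cl ((G - β • (1 : Matrix (Fin n) (Fin n) ℂ)) *ᵥ v) =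
          K.cl (G *ᵥ v) - β • K.cl v := by
        rw [Matrix.sub_mulVec, Matrix.smul_mulVec, Matrix.one_mulVec, ← clL_apply, map_sub, map_smul,
          clL_apply, clL_apply]
      rw [h2, Matrix.sub_mulVec, Matrix.sub_mulVec, Matrix.sub_mulVec, Matrix.smul_mulVec,
        Matrix.smul_mulVec, Matrix.smul_mulVec, Matrix.one_mulVec, Matrix.one_mulVec,
        Matrix.mulVec_mulVec, hx v, ← Matrix.mulVec_mulVec, Matrix.mulVec_sub, Matrix.mulVec_smul,
        smul_sub, smul_smul]
      abel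
    rw [pow_succ, ← Matrix.mulVec_mulVec, h1, Matrix.mulVec_add, Matrix.mulVec_smul]
    rw [ih k (l + 1) (by omega) _ (x *ᵥ w) (by rw [Matrix.mulVec_mulVec, ← pow_succ]; exact hv) (by
        have h2 : Commute ((x - γ • (1 : Matrix (Idx g) (Idx g) ℂ)) ^ (l + 1)) x := by
          refine Commute.pow_left ?_ _
          exact (Commute.refl x).sub_left ((Commute.one_left x).smul_left γ)
        rw [Matrix.mulVec_mulVec, h2.eq, ← Matrix.mulVec_mulVec, hw, Matrix.mulVec_zero]),
      ih (k + 1) l (by omega) v _ hv (by rw [Matrix.mulVec_mulVec, ← pow_succ]; exact hw),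
      smul_zero, add_zero]

end clifford

end M8X

open M8X
open K8X (Lm Rm Lm_apply Rm_apply exp_mul_exp_neg exp_intertwine exp_ofReal cj cj_apply cj_mulVec)
open C8Y (clL clL_apply exists_mat)

/-- M8A. -/
theorem M8a_proof (hE2d : Stmt_C2d) (hE5a : Stmt_C5a) : Stmt_M8a := by
  intro g A L F n m K as has
  obtain ⟨Xs, hXs, hx⟩ := lift_list K L as has
  set G : Matrix (Fin n) (Fin n) ℂ :=
    (as.map fun a => NormedSpace.exp a).prod.map Complex.ofReal with hG
  set x : Matrix (Idx g) (Idx g) ℂ := (Xs.map fun p => NormedSpace.exp p.1).prod with hxdef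
  obtain ⟨H, η, hH, hlog⟩ := F.log Xs hXs
  have hxu : IsUnit x := unit_prod Xs
  obtain ⟨b, hb⟩ := exists_mat K H ((hE2d g A n m K).2 H η (F.sub H η hH))
  have hinj := (hE5a g A n m K).2.1
  have hGu : IsUnit G := by
    have hunit : ∀ as : List (Matrix (Fin n) (Fin n) ℝ),
        IsUnit (as.map fun a => NormedSpace.exp a).prod := by
      intro as
      induction as with
      | nil => simp
      | cons a as ih =>
        rw [List.map_cons, List.prod_cons]
        exact (Matrix.isUnit_exp a).mul ih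
    have := (hunit as).map (Complex.ofRealHom.mapMatrix :
      Matrix (Fin n) (Fin n) ℝ →+* Matrix (Fin n) (Fin n) ℂ)
    exact this
  have hu0 : ∀ {ι : Type} [Fintype ι] [DecidableEq ι] (M : Matrix ι ι ℂ), IsUnit M → ∀ (k : ℕ) (v : ι → ℂ),
      ((M - (0 : ℂ) • (1 : Matrix ι ι ℂ)) ^ k) *ᵥ v = 0 → v = 0 := by
    intro ι _ _ M hM k v hv
    rw [zero_smul, sub_zero] at hv
    obtain ⟨y, hy⟩ := hM.pow k
    rw [← hy] at hv
    have h1 : (y⁻¹ : (Matrix ι ι ℂ)ˣ).val *ᵥ (y.val *ᵥ v) = v := by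
      rw [Matrix.mulVec_mulVec, ← Units.val_mul]
      simp
    rw [hv, Matrix.mulVec_zero] at h1
    exact h1.symm
  have hkey : ∀ (β : ℂ) (v : Fin n → ℂ),
      (∃ k : ℕ, ((G - β • (1 : Matrix (Fin n) (Fin n) ℂ)) ^ k) *ᵥ v = 0) →
      b *ᵥ v = (Real.log ‖β‖ : ℂ) • v := by
    rintro β v ⟨k, hk⟩
    by_cases hv0 : v = 0
    · rw [hv0, Matrix.mulVec_zero, smul_zero]
    have hβ : β ≠ 0 := by
      rintro rfl
      exact hv0 (hu0 G hGu k v hk)
    -- the commutator on generalized eigenvectors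
    have h1 : (⊤ : Submodule ℂ (Idx g → ℂ)) ≤
        LinearMap.eqLocus (Matrix.toLin' (H * K.cl v - K.cl v * H))
          (Matrix.toLin' ((Real.log ‖β‖ : ℂ) • K.cl v)) := by
      rw [← Module.End.iSup_maxGenEigenspace_eq_top (Matrix.toLin' x)]
      refine iSup_le fun γ w hw => ?_
      rw [Module.End.mem_maxGenEigenspace] at hw
      obtain ⟨l, hl⟩ := hw
      have h2 : ((x - γ • (1 : Matrix (Idx g) (Idx g) ℂ)) ^ l) *ᵥ w = 0 := by
        have h3 : (Matrix.toLin' x - γ • (1 : Module.End ℂ (Idx g → ℂ))) ^ l =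
            Matrix.toLin' ((x - γ • (1 : Matrix (Idx g) (Idx g) ℂ)) ^ l) := by
          rw [Matrix.toLin'_pow, map_sub, map_smul, Matrix.toLin'_one]
          rfl
        rw [h3, Matrix.toLin'_apply] at hl
        exact hl
      show Matrix.toLin' (H * K.cl v - K.cl v * H) w = Matrix.toLin' ((Real.log ‖β‖ : ℂ) • K.cl v) w
      rw [Matrix.toLin'_apply, Matrix.toLin'_apply]
      by_cases hw0 : w = 0
      · rw [hw0, Matrix.mulVec_zero, Matrix.mulVec_zero]
      have hγ : γ ≠ 0 := by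
        rintro rfl
        exact hw0 (hu0 x hxu l w h2)
      have h4 := hlog γ w ⟨l, h2⟩
      have h5 := hlog (β * γ) (K.cl v *ᵥ w) ⟨k + l, gen_mul K x G hx β γ (k + l) k l le_rfl v w hk h2⟩
      rw [Matrix.sub_mulVec, ← Matrix.mulVec_mulVec, ← Matrix.mulVec_mulVec, h4, h5,
        Matrix.mulVec_smul, Matrix.smul_mulVec, ← sub_smul]
      congr 1
      rw [norm_mul, Real.log_mul (norm_ne_zero_iff.2 hβ) (norm_ne_zero_iff.2 hγ)]
      push_cast
      ring
    have h2 : H * K.cl v - K.cl v * H = (Real.log ‖β‖ : ℂ) • K.cl v :=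
      Matrix.toLin'.injective (LinearMap.ext fun w => h1 Submodule.mem_top)
    rw [hb v] at h2
    have h9 : K.cl (b *ᵥ v - (Real.log ‖β‖ : ℂ) • v) = 0 := by
      rw [← clL_apply, map_sub, map_smul, clL_apply, clL_apply, h2, sub_self]
    exact sub_eq_zero.1 (hinj _ h9)
  -- the matrix is real
  have hGreal : cj G = G := by
    ext i j
    rw [cj_apply, hG, Matrix.map_apply, Complex.conj_ofReal]
  have hreal : cj b = b := by
    have h1 : (⊤ : Submodule ℂ (Fin n → ℂ)) ≤
        LinearMap.eqLocus (Matrix.toLin' (cj b)) (Matrix.toLin' b) := by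
      rw [← Module.End.iSup_maxGenEigenspace_eq_top (Matrix.toLin' G)]
      refine iSup_le fun β v hv => ?_
      rw [Module.End.mem_maxGenEigenspace] at hv
      obtain ⟨k, hk⟩ := hv
      have h2 : ((G - β • (1 : Matrix (Fin n) (Fin n) ℂ)) ^ k) *ᵥ v = 0 := by
        have h3 : (Matrix.toLin' G - β • (1 : Module.End ℂ (Fin n → ℂ))) ^ k =
            Matrix.toLin' ((G - β • (1 : Matrix (Fin n) (Fin n) ℂ)) ^ k) := by
          rw [Matrix.toLin'_pow, map_sub, map_smul, Matrix.toLin'_one]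
          rfl
        rw [h3, Matrix.toLin'_apply] at hk
        exact hk
      have h4 := hkey β v ⟨k, h2⟩
      have h5 : ((G - (starRingEnd ℂ) β • (1 : Matrix (Fin n) (Fin n) ℂ)) ^ k) *ᵥ
          (fun i => (starRingEnd ℂ) (v i)) = 0 := by
        have h6 : cj ((G - β • (1 : Matrix (Fin n) (Fin n) ℂ)) ^ k) =
            (G - (starRingEnd ℂ) β • (1 : Matrix (Fin n) (Fin n) ℂ)) ^ k := by
          rw [map_pow, map_sub, hGreal]
          congr 2
          ext i j
          simp only [cj_apply, Matrix.smul_apply, smul_eq_mul, map_mul, Matrix.one_apply]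
          split_ifs <;> simp
        rw [← h6, cj_mulVec, h2]
        funext i
        simp
      have h7 := hkey _ _ ⟨k, h5⟩
      show Matrix.toLin' (cj b) v = Matrix.toLin' b v
      rw [Matrix.toLin'_apply, Matrix.toLin'_apply, h4]
      have h8 : v = fun i => (starRingEnd ℂ) ((fun i => (starRingEnd ℂ) (v i)) i) := by
        funext i; simp
      conv_lhs => rw [h8]
      rw [cj_mulVec, h7]
      funext i
      simp
    have h2 : Matrix.toLin' (cj b) = Matrix.toLin' b := LinearMap.ext fun v => h1 Submodule.mem_top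
    exact Matrix.toLin'.injective h2
  have hre : (b.map Complex.re).map Complex.ofReal = b := by
    ext i j
    have h1 : (starRingEnd ℂ) (b i j) = b i j := by
      rw [← cj_apply, hreal]
    rw [Matrix.map_apply, Matrix.map_apply]
    exact Complex.conj_eq_iff_re.1 h1
  refine ⟨b.map Complex.re, ⟨H, η, hH, fun v => ?_⟩, fun β v hv => ?_⟩
  · rw [hre]; exact hb v
  · rw [hre]; exact hkey β v hv

end

end Pool.Agent.K3M
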