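import Pool.Agent.K3P.Defs
import Pool.Agent.K3C.Defs

/-!
# De Rham-Betti conjecture: products of Kuga-Satake abelian varieties, real and complex multiplication
-/

open scoped BigOperators
open Matrix

namespace Pool.Agent.K3M

open Pool.Agent.DRB Pool.Agent.K3D Pool.Agent.K3E Pool.Agent.K3C Pool.Agent.K3P

noncomputable section

/-- The joint condition on the CM fields: a nonzero group of families of odd functions on the sets of complex
embeddings, stable under the automorphisms of `ℂ`, contains a nonzero family which is supported on one factor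
and has values in `{0, c, -c}`. -/
def JTrit {s : ℕ} {h : Fin s → ℕ} {B : ∀ j, AbVar (h j)} {n m : Fin s → ℕ}
    (K : ∀ j, KSC (B j) (n j) (m j)) : Prop :=
  ∀ R : AddSubgroup (Fin s → ℂ → ℤ),
    (∀ f ∈ R, ∀ j z, Polynomial.aeval z (K j).P ≠ 0 → f j z = 0) →
    (∀ f ∈ R, ∀ j z, f j ((starRingEnd ℂ) z) = - f j z) →
    (∀ σ : ℂ ≃ₐ[ℚ] ℂ, ∀ f ∈ R, (fun j z => f j (σ z)) ∈ R) →
    R ≠ ⊥ → ∃ f ∈ R, f ≠ 0 ∧ ∃ j, (∀ j', j' ≠ j → f j' = 0) ∧
      ∃ c : ℤ, ∀ z, f j z = 0 ∨ f j z = c ∨ f j z = -c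

/-- The condition on the pairs of factors with complex multiplication: one of them has `m = 1`, or the
dimensions `m` are different, or they are at least four and some automorphism of `ℂ` is the identity on the
first CM field and the complex conjugation on the second one. -/
def IndC {s : ℕ} {h : Fin s → ℕ} {B : ∀ j, AbVar (h j)} {n m : Fin s → ℕ}
    (K : ∀ j, KSC (B j) (n j) (m j)) : Prop :=
  ∀ j j', j ≠ j' → m j = 1 ∨ m j' = 1 ∨ m j ≠ m j' ∨ (4 ≤ m j ∧ ∃ σ : ℂ ≃ₐ[ℚ] ℂ,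
    (∀ z, Polynomial.aeval z (K j).P = 0 → σ z = z) ∧
    ∀ z, Polynomial.aeval z (K j').P = 0 → σ z = (starRingEnd ℂ) z)

/-- The de Rham-Betti conjecture for products of Kuga-Satake varieties with real or complex multiplication. -/
def MainM : Prop :=
  ∀ (g : ℕ) (A : AbVar g) (r s : ℕ) (h : Fin (r + s) → ℕ) (B : ∀ i, AbVar (h i)), Nonempty (Decomp A B) →
    (∀ i j : Fin r, i ≠ j → ∀ α, IsHom (B (Fin.castAdd s i)) (B (Fin.castAdd s j)) α → α = 0) →
    ∀ (n₁ m₁ : Fin r → ℕ) (_ : ∀ i, KSE (B (Fin.castAdd s i)) (n₁ i) (m₁ i))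
      (n₂ m₂ : Fin s → ℕ) (K₂ : ∀ j, KSC (B (Fin.natAdd r j)) (n₂ j) (m₂ j)),
    (∀ i, m₁ i = 3 ∨ 6 ≤ m₁ i) → (∀ j, 1 ≤ m₂ j ∧ (Even (m₂ j) ∨ m₂ j = 1)) →
    (∀ i j, m₁ i = 3 → m₂ j ≠ 2) → IndC K₂ → JTrit K₂ →
    ∀ (t : TData) (D : Submodule ℂ (TIdx t (Idx g) → ℂ)), IsDRB A t D → IsHodge A t D

end

end Pool.Agent.K3M
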