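import Pool.Agent.K3C.Stmts
import Pool.Agent.K3P.StmtsG
import Pool.Agent.K3M.Defs

/-!
# De Rham-Betti conjecture: mixed products, exact statements of the modules
-/

open scoped BigOperators
open Matrix

namespace Pool.Agent.K3M

open Pool.Agent.DRB Pool.Agent.K3D Pool.Agent.K3E Pool.Agent.K3C Pool.Agent.K3P

noncomputable section

/-! ## Tuples -/

/-- The tuples of matrices by which the Lie algebra of the product acts on the spaces `T`. -/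
def DD2 {g : ℕ} {A : AbVar g} {r s : ℕ} {h : Fin (r + s) → ℕ} {B : ∀ i, AbVar (h i)} (D : Decomp A B)
    {n₁ m₁ : Fin r → ℕ} (K₁ : ∀ i, KSE (B (Fin.castAdd s i)) (n₁ i) (m₁ i))
    {n₂ m₂ : Fin s → ℕ} (K₂ : ∀ j, KSC (B (Fin.natAdd r j)) (n₂ j) (m₂ j))
    (a : ∀ i, Matrix (Fin (n₁ i)) (Fin (n₁ i)) ℂ) (b : ∀ j, Matrix (Fin (n₂ j)) (Fin (n₂ j)) ℂ) : Prop :=
  ∃ (Y : Matrix (Idx g) (Idx g) ℂ) (ξ : ℂ), InLie (Gam A) Y ξ ∧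
    (∀ i v, D.blk (Fin.castAdd s i) Y * (K₁ i).cl v - (K₁ i).cl v * D.blk (Fin.castAdd s i) Y =
      (K₁ i).cl (a i *ᵥ v)) ∧
    ∀ j, (K₂ j).Act (D.blk (Fin.natAdd r j) Y) (b j)

/-- The algebraic properties of the set of tuples. -/
structure TupAlg2 {r s : ℕ} {h : Fin r → ℕ} {B : ∀ i, AbVar (h i)} {h' : Fin s → ℕ} {B' : ∀ j, AbVar (h' j)}
    {n₁ m₁ : Fin r → ℕ} (K₁ : ∀ i, KSE (B i) (n₁ i) (m₁ i))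
    {n₂ m₂ : Fin s → ℕ} (K₂ : ∀ j, KSC (B' j) (n₂ j) (m₂ j))
    (d : (∀ i, Matrix (Fin (n₁ i)) (Fin (n₁ i)) ℂ) → (∀ j, Matrix (Fin (n₂ j)) (Fin (n₂ j)) ℂ) → Prop) :
    Prop where
  lin : ∀ a b a' b' (c : ℂ), d a b → d a' b' → d (fun i => a i + c • a' i) (fun j => b j + c • b' j)
  zero : d 0 0
  brk : ∀ a b a' b', d a b → d a' b' →
    d (fun i => a i * a' i - a' i * a i) (fun j => b j * b' j - b' j * b j)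
  aut : ∀ (σ : ℂ ≃ₐ[ℚ] ℂ) a b, d a b → d (fun i => (a i).map σ) (fun j => (b j).map σ)
  mem : ∀ a b, d a b → (∀ i, a i ∈ (K₁ i).S) ∧ ∀ j, b j ∈ (K₂ j).S
  onto : ∀ i, ∀ x ∈ (K₁ i).S, ∃ a b, d a b ∧ a i = x
  onto' : ∀ j, ∀ x ∈ (K₂ j).S, ∀ y ∈ (K₂ j).S, ∃ a b, d a b ∧ b j = x * y - y * x

/-- Simultaneous hyperbolic logarithms. -/
def TupLog2 {r s : ℕ} {n₁ : Fin r → ℕ} {n₂ : Fin s → ℕ}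
    (d : (∀ i, Matrix (Fin (n₁ i)) (Fin (n₁ i)) ℂ) → (∀ j, Matrix (Fin (n₂ j)) (Fin (n₂ j)) ℂ) → Prop) :
    Prop :=
  ∀ (a : ∀ i, Matrix (Fin (n₁ i)) (Fin (n₁ i)) ℝ) (b : ∀ j, Matrix (Fin (n₂ j)) (Fin (n₂ j)) ℝ),
    d (fun i => (a i).map Complex.ofReal) (fun j => (b j).map Complex.ofReal) →
    ∃ (x : ∀ i, Matrix (Fin (n₁ i)) (Fin (n₁ i)) ℝ) (y : ∀ j, Matrix (Fin (n₂ j)) (Fin (n₂ j)) ℝ),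
      d (fun i => (x i).map Complex.ofReal) (fun j => (y j).map Complex.ofReal) ∧
      (∀ i, IsHypLog (NormedSpace.exp (a i)) (x i)) ∧ ∀ j, IsHypLog (NormedSpace.exp (b j)) (y j)

/-- The hypotheses on the dimensions. -/
def DimM {r s : ℕ} (m₁ : Fin r → ℕ) (m₂ : Fin s → ℕ) : Prop :=
  (∀ i, m₁ i = 3 ∨ 6 ≤ m₁ i) ∧ (∀ j, 1 ≤ m₂ j ∧ (Even (m₂ j) ∨ m₂ j = 1)) ∧
    ∀ i j, m₁ i = 3 → m₂ j ≠ 2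

/-- N0. The set of tuples is a Lie algebra stable under automorphisms, onto the (derived) factors. -/
def Stmt_N0 : Prop :=
  ∀ (g : ℕ) (A : AbVar g) (r s : ℕ) (h : Fin (r + s) → ℕ) (B : ∀ i, AbVar (h i)) (D : Decomp A B)
    (n₁ m₁ : Fin r → ℕ) (K₁ : ∀ i, KSE (B (Fin.castAdd s i)) (n₁ i) (m₁ i))
    (n₂ m₂ : Fin s → ℕ) (K₂ : ∀ j, KSC (B (Fin.natAdd r j)) (n₂ j) (m₂ j)), DimM m₁ m₂ →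
    TupAlg2 K₁ K₂ (DD2 D K₁ K₂)

/-- NL. Simultaneous hyperbolic logarithms. -/
def Stmt_NL : Prop :=
  ∀ (g : ℕ) (A : AbVar g) (r s : ℕ) (h : Fin (r + s) → ℕ) (B : ∀ i, AbVar (h i)) (D : Decomp A B)
    (n₁ m₁ : Fin r → ℕ) (K₁ : ∀ i, KSE (B (Fin.castAdd s i)) (n₁ i) (m₁ i))
    (n₂ m₂ : Fin s → ℕ) (K₂ : ∀ j, KSC (B (Fin.natAdd r j)) (n₂ j) (m₂ j)), TupLog2 (DD2 D K₁ K₂)

/-- NN. No intertwining isometries between the factors with real multiplication. -/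
def Stmt_NN : Prop :=
  ∀ (g : ℕ) (A : AbVar g) (r s : ℕ) (h : Fin (r + s) → ℕ) (B : ∀ i, AbVar (h i)) (D : Decomp A B),
    (∀ i j : Fin r, i ≠ j → ∀ α, IsHom (B (Fin.castAdd s i)) (B (Fin.castAdd s j)) α → α = 0) →
    ∀ (n₁ m₁ : Fin r → ℕ) (K₁ : ∀ i, KSE (B (Fin.castAdd s i)) (n₁ i) (m₁ i))
    (n₂ m₂ : Fin s → ℕ) (K₂ : ∀ j, KSC (B (Fin.natAdd r j)) (n₂ j) (m₂ j)), DimM m₁ m₂ →
    TupNoIso K₁ (fun a => ∃ b, DD2 D K₁ K₂ a b)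

/-- NP. A factor with real multiplication and a factor with complex multiplication are independent
(PM at the real places where the forms are indefinite). -/
def Stmt_NP : Prop :=
  ∀ (r s : ℕ) (h : Fin r → ℕ) (B : ∀ i, AbVar (h i)) (h' : Fin s → ℕ) (B' : ∀ j, AbVar (h' j))
    (n₁ m₁ : Fin r → ℕ) (K₁ : ∀ i, KSE (B i) (n₁ i) (m₁ i))
    (n₂ m₂ : Fin s → ℕ) (K₂ : ∀ j, KSC (B' j) (n₂ j) (m₂ j))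
    (d : (∀ i, Matrix (Fin (n₁ i)) (Fin (n₁ i)) ℂ) → (∀ j, Matrix (Fin (n₂ j)) (Fin (n₂ j)) ℂ) → Prop),
    TupAlg2 K₁ K₂ d → TupLog2 d → DimM m₁ m₂ →
    ∀ i j, ∀ x ∈ (K₁ i).S, ∃ a b, d a b ∧ a i = x ∧ b j = 0

/-- NQ. The factors with real multiplication. -/
def Stmt_NQ : Prop :=
  ∀ (r s : ℕ) (h : Fin r → ℕ) (B : ∀ i, AbVar (h i)) (h' : Fin s → ℕ) (B' : ∀ j, AbVar (h' j))
    (n₁ m₁ : Fin r → ℕ) (K₁ : ∀ i, KSE (B i) (n₁ i) (m₁ i))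
    (n₂ m₂ : Fin s → ℕ) (K₂ : ∀ j, KSC (B' j) (n₂ j) (m₂ j))
    (d : (∀ i, Matrix (Fin (n₁ i)) (Fin (n₁ i)) ℂ) → (∀ j, Matrix (Fin (n₂ j)) (Fin (n₂ j)) ℂ) → Prop),
    TupAlg2 K₁ K₂ d → TupLog2 d → TupNoIso K₁ (fun a => ∃ b, d a b) → DimM m₁ m₂ →
    ∀ i, ∀ x ∈ (K₁ i).S, d (Pi.single i x) 0

/-- NC. Two factors with complex multiplication are independent. -/
def Stmt_NC : Prop :=
  ∀ (r s : ℕ) (h : Fin r → ℕ) (B : ∀ i, AbVar (h i)) (h' : Fin s → ℕ) (B' : ∀ j, AbVar (h' j))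
    (n₁ m₁ : Fin r → ℕ) (K₁ : ∀ i, KSE (B i) (n₁ i) (m₁ i))
    (n₂ m₂ : Fin s → ℕ) (K₂ : ∀ j, KSC (B' j) (n₂ j) (m₂ j))
    (d : (∀ i, Matrix (Fin (n₁ i)) (Fin (n₁ i)) ℂ) → (∀ j, Matrix (Fin (n₂ j)) (Fin (n₂ j)) ℂ) → Prop),
    TupAlg2 K₁ K₂ d → DimM m₁ m₂ → IndC K₂ →
    ∀ j j', j ≠ j' → ∀ x ∈ (K₂ j).S, ∀ y ∈ (K₂ j).S, ∃ a b, d a b ∧ b j = x * y - y * x ∧ b j' = 0

/-- ND. The derived algebras of the factors with complex multiplication. -/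
def Stmt_ND : Prop :=
  ∀ (r s : ℕ) (h : Fin r → ℕ) (B : ∀ i, AbVar (h i)) (h' : Fin s → ℕ) (B' : ∀ j, AbVar (h' j))
    (n₁ m₁ : Fin r → ℕ) (K₁ : ∀ i, KSE (B i) (n₁ i) (m₁ i))
    (n₂ m₂ : Fin s → ℕ) (K₂ : ∀ j, KSC (B' j) (n₂ j) (m₂ j))
    (d : (∀ i, Matrix (Fin (n₁ i)) (Fin (n₁ i)) ℂ) → (∀ j, Matrix (Fin (n₂ j)) (Fin (n₂ j)) ℂ) → Prop),
    TupAlg2 K₁ K₂ d → (∀ i, ∀ x ∈ (K₁ i).S, d (Pi.single i x) 0) → DimM m₁ m₂ →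
    (∀ j j', j ≠ j' → ∀ x ∈ (K₂ j).S, ∀ y ∈ (K₂ j).S, ∃ a b, d a b ∧ b j = x * y - y * x ∧ b j' = 0) →
    ∀ j, ∀ x ∈ (K₂ j).S, ∀ y ∈ (K₂ j).S, d 0 (Pi.single j (x * y - y * x))

/-- NT. The torus. -/
def Stmt_NT : Prop :=
  ∀ (g : ℕ) (A : AbVar g) (r s : ℕ) (h : Fin (r + s) → ℕ) (B : ∀ i, AbVar (h i)) (D : Decomp A B)
    (n₁ m₁ : Fin r → ℕ) (K₁ : ∀ i, KSE (B (Fin.castAdd s i)) (n₁ i) (m₁ i))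
    (n₂ m₂ : Fin s → ℕ) (K₂ : ∀ j, KSC (B (Fin.natAdd r j)) (n₂ j) (m₂ j)), DimM m₁ m₂ → JTrit K₂ →
    (∀ i, ∀ x ∈ (K₁ i).S, DD2 D K₁ K₂ (Pi.single i x) 0) →
    (∀ j, ∀ x ∈ (K₂ j).S, ∀ y ∈ (K₂ j).S, DD2 D K₁ K₂ 0 (Pi.single j (x * y - y * x))) →
    ∀ j, ∀ y ∈ (K₂ j).S, DD2 D K₁ K₂ 0 (Pi.single j y)

/-- NE. From tuples to the Lie algebra. -/
def Stmt_NE : Prop :=
  ∀ (g : ℕ) (A : AbVar g) (r s : ℕ) (h : Fin (r + s) → ℕ) (B : ∀ i, AbVar (h i)) (D : Decomp A B)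
    (n₁ m₁ : Fin r → ℕ) (K₁ : ∀ i, KSE (B (Fin.castAdd s i)) (n₁ i) (m₁ i))
    (n₂ m₂ : Fin s → ℕ) (K₂ : ∀ j, KSC (B (Fin.natAdd r j)) (n₂ j) (m₂ j)), DimM m₁ m₂ →
    (∀ i, ∀ x ∈ (K₁ i).S, DD2 D K₁ K₂ (Pi.single i x) 0) →
    (∀ j, ∀ y ∈ (K₂ j).S, DD2 D K₁ K₂ 0 (Pi.single j y)) →
    (∀ i, ∀ x ∈ (K₁ i).S, InLie (Gam A) (D.emb (Fin.castAdd s i) ((K₁ i).Z x)) 0) ∧
    ∀ j, ∀ y ∈ (K₂ j).S, InLie (Gam A) (D.emb (Fin.natAdd r j) ((K₂ j).Z y)) 0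

/-- NF. The conclusion. -/
def Stmt_NF : Prop :=
  ∀ (g : ℕ) (A : AbVar g) (r s : ℕ) (h : Fin (r + s) → ℕ) (B : ∀ i, AbVar (h i)) (D : Decomp A B)
    (n₁ m₁ : Fin r → ℕ) (K₁ : ∀ i, KSE (B (Fin.castAdd s i)) (n₁ i) (m₁ i))
    (n₂ m₂ : Fin s → ℕ) (K₂ : ∀ j, KSC (B (Fin.natAdd r j)) (n₂ j) (m₂ j)),
    (∀ i, 3 ≤ m₁ i) → (∀ j, 1 ≤ m₂ j) →
    InLie (Gam A) ((1 / 2 : ℂ) • (1 : Matrix (Idx g) (Idx g) ℂ)) 1 →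
    (∀ i, ∀ x ∈ (K₁ i).S, InLie (Gam A) (D.emb (Fin.castAdd s i) ((K₁ i).Z x)) 0) →
    (∀ j, ∀ y ∈ (K₂ j).S, InLie (Gam A) (D.emb (Fin.natAdd r j) ((K₂ j).Z y)) 0) →
    ∀ (t : TData) (E : Submodule ℂ (TIdx t (Idx g) → ℂ)), IsDRB A t E → IsHodge A t E

end

/-- Assembly. -/
theorem MainM_of (h0 : Stmt_N0) (hl : Stmt_NL) (hn : Stmt_NN) (hq : Stmt_NQ) (hc : Stmt_NC) (hd : Stmt_ND)
    (ht : Stmt_NT) (he : Stmt_NE)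
    (hw : ∀ (g : ℕ) (A : AbVar g) (r s : ℕ) (h : Fin (r + s) → ℕ) (B : ∀ i, AbVar (h i)) (D : Decomp A B)
      (n₁ m₁ : Fin r → ℕ) (K₁ : ∀ i, KSE (B (Fin.castAdd s i)) (n₁ i) (m₁ i))
      (n₂ m₂ : Fin s → ℕ) (K₂ : ∀ j, KSC (B (Fin.natAdd r j)) (n₂ j) (m₂ j)),
      (∀ i, 3 ≤ m₁ i) → (∀ j, 1 ≤ m₂ j) →
      (∀ i, ∀ x ∈ (K₁ i).S, InLie (Gam A) (D.emb (Fin.castAdd s i) ((K₁ i).Z x)) 0) →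
      (∀ j, ∀ y ∈ (K₂ j).S, InLie (Gam A) (D.emb (Fin.natAdd r j) ((K₂ j).Z y)) 0) →
      InLie (Gam A) ((1 / 2 : ℂ) • (1 : Matrix (Idx g) (Idx g) ℂ)) 1)
    (hf : Stmt_NF) : MainM := by
  rintro g A r s h B ⟨D⟩ hH n₁ m₁ K₁ n₂ m₂ K₂ c1 c2 c4 hI hJ t E hE
  have hm : DimM m₁ m₂ := ⟨c1, c2, c4⟩
  have c1' : ∀ i, 3 ≤ m₁ i := fun i => by rcases c1 i with h | h <;> omega
  have T := h0 g A r s h B D n₁ m₁ K₁ n₂ m₂ K₂ hm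
  have e1 := hq r s _ _ _ _ n₁ m₁ K₁ n₂ m₂ K₂ _ T (hl g A r s h B D n₁ m₁ K₁ n₂ m₂ K₂)
    (hn g A r s h B D hH n₁ m₁ K₁ n₂ m₂ K₂ hm) hm
  have e2 := hd r s _ _ _ _ n₁ m₁ K₁ n₂ m₂ K₂ _ T e1 hm (hc r s _ _ _ _ n₁ m₁ K₁ n₂ m₂ K₂ _ T hm hI)
  have e3 := ht g A r s h B D n₁ m₁ K₁ n₂ m₂ K₂ hm hJ e1 e2
  obtain ⟨f2, f3⟩ := he g A r s h B D n₁ m₁ K₁ n₂ m₂ K₂ hm e1 e3
  exact hf g A r s h B D n₁ m₁ K₁ n₂ m₂ K₂ c1' (fun j => (c2 j).1)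
    (hw g A r s h B D n₁ m₁ K₁ n₂ m₂ K₂ c1' (fun j => (c2 j).1) f2 f3) f2 f3 t E hE

end Pool.Agent.K3M
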