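import Pool.Agent.K3P.G0
import Pool.Agent.K3C.C8t
import Pool.Agent.K3C.C5d
import Pool.Agent.K3M.StmtsC
import Pool.Agent.K3M.Stmts

/-!
# N0: the set of tuples is a Lie algebra stable under automorphisms, onto the (derived) factors
-/

set_option autoImplicit false

open scoped BigOperators
open Matrix Polynomial

namespace Pool.Agent.K3M

open Pool.Agent.DRB Pool.Agent.K3D Pool.Agent.K3E Pool.Agent.K3C Pool.Agent.K3P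

namespace N0X

variable {g : ℕ} {A : AbVar g} {r s : ℕ} {h : Fin (r + s) → ℕ} {B : ∀ i, AbVar (h i)} {D : Decomp A B}
    {n₁ m₁ : Fin r → ℕ} {K₁ : ∀ i, KSE (B (Fin.castAdd s i)) (n₁ i) (m₁ i)}
    {n₂ m₂ : Fin s → ℕ} {K₂ : ∀ j, KSC (B (Fin.natAdd r j)) (n₂ j) (m₂ j)}

/-- an element of the Lie algebra gives a tuple -/
theorem exists_tup (hK2c : Stmt_K2c) (hE2d : Stmt_E2d) (hC2d : Stmt_C2d)
    (Y : Matrix (Idx g) (Idx g) ℂ) (ξ : ℂ) (hY : InLie (Gam A) Y ξ) :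
    ∃ (a : ∀ i, Matrix (Fin (n₁ i)) (Fin (n₁ i)) ℂ) (b : ∀ j, Matrix (Fin (n₂ j)) (Fin (n₂ j)) ℂ),
      (∀ i v, D.blk (Fin.castAdd s i) Y * (K₁ i).cl v - (K₁ i).cl v * D.blk (Fin.castAdd s i) Y =
        (K₁ i).cl (a i *ᵥ v)) ∧
      ∀ j, (K₂ j).Act (D.blk (Fin.natAdd r j) Y) (b j) := by
  have h1 : ∀ i, ∃ a : Matrix (Fin (n₁ i)) (Fin (n₁ i)) ℂ, ∀ v,
      D.blk (Fin.castAdd s i) Y * (K₁ i).cl v - (K₁ i).cl v * D.blk (Fin.castAdd s i) Y =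
        (K₁ i).cl (a *ᵥ v) := fun i =>
    E8X.exists_mat (K₁ i) (D.blk (Fin.castAdd s i) Y)
      ((hE2d _ _ _ _ (K₁ i)).2 _ ξ (Q3.blk_lie D hK2c Y ξ hY _))
  have h2 : ∀ j, ∃ b : Matrix (Fin (n₂ j)) (Fin (n₂ j)) ℂ,
      (K₂ j).Act (D.blk (Fin.natAdd r j) Y) b := fun j =>
    C8T.exists_act (K := K₂ j) (D.blk (Fin.natAdd r j) Y) fun v =>
      (C5X.mem_TC (K₂ j)).1 ((hC2d _ _ _ _ (K₂ j)).2 _ ξ (Q3.blk_lie D hK2c Y ξ hY _) _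
        ((C5X.mem_TC (K₂ j)).2 ⟨v, rfl⟩))
  choose a ha using h1
  choose b hb using h2
  exact ⟨a, b, ha, hb⟩

end N0X

open N0X in
/-- N0, general dimensions. -/
theorem N0_gen (hGb4 : Stmt_Gb4) (hK2a : Stmt_K2a) (hK2b : Stmt_K2b) (hK2c : Stmt_K2c)
    (hE2d : Stmt_E2d) (hE5a : Stmt_E5a) (hE5v : Stmt_E5v) (hP8b : Stmt_P8b) (hPQ : Stmt_PQ)
    (hC2d : Stmt_C2d) (hC5v : Stmt_C5v) (hM8b : Stmt_M8b)
    {g : ℕ} {A : AbVar g} {r s : ℕ} {h : Fin (r + s) → ℕ} {B : ∀ i, AbVar (h i)} (D : Decomp A B)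
    {n₁ m₁ : Fin r → ℕ} (K₁ : ∀ i, KSE (B (Fin.castAdd s i)) (n₁ i) (m₁ i))
    {n₂ m₂ : Fin s → ℕ} (K₂ : ∀ j, KSC (B (Fin.natAdd r j)) (n₂ j) (m₂ j))
    (hm3 : ∀ i, 3 ≤ m₁ i) (hm5 : ∀ i, m₁ i ≠ 5) (hc : ∀ j, 1 ≤ m₂ j ∧ (Even (m₂ j) ∨ m₂ j = 1)) :
    TupAlg2 K₁ K₂ (DD2 D K₁ K₂) := by
  obtain ⟨a1, a2, a3, -⟩ := hK2a (Idx g) (Gam A)
  refine ⟨?_, ?_, ?_, ?_, ?_, ?_, ?_⟩
  · rintro a b a' b' c ⟨Y, ξ, hY, hYa, hYb⟩ ⟨Y', ξ', hY', hYa', hYb'⟩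
    refine ⟨Y + c • Y', ξ + c * ξ', a1 Y Y' ξ ξ' c hY hY', fun i v => ?_, fun j v => ?_⟩
    · rw [Q3.blk_add, Matrix.add_mulVec, Matrix.smul_mulVec, E8Y.cl_add, E8Y.cl_smul, ← hYa, ← hYa',
        Matrix.add_mul, Matrix.mul_add, Matrix.smul_mul, Matrix.mul_smul, smul_sub]
      abel
    · rw [Q3.blk_add, Matrix.add_mulVec, Matrix.smul_mulVec, C5X.cl_add, C5X.cl_smul, ← hYb j, ← hYb' j,
        Matrix.add_mul, Matrix.mul_add, Matrix.smul_mul, Matrix.mul_smul, smul_sub]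
      abel
  · refine ⟨0, 0, a2, fun i v => ?_, fun j v => ?_⟩
    · rw [Q3.blk_zero, Pi.zero_apply, Matrix.zero_mulVec, E8Y.cl_zero, Matrix.zero_mul, Matrix.mul_zero,
        sub_zero]
    · rw [Q3.blk_zero, Pi.zero_apply, Matrix.zero_mulVec, C5X.cl_zero, Matrix.zero_mul, Matrix.mul_zero,
        sub_zero]
  · rintro a b a' b' ⟨Y, ξ, hY, hYa, hYb⟩ ⟨Y', ξ', hY', hYa', hYb'⟩
    refine ⟨Y * Y' - Y' * Y, 0, a3 Y Y' ξ ξ' hY hY', fun i v => ?_, fun j v => ?_⟩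
    · rw [Q3.blk_sub, Q3.blk_mul D hK2c _ Y Y' ξ' hY', Q3.blk_mul D hK2c _ Y' Y ξ hY, Matrix.sub_mulVec,
        ← Matrix.mulVec_mulVec, ← Matrix.mulVec_mulVec, E8Y.cl_sub, ← hYa, ← hYa', ← hYa', ← hYa]
      noncomm_ring
    · rw [Q3.blk_sub, Q3.blk_mul D hK2c _ Y Y' ξ' hY', Q3.blk_mul D hK2c _ Y' Y ξ hY, Matrix.sub_mulVec,
        ← Matrix.mulVec_mulVec, ← Matrix.mulVec_mulVec, C5dX.cl_sub, ← hYb j, ← hYb' j, ← hYb' j, ← hYb j]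
      noncomm_ring
  · rintro σ a b ⟨Y, ξ, hY, hYa, hYb⟩
    refine ⟨Y.map σ, σ ξ,
      hK2b (Idx g) (Gam A) (fun σ p hp q h1 h2 => hGb4 g A σ p hp q h1 h2) σ Y ξ hY, fun i w => ?_,
      fun j w => ?_⟩
    · have h1 := congrArg (fun Z : Matrix (Idx (h (Fin.castAdd s i))) (Idx (h (Fin.castAdd s i))) ℂ =>
        Z.map σ) (hYa i fun k => σ.symm (w k))
      have h3 : ∀ Z Z' : Matrix (Idx (h (Fin.castAdd s i))) (Idx (h (Fin.castAdd s i))) ℂ,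
        (Z * Z').map σ = Z.map σ * Z'.map σ := fun Z Z' => Matrix.map_mul (f := (σ : ℂ →+* ℂ))
      have h4 : ∀ Z Z' : Matrix (Idx (h (Fin.castAdd s i))) (Idx (h (Fin.castAdd s i))) ℂ,
          (Z - Z').map σ = Z.map σ - Z'.map σ := by
        intro Z Z'
        ext i j
        rw [Matrix.map_apply, Matrix.sub_apply, map_sub, Matrix.sub_apply, Matrix.map_apply,
          Matrix.map_apply]
      simp only [h4, h3] at h1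
      rw [← E5X.cl_map, ← E5X.cl_map] at h1
      have h5 : (fun i => σ (σ.symm (w i))) = w := by funext i; simp
      rw [h5] at h1
      rw [Q3.blk_map, h1]
      congr 1
      funext k
      simp only [Matrix.mulVec, dotProduct, map_sum, map_mul, Matrix.map_apply,
        AlgEquiv.apply_symm_apply]
    · have h1 := congrArg (fun Z : Matrix (Idx (h (Fin.natAdd r j))) (Idx (h (Fin.natAdd r j))) ℂ =>
        Z.map σ) (hYb j fun k => σ.symm (w k))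
      have h3 : ∀ Z Z' : Matrix (Idx (h (Fin.natAdd r j))) (Idx (h (Fin.natAdd r j))) ℂ,
        (Z * Z').map σ = Z.map σ * Z'.map σ := fun Z Z' => Matrix.map_mul (f := (σ : ℂ →+* ℂ))
      have h4 : ∀ Z Z' : Matrix (Idx (h (Fin.natAdd r j))) (Idx (h (Fin.natAdd r j))) ℂ,
          (Z - Z').map σ = Z.map σ - Z'.map σ := by
        intro Z Z'
        ext i j
        rw [Matrix.map_apply, Matrix.sub_apply, map_sub, Matrix.sub_apply, Matrix.map_apply,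
          Matrix.map_apply]
      simp only [h4, h3] at h1
      rw [← C5X.cl_map, ← C5X.cl_map] at h1
      have h5 : (fun i => σ (σ.symm (w i))) = w := by funext i; simp
      rw [h5] at h1
      rw [Q3.blk_map, h1]
      congr 1
      funext k
      simp only [Matrix.mulVec, dotProduct, map_sum, map_mul, Matrix.map_apply,
        AlgEquiv.apply_symm_apply]
  · rintro a b ⟨Y, ξ, hY, hYa, hYb⟩
    refine ⟨fun i => ?_, fun j => ?_⟩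
    · have hX := Q3.blk_lie D hK2c Y ξ hY (Fin.castAdd s i)
      exact ⟨G0X.skewC (K₁ i) (G0X.bil_zero (K₁ i) hE5a (hYa i)),
        (hE5v _ _ _ _ (K₁ i) (hm3 i)).1 _ _ (hK2c _ _ _ ξ hX).1 (hYa i)⟩
    · have hX := Q3.blk_lie D hK2c Y ξ hY (Fin.natAdd r j)
      exact (hC5v _ _ _ _ (K₂ j) (hc j).1).1 _ _ (hK2c _ _ _ ξ hX).1 (hYb j)
  · intro i x hx
    obtain ⟨-, -, -, hF, -⟩ := hPQ g A (r + s) h B D
    obtain ⟨X, ξ, ⟨Y, hY, rfl⟩, hXa⟩ := hP8b _ _ (D.L (Fin.castAdd s i)) (hF _) _ _ (K₁ i) (hm3 i) (hm5 i) x hx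
    obtain ⟨a, b, ha, hb⟩ := exists_tup (D := D) (K₁ := K₁) (K₂ := K₂) hK2c hE2d hC2d Y ξ hY
    refine ⟨a, b, ⟨Y, ξ, hY, ha, hb⟩, ?_⟩
    refine E5L.mat_ext fun v => ?_
    have h1 := (ha i v).symm.trans (hXa v)
    have h2 := (hE5a _ _ _ _ (K₁ i)).2.1 (a i *ᵥ v - x *ᵥ v) (by
      rw [E8Y.cl_sub, h1, sub_self])
    exact sub_eq_zero.1 h2
  · intro j x hx y hy
    obtain ⟨-, -, -, hF, -⟩ := hPQ g A (r + s) h B D
    obtain ⟨X, ξ, ⟨Y, hY, rfl⟩, hXa⟩ := hM8b _ _ (D.L (Fin.natAdd r j)) (hF _) _ _ (K₂ j)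
      (hc j).1 (hc j).2 x hx y hy
    obtain ⟨a, b, ha, hb⟩ := exists_tup (D := D) (K₁ := K₁) (K₂ := K₂) hK2c hE2d hC2d Y ξ hY
    refine ⟨a, b, ⟨Y, ξ, hY, ha, hb⟩, ?_⟩
    refine C5X.mat_ext fun v => ?_
    exact C5X.cl_inj (K₂ j) ((hb j v).symm.trans (hXa v))

/-- N0. -/
theorem N0_proof (hGb4 : Stmt_Gb4) (hK2a : Stmt_K2a) (hK2b : Stmt_K2b) (hK2c : Stmt_K2c)
    (hE2d : Stmt_E2d) (hE5a : Stmt_E5a) (hE5v : Stmt_E5v) (hP8b : Stmt_P8b) (hPQ : Stmt_PQ)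
    (hC2d : Stmt_C2d) (hC5v : Stmt_C5v) (hM8b : Stmt_M8b) :
    Stmt_N0 := by
  intro g A r s h B D n₁ m₁ K₁ n₂ m₂ K₂ hm
  exact N0_gen hGb4 hK2a hK2b hK2c hE2d hE5a hE5v hP8b hPQ hC2d hC5v hM8b D K₁ K₂
    (fun i => by have := hm.1 i; omega) (fun i => by have := hm.1 i; omega)
    hm.2.1

end Pool.Agent.K3M
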