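import Pool.Agent.K3M.Stmts
import Pool.Agent.K3C.C8b1

/-!
# NC: the sigma case at a pair of places, statement
-/

set_option autoImplicit false

open scoped BigOperators
open Matrix Polynomial

namespace Pool.Agent.K3M

open Pool.Agent.DRB Pool.Agent.K3D Pool.Agent.K3E Pool.Agent.K3C Pool.Agent.K3P

/-- The restriction of an element of `S` to an eigenspace. -/
noncomputable def rs {g n m : ℕ} {A : AbVar g} (K : KSC A n m) (z : ℂ) (a : Matrix (Fin n) (Fin n) ℂ)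
    (ha : a ∈ K.S) : Module.End ℂ (K.Tl z) :=
  (Matrix.toLin' a).restrict fun v hv => by
    rw [Matrix.toLin'_apply]; exact C5L.S_pres K ha hv

/-- NS. The sigma case: a Lie algebra acting on `T_z` and on `T'_w` by `sl(T_z)` and by `sl(T'_w)`, isomorphic
to both, does not exist if `σ` fixes the place `z` and exchanges the place `w` and its conjugate. -/
def Stmt_NS : Prop :=
  ∀ (g n m g' n' m' : ℕ) (A : AbVar g) (A' : AbVar g') (K : KSC A n m) (K' : KSC A' n' m'), 3 ≤ m → 3 ≤ m' →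
    ∀ (z w : ℂ), aeval z K.P = 0 → aeval w K'.P = 0 → ∀ σ : ℂ ≃ₐ[ℚ] ℂ, σ z = z →
    σ w = (starRingEnd ℂ) w →
    ∀ D : Submodule ℂ (Matrix (Fin n) (Fin n) ℂ × Matrix (Fin n') (Fin n') ℂ),
    (∀ p ∈ D, p.1 ∈ K.S ∧ p.2 ∈ K'.S) →
    (∀ p ∈ D, ∀ q ∈ D, (p.1 * q.1 - q.1 * p.1, p.2 * q.2 - q.2 * p.2) ∈ D) →
    (∀ p ∈ D, (p.1.map σ, p.2.map σ) ∈ D) →
    (∀ p ∈ D, (∀ v ∈ K.Tl z, p.1 *ᵥ v = 0) ↔ ∀ v ∈ K'.Tl w, p.2 *ᵥ v = 0) →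
    (∀ p ∈ D, ∀ h : p.1 ∈ K.S, LinearMap.trace ℂ _ (rs K z p.1 h) = 0) →
    (∀ p ∈ D, ∀ h : p.2 ∈ K'.S, LinearMap.trace ℂ _ (rs K' w p.2 h) = 0) →
    (∀ a, ∀ h : a ∈ K.S, LinearMap.trace ℂ _ (rs K z a h) = 0 → ∃ p ∈ D, ∀ v ∈ K.Tl z, p.1 *ᵥ v = a *ᵥ v) →
    (∀ a, ∀ h : a ∈ K'.S, LinearMap.trace ℂ _ (rs K' w a h) = 0 →
      ∃ p ∈ D, ∀ v ∈ K'.Tl w, p.2 *ᵥ v = a *ᵥ v) →
    False

end Pool.Agent.K3M
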