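import Pool.Agent.K3C.C8t

/-!
# SF: dual vectors fixed by an automorphism
-/

set_option autoImplicit false

open scoped BigOperators
open Matrix Polynomial

namespace Pool.Agent.K3M

open Pool.Agent.DRB Pool.Agent.K3D Pool.Agent.K3E Pool.Agent.K3C

namespace SFX

variable {g n m : ℕ} {A : AbVar g} (K : KSC A n m)

theorem sv_thC (σ : ℂ ≃ₐ[ℚ] ℂ) (v : Fin n → ℂ) :
    (fun i => σ ((K.thC *ᵥ v) i)) = K.thC *ᵥ fun i => σ (v i) := by
  funext i
  simp only [Matrix.mulVec, dotProduct, map_sum, map_mul]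
  refine Finset.sum_congr rfl fun k _ => ?_
  congr 1
  simp [KSC.thC]

theorem sv_aeval (σ : ℂ ≃ₐ[ℚ] ℂ) (p : ℂ[X]) : ∀ v : Fin n → ℂ,
    (fun i => σ ((aeval K.thC p *ᵥ v) i)) = aeval K.thC (p.map (σ : ℂ →+* ℂ)) *ᵥ fun i => σ (v i) := by
  induction p using Polynomial.induction_on with
  | C a =>
    intro v
    rw [Polynomial.map_C, aeval_C, aeval_C]
    funext i
    rw [Algebra.algebraMap_eq_smul_one, Algebra.algebraMap_eq_smul_one, Matrix.smul_mulVec,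
      Matrix.smul_mulVec, Matrix.one_mulVec, Matrix.one_mulVec, Pi.smul_apply, Pi.smul_apply, smul_eq_mul,
      smul_eq_mul, map_mul]
    rfl
  | add p q hp hq =>
    intro v
    have h1 := hp v
    have h2 := hq v
    rw [Polynomial.map_add, map_add, map_add, Matrix.add_mulVec, Matrix.add_mulVec, ← h1, ← h2]
    funext i
    rw [Pi.add_apply, map_add, Pi.add_apply]
  | monomial k a hp =>
    intro v
    have e1 : (C a * X ^ (k + 1) : ℂ[X]) = (C a * X ^ k) * X := by rw [pow_succ, mul_assoc]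
    have e2 : ∀ (q : ℂ[X]) (u : Fin n → ℂ), aeval K.thC (q * X) *ᵥ u = aeval K.thC q *ᵥ (K.thC *ᵥ u) := by
      intro q u
      rw [map_mul, aeval_X, ← Matrix.mulVec_mulVec]
    rw [e1, Polynomial.map_mul, Polynomial.map_X, e2, e2, ← sv_thC, hp]

theorem bil_sv (σ : ℂ ≃ₐ[ℚ] ℂ) (v w : Fin n → ℂ) :
    σ (K.bil v w) = K.bil (fun i => σ (v i)) (fun i => σ (w i)) := by
  unfold KSC.bil
  rw [map_sum]
  refine Finset.sum_congr rfl fun i _ => ?_
  simp

/-- The fixed vectors generate the eigenspace. -/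
theorem exists_fixed (σ : ℂ ≃ₐ[ℚ] ℂ) {z : ℂ} (hz : aeval z K.P = 0) (hσ : σ z = z)
    (W : Submodule ℂ (Fin n → ℂ)) (hW : ¬ K.Tl z ≤ W) :
    ∃ w ∈ K.Tl z, (fun i => σ (w i)) = w ∧ w ∉ W := by
  set P : ℂ[X] := K.P.map (algebraMap ℚ ℂ) with hP
  have hPz : P.IsRoot z := by
    rw [hP, Polynomial.IsRoot.def, Polynomial.eval_map_algebraMap, hz]
  set Q : ℂ[X] := P /ₘ (X - C z) with hQ
  have hPQ : (X - C z) * Q = P := mul_divByMonic_eq_iff_isRoot.2 hPz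
  have hQz : Q.eval z ≠ 0 := by
    have h1 := K.irr.separable.aeval_derivative_ne_zero hz
    have h2 : aeval z (derivative K.P) = (derivative P).eval z := by
      rw [hP, Polynomial.derivative_map, Polynomial.eval_map_algebraMap]
    rw [h2, ← hPQ, derivative_mul] at h1
    simpa using h1
  have hQσ : Q.map (σ : ℂ →+* ℂ) = Q := by
    rw [hQ, Polynomial.map_divByMonic _ (monic_X_sub_C z), Polynomial.map_sub, Polynomial.map_X,
      Polynomial.map_C]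
    have h1 : P.map (σ : ℂ →+* ℂ) = P := by
      rw [hP, Polynomial.map_map]
      congr 1
      ext q
      exact σ.commutes q
    rw [h1]
    have h2 : (σ : ℂ →+* ℂ) z = z := hσ
    rw [h2]
  have hPT : aeval K.thC P = 0 := by
    rw [hP, aeval_map_algebraMap]
    exact C5L.thC_aeval K
  have hmem : ∀ v, aeval K.thC Q *ᵥ v ∈ K.Tl z := by
    intro v
    have h1 : (K.thC - z • 1) * aeval K.thC Q = 0 := by
      rw [← hPT, ← hPQ, map_mul, map_sub, aeval_X, aeval_C, Algebra.algebraMap_eq_smul_one]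
    have h2 : ((K.thC - z • 1) * aeval K.thC Q) *ᵥ v = 0 := by rw [h1, Matrix.zero_mulVec]
    rw [← Matrix.mulVec_mulVec, Matrix.sub_mulVec, Matrix.smul_mulVec, Matrix.one_mulVec] at h2
    exact sub_eq_zero.1 h2
  by_contra hcon
  push Not at hcon
  apply hW
  intro v hv
  have h3 : ∀ i, aeval K.thC Q *ᵥ Pi.single i 1 ∈ W := by
    intro i
    refine hcon _ (hmem _) ?_
    rw [sv_aeval, hQσ]
    congr 1
    funext k
    by_cases hk : k = i
    · subst hk; simp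
    · rw [Pi.single_eq_of_ne hk, map_zero]
  have h4 : aeval K.thC Q *ᵥ v ∈ W := by
    have h5 : v = ∑ i, v i • (Pi.single i 1 : Fin n → ℂ) := by
      funext k
      rw [Finset.sum_apply, Finset.sum_eq_single k]
      · simp
      · intro b _ hb
        rw [Pi.smul_apply, Pi.single_eq_of_ne hb.symm, smul_zero]
      · intro h; exact absurd (Finset.mem_univ k) h
    rw [h5, Matrix.mulVec_sum]
    refine Submodule.sum_mem _ fun i _ => ?_
    rw [Matrix.mulVec_smul]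
    exact W.smul_mem _ (h3 i)
  rw [C5L.aeval_mulVecC K Q hv] at h4
  have h6 := W.smul_mem (Q.eval z)⁻¹ h4
  rwa [smul_smul, inv_mul_cancel₀ hQz, one_smul] at h6

/-- Dual vectors fixed by an automorphism. -/
theorem exists_dual (hm : 2 ≤ m) (σ : ℂ ≃ₐ[ℚ] ℂ) {z : ℂ} (hz : aeval z K.P = 0) (hσ : σ z = z) :
    ∃ x₁ ∈ K.Tl z, ∃ x₂ ∈ K.Tl z, ∃ y₁ ∈ K.Tl ((starRingEnd ℂ) z), ∃ y₂ ∈ K.Tl ((starRingEnd ℂ) z),
      ((fun i => σ (x₁ i)) = x₁ ∧ (fun i => σ (x₂ i)) = x₂ ∧ (fun i => σ (y₁ i)) = y₁ ∧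
        (fun i => σ (y₂ i)) = y₂) ∧
      K.bil x₁ y₁ = 1 ∧ K.bil x₂ y₂ = 1 ∧ K.bil x₁ y₂ = 0 ∧ K.bil x₂ y₁ = 0 := by
  have hzc := C5L.conj_root K hz
  have hσc : σ ((starRingEnd ℂ) z) = (starRingEnd ℂ) z := by
    rw [C8T.conj_aut K σ hz, hσ]
  have hfix : ∀ {v w : Fin n → ℂ}, (fun i => σ (v i)) = v → (fun i => σ (w i)) = w →
      σ (K.bil v w) = K.bil v w := by
    intro v w hv hw
    rw [bil_sv, hv, hw]
  have hsm : ∀ {c : ℂ} {v : Fin n → ℂ}, σ c = c → (fun i => σ (v i)) = v →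
      (fun i => σ ((c • v) i)) = c • v := by
    intro c v hc hv
    funext i
    rw [Pi.smul_apply, smul_eq_mul, map_mul, hc, congrFun hv i]
  have hsb : ∀ {v w : Fin n → ℂ}, (fun i => σ (v i)) = v → (fun i => σ (w i)) = w →
      (fun i => σ ((v - w) i)) = v - w := by
    intro v w hv hw
    funext i
    rw [Pi.sub_apply, map_sub, congrFun hv i, congrFun hw i]
  have hsub : ∀ a b c : Fin n → ℂ, K.bil (a - b) c = K.bil a c - K.bil b c := by
    intro a b c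
    rw [sub_eq_add_neg, C5L.bil_add_left, ← neg_one_smul ℂ b, C5L.bil_smul_left]
    ring
  have hsub' : ∀ a b c : Fin n → ℂ, K.bil c (a - b) = K.bil c a - K.bil c b := by
    intro a b c
    rw [C5L.bil_comm, hsub, C5L.bil_comm K a, C5L.bil_comm K b]
  have hf := C5L.finrank_Tl K hz
  -- x₁
  obtain ⟨x₁, hx₁, fx₁, hx₁0⟩ := exists_fixed K σ hz hσ ⊥ (by
    intro h
    rw [le_bot_iff.1 h, finrank_bot] at hf
    omega)
  rw [Submodule.mem_bot] at hx₁0
  have hpair : ∀ x ∈ K.Tl z, x ≠ 0 → ∃ y ∈ K.Tl ((starRingEnd ℂ) z), (fun i => σ (y i)) = y ∧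
      K.bil x y ≠ 0 := by
    intro x hx hx0
    obtain ⟨y, hy, fy, hy0⟩ := exists_fixed K σ hzc hσc (LinearMap.ker (C5L.bf K x)) (by
      intro h
      apply hx0
      refine C5L.nondegT K hx fun w hw => ?_
      have h1 := h hw
      rw [LinearMap.mem_ker, C5L.bf_apply] at h1
      exact h1)
    refine ⟨y, hy, fy, ?_⟩
    intro h
    exact hy0 (by rw [LinearMap.mem_ker, C5L.bf_apply]; exact h)
  obtain ⟨y, hy, fy, hy0⟩ := hpair x₁ hx₁ hx₁0
  set y₁ := (K.bil x₁ y)⁻¹ • y with hy₁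
  have hy₁m : y₁ ∈ K.Tl ((starRingEnd ℂ) z) := Submodule.smul_mem _ _ hy
  have fy₁ : (fun i => σ (y₁ i)) = y₁ := hsm (by rw [map_inv₀, hfix fx₁ fy]) fy
  have h11 : K.bil x₁ y₁ = 1 := by
    rw [hy₁, C5L.bil_smul_right, inv_mul_cancel₀ hy0]
  -- x₂
  obtain ⟨v, hv, fv, hv0⟩ := exists_fixed K σ hz hσ (Submodule.span ℂ {x₁}) (by
    intro h
    have h1 := Submodule.finrank_mono h
    have h2 := finrank_span_singleton (K := ℂ) hx₁0
    omega)
  set x₂ := v - K.bil v y₁ • x₁ with hx₂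
  have hx₂m : x₂ ∈ K.Tl z := Submodule.sub_mem _ hv (Submodule.smul_mem _ _ hx₁)
  have fx₂ : (fun i => σ (x₂ i)) = x₂ := hsb fv (hsm (hfix fv fy₁) fx₁)
  have h21 : K.bil x₂ y₁ = 0 := by
    rw [hx₂, hsub, C5L.bil_smul_left, h11, mul_one, sub_self]
  have hx₂0 : x₂ ≠ 0 := by
    intro h
    apply hv0
    rw [Submodule.mem_span_singleton]
    exact ⟨K.bil v y₁, (sub_eq_zero.1 h).symm⟩
  obtain ⟨w, hw, fw, hw0⟩ := hpair x₂ hx₂m hx₂0
  set y₂ := (K.bil x₂ w)⁻¹ • (w - K.bil x₁ w • y₁) with hy₂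
  have hy₂m : y₂ ∈ K.Tl ((starRingEnd ℂ) z) :=
    Submodule.smul_mem _ _ (Submodule.sub_mem _ hw (Submodule.smul_mem _ _ hy₁m))
  have fy₂ : (fun i => σ (y₂ i)) = y₂ :=
    hsm (by rw [map_inv₀, hfix fx₂ fw]) (hsb fw (hsm (hfix fx₁ fw) fy₁))
  refine ⟨x₁, hx₁, x₂, hx₂m, y₁, hy₁m, y₂, hy₂m, ⟨fx₁, fx₂, fy₁, fy₂⟩, h11, ?_, ?_, h21⟩
  · rw [hy₂, C5L.bil_smul_right, hsub', C5L.bil_smul_right, h21, mul_zero, sub_zero,
      inv_mul_cancel₀ hw0]
  · rw [hy₂, C5L.bil_smul_right, hsub', C5L.bil_smul_right, h11, mul_one, sub_self, mul_zero]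

end SFX

end Pool.Agent.K3M
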