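import Pool.Agent.K3M.NS1
import Pool.Agent.K3M.NCd
import Pool.Agent.K3M.SF
import Pool.Agent.K3P.GG1

/-!
# NS: the sigma case at a pair of places
-/

set_option autoImplicit false

open scoped BigOperators
open Matrix Polynomial

namespace Pool.Agent.K3M

open Pool.Agent.DRB Pool.Agent.K3D Pool.Agent.K3E Pool.Agent.K3C Pool.Agent.K3P

noncomputable section

namespace NSX

open C5L (wm wm_mulVec)

/-- Dual bases at a place. -/
structure Pl {g n m : ℕ} {A : AbVar g} (K : KSC A n m) (z : ℂ) (ι : Type) [Fintype ι] [DecidableEq ι] where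
  b : ι → (Fin n → ℂ)
  b' : ι → (Fin n → ℂ)
  hb : ∀ i, b i ∈ K.Tl z
  hb' : ∀ i, b' i ∈ K.Tl ((starRingEnd ℂ) z)
  h0 : ∀ i j, K.bil (b' i) (b j) = if j = i then 1 else 0
  h1 : ∀ v ∈ K.Tl z, ∑ j, K.bil (b' j) v • b j = v
  h2 : ∀ v ∈ K.Tl ((starRingEnd ℂ) z), ∑ j, K.bil (b j) v • b' j = v

variable {g n m : ℕ} {A : AbVar g} {K : KSC A n m} {z : ℂ} {ι : Type} [Fintype ι] [DecidableEq ι]

theorem exists_Pl (K : KSC A n m) {z : ℂ} (hz : aeval z K.P = 0) :
    Nonempty (Pl K z (Fin (Module.finrank ℂ (K.Tl z)))) := by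
  obtain ⟨b, b', hb, hb', h0, h1, h2⟩ := C8D.dual K hz
  exact ⟨⟨b, b', hb, hb', h0, h1, h2⟩⟩

theorem bil_sum_right (K : KSC A n m) (v : Fin n → ℂ) (c : ι → ℂ) (b : ι → (Fin n → ℂ)) :
    K.bil v (∑ i, c i • b i) = ∑ i, c i * K.bil v (b i) := by
  rw [← C5L.bf_apply, map_sum]
  exact Finset.sum_congr rfl fun i _ => by rw [map_smul, C5L.bf_apply, smul_eq_mul]

/-- The matrix at a place. -/
def rho (P : Pl K z ι) : Matrix (Fin n) (Fin n) ℂ →ₗ[ℂ] Matrix ι ι ℂ where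
  toFun X := Matrix.of fun k l => K.bil (P.b' k) (X *ᵥ P.b l)
  map_add' X Y := by
    ext k l
    simp only [Matrix.of_apply, Matrix.add_apply, Matrix.add_mulVec, C5L.bil_add_right]
  map_smul' c X := by
    ext k l
    simp only [Matrix.of_apply, Matrix.smul_apply, Matrix.smul_mulVec, C5L.bil_smul_right, smul_eq_mul,
      RingHom.id_apply]

theorem rho_apply (P : Pl K z ι) (X : Matrix (Fin n) (Fin n) ℂ) (k l : ι) :
    rho P X k l = K.bil (P.b' k) (X *ᵥ P.b l) := rfl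

theorem mulVec_b (P : Pl K z ι) {X : Matrix (Fin n) (Fin n) ℂ} (hX : X ∈ K.S) (l : ι) :
    X *ᵥ P.b l = ∑ k, rho P X k l • P.b k :=
  (P.h1 _ (C5L.S_pres K hX (P.hb l))).symm

theorem rho_mul (P : Pl K z ι) {X Y : Matrix (Fin n) (Fin n) ℂ} (hY : Y ∈ K.S) :
    rho P (X * Y) = rho P X * rho P Y := by
  ext k l
  rw [rho_apply, ← Matrix.mulVec_mulVec, mulVec_b P hY, Matrix.mul_apply]
  have h1 : X *ᵥ (∑ p, rho P Y p l • P.b p) = ∑ p, rho P Y p l • (X *ᵥ P.b p) := by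
    have h2 := map_sum (Matrix.mulVecLin X) (fun p => rho P Y p l • P.b p) Finset.univ
    simp only [map_smul, Matrix.mulVecLin_apply] at h2
    exact h2
  rw [h1, bil_sum_right]
  exact Finset.sum_congr rfl fun p _ => by rw [rho_apply P X, mul_comm]

/-- matrices are equal at the place -/
theorem eq_of_rho (P : Pl K z ι) {X Y : Matrix (Fin n) (Fin n) ℂ} (hX : X ∈ K.S) (hY : Y ∈ K.S)
    (h : rho P X = rho P Y) {v : Fin n → ℂ} (hv : v ∈ K.Tl z) : X *ᵥ v = Y *ᵥ v := by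
  have h1 : ∀ Z : Matrix (Fin n) (Fin n) ℂ, Z *ᵥ v = ∑ l, K.bil (P.b' l) v • (Z *ᵥ P.b l) := by
    intro Z
    conv_lhs => rw [← P.h1 v hv]
    have h2 := map_sum (Matrix.mulVecLin Z) (fun l => K.bil (P.b' l) v • P.b l) Finset.univ
    simp only [map_smul, Matrix.mulVecLin_apply] at h2
    exact h2
  rw [h1 X, h1 Y]
  exact Finset.sum_congr rfl fun l _ => by rw [mulVec_b P hX, mulVec_b P hY, h]

theorem rho_of_eq (P : Pl K z ι) {X Y : Matrix (Fin n) (Fin n) ℂ}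
    (h : ∀ v ∈ K.Tl z, X *ᵥ v = Y *ᵥ v) : rho P X = rho P Y := by
  ext k l
  rw [rho_apply, rho_apply, h _ (P.hb l)]

theorem rho_wm (P : Pl K z ι) (hzz : (starRingEnd ℂ) z ≠ z) {x y : Fin n → ℂ} (hx : x ∈ K.Tl z) (k l : ι) :
    rho P (wm K x y) k l = K.bil (P.b' k) x * K.bil y (P.b l) := by
  rw [rho_apply, wm_mulVec, C5L.orth K (Ne.symm hzz) hx (P.hb l), zero_smul, sub_zero, C5L.bil_smul_right,
    mul_comm]

theorem sum_dual (P : Pl K z ι) {x y : Fin n → ℂ} (hx : x ∈ K.Tl z) :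
    ∑ k, K.bil (P.b' k) x * K.bil y (P.b k) = K.bil y x := by
  conv_rhs => rw [← P.h1 x hx, bil_sum_right]

/-- The section. -/
def sec (P : Pl K z ι) (X : Matrix ι ι ℂ) : Matrix (Fin n) (Fin n) ℂ :=
  ∑ k, ∑ l, X k l • wm K (P.b k) (P.b' l)

theorem sec_mem (P : Pl K z ι) (hz : aeval z K.P = 0) (X : Matrix ι ι ℂ) : sec P X ∈ K.S :=
  Submodule.sum_mem _ fun k _ => Submodule.sum_mem _ fun l _ =>
    Submodule.smul_mem _ _ (C5L.wm_mem K hz (P.hb k) (P.hb' l))

theorem rho_sec (P : Pl K z ι) (hzz : (starRingEnd ℂ) z ≠ z) (X : Matrix ι ι ℂ) : rho P (sec P X) = X := by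
  ext k l
  rw [sec, map_sum, Matrix.sum_apply, Finset.sum_eq_single k]
  · rw [map_sum, Matrix.sum_apply, Finset.sum_eq_single l]
    · rw [map_smul, Matrix.smul_apply, rho_wm P hzz (P.hb k), P.h0, P.h0, if_pos rfl, if_pos rfl,
        mul_one, smul_eq_mul, mul_one]
    · intro q _ hq
      rw [map_smul, Matrix.smul_apply, rho_wm P hzz (P.hb k), P.h0 q l, if_neg (Ne.symm hq), mul_zero,
        smul_zero]
    · intro h; exact absurd (Finset.mem_univ l) h
  · intro q _ hq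
    rw [map_sum, Matrix.sum_apply]
    refine Finset.sum_eq_zero fun p _ => ?_
    rw [map_smul, Matrix.smul_apply, rho_wm P hzz (P.hb q), P.h0 k q, if_neg hq, zero_mul, smul_zero]
  · intro h; exact absurd (Finset.mem_univ k) h

/-- The basis. -/
def bas (P : Pl K z ι) : Module.Basis ι ℂ (K.Tl z) := Module.Basis.ofEquivFun
  { toFun := fun v k => K.bil (P.b' k) v.1
    map_add' := fun v w => by
      funext k; simp only [Submodule.coe_add, C5L.bil_add_right, Pi.add_apply]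
    map_smul' := fun c v => by
      funext k
      simp only [Submodule.coe_smul, C5L.bil_smul_right, Pi.smul_apply, smul_eq_mul, RingHom.id_apply]
    invFun := fun c => ⟨∑ k, c k • P.b k, Submodule.sum_mem _ fun k _ => Submodule.smul_mem _ _ (P.hb k)⟩
    left_inv := fun v => Subtype.ext (P.h1 v.1 v.2)
    right_inv := fun c => by
      funext k
      show K.bil (P.b' k) (∑ l, c l • P.b l) = c k
      rw [bil_sum_right, Finset.sum_eq_single k, P.h0, if_pos rfl, mul_one]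
      · intro l _ hl
        rw [P.h0, if_neg hl, mul_zero]
      · intro h; exact absurd (Finset.mem_univ k) h }

theorem bas_coe (P : Pl K z ι) (l : ι) : (bas P l : Fin n → ℂ) = P.b l := by
  have h1 : (bas P l : Fin n → ℂ) = ∑ k, (Pi.single l (1 : ℂ) : ι → ℂ) k • P.b k := by
    rw [bas, Module.Basis.coe_ofEquivFun]
    rfl
  rw [h1, Finset.sum_eq_single l, Pi.single_eq_same, one_smul]
  · intro k _ hk
    rw [Pi.single_eq_of_ne hk, zero_smul]
  · intro h; exact absurd (Finset.mem_univ l) h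

theorem tr_rs (P : Pl K z ι) {X : Matrix (Fin n) (Fin n) ℂ} (hX : X ∈ K.S) :
    LinearMap.trace ℂ _ (rs K z X hX) = (rho P X).trace := by
  rw [LinearMap.trace_eq_matrix_trace ℂ (bas P)]
  congr 1
  ext k l
  rw [LinearMap.toMatrix_apply, rho_apply, ← bas_coe]
  rfl

/-- The dual place. -/
def Pl.swap (P : Pl K z ι) : Pl K ((starRingEnd ℂ) z) ι where
  b := P.b'
  b' := P.b
  hb := P.hb'
  hb' := fun i => by rw [Complex.conj_conj]; exact P.hb i
  h0 := fun i j => by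
    rw [C5L.bil_comm, P.h0]
    by_cases h : i = j
    · rw [if_pos h, if_pos h.symm]
    · rw [if_neg h, if_neg (Ne.symm h)]
  h1 := P.h2
  h2 := fun v hv => by
    rw [Complex.conj_conj] at hv
    exact P.h1 v hv

theorem rho_swap (P : Pl K z ι) {X : Matrix (Fin n) (Fin n) ℂ} (hX : X ∈ K.S) :
    rho P.swap X = -(rho P X)ᵀ := by
  ext k l
  rw [Matrix.neg_apply, Matrix.transpose_apply, rho_apply, rho_apply]
  show K.bil (P.b k) (X *ᵥ P.b' l) = -K.bil (P.b' l) (X *ᵥ P.b k)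
  rw [C5L.bil_comm K (P.b' l)]
  have h1 := C5L.bil_S K hX (P.b k) (P.b' l)
  rw [h1, neg_neg]

theorem map_aux (K : KSC A n m) (σ : ℂ ≃ₐ[ℚ] ℂ) (b b' : ι → (Fin n → ℂ)) (v : Fin n → ℂ)
    (h : ∑ j, K.bil (b' j) (fun k => σ.symm (v k)) • b j = fun k => σ.symm (v k)) :
    ∑ j, K.bil (fun k => σ (b' j k)) v • (fun k => σ (b j k)) = v := by
  have e : ∀ j, K.bil (fun k => σ (b' j k)) v = σ (K.bil (b' j) fun k => σ.symm (v k)) := by
    intro j
    rw [← C5X.bil_map]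
    simp only [AlgEquiv.apply_symm_apply]
  funext k
  have h1 := congrArg σ (congrFun h k)
  rw [σ.apply_symm_apply] at h1
  rw [← h1]
  simp only [Finset.sum_apply, Pi.smul_apply, smul_eq_mul, map_sum, map_mul, e]

/-- The conjugate place. -/
def Pl.map (P : Pl K z ι) (σ : ℂ ≃ₐ[ℚ] ℂ) (hz : aeval z K.P = 0) : Pl K (σ z) ι where
  b := fun i k => σ (P.b i k)
  b' := fun i k => σ (P.b' i k)
  hb := fun i => C5L.map_Tl K σ (P.hb i)
  hb' := fun i => by
    rw [← C8T.conj_aut K σ hz]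
    exact C5L.map_Tl K σ (P.hb' i)
  h0 := fun i j => by
    rw [C5X.bil_map, P.h0]
    split_ifs <;> simp
  h1 := fun v hv => by
    have hv' := C5L.map_Tl K σ.symm hv
    rw [σ.symm_apply_apply] at hv'
    exact map_aux K σ P.b P.b' v (P.h1 _ hv')
  h2 := fun v hv => by
    have hv' := C5L.map_Tl K σ.symm hv
    rw [← C8T.conj_aut K σ hz, σ.symm_apply_apply] at hv'
    exact map_aux K σ P.b' P.b v (P.h2 _ hv')

theorem rho_map (P : Pl K z ι) (σ : ℂ ≃ₐ[ℚ] ℂ) (hz : aeval z K.P = 0) (X : Matrix (Fin n) (Fin n) ℂ) :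
    rho (P.map σ hz) (X.map σ) = (rho P X).map σ := by
  ext k l
  rw [Matrix.map_apply, rho_apply, rho_apply]
  show K.bil (fun i => σ (P.b' k i)) ((X.map σ) *ᵥ fun i => σ (P.b l i)) = _
  rw [GGX.map_mulVec]
  simp only [AlgEquiv.symm_apply_apply]
  exact C5X.bil_map K σ _ _

/-- Change of bases. -/
theorem rho_change (P Q : Pl K z ι) {X : Matrix (Fin n) (Fin n) ℂ} (hX : X ∈ K.S) :
    ∃ U V : Matrix ι ι ℂ, U * V = 1 ∧ V * U = 1 ∧ rho Q X = U * rho P X * V := by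
  let U : Matrix ι ι ℂ := Matrix.of fun k l => K.bil (Q.b' k) (P.b l)
  let V : Matrix ι ι ℂ := Matrix.of fun k l => K.bil (P.b' k) (Q.b l)
  have hV : ∀ l, Q.b l = ∑ p, V p l • P.b p := fun l => (P.h1 _ (Q.hb l)).symm
  have hUV : U * V = 1 := by
    ext k l
    rw [Matrix.mul_apply, Matrix.one_apply]
    have h1 : ∑ p, U k p * V p l = K.bil (Q.b' k) (Q.b l) := by
      conv_rhs => rw [hV l, bil_sum_right]
      exact Finset.sum_congr rfl fun p _ => by rw [mul_comm]; rfl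
    rw [h1, Q.h0]
    by_cases h : k = l
    · rw [if_pos h, if_pos h.symm]
    · rw [if_neg h, if_neg (Ne.symm h)]
  refine ⟨U, V, hUV, mul_eq_one_comm.1 hUV, ?_⟩
  ext k l
  rw [rho_apply, hV l, mul_assoc, Matrix.mul_apply]
  have h1 : X *ᵥ (∑ p, V p l • P.b p) = ∑ q, (rho P X * V) q l • P.b q := by
    have h2 := map_sum (Matrix.mulVecLin X) (fun p => V p l • P.b p) Finset.univ
    simp only [map_smul, Matrix.mulVecLin_apply] at h2
    rw [h2]
    simp only [mulVec_b P hX, Finset.smul_sum, smul_smul]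
    rw [Finset.sum_comm]
    refine Finset.sum_congr rfl fun q _ => ?_
    rw [← Finset.sum_smul, Matrix.mul_apply]
    congr 1
    exact Finset.sum_congr rfl fun p _ => mul_comm _ _
  rw [h1, bil_sum_right]
  exact Finset.sum_congr rfl fun q _ => by rw [mul_comm]; rfl

end NSX

open NSX in
/-- NS. -/
theorem NS_proof : Stmt_NS := by
  classical
  intro g n m g' n' m' A A' K K' hm hm' z w hz hw σ hσz hσw D hS hbr hσ hker htr htr' hon hon'
  have hzz := C5L.conj_ne K hz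
  have hww := C5L.conj_ne K' hw
  obtain ⟨P⟩ := exists_Pl K hz
  obtain ⟨Q⟩ := exists_Pl K' hw
  have hcι : Fintype.card (Fin (Module.finrank ℂ (K.Tl z))) = m := by
    rw [Fintype.card_fin, C5L.finrank_Tl K hz]
  have hcκ : Fintype.card (Fin (Module.finrank ℂ (K'.Tl w))) = m' := by
    rw [Fintype.card_fin, C5L.finrank_Tl K' hw]
  generalize Module.finrank ℂ (K.Tl z) = N1 at P hcι
  generalize Module.finrank ℂ (K'.Tl w) = N2 at Q hcκ
  rw [Fintype.card_fin] at hcι hcκ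
  subst hcι; subst hcκ
  haveI : Nonempty (Fin N1) := ⟨⟨0, by omega⟩⟩
  haveI : Nonempty (Fin N2) := ⟨⟨0, by omega⟩⟩
  let f : D →ₗ[ℂ] Matrix (Fin N1) (Fin N1) ℂ := rho P ∘ₗ LinearMap.fst ℂ _ _ ∘ₗ D.subtype
  let k : D →ₗ[ℂ] Matrix (Fin N2) (Fin N2) ℂ := rho Q ∘ₗ LinearMap.snd ℂ _ _ ∘ₗ D.subtype
  have hf : ∀ t : D, f t = rho P t.1.1 := fun t => rfl
  have hk : ∀ t : D, k t = rho Q t.1.2 := fun t => rfl
  have tf0 : ∀ t : D, (f t).trace = 0 := fun t => by
    rw [hf, ← tr_rs P (hS _ t.2).1]; exact htr _ t.2 _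
  have tk0 : ∀ t : D, (k t).trace = 0 := fun t => by
    rw [hk, ← tr_rs Q (hS _ t.2).2]; exact htr' _ t.2 _
  have H : GH (fun s t : D => (⟨_, hbr _ s.2 _ t.2⟩ : D)) f k := by
    refine ⟨fun s t => ?_, fun s t => ?_, fun X hX => ?_, fun X hX => ?_⟩
    · rw [hf]
      show rho P (s.1.1 * t.1.1 - t.1.1 * s.1.1) = _
      rw [map_sub, rho_mul P (hS _ t.2).1, rho_mul P (hS _ s.2).1]; rfl
    · rw [hk]
      show rho Q (s.1.2 * t.1.2 - t.1.2 * s.1.2) = _
      rw [map_sub, rho_mul Q (hS _ t.2).2, rho_mul Q (hS _ s.2).2]; rfl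
    · obtain ⟨p, hp, h1⟩ := hon (sec P X) (sec_mem P hz X) (by rw [tr_rs P, rho_sec P hzz, hX])
      exact ⟨⟨p, hp⟩, by rw [hf, rho_of_eq P h1, rho_sec P hzz]⟩
    · obtain ⟨p, hp, h1⟩ := hon' (sec Q X) (sec_mem Q hw X) (by rw [tr_rs Q, rho_sec Q hww, hX])
      exact ⟨⟨p, hp⟩, by rw [hk, rho_of_eq Q h1, rho_sec Q hww]⟩
  have zf : ∀ t : D, f t = 0 ↔ ∀ v ∈ K.Tl z, t.1.1 *ᵥ v = 0 := by
    intro t
    constructor
    · intro h v hv
      have := eq_of_rho P (hS _ t.2).1 K.S.zero_mem (by rw [map_zero]; exact h) hv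
      rwa [Matrix.zero_mulVec] at this
    · intro h
      rw [hf, rho_of_eq P (Y := 0) fun v hv => by rw [h v hv, Matrix.zero_mulVec], map_zero]
  have zk : ∀ t : D, k t = 0 ↔ ∀ v ∈ K'.Tl w, t.1.2 *ᵥ v = 0 := by
    intro t
    constructor
    · intro h v hv
      have := eq_of_rho Q (hS _ t.2).2 K'.S.zero_mem (by rw [map_zero]; exact h) hv
      rwa [Matrix.zero_mulVec] at this
    · intro h
      rw [hk, rho_of_eq Q (Y := 0) fun v hv => by rw [h v hv, Matrix.zero_mulVec], map_zero]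
  have sc0 : ∀ {N : ℕ} [Nonempty (Fin N)] (X : Matrix (Fin N) (Fin N) ℂ), X.trace = 0 →
      ((∃ c : ℂ, X = c • 1) ↔ X = 0) := by
    intro N _ X hX
    rw [← tf_zero, tf_of X hX]
  have hfk : ∀ t : D, (∃ c : ℂ, f t = c • 1) ↔ ∃ c : ℂ, k t = c • 1 := by
    intro t
    rw [sc0 _ (tf0 t), sc0 _ (tk0 t), zf, zk]
    exact hker _ t.2
  obtain ⟨φ, hφ, hφt⟩ := exists_iso H hfk
  -- the dimensions are equal
  have hNN : N1 = N2 := by
    have h1 := finrank_sl (ι := Fin N1)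
    have h2 := finrank_sl (ι := Fin N2)
    have h3 := φ.finrank_eq
    rw [Fintype.card_fin] at h1 h2
    have h4 : N1 * N1 = N2 * N2 := by omega
    exact Nat.mul_self_inj.1 h4
  -- the element fixed by σ
  obtain ⟨x, hx, -, -, y, hy, -, -, ⟨fx, -, fy, -⟩, hxy, -, -⟩ := SFX.exists_dual K (by omega) σ hz hσz
  have hyx : K.bil y x = 1 := by rw [C5L.bil_comm, hxy]
  set F := rho P (C5L.wm K x y) with hF
  have hFa : ∀ i j, F i j = K.bil (P.b' i) x * K.bil y (P.b j) := fun i j => rho_wm P hzz hx i j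
  have hFF : F * F = F := by
    ext i j
    rw [Matrix.mul_apply, hFa]
    have h1 : ∀ l, F i l * F l j = (K.bil (P.b' i) x * K.bil y (P.b j)) *
        (K.bil (P.b' l) x * K.bil y (P.b l)) := by
      intro l; rw [hFa, hFa]; ring
    rw [Finset.sum_congr rfl fun l _ => h1 l, ← Finset.mul_sum, sum_dual P hx, hyx, mul_one]
  have hFt : F.trace = 1 := by
    rw [Matrix.trace, Finset.sum_congr rfl fun l _ => (show F.diag l = _ from hFa l l), sum_dual P hx, hyx]
  obtain ⟨t₀, ht₀⟩ := H.fon (tf _ F) (mem_sl.1 (tf_mem F))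
  have hφ0 := hφt t₀
  have e1 : tf (Fin N1) (f t₀) = tf (Fin N1) F := by
    rw [ht₀, tf_of _ (mem_sl.1 (tf_mem F))]
  rw [tf_of (k t₀) (tk0 t₀)] at hφ0
  obtain ⟨a, b, hab, hN, hns⟩ := core (by rw [Fintype.card_fin, Fintype.card_fin, hNN])
    (by rw [Fintype.card_fin]; omega) φ hφ (c := 1) one_ne_zero hFF hFt ⟨tf _ (f t₀), tf_mem _⟩
    (by rw [one_smul]; exact e1)
  rw [hφ0] at hab hns
  set M := k t₀ with hM
  rw [Fintype.card_fin, one_pow, one_mul] at hN
  -- σ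
  have hst := hσ _ t₀.2
  have hfix : ∀ v ∈ K.Tl z, (t₀.1.1.map σ) *ᵥ v = t₀.1.1 *ᵥ v := by
    have h1 : ∀ v ∈ K.Tl z, t₀.1.1 *ᵥ v = C5L.wm K x y *ᵥ v - (1 / (N1 : ℂ)) • v := by
      intro v hv
      have h2 : rho P t₀.1.1 = rho P (C5L.wm K x y) - (1 / (N1 : ℂ)) • (1 : Matrix _ _ ℂ) := by
        rw [← hf, ht₀, tf_apply, hFt, Fintype.card_fin]
      have h3 : ∀ l, t₀.1.1 *ᵥ P.b l = C5L.wm K x y *ᵥ P.b l - (1 / (N1 : ℂ)) • P.b l := by
        intro l
        rw [mulVec_b P (hS _ t₀.2).1, h2, mulVec_b P (C5L.wm_mem K hz hx hy)]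
        simp only [Matrix.sub_apply, Matrix.smul_apply, sub_smul, Finset.sum_sub_distrib]
        congr 1
        rw [Finset.sum_eq_single l, Matrix.one_apply_eq, smul_eq_mul, mul_one]
        · intro q _ hq
          rw [Matrix.one_apply_ne hq, smul_zero, zero_smul]
        · intro h; exact absurd (Finset.mem_univ l) h
      let G : (Fin n → ℂ) →ₗ[ℂ] (Fin n → ℂ) := Matrix.mulVecLin t₀.1.1 - Matrix.mulVecLin (C5L.wm K x y) +
        (1 / (N1 : ℂ)) • LinearMap.id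
      have hG : ∀ v, G v = t₀.1.1 *ᵥ v - C5L.wm K x y *ᵥ v + (1 / (N1 : ℂ)) • v := fun v => rfl
      have h4 : G v = 0 := by
        rw [← P.h1 v hv, map_sum]
        refine Finset.sum_eq_zero fun l _ => ?_
        rw [map_smul, hG, h3]
        have : C5L.wm K x y *ᵥ P.b l - (1 / (N1 : ℂ)) • P.b l - C5L.wm K x y *ᵥ P.b l +
          (1 / (N1 : ℂ)) • P.b l = 0 := by abel
        rw [this, smul_zero]
      rw [hG] at h4
      rw [← sub_eq_zero, ← h4]; abel
    intro v hv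
    have hv' := C5L.map_Tl K σ.symm hv
    have hσz' : σ.symm z = z := by rw [← hσz, σ.symm_apply_apply]; exact hσz.symm ▸ rfl
    rw [hσz'] at hv'
    rw [GGX.map_mulVec, h1 _ hv', h1 v hv]
    have h5 : (C5L.wm K x y).map σ = C5L.wm K x y := by
      ext i j
      have ex := fun i => congrFun fx i
      have ey := fun i => congrFun fy i
      simp only [C5L.wm, Matrix.map_apply, Matrix.of_apply, map_sub, map_mul] at ex ey ⊢
      rw [ex, ex, ey, ey]
      simp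
    have h6 : C5L.wm K x y *ᵥ v = fun i => σ ((C5L.wm K x y *ᵥ fun i => σ.symm (v i)) i) := by
      rw [← GGX.map_mulVec, h5]
    rw [h6]
    funext i
    simp only [Pi.sub_apply, Pi.smul_apply, smul_eq_mul, map_sub, map_mul, AlgEquiv.apply_symm_apply]
    congr 1
    simp
  have hfix' : ∀ v ∈ K'.Tl w, (t₀.1.2.map σ) *ᵥ v = t₀.1.2 *ᵥ v := by
    have h1 := (hker _ (D.sub_mem hst t₀.2)).1 (fun v hv => by
      show (t₀.1.1.map σ - t₀.1.1) *ᵥ v = 0
      rw [Matrix.sub_mulVec, hfix v hv, sub_self])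
    intro v hv
    have h2 := h1 v hv
    have h3 : (t₀.1.2.map σ - t₀.1.2) *ᵥ v = 0 := h2
    rw [Matrix.sub_mulVec] at h3
    exact sub_eq_zero.1 h3
  -- two places
  have hwc := C5L.conj_root K' hw
  have hσwc : σ ((starRingEnd ℂ) w) = w := by
    rw [C8T.conj_aut K' σ hw, hσw, Complex.conj_conj]
  have hQ' : ∃ Q' : Pl K' w (Fin N2), rho Q' (t₀.1.2.map σ) = (rho Q.swap t₀.1.2).map σ := by
    have h1 := rho_map Q.swap σ hwc t₀.1.2
    have h2 : ∀ (u : ℂ) (_ : σ ((starRingEnd ℂ) w) = u) (R : Pl K' (σ ((starRingEnd ℂ) w)) (Fin N2)),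
        ∃ Q' : Pl K' u (Fin N2), ∀ X, rho Q' X = rho R X := by
      rintro u rfl R
      exact ⟨R, fun _ => rfl⟩
    obtain ⟨Q', hQ'⟩ := h2 w hσwc (Q.swap.map σ hwc)
    exact ⟨Q', by rw [hQ', h1]⟩
  obtain ⟨Q', hQ'⟩ := hQ'
  have hS2 := (hS _ t₀.2).2
  obtain ⟨U, V, hUV, hVU, hc⟩ := rho_change Q Q' hS2
  rw [rho_of_eq Q' hfix', hc, rho_swap Q hS2, ← hk, ← hM] at hQ'
  -- hQ' : U * M * V = (-(Mᵀ)).map σ
  have hsq1 : (U * M * V) * (U * M * V) = a • (U * M * V) + b • (1 : Matrix _ _ ℂ) := by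
    have h1 : (U * M * V) * (U * M * V) = U * (M * M) * V := by
      calc (U * M * V) * (U * M * V) = U * M * (V * U) * M * V := by simp only [Matrix.mul_assoc]
        _ = U * (M * M) * V := by rw [hVU, Matrix.mul_one]; simp only [Matrix.mul_assoc]
    rw [h1, hab, Matrix.mul_add, Matrix.add_mul, Matrix.mul_smul, Matrix.smul_mul, Matrix.mul_smul,
      Matrix.smul_mul, Matrix.mul_one, hUV]
  have hsq2 : ((-Mᵀ).map σ) * ((-Mᵀ).map σ) = (-σ a) • ((-Mᵀ).map σ) + σ b • (1 : Matrix _ _ ℂ) := by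
    have h1 : ((-Mᵀ).map σ) * ((-Mᵀ).map σ) = ((-Mᵀ) * (-Mᵀ)).map σ :=
      (Matrix.map_mul (f := (σ : ℂ →+* ℂ))).symm
    have h2 : (-Mᵀ) * (-Mᵀ) = (M * M)ᵀ := by rw [neg_mul_neg, Matrix.transpose_mul]
    rw [h1, h2, hab]
    ext i j
    simp only [Matrix.map_apply, Matrix.transpose_apply, Matrix.add_apply, Matrix.smul_apply, smul_eq_mul,
      Matrix.neg_apply, map_add, map_mul, map_neg, Matrix.one_apply]
    by_cases hij : i = j
    · rw [if_pos hij, if_pos hij.symm, map_one]; ring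
    · rw [if_neg hij, if_neg (Ne.symm hij), map_zero]; ring
  rw [← hQ', hsq1] at hsq2
  have h3 : (a + σ a) • (U * M * V) = (σ b - b) • (1 : Matrix _ _ ℂ) := by
    rw [← sub_eq_zero]
    have h4 := sub_eq_zero.2 hsq2
    rw [← h4]
    module
  have hasum : a + σ a = 0 := by
    by_contra hne
    apply hns ((a + σ a)⁻¹ * (σ b - b))
    have h5 : U * M * V = ((a + σ a)⁻¹ * (σ b - b)) • (1 : Matrix _ _ ℂ) := by
      have h6 := congrArg (fun Y => (a + σ a)⁻¹ • Y) h3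
      simp only [smul_smul, inv_mul_cancel₀ hne, one_smul] at h6
      exact h6
    calc M = V * (U * M * V) * U := by
          have : V * (U * M * V) * U = (V * U) * M * (V * U) := by simp only [Matrix.mul_assoc]
          rw [this, hVU, Matrix.one_mul, Matrix.mul_one]
      _ = _ := by rw [h5, Matrix.mul_smul, Matrix.smul_mul, Matrix.mul_one, hVU]
  -- a is rational
  have hN20 : (N2 : ℂ) ≠ 0 := by
    have : N2 ≠ 0 := by omega
    exact_mod_cast this
  have hσa : σ a = a := by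
    have h4 : ((N2 : ℂ) * a - ((N2 : ℂ) - 2)) * ((N2 : ℂ) * a + ((N2 : ℂ) - 2)) = 0 := by
      linear_combination hN
    have hσN : σ (N2 : ℂ) = N2 := by simp
    rcases mul_eq_zero.1 h4 with h5 | h5
    · have h6 := congrArg σ h5
      rw [map_sub, map_mul, map_sub, map_zero, hσN, show σ (2 : ℂ) = 2 from map_ofNat σ 2] at h6
      have h7 : (N2 : ℂ) * (σ a - a) = 0 := by linear_combination h6 - h5
      exact sub_eq_zero.1 ((mul_eq_zero.1 h7).resolve_left hN20)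
    · have h6 := congrArg σ h5
      rw [map_add, map_mul, map_sub, map_zero, hσN, show σ (2 : ℂ) = 2 from map_ofNat σ 2] at h6
      have h7 : (N2 : ℂ) * (σ a - a) = 0 := by linear_combination h6 - h5
      exact sub_eq_zero.1 ((mul_eq_zero.1 h7).resolve_left hN20)
  rw [hσa] at hasum
  have ha0 : a = 0 := by linear_combination (1 / 2 : ℂ) * hasum
  rw [ha0, mul_zero, zero_pow two_ne_zero] at hN
  have h8 : (N2 : ℂ) - 2 = 0 := by
    have := hN.symm
    exact (pow_eq_zero_iff two_ne_zero).1 this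
  have h9 : N2 = 2 := by
    have : (N2 : ℂ) = (2 : ℕ) := by push_cast; linear_combination h8
    exact_mod_cast this
  omega

end

end Pool.Agent.K3M
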