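import Pool.Agent.K3M.NC2
import Pool.Agent.K3M.NS

/-!
# NC. Two factors with complex multiplication are independent
-/

set_option autoImplicit false

open scoped BigOperators
open Matrix Polynomial

namespace Pool.Agent.K3M

open Pool.Agent.DRB Pool.Agent.K3D Pool.Agent.K3E Pool.Agent.K3C Pool.Agent.K3P

namespace NCX

section tup

variable {s : ℕ} {h : Fin s → ℕ} {B : ∀ j, AbVar (h j)} {n m : Fin s → ℕ}
  {K : ∀ j, KSC (B j) (n j) (m j)} {e : (∀ j, Matrix (Fin (n j)) (Fin (n j)) ℂ) → Prop}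

/-- The places are independent in the sigma case. -/
theorem free_sigma (hNS : Stmt_NS) (T : TupC K e) {j j' : Fin s} (hm : 3 ≤ m j) (hm' : 3 ≤ m j')
    {z w : ℂ} (hz : aeval z (K j).P = 0) (hw : aeval w (K j').P = 0) (σ : ℂ ≃ₐ[ℚ] ℂ) (h1 : σ z = z)
    (h2 : σ w = (starRingEnd ℂ) w) : Free T j z j' w := by
  by_contra hnf
  have hk := ker_iff T hz hw (le_trans (by norm_num) hm) (le_trans (by norm_num) hm') hnf
  refine hNS _ _ _ _ _ _ (B j) (B j') (K j) (K j') hm hm' z w hz hw σ h1 h2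
    ((D1 T).map ((LinearMap.proj j).prod (LinearMap.proj j'))) ?_ ?_ ?_ ?_ ?_ ?_ ?_ ?_
  · rintro _ ⟨t, ht, rfl⟩
    exact ⟨T.mem t ht.1 j, T.mem t ht.1 j'⟩
  · rintro _ ⟨t, ht, rfl⟩ _ ⟨u, hu, rfl⟩
    exact ⟨_, D1_brk T ht.1 hu.1, rfl⟩
  · rintro _ ⟨t, ht, rfl⟩
    exact ⟨_, D1_map T σ ht, rfl⟩
  · rintro _ ⟨t, ht, rfl⟩
    exact hk t ht
  · rintro _ ⟨t, ht, rfl⟩ hS
    exact dS_tr (K j) z (ht.2 j) hS
  · rintro _ ⟨t, ht, rfl⟩ hS
    exact dS_tr (K j') w (ht.2 j') hS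
  · intro a ha h0
    obtain ⟨t, ht, h3⟩ := D1_tr T j hz ha h0
    exact ⟨_, ⟨t, ht, rfl⟩, h3⟩
  · intro a ha h0
    obtain ⟨t, ht, h3⟩ := D1_tr T j' hw ha h0
    exact ⟨_, ⟨t, ht, rfl⟩, h3⟩

/-- The places are independent if the dimensions are different. -/
theorem free_dim (T : TupC K e) {j j' : Fin s} (hm : 1 ≤ m j) (hm' : 1 ≤ m j') (hne : m j ≠ m j')
    {z w : ℂ} (hz : aeval z (K j).P = 0) (hw : aeval w (K j').P = 0) : Free T j z j' w := by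
  by_contra hnf
  exact hne (dims T hz hw hm hm' (ker_iff T hz hw hm hm' hnf))

/-- Two factors with complex multiplication are independent. -/
theorem pair (hNS : Stmt_NS) (T : TupC K e) {j j' : Fin s} (hm : 1 ≤ m j) (hm' : 1 ≤ m j')
    (hI : m j = 1 ∨ m j' = 1 ∨ m j ≠ m j' ∨ (4 ≤ m j ∧ ∃ σ : ℂ ≃ₐ[ℚ] ℂ,
      (∀ z, aeval z (K j).P = 0 → σ z = z) ∧ ∀ z, aeval z (K j').P = 0 → σ z = (starRingEnd ℂ) z))
    {x y : Matrix (Fin (n j)) (Fin (n j)) ℂ} (hx : x ∈ (K j).S) (hy : y ∈ (K j).S) :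
    ∃ b, e b ∧ b j = x * y - y * x ∧ b j' = 0 := by
  by_cases h1 : m j = 1
  · refine ⟨0, T.zero, ?_, rfl⟩
    rw [NDX.comm1' (K j) h1 hx hy]
    rfl
  by_cases h2 : m j' = 1
  · obtain ⟨t, ht, htj⟩ := D1_lift T j hx hy
    refine ⟨t, ht.1, htj, ?_⟩
    have h3 : dS (K j') ≤ ⊥ := by
      refine Submodule.span_le.2 ?_
      rintro _ ⟨x, hx, y, hy, rfl⟩
      rw [NDX.comm1' (K j') h2 hx hy]
      exact Submodule.zero_mem _
    exact (Submodule.mem_bot ℂ).1 (h3 (ht.2 j'))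
  by_cases h3 : m j = m j'
  · rcases hI with h | h | h | ⟨h4, σ, hσ, hσ'⟩
    · exact absurd h h1
    · exact absurd h h2
    · exact absurd h3 h
    · exact of_free T (fun z w hz hw => free_sigma hNS T (by omega) (by omega) hz hw σ (hσ z hz) (hσ' w hw))
        hx hy
  · exact of_free T (fun z w hz hw => free_dim T hm hm' h3 hz hw) hx hy

end tup

end NCX

theorem NC_proof (hNS : Stmt_NS) : Stmt_NC := by
  intro r s h B h' B' n₁ m₁ K₁ n₂ m₂ K₂ d T hm hI j j' hj x hx y hy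
  have hT : NCX.TupC K₂ (fun b => ∃ a, d a b) :=
    { lin := fun a b c ⟨a1, h1⟩ ⟨a2, h2⟩ => ⟨_, T.lin a1 a a2 b c h1 h2⟩
      zero := ⟨0, T.zero⟩
      brk := fun a b ⟨a1, h1⟩ ⟨a2, h2⟩ => ⟨_, T.brk a1 a a2 b h1 h2⟩
      aut := fun σ a ⟨a1, h1⟩ => ⟨_, T.aut σ a1 a h1⟩
      mem := fun a ⟨a1, h1⟩ => (T.mem a1 a h1).2
      onto := fun j x hx y hy => by
        obtain ⟨a, b, h1, h2⟩ := T.onto' j x hx y hy
        exact ⟨b, ⟨a, h1⟩, h2⟩ }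
  obtain ⟨b, ⟨a, h1⟩, h2, h3⟩ := NCX.pair hNS hT ((hm.2.1 j).1) ((hm.2.1 j').1) (hI j j' hj) hx hy
  exact ⟨a, b, h1, h2, h3⟩

end Pool.Agent.K3M
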