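import Pool.Agent.K3M.Stmts
import Pool.Agent.K3C.C8b1
import Pool.Agent.K3P.GG

/-!
# NQ and ND: the factors with real multiplication, and the derived algebras of the factors with complex
multiplication
-/

set_option autoImplicit false

open scoped BigOperators
open Matrix Polynomial

namespace Pool.Agent.K3M

open Pool.Agent.DRB Pool.Agent.K3D Pool.Agent.K3E Pool.Agent.K3C Pool.Agent.K3P

namespace NDX

/-- `so_E(T)` is perfect. -/
theorem perf {g n m : ℕ} {A : AbVar g} (K : KSE A n m) (hm : 3 ≤ m) {a : Matrix (Fin n) (Fin n) ℂ}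
    (ha : a ∈ K.S) :
    a ∈ Submodule.span ℂ {c | ∃ x ∈ K.S, ∃ y ∈ K.S, c = x * y - y * x} := by
  refine Submodule.span_le.2 ?_ (DUAL.mem_span K ha)
  rintro w ⟨z, x, y, hz, hx, hy, rfl⟩
  obtain ⟨b, b', hb, hb', h0, h1, h2⟩ := DUAL.dual K z
  have hd0 : (Module.finrank ℂ (K.Tl z) : ℂ) - 2 ≠ 0 := by
    rw [E5L.finrank_Tl K hz]
    intro h
    have h3 : ((m : ℕ) : ℂ) = (2 : ℕ) := by
      push_cast
      linear_combination h
    have h4 : m = 2 := by exact_mod_cast h3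
    omega
  have h5 : E5L.wm K x y = ((Module.finrank ℂ (K.Tl z) : ℂ) - 2)⁻¹ •
      ∑ j, (E5L.wm K x (b j) * E5L.wm K (b' j) y - E5L.wm K (b' j) y * E5L.wm K x (b j)) := by
    rw [E8C.comm_sum K hx hy b b' hb hb' h0 h1 h2, smul_smul, inv_mul_cancel₀ hd0, one_smul]
  show E5L.wm K x y ∈ Submodule.span ℂ {c | ∃ x ∈ K.S, ∃ y ∈ K.S, c = x * y - y * x}
  rw [h5]
  refine Submodule.smul_mem _ _ (Submodule.sum_mem _ fun j _ => Submodule.subset_span ?_)
  exact ⟨_, E5L.wm_mem K hx (hb j), _, E5L.wm_mem K (hb' j) hy, rfl⟩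

/-- The derived algebra of `u_E(T)` is perfect. -/
theorem perfC {g n m : ℕ} {A : AbVar g} (K : KSC A n m) {a b : Matrix (Fin n) (Fin n) ℂ}
    (ha : a ∈ K.S) (hb : b ∈ K.S) :
    a * b - b * a ∈ Submodule.span ℂ {c | ∃ x ∈ K.S, ∃ y ∈ K.S, ∃ x' ∈ K.S, ∃ y' ∈ K.S,
      c = (x * y - y * x) * (x' * y' - y' * x') - (x' * y' - y' * x') * (x * y - y * x)} := by
  refine C8D.derived K (fun z hz x hx y hy hxy => ?_) ha hb
  have hne := C5L.conj_ne K hz
  have hzc := C5L.conj_root K hz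
  by_cases hx0 : x = 0
  · rw [hx0, C8D.wm_zero_left]; exact Submodule.zero_mem _
  by_cases hy0 : y = 0
  · rw [hy0, C8D.wm_zero_right]; exact Submodule.zero_mem _
  obtain ⟨u, hu, hxu⟩ : ∃ u ∈ K.Tl ((starRingEnd ℂ) z), K.bil x u = 1 := by
    by_contra hcon
    push Not at hcon
    refine hx0 (C5L.nondegT K hx fun t ht => ?_)
    by_contra hne'
    refine hcon ((K.bil x t)⁻¹ • t) (Submodule.smul_mem _ _ ht) ?_
    rw [← C5L.bf_apply, map_smul, C5L.bf_apply, smul_eq_mul, inv_mul_cancel₀ hne']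
  obtain ⟨w, hw, hwy⟩ : ∃ w ∈ K.Tl z, K.bil w y = 1 := by
    by_contra hcon
    push Not at hcon
    refine hy0 (C5L.nondegT K hy fun t ht => ?_)
    rw [Complex.conj_conj] at ht
    by_contra hne'
    rw [C5L.bil_comm] at hne'
    refine hcon ((K.bil t y)⁻¹ • t) (Submodule.smul_mem _ _ ht) ?_
    rw [C5L.bil_comm, ← C5L.bf_apply, map_smul, C5L.bf_apply, smul_eq_mul, C5L.bil_comm K y,
      inv_mul_cancel₀ hne']
  have hX := C5L.wm_mem K hz hx hy
  have hW := C5L.wm_mem K hz hw hu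
  -- scalar products inside one eigenspace vanish
  have o1 : ∀ v ∈ K.Tl z, ∀ v' ∈ K.Tl z, K.bil v v' = 0 := fun v hv v' hv' =>
    C5L.orth K (Ne.symm hne) hv hv'
  have o2 : ∀ v ∈ K.Tl ((starRingEnd ℂ) z), ∀ v' ∈ K.Tl ((starRingEnd ℂ) z), K.bil v v' = 0 :=
    fun v hv v' hv' => C5L.orth K (by rw [Complex.conj_conj]; exact hne) hv hv'
  have hyx : K.bil y x = 0 := by rw [C5L.bil_comm]; exact hxy
  have hux : K.bil u x = 1 := by rw [C5L.bil_comm]; exact hxu
  have hyw : K.bil y w = 1 := by rw [C5L.bil_comm]; exact hwy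
  -- h = [X, W]
  have e1 : C5L.wm K x y * C5L.wm K w u - C5L.wm K w u * C5L.wm K x y =
      C5L.wm K x u - C5L.wm K w y := by
    rw [C8D.comm_wm K hX, C5L.wm_mulVec, C5L.wm_mulVec, hyw, o1 x hx w hw, o2 y hy u hu, hxu,
      one_smul, zero_smul, sub_zero, zero_smul, zero_sub, one_smul]
    have : C5L.wm K w (-y) = -C5L.wm K w y := (C8D.wl K w).map_neg y
    rw [this, sub_eq_add_neg]
  have hxu' := C5L.wm_mem K hz hx hu
  have hwy' := C5L.wm_mem K hz hw hy
  -- [h, X] = 2 X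
  have e2 : (C5L.wm K x u - C5L.wm K w y) * C5L.wm K x y - C5L.wm K x y * (C5L.wm K x u - C5L.wm K w y) =
      (2 : ℂ) • C5L.wm K x y := by
    have e3 : C5L.wm K x u * C5L.wm K x y - C5L.wm K x y * C5L.wm K x u = C5L.wm K x y := by
      rw [C8D.comm_wm K hxu', C5L.wm_mulVec, C5L.wm_mulVec, hux, o1 x hx x hx, o2 u hu y hy, hxy]
      simp only [one_smul, zero_smul, sub_zero, C8D.wm_zero_right, add_zero]
    have e4 : C5L.wm K w y * C5L.wm K x y - C5L.wm K x y * C5L.wm K w y = -C5L.wm K x y := by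
      rw [C8D.comm_wm K hwy', C5L.wm_mulVec, C5L.wm_mulVec, hyx, o1 w hw x hx, o2 y hy y hy, hwy]
      simp only [one_smul, zero_smul, sub_zero, C8D.wm_zero_left, zero_sub, zero_add]
      exact (C8D.wl K x).map_neg y
    have e5 : (C5L.wm K x u - C5L.wm K w y) * C5L.wm K x y -
        C5L.wm K x y * (C5L.wm K x u - C5L.wm K w y) =
        (C5L.wm K x u * C5L.wm K x y - C5L.wm K x y * C5L.wm K x u) -
        (C5L.wm K w y * C5L.wm K x y - C5L.wm K x y * C5L.wm K w y) := by noncomm_ring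
    rw [e5, e3, e4, sub_neg_eq_add, two_smul]
  have hh : C5L.wm K x u - C5L.wm K w y ∈ K.S := K.S.sub_mem hxu' hwy'
  have e6 : C5L.wm K x y = (1 / 4 : ℂ) •
      ((C5L.wm K x y * C5L.wm K w u - C5L.wm K w u * C5L.wm K x y) *
        ((C5L.wm K x u - C5L.wm K w y) * C5L.wm K x y - C5L.wm K x y * (C5L.wm K x u - C5L.wm K w y)) -
       ((C5L.wm K x u - C5L.wm K w y) * C5L.wm K x y - C5L.wm K x y * (C5L.wm K x u - C5L.wm K w y)) *
        (C5L.wm K x y * C5L.wm K w u - C5L.wm K w u * C5L.wm K x y)) := by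
    rw [e1, e2, Matrix.mul_smul, Matrix.smul_mul, ← smul_sub, e2, smul_smul, smul_smul]
    norm_num
  rw [e6]
  exact Submodule.smul_mem _ _ (Submodule.subset_span ⟨_, hX, _, hW, _, hh, _, hX, rfl⟩)

/-- `u_E(T)` is commutative if `m = 1`. -/
theorem comm1 {g n : ℕ} {A : AbVar g} (K : KSC A n 1) {a b : Matrix (Fin n) (Fin n) ℂ}
    (ha : a ∈ K.S) (hb : b ∈ K.S) : a * b - b * a = 0 := by
  have h1 : a * b - b * a ∈ (⊥ : Submodule ℂ (Matrix (Fin n) (Fin n) ℂ)) := by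
    refine C8D.derived K (fun z hz x hx y hy hxy => ?_) ha hb
    rw [Submodule.mem_bot]
    by_cases hx0 : x = 0
    · rw [hx0, C8D.wm_zero_left]
    have hy0 : y = 0 := by
      refine C5L.nondegT K hy fun t ht => ?_
      rw [Complex.conj_conj] at ht
      have hf := C5L.finrank_Tl K hz
      have h2 : ∀ v : K.Tl z, ∃ c : ℂ, c • (⟨x, hx⟩ : K.Tl z) = v :=
        (finrank_eq_one_iff_of_nonzero' (⟨x, hx⟩ : K.Tl z) (fun h => hx0 (congrArg Subtype.val h))).1 hf
      obtain ⟨c, hc⟩ := h2 ⟨t, ht⟩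
      have hc' : c • x = t := congrArg Subtype.val hc
      rw [← hc', ← C5L.bf_apply, map_smul, C5L.bf_apply, C5L.bil_comm, hxy, smul_zero]
    rw [hy0, C8D.wm_zero_right]
  exact (Submodule.mem_bot ℂ).1 h1

theorem comm1' {g n m : ℕ} {A : AbVar g} (K : KSC A n m) (hm : m = 1) {a b : Matrix (Fin n) (Fin n) ℂ}
    (ha : a ∈ K.S) (hb : b ∈ K.S) : a * b - b * a = 0 := by
  subst hm
  exact comm1 K ha hb

section tup

variable {r s : ℕ} {h : Fin r → ℕ} {B : ∀ i, AbVar (h i)} {h' : Fin s → ℕ} {B' : ∀ j, AbVar (h' j)}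
  {n₁ m₁ : Fin r → ℕ} {K₁ : ∀ i, KSE (B i) (n₁ i) (m₁ i)}
  {n₂ m₂ : Fin s → ℕ} {K₂ : ∀ j, KSC (B' j) (n₂ j) (m₂ j)}
  {d : (∀ i, Matrix (Fin (n₁ i)) (Fin (n₁ i)) ℂ) → (∀ j, Matrix (Fin (n₂ j)) (Fin (n₂ j)) ℂ) → Prop}

/-- the pairs of tuples as a subspace -/
def sub2 (T : TupAlg2 K₁ K₂ d) : Submodule ℂ
    ((∀ i, Matrix (Fin (n₁ i)) (Fin (n₁ i)) ℂ) × (∀ j, Matrix (Fin (n₂ j)) (Fin (n₂ j)) ℂ)) where
  carrier := {p | d p.1 p.2}
  add_mem' := by
    intro p q hp hq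
    have h1 := T.lin p.1 p.2 q.1 q.2 1 hp hq
    simp only [one_smul] at h1
    exact h1
  zero_mem' := T.zero
  smul_mem' := by
    intro c p hp
    have h1 := T.lin 0 0 p.1 p.2 c T.zero hp
    simp only [Pi.zero_apply, zero_add] at h1
    exact h1

theorem mem_sub2 (T : TupAlg2 K₁ K₂ d) (a : ∀ i, Matrix (Fin (n₁ i)) (Fin (n₁ i)) ℂ)
    (b : ∀ j, Matrix (Fin (n₂ j)) (Fin (n₂ j)) ℂ) : (a, b) ∈ sub2 T ↔ d a b := Iff.rfl

end tup

end NDX

open NDX in
/-- ND. -/
theorem ND_proof : Stmt_ND := by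
  classical
  intro r s h B h' B' n₁ m₁ K₁ n₂ m₂ K₂ d T hd hm hNC j
  -- killing the first part
  have hkill : ∀ a b, d a b → d 0 b := by
    intro a b hab
    have h1 : (a, (0 : ∀ j, Matrix (Fin (n₂ j)) (Fin (n₂ j)) ℂ)) ∈ sub2 T := by
      have h2 : a = ∑ i, Pi.single i (a i) := (Finset.univ_sum_single a).symm
      have h3 : (a, (0 : ∀ j, Matrix (Fin (n₂ j)) (Fin (n₂ j)) ℂ)) =
          ∑ i, (Pi.single i (a i), (0 : ∀ j, Matrix (Fin (n₂ j)) (Fin (n₂ j)) ℂ)) := by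
        refine Prod.ext ?_ ?_
        · rw [Prod.fst_sum]; exact h2
        · rw [Prod.snd_sum]; simp
      rw [h3]
      exact Submodule.sum_mem _ fun i _ => hd i _ ((T.mem a b hab).1 i)
    have h4 := (sub2 T).sub_mem ((mem_sub2 T a b).2 hab) h1
    have h5 : (a, b) - (a, (0 : ∀ j, Matrix (Fin (n₂ j)) (Fin (n₂ j)) ℂ)) = (0, b) := by
      refine Prod.ext ?_ ?_
      · exact sub_self a
      · exact sub_zero b
    rw [h5] at h4
    exact h4
  have key : ∀ J : Finset (Fin s), (∀ k ∈ J, k ≠ j) → ∀ x ∈ (K₂ j).S, ∀ y ∈ (K₂ j).S,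
      ∃ b, d 0 b ∧ b j = x * y - y * x ∧ ∀ k ∈ J, b k = 0 := by
    intro J
    induction J using Finset.induction_on with
    | empty =>
      intro _ x hx y hy
      obtain ⟨a, b, hab, hb⟩ := T.onto' j x hx y hy
      exact ⟨b, hkill a b hab, hb, fun k hk => absurd hk (Finset.notMem_empty k)⟩
    | insert j' J hj' ih =>
      intro hJ x hx y hy
      let W : Submodule ℂ (Matrix (Fin (n₂ j)) (Fin (n₂ j)) ℂ) :=
        { carrier := {c | ∃ b, d 0 b ∧ b j = c ∧ ∀ k ∈ insert j' J, b k = 0}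
          add_mem' := by
            rintro _ _ ⟨b, hb, rfl, hb0⟩ ⟨b', hb', rfl, hb0'⟩
            refine ⟨b + b', ?_, rfl, fun k hk => by rw [Pi.add_apply, hb0 k hk, hb0' k hk, add_zero]⟩
            have h1 := (sub2 T).add_mem ((mem_sub2 T _ _).2 hb) ((mem_sub2 T _ _).2 hb')
            have h2 : ((0 : ∀ i, Matrix (Fin (n₁ i)) (Fin (n₁ i)) ℂ), b) + (0, b') = (0, b + b') :=
              Prod.ext (add_zero _) rfl
            rw [h2] at h1
            exact h1
          zero_mem' := ⟨0, T.zero, rfl, fun k _ => rfl⟩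
          smul_mem' := by
            rintro c _ ⟨b, hb, rfl, hb0⟩
            refine ⟨c • b, ?_, rfl, fun k hk => by rw [Pi.smul_apply, hb0 k hk, smul_zero]⟩
            have h1 := (sub2 T).smul_mem c ((mem_sub2 T _ _).2 hb)
            have h2 : c • ((0 : ∀ i, Matrix (Fin (n₁ i)) (Fin (n₁ i)) ℂ), b) = (0, c • b) :=
              Prod.ext (smul_zero _) rfl
            rw [h2] at h1
            exact h1 }
      show x * y - y * x ∈ W
      refine Submodule.span_le.2 ?_ (perfC (K₂ j) hx hy)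
      rintro c ⟨x, hx, y, hy, x', hx', y', hy', rfl⟩
      obtain ⟨b, hb, hbj, hb0⟩ := ih (fun k hk => hJ k (Finset.mem_insert_of_mem hk)) x hx y hy
      obtain ⟨a', b', hab', hbj', hb'⟩ := hNC j j' (Ne.symm (hJ j' (Finset.mem_insert_self _ _)))
        x' hx' y' hy'
      have h1 := T.brk 0 b 0 b' hb (hkill a' b' hab')
      have h2 : (fun i => (0 : ∀ i, Matrix (Fin (n₁ i)) (Fin (n₁ i)) ℂ) i *
          (0 : ∀ i, Matrix (Fin (n₁ i)) (Fin (n₁ i)) ℂ) i -
          (0 : ∀ i, Matrix (Fin (n₁ i)) (Fin (n₁ i)) ℂ) i *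
          (0 : ∀ i, Matrix (Fin (n₁ i)) (Fin (n₁ i)) ℂ) i) = 0 := by
        funext i
        simp
      rw [h2] at h1
      refine ⟨_, h1, by rw [hbj, hbj'], fun k hk => ?_⟩
      rcases Finset.mem_insert.1 hk with h3 | h3
      · subst h3
        rw [hb', mul_zero, zero_mul, sub_zero]
      · rw [hb0 k h3, mul_zero, zero_mul, sub_zero]
  intro x hx y hy
  obtain ⟨b, hb, hbj, hb0⟩ := key (Finset.univ.erase j) (fun k hk => Finset.ne_of_mem_erase hk) x hx y hy
  have h1 : b = Pi.single j (x * y - y * x) := by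
    funext k
    by_cases hk : k = j
    · subst hk
      rw [Pi.single_eq_same, hbj]
    · rw [Pi.single_eq_of_ne hk]
      exact hb0 k (Finset.mem_erase.2 ⟨hk, Finset.mem_univ k⟩)
  rw [h1] at hb
  exact hb

open NDX in
/-- NQ. -/
theorem NQ_proof (hGP : Stmt_GP) (hE5l : Stmt_E5l) (hNP : Stmt_NP) : Stmt_NQ := by
  classical
  intro r s h B h' B' n₁ m₁ K₁ n₂ m₂ K₂ d T Lg N hm i
  have hm3 : ∀ k, 3 ≤ m₁ k := fun k => by rcases hm.1 k with h | h <;> omega
  have T1 : TupAlg K₁ (fun a => ∃ b, d a b) := by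
    refine ⟨?_, ?_, ?_, ?_, ?_, ?_⟩
    · rintro a a' c ⟨b, hb⟩ ⟨b', hb'⟩
      exact ⟨_, T.lin a b a' b' c hb hb'⟩
    · exact ⟨0, T.zero⟩
    · rintro a a' ⟨b, hb⟩ ⟨b', hb'⟩
      exact ⟨_, T.brk a b a' b' hb hb'⟩
    · rintro σ a ⟨b, hb⟩
      exact ⟨_, T.aut σ a b hb⟩
    · rintro a ⟨b, hb⟩ i
      exact (T.mem a b hb).1 i
    · intro i a ha
      obtain ⟨t, b, h1, h2⟩ := T.onto i a ha
      exact ⟨t, ⟨b, h1⟩, h2⟩
  have L1 : TupLog (fun a => ∃ b, d a b) := by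
    rintro a ⟨b, hb⟩
    -- a real second part
    have hcc := T.aut E8Y.cc0 _ _ hb
    have h1 := T.lin _ _ _ _ (1 / 2) T.zero (T.lin _ _ _ _ 1 hb hcc)
    have h2 : d (fun i => (a i).map Complex.ofReal) (fun j => ((b j).map Complex.re).map Complex.ofReal) := by
      convert h1 using 2 with k k
      · ext p q
        simp only [Matrix.map_apply, Matrix.add_apply, Matrix.smul_apply, Matrix.zero_apply,
          E8Y.cc0_apply, smul_eq_mul, Pi.zero_apply, Complex.conj_ofReal]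
        ring
      · ext p q
        simp only [Matrix.map_apply, Matrix.add_apply, Matrix.smul_apply, Matrix.zero_apply,
          E8Y.cc0_apply, smul_eq_mul, Pi.zero_apply]
        rw [Complex.re_eq_add_conj]
        ring
    obtain ⟨x, y, h3, h4, -⟩ := Lg a (fun j => (b j).map Complex.re) h2
    exact ⟨x, ⟨_, h3⟩, h4⟩
  have hg := GG_proof hGP hE5l r h B n₁ m₁ K₁ _ T1 L1 N hm.1 i
  have key : ∀ J : Finset (Fin s), ∀ x ∈ (K₁ i).S, ∃ b, d (Pi.single i x) b ∧ ∀ j ∈ J, b j = 0 := by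
    intro J
    induction J using Finset.induction_on with
    | empty =>
      intro x hx
      obtain ⟨t, ⟨b, hb⟩, hti, ht⟩ := hg x hx
      have h1 : t = Pi.single i x := by
        funext k
        by_cases hk : k = i
        · subst hk
          rw [Pi.single_eq_same, hti]
        · rw [Pi.single_eq_of_ne hk, ht k hk]
      rw [h1] at hb
      exact ⟨b, hb, fun j hj => absurd hj (Finset.notMem_empty j)⟩
    | insert j J hj ih =>
      let W : Submodule ℂ (Matrix (Fin (n₁ i)) (Fin (n₁ i)) ℂ) :=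
        { carrier := {x | ∃ b, d (Pi.single i x) b ∧ ∀ k ∈ insert j J, b k = 0}
          add_mem' := by
            rintro x x' ⟨b, hb, hb0⟩ ⟨b', hb', hb0'⟩
            refine ⟨b + b', ?_, fun k hk => by rw [Pi.add_apply, hb0 k hk, hb0' k hk, add_zero]⟩
            have h1 := (sub2 T).add_mem ((mem_sub2 T _ _).2 hb) ((mem_sub2 T _ _).2 hb')
            rw [Pi.single_add]
            exact h1
          zero_mem' := by
            refine ⟨0, ?_, fun k _ => rfl⟩
            rw [Pi.single_zero]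
            exact T.zero
          smul_mem' := by
            rintro c x ⟨b, hb, hb0⟩
            refine ⟨c • b, ?_, fun k hk => by rw [Pi.smul_apply, hb0 k hk, smul_zero]⟩
            have h1 := (sub2 T).smul_mem c ((mem_sub2 T _ _).2 hb)
            rw [Pi.single_smul]
            exact h1 }
      intro x hx
      show x ∈ W
      refine Submodule.span_le.2 ?_ (perf (K₁ i) (hm3 i) hx)
      rintro c ⟨x, hx, y, hy, rfl⟩
      obtain ⟨b, hb, hb0⟩ := ih x hx
      obtain ⟨a', b', hab, ha', hb'⟩ := hNP r s h B h' B' n₁ m₁ K₁ n₂ m₂ K₂ d T Lg hm i j y hy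
      have h1 := T.brk _ _ _ _ hb hab
      have h2 : (fun k => (Pi.single i x : ∀ i, Matrix (Fin (n₁ i)) (Fin (n₁ i)) ℂ) k * a' k -
          a' k * (Pi.single i x : ∀ i, Matrix (Fin (n₁ i)) (Fin (n₁ i)) ℂ) k) =
          Pi.single i (x * y - y * x) := by
        funext k
        by_cases hk : k = i
        · subst hk
          rw [Pi.single_eq_same, Pi.single_eq_same, ha']
        · rw [Pi.single_eq_of_ne hk, Pi.single_eq_of_ne hk, zero_mul, mul_zero, sub_zero]
      rw [h2] at h1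
      refine ⟨_, h1, fun k hk => ?_⟩
      rcases Finset.mem_insert.1 hk with h3 | h3
      · subst h3
        rw [hb', mul_zero, zero_mul, sub_zero]
      · rw [hb0 k h3, mul_zero, zero_mul, sub_zero]
  intro x hx
  obtain ⟨b, hb, hb0⟩ := key Finset.univ x hx
  have h1 : b = 0 := funext fun j => hb0 j (Finset.mem_univ j)
  rw [h1] at hb
  exact hb

end Pool.Agent.K3M
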