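import Pool.Agent.K3P.PF
import Pool.Agent.K3C.C9
import Pool.Agent.K3C.C5x
import Pool.Agent.K3M.Stmts

/-!
# NF: the conclusion for mixed products
-/

open scoped BigOperators
open Matrix

namespace Pool.Agent.K3M

open Pool.Agent.DRB Pool.Agent.K3D Pool.Agent.K3E Pool.Agent.K3C Pool.Agent.K3P

noncomputable section

namespace NFX

open K3P.PFX K3P.Q1 K3P.Q3

/-- decomposition of the matrices commuting with the endomorphisms and normalizing `T`, complex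
multiplication -/
theorem decompC {g n m : ℕ} {A : AbVar g} (K : KSC A n m) (hK5a : Stmt_C5a)
    (h5v : Stmt_C5v) (hn : 1 ≤ m)
    (Y : Matrix (Idx g) (Idx g) ℂ) (h1 : ∀ α, A.IsEnd α → Y * AbVar.toC α = AbVar.toC α * Y)
    (h2 : ∀ v, ∃ w, Y * K.cl v - K.cl v * Y = K.cl w) :
    ∃ (a : Matrix (Fin n) (Fin n) ℂ) (c : ℂ), a ∈ K.S ∧ Y = K.Z a + c • 1 := by
  obtain ⟨hcl, hinj, hlift, hscal, -, hZend⟩ := hK5a g A n m K
  obtain ⟨a, ha⟩ := C9X.exists_act K hinj Y h2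
  have hS : a ∈ K.S := (h5v g A n m K hn).1 Y a h1 ha
  obtain ⟨c, hc⟩ := hscal (Y - K.Z a) (by
      intro α hα
      rw [sub_mul, mul_sub, h1 α hα, hZend α hα a hS]) (by
      intro v
      have h3 := ha v
      have h4 := hlift a (fun v w => C5X.S_skew K a hS v w) v
      rw [← sub_eq_zero]
      have h5 : (Y - K.Z a) * K.cl v - K.cl v * (Y - K.Z a) =
          (Y * K.cl v - K.cl v * Y) - (K.Z a * K.cl v - K.cl v * K.Z a) := by noncomm_ring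
      rw [h5, h3, h4, sub_self])
  refine ⟨a, c, hS, ?_⟩
  rw [← hc]
  abel

/-- the projection normalizes `T`, complex multiplication -/
theorem pi_normC {g n m : ℕ} {A : AbVar g} (K : KSC A n m) (π : Matrix (Idx g) (Idx g) ℂ) (hπ : π * π = π)
    (hmu : ∀ (z : ℂˣ) (x : GL (Idx g) ℂ), A.IsMu z x ↔ x.val = 1 + (z.val - 1) • π)
    (hex : ∀ z : ℂˣ, ∃ x : GL (Idx g) ℂ, A.IsMu z x) :
    ∀ v, ∃ w, π * K.cl v - K.cl v * π = K.cl w := by
  have h0 : ∀ i, π * AbVar.toC (K.t i) - AbVar.toC (K.t i) * π ∈ K.TC := by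
    intro i
    set y := AbVar.toC (K.t i) with hy
    have hf : ∀ z : ℂ, z ≠ 0 → y + (z - 1) • (π * y) + (z⁻¹ - 1) • (y * π) +
        ((z - 1) * (z⁻¹ - 1)) • (π * y * π) ∈ K.TC := by
      intro z hz
      obtain ⟨x, hx⟩ := hex (Units.mk0 z hz)
      have h1 := K.hdg _ x hx i
      have h2 : x.val = 1 + (z - 1) • π := (hmu _ x).1 hx
      have h3 : (x⁻¹).val = 1 + (z⁻¹ - 1) • π := by
        have h4 : x.val * (1 + (z⁻¹ - 1) • π) = 1 := by
          rw [h2]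
          simp only [mul_add, add_mul, mul_one, one_mul, Matrix.smul_mul, Matrix.mul_smul, hπ,
            smul_smul]
          have h5 : (z - 1) + ((z⁻¹ - 1) + (z⁻¹ - 1) * (z - 1)) = 0 := by field_simp; ring
          rw [add_assoc, ← add_smul, ← add_smul, h5, zero_smul, add_zero]
        have h6 : (x⁻¹).val * x.val = 1 := by rw [← Units.val_mul]; simp
        calc (x⁻¹).val = (x⁻¹).val * (x.val * (1 + (z⁻¹ - 1) • π)) := by rw [h4, mul_one]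
          _ = _ := by rw [← mul_assoc, h6, one_mul]
      rw [h2, h3] at h1
      have h5 : (1 + (z - 1) • π) * y * (1 + (z⁻¹ - 1) • π) = y + (z - 1) • (π * y) +
          (z⁻¹ - 1) • (y * π) + ((z - 1) * (z⁻¹ - 1)) • (π * y * π) := by
        simp only [mul_add, add_mul, mul_one, one_mul, Matrix.smul_mul, Matrix.mul_smul, smul_smul]
        rw [mul_comm (z⁻¹ - 1) (z - 1)]
        abel
      rw [← h5]
      exact h1
    have hy0 : y ∈ K.TC := Submodule.subset_span ⟨i, rfl⟩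
    have h2 := hf 2 two_ne_zero
    have h3 := hf (-1) (by norm_num)
    -- combination
    have h4 : π * y - y * π = (4 / 3 : ℂ) • ((y + ((2 : ℂ) - 1) • (π * y) + ((2 : ℂ)⁻¹ - 1) • (y * π) +
        (((2 : ℂ) - 1) * ((2 : ℂ)⁻¹ - 1)) • (π * y * π)) - y) +
        (1 / 6 : ℂ) • ((y + ((-1 : ℂ) - 1) • (π * y) + ((-1 : ℂ)⁻¹ - 1) • (y * π) +
        (((-1 : ℂ) - 1) * ((-1 : ℂ)⁻¹ - 1)) • (π * y * π)) - y) := by
      ext a b
      simp only [Matrix.add_apply, Matrix.sub_apply, Matrix.smul_apply, smul_eq_mul]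
      norm_num
      ring
    rw [h4]
    exact Submodule.add_mem _ (Submodule.smul_mem _ _ (Submodule.sub_mem _ h2 hy0))
      (Submodule.smul_mem _ _ (Submodule.sub_mem _ h3 hy0))
  intro v
  rw [← C9X.mem_TC]
  unfold KSC.cl
  rw [Finset.mul_sum, Finset.sum_mul, ← Finset.sum_sub_distrib]
  refine Submodule.sum_mem _ fun i _ => ?_
  rw [Matrix.mul_smul, Matrix.smul_mul, ← smul_sub]
  exact Submodule.smul_mem _ _ (h0 i)

variable {g : ℕ} {A : AbVar g} {r : ℕ} {h : Fin r → ℕ} {B : ∀ i, AbVar (h i)} (D : Decomp A B)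

/-- the weight -/
theorem weight (hK1 : Stmt_K1) (hH : Stmt_Homx) (hTau : Stmt_TAU) (hK2a : Stmt_K2a) (hK2c : Stmt_K2c)
    (H : ∀ i (Y : Matrix (Idx (h i)) (Idx (h i)) ℂ) (ξ : ℂ), InLie (Gam (B i)) Y ξ →
      ∃ Z, InLie (Gam A) (D.emb i Z) 0 ∧ Y = Z + (ξ / 2) • 1) :
    InLie (Gam A) ((1 / 2 : ℂ) • (1 : Matrix (Idx g) (Idx g) ℂ)) 1 := by
  obtain ⟨p, hp, hpN⟩ := hTau g A
  obtain ⟨L, hLne⟩ : ∃ L : Additive ℂˣ →+ ℂ, L (Additive.ofMul p.2) ≠ 0 := by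
    by_contra hcon
    push Not at hcon
    obtain ⟨N, hN, h1⟩ := K4X.tors_of_L hH p.2 hcon
    exact hpN N hN h1
  obtain ⟨S, α, N, M, -, -, -, -, hst⟩ := hK1 (Idx g) p.1
  set X : Matrix (Idx g) (Idx g) ℂ := S.val * Matrix.diagonal (fun i => L (Additive.ofMul (α i))) *
    (S⁻¹).val with hX
  set ζ : ℂ := L (Additive.ofMul p.2) with hζ
  have hXm : InLie (Gam A) X ζ := fun t D hD => (hst p.2 t D (hD p hp)).1 L
  have h1 : ∀ i, ∃ Z, InLie (Gam A) (D.emb i Z) 0 ∧ D.blk i X = Z + (ζ / 2) • 1 :=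
    fun i => H i _ ζ (blk_lie D hK2c X ζ hXm i)
  choose a ha h2 using h1
  have h3 : X = ∑ i, D.emb i (a i) + (ζ / 2) • 1 := by
    conv_lhs => rw [lie_sum D hK2c X ζ hXm]
    rw [← sum_scalar D (ζ / 2), ← Finset.sum_add_distrib]
    refine Finset.sum_congr rfl fun i _ => ?_
    rw [h2, emb_add]
  have h4 := sum_lie hK2a _ fun i => ha i
  have h5 : InLie (Gam A) ((ζ / 2) • 1) ζ := by
    have h6 := (hK2a (Idx g) (Gam A)).1 X _ ζ 0 (-1) hXm h4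
    rw [mul_zero, add_zero, neg_one_smul, h3] at h6
    have e : ∑ i, D.emb i (a i) + (ζ / 2) • (1 : Matrix (Idx g) (Idx g) ℂ) +
        -∑ i, D.emb i (a i) = (ζ / 2) • 1 := by abel
    rwa [e] at h6
  have h6 := K2Y.inLie_smul hK2a h5 ζ⁻¹
  rw [inv_mul_cancel₀ hLne, smul_smul] at h6
  have e : ζ⁻¹ * (ζ / 2) = 1 / 2 := by
    field_simp
  rwa [e] at h6

/-- the conclusion -/
theorem concl (hPI : Stmt_PI) (hG2 : Stmt_Gb2) (hK2a : Stmt_K2a)
    (hw : InLie (Gam A) ((1 / 2 : ℂ) • (1 : Matrix (Idx g) (Idx g) ℂ)) 1)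
    (H : ∀ i (π : Matrix (Idx (h i)) (Idx (h i)) ℂ), π * π = π →
      (∀ (z : ℂˣ) (x : GL (Idx (h i)) ℂ), (B i).IsMu z x ↔ x.val = 1 + (z.val - 1) • π) →
      (∀ z : ℂˣ, ∃ x : GL (Idx (h i)) ℂ, (B i).IsMu z x) →
      (∀ α, (B i).IsEnd α → π * AbVar.toC α = AbVar.toC α * π) →
      πᵀ * (B i).riem + (B i).riem * π = (B i).riem →
      ∃ Z, InLie (Gam A) (D.emb i Z) 0 ∧ π = Z + (1 / 2 : ℂ) • 1)
    (t : TData) (E : Submodule ℂ (TIdx t (Idx g) → ℂ)) (hE : IsDRB A t E) : IsHodge A t E := by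
  refine ⟨hE.1, ?_⟩
  -- the projections
  obtain ⟨π, hπ, hmu, hex, hcomm, hsim⟩ := hPI g A
  have h1 : ∀ i, ∃ Z, InLie (Gam A) (D.emb i Z) 0 ∧ D.blk i π = Z + (1 / 2 : ℂ) • 1 := by
    intro i
    obtain ⟨π', hπ', hmu', hex', hcomm', hsim'⟩ := hPI (h i) (B i)
    have h2 : π' * toR (D.prj i) = toR (D.prj i) * π := by
      obtain ⟨x, hx⟩ := hex (Units.mk0 (2 : ℂ) two_ne_zero)
      obtain ⟨y, hy⟩ := hex' (Units.mk0 (2 : ℂ) two_ne_zero)
      have h3 := mu_hom hx hy (D.prj_hom i)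
      rw [(hmu _ x).1 hx, (hmu' _ y).1 hy, Units.val_mk0] at h3
      have h4 : ((2 : ℂ) - 1) • π = π := by norm_num
      have h5 : ((2 : ℂ) - 1) • π' = π' := by norm_num
      rw [h4, h5, Matrix.add_mul, Matrix.mul_add, Matrix.one_mul, Matrix.mul_one] at h3
      exact add_left_cancel h3
    have h3 : D.blk i π = π' := by
      unfold Decomp.blk
      rw [← h2, Matrix.mul_assoc, pi_same, Matrix.mul_one]
    rw [h3]
    exact H i π' hπ' hmu' hex' hcomm' hsim'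
  choose a ha h2 using h1
  have hπs : π = ∑ i, D.emb i (D.blk i π) := by
    have h3 : π = ∑ i, π * (toR (D.inc i) * toR (D.prj i)) := by
      rw [← Finset.mul_sum, pi_total, Matrix.mul_one]
    conv_lhs => rw [h3]
    refine Finset.sum_congr rfl fun i _ => ?_
    have h4 : A.IsEnd (D.inc i * D.prj i) := hom_comp (D.prj_hom i) (D.inc_hom i)
    have h5 := hcomm _ h4
    have h6 : AbVar.toC (D.inc i * D.prj i) = toR (D.inc i) * toR (D.prj i) := toR_mul _ _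
    rw [h6] at h5
    unfold Decomp.emb Decomp.blk
    calc π * (toR (D.inc i) * toR (D.prj i)) = π * (toR (D.inc i) * (toR (D.prj i) * toR (D.inc i)) *
          toR (D.prj i)) := by rw [pi_same, Matrix.mul_one]
      _ = π * (toR (D.inc i) * toR (D.prj i)) * (toR (D.inc i) * toR (D.prj i)) := by
          simp only [Matrix.mul_assoc]
      _ = _ := by rw [h5]; simp only [Matrix.mul_assoc]
  have hπZ : π = ∑ i, D.emb i (a i) + (1 / 2 : ℂ) • 1 := by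
    conv_lhs => rw [hπs]
    rw [← sum_scalar D (1 / 2), ← Finset.sum_add_distrib]
    refine Finset.sum_congr rfl fun i _ => ?_
    rw [h2, emb_add]
  have hπm : InLie (Gam A) π 1 := by
    have h3 := sum_lie hK2a _ fun i => ha i
    have h1 := (hK2a (Idx g) (Gam A)).1 _ _ 0 1 1 h3 hw
    rw [one_smul, one_mul, zero_add, ← hπZ] at h1
    exact h1
  intro z x hx
  have hz : Complex.exp (Complex.log z.val) = z.val := Complex.exp_log (Units.ne_zero z)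
  have h1 := K2Y.inLie_smul hK2a hπm (Complex.log z.val)
  rw [mul_one] at h1
  have h2 := K2Y.exp_stab_eq hK2a h1 t E (fun p hp => hG2 g A t E hE p hp)
  rw [K2Y.eX_val, K9X.exp_idem π hπ, hz] at h2
  rw [(hmu z x).1 hx]
  exact h2

end NFX

open NFX K3P.PFX K3P.Q1 K3P.Q3

theorem NF_proof (hPI : Stmt_PI) (hL : Stmt_Leg) (hG2 : Stmt_Gb2) (hK2a : Stmt_K2a) (hK2c : Stmt_K2c)
    (hK5a : Stmt_E5a) (h5v : Stmt_E5v) (hC5a : Stmt_C5a) (hC5v : Stmt_C5v) : Stmt_NF := by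
  intro g A r s h B D n₁ m₁ K₁ n₂ m₂ K₂ c1 c2 hw H1 H2 t E hE
  refine NFX.concl D hPI hG2 hK2a hw ?_ t E hE
  intro i
  refine Fin.addCases ?_ ?_ i
  · intro i π h1 h2 h3 h4 h5
    obtain ⟨a, c, ha, h6⟩ := decomp (K₁ i) hK5a h5v (c1 i) π h4 (pi_norm (K₁ i) π h1 h2 h3)
    have h7 : InLie (Gam (B (Fin.castAdd s i))) ((K₁ i).Z a) 0 := by
      have h1 := blk_lie D hK2c _ 0 (H1 i a ha) (Fin.castAdd s i)
      rwa [blk_emb] at h1
    have h8 : 2 * c = 1 := by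
      have h9 := (hK2c _ _ _ 0 h7).2
      rw [zero_smul] at h9
      refine riem_half hL (K₁ i).pos h9 ?_
      rw [← h6, one_smul]
      exact h5
    refine ⟨(K₁ i).Z a, H1 i a ha, ?_⟩
    rw [h6]
    congr 2
    linear_combination (1 / 2) * h8
  · intro i π h1 h2 h3 h4 h5
    obtain ⟨a, c, ha, h6⟩ := decompC (K₂ i) hC5a hC5v (c2 i) π h4 (pi_normC (K₂ i) π h1 h2 h3)
    have h7 : InLie (Gam (B (Fin.natAdd r i))) ((K₂ i).Z a) 0 := by
      have h1 := blk_lie D hK2c _ 0 (H2 i a ha) (Fin.natAdd r i)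
      rwa [blk_emb] at h1
    have h8 : 2 * c = 1 := by
      have h9 := (hK2c _ _ _ 0 h7).2
      rw [zero_smul] at h9
      refine riem_half hL (K₂ i).pos h9 ?_
      rw [← h6, one_smul]
      exact h5
    refine ⟨(K₂ i).Z a, H2 i a ha, ?_⟩
    rw [h6]
    congr 2
    linear_combination (1 / 2) * h8

/-- The weight, from the lifts. -/
theorem NW_proof (hK1 : Stmt_K1) (hH : Stmt_Homx) (hTau : Stmt_TAU) (hL : Stmt_Leg) (hK2a : Stmt_K2a)
    (hK2c : Stmt_K2c) (hK2d : Stmt_E2d) (hC2d : Stmt_C2d) (hK5a : Stmt_E5a) (h5v : Stmt_E5v)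
    (hC5a : Stmt_C5a) (hC5v : Stmt_C5v)
    {g : ℕ} {A : AbVar g} {r s : ℕ} {h : Fin (r + s) → ℕ} {B : ∀ i, AbVar (h i)} (D : Decomp A B)
    {n₁ m₁ : Fin r → ℕ} (K₁ : ∀ i, KSE (B (Fin.castAdd s i)) (n₁ i) (m₁ i))
    {n₂ m₂ : Fin s → ℕ} (K₂ : ∀ j, KSC (B (Fin.natAdd r j)) (n₂ j) (m₂ j))
    (c1 : ∀ i, 3 ≤ m₁ i) (c2 : ∀ j, 1 ≤ m₂ j)
    (H1 : ∀ i, ∀ x ∈ (K₁ i).S, InLie (Gam A) (D.emb (Fin.castAdd s i) ((K₁ i).Z x)) 0)
    (H2 : ∀ j, ∀ y ∈ (K₂ j).S, InLie (Gam A) (D.emb (Fin.natAdd r j) ((K₂ j).Z y)) 0) :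
    InLie (Gam A) ((1 / 2 : ℂ) • (1 : Matrix (Idx g) (Idx g) ℂ)) 1 := by
  refine NFX.weight D hK1 hH hTau hK2a hK2c ?_
  intro i
  refine Fin.addCases ?_ ?_ i
  · intro i Y ξ hY
    obtain ⟨a, c, ha, h3⟩ := decomp (K₁ i) hK5a h5v (c1 i) Y (hK2c _ _ _ ξ hY).1 (fun v => by
      have h1 := (hK2d _ _ _ _ (K₁ i)).2 _ ξ hY ((K₁ i).cl v) ((E5dX.mem_TC (K₁ i) _).2 ⟨v, rfl⟩)
      exact (E5dX.mem_TC (K₁ i) _).1 h1)
    have h4 := (hK2c _ _ _ ξ hY).2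
    rw [h3] at h4
    have h7 : InLie (Gam (B (Fin.castAdd s i))) ((K₁ i).Z a) 0 := by
      have h1 := blk_lie D hK2c _ 0 (H1 i a ha) (Fin.castAdd s i)
      rwa [blk_emb] at h1
    have h5 := (hK2c _ _ _ 0 h7).2
    rw [zero_smul] at h5
    have h6 := riem_half hL (K₁ i).pos h5 h4
    refine ⟨(K₁ i).Z a, H1 i a ha, ?_⟩
    rw [h3, ← h6]
    congr 2
    ring
  · intro i Y ξ hY
    obtain ⟨a, c, ha, h3⟩ := decompC (K₂ i) hC5a hC5v (c2 i) Y (hK2c _ _ _ ξ hY).1 (fun v => by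
      have h1 := (hC2d _ _ _ _ (K₂ i)).2 _ ξ hY ((K₂ i).cl v) ((C9X.mem_TC (K₂ i) _).2 ⟨v, rfl⟩)
      exact (C9X.mem_TC (K₂ i) _).1 h1)
    have h4 := (hK2c _ _ _ ξ hY).2
    rw [h3] at h4
    have h7 : InLie (Gam (B (Fin.natAdd r i))) ((K₂ i).Z a) 0 := by
      have h1 := blk_lie D hK2c _ 0 (H2 i a ha) (Fin.natAdd r i)
      rwa [blk_emb] at h1
    have h5 := (hK2c _ _ _ 0 h7).2
    rw [zero_smul] at h5
    have h6 := riem_half hL (K₂ i).pos h5 h4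
    refine ⟨(K₂ i).Z a, H2 i a ha, ?_⟩
    rw [h3, ← h6]
    congr 2
    ring

end

end Pool.Agent.K3M
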