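import Pool.Agent.K3C.C9w
import Pool.Agent.K3C.C8r
import Pool.Agent.K3C.C5w
import Pool.Agent.K3P.GE
import Pool.Agent.K3M.NF
import Pool.Agent.K3M.N0

/-!
# NE: from tuples to the Lie algebra
-/

set_option autoImplicit false

open scoped BigOperators
open Matrix Polynomial

namespace Pool.Agent.K3M

open Pool.Agent.DRB Pool.Agent.K3D Pool.Agent.K3E Pool.Agent.K3C Pool.Agent.K3P

namespace NEX

/-- `so_E(T)` is perfect. -/
theorem perf {g n m : ℕ} {A : AbVar g} (K : KSE A n m) (hm : 3 ≤ m) {a : Matrix (Fin n) (Fin n) ℂ}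
    (ha : a ∈ K.S) :
    a ∈ Submodule.span ℂ {c | ∃ x ∈ K.S, ∃ y ∈ K.S, c = x * y - y * x} := by
  refine Submodule.span_le.2 ?_ (DUAL.mem_span K ha)
  rintro w ⟨z, x, y, hz, hx, hy, rfl⟩
  obtain ⟨b, b', hb, hb', h0, h1, h2⟩ := DUAL.dual K z
  have hd0 : (Module.finrank ℂ (K.Tl z) : ℂ) - 2 ≠ 0 := by
    rw [E5L.finrank_Tl K hz]
    intro h
    have h3 : ((m : ℕ) : ℂ) = (2 : ℕ) := by
      push_cast
      linear_combination h
    have h4 : m = 2 := by exact_mod_cast h3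
    omega
  have h5 : E5L.wm K x y = ((Module.finrank ℂ (K.Tl z) : ℂ) - 2)⁻¹ •
      ∑ j, (E5L.wm K x (b j) * E5L.wm K (b' j) y - E5L.wm K (b' j) y * E5L.wm K x (b j)) := by
    rw [E8C.comm_sum K hx hy b b' hb hb' h0 h1 h2, smul_smul, inv_mul_cancel₀ hd0, one_smul]
  show E5L.wm K x y ∈ Submodule.span ℂ {c | ∃ x ∈ K.S, ∃ y ∈ K.S, c = x * y - y * x}
  rw [h5]
  refine Submodule.smul_mem _ _ (Submodule.sum_mem _ fun j _ => Submodule.subset_span ?_)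
  exact ⟨_, E5L.wm_mem K hx (hb j), _, E5L.wm_mem K (hb' j) hy, rfl⟩

theorem ZE0 {g n m : ℕ} {A : AbVar g} (K : KSE A n m) : K.Z 0 = 0 := (E8C.ZL K).map_zero

theorem ZC0 {g n m : ℕ} {A : AbVar g} (K : KSC A n m) : K.Z 0 = 0 := by
  have := C5X.Z_smul K 0 0
  simpa using this

theorem ZCneg {g n m : ℕ} {A : AbVar g} (K : KSC A n m) (a : Matrix (Fin n) (Fin n) ℂ) :
    K.Z (-a) = - K.Z a := by
  have := C5X.Z_smul K (-1) a
  rwa [neg_one_smul, neg_one_smul] at this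

/-- normal form, real multiplication -/
theorem normalE (hL : Stmt_Leg) (hK2c : Stmt_K2c) (hE5a : Stmt_E5a) {g n m : ℕ} {A : AbVar g}
    (K : KSE A n m) {X : Matrix (Idx g) (Idx g) ℂ} {ξ : ℂ}
    (hX : InLie (Gam A) X ξ) {a : Matrix (Fin n) (Fin n) ℂ} (ha : a ∈ K.S)
    (hXa : ∀ v, X * K.cl v - K.cl v * X = K.cl (a *ᵥ v)) : X = K.Z a + (ξ / 2) • 1 := by
  obtain ⟨c, hc⟩ := GEX.scal K hE5a ha X (hK2c g A X ξ hX).1 hXa
  have h1 := C9W.trace_L hL hK2c hX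
  rw [hc, Matrix.trace_add, E8C.trace_Z K hE5a ha, zero_add, Matrix.trace_smul, Matrix.trace_one,
    smul_eq_mul] at h1
  have : Nonempty (Idx g) := ⟨Sum.inl ⟨0, K.pos⟩⟩
  have h2 : (Fintype.card (Idx g) : ℂ) ≠ 0 := by
    exact_mod_cast Fintype.card_ne_zero
  have h3 : (ξ - 2 * c) * (Fintype.card (Idx g) : ℂ) = 0 := by
    linear_combination -h1
  have h4 : ξ - 2 * c = 0 := (mul_eq_zero.1 h3).resolve_right h2
  rw [hc]
  congr 2
  linear_combination -(1 / 2) * h4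

/-- normal form, complex multiplication -/
theorem normalC (hL : Stmt_Leg) (hK2c : Stmt_K2c) (hC5a : Stmt_C5a) {g n m : ℕ} {A : AbVar g}
    (K : KSC A n m) {X : Matrix (Idx g) (Idx g) ℂ} {ξ : ℂ}
    (hX : InLie (Gam A) X ξ) {a : Matrix (Fin n) (Fin n) ℂ} (ha : a ∈ K.S)
    (hXa : K.Act X a) : X = K.Z a + (ξ / 2) • 1 := by
  obtain ⟨c, hc, h1⟩ := C9W.normal hL hK2c hC5a hX ha hXa
  rw [hc, h1]
  congr 2
  ring

section prod

variable {g : ℕ} {A : AbVar g} {r s : ℕ} {h : Fin (r + s) → ℕ} {B : ∀ i, AbVar (h i)} (D : Decomp A B)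
    {n₁ m₁ : Fin r → ℕ} (K₁ : ∀ i, KSE (B (Fin.castAdd s i)) (n₁ i) (m₁ i))
    {n₂ m₂ : Fin s → ℕ} (K₂ : ∀ j, KSC (B (Fin.natAdd r j)) (n₂ j) (m₂ j))

/-- witnesses of a tuple -/
def Wit (Y : Matrix (Idx g) (Idx g) ℂ) (ξ : ℂ)
    (a : ∀ i, Matrix (Fin (n₁ i)) (Fin (n₁ i)) ℂ) (b : ∀ j, Matrix (Fin (n₂ j)) (Fin (n₂ j)) ℂ) : Prop :=
  InLie (Gam A) Y ξ ∧
    (∀ i v, D.blk (Fin.castAdd s i) Y * (K₁ i).cl v - (K₁ i).cl v * D.blk (Fin.castAdd s i) Y =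
      (K₁ i).cl (a i *ᵥ v)) ∧
    ∀ j, (K₂ j).Act (D.blk (Fin.natAdd r j) Y) (b j)

variable {D K₁ K₂}

theorem Wit.dd {Y : Matrix (Idx g) (Idx g) ℂ} {ξ : ℂ}
    {a : ∀ i, Matrix (Fin (n₁ i)) (Fin (n₁ i)) ℂ} {b : ∀ j, Matrix (Fin (n₂ j)) (Fin (n₂ j)) ℂ}
    (hw : Wit D K₁ K₂ Y ξ a b) : DD2 D K₁ K₂ a b := ⟨Y, ξ, hw⟩

theorem Wit.brk (hK2a : Stmt_K2a) (hK2c : Stmt_K2c) {Y Y' : Matrix (Idx g) (Idx g) ℂ} {ξ ξ' : ℂ}
    {a a' : ∀ i, Matrix (Fin (n₁ i)) (Fin (n₁ i)) ℂ} {b b' : ∀ j, Matrix (Fin (n₂ j)) (Fin (n₂ j)) ℂ}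
    (hw : Wit D K₁ K₂ Y ξ a b) (hw' : Wit D K₁ K₂ Y' ξ' a' b') :
    Wit D K₁ K₂ (Y * Y' - Y' * Y) 0 (fun i => a i * a' i - a' i * a i)
      (fun j => b j * b' j - b' j * b j) := by
  obtain ⟨hY, hYa, hYb⟩ := hw
  obtain ⟨hY', hYa', hYb'⟩ := hw'
  obtain ⟨a1, a2, a3, -⟩ := hK2a (Idx g) (Gam A)
  refine ⟨a3 Y Y' ξ ξ' hY hY', fun i v => ?_, fun j v => ?_⟩
  · rw [Q3.blk_sub, Q3.blk_mul D hK2c _ Y Y' ξ' hY', Q3.blk_mul D hK2c _ Y' Y ξ hY, Matrix.sub_mulVec,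
      ← Matrix.mulVec_mulVec, ← Matrix.mulVec_mulVec, E8Y.cl_sub, ← hYa, ← hYa', ← hYa', ← hYa]
    noncomm_ring
  · rw [Q3.blk_sub, Q3.blk_mul D hK2c _ Y Y' ξ' hY', Q3.blk_mul D hK2c _ Y' Y ξ hY, Matrix.sub_mulVec,
      ← Matrix.mulVec_mulVec, ← Matrix.mulVec_mulVec, C5dX.cl_sub, ← hYb j, ← hYb' j, ← hYb' j, ← hYb j]
    noncomm_ring

theorem Wit.map (hGb4 : Stmt_Gb4) (hK2b : Stmt_K2b) (σ : ℂ ≃ₐ[ℚ] ℂ)
    {Y : Matrix (Idx g) (Idx g) ℂ} {ξ : ℂ}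
    {a : ∀ i, Matrix (Fin (n₁ i)) (Fin (n₁ i)) ℂ} {b : ∀ j, Matrix (Fin (n₂ j)) (Fin (n₂ j)) ℂ}
    (hw : Wit D K₁ K₂ Y ξ a b) :
    Wit D K₁ K₂ (Y.map σ) (σ ξ) (fun i => (a i).map σ) (fun j => (b j).map σ) := by
  obtain ⟨hY, hYa, hYb⟩ := hw
  refine ⟨hK2b (Idx g) (Gam A) (fun σ p hp q h1 h2 => hGb4 g A σ p hp q h1 h2) σ Y ξ hY, fun i w => ?_,
    fun j w => ?_⟩
  · have h1 := congrArg (fun Z : Matrix (Idx (h (Fin.castAdd s i))) (Idx (h (Fin.castAdd s i))) ℂ =>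
      Z.map σ) (hYa i fun k => σ.symm (w k))
    have h3 : ∀ Z Z' : Matrix (Idx (h (Fin.castAdd s i))) (Idx (h (Fin.castAdd s i))) ℂ,
      (Z * Z').map σ = Z.map σ * Z'.map σ := fun Z Z' => Matrix.map_mul (f := (σ : ℂ →+* ℂ))
    have h4 : ∀ Z Z' : Matrix (Idx (h (Fin.castAdd s i))) (Idx (h (Fin.castAdd s i))) ℂ,
        (Z - Z').map σ = Z.map σ - Z'.map σ := by
      intro Z Z'
      ext i j
      rw [Matrix.map_apply, Matrix.sub_apply, map_sub, Matrix.sub_apply, Matrix.map_apply,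
        Matrix.map_apply]
    simp only [h4, h3] at h1
    rw [← E5X.cl_map, ← E5X.cl_map] at h1
    have h5 : (fun i => σ (σ.symm (w i))) = w := by funext i; simp
    rw [h5] at h1
    rw [Q3.blk_map, h1]
    congr 1
    funext k
    simp only [Matrix.mulVec, dotProduct, map_sum, map_mul, Matrix.map_apply,
      AlgEquiv.apply_symm_apply]
  · have h1 := congrArg (fun Z : Matrix (Idx (h (Fin.natAdd r j))) (Idx (h (Fin.natAdd r j))) ℂ =>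
      Z.map σ) (hYb j fun k => σ.symm (w k))
    have h3 : ∀ Z Z' : Matrix (Idx (h (Fin.natAdd r j))) (Idx (h (Fin.natAdd r j))) ℂ,
      (Z * Z').map σ = Z.map σ * Z'.map σ := fun Z Z' => Matrix.map_mul (f := (σ : ℂ →+* ℂ))
    have h4 : ∀ Z Z' : Matrix (Idx (h (Fin.natAdd r j))) (Idx (h (Fin.natAdd r j))) ℂ,
        (Z - Z').map σ = Z.map σ - Z'.map σ := by
      intro Z Z'
      ext i j
      rw [Matrix.map_apply, Matrix.sub_apply, map_sub, Matrix.sub_apply, Matrix.map_apply,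
        Matrix.map_apply]
    simp only [h4, h3] at h1
    rw [← C5X.cl_map, ← C5X.cl_map] at h1
    have h5 : (fun i => σ (σ.symm (w i))) = w := by funext i; simp
    rw [h5] at h1
    rw [Q3.blk_map, h1]
    congr 1
    funext k
    simp only [Matrix.mulVec, dotProduct, map_sum, map_mul, Matrix.map_apply,
      AlgEquiv.apply_symm_apply]

/-- the normal form -/
theorem Wit.normal (hL : Stmt_Leg) (hK2c : Stmt_K2c) (hE5a : Stmt_E5a) (hC5a : Stmt_C5a)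
    (T : TupAlg2 K₁ K₂ (DD2 D K₁ K₂)) {Y : Matrix (Idx g) (Idx g) ℂ} {ξ : ℂ}
    {a : ∀ i, Matrix (Fin (n₁ i)) (Fin (n₁ i)) ℂ} {b : ∀ j, Matrix (Fin (n₂ j)) (Fin (n₂ j)) ℂ}
    (hw : Wit D K₁ K₂ Y ξ a b) :
    Y = ∑ i, D.emb (Fin.castAdd s i) ((K₁ i).Z (a i)) + ∑ j, D.emb (Fin.natAdd r j) ((K₂ j).Z (b j)) +
      (ξ / 2) • 1 := by
  obtain ⟨hS1, hS2⟩ := T.mem a b hw.dd
  obtain ⟨hY, hYa, hYb⟩ := hw
  have h1 := Q3.lie_sum D hK2c Y ξ hY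
  have h2 := PFX.sum_scalar D (ξ / 2)
  rw [Fin.sum_univ_add] at h1 h2
  conv_lhs => rw [h1]
  rw [← h2]
  have e1 : ∀ i, D.emb (Fin.castAdd s i) (D.blk (Fin.castAdd s i) Y) =
      D.emb (Fin.castAdd s i) ((K₁ i).Z (a i)) + D.emb (Fin.castAdd s i) ((ξ / 2) • 1) := by
    intro i
    rw [← PFX.emb_add, ← normalE hL hK2c hE5a (K₁ i) (Q3.blk_lie D hK2c Y ξ hY _) (hS1 i) (hYa i)]
  have e2 : ∀ j, D.emb (Fin.natAdd r j) (D.blk (Fin.natAdd r j) Y) =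
      D.emb (Fin.natAdd r j) ((K₂ j).Z (b j)) + D.emb (Fin.natAdd r j) ((ξ / 2) • 1) := by
    intro j
    rw [← PFX.emb_add, ← normalC hL hK2c hC5a (K₂ j) (Q3.blk_lie D hK2c Y ξ hY _) (hS2 j) (hYb j)]
  rw [Finset.sum_congr rfl fun i _ => e1 i, Finset.sum_congr rfl fun j _ => e2 j,
    Finset.sum_add_distrib, Finset.sum_add_distrib]
  abel

theorem sumE (i : Fin r) (x : Matrix (Fin (n₁ i)) (Fin (n₁ i)) ℂ) :
    ∑ i', D.emb (Fin.castAdd s i') ((K₁ i').Z ((Pi.single i x : ∀ i, Matrix (Fin (n₁ i)) (Fin (n₁ i)) ℂ) i'))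
      = D.emb (Fin.castAdd s i) ((K₁ i).Z x) := by
  rw [Finset.sum_eq_single i]
  · rw [Pi.single_eq_same]
  · intro i' _ hi
    rw [Pi.single_eq_of_ne hi, ZE0, GEX.emb_zero]
  · intro hi; exact absurd (Finset.mem_univ i) hi

theorem sumC (j : Fin s) (y : Matrix (Fin (n₂ j)) (Fin (n₂ j)) ℂ) :
    ∑ j', D.emb (Fin.natAdd r j') ((K₂ j').Z ((Pi.single j y : ∀ j, Matrix (Fin (n₂ j)) (Fin (n₂ j)) ℂ) j'))
      = D.emb (Fin.natAdd r j) ((K₂ j).Z y) := by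
  rw [Finset.sum_eq_single j]
  · rw [Pi.single_eq_same]
  · intro j' _ hj
    rw [Pi.single_eq_of_ne hj, ZC0, GEX.emb_zero]
  · intro hj; exact absurd (Finset.mem_univ j) hj

theorem sumE0 : ∑ i', D.emb (Fin.castAdd s i') ((K₁ i').Z ((0 : ∀ i, Matrix (Fin (n₁ i)) (Fin (n₁ i)) ℂ) i'))
      = 0 :=
  Finset.sum_eq_zero fun i _ => by rw [Pi.zero_apply, ZE0, GEX.emb_zero]

theorem sumC0 : ∑ j', D.emb (Fin.natAdd r j') ((K₂ j').Z ((0 : ∀ j, Matrix (Fin (n₂ j)) (Fin (n₂ j)) ℂ) j'))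
      = 0 :=
  Finset.sum_eq_zero fun i _ => by rw [Pi.zero_apply, ZC0, GEX.emb_zero]

section normal

variable (hL : Stmt_Leg) (hK2c : Stmt_K2c) (hE5a : Stmt_E5a) (hC5a : Stmt_C5a)
    (T : TupAlg2 K₁ K₂ (DD2 D K₁ K₂))

include hL hK2c hE5a hC5a T

theorem Wit.one {i : Fin r} {x : Matrix (Fin (n₁ i)) (Fin (n₁ i)) ℂ} {Y : Matrix (Idx g) (Idx g) ℂ} {ξ : ℂ}
    (hw : Wit D K₁ K₂ Y ξ (Pi.single i x) 0) :
    Y = D.emb (Fin.castAdd s i) ((K₁ i).Z x) + (ξ / 2) • 1 := by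
  have h1 := hw.normal hL hK2c hE5a hC5a T
  rw [sumE, sumC0, add_zero] at h1
  exact h1

theorem Wit.two {j : Fin s} {y : Matrix (Fin (n₂ j)) (Fin (n₂ j)) ℂ} {Y : Matrix (Idx g) (Idx g) ℂ} {ξ : ℂ}
    (hw : Wit D K₁ K₂ Y ξ 0 (Pi.single j y)) :
    Y = D.emb (Fin.natAdd r j) ((K₂ j).Z y) + (ξ / 2) • 1 := by
  have h1 := hw.normal hL hK2c hE5a hC5a T
  rw [sumC, sumE0, zero_add] at h1
  exact h1

theorem Wit.none {Y : Matrix (Idx g) (Idx g) ℂ} {ξ : ℂ}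
    (hw : Wit D K₁ K₂ Y ξ 0 0) : Y = (ξ / 2) • 1 := by
  have h1 := hw.normal hL hK2c hE5a hC5a T
  rw [sumC0, sumE0, zero_add, zero_add] at h1
  exact h1

end normal

theorem single_brk {κ : Type} [DecidableEq κ] {n : κ → ℕ} (i : κ) (x y : Matrix (Fin (n i)) (Fin (n i)) ℂ) :
    (fun i' => (Pi.single i x : ∀ i, Matrix (Fin (n i)) (Fin (n i)) ℂ) i' *
        (Pi.single i y : ∀ i, Matrix (Fin (n i)) (Fin (n i)) ℂ) i' -
      (Pi.single i y : ∀ i, Matrix (Fin (n i)) (Fin (n i)) ℂ) i' *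
        (Pi.single i x : ∀ i, Matrix (Fin (n i)) (Fin (n i)) ℂ) i') = Pi.single i (x * y - y * x) := by
  funext i'
  by_cases hi : i' = i
  · subst hi
    rw [Pi.single_eq_same, Pi.single_eq_same, Pi.single_eq_same]
  · rw [Pi.single_eq_of_ne hi, Pi.single_eq_of_ne hi, Pi.single_eq_of_ne hi, mul_zero, sub_zero]

theorem zero_brk {κ : Type} {n : κ → ℕ} :
    (fun i' => (0 : ∀ i, Matrix (Fin (n i)) (Fin (n i)) ℂ) i' * (0 : ∀ i, Matrix (Fin (n i)) (Fin (n i)) ℂ) i' -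
      (0 : ∀ i, Matrix (Fin (n i)) (Fin (n i)) ℂ) i' * (0 : ∀ i, Matrix (Fin (n i)) (Fin (n i)) ℂ) i') =
      (0 : ∀ i, Matrix (Fin (n i)) (Fin (n i)) ℂ) := by
  funext i'
  rw [Pi.zero_apply, mul_zero, sub_zero]

/-- commutators, real multiplication -/
theorem commE (hL : Stmt_Leg) (hK2a : Stmt_K2a) (hK2c : Stmt_K2c) (hE5a : Stmt_E5a) (hC5a : Stmt_C5a)
    (T : TupAlg2 K₁ K₂ (DD2 D K₁ K₂)) (i : Fin r)
    (H : ∀ x ∈ (K₁ i).S, DD2 D K₁ K₂ (Pi.single i x) 0) {x y : Matrix (Fin (n₁ i)) (Fin (n₁ i)) ℂ}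
    (hx : x ∈ (K₁ i).S) (hy : y ∈ (K₁ i).S) :
    InLie (Gam A) (D.emb (Fin.castAdd s i) ((K₁ i).Z (x * y - y * x))) 0 := by
  obtain ⟨Y, ξ, hY⟩ := H x hx
  obtain ⟨Y', ξ', hY'⟩ := H y hy
  have h1 : Wit D K₁ K₂ (Y * Y' - Y' * Y) 0 (Pi.single i (x * y - y * x)) 0 := by
    have h2 := Wit.brk hK2a hK2c (show Wit D K₁ K₂ Y ξ _ _ from hY) (show Wit D K₁ K₂ Y' ξ' _ _ from hY')
    rwa [single_brk, zero_brk] at h2
  have h3 := h1.one hL hK2c hE5a hC5a T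
  rw [zero_div, zero_smul, add_zero] at h3
  rw [← h3]
  exact h1.1

/-- commutators, complex multiplication -/
theorem commC (hL : Stmt_Leg) (hK2a : Stmt_K2a) (hK2c : Stmt_K2c) (hE5a : Stmt_E5a) (hC5a : Stmt_C5a)
    (T : TupAlg2 K₁ K₂ (DD2 D K₁ K₂)) (j : Fin s)
    (H : ∀ y ∈ (K₂ j).S, DD2 D K₁ K₂ 0 (Pi.single j y)) {x y : Matrix (Fin (n₂ j)) (Fin (n₂ j)) ℂ}
    (hx : x ∈ (K₂ j).S) (hy : y ∈ (K₂ j).S) :
    InLie (Gam A) (D.emb (Fin.natAdd r j) ((K₂ j).Z (x * y - y * x))) 0 := by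
  obtain ⟨Y, ξ, hY⟩ := H x hx
  obtain ⟨Y', ξ', hY'⟩ := H y hy
  have h1 : Wit D K₁ K₂ (Y * Y' - Y' * Y) 0 0 (Pi.single j (x * y - y * x)) := by
    have h2 := Wit.brk hK2a hK2c (show Wit D K₁ K₂ Y ξ _ _ from hY) (show Wit D K₁ K₂ Y' ξ' _ _ from hY')
    rwa [single_brk, zero_brk] at h2
  have h3 := h1.two hL hK2c hE5a hC5a T
  rw [zero_div, zero_smul, add_zero] at h3
  rw [← h3]
  exact h1.1

/-- brackets with embedded matrices -/
theorem brk_emb (hK2c : Stmt_K2c) {Y : Matrix (Idx g) (Idx g) ℂ} {ξ : ℂ} (hY : InLie (Gam A) Y ξ)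
    (k : Fin (r + s)) (Z : Matrix (Idx (h k)) (Idx (h k)) ℂ) :
    Y * D.emb k Z - D.emb k Z * Y = D.emb k (D.blk k Y * Z - Z * D.blk k Y) := by
  have h1 := Q3.lie_inc D hK2c Y ξ hY k
  have h2 := Q3.lie_prj D hK2c Y ξ hY k
  unfold Decomp.emb
  rw [Matrix.mul_sub, Matrix.sub_mul]
  congr 1
  · rw [← Matrix.mul_assoc, ← Matrix.mul_assoc, h1, Matrix.mul_assoc (toR (D.inc k))]
  · rw [Matrix.mul_assoc, h2]
    simp only [Matrix.mul_assoc]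

theorem emb_inj (k : Fin (r + s)) {Z Z' : Matrix (Idx (h k)) (Idx (h k)) ℂ} (he : D.emb k Z = D.emb k Z') :
    Z = Z' := by
  rw [← Q3.blk_emb D k Z, he, Q3.blk_emb]

theorem emb_smul (k : Fin (r + s)) (c : ℂ) (Z : Matrix (Idx (h k)) (Idx (h k)) ℂ) :
    D.emb k (c • Z) = c • D.emb k Z := by
  unfold Decomp.emb
  rw [Matrix.mul_smul, Matrix.smul_mul]

/-- the elementary central elements have multiplier zero -/
theorem central (hL : Stmt_Leg) (hK1 : Stmt_K1) (hK2a : Stmt_K2a) (hK2b : Stmt_K2b) (hG4 : Stmt_Gb4)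
    (hK2c : Stmt_K2c) (hK3 : Stmt_K3) (hE5a : Stmt_E5a) (hC5a : Stmt_C5a)
    (T : TupAlg2 K₁ K₂ (DD2 D K₁ K₂))
    (hns : ∀ c : ℂ, InLie (Gam A) (c • (1 : Matrix (Idx g) (Idx g) ℂ)) (2 * c) → c = 0)
    (j : Fin s) {z0 : ℂ} (hz0 : aeval z0 (K₂ j).P = 0) {δ : Matrix (Fin (n₂ j)) (Fin (n₂ j)) ℂ}
    (hδ : ∀ z : ℂ, aeval z (K₂ j).P = 0 → ∀ v ∈ (K₂ j).Tl z, δ *ᵥ v = ((C8T.ef z0 z : ℚ) : ℂ) • v)
    (hδL : DD2 D K₁ K₂ 0 (Pi.single j δ)) :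
    InLie (Gam A) (D.emb (Fin.natAdd r j) ((K₂ j).Z δ)) 0 := by
  obtain ⟨Y, ξ, hY⟩ := hδL
  change Wit D K₁ K₂ Y ξ _ _ at hY
  have hYn := hY.two hL hK2c hE5a hC5a T
  -- ξ is rational
  have hrat : ∃ q : ℚ, ξ = (q : ℂ) := by
    by_contra hcon
    have h1 : ξ ∉ Submodule.span ℚ {(1 : ℂ)} := by
      intro h
      obtain ⟨q, hq⟩ := Submodule.mem_span_singleton.1 h
      apply hcon
      refine ⟨q, ?_⟩
      rw [← hq, Rat.smul_def, mul_one]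
    obtain ⟨ψ, hψ, hψ1⟩ := Submodule.exists_le_ker_of_notMem h1
    have hψ1' : ψ 1 = 0 := hψ1 (Submodule.mem_span_singleton_self 1)
    set φ : ℂ →ₗ[ℚ] ℂ := (Algebra.linearMap ℚ ℂ).comp ψ with hφ
    have hφq : ∀ q : ℚ, φ (q : ℂ) = 0 := by
      intro q
      have h3 : (q : ℂ) = q • (1 : ℂ) := by
        rw [Rat.smul_def, mul_one]
      rw [h3, map_smul, hφ, LinearMap.comp_apply, hψ1', map_zero, smul_zero]
    obtain ⟨Y', hY', hYf⟩ := C8R.replica hK1 hK3 (Gam A) hY.1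
      (T := {ξ, 0, 1, -1}) (Set.toFinite _) (Set.mem_insert _ _) φ
    have hmem : ∀ z, ((C8T.ef z0 z : ℚ) : ℂ) ∈ ({ξ, 0, 1, -1} : Set ℂ) := by
      intro z
      unfold C8T.ef
      split_ifs
      · simp
      · simp
      · simp
    have hact : Wit D K₁ K₂ Y' (φ ξ) 0 0 := by
      refine ⟨hY', fun i v => ?_, fun j' v => ?_⟩
      · rw [Pi.zero_apply, Matrix.zero_mulVec, E8Y.cl_zero]
        apply emb_inj (D := D) (Fin.castAdd s i)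
        rw [← brk_emb hK2c hY', GEX.emb_zero]
        have h2 := hYf 0 (by simp) (D.emb (Fin.castAdd s i) ((K₁ i).cl v)) (by
          rw [brk_emb hK2c hY.1, hY.2.1 i v, Pi.zero_apply, Matrix.zero_mulVec, E8Y.cl_zero, GEX.emb_zero,
            zero_smul])
        rw [h2, map_zero, zero_smul]
      · rw [Pi.zero_apply, Matrix.zero_mulVec, C5X.cl_zero]
        apply emb_inj (D := D) (Fin.natAdd r j')
        rw [← brk_emb hK2c hY', GEX.emb_zero]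
        by_cases hj : j' = j
        · subst hj
          refine C5L.indT (K₂ j') (p := fun v => Y' * D.emb (Fin.natAdd r j') ((K₂ j').cl v) -
            D.emb (Fin.natAdd r j') ((K₂ j').cl v) * Y' = 0) ?_ ?_ ?_ v
          · intro z hz v hv
            have h2 := hYf _ (hmem z) (D.emb (Fin.natAdd r j') ((K₂ j').cl v)) (by
              rw [brk_emb hK2c hY.1, hY.2.2 j' v, Pi.single_eq_same, hδ z hz v hv, C5X.cl_smul, emb_smul])
            rw [h2, hφq, zero_smul]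
          · rw [C5X.cl_zero, GEX.emb_zero, mul_zero, zero_mul, sub_zero]
          · intro v w h1 h2
            rw [C5X.cl_add, PFX.emb_add, mul_add, add_mul, add_sub_add_comm, h1, h2, add_zero]
        · have h2 := hYf 0 (by simp) (D.emb (Fin.natAdd r j') ((K₂ j').cl v)) (by
            rw [brk_emb hK2c hY.1, hY.2.2 j' v, Pi.single_eq_of_ne hj, Matrix.zero_mulVec, C5X.cl_zero,
              GEX.emb_zero, zero_smul])
          rw [h2, map_zero, zero_smul]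
    have h4 := hact.none hL hK2c hE5a hC5a T
    have h5 := hact.1
    rw [h4] at h5
    have h6 : φ ξ / 2 = 0 := hns _ (by
      have : 2 * (φ ξ / 2) = φ ξ := by ring
      rw [this]
      exact h5)
    have h7 : φ ξ = 0 := by
      linear_combination 2 * h6
    apply hψ
    have h5 : algebraMap ℚ ℂ (ψ ξ) = 0 := h7
    exact (map_eq_zero (algebraMap ℚ ℂ)).1 h5
  obtain ⟨q, hq⟩ := hrat
  obtain ⟨σ, hσ⟩ := Pool.Agent.K3E.E5L.exists_aut (K₂ j).irr hz0 (C5L.conj_root (K₂ j) hz0)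
  have hδσ : δ.map σ = -δ := by
    refine C5L.mat_extT (K₂ j) fun z hz v hv => ?_
    have hzs := C8T.root_aut (K₂ j) σ.symm hz
    have h3 := hδ (σ.symm z) hzs (fun i => σ.symm (v i)) (C5L.map_Tl (K₂ j) σ.symm hv)
    have h4 : C8T.ef z0 (σ.symm z) = - C8T.ef z0 z := by
      have hne := C5L.conj_ne (K₂ j) hz0
      have e1 : σ.symm z = z0 ↔ z = (starRingEnd ℂ) z0 := by
        rw [← hσ]
        constructor
        · intro h; rw [← h, AlgEquiv.apply_symm_apply]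
        · intro h; rw [h, AlgEquiv.symm_apply_apply]
      have e2 : σ.symm z = (starRingEnd ℂ) z0 ↔ z = z0 := by
        have h5 : σ ((starRingEnd ℂ) z0) = z0 := by
          rw [C8T.conj_aut (K₂ j) σ hz0, hσ, Complex.conj_conj]
        constructor
        · intro h
          rw [← h5, ← h, AlgEquiv.apply_symm_apply]
        · intro h
          have h6 := AlgEquiv.symm_apply_apply σ ((starRingEnd ℂ) z0)
          rw [h5] at h6
          rw [h, h6]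
      unfold C8T.ef
      by_cases h5 : z = z0
      · have h6 : z ≠ (starRingEnd ℂ) z0 := by
          rw [h5]; exact hne.symm
        rw [if_neg (fun h => h6 (e1.1 h)), if_pos (e2.2 h5), if_pos h5]
      · by_cases h6 : z = (starRingEnd ℂ) z0
        · rw [if_pos (e1.2 h6), if_neg h5, if_pos h6, neg_neg]
        · rw [if_neg (fun h => h6 (e1.1 h)), if_neg (fun h => h5 (e2.1 h)), if_neg h5, if_neg h6, neg_zero]
    rw [h4] at h3
    rw [Matrix.neg_mulVec, hδ z hz v hv]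
    funext i
    have h5 := congrArg σ (congrFun h3 i)
    simp only [Matrix.mulVec, dotProduct, map_sum, map_mul, Pi.smul_apply, smul_eq_mul,
      AlgEquiv.apply_symm_apply] at h5
    simp only [Matrix.mulVec, dotProduct, Matrix.map_apply, Pi.neg_apply, Pi.smul_apply, smul_eq_mul]
    rw [h5]
    simp
  have hwσ : Wit D K₁ K₂ (Y.map σ) ξ 0 (Pi.single j (-δ)) := by
    have h1 := Wit.map hG4 hK2b σ hY
    have h2 : σ ξ = ξ := by
      rw [hq]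
      simp
    have h3 : (fun i => ((0 : ∀ i, Matrix (Fin (n₁ i)) (Fin (n₁ i)) ℂ) i).map σ) = 0 := by
      funext i
      ext a b
      simp
    have h4 : (fun j' => ((Pi.single j δ : ∀ j, Matrix (Fin (n₂ j)) (Fin (n₂ j)) ℂ) j').map σ) =
        Pi.single j (-δ) := by
      funext j'
      by_cases hj : j' = j
      · subst hj
        rw [Pi.single_eq_same, Pi.single_eq_same, hδσ]
      · rw [Pi.single_eq_of_ne hj, Pi.single_eq_of_ne hj]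
        ext a b
        simp
    rwa [h2, h3, h4] at h1
  have hYσ := hwσ.two hL hK2c hE5a hC5a T
  have hsum := (hK2a _ (Gam A)).1 _ _ _ _ 1 hY.1 hwσ.1
  have hen : D.emb (Fin.natAdd r j) ((K₂ j).Z (-δ)) = - D.emb (Fin.natAdd r j) ((K₂ j).Z δ) := by
    rw [ZCneg, ← neg_one_smul ℂ, emb_smul, neg_one_smul]
  have e1 : Y + (1 : ℂ) • Y.map σ = ξ • (1 : Matrix (Idx g) (Idx g) ℂ) := by
    rw [one_smul, hYσ, hYn, hen]
    have : ξ • (1 : Matrix (Idx g) (Idx g) ℂ) = (ξ / 2) • 1 + (ξ / 2) • 1 := by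
      rw [← add_smul, add_halves]
    rw [this]
    abel
  have e2 : ξ + 1 * ξ = 2 * ξ := by ring
  rw [e1, e2] at hsum
  have h0 := hns ξ hsum
  have h9 := hY.1
  rw [hYn, h0, zero_div, zero_smul, add_zero] at h9
  exact h9

end prod

end NEX

open NEX in
/-- NE, general dimensions. -/
theorem NE_gen (hL : Stmt_Leg) (hK1 : Stmt_K1) (hK2a : Stmt_K2a) (hK2b : Stmt_K2b)
    (hG4 : Stmt_Gb4) (hK2c : Stmt_K2c) (hK3 : Stmt_K3) (hE5a : Stmt_E5a) (hC5a : Stmt_C5a)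
    (hC5w : Stmt_C5w2) {g : ℕ} {A : AbVar g} {r s : ℕ} {h : Fin (r + s) → ℕ} {B : ∀ i, AbVar (h i)}
    (D : Decomp A B)
    {n₁ m₁ : Fin r → ℕ} (K₁ : ∀ i, KSE (B (Fin.castAdd s i)) (n₁ i) (m₁ i))
    {n₂ m₂ : Fin s → ℕ} (K₂ : ∀ j, KSC (B (Fin.natAdd r j)) (n₂ j) (m₂ j))
    (hm3 : ∀ i, 3 ≤ m₁ i) (hc : ∀ j, 1 ≤ m₂ j)
    (T : TupAlg2 K₁ K₂ (DD2 D K₁ K₂))
    (H1 : ∀ i, ∀ x ∈ (K₁ i).S, DD2 D K₁ K₂ (Pi.single i x) 0)
    (H2 : ∀ j, ∀ y ∈ (K₂ j).S, DD2 D K₁ K₂ 0 (Pi.single j y)) :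
    (∀ i, ∀ x ∈ (K₁ i).S, InLie (Gam A) (D.emb (Fin.castAdd s i) ((K₁ i).Z x)) 0) ∧
    ∀ j, ∀ y ∈ (K₂ j).S, InLie (Gam A) (D.emb (Fin.natAdd r j) ((K₂ j).Z y)) 0 := by
  classical
  by_cases hW : InLie (Gam A) ((1 / 2 : ℂ) • (1 : Matrix (Idx g) (Idx g) ℂ)) 1
  · -- the weight belongs to the Lie algebra
    have key : ∀ (Z : Matrix (Idx g) (Idx g) ℂ) (ξ : ℂ), InLie (Gam A) (Z + (ξ / 2) • 1) ξ →
        InLie (Gam A) Z 0 := by
      intro Z ξ hZ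
      have h1 := (hK2a _ (Gam A)).1 _ _ _ _ (-ξ) hZ hW
      have e1 : Z + (ξ / 2) • (1 : Matrix (Idx g) (Idx g) ℂ) + (-ξ) • ((1 / 2 : ℂ) • 1) = Z := by
        rw [smul_smul, add_assoc, ← add_smul]
        have : ξ / 2 + -ξ * (1 / 2) = 0 := by ring
        rw [this, zero_smul, add_zero]
      have e2 : ξ + (-ξ) * 1 = 0 := by ring
      rwa [e1, e2] at h1
    refine ⟨fun i x hx => ?_, fun j y hy => ?_⟩
    · obtain ⟨Y, ξ, hY⟩ := H1 i x hx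
      change Wit D K₁ K₂ Y ξ _ _ at hY
      have h1 := hY.1
      rw [hY.one hL hK2c hE5a hC5a T] at h1
      exact key _ ξ h1
    · obtain ⟨Y, ξ, hY⟩ := H2 j y hy
      change Wit D K₁ K₂ Y ξ _ _ at hY
      have h1 := hY.1
      rw [hY.two hL hK2c hE5a hC5a T] at h1
      exact key _ ξ h1
  · have hns : ∀ c : ℂ, InLie (Gam A) (c • (1 : Matrix (Idx g) (Idx g) ℂ)) (2 * c) → c = 0 := by
      intro c hc
      by_contra hc0
      apply hW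
      have h1 := K2Y.inLie_smul hK2a hc (1 / (2 * c))
      rw [smul_smul] at h1
      have e1 : 1 / (2 * c) * c = 1 / 2 := by field_simp
      have e2 : 1 / (2 * c) * (2 * c) = 1 := by field_simp
      rwa [e1, e2] at h1
    refine ⟨fun i x hx => ?_, fun j y hy => ?_⟩
    · have h1 := perf (K₁ i) (hm3 i) hx
      have h2 : Submodule.span ℂ {c | ∃ x ∈ (K₁ i).S, ∃ y ∈ (K₁ i).S, c = x * y - y * x} ≤
          (GEX.L0 D hK2a (Fin.castAdd s i)).comap (E8C.ZL (K₁ i)) := by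
        rw [Submodule.span_le]
        rintro _ ⟨x, hx, y, hy, rfl⟩
        exact commE hL hK2a hK2c hE5a hC5a T i (H1 i) hx hy
      exact h2 h1
    · let ZL2 : Matrix (Fin (n₂ j)) (Fin (n₂ j)) ℂ →ₗ[ℂ]
          Matrix (Idx (h (Fin.natAdd r j))) (Idx (h (Fin.natAdd r j))) ℂ :=
        { toFun := (K₂ j).Z
          map_add' := C5X.Z_add (K₂ j)
          map_smul' := C5X.Z_smul (K₂ j) }
      set L0 : Submodule ℂ (Matrix (Fin (n₂ j)) (Fin (n₂ j)) ℂ) :=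
        (GEX.L0 D hK2a (Fin.natAdd r j)).comap ZL2 with hL0
      have hder : Submodule.span ℂ {c | ∃ b ∈ (K₂ j).S, ∃ b' ∈ (K₂ j).S, c = b * b' - b' * b} ≤ L0 := by
        rw [Submodule.span_le]
        rintro _ ⟨x, hx, y, hy, rfl⟩
        exact commC hL hK2a hK2c hE5a hC5a T j (H2 j) hx hy
      have hm1 := hc j
      have hm0 : (m₂ j : ℂ) ≠ 0 := by
        have : m₂ j ≠ 0 := by omega
        exact_mod_cast this
      obtain ⟨τ, -, h2, hodd, h3, -⟩ := hC5w _ _ _ _ (K₂ j) hm1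
      have hef : ∀ z0 : {z // z ∈ C8T.roots (K₂ j)}, ∃ δ ∈ (K₂ j).S, (∀ z : ℂ, aeval z (K₂ j).P = 0 →
          ∀ v ∈ (K₂ j).Tl z, δ *ᵥ v = ((C8T.ef z0 z : ℚ) : ℂ) • v) := by
        intro z0
        have hz0 := C8T.mem_roots.1 z0.2
        obtain ⟨δ, h1, -, h2⟩ := C5L.exists_central (K₂ j) (fun z => ((C8T.ef z0 z : ℚ) : ℂ)) (fun z _ => by
          show ((C8T.ef z0 ((starRingEnd ℂ) z) : ℚ) : ℂ) = -((C8T.ef z0 z : ℚ) : ℂ)
          rw [C8T.ef_conj hz0]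
          push_cast
          rfl)
        exact ⟨δ, h1, h2⟩
      choose δ hδS hδ using hef
      have hδL : ∀ z0, δ z0 ∈ L0 := fun z0 =>
        central hL hK1 hK2a hK2b hG4 hK2c hK3 hE5a hC5a T hns j (C8T.mem_roots.1 z0.2) (hδ z0)
          (H2 j _ (hδS z0))
      have hbv := C8T.sum_ef (K := K₂ j) τ hodd hy δ hδ
      set b := ∑ z0 : {z // z ∈ C8T.roots (K₂ j)}, (τ z0 y / m₂ j / 2) • δ z0 with hb
      have hbS : b ∈ (K₂ j).S := Submodule.sum_mem _ fun z0 _ => (K₂ j).S.smul_mem _ (hδS z0)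
      have hbL : b ∈ L0 := Submodule.sum_mem _ fun z0 _ => L0.smul_mem _ (hδL z0)
      have hab : y - b ∈ L0 := by
        refine hder (h3 _ ((K₂ j).S.sub_mem hy hbS) fun z hz => ?_)
        rw [map_sub, h2 z hz b hbS _ (hbv z hz)]
        field_simp
        ring
      have h9 : y ∈ L0 := by
        have : y = (y - b) + b := by abel
        rw [this]
        exact L0.add_mem hab hbL
      exact h9

/-- NE. -/
theorem NE_proof (h0 : Stmt_N0) (hL : Stmt_Leg) (hK1 : Stmt_K1) (hK2a : Stmt_K2a) (hK2b : Stmt_K2b)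
    (hG4 : Stmt_Gb4) (hK2c : Stmt_K2c) (hK3 : Stmt_K3) (hE5a : Stmt_E5a) (hC5a : Stmt_C5a)
    (hC5w : Stmt_C5w2) : Stmt_NE := by
  intro g A r s h B D n₁ m₁ K₁ n₂ m₂ K₂ hm H1 H2
  exact NE_gen hL hK1 hK2a hK2b hG4 hK2c hK3 hE5a hC5a hC5w D K₁ K₂
    (fun i => by have := hm.1 i; omega) (fun j => (hm.2.1 j).1)
    (h0 g A r s h B D n₁ m₁ K₁ n₂ m₂ K₂ hm) H1 H2

end Pool.Agent.K3M
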