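import Pool.Agent.K3M.Stmts

/-!
# De Rham-Betti conjecture: products of Kuga-Satake abelian varieties, the group
-/

open scoped BigOperators
open Matrix

namespace Pool.Agent.K3M

open Pool.Agent.DRB Pool.Agent.K3D Pool.Agent.K3E Pool.Agent.K3C Pool.Agent.K3P

noncomputable section

/-- XE. Elements normalizing `T`, real multiplication, are products of exponentials up to a scalar. -/
def Stmt_XE : Prop :=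
  ∀ (g : ℕ) (A : AbVar g) (n m : ℕ) (K : KSE A n m), 3 ≤ m → ∀ x : GL (Idx g) ℂ,
    (∀ α, A.IsEnd α → x.val * AbVar.toC α = AbVar.toC α * x.val) →
    (∀ Y ∈ K.TC, x.val * Y * (x⁻¹).val ∈ K.TC) →
    ∃ (c : ℂ) (l : List (Matrix (Fin n) (Fin n) ℂ)), (∀ a ∈ l, a ∈ K.S) ∧
      x.val = c • (l.map fun a => NormedSpace.exp (K.Z a)).prod

/-- XC. Elements normalizing `T`, complex multiplication, are products of exponentials up to a scalar. -/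
def Stmt_XC : Prop :=
  ∀ (g : ℕ) (A : AbVar g) (n m : ℕ) (K : KSC A n m), 1 ≤ m → ∀ x : GL (Idx g) ℂ,
    (∀ α, A.IsEnd α → x.val * AbVar.toC α = AbVar.toC α * x.val) →
    (∀ Y ∈ K.TC, x.val * Y * (x⁻¹).val ∈ K.TC) →
    ∃ (c : ℂ) (l : List (Matrix (Fin n) (Fin n) ℂ)), (∀ a ∈ l, a ∈ K.S) ∧
      x.val = c • (l.map fun a => NormedSpace.exp (K.Z a)).prod

/-- `-1` is an exponential, real multiplication. -/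
def Stmt_MinE : Prop :=
  ∀ (g : ℕ) (A : AbVar g) (n m : ℕ) (K : KSE A n m), 3 ≤ m → ∃ a ∈ K.S, NormedSpace.exp (K.Z a) = -1

/-- `-1` is an exponential, complex multiplication. -/
def Stmt_MinC : Prop :=
  ∀ (g : ℕ) (A : AbVar g) (n m : ℕ) (K : KSC A n m), 1 ≤ m → ∃ a ∈ K.S, NormedSpace.exp (K.Z a) = -1

/-- NG. The de Rham-Betti group of the product. -/
def Stmt_NG : Prop :=
  ∀ (g : ℕ) (A : AbVar g) (r s : ℕ) (h : Fin (r + s) → ℕ) (B : ∀ i, AbVar (h i)) (D : Decomp A B)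
    (n₁ m₁ : Fin r → ℕ) (K₁ : ∀ i, KSE (B (Fin.castAdd s i)) (n₁ i) (m₁ i))
    (n₂ m₂ : Fin s → ℕ) (K₂ : ∀ j, KSC (B (Fin.natAdd r j)) (n₂ j) (m₂ j)),
    (∀ i, 3 ≤ m₁ i) → (∀ j, 1 ≤ m₂ j) →
    InLie (Gam A) ((1 / 2 : ℂ) • (1 : Matrix (Idx g) (Idx g) ℂ)) 1 →
    (∀ i, ∀ x ∈ (K₁ i).S, InLie (Gam A) (D.emb (Fin.castAdd s i) ((K₁ i).Z x)) 0) →
    (∀ j, ∀ y ∈ (K₂ j).S, InLie (Gam A) (D.emb (Fin.natAdd r j) ((K₂ j).Z y)) 0) →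
    ∀ (x : GL (Idx g) ℂ) (ν : ℂˣ), InGdRB A x ν ↔
      ((∀ α ∈ A.EndQ, x.val * AbVar.toC α = AbVar.toC α * x.val) ∧
        (∀ i, ∀ Y ∈ (K₁ i).TC, D.blk (Fin.castAdd s i) x.val * Y * D.blk (Fin.castAdd s i) (x⁻¹).val ∈
          (K₁ i).TC) ∧
        (∀ j, ∀ Y ∈ (K₂ j).TC, D.blk (Fin.natAdd r j) x.val * Y * D.blk (Fin.natAdd r j) (x⁻¹).val ∈
          (K₂ j).TC) ∧
        x.valᵀ * A.riem * x.val = ν.val • A.riem)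

/-- The de Rham-Betti conjecture for products of Kuga-Satake varieties, with the group. -/
def MainM2 : Prop :=
  ∀ (g : ℕ) (A : AbVar g) (r s : ℕ) (h : Fin (r + s) → ℕ) (B : ∀ i, AbVar (h i)) (D : Decomp A B),
    (∀ i j : Fin r, i ≠ j → ∀ α, IsHom (B (Fin.castAdd s i)) (B (Fin.castAdd s j)) α → α = 0) →
    ∀ (n₁ m₁ : Fin r → ℕ) (K₁ : ∀ i, KSE (B (Fin.castAdd s i)) (n₁ i) (m₁ i))
      (n₂ m₂ : Fin s → ℕ) (K₂ : ∀ j, KSC (B (Fin.natAdd r j)) (n₂ j) (m₂ j)),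
    (∀ i, m₁ i = 3 ∨ 6 ≤ m₁ i) → (∀ j, 1 ≤ m₂ j ∧ (Even (m₂ j) ∨ m₂ j = 1)) →
    (∀ i j, m₁ i = 3 → m₂ j ≠ 2) → IndC K₂ → JTrit K₂ →
    (∀ (x : GL (Idx g) ℂ) (ν : ℂˣ), InGdRB A x ν ↔
      ((∀ α ∈ A.EndQ, x.val * AbVar.toC α = AbVar.toC α * x.val) ∧
        (∀ i, ∀ Y ∈ (K₁ i).TC, D.blk (Fin.castAdd s i) x.val * Y * D.blk (Fin.castAdd s i) (x⁻¹).val ∈
          (K₁ i).TC) ∧
        (∀ j, ∀ Y ∈ (K₂ j).TC, D.blk (Fin.natAdd r j) x.val * Y * D.blk (Fin.natAdd r j) (x⁻¹).val ∈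
          (K₂ j).TC) ∧
        x.valᵀ * A.riem * x.val = ν.val • A.riem)) ∧
    ∀ (t : TData) (E : Submodule ℂ (TIdx t (Idx g) → ℂ)), IsDRB A t E → IsHodge A t E

end

/-- Assembly. -/
theorem MainM2_of (h0 : Stmt_N0) (hl : Stmt_NL) (hn : Stmt_NN) (hq : Stmt_NQ) (hc : Stmt_NC) (hd : Stmt_ND)
    (ht : Stmt_NT) (he : Stmt_NE)
    (hw : ∀ (g : ℕ) (A : AbVar g) (r s : ℕ) (h : Fin (r + s) → ℕ) (B : ∀ i, AbVar (h i)) (D : Decomp A B)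
      (n₁ m₁ : Fin r → ℕ) (K₁ : ∀ i, KSE (B (Fin.castAdd s i)) (n₁ i) (m₁ i))
      (n₂ m₂ : Fin s → ℕ) (K₂ : ∀ j, KSC (B (Fin.natAdd r j)) (n₂ j) (m₂ j)),
      (∀ i, 3 ≤ m₁ i) → (∀ j, 1 ≤ m₂ j) →
      (∀ i, ∀ x ∈ (K₁ i).S, InLie (Gam A) (D.emb (Fin.castAdd s i) ((K₁ i).Z x)) 0) →
      (∀ j, ∀ y ∈ (K₂ j).S, InLie (Gam A) (D.emb (Fin.natAdd r j) ((K₂ j).Z y)) 0) →
      InLie (Gam A) ((1 / 2 : ℂ) • (1 : Matrix (Idx g) (Idx g) ℂ)) 1)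
    (hf : Stmt_NF) (hG : Stmt_NG) : MainM2 := by
  intro g A r s h B D hH n₁ m₁ K₁ n₂ m₂ K₂ c1 c2 c4 hI hJ
  have hm : DimM m₁ m₂ := ⟨c1, c2, c4⟩
  have c1' : ∀ i, 3 ≤ m₁ i := fun i => by rcases c1 i with h | h <;> omega
  have T := h0 g A r s h B D n₁ m₁ K₁ n₂ m₂ K₂ hm
  have e1 := hq r s _ _ _ _ n₁ m₁ K₁ n₂ m₂ K₂ _ T (hl g A r s h B D n₁ m₁ K₁ n₂ m₂ K₂)
    (hn g A r s h B D hH n₁ m₁ K₁ n₂ m₂ K₂ hm) hm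
  have e2 := hd r s _ _ _ _ n₁ m₁ K₁ n₂ m₂ K₂ _ T e1 hm (hc r s _ _ _ _ n₁ m₁ K₁ n₂ m₂ K₂ _ T hm hI)
  have e3 := ht g A r s h B D n₁ m₁ K₁ n₂ m₂ K₂ hm hJ e1 e2
  obtain ⟨f2, f3⟩ := he g A r s h B D n₁ m₁ K₁ n₂ m₂ K₂ hm e1 e3
  have f1 := hw g A r s h B D n₁ m₁ K₁ n₂ m₂ K₂ c1' (fun j => (c2 j).1) f2 f3
  exact ⟨hG g A r s h B D n₁ m₁ K₁ n₂ m₂ K₂ c1' (fun j => (c2 j).1) f1 f2 f3,
    hf g A r s h B D n₁ m₁ K₁ n₂ m₂ K₂ c1' (fun j => (c2 j).1) f1 f2 f3⟩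

end Pool.Agent.K3M
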