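import Pool.Agent.K3C.C10c
import Pool.Agent.K3C.C10x
import Pool.Agent.K3M.StmtsG

/-!
# XC: elements normalizing `T` are products of exponentials up to a scalar, complex multiplication;
`-1` is an exponential
-/

open scoped BigOperators
open Matrix

namespace Pool.Agent.K3M

open Pool.Agent.DRB Pool.Agent.K3D Pool.Agent.K3E Pool.Agent.K3C

noncomputable section

namespace XCX

variable {g n m : ℕ} {A : AbVar g} (K : KSC A n m)

open K3C.C10C

/-- product of the exponentials -/
def prodU (l : List (Matrix (Idx g) (Idx g) ℂ)) : GL (Idx g) ℂ := (l.map expU).prod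

theorem prodU_val (l : List (Matrix (Idx g) (Idx g) ℂ)) :
    (prodU l).val = (l.map NormedSpace.exp).prod := by
  unfold prodU
  induction l with
  | nil => rfl
  | cons a l ih => rw [List.map_cons, List.prod_cons, List.map_cons, List.prod_cons, Units.val_mul, ih]; rfl

/-- exponentials commute with what their exponents commute with -/
theorem exp_comm {ι : Type} [Fintype ι] [DecidableEq ι] {X Y : Matrix ι ι ℂ} (h : X * Y = Y * X) :
    NormedSpace.exp X * Y = Y * NormedSpace.exp X := CX10.exp_J X X Y h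

theorem prod_comm {ι : Type} [Fintype ι] [DecidableEq ι] (l : List (Matrix ι ι ℂ)) {Y : Matrix ι ι ℂ}
    (h : ∀ X ∈ l, X * Y = Y * X) :
    (l.map NormedSpace.exp).prod * Y = Y * (l.map NormedSpace.exp).prod := by
  induction l with
  | nil => simp
  | cons a l ih =>
    rw [List.map_cons, List.prod_cons, Matrix.mul_assoc, ih fun X hX => h X (List.mem_cons_of_mem _ hX),
      ← Matrix.mul_assoc, exp_comm (h a List.mem_cons_self), Matrix.mul_assoc]

/-- action of the product of the exponentials on `T` -/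
theorem act (hC5a : Stmt_C5a) (as : List (Matrix (Fin n) (Fin n) ℂ)) (has : ∀ a ∈ as, a ∈ K.S) :
    ∀ v, ((as.map K.Z).map NormedSpace.exp).prod * K.cl v =
      K.cl ((as.map fun a => NormedSpace.exp a).prod *ᵥ v) * ((as.map K.Z).map NormedSpace.exp).prod := by
  induction as with
  | nil => intro v; simp
  | cons a as ih =>
    intro v
    have h3 := ih (fun b hb => has b (List.mem_cons_of_mem _ hb)) v
    have ha := has a List.mem_cons_self
    have hact := (hC5a g A n m K).2.2.1 a (fun v w => by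
      rw [C5L.bil_S K ha v w]; ring)
    have h4 := K8X.exp_intertwine (C8Y.clL K) (K.Z a) a (fun w => hact w)
      ((as.map fun a => NormedSpace.exp a).prod *ᵥ v)
    rw [C8Y.clL_apply, C8Y.clL_apply, Matrix.mulVec_mulVec] at h4
    rw [List.map_cons, List.map_cons, List.prod_cons, List.map_cons, List.prod_cons, mul_assoc, h3,
      ← mul_assoc, h4, mul_assoc]

/-- `Z (v ∧ w) = (cl v * cl w - B(v, w)) / 2` -/
theorem Z_wm (v w : Fin n → ℂ) :
    K.Z (C5L.wm K v w) = (1 / 2 : ℂ) • (K.cl v * K.cl w - K.bil v w • 1) := by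
  have hr := C5X.rel K
  have h1 : K.Z (C5L.wm K v w) = (1 / 4 : ℂ) • (K.cl v * K.cl w - K.cl w * K.cl v) := by
    have h2 : ∀ u : Fin n → ℂ, K.cl u = ∑ i, u i • K.cl (Pi.single i 1) := by
      intro u
      rw [C5X.cl_eq]
      exact Finset.sum_congr rfl fun i _ => by rw [C5X.cl_single]
    unfold KSC.Z
    have h3 : ∀ i, ((4 * (K.q i : ℂ))⁻¹) • (K.cl (C5L.wm K v w *ᵥ Pi.single i 1) *
        K.cl (Pi.single i 1)) = (1 / 4 : ℂ) • (K.cl v * (w i • K.cl (Pi.single i 1)) -
          K.cl w * (v i • K.cl (Pi.single i 1))) := by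
      intro i
      have hq := C5L.qC_ne K i
      rw [C5L.wm_mulVec, C5L.bil_comm K w, C5L.bil_comm K v, C5L.bil_single, C5L.bil_single,
        sub_eq_add_neg, ← neg_smul, C5X.cl_add, C5X.cl_smul, C5X.cl_smul, add_mul, smul_mul_assoc,
        smul_mul_assoc, mul_smul_comm, mul_smul_comm, smul_add, smul_smul, smul_smul, smul_sub,
        smul_smul, smul_smul, sub_eq_add_neg, ← neg_smul]
      congr 2
      · field_simp
      · field_simp
    rw [Finset.sum_congr rfl fun i _ => h3 i, ← Finset.smul_sum, Finset.sum_sub_distrib,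
      ← Finset.mul_sum, ← Finset.mul_sum, ← h2, ← h2]
  rw [h1]
  have h4 := hr v w
  have h5 : K.cl w * K.cl v = (2 * K.bil v w) • (1 : Matrix (Idx g) (Idx g) ℂ) - K.cl v * K.cl w := by
    rw [← h4]; abel
  rw [h5]
  module

/-- The exponential of `2 π i (p - 1/2)`. -/
theorem exp_idem {ι : Type} [Fintype ι] [DecidableEq ι] (p : Matrix ι ι ℂ) (hp : p * p = p) :
    NormedSpace.exp ((2 * Real.pi * Complex.I : ℂ) • (p - (1 / 2 : ℂ) • 1)) = -1 := by
  have h1 : (2 * Real.pi * Complex.I : ℂ) • (p - (1 / 2 : ℂ) • (1 : Matrix ι ι ℂ)) =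
      (-(Real.pi * Complex.I) : ℂ) • (1 : Matrix ι ι ℂ) + (2 * Real.pi * Complex.I : ℂ) • p := by
    module
  rw [h1, Matrix.exp_add_of_commute _ _ ((Commute.one_left _).smul_left _), E10B.exp_scalar,
    K9X.exp_idem p hp, Complex.exp_two_pi_mul_I, sub_self, zero_smul, add_zero, Matrix.mul_one,
    Complex.exp_neg, Complex.exp_pi_mul_I]
  norm_num

end XCX

open XCX K3C.C10C in
theorem XC_proof (hC5a : Stmt_C5a) (hC5v : Stmt_C5v) (hx : Stmt_C10x) : Stmt_XC := by
  intro g A n m K hm x hcom hnor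
  have hrel := C5X.rel K
  -- the action on `T`
  obtain ⟨b, hb⟩ : ∃ b : Matrix (Fin n) (Fin n) ℂ, ∀ v, x.val * K.cl v * (x⁻¹).val = K.cl (b *ᵥ v) := by
    have h1 : ∀ i : Fin n, ∃ w, K.cl w = x.val * K.cl (Pi.single i 1) * (x⁻¹).val := by
      intro i
      exact (C8Y.mem_TC_iff K _).1 (hnor _ ((C8Y.mem_TC_iff K _).2 ⟨_, rfl⟩))
    choose w hw using h1
    refine ⟨Matrix.of fun i j => w j i, fun v => ?_⟩
    let F : (Fin n → ℂ) →ₗ[ℂ] Matrix (Idx g) (Idx g) ℂ :=
      ((LinearMap.mulLeft ℂ x.val).comp (LinearMap.mulRight ℂ (x⁻¹).val)).comp (C8Y.clL K)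
    let G : (Fin n → ℂ) →ₗ[ℂ] Matrix (Idx g) (Idx g) ℂ :=
      (C8Y.clL K).comp (Matrix.toLin' (Matrix.of fun i j => w j i))
    have hFG : F = G := by
      refine LinearMap.pi_ext' fun i => LinearMap.ext_ring ?_
      simp only [F, G, LinearMap.comp_apply, LinearMap.mulLeft_apply, LinearMap.mulRight_apply,
        LinearMap.single_apply, Matrix.toLin'_apply, C8Y.clL_apply, Matrix.mulVec_single_one]
      rw [← mul_assoc, ← hw i]
      congr 1
    have h2 := congrArg (fun H : (Fin n → ℂ) →ₗ[ℂ] Matrix (Idx g) (Idx g) ℂ => H v) hFG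
    simp only [F, G, LinearMap.comp_apply, LinearMap.mulLeft_apply, LinearMap.mulRight_apply,
      Matrix.toLin'_apply, C8Y.clL_apply] at h2
    rw [mul_assoc]; exact h2
  have hbil : ∀ v w, K.bil (b *ᵥ v) (b *ᵥ w) = K.bil v w := fun v w =>
    C5X.bil_conj K.pos hrel x (hb v) (hb w)
  have hbth : b * K.thC = K.thC * b := (hC5v g A n m K hm).2 x b hcom hb
  obtain ⟨as, has, hprod⟩ := hx g A n m K hm b hbth hbil
  have hact := act K hC5a as has
  rw [hprod] at hact
  set y := prodU (as.map K.Z) with hy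
  rw [← prodU_val, ← hy] at hact
  have e1 : y.val * (y⁻¹).val = 1 := by rw [← Units.val_mul]; simp
  have e2 : (y⁻¹).val * y.val = 1 := by rw [← Units.val_mul]; simp
  have hyc : ∀ α, A.IsEnd α → y.val * AbVar.toC α = AbVar.toC α * y.val := by
    intro α hα
    rw [hy, prodU_val]
    refine prod_comm _ fun X hX => ?_
    obtain ⟨a, ha, rfl⟩ := List.mem_map.1 hX
    exact (hC5a g A n m K).2.2.2.2.2 α hα a (has a ha)
  -- the quotient is a scalar
  obtain ⟨c, hc⟩ := (hC5a g A n m K).2.2.2.1 ((y⁻¹).val * x.val) (by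
    intro α hα
    have h1 : (y⁻¹).val * AbVar.toC α = AbVar.toC α * (y⁻¹).val := by
      calc (y⁻¹).val * AbVar.toC α = (y⁻¹).val * (AbVar.toC α * y.val) * (y⁻¹).val := by
            rw [mul_assoc, mul_assoc, e1, mul_one]
        _ = (y⁻¹).val * (y.val * AbVar.toC α) * (y⁻¹).val := by rw [hyc α hα]
        _ = AbVar.toC α * (y⁻¹).val := by rw [← mul_assoc, e2, one_mul]
    rw [mul_assoc, hcom α hα, ← mul_assoc, h1, mul_assoc]) (by
    intro v
    have h1 : x.val * K.cl v = K.cl (b *ᵥ v) * x.val := by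
      rw [← hb v, mul_assoc _ _ x.val, C5X.inv_mul_self, mul_one]
    have h2 : (y⁻¹).val * K.cl (b *ᵥ v) = K.cl v * (y⁻¹).val := by
      calc (y⁻¹).val * K.cl (b *ᵥ v) = (y⁻¹).val * (K.cl (b *ᵥ v) * y.val) * (y⁻¹).val := by
            rw [mul_assoc, mul_assoc, e1, mul_one]
        _ = (y⁻¹).val * (y.val * K.cl v) * (y⁻¹).val := by rw [hact v]
        _ = K.cl v * (y⁻¹).val := by rw [← mul_assoc, e2, one_mul]
    rw [mul_assoc, h1, ← mul_assoc, h2, mul_assoc])
  have hxy : x.val = c • y.val := by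
    have h1 : x.val = y.val * ((y⁻¹).val * x.val) := by rw [← mul_assoc, e1, one_mul]
    rw [h1, hc, Matrix.mul_smul, Matrix.mul_one]
  refine ⟨c, as, has, ?_⟩
  rw [hxy, hy, prodU_val, List.map_map]
  rfl

open XCX in
theorem MinC_proof : Stmt_MinC := by
  intro g A n m K hm
  have hz := K.lam_root
  obtain ⟨b, b', hb, hb', hd, -, -⟩ := C8D.dual K hz
  have hN : 0 < Module.finrank ℂ (K.Tl K.lam) := by
    rw [C5L.finrank_Tl K hz]; omega
  set i : Fin (Module.finrank ℂ (K.Tl K.lam)) := ⟨0, hN⟩ with hi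
  have hne := C5L.conj_ne K hz
  have hr := C5X.rel K
  have h1 : K.bil (b i) (b i) = 0 := C5L.orth K (Ne.symm hne) (hb i) (hb i)
  have h2 : K.bil (b' i) (b' i) = 0 :=
    C5L.orth K (by rw [Complex.conj_conj]; exact hne) (hb' i) (hb' i)
  have h3 : K.bil (b i) (b' i) = 1 := by
    rw [C5L.bil_comm, hd, if_pos rfl]
  have hp : ((1 / 2 : ℂ) • (K.cl (b i) * K.cl (b' i))) * ((1 / 2 : ℂ) • (K.cl (b i) * K.cl (b' i))) =
      (1 / 2 : ℂ) • (K.cl (b i) * K.cl (b' i)) := by
    have h5 : K.cl (b' i) * K.cl (b i) = (2 : ℂ) • (1 : Matrix (Idx g) (Idx g) ℂ) -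
        K.cl (b i) * K.cl (b' i) := by
      have := hr (b i) (b' i)
      rw [h3, mul_one] at this
      rw [← this]; abel
    have h6 : K.cl (b i) * K.cl (b' i) * (K.cl (b i) * K.cl (b' i)) =
        (2 : ℂ) • (K.cl (b i) * K.cl (b' i)) := by
      calc K.cl (b i) * K.cl (b' i) * (K.cl (b i) * K.cl (b' i)) =
          K.cl (b i) * (K.cl (b' i) * K.cl (b i)) * K.cl (b' i) := by simp only [mul_assoc]
        _ = _ := by
          rw [h5, mul_sub, sub_mul, mul_smul_comm, mul_one, smul_mul_assoc, ← mul_assoc,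
            C5X.sq hr (b i), h1, zero_smul, zero_mul, zero_mul, sub_zero]
    rw [smul_mul_smul_comm, h6, smul_smul]
    norm_num
  refine ⟨(2 * Real.pi * Complex.I : ℂ) • C5L.wm K (b i) (b' i),
    K.S.smul_mem _ (C5L.wm_mem K hz (hb i) (hb' i)), ?_⟩
  rw [C5X.Z_smul, Z_wm, h3, one_smul, ← exp_idem _ hp]
  congr 2
  rw [smul_sub]

end

end Pool.Agent.K3M
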