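import Pool.Agent.SPH.GB3T
import Pool.Agent.DRB.POS2
import Pool.Agent.K3P.Q3
import Pool.Agent.K3E.E2d
import Pool.Agent.K3C.C2d
import Pool.Agent.K3M.XC

/-!
# NG: the de Rham-Betti group of a product
-/

open scoped BigOperators
open Matrix

namespace Pool.Agent.K3M

open Pool.Agent.DRB Pool.Agent.K3D Pool.Agent.K3E Pool.Agent.K3C Pool.Agent.K3P Pool.Agent.K3D.K2Y

noncomputable section

namespace NGX

open K3C.C10C K3P.Q1 K3P.Q3 XCX

variable {g : ℕ} {A : AbVar g} {r : ℕ} {h : Fin r → ℕ} {B : ∀ i, AbVar (h i)} (D : Decomp A B)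

/-- The Riemann form of `A` is not zero on the factors. -/
theorem riem_inc_ne (hPos : Stmt_Pos2) (hL : Stmt_Leg) (i : Fin r) (hi : 0 < h i) :
    (toR (D.inc i))ᵀ * A.riem * toR (D.inc i) ≠ 0 := by
  intro h0
  obtain ⟨hm, hpd, h1⟩ := hPos g A
  have hend : A.IsEnd (D.inc i * D.prj i) := hom_comp (D.prj_hom i) (D.inc_hom i)
  obtain ⟨β, -, h2, h3⟩ := h1 _ hend
  have he : AbVar.toC (D.inc i * D.prj i) = toR (D.inc i) * toR (D.prj i) := toR_mul _ _
  set e : Matrix (Idx g) (Idx g) ℂ := AbVar.toC (D.inc i * D.prj i) with hee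
  have h4 : A.riem * (AbVar.toC β * e) = 0 := by
    have h5 : eᵀ * A.riem * e = 0 := by
      rw [he, Matrix.transpose_mul]
      calc (toR (D.prj i))ᵀ * (toR (D.inc i))ᵀ * A.riem * (toR (D.inc i) * toR (D.prj i))
          = (toR (D.prj i))ᵀ * ((toR (D.inc i))ᵀ * A.riem * toR (D.inc i)) * toR (D.prj i) := by
            simp only [Matrix.mul_assoc]
        _ = 0 := by rw [h0, Matrix.mul_zero, Matrix.zero_mul]
    have h6 : eᵀ * A.riem = A.riem * AbVar.toC β := h2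
    rw [h6, Matrix.mul_assoc] at h5
    exact h5
  have h5 : AbVar.toC β * e = 0 := by
    have h6 := congrArg (fun M => A.riem⁻¹ * M) h4
    simp only [Matrix.mul_zero] at h6
    rwa [← Matrix.mul_assoc, Matrix.nonsing_inv_mul _ (hL g A).2.2.1, Matrix.one_mul] at h6
  have h6 : eᴴ * hm * e = 0 := by
    rw [h3, Matrix.mul_assoc, h5, Matrix.mul_zero]
  have h7 : ∀ v, e *ᵥ v = 0 := by
    intro v
    by_contra hne
    have h8 := hpd.2 _ hne
    have h9 : star (e *ᵥ v) ⬝ᵥ (hm *ᵥ (e *ᵥ v)) = star v ⬝ᵥ ((eᴴ * hm * e) *ᵥ v) := by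
      rw [Matrix.star_mulVec, ← Matrix.dotProduct_mulVec, Matrix.mulVec_mulVec, Matrix.mulVec_mulVec,
        Matrix.mul_assoc]
    rw [h9, h6, Matrix.zero_mulVec, dotProduct_zero, Complex.zero_re] at h8
    exact lt_irrefl _ h8
  have h8 : e = 0 := by
    ext a b
    have := congrFun (h7 (Pi.single b 1)) a
    rwa [Matrix.mulVec_single_one] at this
  have h9 : toR (D.prj i) * e * toR (D.inc i) = 1 := by
    rw [he]
    calc toR (D.prj i) * (toR (D.inc i) * toR (D.prj i)) * toR (D.inc i) =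
        (toR (D.prj i) * toR (D.inc i)) * (toR (D.prj i) * toR (D.inc i)) := by
          simp only [Matrix.mul_assoc]
      _ = 1 := by rw [pi_same, Matrix.one_mul]
  rw [h8, Matrix.mul_zero, Matrix.zero_mul] at h9
  exact E5X.one_ne hi h9.symm

theorem emb_inc_same (i : Fin r) (Z : Matrix (Idx (h i)) (Idx (h i)) ℂ) :
    D.emb i Z * toR (D.inc i) = toR (D.inc i) * Z := by
  unfold Decomp.emb
  rw [Matrix.mul_assoc, pi_same, Matrix.mul_one]

theorem emb_inc_diff {i j : Fin r} (hij : i ≠ j) (Z : Matrix (Idx (h i)) (Idx (h i)) ℂ) :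
    D.emb i Z * toR (D.inc j) = 0 := by
  unfold Decomp.emb
  rw [Matrix.mul_assoc, pi_diff D hij, Matrix.mul_zero]

/-- The action of the product of exponentials of one factor. -/
theorem one_same (i : Fin r) (l : List (Matrix (Idx (h i)) (Idx (h i)) ℂ)) :
    (prodU (l.map (D.emb i))).val * toR (D.inc i) = toR (D.inc i) * (l.map NormedSpace.exp).prod := by
  rw [prodU_val]
  induction l with
  | nil => simp
  | cons a l ih =>
    rw [List.map_cons, List.map_cons, List.prod_cons, List.map_cons, List.prod_cons, Matrix.mul_assoc, ih,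
      ← Matrix.mul_assoc, CX10.exp_J _ a _ (emb_inc_same D i a), Matrix.mul_assoc]

theorem one_diff {i j : Fin r} (hij : i ≠ j) (l : List (Matrix (Idx (h i)) (Idx (h i)) ℂ)) :
    (prodU (l.map (D.emb i))).val * toR (D.inc j) = toR (D.inc j) := by
  rw [prodU_val]
  induction l with
  | nil => simp
  | cons a l ih =>
    have h1 : D.emb i a * toR (D.inc j) = toR (D.inc j) * (0 : Matrix (Idx (h j)) (Idx (h j)) ℂ) := by
      rw [emb_inc_diff D hij, Matrix.mul_zero]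
    rw [List.map_cons, List.map_cons, List.prod_cons, Matrix.mul_assoc, ih, CX10.exp_J _ _ _ h1,
      NormedSpace.exp_zero, Matrix.mul_one]

theorem prodU_good (hK2a : Stmt_K2a) (l : List (Matrix (Idx g) (Idx g) ℂ))
    (hl : ∀ X ∈ l, InLie (Gam A) X 0) : K3C.C10C.Good A (prodU l) ∧ K3C.C10C.Good A (prodU l)⁻¹ := by
  unfold prodU
  induction l with
  | nil =>
    rw [List.map_nil, List.prod_nil, inv_one]
    exact ⟨Good.one, Good.one⟩
  | cons a l ih =>
    obtain ⟨h1, h2⟩ := ih fun X hX => hl X (List.mem_cons_of_mem _ hX)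
    have h3 := hl a List.mem_cons_self
    rw [List.map_cons, List.prod_cons, _root_.mul_inv_rev]
    exact ⟨(good_exp h3).mul h1, h2.mul (good_exp' hK2a h3)⟩

/-- The product of exponentials of all factors. -/
theorem all_prod (hK2a : Stmt_K2a) (l : ∀ i, List (Matrix (Idx (h i)) (Idx (h i)) ℂ))
    (hl : ∀ i, ∀ Z ∈ l i, InLie (Gam A) (D.emb i Z) 0) :
    ∃ W : GL (Idx g) ℂ, K3C.C10C.Good A W ∧ K3C.C10C.Good A W⁻¹ ∧
      ∀ i, W.val * toR (D.inc i) = toR (D.inc i) * ((l i).map NormedSpace.exp).prod := by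
  classical
  have key : ∀ s : Finset (Fin r), ∃ W : GL (Idx g) ℂ, K3C.C10C.Good A W ∧ K3C.C10C.Good A W⁻¹ ∧
      (∀ i ∈ s, W.val * toR (D.inc i) = toR (D.inc i) * ((l i).map NormedSpace.exp).prod) ∧
      ∀ i ∉ s, W.val * toR (D.inc i) = toR (D.inc i) := by
    intro s
    induction s using Finset.induction_on with
    | empty =>
      refine ⟨1, Good.one, by rw [inv_one]; exact Good.one, fun i hi => absurd hi (Finset.notMem_empty i),
        fun i _ => ?_⟩
      rw [Units.val_one, Matrix.one_mul]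
    | insert k s hk ih =>
      obtain ⟨W, h1, h2, h3, h4⟩ := ih
      obtain ⟨h5, h6⟩ := prodU_good hK2a ((l k).map (D.emb k)) (by
        intro X hX
        obtain ⟨Z, hZ, rfl⟩ := List.mem_map.1 hX
        exact hl k Z hZ)
      refine ⟨prodU ((l k).map (D.emb k)) * W, h5.mul h1, ?_, fun i hi => ?_, fun i hi => ?_⟩
      · rw [_root_.mul_inv_rev]
        exact h2.mul h6
      · rw [Units.val_mul, Matrix.mul_assoc]
        by_cases hik : i = k
        · subst hik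
          rw [h4 i hk, one_same]
        · have hi' := (Finset.mem_insert.1 hi).resolve_left hik
          rw [h3 i hi', ← Matrix.mul_assoc, one_diff D (Ne.symm hik)]
      · have hik : i ≠ k := fun e => hi (by rw [e]; exact Finset.mem_insert_self _ _)
        have hi' : i ∉ s := fun e => hi (Finset.mem_insert_of_mem e)
        rw [Units.val_mul, Matrix.mul_assoc, h4 i hi', one_diff D (Ne.symm hik)]
  obtain ⟨W, h1, h2, h3, -⟩ := key Finset.univ
  exact ⟨W, h1, h2, fun i => h3 i (Finset.mem_univ i)⟩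

/-- A good element whose inverse is good belongs to the group. -/
theorem inG (hG2 : Stmt_Gb2) {y : GL (Idx g) ℂ} (hy : K3C.C10C.Good A y) (hy' : K3C.C10C.Good A y⁻¹) :
    InGdRB A y 1 := by
  intro t E hE
  have hst : StabG (Gam A) t E := fun p hp => hG2 g A t E hE p hp
  apply le_antisymm (hy t E hst)
  intro u hu
  have h5 := hy' t E hst ⟨u, hu, rfl⟩
  refine ⟨_, h5, ?_⟩
  have h6 := TAct_comp t y.val (y⁻¹).val 1 1
  have e1 : y.val * (y⁻¹).val = 1 := by rw [← Units.val_mul]; simp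
  rw [e1, mul_one, TAct_one] at h6
  have h7 := congrArg (fun f => f u) h6
  simp only [LinearMap.comp_apply, LinearMap.id_apply] at h7
  exact h7.symm

/-- The scalars. -/
theorem scalarG (hK2a : Stmt_K2a) (hG2 : Stmt_Gb2)
    (hs : InLie (Gam A) ((1 / 2 : ℂ) • (1 : Matrix (Idx g) (Idx g) ℂ)) 1) (c : ℂ) (hc : c ≠ 0)
    (t : TData) (E : Submodule ℂ (TIdx t (Idx g) → ℂ)) (hE : IsDRB A t E) :
    E.map (TAct t (c • (1 : Matrix (Idx g) (Idx g) ℂ)) (c ^ 2)) = E := by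
  have hst : StabG (Gam A) t E := fun p hp => hG2 g A t E hE p hp
  apply le_antisymm (E10C.scalar_mem hK2a hs c hc t E hst)
  intro u hu
  have h5 := E10C.scalar_mem hK2a hs c⁻¹ (inv_ne_zero hc) t E hst ⟨u, hu, rfl⟩
  refine ⟨_, h5, ?_⟩
  have h6 := TAct_comp t (c • (1 : Matrix (Idx g) (Idx g) ℂ)) (c⁻¹ • (1 : Matrix (Idx g) (Idx g) ℂ))
    (c ^ 2) (c⁻¹ ^ 2)
  have e1 : (c • (1 : Matrix (Idx g) (Idx g) ℂ)) * (c⁻¹ • (1 : Matrix (Idx g) (Idx g) ℂ)) = 1 := by
    rw [smul_mul_smul_comm, mul_inv_cancel₀ hc, one_smul, Matrix.mul_one]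
  have e2 : c ^ 2 * c⁻¹ ^ 2 = 1 := by
    rw [← mul_pow, mul_inv_cancel₀ hc, one_pow]
  rw [e1, e2, TAct_one] at h6
  have h7 := congrArg (fun f => f u) h6
  simp only [LinearMap.comp_apply, LinearMap.id_apply] at h7
  exact h7.symm

/-- Elements commuting with the endomorphisms are block diagonal. -/
theorem com_inc (x : GL (Idx g) ℂ) (hx : ∀ α ∈ A.EndQ, x.val * AbVar.toC α = AbVar.toC α * x.val)
    (i : Fin r) : x.val * toR (D.inc i) = toR (D.inc i) * D.blk i x.val := by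
  have h1 : A.IsEnd (D.inc i * D.prj i) := hom_comp (D.prj_hom i) (D.inc_hom i)
  have h2 := hx _ h1
  have h3 : AbVar.toC (D.inc i * D.prj i) = toR (D.inc i) * toR (D.prj i) := toR_mul _ _
  rw [h3] at h2
  unfold Decomp.blk
  calc x.val * toR (D.inc i) = x.val * (toR (D.inc i) * toR (D.prj i)) * toR (D.inc i) := by
        rw [Matrix.mul_assoc, Matrix.mul_assoc, pi_same, Matrix.mul_one]
    _ = toR (D.inc i) * toR (D.prj i) * x.val * toR (D.inc i) := by rw [h2]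
    _ = _ := by simp only [Matrix.mul_assoc]

theorem ext_inc {X Y : Matrix (Idx g) (Idx g) ℂ} (hXY : ∀ i, X * toR (D.inc i) = Y * toR (D.inc i)) :
    X = Y := by
  rw [← Matrix.mul_one X, ← Matrix.mul_one Y, ← pi_total D, Finset.mul_sum, Finset.mul_sum]
  refine Finset.sum_congr rfl fun i _ => ?_
  rw [← Matrix.mul_assoc, hXY, Matrix.mul_assoc]

/-- The main step: elements whose blocks are products of exponentials up to scalars. -/
theorem mem_group (hPos : Stmt_Pos2) (hL : Stmt_Leg) (hG2 : Stmt_Gb2) (hRev : Stmt_Rev) (hK2a : Stmt_K2a)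
    (hs : InLie (Gam A) ((1 / 2 : ℂ) • (1 : Matrix (Idx g) (Idx g) ℂ)) 1)
    (ZZ : ∀ i, Set (Matrix (Idx (h i)) (Idx (h i)) ℂ))
    (H1 : ∀ i, ∀ Z ∈ ZZ i, InLie (Gam A) (D.emb i Z) 0)
    (H2 : ∀ i, ∃ Z ∈ ZZ i, NormedSpace.exp Z = -1) (hpos : ∀ i, 0 < h i)
    (x : GL (Idx g) ℂ) (ν : ℂˣ) (hcom : ∀ α ∈ A.EndQ, x.val * AbVar.toC α = AbVar.toC α * x.val)
    (hriem : x.valᵀ * A.riem * x.val = ν.val • A.riem)
    (H3 : ∀ i, ∃ (c : ℂ) (l : List (Matrix (Idx (h i)) (Idx (h i)) ℂ)), (∀ Z ∈ l, Z ∈ ZZ i) ∧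
      D.blk i x.val = c • (l.map NormedSpace.exp).prod) : InGdRB A x ν := by
  choose c l hl hx using H3
  obtain ⟨W, hW, hW', hWi⟩ := all_prod D hK2a l fun i Z hZ => H1 i Z (hl i Z hZ)
  have hxi : ∀ i, x.val * toR (D.inc i) = c i • (W.val * toR (D.inc i)) := by
    intro i
    rw [com_inc D x hcom, hx, hWi, Matrix.mul_smul]
  have hWr : W.valᵀ * A.riem * W.val = A.riem := by
    have h1 := (hRev g A W 1 (inG hG2 hW hW')).2
    rwa [Units.val_one, one_smul] at h1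
  -- the multipliers
  have hc : ∀ i, c i ^ 2 = ν.val := by
    intro i
    have h1 : (x.val * toR (D.inc i))ᵀ * A.riem * (x.val * toR (D.inc i)) =
        ν.val • ((toR (D.inc i))ᵀ * A.riem * toR (D.inc i)) := by
      rw [Matrix.transpose_mul]
      calc (toR (D.inc i))ᵀ * x.valᵀ * A.riem * (x.val * toR (D.inc i))
          = (toR (D.inc i))ᵀ * (x.valᵀ * A.riem * x.val) * toR (D.inc i) := by
            simp only [Matrix.mul_assoc]
        _ = _ := by rw [hriem, Matrix.mul_smul, Matrix.smul_mul]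
    have h2 : (x.val * toR (D.inc i))ᵀ * A.riem * (x.val * toR (D.inc i)) =
        c i ^ 2 • ((toR (D.inc i))ᵀ * A.riem * toR (D.inc i)) := by
      rw [hxi, Matrix.transpose_smul, Matrix.smul_mul, Matrix.smul_mul, Matrix.mul_smul, smul_smul,
        ← pow_two, Matrix.transpose_mul]
      congr 1
      calc (toR (D.inc i))ᵀ * W.valᵀ * A.riem * (W.val * toR (D.inc i))
          = (toR (D.inc i))ᵀ * (W.valᵀ * A.riem * W.val) * toR (D.inc i) := by
            simp only [Matrix.mul_assoc]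
        _ = _ := by rw [hWr]
    rw [h1] at h2
    have h3 : (c i ^ 2 - ν.val) • ((toR (D.inc i))ᵀ * A.riem * toR (D.inc i)) = 0 := by
      rw [sub_smul, h2, sub_self]
    exact sub_eq_zero.1 ((smul_eq_zero.1 h3).resolve_right (riem_inc_ne D hPos hL i (hpos i)))
  obtain ⟨γ, hγ⟩ := IsAlgClosed.exists_pow_nat_eq ν.val (n := 2) (by norm_num)
  have hγ0 : γ ≠ 0 := by
    rintro rfl
    exact Units.ne_zero ν (by rw [← hγ]; simp)
  have H4 : ∀ i, ∃ l' : List (Matrix (Idx (h i)) (Idx (h i)) ℂ), (∀ Z ∈ l', Z ∈ ZZ i) ∧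
      D.blk i x.val = γ • (l'.map NormedSpace.exp).prod := by
    intro i
    have h1 : (c i - γ) * (c i + γ) = 0 := by
      have h2 := hc i
      rw [← hγ] at h2
      linear_combination h2
    rcases mul_eq_zero.1 h1 with h2 | h2
    · exact ⟨l i, hl i, by rw [hx, sub_eq_zero.1 h2]⟩
    · obtain ⟨Z, hZ, hZe⟩ := H2 i
      refine ⟨Z :: l i, ?_, ?_⟩
      · intro Y hY
        rcases List.mem_cons.1 hY with h3 | h3
        · rw [h3]; exact hZ
        · exact hl i Y h3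
      · rw [hx, List.map_cons, List.prod_cons, hZe, eq_neg_of_add_eq_zero_left h2, neg_mul, one_mul,
          smul_neg, neg_smul]
  choose l' hl' hx' using H4
  obtain ⟨W', hW1, hW2, hWi'⟩ := all_prod D hK2a l' fun i Z hZ => H1 i Z (hl' i Z hZ)
  have hxW : x.val = (γ • (1 : Matrix (Idx g) (Idx g) ℂ)) * W'.val := by
    apply ext_inc D
    intro i
    rw [com_inc D x hcom, hx', Matrix.mul_assoc, hWi', Matrix.mul_smul, Matrix.smul_mul, Matrix.one_mul]
  intro t E hE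
  have h4 := scalarG hK2a hG2 hs γ hγ0 t E hE
  have h5 := inG hG2 hW1 hW2 t E hE
  rw [Units.val_one] at h5
  have e : γ ^ 2 = γ ^ 2 * 1 := (mul_one _).symm
  rw [hxW, ← hγ, e, TAct_comp, Submodule.map_comp, h5, h4]

/-- The block as an invertible matrix. -/
def blkU (x : GL (Idx g) ℂ) (hx : ∀ α ∈ A.EndQ, x.val * AbVar.toC α = AbVar.toC α * x.val) (i : Fin r) :
    GL (Idx (h i)) ℂ where
  val := D.blk i x.val
  inv := D.blk i (x⁻¹).val
  val_inv := by
    have h1 := com_inc D x hx i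
    have h2 : toR (D.inc i) * (D.blk i x.val * D.blk i (x⁻¹).val) = toR (D.inc i) := by
      rw [← Matrix.mul_assoc, ← h1]
      unfold Decomp.blk
      have h3 : A.IsEnd (D.inc i * D.prj i) := hom_comp (D.prj_hom i) (D.inc_hom i)
      have h4 := hx _ h3
      have h5 : AbVar.toC (D.inc i * D.prj i) = toR (D.inc i) * toR (D.prj i) := toR_mul _ _
      rw [h5] at h4
      calc x.val * toR (D.inc i) * (toR (D.prj i) * (x⁻¹).val * toR (D.inc i))
          = (x.val * (toR (D.inc i) * toR (D.prj i))) * (x⁻¹).val * toR (D.inc i) := by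
            simp only [Matrix.mul_assoc]
        _ = toR (D.inc i) * toR (D.prj i) * (x.val * (x⁻¹).val) * toR (D.inc i) := by
            rw [h4]; simp only [Matrix.mul_assoc]
        _ = _ := by rw [val_mul_inv, Matrix.mul_one, Matrix.mul_assoc, pi_same, Matrix.mul_one]
    have h3 : toR (D.prj i) * (toR (D.inc i) * (D.blk i x.val * D.blk i (x⁻¹).val)) =
        toR (D.prj i) * toR (D.inc i) := congrArg (fun M => toR (D.prj i) * M) h2
    rwa [← Matrix.mul_assoc, pi_same, Matrix.one_mul] at h3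
  inv_val := by
    have h1 := com_inc D x hx i
    have h3 : D.blk i (x⁻¹).val * D.blk i x.val = toR (D.prj i) * ((x⁻¹).val * x.val) * toR (D.inc i) := by
      conv_lhs => rw [Decomp.blk]
      rw [Matrix.mul_assoc, ← h1]
      simp only [Matrix.mul_assoc]
    rw [h3, val_inv_mul, Matrix.mul_one, pi_same]

theorem blkU_com (x : GL (Idx g) ℂ) (hx : ∀ α ∈ A.EndQ, x.val * AbVar.toC α = AbVar.toC α * x.val)
    (i : Fin r) : ∀ α, (B i).IsEnd α → (blkU D x hx i).val * AbVar.toC α =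
      AbVar.toC α * (blkU D x hx i).val := by
  intro α hα
  have h1 : A.IsEnd (D.inc i * α * D.prj i) := by
    rw [Matrix.mul_assoc]
    exact hom_comp (hom_comp (D.prj_hom i) hα) (D.inc_hom i)
  have h2 := hx _ h1
  have h3 : AbVar.toC (D.inc i * α * D.prj i) = toR (D.inc i) * AbVar.toC α * toR (D.prj i) := by
    have e1 := toR_mul (D.inc i * α) (D.prj i)
    have e2 := toR_mul (D.inc i) α
    rw [e2] at e1
    exact e1
  rw [h3] at h2
  have h4 : toR (D.prj i) * (x.val * (toR (D.inc i) * AbVar.toC α * toR (D.prj i))) * toR (D.inc i) =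
      toR (D.prj i) * ((toR (D.inc i) * AbVar.toC α * toR (D.prj i)) * x.val) * toR (D.inc i) :=
    congrArg (fun M => toR (D.prj i) * M * toR (D.inc i)) h2
  change D.blk i x.val * AbVar.toC α = AbVar.toC α * D.blk i x.val
  unfold Decomp.blk
  calc toR (D.prj i) * x.val * toR (D.inc i) * AbVar.toC α
      = toR (D.prj i) * (x.val * (toR (D.inc i) * AbVar.toC α * toR (D.prj i))) * toR (D.inc i) := by
        simp only [Matrix.mul_assoc]
        rw [pi_same, Matrix.mul_one]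
    _ = (toR (D.prj i) * toR (D.inc i)) * (AbVar.toC α * (toR (D.prj i) * x.val * toR (D.inc i))) := by
        rw [h4]; simp only [Matrix.mul_assoc]
    _ = _ := by rw [pi_same, Matrix.one_mul]

/-- The blocks of the elements of the group preserve the subspaces preserved by the groups of the factors. -/
theorem blk_pres (hG : SPH.Stmt_GB3T) (hq : Stmt_DescQ) (hRev : Stmt_Rev) (hL : Stmt_Leg) (hG1 : Stmt_Gb1)
    (i : Fin r) (T : Submodule ℂ (Matrix (Idx (h i)) (Idx (h i)) ℂ))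
    (hT1 : ∀ q ∈ Gam (B i), ∀ Y ∈ T, q.1.val * Y * (q.1⁻¹).val ∈ T)
    (hT2 : ∀ σ : ℂ ≃ₐ[ℚ] ℂ, ∀ Y ∈ T, Y.map σ ∈ T) (x : GL (Idx g) ℂ) (ν : ℂˣ) (hx : InGdRB A x ν) :
    ∀ Y ∈ T, D.blk i x.val * Y * D.blk i (x⁻¹).val ∈ T := by
  intro Y hY
  obtain ⟨hint, -, hdet, -⟩ := hL g A
  have hs := (hRev g A x ν hx).2
  let em : Matrix (Idx (h i)) (Idx (h i)) ℂ →ₗ[ℂ] Matrix (Idx g) (Idx g) ℂ :=
    { toFun := D.emb i
      map_add' := fun a b => by
        unfold Decomp.emb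
        rw [Matrix.mul_add, Matrix.add_mul]
      map_smul' := fun c a => by
        unfold Decomp.emb
        rw [Matrix.mul_smul, Matrix.smul_mul, RingHom.id_apply] }
  set M : Submodule ℂ (Matrix (Idx g) (Idx g) ℂ) := T.map em with hM
  have hmem : ∀ Z, Z ∈ M ↔ ∃ Y ∈ T, D.emb i Y = Z := fun Z => Submodule.mem_map
  have hMG : ∀ p ∈ Gam A, ∀ Z ∈ M, p.1.val * Z * (p.1⁻¹).val ∈ M := by
    intro p hp Z hZ
    obtain ⟨Y', hY', rfl⟩ := (hmem Z).1 hZ
    obtain ⟨q, hq1, a1, a2, a3⟩ := twin A (B i) p hp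
    refine (hmem _).2 ⟨q.1.val * Y' * (q.1⁻¹).val, hT1 q hq1 Y' hY', ?_⟩
    have h1 := a2 _ (D.prj_hom i)
    have h2 := a3 _ (D.inc_hom i)
    have h3 : toR (D.prj i) * (p.1⁻¹).val = (q.1⁻¹).val * toR (D.prj i) := by
      calc toR (D.prj i) * (p.1⁻¹).val = (q.1⁻¹).val * (q.1.val * toR (D.prj i)) * (p.1⁻¹).val := by
            rw [← Matrix.mul_assoc (q.1⁻¹).val, val_inv_mul, Matrix.one_mul]
        _ = (q.1⁻¹).val * (toR (D.prj i) * p.1.val) * (p.1⁻¹).val := by rw [h1]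
        _ = (q.1⁻¹).val * toR (D.prj i) * (p.1.val * (p.1⁻¹).val) := by simp only [Matrix.mul_assoc]
        _ = _ := by rw [val_mul_inv, Matrix.mul_one]
    unfold Decomp.emb
    calc toR (D.inc i) * (q.1.val * Y' * (q.1⁻¹).val) * toR (D.prj i)
        = (toR (D.inc i) * q.1.val) * Y' * ((q.1⁻¹).val * toR (D.prj i)) := by
          simp only [Matrix.mul_assoc]
      _ = (p.1.val * toR (D.inc i)) * Y' * (toR (D.prj i) * (p.1⁻¹).val) := by rw [h2, h3]
      _ = _ := by simp only [Matrix.mul_assoc]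
  have hMs : ∀ σ : ℂ ≃ₐ[ℚ] ℂ, ∀ Z ∈ M, Z.map σ ∈ M := by
    intro σ Z hZ
    obtain ⟨Y', hY', rfl⟩ := (hmem Z).1 hZ
    refine (hmem _).2 ⟨Y'.map σ, hT2 σ Y' hY', ?_⟩
    unfold Decomp.emb
    rw [map_mulR, map_mulR, toR_map, toR_map]
  have hst : ∀ p ∈ Gam A, (DT A.riem M).map (TAct tT p.1.val p.2.val) ≤ DT A.riem M := by
    rintro p hp _ ⟨u, hu, rfl⟩
    rw [mem_DT, act_T A.riem p.1 p.2.val (Units.ne_zero _) (hG1 g A p hp).2]
    exact hMG p hp _ hu
  have hrat : RatSpan (DT A.riem M) := by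
    apply hq
    intro σ v hv
    rw [mem_DT] at hv ⊢
    have h1 : (UU v * A.riem).map σ ∈ M := hMs σ _ hv
    have h2 : (UU v * A.riem).map σ = UU (fun k => σ (v k)) * A.riem := by
      rw [FinX.map_mul']
      have e1 : (UU v).map σ = UU (fun k => σ (v k)) := by
        ext i j
        rfl
      have e2 : A.riem.map σ = A.riem := by
        ext i j
        obtain ⟨k, hk⟩ := hint i j
        rw [Matrix.map_apply, hk, map_intCast]
      rw [e1, e2]
    rwa [h2] at h1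
  have hD : IsDRB A tT (DT A.riem M) := hG g A tT _ hrat hst
  have hYM : D.emb i Y ∈ M := (hmem _).2 ⟨Y, hY, rfl⟩
  have hu : VV (D.emb i Y * A.riem⁻¹) ∈ DT A.riem M := by
    rw [mem_DT, UU_VV, Matrix.mul_assoc, Matrix.nonsing_inv_mul _ hdet, Matrix.mul_one]
    exact hYM
  have h1 : TAct tT x.val ν.val (VV (D.emb i Y * A.riem⁻¹)) ∈ DT A.riem M := by
    have h3 := hx tT _ hD
    rw [← h3]
    exact ⟨_, hu, rfl⟩
  have h2 : D.emb i Y * A.riem⁻¹ * A.riem = D.emb i Y := by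
    rw [Matrix.mul_assoc, Matrix.nonsing_inv_mul _ hdet, Matrix.mul_one]
  rw [mem_DT, act_T A.riem x ν.val (Units.ne_zero _) hs, UU_VV, h2] at h1
  obtain ⟨Y', hY', h3⟩ := (hmem _).1 h1
  have h4 : D.blk i (x.val * D.emb i Y * (x⁻¹).val) = D.blk i x.val * Y * D.blk i (x⁻¹).val := by
    unfold Decomp.blk Decomp.emb
    simp only [Matrix.mul_assoc]
  rw [← h4, ← h3, blk_emb]
  exact hY'

end NGX

open NGX in
/-- NG. -/
theorem NG_proof (hG : SPH.Stmt_GB3T) (hq : Stmt_DescQ) (hG1 : Stmt_Gb1) (hPos : Stmt_Pos2) (hL : Stmt_Leg)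
    (hG2 : Stmt_Gb2) (hRev : Stmt_Rev) (hK2a : Stmt_K2a) (hE2d : Stmt_E2d) (hC2d : Stmt_C2d)
    (hXE : Stmt_XE) (hXC : Stmt_XC) (hME : Stmt_MinE) (hMC : Stmt_MinC) : Stmt_NG := by
  intro g A r s h B D n₁ m₁ K₁ n₂ m₂ K₂ hm₁ hm₂ hs hZ₁ hZ₂ x ν
  constructor
  · intro hx
    refine ⟨(hRev g A x ν hx).1, fun i => ?_, fun j => ?_, (hRev g A x ν hx).2⟩
    · exact blk_pres D hG hq hRev hL hG1 _ _ (hE2d _ _ _ _ (K₁ i)).1 (fun σ Y hY => K3E.map_TC (K₁ i) σ Y hY)
        x ν hx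
    · exact blk_pres D hG hq hRev hL hG1 _ _ (hC2d _ _ _ _ (K₂ j)).1 (fun σ Y hY => K3C.map_TC (K₂ j) σ Y hY)
        x ν hx
  · rintro ⟨h1, h2, h3, h4⟩
    have key : ∀ i : Fin (r + s), ∃ ZZ : Set (Matrix (Idx (h i)) (Idx (h i)) ℂ),
        (∀ Z ∈ ZZ, InLie (Gam A) (D.emb i Z) 0) ∧ (∃ Z ∈ ZZ, NormedSpace.exp Z = -1) ∧ 0 < h i ∧
        ∃ (c : ℂ) (l : List (Matrix (Idx (h i)) (Idx (h i)) ℂ)), (∀ Z ∈ l, Z ∈ ZZ) ∧
          D.blk i x.val = c • (l.map NormedSpace.exp).prod := by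
      refine Fin.addCases (fun i => ?_) (fun j => ?_)
      · refine ⟨{Z | ∃ a ∈ (K₁ i).S, Z = (K₁ i).Z a}, ?_, ?_, (K₁ i).pos, ?_⟩
        · rintro _ ⟨a, ha, rfl⟩
          exact hZ₁ i a ha
        · obtain ⟨a, ha, h5⟩ := hME _ _ _ _ (K₁ i) (hm₁ i)
          exact ⟨_, ⟨a, ha, rfl⟩, h5⟩
        · obtain ⟨c, l, h5, h6⟩ := hXE _ _ _ _ (K₁ i) (hm₁ i) (blkU D x h1 _) (blkU_com D x h1 _) (h2 i)
          refine ⟨c, l.map (K₁ i).Z, ?_, ?_⟩
          · intro Z hZ
            obtain ⟨a, ha, rfl⟩ := List.mem_map.1 hZ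
            exact ⟨a, h5 a ha, rfl⟩
          · rw [List.map_map]
            exact h6
      · refine ⟨{Z | ∃ a ∈ (K₂ j).S, Z = (K₂ j).Z a}, ?_, ?_, (K₂ j).pos, ?_⟩
        · rintro _ ⟨a, ha, rfl⟩
          exact hZ₂ j a ha
        · obtain ⟨a, ha, h5⟩ := hMC _ _ _ _ (K₂ j) (hm₂ j)
          exact ⟨_, ⟨a, ha, rfl⟩, h5⟩
        · obtain ⟨c, l, h5, h6⟩ := hXC _ _ _ _ (K₂ j) (hm₂ j) (blkU D x h1 _) (blkU_com D x h1 _) (h3 j)
          refine ⟨c, l.map (K₂ j).Z, ?_, ?_⟩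
          · intro Z hZ
            obtain ⟨a, ha, rfl⟩ := List.mem_map.1 hZ
            exact ⟨a, h5 a ha, rfl⟩
          · rw [List.map_map]
            exact h6
    choose ZZ k1 k2 k3 k4 using key
    exact mem_group D hPos hL hG2 hRev hK2a hs ZZ k1 k2 k3 x ν h1 h4 k4

end

end Pool.Agent.K3M
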