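import Pool.Agent.K3P.GL
import Pool.Agent.K3M.M8a
import Pool.Agent.K3M.Stmts

/-!
# NL: simultaneous hyperbolic logarithms
-/

open scoped BigOperators Matrix
open Matrix

namespace Pool.Agent.K3M

open Pool.Agent.DRB Pool.Agent.K3D Pool.Agent.K3E Pool.Agent.K3C Pool.Agent.K3P

noncomputable section

namespace NLX

open M8X
open K8X (Lm Rm Lm_apply Rm_apply exp_mul_exp_neg exp_intertwine exp_ofReal cj cj_apply cj_mulVec)
open C8Y (clL clL_apply exists_mat)

variable {g n m : ℕ} {A : AbVar g} (K : KSC A n m)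

/-- hyperbolic logarithms on `T` -/
theorem log_T (hinj : ∀ v, K.cl v = 0 → v = 0) (x : Matrix (Idx g) (Idx g) ℂ) (hxu : IsUnit x)
    (Gr : Matrix (Fin n) (Fin n) ℝ) (hGru : IsUnit Gr)
    (hx : ∀ v, x * K.cl v = K.cl ((Gr.map Complex.ofReal) *ᵥ v) * x)
    (H : Matrix (Idx g) (Idx g) ℂ)
    (hlog : ∀ (β : ℂ) (v : Idx g → ℂ),
      (∃ k : ℕ, ((x - β • (1 : Matrix (Idx g) (Idx g) ℂ)) ^ k) *ᵥ v = 0) →
        H *ᵥ v = (Real.log ‖β‖ : ℂ) • v)
    (b : Matrix (Fin n) (Fin n) ℂ) (hb : ∀ v, H * K.cl v - K.cl v * H = K.cl (b *ᵥ v)) :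
    (b.map Complex.re).map Complex.ofReal = b ∧ IsHypLog Gr (b.map Complex.re) := by
  set G : Matrix (Fin n) (Fin n) ℂ := Gr.map Complex.ofReal with hG
  have hGu : IsUnit G := by
    have := hGru.map (Complex.ofRealHom.mapMatrix :
      Matrix (Fin n) (Fin n) ℝ →+* Matrix (Fin n) (Fin n) ℂ)
    exact this
  have hu0 : ∀ {ι : Type} [Fintype ι] [DecidableEq ι] (M : Matrix ι ι ℂ), IsUnit M → ∀ (k : ℕ) (v : ι → ℂ),
      ((M - (0 : ℂ) • (1 : Matrix ι ι ℂ)) ^ k) *ᵥ v = 0 → v = 0 := by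
    intro ι _ _ M hM k v hv
    rw [zero_smul, sub_zero] at hv
    obtain ⟨y, hy⟩ := hM.pow k
    rw [← hy] at hv
    have h1 : (y⁻¹ : (Matrix ι ι ℂ)ˣ).val *ᵥ (y.val *ᵥ v) = v := by
      rw [Matrix.mulVec_mulVec, ← Units.val_mul]
      simp
    rw [hv, Matrix.mulVec_zero] at h1
    exact h1.symm
  have hkey : ∀ (β : ℂ) (v : Fin n → ℂ),
      (∃ k : ℕ, ((G - β • (1 : Matrix (Fin n) (Fin n) ℂ)) ^ k) *ᵥ v = 0) →
      b *ᵥ v = (Real.log ‖β‖ : ℂ) • v := by
    rintro β v ⟨k, hk⟩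
    by_cases hv0 : v = 0
    · rw [hv0, Matrix.mulVec_zero, smul_zero]
    have hβ : β ≠ 0 := by
      rintro rfl
      exact hv0 (hu0 G hGu k v hk)
    -- the commutator on generalized eigenvectors
    have h1 : (⊤ : Submodule ℂ (Idx g → ℂ)) ≤
        LinearMap.eqLocus (Matrix.toLin' (H * K.cl v - K.cl v * H))
          (Matrix.toLin' ((Real.log ‖β‖ : ℂ) • K.cl v)) := by
      rw [← Module.End.iSup_maxGenEigenspace_eq_top (Matrix.toLin' x)]
      refine iSup_le fun γ w hw => ?_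
      rw [Module.End.mem_maxGenEigenspace] at hw
      obtain ⟨l, hl⟩ := hw
      have h2 : ((x - γ • (1 : Matrix (Idx g) (Idx g) ℂ)) ^ l) *ᵥ w = 0 := by
        have h3 : (Matrix.toLin' x - γ • (1 : Module.End ℂ (Idx g → ℂ))) ^ l =
            Matrix.toLin' ((x - γ • (1 : Matrix (Idx g) (Idx g) ℂ)) ^ l) := by
          rw [Matrix.toLin'_pow, map_sub, map_smul, Matrix.toLin'_one]
          rfl
        rw [h3, Matrix.toLin'_apply] at hl
        exact hl
      show Matrix.toLin' (H * K.cl v - K.cl v * H) w = Matrix.toLin' ((Real.log ‖β‖ : ℂ) • K.cl v) w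
      rw [Matrix.toLin'_apply, Matrix.toLin'_apply]
      by_cases hw0 : w = 0
      · rw [hw0, Matrix.mulVec_zero, Matrix.mulVec_zero]
      have hγ : γ ≠ 0 := by
        rintro rfl
        exact hw0 (hu0 x hxu l w h2)
      have h4 := hlog γ w ⟨l, h2⟩
      have h5 := hlog (β * γ) (K.cl v *ᵥ w) ⟨k + l, gen_mul K x G hx β γ (k + l) k l le_rfl v w hk h2⟩
      rw [Matrix.sub_mulVec, ← Matrix.mulVec_mulVec, ← Matrix.mulVec_mulVec, h4, h5,
        Matrix.mulVec_smul, Matrix.smul_mulVec, ← sub_smul]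
      congr 1
      rw [norm_mul, Real.log_mul (norm_ne_zero_iff.2 hβ) (norm_ne_zero_iff.2 hγ)]
      push_cast
      ring
    have h2 : H * K.cl v - K.cl v * H = (Real.log ‖β‖ : ℂ) • K.cl v :=
      Matrix.toLin'.injective (LinearMap.ext fun w => h1 Submodule.mem_top)
    rw [hb v] at h2
    have h9 : K.cl (b *ᵥ v - (Real.log ‖β‖ : ℂ) • v) = 0 := by
      rw [← clL_apply, map_sub, map_smul, clL_apply, clL_apply, h2, sub_self]
    exact sub_eq_zero.1 (hinj _ h9)
  -- the matrix is real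
  have hGreal : cj G = G := by
    ext i j
    rw [cj_apply, hG, Matrix.map_apply, Complex.conj_ofReal]
  have hreal : cj b = b := by
    have h1 : (⊤ : Submodule ℂ (Fin n → ℂ)) ≤
        LinearMap.eqLocus (Matrix.toLin' (cj b)) (Matrix.toLin' b) := by
      rw [← Module.End.iSup_maxGenEigenspace_eq_top (Matrix.toLin' G)]
      refine iSup_le fun β v hv => ?_
      rw [Module.End.mem_maxGenEigenspace] at hv
      obtain ⟨k, hk⟩ := hv
      have h2 : ((G - β • (1 : Matrix (Fin n) (Fin n) ℂ)) ^ k) *ᵥ v = 0 := by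
        have h3 : (Matrix.toLin' G - β • (1 : Module.End ℂ (Fin n → ℂ))) ^ k =
            Matrix.toLin' ((G - β • (1 : Matrix (Fin n) (Fin n) ℂ)) ^ k) := by
          rw [Matrix.toLin'_pow, map_sub, map_smul, Matrix.toLin'_one]
          rfl
        rw [h3, Matrix.toLin'_apply] at hk
        exact hk
      have h4 := hkey β v ⟨k, h2⟩
      have h5 : ((G - (starRingEnd ℂ) β • (1 : Matrix (Fin n) (Fin n) ℂ)) ^ k) *ᵥ
          (fun i => (starRingEnd ℂ) (v i)) = 0 := by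
        have h6 : cj ((G - β • (1 : Matrix (Fin n) (Fin n) ℂ)) ^ k) =
            (G - (starRingEnd ℂ) β • (1 : Matrix (Fin n) (Fin n) ℂ)) ^ k := by
          rw [map_pow, map_sub, hGreal]
          congr 2
          ext i j
          simp only [cj_apply, Matrix.smul_apply, smul_eq_mul, map_mul, Matrix.one_apply]
          split_ifs <;> simp
        rw [← h6, cj_mulVec, h2]
        funext i
        simp
      have h7 := hkey _ _ ⟨k, h5⟩
      show Matrix.toLin' (cj b) v = Matrix.toLin' b v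
      rw [Matrix.toLin'_apply, Matrix.toLin'_apply, h4]
      have h8 : v = fun i => (starRingEnd ℂ) ((fun i => (starRingEnd ℂ) (v i)) i) := by
        funext i; simp
      conv_lhs => rw [h8]
      rw [cj_mulVec, h7]
      funext i
      simp
    have h2 : Matrix.toLin' (cj b) = Matrix.toLin' b := LinearMap.ext fun v => h1 Submodule.mem_top
    exact Matrix.toLin'.injective h2
  have hre : (b.map Complex.re).map Complex.ofReal = b := by
    ext i j
    have h1 : (starRingEnd ℂ) (b i j) = b i j := by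
      rw [← cj_apply, hreal]
    rw [Matrix.map_apply, Matrix.map_apply]
    exact Complex.conj_eq_iff_re.1 h1
  exact ⟨hre, fun β v hv => by rw [hre]; exact hkey β v hv⟩

end NLX

open K8X (exp_intertwine exp_ofReal)

/-- NL. -/
theorem NL_proof (hPQ : Stmt_PQ) (hE2d : Stmt_E2d) (hE5a : Stmt_E5a) (hC2d : Stmt_C2d)
    (hC5a : Stmt_C5a) : Stmt_NL := by
  rintro g A r s h B D n₁ m₁ K₁ n₂ m₂ K₂ a c ⟨Y, ξ, hY, hYa, hYc⟩
  obtain ⟨H, η, hH, hlog⟩ := (hPQ g A (r + s) h B D).2.2.2.2 [(Y, ξ)] (by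
    intro p hp
    rw [List.mem_singleton.1 hp]
    exact hY)
  have hF := (hPQ g A (r + s) h B D).2.2.2.1
  have key : ∀ i, ∃ b : Matrix (Fin (n₁ i)) (Fin (n₁ i)) ℂ,
      (∀ v, D.blk (Fin.castAdd s i) H * (K₁ i).cl v - (K₁ i).cl v * D.blk (Fin.castAdd s i) H =
        (K₁ i).cl (b *ᵥ v)) ∧
      (b.map Complex.re).map Complex.ofReal = b ∧
      IsHypLog (NormedSpace.exp (a i)) (b.map Complex.re) := by
    intro i
    have hHi : InLie (Gam (B (Fin.castAdd s i))) (D.blk (Fin.castAdd s i) H) η :=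
      (hF _).sub _ _ ⟨H, hH, rfl⟩
    obtain ⟨b, hb⟩ := E8X.exists_mat (K₁ i) (D.blk (Fin.castAdd s i) H)
      ((hE2d _ _ _ _ (K₁ i)).2 _ η hHi)
    refine ⟨b, hb, ?_⟩
    refine GLX.log_T (K₁ i) (hE5a _ _ _ _ (K₁ i)).2.1 (NormedSpace.exp (D.blk (Fin.castAdd s i) Y))
      (Matrix.isUnit_exp _) (NormedSpace.exp (a i)) (Matrix.isUnit_exp _) (fun v => ?_)
      (D.blk (Fin.castAdd s i) H) (fun β v hv => ?_) b hb
    · have h3 := exp_intertwine (E8X.clL (K₁ i)) (D.blk (Fin.castAdd s i) Y)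
        ((a i).map Complex.ofReal) (fun w => hYa i w) v
      rw [E8X.clL_apply, E8X.clL_apply, ← exp_ofReal] at h3
      exact h3
    · refine hlog _ β v ?_
      simpa using hv
  have key' : ∀ j, ∃ b : Matrix (Fin (n₂ j)) (Fin (n₂ j)) ℂ,
      (∀ v, D.blk (Fin.natAdd r j) H * (K₂ j).cl v - (K₂ j).cl v * D.blk (Fin.natAdd r j) H =
        (K₂ j).cl (b *ᵥ v)) ∧
      (b.map Complex.re).map Complex.ofReal = b ∧
      IsHypLog (NormedSpace.exp (c j)) (b.map Complex.re) := by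
    intro j
    have hHi : InLie (Gam (B (Fin.natAdd r j))) (D.blk (Fin.natAdd r j) H) η :=
      (hF _).sub _ _ ⟨H, hH, rfl⟩
    obtain ⟨b, hb⟩ := C8Y.exists_mat (K₂ j) (D.blk (Fin.natAdd r j) H)
      ((hC2d _ _ _ _ (K₂ j)).2 _ η hHi)
    refine ⟨b, hb, ?_⟩
    refine NLX.log_T (K₂ j) (hC5a _ _ _ _ (K₂ j)).2.1 (NormedSpace.exp (D.blk (Fin.natAdd r j) Y))
      (Matrix.isUnit_exp _) (NormedSpace.exp (c j)) (Matrix.isUnit_exp _) (fun v => ?_)
      (D.blk (Fin.natAdd r j) H) (fun β v hv => ?_) b hb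
    · have h3 := exp_intertwine (C8Y.clL (K₂ j)) (D.blk (Fin.natAdd r j) Y)
        ((c j).map Complex.ofReal) (fun w => hYc j w) v
      rw [C8Y.clL_apply, C8Y.clL_apply, ← exp_ofReal] at h3
      exact h3
    · refine hlog _ β v ?_
      simpa using hv
  choose b hb1 hb2 hb3 using key
  choose b' hb1' hb2' hb3' using key'
  refine ⟨fun i => (b i).map Complex.re, fun j => (b' j).map Complex.re,
    ⟨H, η, hH, fun i v => ?_, fun j v => ?_⟩, hb3, hb3'⟩
  · dsimp only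
    rw [hb2]
    exact hb1 i v
  · dsimp only
    rw [hb2']
    exact hb1' j v

end

end Pool.Agent.K3M
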