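import Pool.Agent.K3M.Stmts
import Pool.Agent.K3C.C8t
import Pool.Agent.K3P.GN

/-!
# NN: no intertwining isometries between the factors with real multiplication
-/

set_option autoImplicit false

open scoped BigOperators
open Matrix

namespace Pool.Agent.K3M

open Pool.Agent.DRB Pool.Agent.K3D Pool.Agent.K3E Pool.Agent.K3C Pool.Agent.K3P

theorem NN_proof (hL : Stmt_Leg) (hK2c : Stmt_K2c) (hE2d : Stmt_E2d) (hE5a : Stmt_E5a) (hE5v : Stmt_E5v)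
    (hE8b : Stmt_E8b) (hE8c : Stmt_E8c) (hC2d : Stmt_C2d) (hPH : Stmt_PH) (hGA : Stmt_GA) : Stmt_NN := by
  intro g A r s h B D hHom n₁ m₁ K₁ n₂ m₂ K₂ hm i j hij Ψ hΨ hcon
  obtain ⟨F, hF, -, hZ⟩ := hGA _ _ (B (Fin.castAdd s i)) (B (Fin.castAdd s j)) _ _ _ _ (K₁ i) (K₁ j) Ψ hΨ
  -- the blocks of the elements of the Lie algebra
  have key : ∀ (k : Fin r) (Y : Matrix (Idx g) (Idx g) ℂ) (ξ : ℂ), InLie (Gam A) Y ξ →
      ∃ a ∈ (K₁ k).S, (∀ v, D.blk (Fin.castAdd s k) Y * (K₁ k).cl v -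
          (K₁ k).cl v * D.blk (Fin.castAdd s k) Y = (K₁ k).cl (a *ᵥ v)) ∧
        D.blk (Fin.castAdd s k) Y = (K₁ k).Z a + (ξ / 2) • 1 := by
    intro k Y ξ hY
    have hm3 : 3 ≤ m₁ k := by rcases hm.1 k with h | h <;> omega
    have hm5 : m₁ k ≠ 5 := by rcases hm.1 k with h | h <;> omega
    have h2 := Q3.blk_lie D hK2c Y ξ hY (Fin.castAdd s k)
    obtain ⟨a, c, ha, h3⟩ := PFX.decomp (K₁ k) hE5a hE5v hm3 (D.blk (Fin.castAdd s k) Y)
      (hK2c _ _ _ ξ h2).1 (fun v => by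
        have h1 := (hE2d _ _ _ _ (K₁ k)).2 _ ξ h2 ((K₁ k).cl v) ((E5dX.mem_TC (K₁ k) _).2 ⟨v, rfl⟩)
        exact (E5dX.mem_TC (K₁ k) _).1 h1)
    have h4 := (hK2c _ _ _ ξ h2).2
    rw [h3] at h4
    have h8 : InLie (Gam (B (Fin.castAdd s k))) ((K₁ k).Z a) 0 :=
      hE8c _ _ _ _ (K₁ k) hm3 (hE8b _ _ _ _ (K₁ k) hm3 hm5) a ha
    have h5 := (hK2c _ _ _ 0 h8).2
    rw [zero_smul] at h5
    have h6 := PFX.riem_half hL (K₁ k).pos h5 h4
    refine ⟨a, ha, fun v => ?_, ?_⟩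
    · have h7 := (hE5a _ _ _ _ (K₁ k)).2.2.1 a (GEX.skew (K₁ k) ha) v
      rw [h3, ← h7]
      simp only [add_mul, mul_add, Matrix.smul_mul, Matrix.mul_smul, one_mul, mul_one]
      abel
    · rw [h3, ← h6]
      congr 2
      ring
  have keyC : ∀ (k : Fin s) (Y : Matrix (Idx g) (Idx g) ℂ) (ξ : ℂ), InLie (Gam A) Y ξ →
      ∃ b, (K₂ k).Act (D.blk (Fin.natAdd r k) Y) b := by
    intro k Y ξ hY
    have h2 := Q3.blk_lie D hK2c Y ξ hY (Fin.natAdd r k)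
    refine C8T.exists_act _ fun v => ?_
    have h1 := (hC2d _ _ _ _ (K₂ k)).2 _ ξ h2 ((K₂ k).cl v) ((C5X.mem_TC (K₂ k)).2 ⟨v, rfl⟩)
    exact (C5X.mem_TC (K₂ k)).1 h1
  have hint : ∀ Y ξ, InLie (Gam A) Y ξ →
      D.blk (Fin.castAdd s j) Y * F = F * D.blk (Fin.castAdd s i) Y := by
    intro Y ξ hY
    choose t ht h1 h2 using fun k => key k Y ξ hY
    choose b hb using fun k => keyC k Y ξ hY
    have h3 := hcon t ⟨b, Y, ξ, hY, h1, hb⟩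
    rw [h2 j, h2 i, Matrix.add_mul, Matrix.mul_add, hZ (t i) (t j) h3, Matrix.smul_mul, Matrix.mul_smul,
      Matrix.one_mul, Matrix.mul_one]
  have h1 := hPH g A (r + s) h B D (Fin.castAdd s i) (Fin.castAdd s j) F hint
  have h2 : Submodule.span ℂ {Z | ∃ α, IsHom (B (Fin.castAdd s i)) (B (Fin.castAdd s j)) α ∧ Z = toR α} ≤
      ⊥ := by
    rw [Submodule.span_le]
    rintro _ ⟨α, hα, rfl⟩
    rw [hHom i j hij α hα, Q1.toR_zero]
    exact Submodule.zero_mem _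
  exact hF ((Submodule.mem_bot ℂ).1 (h2 h1))

end Pool.Agent.K3M
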