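import Pool.Agent.K3M.NP3

/-!
# NP: a factor with real multiplication and a factor with complex multiplication are independent
-/

set_option autoImplicit false

open scoped BigOperators
open Matrix Polynomial

namespace Pool.Agent.K3M

open Pool.Agent.DRB Pool.Agent.K3D Pool.Agent.K3E Pool.Agent.K3C Pool.Agent.K3P
open Pool.Agent.K3D.K7w Pool.Agent.K3D.K7x

noncomputable section

namespace NPX

section tup

variable {r s : ℕ} {h : Fin r → ℕ} {B : ∀ i, AbVar (h i)} {h' : Fin s → ℕ} {B' : ∀ j, AbVar (h' j)}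
  {n₁ m₁ : Fin r → ℕ} {K₁ : ∀ i, KSE (B i) (n₁ i) (m₁ i)}
  {n₂ m₂ : Fin s → ℕ} {K₂ : ∀ j, KSC (B' j) (n₂ j) (m₂ j)}
  {d : (∀ i, Matrix (Fin (n₁ i)) (Fin (n₁ i)) ℂ) → (∀ j, Matrix (Fin (n₂ j)) (Fin (n₂ j)) ℂ) → Prop}

/-- The matrices which lift to tuples vanishing at given places. -/
def II (T : TupAlg2 K₁ K₂ d) (i : Fin r) (j : Fin s) (W : Finset ℂ) :
    Submodule ℂ (Matrix (Fin (n₁ i)) (Fin (n₁ i)) ℂ) where
  carrier := {X | ∃ a b, d a b ∧ a i = X ∧ ∀ w ∈ W, ∀ v ∈ (K₂ j).Tl w, b j *ᵥ v = 0}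
  add_mem' := by
    rintro X Y ⟨a, b, h1, rfl, h2⟩ ⟨a', b', h3, rfl, h4⟩
    refine ⟨_, _, T.lin _ _ _ _ 1 h1 h3, by rw [one_smul], fun w hw v hv => ?_⟩
    rw [one_smul, Matrix.add_mulVec, h2 w hw v hv, h4 w hw v hv, add_zero]
  zero_mem' := ⟨0, 0, T.zero, rfl, fun w _ v _ => by rw [Pi.zero_apply, Matrix.zero_mulVec]⟩
  smul_mem' := by
    rintro c X ⟨a, b, h1, rfl, h2⟩
    refine ⟨_, _, T.lin _ _ _ _ c T.zero h1, ?_, fun w hw v hv => ?_⟩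
    · rw [Pi.zero_apply, zero_add]
    · rw [Pi.zero_apply, zero_add, Matrix.smul_mulVec, h2 w hw v hv, smul_zero]

theorem mem_II (T : TupAlg2 K₁ K₂ d) (i : Fin r) (j : Fin s) (W : Finset ℂ)
    (X : Matrix (Fin (n₁ i)) (Fin (n₁ i)) ℂ) : X ∈ II T i j W ↔
    ∃ a b, d a b ∧ a i = X ∧ ∀ w ∈ W, ∀ v ∈ (K₂ j).Tl w, b j *ᵥ v = 0 := Iff.rfl

theorem II_brk (T : TupAlg2 K₁ K₂ d) (i : Fin r) (j : Fin s) {W W' : Finset ℂ}
    {X Y : Matrix (Fin (n₁ i)) (Fin (n₁ i)) ℂ} (hX : X ∈ II T i j W) (hY : Y ∈ II T i j W') :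
    X * Y - Y * X ∈ II T i j (W ∪ W') := by
  obtain ⟨a, b, h1, rfl, h2⟩ := hX
  obtain ⟨a', b', h3, rfl, h4⟩ := hY
  refine ⟨_, _, T.brk _ _ _ _ h1 h3, rfl, fun w hw v hv => ?_⟩
  rw [Matrix.sub_mulVec, ← Matrix.mulVec_mulVec, ← Matrix.mulVec_mulVec]
  have e1 : b j *ᵥ v ∈ (K₂ j).Tl w := C5L.S_pres (K₂ j) ((T.mem _ _ h1).2 j) hv
  have e2 : b' j *ᵥ v ∈ (K₂ j).Tl w := C5L.S_pres (K₂ j) ((T.mem _ _ h3).2 j) hv
  rcases Finset.mem_union.1 hw with hw | hw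
  · rw [h2 w hw _ e2, h2 w hw v hv, Matrix.mulVec_zero, sub_zero]
  · rw [h4 w hw v hv, h4 w hw _ e1, Matrix.mulVec_zero, sub_zero]

theorem II_ideal (T : TupAlg2 K₁ K₂ d) (i : Fin r) (j : Fin s) {W : Finset ℂ}
    {X Y : Matrix (Fin (n₁ i)) (Fin (n₁ i)) ℂ} (hX : X ∈ II T i j W) (hY : Y ∈ (K₁ i).S) :
    X * Y - Y * X ∈ II T i j W := by
  obtain ⟨a, b, h1, h2⟩ := T.onto i Y hY
  have h3 : Y ∈ II T i j ∅ := ⟨a, b, h1, h2, fun w hw => absurd hw (Finset.notMem_empty w)⟩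
  have h4 := II_brk T i j hX h3
  rwa [Finset.union_empty] at h4

/-- The compact places. -/
theorem place_compact (T : TupAlg2 K₁ K₂ d) (Lg : TupLog2 d) (i : Fin r) (j : Fin s)
    (hn : 2 ≤ n₁ i) (hV : 3 ≤ Module.finrank ℝ (E8Y.V0 (K₁ i))) (hm1 : 1 ≤ m₂ j) {w : ℂ}
    (hw : m₂ j = 1 ∨ w ≠ (K₂ j).lam ∧ w ≠ (starRingEnd ℂ) (K₂ j).lam) :
    ∀ x ∈ (K₁ i).Tl ((K₁ i).lam : ℂ), ∀ y ∈ (K₁ i).Tl ((K₁ i).lam : ℂ),
      E5L.wm (K₁ i) x y ∈ II T i j {w} := by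
  obtain ⟨e, he, f, hf, hee, hff, hef⟩ := RG.iso_pair (K₁ i) hn hV
  obtain ⟨a, b, hab, hai⟩ := real_onto T i (GPX.rm_mem (K₁ i) he hf)
  obtain ⟨u, v, huv, hul, hvl⟩ := Lg a b hab
  have hui : u i = GPX.rm (K₁ i) e f := by
    have h1 := hypq (GPX.hypPart_of_log (hul i))
    rw [hai] at h1
    exact GGX.hyp_rm (K₁ i) hee hff hef h1.2
  have hvj := (hypq (GPX.hypPart_of_log (hvl j))).1
  have hwm : (GPX.rm (K₁ i) e f).map Complex.ofReal =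
      E5L.wm (K₁ i) (fun k => (e k : ℂ)) (fun k => (f k : ℂ)) := by
    ext p q
    simp only [GPX.rm, E5L.wm, Matrix.map_apply, Matrix.of_apply, GPX.qR]
    push_cast
    ring
  refine GGX.ideal (K₁ i) (II T i j {w}) (fun X hX _ x hx y hy =>
    II_ideal T i j hX (E5L.wm_mem (K₁ i) hx hy)) (GGX.ofReal_mem (K₁ i) he)
    (GGX.ofReal_mem (K₁ i) hf) ?_ ?_ ?_ ?_
  · rw [GGX.bil_ofReal, hee, Complex.ofReal_zero]
  · rw [GGX.bil_ofReal, hff, Complex.ofReal_zero]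
  · rw [GGX.bil_ofReal]
    exact_mod_cast hef
  · refine ⟨_, _, huv, ?_, fun w' hw' x hx => ?_⟩
    · show (u i).map Complex.ofReal = _
      rw [hui, hwm]
    · rw [Finset.mem_singleton.1 hw'] at hx
      exact NPC.compact_zero (K₂ j) hm1 ((T.mem _ _ huv).2 j) hvj hw hx

/-- The places where both forms are indefinite. -/
theorem place_special (T : TupAlg2 K₁ K₂ d) (Lg : TupLog2 d) (hE5l : Stmt_E5l) (hPM : Stmt_PM)
    (i : Fin r) (j : Fin s) (hm : m₁ i = 3 ∨ 6 ≤ m₁ i)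
    (hm2 : 3 ≤ m₂ j ∨ (m₂ j ≤ 2 ∧ 1 ≤ m₂ j ∧ 6 ≤ m₁ i)) {w : ℂ}
    (hw : w = (K₂ j).lam ∨ w = (starRingEnd ℂ) (K₂ j).lam) :
    ∀ x ∈ (K₁ i).Tl ((K₁ i).lam : ℂ), ∀ y ∈ (K₁ i).Tl ((K₁ i).lam : ℂ),
      E5L.wm (K₁ i) x y ∈ II T i j {w} := by
  have hm3 : 3 ≤ m₁ i := by omega
  obtain ⟨ε, D⟩ := GPX.exists_data (K₁ i) hm3
  have hε0 : ε * ε = 1 := by rcases D.e0 with h | h <;> rw [h] <;> norm_num
  -- the matrices known on the real place only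
  let Fr : Submodule ℂ (Matrix (Fin (n₁ i)) (Fin (n₁ i)) ℂ) :=
    { carrier := {X | ∃ a b, d a b ∧ (∀ v ∈ (K₁ i).Tl ((K₁ i).lam : ℂ), a i *ᵥ v = X *ᵥ v) ∧
        ∀ v ∈ (K₂ j).Tl w, b j *ᵥ v = 0}
      add_mem' := by
        rintro X Y ⟨a, b, h1, h2, h2'⟩ ⟨a', b', h3, h4, h4'⟩
        refine ⟨_, _, T.lin _ _ _ _ 1 h1 h3, fun v hv => ?_, fun v hv => ?_⟩
        · rw [one_smul, Matrix.add_mulVec, h2 v hv, h4 v hv, Matrix.add_mulVec]
        · rw [one_smul, Matrix.add_mulVec, h2' v hv, h4' v hv, add_zero]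
      zero_mem' := ⟨0, 0, T.zero, fun v _ => rfl, fun v _ => by
        rw [Pi.zero_apply, Matrix.zero_mulVec]⟩
      smul_mem' := by
        rintro c X ⟨a, b, h1, h2, h2'⟩
        refine ⟨_, _, T.lin _ _ _ _ c T.zero h1, fun v hv => ?_, fun v hv => ?_⟩
        · rw [Pi.zero_apply, zero_add, Matrix.smul_mulVec, h2 v hv, Matrix.smul_mulVec]
        · rw [Pi.zero_apply, zero_add, Matrix.smul_mulVec, h2' v hv, smul_zero] }
  have h0 : ∀ x ∈ E8Y.V0 (K₁ i), ∀ y ∈ E8Y.V0 (K₁ i),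
      E5L.wm (K₁ i) (fun k => (x k : ℂ)) (fun k => (y k : ℂ)) ∈ Fr := by
    intro x hx y hy
    obtain ⟨a, b, hab, h3, h4⟩ := real_place T Lg hE5l hPM i j hm hm2 D
      (wd (B0 (Bq fun k => ε * GPX.qR (K₁ i) k) (E8Y.V0 (K₁ i))) ⟨x, hx⟩ ⟨y, hy⟩)
      (fun u v => by rw [wd_skew D.symm]; ring)
    have h5 := T.lin _ _ _ _ (ε : ℂ) T.zero hab
    refine ⟨_, _, h5, fun v hv => ?_, fun v hv => ?_⟩
    · have hreal : ∀ v ∈ E8Y.V0 (K₁ i), (a i).map Complex.ofReal *ᵥ (fun k => (v k : ℂ)) =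
          (ε : ℂ) • (E5L.wm (K₁ i) (fun k => (x k : ℂ)) (fun k => (y k : ℂ)) *ᵥ
            (fun k => (v k : ℂ))) := by
        intro v hv
        have h6 := h3 ⟨v, hv⟩
        dsimp only at h6
        rw [E8Y.ofReal_mulVec, ← h6, E5L.wm_mulVec, GGX.bil_ofReal, GGX.bil_ofReal, wd_apply, B0_apply,
          B0_apply]
        funext k
        simp only [Submodule.coe_sub, Submodule.coe_smul, Pi.sub_apply, Pi.smul_apply, smul_eq_mul,
          Bq_apply, GPX.qR]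
        push_cast
        rw [mul_sub, ← mul_assoc, ← mul_assoc, Finset.mul_sum, Finset.mul_sum]
        congr 2
        · exact Finset.sum_congr rfl fun k _ => by ring
        · exact Finset.sum_congr rfl fun k _ => by ring
      have hε1 : (ε : ℂ) * (ε : ℂ) = 1 := by exact_mod_cast hε0
      rw [← E8Y.cplx_V0, mem_cplx] at hv
      rw [Pi.zero_apply, zero_add, Matrix.smul_mulVec, GGX.re_im v, Matrix.mulVec_add,
        Matrix.mulVec_smul, hreal _ hv.1, hreal _ hv.2, Matrix.mulVec_add, Matrix.mulVec_smul,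
        smul_add, smul_comm Complex.I (ε : ℂ), smul_smul, smul_smul, hε1, one_smul, one_smul]
    · have h6 : ∀ x ∈ C7C.V0 (K₂ j), b j *ᵥ x = 0 := by
        intro x hx
        have h7 := h4 ⟨x, hx⟩
        dsimp only at h7
        rw [← h7]; rfl
      rw [Pi.zero_apply, zero_add, Matrix.smul_mulVec,
        NPC.special_zero (K₂ j) ((T.mem _ _ hab).2 j) h6 hw hv, smul_zero]
  have hx : ∀ x ∈ E8Y.V0 (K₁ i), ∀ y ∈ (K₁ i).Tl ((K₁ i).lam : ℂ),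
      E5L.wm (K₁ i) (fun k => (x k : ℂ)) y ∈ Fr := by
    intro x hx y hy
    rw [← E8Y.cplx_V0, mem_cplx] at hy
    have h1 : E5L.wm (K₁ i) (fun k => (x k : ℂ)) y =
        E5L.wm (K₁ i) (fun k => (x k : ℂ)) (fun k => (((y k).re : ℝ) : ℂ)) +
        Complex.I • E5L.wm (K₁ i) (fun k => (x k : ℂ)) (fun k => (((y k).im : ℝ) : ℂ)) := by
      rw [GGX.wm_swap, GGX.re_im y, GGX.wm_add_left, GGX.wm_smul_left, neg_add, ← smul_neg,
        ← GGX.wm_swap, ← GGX.wm_swap]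
      simp
    rw [h1]
    exact Submodule.add_mem _ (h0 x hx _ hy.1) (Submodule.smul_mem _ _ (h0 x hx _ hy.2))
  have hFr : ∀ x ∈ (K₁ i).Tl ((K₁ i).lam : ℂ), ∀ y ∈ (K₁ i).Tl ((K₁ i).lam : ℂ),
      E5L.wm (K₁ i) x y ∈ Fr := by
    intro x hx' y hy
    rw [← E8Y.cplx_V0, mem_cplx] at hx'
    rw [GGX.re_im x, GGX.wm_add_left, GGX.wm_smul_left]
    exact Submodule.add_mem _ (hx _ hx'.1 y hy) (Submodule.smul_mem _ _ (hx _ hx'.2 y hy))
  -- from the real place to all places, by brackets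
  intro x hx y hy
  obtain ⟨c, c', hc, hc', k0, k1, k2⟩ := DUAL.dual (K₁ i) ((K₁ i).lam : ℂ)
  have hd0 : (Module.finrank ℂ ((K₁ i).Tl ((K₁ i).lam : ℂ)) : ℂ) - 2 ≠ 0 := by
    rw [E5L.finrank_Tl (K₁ i) (E8Y.lam_rootC (K₁ i))]
    intro h
    have h3 : ((m₁ i : ℕ) : ℂ) = (2 : ℕ) := by
      push_cast
      linear_combination h
    have h4 : m₁ i = 2 := by exact_mod_cast h3
    omega
  have h5 : E5L.wm (K₁ i) x y = ((Module.finrank ℂ ((K₁ i).Tl ((K₁ i).lam : ℂ)) : ℂ) - 2)⁻¹ •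
      ∑ k, (E5L.wm (K₁ i) x (c k) * E5L.wm (K₁ i) (c' k) y -
        E5L.wm (K₁ i) (c' k) y * E5L.wm (K₁ i) x (c k)) := by
    rw [E8C.comm_sum (K₁ i) hx hy c c' hc hc' k0 k1 k2, smul_smul, inv_mul_cancel₀ hd0, one_smul]
  rw [h5]
  refine Submodule.smul_mem _ _ (Submodule.sum_mem _ fun k _ => ?_)
  obtain ⟨a, b, hab, h6, h7⟩ := hFr x hx (c k) (hc k)
  obtain ⟨a', b', hab', h8⟩ := T.onto i _ (E5L.wm_mem (K₁ i) (hc' k) hy)
  refine ⟨_, _, T.brk _ _ _ _ hab hab', ?_, fun w' hw' v hv => ?_⟩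
  · -- equality at all the places
    show a i * a' i - a' i * a i = _
    rw [h8]
    refine GGX.extT (K₁ i) fun z hz v hv => ?_
    have hS := (T.mem _ _ hab).1 i
    by_cases hzl : z = ((K₁ i).lam : ℂ)
    · subst hzl
      have hS2 := E5L.wm_mem (K₁ i) (hc' k) hy
      rw [Matrix.sub_mulVec, Matrix.sub_mulVec, ← Matrix.mulVec_mulVec, ← Matrix.mulVec_mulVec,
        ← Matrix.mulVec_mulVec, ← Matrix.mulVec_mulVec, h6 v hv, h6 _ (E5L.S_pres (K₁ i) hS2 hv)]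
    · have hzl' : ((K₁ i).lam : ℂ) ≠ z := fun h => hzl h.symm
      have h9 : ∀ u u' : Fin (n₁ i) → ℂ, u ∈ (K₁ i).Tl ((K₁ i).lam : ℂ) →
          u' ∈ (K₁ i).Tl ((K₁ i).lam : ℂ) → ∀ v ∈ (K₁ i).Tl z, E5L.wm (K₁ i) u u' *ᵥ v = 0 := by
        intro u u' hu hu' v hv
        rw [E5L.wm_mulVec, E5L.orth (K₁ i) hzl' hu hv, E5L.orth (K₁ i) hzl' hu' hv, zero_smul,
          zero_smul, sub_zero]
      rw [Matrix.sub_mulVec, Matrix.sub_mulVec, ← Matrix.mulVec_mulVec, ← Matrix.mulVec_mulVec,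
        ← Matrix.mulVec_mulVec, ← Matrix.mulVec_mulVec, h9 _ _ (hc' k) hy v hv,
        h9 _ _ (hc' k) hy _ (E5L.S_pres (K₁ i) hS hv), h9 _ _ hx (hc k) v hv, Matrix.mulVec_zero,
        Matrix.mulVec_zero, Matrix.mulVec_zero]
  · rw [Finset.mem_singleton.1 hw'] at hv
    show (b j * b' j - b' j * b j) *ᵥ v = 0
    have e1 : b' j *ᵥ v ∈ (K₂ j).Tl w := C5L.S_pres (K₂ j) ((T.mem _ _ hab').2 j) hv
    rw [Matrix.sub_mulVec, ← Matrix.mulVec_mulVec, ← Matrix.mulVec_mulVec, h7 v hv, h7 _ e1,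
      Matrix.mulVec_zero, sub_zero]

/-- conjugates -/
theorem II_aut (T : TupAlg2 K₁ K₂ d) (i : Fin r) (j : Fin s) (σ : ℂ ≃ₐ[ℚ] ℂ) {w : ℂ}
    {X : Matrix (Fin (n₁ i)) (Fin (n₁ i)) ℂ} (hX : X ∈ II T i j {w}) :
    X.map σ ∈ II T i j {σ w} := by
  obtain ⟨a, b, h1, rfl, h2⟩ := hX
  refine ⟨_, _, T.aut σ _ _ h1, rfl, fun w' hw' v hv => ?_⟩
  rw [Finset.mem_singleton.1 hw'] at hv
  have hv' := C5L.map_Tl (K₂ j) σ.symm hv
  rw [σ.symm_apply_apply] at hv'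
  rw [GGX.map_mulVec, h2 w (Finset.mem_singleton_self w) _ hv']
  funext k
  simp

end tup

end NPX

open NPX in
/-- NP. -/
theorem NP_proof (hE5l : Stmt_E5l) (hPM : Stmt_PM) : Stmt_NP := by
  classical
  intro r s h B h' B' n₁ m₁ K₁ n₂ m₂ K₂ d T Lg hm i j
  obtain ⟨hma, hmb, hmc⟩ := hm
  have hm3 : 3 ≤ m₁ i := by rcases hma i with h | h <;> omega
  have hm1 : 1 ≤ m₂ j := (hmb j).1
  have hn : 2 ≤ n₁ i := GPX.n_ge (K₁ i) hm3
  have hV : 3 ≤ Module.finrank ℝ (E8Y.V0 (K₁ i)) := by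
    rw [E8Y.finrank_V0 (K₁ i) hm3 hE5l]; exact hm3
  -- one place of `K₂ j`, the real place of `K₁ i`
  have h1 : ∀ w : ℂ, ∀ x ∈ (K₁ i).Tl ((K₁ i).lam : ℂ), ∀ y ∈ (K₁ i).Tl ((K₁ i).lam : ℂ),
      E5L.wm (K₁ i) x y ∈ II T i j {w} := by
    intro w
    by_cases h2 : m₂ j = 1 ∨ w ≠ (K₂ j).lam ∧ w ≠ (starRingEnd ℂ) (K₂ j).lam
    · exact place_compact T Lg i j hn hV hm1 h2
    · rw [not_or, not_and_or, not_not, not_not] at h2
      refine place_special T Lg hE5l hPM i j (hma i) ?_ h2.2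
      have h3 := hmc i j
      have h4 := hma i
      omega
  -- one place of `K₂ j`, all places of `K₁ i`
  have h2 : ∀ w : ℂ, (K₁ i).S ≤ II T i j {w} := by
    intro w X hX
    refine Submodule.span_le.2 ?_ (DUAL.mem_span (K₁ i) hX)
    rintro _ ⟨z, x, y, hz, hx, hy, rfl⟩
    obtain ⟨σ, hσ⟩ := E5L.exists_aut (K₁ i).irr (E8Y.lam_rootC (K₁ i)) hz
    have hx' := E5L.map_Tl (K₁ i) σ.symm hx
    have hy' := E5L.map_Tl (K₁ i) σ.symm hy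
    rw [← hσ, σ.symm_apply_apply] at hx' hy'
    have h3 := II_aut T i j σ (h1 (σ.symm w) _ hx' _ hy')
    rw [σ.apply_symm_apply] at h3
    have h4 : (E5L.wm (K₁ i) (fun k => σ.symm (x k)) (fun k => σ.symm (y k))).map σ =
        E5L.wm (K₁ i) x y := by
      rw [E8Y.wm_map]
      simp only [AlgEquiv.apply_symm_apply]
    rwa [h4] at h3
  -- finite sets of places
  have h3 : ∀ W : Finset ℂ, (K₁ i).S ≤ II T i j W := by
    intro W
    induction W using Finset.induction_on with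
    | empty =>
      intro X hX
      obtain ⟨a, b, h4, h5⟩ := T.onto i X hX
      exact ⟨a, b, h4, h5, fun w hw => absurd hw (Finset.notMem_empty w)⟩
    | insert w W _ ih =>
      intro X hX
      refine Submodule.span_le.2 ?_ (DUAL.mem_span (K₁ i) hX)
      rintro _ ⟨z, x, y, hz, hx, hy, rfl⟩
      obtain ⟨c, c', hc, hc', k0, k1, k2⟩ := DUAL.dual (K₁ i) z
      have hd0 : (Module.finrank ℂ ((K₁ i).Tl z) : ℂ) - 2 ≠ 0 := by
        rw [E5L.finrank_Tl (K₁ i) hz]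
        intro h
        have h3 : ((m₁ i : ℕ) : ℂ) = (2 : ℕ) := by
          push_cast
          linear_combination h
        have h4 : m₁ i = 2 := by exact_mod_cast h3
        omega
      have h5 : E5L.wm (K₁ i) x y = ((Module.finrank ℂ ((K₁ i).Tl z) : ℂ) - 2)⁻¹ •
          ∑ k, (E5L.wm (K₁ i) x (c k) * E5L.wm (K₁ i) (c' k) y -
            E5L.wm (K₁ i) (c' k) y * E5L.wm (K₁ i) x (c k)) := by
        rw [E8C.comm_sum (K₁ i) hx hy c c' hc hc' k0 k1 k2, smul_smul, inv_mul_cancel₀ hd0, one_smul]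
      rw [h5]
      refine Submodule.smul_mem _ _ (Submodule.sum_mem _ fun k _ => ?_)
      have h6 := II_brk T i j (h2 w (E5L.wm_mem (K₁ i) hx (hc k))) (ih (E5L.wm_mem (K₁ i) (hc' k) hy))
      rwa [Finset.singleton_union] at h6
  intro X hX
  obtain ⟨a, b, h4, h5, h6⟩ := h3 ((K₂ j).P.aroots ℂ).toFinset hX
  refine ⟨a, b, h4, h5, C5L.mat_extT (K₂ j) fun w hw v hv => ?_⟩
  rw [h6 w (by
    rw [Multiset.mem_toFinset, Polynomial.mem_aroots]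
    exact ⟨(K₂ j).irr.ne_zero, hw⟩) v hv, Matrix.zero_mulVec]

end

end Pool.Agent.K3M
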