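import Pool.Agent.K3M.Stmts
import Pool.Agent.K3C.C8t
import Pool.Agent.K3C.C8r
import Pool.Agent.K3P.G0

/-!
# NT: the torus of a product
-/

set_option autoImplicit false

open scoped BigOperators
open Matrix Polynomial

namespace Pool.Agent.K3M

open Pool.Agent.DRB Pool.Agent.K3D Pool.Agent.K3E Pool.Agent.K3C Pool.Agent.K3P

noncomputable section

namespace NTX

open C8T

/-- elements of the Lie algebra act on `T` by elements of `S` (real multiplication) -/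
theorem exists_SE (hE2d : Stmt_E2d) (hE5a : Stmt_E5a) (hE5v : Stmt_E5v) (hK2c : Stmt_K2c)
    {g n m : ℕ} {A : AbVar g} (K : KSE A n m) (hm : 3 ≤ m) {X : Matrix (Idx g) (Idx g) ℂ} {ξ : ℂ}
    (hX : InLie (Gam A) X ξ) : ∃ a ∈ K.S, ∀ v, X * K.cl v - K.cl v * X = K.cl (a *ᵥ v) := by
  obtain ⟨b, hb⟩ := E8X.exists_mat K X ((hE2d g A n m K).2 X ξ hX)
  exact ⟨b, ⟨G0X.skewC K (G0X.bil_zero K hE5a hb), (hE5v g A n m K hm).1 _ _ (hK2c g A _ ξ hX).1 hb⟩, hb⟩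

variable {g : ℕ} {A : AbVar g} {r s : ℕ} {h : Fin (r + s) → ℕ} {B : ∀ i, AbVar (h i)} (D : Decomp A B)
  {n₁ m₁ : Fin r → ℕ} (K₁ : ∀ i, KSE (B (Fin.castAdd s i)) (n₁ i) (m₁ i))
  {n₂ m₂ : Fin s → ℕ} (K₂ : ∀ j, KSC (B (Fin.natAdd r j)) (n₂ j) (m₂ j))

/-- the space of tuples -/
def dsub (hK2a : Stmt_K2a) : Submodule ℂ ((∀ i, Matrix (Fin (n₁ i)) (Fin (n₁ i)) ℂ) ×
    (∀ j, Matrix (Fin (n₂ j)) (Fin (n₂ j)) ℂ)) where
  carrier := {p | DD2 D K₁ K₂ p.1 p.2}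
  add_mem' := by
    rintro ⟨a, b⟩ ⟨a', b'⟩ ⟨Y, ξ, hY, h1, h2⟩ ⟨Y', ξ', hY', h1', h2'⟩
    refine ⟨Y + (1 : ℂ) • Y', ξ + 1 * ξ', (hK2a (Idx g) (Gam A)).1 Y Y' ξ ξ' 1 hY hY', ?_, ?_⟩
    · intro i v
      have e1 := h1 i v
      have e2 := h1' i v
      simp only at e1 e2
      rw [Q3.blk_add, one_smul]
      show _ = (K₁ i).cl ((a i + a' i) *ᵥ v)
      rw [Matrix.add_mulVec, E8Y.cl_add, ← e1, ← e2, Matrix.add_mul, Matrix.mul_add]
      abel
    · intro j v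
      have e1 := h2 j v
      have e2 := h2' j v
      simp only at e1 e2
      rw [Q3.blk_add, one_smul]
      show _ = (K₂ j).cl ((b j + b' j) *ᵥ v)
      rw [Matrix.add_mulVec, C5X.cl_add, ← e1, ← e2, Matrix.add_mul, Matrix.mul_add]
      abel
  zero_mem' := by
    refine ⟨0, 0, (hK2a (Idx g) (Gam A)).2.1, ?_, ?_⟩
    · intro i v
      show _ = (K₁ i).cl ((0 : Matrix (Fin (n₁ i)) (Fin (n₁ i)) ℂ) *ᵥ v)
      rw [Q3.blk_zero, Matrix.zero_mulVec, E8Y.cl_zero, Matrix.zero_mul, Matrix.mul_zero, sub_zero]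
    · intro j v
      show _ = (K₂ j).cl ((0 : Matrix (Fin (n₂ j)) (Fin (n₂ j)) ℂ) *ᵥ v)
      rw [Q3.blk_zero, Matrix.zero_mulVec, C5X.cl_zero, Matrix.zero_mul, Matrix.mul_zero, sub_zero]
  smul_mem' := by
    rintro c ⟨a, b⟩ ⟨Y, ξ, hY, h1, h2⟩
    refine ⟨0 + c • Y, 0 + c * ξ, (hK2a (Idx g) (Gam A)).1 0 Y 0 ξ c (hK2a (Idx g) (Gam A)).2.1 hY,
      ?_, ?_⟩
    · intro i v
      have e1 := h1 i v
      simp only at e1
      rw [Q3.blk_add, Q3.blk_zero, zero_add]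
      show _ = (K₁ i).cl ((c • a i) *ᵥ v)
      rw [Matrix.smul_mulVec, E8Y.cl_smul, ← e1, Matrix.smul_mul, Matrix.mul_smul, smul_sub]
    · intro j v
      have e1 := h2 j v
      simp only at e1
      rw [Q3.blk_add, Q3.blk_zero, zero_add]
      show _ = (K₂ j).cl ((c • b j) *ᵥ v)
      rw [Matrix.smul_mulVec, C5X.cl_smul, ← e1, Matrix.smul_mul, Matrix.mul_smul, smul_sub]

theorem mem_dsub (hK2a : Stmt_K2a) (a : ∀ i, Matrix (Fin (n₁ i)) (Fin (n₁ i)) ℂ)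
    (b : ∀ j, Matrix (Fin (n₂ j)) (Fin (n₂ j)) ℂ) : (a, b) ∈ dsub D K₁ K₂ hK2a ↔ DD2 D K₁ K₂ a b := Iff.rfl

theorem DD2_map (hK2b : Stmt_K2b) (hG4 : Stmt_Gb4) (σ : ℂ ≃ₐ[ℚ] ℂ)
    {a : ∀ i, Matrix (Fin (n₁ i)) (Fin (n₁ i)) ℂ}
    {b : ∀ j, Matrix (Fin (n₂ j)) (Fin (n₂ j)) ℂ} (hd : DD2 D K₁ K₂ a b) :
    DD2 D K₁ K₂ (fun i => (a i).map σ) (fun j => (b j).map σ) := by
  obtain ⟨Y, ξ, hY, h1, h2⟩ := hd
  refine ⟨Y.map σ, σ ξ,
    hK2b (Idx g) (Gam A) (fun σ p hp q h1 h2 => hG4 g A σ p hp q h1 h2) σ Y ξ hY, ?_, ?_⟩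
  · intro i w
    have h0 := congrArg (fun Z => Z.map σ) (h1 i fun k => σ.symm (w k))
    have h3 : ∀ Z Z' : Matrix (Idx (h (Fin.castAdd s i))) (Idx (h (Fin.castAdd s i))) ℂ,
        (Z * Z').map σ = Z.map σ * Z'.map σ := fun Z Z' => Matrix.map_mul (f := (σ : ℂ →+* ℂ))
    have h4 : ∀ Z Z' : Matrix (Idx (h (Fin.castAdd s i))) (Idx (h (Fin.castAdd s i))) ℂ,
        (Z - Z').map σ = Z.map σ - Z'.map σ := by
      intro Z Z'
      ext i j
      rw [Matrix.map_apply, Matrix.sub_apply, map_sub, Matrix.sub_apply, Matrix.map_apply,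
        Matrix.map_apply]
    simp only [h4, h3] at h0
    rw [← E5X.cl_map, ← E5X.cl_map] at h0
    have h5 : (fun i => σ (σ.symm (w i))) = w := by funext i; simp
    rw [h5] at h0
    rw [Q3.blk_map, h0]
    congr 1
    funext k
    simp only [Matrix.mulVec, dotProduct, map_sum, map_mul, Matrix.map_apply,
      AlgEquiv.apply_symm_apply]
  · intro i w
    have h0 := congrArg (fun Z => Z.map σ) (h2 i fun k => σ.symm (w k))
    have h3 : ∀ Z Z' : Matrix (Idx (h (Fin.natAdd r i))) (Idx (h (Fin.natAdd r i))) ℂ,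
        (Z * Z').map σ = Z.map σ * Z'.map σ := fun Z Z' => Matrix.map_mul (f := (σ : ℂ →+* ℂ))
    have h4 : ∀ Z Z' : Matrix (Idx (h (Fin.natAdd r i))) (Idx (h (Fin.natAdd r i))) ℂ,
        (Z - Z').map σ = Z.map σ - Z'.map σ := by
      intro Z Z'
      ext i j
      rw [Matrix.map_apply, Matrix.sub_apply, map_sub, Matrix.sub_apply, Matrix.map_apply,
        Matrix.map_apply]
    simp only [h4, h3] at h0
    rw [← C5X.cl_map, ← C5X.cl_map] at h0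
    have h5 : (fun i => σ (σ.symm (w i))) = w := by funext i; simp
    rw [h5] at h0
    rw [Q3.blk_map, h0]
    congr 1
    funext k
    simp only [Matrix.mulVec, dotProduct, map_sum, map_mul, Matrix.map_apply,
      AlgEquiv.apply_symm_apply]

/-- eigenvectors in the blocks -/
theorem eig_emb (hK2c : Stmt_K2c) {Y : Matrix (Idx g) (Idx g) ℂ} {ξ : ℂ} (hY : InLie (Gam A) Y ξ)
    (k : Fin (r + s)) (ω : Matrix (Idx (h k)) (Idx (h k)) ℂ) :
    Y * D.emb k ω - D.emb k ω * Y = D.emb k (D.blk k Y * ω - ω * D.blk k Y) := by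
  have h1 := Q3.lie_inc D hK2c Y ξ hY k
  have h2 := Q3.lie_prj D hK2c Y ξ hY k
  unfold Decomp.emb
  calc Y * (toR (D.inc k) * ω * toR (D.prj k)) - toR (D.inc k) * ω * toR (D.prj k) * Y
      = (Y * toR (D.inc k)) * ω * toR (D.prj k) - toR (D.inc k) * ω * (toR (D.prj k) * Y) := by
        simp only [Matrix.mul_assoc]
    _ = (toR (D.inc k) * D.blk k Y) * ω * toR (D.prj k) -
          toR (D.inc k) * ω * (D.blk k Y * toR (D.prj k)) := by rw [h1, h2]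
    _ = _ := by
        rw [Matrix.mul_sub, Matrix.sub_mul]
        simp only [Matrix.mul_assoc]

theorem emb_smul (k : Fin (r + s)) (c : ℂ) (ω : Matrix (Idx (h k)) (Idx (h k)) ℂ) :
    D.emb k (c • ω) = c • D.emb k ω := by
  unfold Decomp.emb
  rw [Matrix.mul_smul, Matrix.smul_mul]

theorem emb_inj (k : Fin (r + s)) {ω ω' : Matrix (Idx (h k)) (Idx (h k)) ℂ}
    (he : D.emb k ω = D.emb k ω') : ω = ω' := by
  rw [← Q3.blk_emb D k ω, he, Q3.blk_emb]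

/-- joint replicas -/
theorem replica (hK1 : Stmt_K1) (hK3 : Stmt_K3) (hK2c : Stmt_K2c) {Y : Matrix (Idx g) (Idx g) ℂ} {ξ : ℂ}
    (hY : InLie (Gam A) Y ξ) {T : Set ℂ} (hT : T.Finite) (φ : ℂ →ₗ[ℚ] ℂ) :
    ∃ Y' : Matrix (Idx g) (Idx g) ℂ, InLie (Gam A) Y' (φ ξ) ∧
      ∀ (k : Fin (r + s)), ∀ c ∈ T, ∀ ω : Matrix (Idx (h k)) (Idx (h k)) ℂ,
        D.blk k Y * ω - ω * D.blk k Y = c • ω → D.blk k Y' * ω - ω * D.blk k Y' = φ c • ω := by
  obtain ⟨Y', hY', hc⟩ := C8R.replica hK1 hK3 (Gam A) hY (T := insert ξ T) (hT.insert ξ)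
    (Set.mem_insert _ _) φ
  refine ⟨Y', hY', fun k c hcT ω hω => ?_⟩
  have h1 := hc c (Set.mem_insert_of_mem _ hcT) (D.emb k ω) (by
    rw [eig_emb D hK2c hY, hω, emb_smul])
  rw [eig_emb D hK2c hY', ← emb_smul] at h1
  exact emb_inj D k h1

/-- families of functions given by tuples of central elements -/
def FLM (f : Fin s → ℂ → ℂ) : Prop :=
  (∀ j, ∀ z : ℂ, aeval z (K₂ j).P = 0 → f j ((starRingEnd ℂ) z) = - f j z) ∧
    ∃ b : ∀ j, Matrix (Fin (n₂ j)) (Fin (n₂ j)) ℂ, DD2 D K₁ K₂ 0 b ∧ (∀ j, b j ∈ (K₂ j).S) ∧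
      ∀ j, ∀ z : ℂ, aeval z (K₂ j).P = 0 → ∀ v ∈ (K₂ j).Tl z, b j *ᵥ v = f j z • v

variable {D K₁ K₂}

theorem FLM.congr {f f' : Fin s → ℂ → ℂ} (hf : FLM D K₁ K₂ f)
    (he : ∀ j, ∀ z : ℂ, aeval z (K₂ j).P = 0 → f j z = f' j z) : FLM D K₁ K₂ f' := by
  obtain ⟨h1, b, hd, hS, h2⟩ := hf
  refine ⟨fun j z hz => ?_, b, hd, hS, fun j z hz v hv => ?_⟩
  · rw [← he j z hz, ← he j _ (C5L.conj_root (K₂ j) hz), h1 j z hz]
  · rw [← he j z hz, h2 j z hz v hv]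

theorem FLM.lin (hK2a : Stmt_K2a) {f f' : Fin s → ℂ → ℂ} (hf : FLM D K₁ K₂ f) (hf' : FLM D K₁ K₂ f')
    (c : ℂ) : FLM D K₁ K₂ (fun j z => f j z + c * f' j z) := by
  obtain ⟨h1, b, hd, hS, h2⟩ := hf
  obtain ⟨h1', b', hd', hS', h2'⟩ := hf'
  refine ⟨fun j z hz => ?_, b + c • b', ?_, fun j => (K₂ j).S.add_mem (hS j) ((K₂ j).S.smul_mem c (hS' j)),
    fun j z hz v hv => ?_⟩
  · show f j _ + c * f' j _ = -(f j z + c * f' j z)
    rw [h1 j z hz, h1' j z hz]; ring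
  · have h3 := (dsub D K₁ K₂ hK2a).add_mem ((mem_dsub D K₁ K₂ hK2a _ _).2 hd)
      ((dsub D K₁ K₂ hK2a).smul_mem c ((mem_dsub D K₁ K₂ hK2a _ _).2 hd'))
    rw [Prod.smul_mk, Prod.mk_add_mk, smul_zero, add_zero, mem_dsub] at h3
    exact h3
  · rw [Pi.add_apply, Pi.smul_apply, Matrix.add_mulVec, Matrix.smul_mulVec, h2 j z hz v hv,
      h2' j z hz v hv, smul_smul, ← add_smul]

theorem FLM.zero (hK2a : Stmt_K2a) : FLM D K₁ K₂ (fun _ _ => 0) := by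
  refine ⟨fun j z _ => by simp, 0, ?_, fun j => (K₂ j).S.zero_mem, fun j z _ v _ => ?_⟩
  · exact (mem_dsub D K₁ K₂ hK2a _ _).1 (dsub D K₁ K₂ hK2a).zero_mem
  · rw [Pi.zero_apply, Matrix.zero_mulVec, zero_smul]

theorem FLM.map (hK2b : Stmt_K2b) (hG4 : Stmt_Gb4) {f : Fin s → ℂ → ℂ} (hf : FLM D K₁ K₂ f)
    (σ : ℂ ≃ₐ[ℚ] ℂ) : FLM D K₁ K₂ (fun j z => σ (f j (σ.symm z))) := by
  obtain ⟨h1, b, hd, hS, h2⟩ := hf
  refine ⟨fun j z hz => ?_, fun j => (b j).map σ, ?_, fun j => S_map (K₂ j) σ (hS j),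
    fun j z hz v hv => ?_⟩
  · show σ (f j (σ.symm ((starRingEnd ℂ) z))) = -σ (f j (σ.symm z))
    rw [conj_aut (K₂ j) σ.symm hz, h1 j _ (root_aut (K₂ j) σ.symm hz), map_neg]
  · have h3 := DD2_map D K₁ K₂ hK2b hG4 σ hd
    have h4 : (fun i => ((0 : ∀ i, Matrix (Fin (n₁ i)) (Fin (n₁ i)) ℂ) i).map σ) = 0 := by
      funext i
      ext k l
      simp
    rw [h4] at h3
    exact h3
  · have h3 := h2 j (σ.symm z) (root_aut (K₂ j) σ.symm hz) (fun i => σ.symm (v i))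
      (C5L.map_Tl (K₂ j) σ.symm hv)
    funext i
    have h4 := congrArg σ (congrFun h3 i)
    simp only [Matrix.mulVec, dotProduct, map_sum, map_mul, Pi.smul_apply, smul_eq_mul,
      AlgEquiv.apply_symm_apply] at h4
    simp only [Matrix.mulVec, dotProduct, Matrix.map_apply, Pi.smul_apply, smul_eq_mul]
    exact h4

/-- the values of the functions are finite in number -/
theorem finite_vals (K₂ : ∀ j, KSC (B (Fin.natAdd r j)) (n₂ j) (m₂ j)) (f : Fin s → ℂ → ℂ) :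
    (⋃ j, (f j) '' {z : ℂ | aeval z (K₂ j).P = 0}).Finite := by
  refine Set.finite_iUnion fun j => Set.Finite.image _ ?_
  refine (Polynomial.rootSet_finite (K₂ j).P ℂ).subset fun z hz => ?_
  rw [Polynomial.mem_rootSet]
  exact ⟨(K₂ j).irr.ne_zero, hz⟩

/-- the replica of a tuple -/
theorem FLM.phi (hK1 : Stmt_K1) (hK3 : Stmt_K3) (hK2c : Stmt_K2c) (hC2d : Stmt_C2d) (hC5v : Stmt_C5v)
    (hm : ∀ j, 1 ≤ m₂ j) {f : Fin s → ℂ → ℂ} (hf : FLM D K₁ K₂ f) (φ : ℂ →ₗ[ℚ] ℂ) :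
    FLM D K₁ K₂ (fun j z => φ (f j z)) := by
  obtain ⟨h1, b, ⟨Y, ξ, hY, hYa, hYb⟩, hS, h2⟩ := hf
  obtain ⟨Y', hY', hc⟩ := replica D hK1 hK3 hK2c hY
    (T := insert 0 (⋃ j, (f j) '' {z : ℂ | aeval z (K₂ j).P = 0})) ((finite_vals K₂ f).insert 0) φ
  have hex : ∀ j, ∃ b' ∈ (K₂ j).S, (K₂ j).Act (D.blk (Fin.natAdd r j) Y') b' := fun j =>
    exists_S (K := K₂ j) (hm j) hC2d hK2c hC5v (Q3.blk_lie D hK2c Y' _ hY' (Fin.natAdd r j))
  choose b' hb'S hb' using hex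
  refine ⟨fun j z hz => ?_, b', ⟨Y', _, hY', fun i v => ?_, hb'⟩, hb'S, fun j z hz v hv => ?_⟩
  · show φ (f j _) = -φ (f j z)
    rw [h1 j z hz, map_neg]
  · have h3 := hc (Fin.castAdd s i) 0 (Set.mem_insert _ _) ((K₁ i).cl v) (by
      have h4 := hYa i v
      rw [Pi.zero_apply, Matrix.zero_mulVec, E8Y.cl_zero] at h4
      rw [h4, zero_smul])
    rw [h3, map_zero, zero_smul, Pi.zero_apply, Matrix.zero_mulVec, E8Y.cl_zero]
  · apply C5X.cl_inj (K₂ j)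
    have h3 := hc (Fin.natAdd r j) (f j z) (Set.mem_insert_of_mem _ (Set.mem_iUnion.2 ⟨j, z, hz, rfl⟩))
      ((K₂ j).cl v) (by rw [hYb j v, h2 j z hz v hv, C5X.cl_smul])
    rw [← hb' j v, h3, C5X.cl_smul]

/-- integral functionals -/
theorem exists_int' {ι : Type} [Fintype ι] [DecidableEq ι] (W : Submodule ℚ (ι → ℚ)) (e : ι → ℚ)
    (he : e ∉ W) : ∃ d : ι → ℤ, (∀ h ∈ W, ∑ w, (d w : ℚ) * h w = 0) ∧ ∑ w, (d w : ℚ) * e w ≠ 0 := by
  obtain ⟨φ, hφe, hφW⟩ := Submodule.exists_le_ker_of_notMem he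
  obtain ⟨b, hb⟩ := IsLocalization.exist_integer_multiples_of_finite (nonZeroDivisors ℤ)
    (S := ℚ) (fun w : ι => φ (fun j => if w = j then 1 else 0))
  choose c hc using hb
  have hb0 : ((b : ℤ) : ℚ) ≠ 0 := by
    have := nonZeroDivisors.coe_ne_zero b
    exact_mod_cast this
  have key : ∀ h : ι → ℚ, ∑ w, ((c w : ℤ) : ℚ) * h w = (b : ℤ) * φ h := by
    intro h
    rw [LinearMap.pi_apply_eq_sum_univ φ h, Finset.mul_sum]
    refine Finset.sum_congr rfl fun w _ => ?_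
    have h1 := hc w
    have h2 : ((c w : ℤ) : ℚ) = (b : ℤ) * φ (fun j => if w = j then 1 else 0) := by
      rw [eq_intCast] at h1
      rw [h1, zsmul_eq_mul]
    rw [h2, smul_eq_mul]
    ring
  refine ⟨c, fun h hh => ?_, ?_⟩
  · rw [key, show φ h = 0 from hφW hh, mul_zero]
  · rw [key]
    exact mul_ne_zero hb0 hφe

/-- the annihilator in the integral odd functions -/
def AnnM (D : Decomp A B) (K₁ : ∀ i, KSE (B (Fin.castAdd s i)) (n₁ i) (m₁ i))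
    (K₂ : ∀ j, KSC (B (Fin.natAdd r j)) (n₂ j) (m₂ j)) : AddSubgroup (Fin s → ℂ → ℤ) where
  carrier := {d | (∀ j z, aeval z (K₂ j).P ≠ 0 → d j z = 0) ∧
    (∀ j z, d j ((starRingEnd ℂ) z) = - d j z) ∧
    ∀ f, FLM D K₁ K₂ f → ∑ j, ∑ z ∈ C8T.roots (K₂ j), (d j z : ℂ) * f j z = 0}
  add_mem' := by
    rintro d d' ⟨h1, h2, h3⟩ ⟨h1', h2', h3'⟩
    refine ⟨fun j z hz => ?_, fun j z => ?_, fun f hf => ?_⟩
    · rw [Pi.add_apply, Pi.add_apply, h1 j z hz, h1' j z hz, add_zero]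
    · rw [Pi.add_apply, Pi.add_apply, Pi.add_apply, h2, h2', neg_add]
    · have h4 : ∑ j, ∑ z ∈ C8T.roots (K₂ j), (((d + d') j z : ℤ) : ℂ) * f j z =
          ∑ j, ∑ z ∈ C8T.roots (K₂ j), (d j z : ℂ) * f j z +
          ∑ j, ∑ z ∈ C8T.roots (K₂ j), (d' j z : ℂ) * f j z := by
        rw [← Finset.sum_add_distrib]
        refine Finset.sum_congr rfl fun j _ => ?_
        rw [← Finset.sum_add_distrib]
        refine Finset.sum_congr rfl fun z _ => ?_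
        rw [Pi.add_apply, Pi.add_apply, Int.cast_add, add_mul]
      rw [h4, h3 f hf, h3' f hf, add_zero]
  zero_mem' := by
    refine ⟨fun j z _ => rfl, fun j z => by simp, fun f _ => ?_⟩
    exact Finset.sum_eq_zero fun j _ => Finset.sum_eq_zero fun z _ => by simp
  neg_mem' := by
    rintro d ⟨h1, h2, h3⟩
    refine ⟨fun j z hz => ?_, fun j z => ?_, fun f hf => ?_⟩
    · rw [Pi.neg_apply, Pi.neg_apply, h1 j z hz, neg_zero]
    · rw [Pi.neg_apply, Pi.neg_apply, Pi.neg_apply, h2]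
    · have h4 : ∑ j, ∑ z ∈ C8T.roots (K₂ j), (((-d) j z : ℤ) : ℂ) * f j z =
          -∑ j, ∑ z ∈ C8T.roots (K₂ j), (d j z : ℂ) * f j z := by
        rw [← Finset.sum_neg_distrib]
        refine Finset.sum_congr rfl fun j _ => ?_
        rw [← Finset.sum_neg_distrib]
        refine Finset.sum_congr rfl fun z _ => ?_
        rw [Pi.neg_apply, Pi.neg_apply]
        push_cast
        ring
      rw [h4, h3 f hf, neg_zero]

theorem AnnM_aut (hK2b : Stmt_K2b) (hG4 : Stmt_Gb4) (σ : ℂ ≃ₐ[ℚ] ℂ) (d : Fin s → ℂ → ℤ)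
    (hd : d ∈ AnnM D K₁ K₂) : (fun j z => d j (σ z)) ∈ AnnM D K₁ K₂ := by
  obtain ⟨h1, h2, h3⟩ := hd
  refine ⟨fun j z hz => h1 j _ (root_symm (K₂ j) σ hz), fun j z => ?_, fun f hf => ?_⟩
  · show d j (σ ((starRingEnd ℂ) z)) = - d j (σ z)
    by_cases hz : aeval z (K₂ j).P = 0
    · rw [conj_aut (K₂ j) σ hz, h2]
    · have hz' : aeval ((starRingEnd ℂ) z) (K₂ j).P ≠ 0 := by
        intro h
        apply hz
        have := C5L.conj_root (K₂ j) h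
        rwa [Complex.conj_conj] at this
      rw [h1 j _ (root_symm (K₂ j) σ hz), h1 j _ (root_symm (K₂ j) σ hz'), neg_zero]
  · have h4 := h3 _ (hf.map hK2b hG4 σ)
    have h5 := congrArg σ.symm h4
    rw [map_sum, map_zero] at h5
    rw [← h5]
    refine Finset.sum_congr rfl fun j _ => ?_
    rw [map_sum, ← sum_aut (K := K₂ j) σ (fun z => σ.symm ((d j z : ℂ) * σ (f j (σ.symm z))))]
    refine Finset.sum_congr rfl fun z _ => ?_
    show (d j (σ z) : ℂ) * f j z = σ.symm ((d j (σ z) : ℂ) * σ (f j (σ.symm (σ z))))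
    rw [map_mul, AlgEquiv.symm_apply_apply, AlgEquiv.symm_apply_apply, map_intCast]

/-- the elementary family -/
def efM (j0 : Fin s) (z0 : ℂ) (j : Fin s) (z : ℂ) : ℚ := if j = j0 then ef z0 z else 0

theorem efM_conj {j0 : Fin s} {z0 : ℂ} (hz0 : aeval z0 (K₂ j0).P = 0) (j : Fin s) (z : ℂ) :
    efM j0 z0 j ((starRingEnd ℂ) z) = - efM j0 z0 j z := by
  unfold efM
  split_ifs
  · exact ef_conj hz0 z
  · rw [neg_zero]

/-- if the annihilator vanishes then all elementary families are in `FLM` -/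
theorem FLM_ef (hK2a : Stmt_K2a) (hK1 : Stmt_K1) (hK3 : Stmt_K3) (hK2c : Stmt_K2c) (hC2d : Stmt_C2d)
    (hC5v : Stmt_C5v) (hm : ∀ j, 1 ≤ m₂ j) (hbot : AnnM D K₁ K₂ = ⊥) {j0 : Fin s} {z0 : ℂ}
    (hz0 : aeval z0 (K₂ j0).P = 0) : FLM D K₁ K₂ (fun j z => (efM j0 z0 j z : ℂ)) := by
  classical
  by_contra hcon
  let ext : ((Σ j : Fin s, {z // z ∈ C8T.roots (K₂ j)}) → ℚ) → Fin s → ℂ → ℂ :=
    fun u j z => if hz : z ∈ C8T.roots (K₂ j) then ((u ⟨j, z, hz⟩ : ℚ) : ℂ) else 0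
  let W : Submodule ℚ ((Σ j : Fin s, {z // z ∈ C8T.roots (K₂ j)}) → ℚ) :=
    { carrier := {u | FLM D K₁ K₂ (ext u)}
      add_mem' := by
        intro u u' hh hh'
        have := FLM.lin hK2a hh hh' 1
        refine this.congr fun j z hz => ?_
        have hzR : z ∈ C8T.roots (K₂ j) := mem_roots.2 hz
        simp only [ext, dif_pos hzR, Pi.add_apply]
        push_cast
        ring
      zero_mem' := by
        refine (FLM.zero (D := D) (K₁ := K₁) (K₂ := K₂) hK2a).congr fun j z hz => ?_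
        have hzR : z ∈ C8T.roots (K₂ j) := mem_roots.2 hz
        simp only [ext, dif_pos hzR, Pi.zero_apply]
        norm_num
      smul_mem' := by
        intro c u hh
        have := FLM.lin hK2a (FLM.zero (D := D) (K₁ := K₁) (K₂ := K₂) hK2a) hh (c : ℂ)
        refine this.congr fun j z hz => ?_
        have hzR : z ∈ C8T.roots (K₂ j) := mem_roots.2 hz
        simp only [ext, dif_pos hzR, Pi.smul_apply, smul_eq_mul]
        push_cast
        ring }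
  have hW : ∀ u, u ∈ W ↔ FLM D K₁ K₂ (ext u) := fun u => Iff.rfl
  let e : (Σ j : Fin s, {z // z ∈ C8T.roots (K₂ j)}) → ℚ := fun w => efM j0 z0 w.1 w.2
  have heW : e ∉ W := by
    intro h
    apply hcon
    refine ((hW e).1 h).congr fun j z hz => ?_
    have hzR : z ∈ C8T.roots (K₂ j) := mem_roots.2 hz
    simp only [ext, dif_pos hzR, e]
  obtain ⟨d0, hdW, hde⟩ := exists_int' W e heW
  let d : Fin s → ℂ → ℤ := fun j z => if hz : z ∈ C8T.roots (K₂ j) then d0 ⟨j, z, hz⟩ else 0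
  have hd0 : ∀ j z, z ∉ C8T.roots (K₂ j) → d j z = 0 := fun j z hz => dif_neg hz
  -- sums
  have hsub : ∀ F : Fin s → ℂ → ℚ, ∑ w : (Σ j : Fin s, {z // z ∈ C8T.roots (K₂ j)}), (d0 w : ℚ) * F w.1 w.2 =
      ∑ j, ∑ z ∈ C8T.roots (K₂ j), (d j z : ℚ) * F j z := by
    intro F
    rw [Fintype.sum_sigma]
    refine Finset.sum_congr rfl fun j _ => ?_
    rw [← Finset.sum_coe_sort (C8T.roots (K₂ j)) (fun z => (d j z : ℚ) * F j z)]
    refine Finset.sum_congr rfl fun z _ => ?_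
    show (d0 ⟨j, z⟩ : ℚ) * F j z = ((if hz : (z : ℂ) ∈ C8T.roots (K₂ j) then d0 ⟨j, z, hz⟩ else 0 : ℤ) : ℚ) * F j z
    rw [dif_pos z.2]
  let Dd : Fin s → ℂ → ℤ := fun j z => d j z - d j ((starRingEnd ℂ) z)
  have hDsum : ∀ F : Fin s → ℂ → ℚ,
      (∀ j, ∀ z : ℂ, aeval z (K₂ j).P = 0 → F j ((starRingEnd ℂ) z) = - F j z) →
      ∑ j, ∑ z ∈ C8T.roots (K₂ j), (Dd j z : ℚ) * F j z = 2 * ∑ j, ∑ z ∈ C8T.roots (K₂ j), (d j z : ℚ) * F j z := by
    intro F hF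
    rw [Finset.mul_sum]
    refine Finset.sum_congr rfl fun j _ => ?_
    have h1 : ∑ z ∈ C8T.roots (K₂ j), (d j ((starRingEnd ℂ) z) : ℚ) * F j z =
        - ∑ z ∈ C8T.roots (K₂ j), (d j z : ℚ) * F j z := by
      rw [← sum_conj (K := K₂ j) (fun z => (d j z : ℚ) * F j z), ← Finset.sum_neg_distrib]
      refine Finset.sum_congr rfl fun z hz => ?_
      rw [hF j z (mem_roots.1 hz)]
      ring
    have h2 : ∑ z ∈ C8T.roots (K₂ j), (Dd j z : ℚ) * F j z =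
        ∑ z ∈ C8T.roots (K₂ j), (d j z : ℚ) * F j z -
          ∑ z ∈ C8T.roots (K₂ j), (d j ((starRingEnd ℂ) z) : ℚ) * F j z := by
      rw [← Finset.sum_sub_distrib]
      refine Finset.sum_congr rfl fun z _ => ?_
      simp only [Dd]
      push_cast
      ring
    rw [h2, h1]
    ring
  have hDmem : Dd ∈ AnnM D K₁ K₂ := by
    refine ⟨fun j z hz => ?_, fun j z => ?_, fun f hf => ?_⟩
    · have hz' : aeval ((starRingEnd ℂ) z) (K₂ j).P ≠ 0 := by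
        intro h
        apply hz
        have := C5L.conj_root (K₂ j) h
        rwa [Complex.conj_conj] at this
      show d j z - d j ((starRingEnd ℂ) z) = 0
      rw [hd0 j z (fun h => hz (mem_roots.1 h)), hd0 j _ (fun h => hz' (mem_roots.1 h)), sub_zero]
    · show d j ((starRingEnd ℂ) z) - d j ((starRingEnd ℂ) ((starRingEnd ℂ) z)) =
        -(d j z - d j ((starRingEnd ℂ) z))
      rw [Complex.conj_conj]
      ring
    · rw [← Module.forall_dual_apply_eq_zero_iff ℚ]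
      intro ψ
      rw [map_sum]
      have h1 : ∀ j, ψ (∑ z ∈ C8T.roots (K₂ j), (Dd j z : ℂ) * f j z) =
          ∑ z ∈ C8T.roots (K₂ j), (Dd j z : ℚ) * ψ (f j z) := by
        intro j
        rw [map_sum]
        refine Finset.sum_congr rfl fun z _ => ?_
        have : (Dd j z : ℂ) * f j z = (Dd j z : ℤ) • f j z := by rw [zsmul_eq_mul]
        rw [this, map_zsmul, zsmul_eq_mul]
      rw [Finset.sum_congr rfl fun j _ => h1 j]
      have h2 : FLM D K₁ K₂ (fun j z => ((ψ (f j z) : ℚ) : ℂ)) := by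
        have := hf.phi hK1 hK3 hK2c hC2d hC5v hm ((Algebra.linearMap ℚ ℂ).comp ψ)
        exact this
      have h3 : (fun w : (Σ j : Fin s, {z // z ∈ C8T.roots (K₂ j)}) => ψ (f w.1 w.2)) ∈ W := by
        rw [hW]
        refine h2.congr fun j z hz => ?_
        have hzR : z ∈ C8T.roots (K₂ j) := mem_roots.2 hz
        simp only [ext, dif_pos hzR]
      have h4 := hdW _ h3
      rw [hsub (fun j z => ψ (f j z))] at h4
      have h5 := hDsum (fun j z => ψ (f j z)) (fun j z hz => by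
        show ψ (f j _) = -ψ (f j z)
        rw [hf.1 j z hz, map_neg])
      rw [h5, h4, mul_zero]
  rw [hbot, AddSubgroup.mem_bot] at hDmem
  have h5 := hDsum (fun j z => efM j0 z0 j z) (fun j z _ => efM_conj hz0 j z)
  rw [hsub (fun j z => efM j0 z0 j z)] at hde
  have h6 : ∑ j, ∑ z ∈ C8T.roots (K₂ j), (Dd j z : ℚ) * efM j0 z0 j z = 0 := by
    refine Finset.sum_eq_zero fun j _ => Finset.sum_eq_zero fun z _ => ?_
    rw [hDmem, Pi.zero_apply, Pi.zero_apply, Int.cast_zero, zero_mul]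
  rw [h6] at h5
  apply hde
  linarith

/-- the tuples in the derived algebras -/
theorem single_mem (hK2a : Stmt_K2a) (j : Fin s)
    (hder : ∀ x ∈ (K₂ j).S, ∀ y ∈ (K₂ j).S, DD2 D K₁ K₂ 0 (Pi.single j (x * y - y * x)))
    {x : Matrix (Fin (n₂ j)) (Fin (n₂ j)) ℂ}
    (hx : x ∈ Submodule.span ℂ {c | ∃ b ∈ (K₂ j).S, ∃ b' ∈ (K₂ j).S, c = b * b' - b' * b}) :
    ((0 : ∀ i, Matrix (Fin (n₁ i)) (Fin (n₁ i)) ℂ), Pi.single j x) ∈ dsub D K₁ K₂ hK2a := by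
  let F : Matrix (Fin (n₂ j)) (Fin (n₂ j)) ℂ →ₗ[ℂ] ((∀ i, Matrix (Fin (n₁ i)) (Fin (n₁ i)) ℂ) ×
      (∀ j, Matrix (Fin (n₂ j)) (Fin (n₂ j)) ℂ)) :=
    (LinearMap.inr ℂ _ _).comp (LinearMap.single ℂ (fun j => Matrix (Fin (n₂ j)) (Fin (n₂ j)) ℂ) j)
  have h1 : Submodule.span ℂ {c | ∃ b ∈ (K₂ j).S, ∃ b' ∈ (K₂ j).S, c = b * b' - b' * b} ≤
      (dsub D K₁ K₂ hK2a).comap F := by
    rw [Submodule.span_le]
    rintro _ ⟨b, hb, b', hb', rfl⟩
    exact hder b hb b' hb'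
  exact h1 hx

/-- splitting of a tuple -/
theorem split (hK2a : Stmt_K2a) (hm : ∀ j, 1 ≤ m₂ j)
    (τ : ∀ j, ℂ → (Matrix (Fin (n₂ j)) (Fin (n₂ j)) ℂ →ₗ[ℂ] ℂ))
    (h2 : ∀ j, ∀ z : ℂ, Polynomial.aeval z (K₂ j).P = 0 → ∀ a ∈ (K₂ j).S, ∀ c : ℂ,
      (∀ v ∈ (K₂ j).Tl z, a *ᵥ v = c • v) → τ j z a = m₂ j * c)
    (hodd : ∀ j, ∀ z : ℂ, Polynomial.aeval z (K₂ j).P = 0 → ∀ a ∈ (K₂ j).S,
      τ j ((starRingEnd ℂ) z) a = - τ j z a)
    (h3 : ∀ j, ∀ a ∈ (K₂ j).S, (∀ z : ℂ, Polynomial.aeval z (K₂ j).P = 0 → τ j z a = 0) →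
      a ∈ Submodule.span ℂ {c | ∃ b ∈ (K₂ j).S, ∃ b' ∈ (K₂ j).S, c = b * b' - b' * b})
    (he1 : ∀ i, ∀ x ∈ (K₁ i).S, DD2 D K₁ K₂ (Pi.single i x) 0)
    (hder : ∀ j, ∀ x ∈ (K₂ j).S, ∀ y ∈ (K₂ j).S, DD2 D K₁ K₂ 0 (Pi.single j (x * y - y * x)))
    (a : ∀ i, Matrix (Fin (n₁ i)) (Fin (n₁ i)) ℂ) (b : ∀ j, Matrix (Fin (n₂ j)) (Fin (n₂ j)) ℂ)
    (ha : ∀ i, a i ∈ (K₁ i).S) (hb : ∀ j, b j ∈ (K₂ j).S) (hd : DD2 D K₁ K₂ a b) :
    FLM D K₁ K₂ (fun j z => τ j z (b j) / m₂ j) := by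
  have hex : ∀ j, ∃ c ∈ (K₂ j).S, (∀ z : ℂ, aeval z (K₂ j).P = 0 → ∀ v ∈ (K₂ j).Tl z,
      c *ᵥ v = (τ j z (b j) / m₂ j) • v) := by
    intro j
    obtain ⟨c, hc, -, hcv⟩ := C5L.exists_central (K₂ j) (fun z => τ j z (b j) / m₂ j) (fun z hz => by
      show τ j _ (b j) / m₂ j = -(τ j z (b j) / m₂ j)
      rw [hodd j z hz (b j) (hb j), neg_div])
    exact ⟨c, hc, hcv⟩
  choose c hc hcv using hex
  have hbc : ∀ j, b j - c j ∈
      Submodule.span ℂ {c | ∃ b ∈ (K₂ j).S, ∃ b' ∈ (K₂ j).S, c = b * b' - b' * b} := by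
    intro j
    refine h3 j _ ((K₂ j).S.sub_mem (hb j) (hc j)) fun z hz => ?_
    have hm0 : (m₂ j : ℂ) ≠ 0 := by
      have : m₂ j ≠ 0 := by have := hm j; omega
      exact_mod_cast this
    rw [map_sub, h2 j z hz (c j) (hc j) _ (hcv j z hz)]
    field_simp
    ring
  refine ⟨fun j z hz => ?_, c, ?_, hc, hcv⟩
  · show τ j _ (b j) / m₂ j = -(τ j z (b j) / m₂ j)
    rw [hodd j z hz (b j) (hb j), neg_div]
  · have e1 : (a, (0 : ∀ j, Matrix (Fin (n₂ j)) (Fin (n₂ j)) ℂ)) ∈ dsub D K₁ K₂ hK2a := by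
      have : (a, (0 : ∀ j, Matrix (Fin (n₂ j)) (Fin (n₂ j)) ℂ)) =
          ∑ i, ((Pi.single i (a i) : ∀ i, Matrix (Fin (n₁ i)) (Fin (n₁ i)) ℂ),
            (0 : ∀ j, Matrix (Fin (n₂ j)) (Fin (n₂ j)) ℂ)) := by
        apply Prod.ext
        · rw [Prod.fst_sum]
          exact (Finset.univ_sum_single a).symm
        · rw [Prod.snd_sum]
          simp
      rw [this]
      exact Submodule.sum_mem _ fun i _ => (mem_dsub D K₁ K₂ hK2a _ _).2 (he1 i (a i) (ha i))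
    have e2 : ((0 : ∀ i, Matrix (Fin (n₁ i)) (Fin (n₁ i)) ℂ), b - c) ∈ dsub D K₁ K₂ hK2a := by
      have : ((0 : ∀ i, Matrix (Fin (n₁ i)) (Fin (n₁ i)) ℂ), b - c) =
          ∑ j, ((0 : ∀ i, Matrix (Fin (n₁ i)) (Fin (n₁ i)) ℂ),
            (Pi.single j ((b - c) j) : ∀ j, Matrix (Fin (n₂ j)) (Fin (n₂ j)) ℂ)) := by
        apply Prod.ext
        · rw [Prod.fst_sum]
          simp
        · rw [Prod.snd_sum]
          exact (Finset.univ_sum_single (b - c)).symm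
      rw [this]
      exact Submodule.sum_mem _ fun j _ => single_mem hK2a j (hder j) (hbc j)
    have e3 := (dsub D K₁ K₂ hK2a).sub_mem ((dsub D K₁ K₂ hK2a).sub_mem
      ((mem_dsub D K₁ K₂ hK2a _ _).2 hd) e1) e2
    rw [Prod.mk_sub_mk, Prod.mk_sub_mk, sub_self, sub_zero, sub_zero, sub_sub_cancel, mem_dsub] at e3
    exact e3

end NTX

open NTX in
/-- NT. -/
theorem NT_proof (hK1 : Stmt_K1) (hK3 : Stmt_K3) (hK2a : Stmt_K2a) (hK2b : Stmt_K2b) (hG4 : Stmt_Gb4)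
    (hK2c : Stmt_K2c) (hE2d : Stmt_E2d) (hE5a : Stmt_E5a) (hE5v : Stmt_E5v)
    (hC2d : Stmt_C2d) (hC5a : Stmt_C5a) (hC5v : Stmt_C5v) (hC5w : Stmt_C5w2) (hPQ : Stmt_PQ) :
    Stmt_NT := by
  classical
  intro g A r s h B D n₁ m₁ K₁ n₂ m₂ K₂ hdim hJ he1 hder
  have hd1 := hdim.1
  have hd2 := hdim.2.1
  have hm : ∀ j, 1 ≤ m₂ j := fun j => (hd2 j).1
  have hm1 : ∀ i, 3 ≤ m₁ i := fun i => by rcases hd1 i with h | h <;> omega
  choose τ h1 h2 hodd h3 h4 using fun j => hC5w _ _ (n₂ j) (m₂ j) (K₂ j) (hm j)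
  have hsplit := NTX.split (D := D) (K₁ := K₁) (K₂ := K₂) hK2a hm τ h2 hodd h3 he1 hder
  -- tuples of elements of the Lie algebra
  have htup : ∀ Y ξ, InLie (Gam A) Y ξ → ∃ a b, (∀ i, a i ∈ (K₁ i).S) ∧ (∀ j, b j ∈ (K₂ j).S) ∧
      DD2 D K₁ K₂ a b ∧ ∀ j, (K₂ j).Act (D.blk (Fin.natAdd r j) Y) (b j) := by
    intro Y ξ hY
    have hex1 := fun i => exists_SE hE2d hE5a hE5v hK2c (K₁ i) (hm1 i)
      (Q3.blk_lie D hK2c Y ξ hY (Fin.castAdd s i))
    have hex2 := fun j => C8T.exists_S (K := K₂ j) (hm j) hC2d hK2c hC5v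
      (Q3.blk_lie D hK2c Y ξ hY (Fin.natAdd r j))
    choose a ha ha' using hex1
    choose b hb hb' using hex2
    exact ⟨a, b, ha, hb, ⟨Y, ξ, hY, ha', hb'⟩, hb'⟩
  -- the annihilator vanishes
  have hbot : AnnM D K₁ K₂ = ⊥ := by
    by_contra hne
    obtain ⟨d, hd, hd0, j0, hdj, c, hc⟩ := hJ (AnnM D K₁ K₂) (fun d hd => hd.1) (fun d hd => hd.2.1)
      (fun σ d hd => AnnM_aut hK2b hG4 σ d hd) hne
    have hm0 : (m₂ j0 : ℂ) ≠ 0 := by
      have : m₂ j0 ≠ 0 := by have := hm j0; omega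
      exact_mod_cast this
    obtain ⟨z1, hz1⟩ : ∃ z, d j0 z ≠ 0 := by
      by_contra hh
      push Not at hh
      apply hd0
      funext j
      by_cases hj : j = j0
      · subst hj; exact funext hh
      · exact hdj j hj
    have hc0 : c ≠ 0 := by
      rintro rfl
      rcases hc z1 with h | h | h
      · exact hz1 h
      · exact hz1 h
      · exact hz1 (by simpa using h)
    have hcc : -c ≠ c := by omega
    set U : Finset ℂ := (C8T.roots (K₂ j0)).filter fun z => d j0 z = c with hU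
    have hUm : ∀ z, z ∈ U ↔ aeval z (K₂ j0).P = 0 ∧ d j0 z = c := by
      intro z
      rw [hU, Finset.mem_filter, C8T.mem_roots]
    have hconjU : ∀ z ∈ U, (starRingEnd ℂ) z ∉ U := by
      intro z hz h
      have h5 := ((hUm _).1 h).2
      rw [hd.2.1, ((hUm z).1 hz).2] at h5
      exact hcc h5
    obtain ⟨z0, hz0⟩ : ∃ z, z ∈ U := by
      have hr : aeval z1 (K₂ j0).P = 0 := by
        by_contra h
        exact hz1 (hd.1 j0 z1 h)
      rcases hc z1 with h | h | h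
      · exact absurd h hz1
      · exact ⟨z1, (hUm _).2 ⟨hr, h⟩⟩
      · refine ⟨(starRingEnd ℂ) z1, (hUm _).2 ⟨C5L.conj_root (K₂ j0) hr, ?_⟩⟩
        rw [hd.2.1, h, neg_neg]
    obtain ⟨Ω, hΩ0, hΩ⟩ := h4 j0 U fun z hz => ⟨((hUm z).1 hz).1, hconjU z hz⟩
    -- sums
    have hsum : ∀ f : Fin s → ℂ → ℂ, FLM D K₁ K₂ f → ∑ z ∈ U, f j0 z = 0 := by
      intro f hf
      have h5 := hd.2.2 f hf
      rw [Finset.sum_eq_single j0 (fun j _ hj => Finset.sum_eq_zero fun z _ => by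
        rw [hdj j hj, Pi.zero_apply, Int.cast_zero, zero_mul]) (fun h => absurd (Finset.mem_univ j0) h)]
        at h5
      have h6 : ∀ z ∈ C8T.roots (K₂ j0), (d j0 z : ℂ) * f j0 z =
          (if d j0 z = c then (c : ℂ) * f j0 z else 0) +
            (if d j0 ((starRingEnd ℂ) z) = c then (c : ℂ) * f j0 ((starRingEnd ℂ) z) else 0) := by
        intro z hz
        rw [hf.1 j0 z (C8T.mem_roots.1 hz), hd.2.1]
        rcases hc z with h | h | h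
        · rw [h, if_neg (fun h => hc0 h.symm), neg_zero, if_neg (fun h => hc0 h.symm)]
          simp
        · rw [h, if_pos rfl, if_neg hcc, add_zero]
        · rw [h, if_neg hcc, neg_neg, if_pos rfl, zero_add]
          push_cast
          ring
      rw [Finset.sum_congr rfl h6, Finset.sum_add_distrib,
        C8T.sum_conj (K := K₂ j0) (fun z => if d j0 z = c then (c : ℂ) * f j0 z else 0),
        ← Finset.sum_filter, ← Finset.mul_sum, ← two_mul] at h5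
      have hcC : (c : ℂ) ≠ 0 := by exact_mod_cast hc0
      have h7 := (mul_eq_zero.1 h5).resolve_left two_ne_zero
      exact (mul_eq_zero.1 h7).resolve_left hcC
    -- Ω commutes with the blocks of the Lie algebra
    have hcomm : ∀ X ξ, D.L (Fin.natAdd r j0) X ξ → X * Ω = Ω * X := by
      rintro X ξ ⟨Y, hY, rfl⟩
      obtain ⟨a, b, ha, hb, hab, hact⟩ := htup Y ξ hY
      have h5 := hsum _ (hsplit a b ha hb hab)
      have h6 := hΩ (D.blk (Fin.natAdd r j0) Y) (b j0) (hb j0) (hact j0)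
      have h7 : ∑ z ∈ U, τ j0 z (b j0) = 0 := by
        have h8 : ∑ z ∈ U, τ j0 z (b j0) / (m₂ j0 : ℂ) = 0 := h5
        rw [← Finset.sum_div] at h8
        rcases div_eq_zero_iff.1 h8 with h | h
        · exact h
        · exact absurd h hm0
      rw [h7, zero_smul] at h6
      exact sub_eq_zero.1 h6
    obtain ⟨-, -, -, hF, -⟩ := hPQ g A (r + s) h B D
    have hspan := (hF (Fin.natAdd r j0)).comm Ω hcomm
    obtain ⟨-, -, hlift, -, hend, -⟩ := hC5a _ _ (n₂ j0) (m₂ j0) (K₂ j0)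
    have hz0r : aeval z0 (K₂ j0).P = 0 := ((hUm z0).1 hz0).1
    obtain ⟨δ, hδS, -, hδ⟩ := C5L.exists_central (K₂ j0) (fun z => ((C8T.ef z0 z : ℚ) : ℂ)) (fun z _ => by
      show ((C8T.ef z0 ((starRingEnd ℂ) z) : ℚ) : ℂ) = -((C8T.ef z0 z : ℚ) : ℂ)
      rw [C8T.ef_conj hz0r]
      push_cast
      rfl)
    have hact : (K₂ j0).Act ((K₂ j0).Z δ) δ := fun v =>
      hlift δ (fun v w => C5X.S_skew (K₂ j0) δ hδS v w) v
    have h5 := hΩ ((K₂ j0).Z δ) δ hδS hact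
    have h6 : (K₂ j0).Z δ * Ω - Ω * (K₂ j0).Z δ = 0 := by
      rw [hend Ω hspan δ hδS, sub_self]
    have h7 : ∑ z ∈ U, τ j0 z δ = m₂ j0 := by
      rw [Finset.sum_eq_single z0]
      · rw [h2 j0 z0 hz0r δ hδS 1 (fun v hv => by
          rw [hδ z0 hz0r v hv, C8T.ef, if_pos rfl]
          norm_num), mul_one]
      · intro z hz hne
        have hne' : z ≠ (starRingEnd ℂ) z0 := by
          rintro rfl
          exact hconjU z0 hz0 hz
        rw [h2 j0 z ((hUm z).1 hz).1 δ hδS 0 (fun v hv => by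
          rw [hδ z ((hUm z).1 hz).1 v hv, C8T.ef, if_neg hne, if_neg hne']
          norm_num), mul_zero]
      · intro h; exact absurd hz0 h
    rw [h6, h7] at h5
    rcases smul_eq_zero.1 h5.symm with h | h
    · exact hm0 h
    · exact hΩ0 h
  -- conclusion
  intro j a ha
  have hef : ∀ z0 : {z // z ∈ C8T.roots (K₂ j)}, FLM D K₁ K₂ (fun j' z => (efM j z0 j' z : ℂ)) :=
    fun z0 => FLM_ef hK2a hK1 hK3 hK2c hC2d hC5v hm hbot (C8T.mem_roots.1 z0.2)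
  choose δ hδd hδS hδv using fun z0 : {z // z ∈ C8T.roots (K₂ j)} => (hef z0).2
  set b : ∀ j', Matrix (Fin (n₂ j')) (Fin (n₂ j')) ℂ :=
    ∑ z0 : {z // z ∈ C8T.roots (K₂ j)}, (τ j z0 a / m₂ j / 2) • δ z0 with hb
  have hbd : ((0 : ∀ i, Matrix (Fin (n₁ i)) (Fin (n₁ i)) ℂ), b) ∈ dsub D K₁ K₂ hK2a := by
    have : ((0 : ∀ i, Matrix (Fin (n₁ i)) (Fin (n₁ i)) ℂ), b) =
        ∑ z0 : {z // z ∈ C8T.roots (K₂ j)}, (τ j z0 a / m₂ j / 2) •
          ((0 : ∀ i, Matrix (Fin (n₁ i)) (Fin (n₁ i)) ℂ), δ z0) := by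
      apply Prod.ext
      · rw [Prod.fst_sum]
        simp
      · rw [Prod.snd_sum]
        rfl
    rw [this]
    exact Submodule.sum_mem _ fun z0 _ => (dsub D K₁ K₂ hK2a).smul_mem _
      ((mem_dsub D K₁ K₂ hK2a _ _).2 (hδd z0))
  have hbj : ∀ j', b j' = ∑ z0 : {z // z ∈ C8T.roots (K₂ j)}, (τ j z0 a / m₂ j / 2) • δ z0 j' := by
    intro j'
    rw [hb, Finset.sum_apply]
    rfl
  have hb0 : ∀ j', j' ≠ j → b j' = 0 := by
    intro j' hj'
    refine C5L.mat_extT (K₂ j') fun z hz v hv => ?_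
    rw [hbj, Matrix.sum_mulVec, Matrix.zero_mulVec]
    refine Finset.sum_eq_zero fun z0 _ => ?_
    have h5 : efM j (z0 : ℂ) j' z = 0 := if_neg hj'
    rw [Matrix.smul_mulVec, hδv z0 j' z hz v hv]
    show _ • (((efM j (z0 : ℂ) j' z : ℚ) : ℂ) • v) = 0
    rw [h5]
    simp
  have hbv : ∀ z : ℂ, aeval z (K₂ j).P = 0 → ∀ v ∈ (K₂ j).Tl z, b j *ᵥ v = (τ j z a / m₂ j) • v := by
    rw [hbj]
    refine C8T.sum_ef (K := K₂ j) (τ j) (hodd j) ha (fun z0 => δ z0 j) (fun z0 z hz v hv => ?_)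
    rw [hδv z0 j z hz v hv]
    have h5 : efM j (z0 : ℂ) j z = C8T.ef z0 z := if_pos rfl
    show ((efM j (z0 : ℂ) j z : ℚ) : ℂ) • v = _
    rw [h5]
  have hbS : b j ∈ (K₂ j).S := by
    rw [hbj]
    exact Submodule.sum_mem _ fun z0 _ => (K₂ j).S.smul_mem _ (hδS z0 j)
  have hbs : b = Pi.single j (b j) := by
    funext j'
    by_cases hj' : j' = j
    · subst hj'; rw [Pi.single_eq_same]
    · rw [hb0 j' hj', Pi.single_eq_of_ne hj']
  have hab : a - b j ∈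
      Submodule.span ℂ {c | ∃ b ∈ (K₂ j).S, ∃ b' ∈ (K₂ j).S, c = b * b' - b' * b} := by
    refine h3 j _ ((K₂ j).S.sub_mem ha hbS) fun z hz => ?_
    have hm0 : (m₂ j : ℂ) ≠ 0 := by
      have : m₂ j ≠ 0 := by have := hm j; omega
      exact_mod_cast this
    rw [map_sub, h2 j z hz (b j) hbS _ (hbv z hz)]
    field_simp
    ring
  have e1 := single_mem (D := D) (K₁ := K₁) (K₂ := K₂) hK2a j (hder j) hab
  have e2 := (dsub D K₁ K₂ hK2a).add_mem e1 hbd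
  rw [Prod.mk_add_mk, add_zero, mem_dsub] at e2
  have e3 : Pi.single j (a - b j) + b = (Pi.single j a : ∀ j, Matrix (Fin (n₂ j)) (Fin (n₂ j)) ℂ) := by
    conv_lhs => rw [hbs]
    rw [← Pi.single_add, Pi.single_eq_same, sub_add_cancel]
  rw [e3] at e2
  exact e2

end

end Pool.Agent.K3M
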