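import Pool.Agent.K3M.XE
import Pool.Agent.K3M.XC

/-!
# `-1` is an exponential, real multiplication
-/

open scoped BigOperators
open Matrix

namespace Pool.Agent.K3M

open Pool.Agent.DRB Pool.Agent.K3D Pool.Agent.K3E Pool.Agent.K3C

open XCX in
theorem MinE_proof (h5l : Stmt_E5l) : Stmt_MinE := by
  intro g A n m K hm
  obtain ⟨hfr, -, -, hnd, -⟩ := h5l g A n m K hm
  have hz : Polynomial.aeval (K.lam : ℂ) K.P = 0 := by
    have h1 := congrArg (algebraMap ℝ ℂ) K.lam_root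
    rw [map_zero, ← Polynomial.aeval_algebraMap_apply] at h1
    exact h1
  obtain ⟨k, b, hbW, hinj, horth, hne, hspan, -⟩ := E5X.orth_basis K (K.Tl K.lam) (hnd K.lam)
  have hk : 2 ≤ k := by
    have h1 : K.Tl K.lam ≤ Submodule.span ℂ (Set.range b) := fun w hw => hspan w hw
    have h2 := Submodule.finrank_mono h1
    have h3 := finrank_range_le_card (R := ℂ) b
    rw [hfr _ hz] at h2
    rw [Fintype.card_fin] at h3
    have h4 : Module.finrank ℂ (Submodule.span ℂ (Set.range b)) ≤ k := h3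
    omega
  have hr := E5X.rel K
  obtain ⟨v, hv⟩ : ∃ v, v = b ⟨0, by omega⟩ := ⟨_, rfl⟩
  obtain ⟨w, hw⟩ : ∃ w, w = b ⟨1, by omega⟩ := ⟨_, rfl⟩
  have hvw : K.bil v w = 0 := by
    rw [hv, hw]
    exact horth _ _ (by intro h; simpa using congrArg Fin.val h)
  have hvT : v ∈ K.Tl K.lam := by rw [hv]; exact hbW _
  have hwT : w ∈ K.Tl K.lam := by rw [hw]; exact hbW _
  have hα : K.bil v v ≠ 0 := by rw [hv]; exact hne _
  have hβ : K.bil w w ≠ 0 := by rw [hw]; exact hne _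
  obtain ⟨δ, hδ⟩ := IsAlgClosed.exists_pow_nat_eq (-(K.bil v v / K.bil w w)) (n := 2) (by norm_num)
  have hδ' : δ * δ * K.bil w w = -K.bil v v := by
    rw [← pow_two, hδ]; field_simp
  obtain ⟨e, he⟩ : ∃ e, e = v + δ • w := ⟨_, rfl⟩
  obtain ⟨f, hf⟩ : ∃ f, f = (2 * K.bil v v)⁻¹ • (v + (-δ) • w) := ⟨_, rfl⟩
  have heT : e ∈ K.Tl K.lam := by
    rw [he]; exact Submodule.add_mem _ hvT (Submodule.smul_mem _ _ hwT)
  have hfT : f ∈ K.Tl K.lam := by
    rw [hf]; exact Submodule.smul_mem _ _ (Submodule.add_mem _ hvT (Submodule.smul_mem _ _ hwT))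
  have hwv : K.bil w v = 0 := by rw [E5X.bil_comm, hvw]
  have h1 : K.bil e e = 0 := by
    rw [he]
    simp only [E5X.bil_add_left, E5X.bil_add_right, E5X.bil_smul_left, E5X.bil_smul_right, hvw, hwv]
    linear_combination hδ'
  have h3 : K.bil e f = 1 := by
    rw [he, hf]
    simp only [E5X.bil_add_left, E5X.bil_add_right, E5X.bil_smul_left, E5X.bil_smul_right, hvw, hwv]
    field_simp
    linear_combination -hδ'
  have hp : ((1 / 2 : ℂ) • (K.cl e * K.cl f)) * ((1 / 2 : ℂ) • (K.cl e * K.cl f)) =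
      (1 / 2 : ℂ) • (K.cl e * K.cl f) := by
    have h5 : K.cl f * K.cl e = (2 : ℂ) • (1 : Matrix (Idx g) (Idx g) ℂ) - K.cl e * K.cl f := by
      have := hr e f
      rw [h3, mul_one] at this
      rw [← this]; abel
    have h6 : K.cl e * K.cl f * (K.cl e * K.cl f) = (2 : ℂ) • (K.cl e * K.cl f) := by
      calc K.cl e * K.cl f * (K.cl e * K.cl f) = K.cl e * (K.cl f * K.cl e) * K.cl f := by
            simp only [mul_assoc]
        _ = _ := by
          rw [h5, mul_sub, sub_mul, mul_smul_comm, mul_one, smul_mul_assoc, ← mul_assoc,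
            E5X.sq hr e, h1, zero_smul, zero_mul, zero_mul, sub_zero]
    rw [smul_mul_smul_comm, h6, smul_smul]
    norm_num
  refine ⟨(2 * Real.pi * Complex.I : ℂ) • E5L.wm K e f,
    K.S.smul_mem _ (E5L.wm_mem K heT hfT), ?_⟩
  rw [E5X.Z_smul, E10B.Z_wm, h3, one_smul, ← exp_idem _ hp]
  congr 2
  rw [smul_sub]

end Pool.Agent.K3M
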