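import Pool.Agent.K3C.Assembly2
import Pool.Agent.K3P.Assembly
import Pool.Agent.K3M.NF
import Pool.Agent.K3M.N0
import Pool.Agent.K3M.NL
import Pool.Agent.K3M.NN
import Pool.Agent.K3M.ND
import Pool.Agent.K3M.NP
import Pool.Agent.K3M.NT
import Pool.Agent.K3M.NE
import Pool.Agent.K3M.NC
import Pool.Agent.K3M.NS
import Pool.Agent.K3M.NG
import Pool.Agent.K3M.XM
import Pool.Agent.K3E.Assembly2
import Pool.Agent.K3M.JT
import Pool.Agent.K3M.M5c
import Pool.Agent.K3M.M5d
import Pool.Agent.K3M.M7x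
import Pool.Agent.K3M.M8a
import Pool.Agent.K3M.M8b

/-!
# De Rham-Betti conjecture for products of Kuga-Satake varieties, real and complex multiplication: assembly
-/

namespace Pool.Agent.K3M

open Pool.Agent.DRB Pool.Agent.K3D Pool.Agent.K3E Pool.Agent.K3C Pool.Agent.K3P

theorem m5cC : Stmt_M5c := M5c_proof descqC c2dC

theorem m5dC : Stmt_M5d := M5d_proof descqC k2cC c2dC c5aC c5vC c5bC m5cC C5l_proof

theorem m7xC : Stmt_M7x := M7x_proof descqC k2cC c2dC c5vC C5l_proof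

theorem m8aC : Stmt_M8a := M8a_proof c2dC c5aC

theorem m8bC : Stmt_M8b := M8b_proof k2cC C7_proof m7xC c2dC c5aC c5vC m5dC m8aC

theorem n0C : Stmt_N0 :=
  N0_proof gb4_proof k2aC k2b_proof k2cC e2dC E5a_proof e5vC p8bC pqC c2dC c5vC m8bC

theorem nlC : Stmt_NL := NL_proof pqC e2dC E5a_proof c2dC c5aC

theorem nnC : Stmt_NN := NN_proof leg_proof k2cC e2dC E5a_proof e5vC e8bC e8cC c2dC phC GA_proof

theorem npC : Stmt_NP := NP_proof E5l_proof PM_proof

theorem nqC : Stmt_NQ := NQ_proof gpC E5l_proof npC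

theorem ndC : Stmt_ND := ND_proof

theorem nfC : Stmt_NF := NF_proof piC leg_proof gb2_proof k2aC k2cC E5a_proof e5vC c5aC c5vC

theorem ntC : Stmt_NT :=
  NT_proof k1C k3_proof k2aC k2b_proof gb4_proof k2cC e2dC E5a_proof e5vC c2dC c5aC c5vC c5wC pqC

theorem neC : Stmt_NE :=
  NE_proof n0C leg_proof k1C k2aC k2b_proof gb4_proof k2cC k3_proof E5a_proof c5aC c5wC

/-- The main theorem, given NC. -/
theorem mainM_of (hNC : Stmt_NC) : MainM :=
  MainM_of n0C nlC nnC nqC hNC ndC ntC neC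
    (fun _ _ _ _ _ _ D _ _ K₁ _ _ K₂ c1 c2 H1 H2 =>
      NW_proof k1C homx_proof tauC leg_proof k2aC k2cC e2dC c2dC E5a_proof e5vC c5aC c5vC D K₁ K₂ c1 c2 H1 H2)
    nfC

theorem xeC : Stmt_XE := XE_proof descqC E5l_proof E5a_proof

theorem xcC : Stmt_XC := XC_proof c5aC c5vC C10x_proof

theorem ngC : Stmt_NG :=
  NG_proof (SPH.gb3t_proof descaC) descqC gb1C pos2C leg_proof gb2_proof (rev_proof leg_proof) k2aC e2dC c2dC
    xeC xcC (MinE_proof E5l_proof) MinC_proof

/-- The main theorem with the group, given NC. -/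
theorem mainM2_of (hNC : Stmt_NC) : MainM2 :=
  MainM2_of n0C nlC nnC nqC hNC ndC ntC neC
    (fun _ _ _ _ _ _ D _ _ K₁ _ _ K₂ c1 c2 H1 H2 =>
      NW_proof k1C homx_proof tauC leg_proof k2aC k2cC e2dC c2dC E5a_proof e5vC c5aC c5vC D K₁ K₂ c1 c2 H1 H2)
    nfC ngC

/-- The main theorem, base form. -/
theorem mainM : MainM := mainM_of (NC_proof NS_proof)

/-- The main theorem with the group, base form. -/
theorem mainM2 : MainM2 := mainM2_of (NC_proof NS_proof)

end Pool.Agent.K3M
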