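import Pool.Agent.K3P.GP

/-!
# GP for one pair of factors (no hypothesis on the dimensions of the other factors)
-/

open scoped BigOperators
open Matrix Polynomial

namespace Pool.Agent.K3M

open Pool.Agent.DRB Pool.Agent.K3D Pool.Agent.K3E Pool.Agent.K3P Pool.Agent.K3D.K7w Pool.Agent.K3D.K7x

noncomputable section

/-- GP for one pair. -/
def Stmt_GPp : Prop :=
  ∀ (r : ℕ) (h : Fin r → ℕ) (B : ∀ i, AbVar (h i)) (n m : Fin r → ℕ) (K : ∀ i, KSE (B i) (n i) (m i))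
    (d : (∀ i, Matrix (Fin (n i)) (Fin (n i)) ℂ) → Prop), TupAlg K d → TupLog d →
    ∀ i j, i ≠ j → (m i = 3 ∨ 6 ≤ m i) → (m j = 3 ∨ 6 ≤ m j) →
    (∀ x ∈ E8Y.V0 (K i), ∀ y ∈ E8Y.V0 (K i), ∃ a : (∀ k, Matrix (Fin (n k)) (Fin (n k)) ℝ),
      d (fun k => (a k).map Complex.ofReal) ∧
      (∀ v ∈ E8Y.V0 (K i), a i *ᵥ v =
        (∑ k, ((K i).q k : ℝ) * y k * v k) • x - (∑ k, ((K i).q k : ℝ) * x k * v k) • y) ∧
      ∀ w ∈ E8Y.V0 (K j), a j *ᵥ w = 0) ∨
    (∃ (ψ : E8Y.V0 (K i) ≃ₗ[ℝ] E8Y.V0 (K j)) (c : ℝ), c ≠ 0 ∧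
      (∀ x y : E8Y.V0 (K i), ∑ k, ((K j).q k : ℝ) * (ψ x : Fin (n j) → ℝ) k * (ψ y : Fin (n j) → ℝ) k =
        c * ∑ k, ((K i).q k : ℝ) * (x : Fin (n i) → ℝ) k * (y : Fin (n i) → ℝ) k) ∧
      ∀ a : (∀ k, Matrix (Fin (n k)) (Fin (n k)) ℝ), d (fun k => (a k).map Complex.ofReal) →
        ∀ x y : E8Y.V0 (K i), (y : Fin (n i) → ℝ) = a i *ᵥ (x : Fin (n i) → ℝ) →
          (ψ y : Fin (n j) → ℝ) = a j *ᵥ (ψ x : Fin (n j) → ℝ))

namespace GP4X

open GPX

open K8X (exp_ofReal)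
open K8Y (exp_gen)

section tup

variable {r : ℕ} {h : Fin r → ℕ} {B : ∀ i, AbVar (h i)} {n m : Fin r → ℕ}
  (K : ∀ i, KSE (B i) (n i) (m i)) {d : (∀ i, Matrix (Fin (n i)) (Fin (n i)) ℂ) → Prop}

/-- the pair hypotheses -/
theorem pairHyp (F : TupAlg K d) (Lg : TupLog d)
    (hE5l : Stmt_E5l) (i j : Fin r) (hmi : m i = 3 ∨ 6 ≤ m i) (hmj : m j = 3 ∨ 6 ≤ m j) {ε ε' : ℝ} (D : Data (K i) ε) (D' : Data (K j) ε') :
    PairHyp (E8Y.V0 (K i)) (E8Y.V0 (K j)) (B0 (Bq fun k => ε * qR (K i) k) (E8Y.V0 (K i)))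
      (B0 (Bq fun k => ε' * qR (K j) k) (E8Y.V0 (K j))) (lij K F i j) := by
  have h3i : 3 ≤ m i := by omega
  have h3j : 3 ≤ m j := by omega
  refine ⟨D.symm, D'.symm, D.nondeg, D'.nondeg, D.pos, D'.pos, ?_, ?_, ?_, ?_, ?_, ?_, ?_, ?_⟩
  · rw [E8Y.finrank_V0 (K i) h3i hE5l]; exact hmi
  · rw [E8Y.finrank_V0 (K j) h3j hE5l]; exact hmj
  · rintro ⟨p, p'⟩ ⟨a, ha, h1, h2⟩ x y
    rw [B0_apply, B0_apply, h1, h1]
    exact skew (K i) (F.mem _ ha i) ε _ _
  · rintro ⟨p, p'⟩ ⟨a, ha, h1, h2⟩ x y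
    rw [B0_apply, B0_apply, h2, h2]
    exact skew (K j) (F.mem _ ha j) ε' _ _
  · rintro ⟨p, p'⟩ ⟨a, ha, h1, h2⟩ ⟨s, s'⟩ ⟨b, hb, h3, h4⟩
    refine ⟨fun k => a k * b k - b k * a k, ?_, fun x => ?_, fun x => ?_⟩
    · have h5 := F.brk _ _ ha hb
      convert h5 using 2 with k
      have e1 : ((a k * b k - b k * a k).map Complex.ofReal) =
          (a k * b k).map Complex.ofReal - (b k * a k).map Complex.ofReal := by
        ext i j; simp
      rw [e1, E8Y.map_mul_real, E8Y.map_mul_real]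
    · show ((p * s - s * p) x : Fin (n i) → ℝ) = _
      rw [LinearMap.sub_apply, Module.End.mul_apply, Module.End.mul_apply, Submodule.coe_sub]
      dsimp only at h1 h3
      rw [h1, h3, h3, h1, Matrix.sub_mulVec, ← Matrix.mulVec_mulVec, ← Matrix.mulVec_mulVec]
    · show ((p' * s' - s' * p') x : Fin (n j) → ℝ) = _
      rw [LinearMap.sub_apply, Module.End.mul_apply, Module.End.mul_apply, Submodule.coe_sub]
      dsimp only at h2 h4
      rw [h2, h4, h4, h2, Matrix.sub_mulVec, ← Matrix.mulVec_mulVec, ← Matrix.mulVec_mulVec]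
  · exact fun a ha => onto1 K F i j D a ha
  · intro a ha
    obtain ⟨a', h1⟩ := onto1 K F j i D' a ha
    exact ⟨a', lij_swap K F j i h1⟩
  · rintro ⟨p, p'⟩ ⟨a, ha, h1, h2⟩ htop
    obtain ⟨u, hu, hul⟩ := Lg a ha
    have hi := hypq (hypPart_of_log (hul i))
    have hj := hypq (hypPart_of_log (hul j))
    have hpj : ∀ v ∈ E8Y.V0 (K j), Matrix.toLin' (u j) v ∈ E8Y.V0 (K j) := fun v hv => by
      rw [Matrix.toLin'_apply]; exact pres (K j) (F.mem _ hu j) hv
    refine ⟨(Matrix.toLin' (u j)).restrict hpj, ⟨u, hu, ?_, fun x => ?_⟩, ?_⟩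
    · intro x
      dsimp only
      have hx : x ∈ ⨆ c : ℝ, Module.End.eigenspace p c := by rw [htop]; exact Submodule.mem_top
      refine Submodule.iSup_induction _ (motive := fun x => (p x : Fin (n i) → ℝ) =
        u i *ᵥ (x : Fin (n i) → ℝ)) hx ?_ ?_ ?_
      · intro c y hy
        rw [Module.End.mem_eigenspace_iff] at hy
        have h3 : Matrix.toLin' (a i) (y : Fin (n i) → ℝ) = c • (y : Fin (n i) → ℝ) := by
          rw [Matrix.toLin'_apply, ← h1]
          show (p y : Fin (n i) → ℝ) = _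
          rw [hy]; rfl
        have h4 := hi.2 c _ h3
        rw [Matrix.toLin'_apply] at h4
        rw [h4, hy]; rfl
      · rw [map_zero, Submodule.coe_zero, Matrix.mulVec_zero]
      · intro y z hy hz
        rw [map_add, Submodule.coe_add, hy, hz, Submodule.coe_add, Matrix.mulVec_add]
    · rfl
    · exact Module.End.genEigenspace_restrict_eq_top (f := Matrix.toLin' (u j)) (k := 1) hpj hj.1

end tup

end GP4X

open GPX in
/-- GP for one pair. -/
theorem GPp_proof (hPR : Stmt_PR) (hE5l : Stmt_E5l) : Stmt_GPp := by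
  intro r h B n m K d F Lg i j hij hmi hmj
  have h3i : 3 ≤ m i := by omega
  have h3j : 3 ≤ m j := by omega
  obtain ⟨ε, D⟩ := exists_data (K i) h3i
  obtain ⟨ε', D'⟩ := exists_data (K j) h3j
  have hε0 : ε * ε = 1 := by rcases D.e0 with h | h <;> rw [h] <;> norm_num
  have hε0' : ε' * ε' = 1 := by rcases D'.e0 with h | h <;> rw [h] <;> norm_num
  have hsum : ∀ x y : Fin (n i) → ℝ, Bq (fun k => ε * qR (K i) k) x y =
      ε * ∑ k, qR (K i) k * x k * y k := by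
    intro x y
    rw [Bq_apply, Finset.mul_sum]
    exact Finset.sum_congr rfl fun k _ => by ring
  have hsum' : ∀ x y : Fin (n j) → ℝ, Bq (fun k => ε' * qR (K j) k) x y =
      ε' * ∑ k, qR (K j) k * x k * y k := by
    intro x y
    rw [Bq_apply, Finset.mul_sum]
    exact Finset.sum_congr rfl fun k _ => by ring
  rcases hPR (E8Y.V0 (K i)) (E8Y.V0 (K j)) _ _ _ (GP4X.pairHyp K F Lg hE5l i j hmi hmj D D') with h1 | ⟨ψ, c, hc, h1, h2⟩
  · left
    intro x hx y hy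
    obtain ⟨a, ha, h3, h4⟩ := h1 (wd (B0 (Bq fun k => ε * qR (K i) k) (E8Y.V0 (K i))) ⟨x, hx⟩ ⟨y, hy⟩)
      (fun u v => by
        rw [wd_skew D.symm]; ring)
    refine ⟨fun k => ε • a k, ?_, ?_, ?_⟩
    · have h5 := F.lin _ _ ε F.zero ha
      convert h5 using 2 with k
      ext i j; simp
    · intro v hv
      have h5 := h3 ⟨v, hv⟩
      dsimp only at h5
      rw [Matrix.smul_mulVec, ← h5, wd_apply, B0_apply, B0_apply, hsum, hsum]
      simp only [Submodule.coe_sub, Submodule.coe_smul, qR]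
      rw [smul_sub, smul_smul, smul_smul, ← mul_assoc, ← mul_assoc, hε0, one_mul, one_mul]
    · intro w hw
      have h5 := h4 ⟨w, hw⟩
      dsimp only at h5
      rw [Matrix.smul_mulVec, ← h5]
      simp
  · right
    refine ⟨ψ, ε' * (c * ε), ?_, ?_, ?_⟩
    · intro h0
      have hε : ε ≠ 0 := fun h => by rw [h] at hε0; simp at hε0
      have hε' : ε' ≠ 0 := fun h => by rw [h] at hε0'; simp at hε0'
      exact (mul_ne_zero hε' (mul_ne_zero hc.ne' hε)) h0
    · intro x y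
      have h3 := h1 x y
      rw [B0_apply, B0_apply, hsum, hsum'] at h3
      simp only [qR] at h3
      have h4 := congrArg (fun s => ε' * s) h3
      rw [← mul_assoc, hε0', one_mul] at h4
      rw [h4]; ring
    · intro a ha x y hxy
      let p : Module.End ℝ (E8Y.V0 (K i)) := (Matrix.toLin' (a i)).restrict (fun v hv => by
        rw [Matrix.toLin'_apply]; exact pres (K i) (F.mem _ ha i) hv)
      let p' : Module.End ℝ (E8Y.V0 (K j)) := (Matrix.toLin' (a j)).restrict (fun v hv => by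
        rw [Matrix.toLin'_apply]; exact pres (K j) (F.mem _ ha j) hv)
      have h3 := h2 (p, p') ⟨a, ha, fun x => rfl, fun x => rfl⟩ x
      have h4 : p x = y := Subtype.ext hxy.symm
      dsimp only at h3
      rw [h4] at h3
      rw [← h3]
      rfl

end

end Pool.Agent.K3M
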