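import Pool.Agent.K3M.HDefs

/-!
# H2: Goursat for three-dimensional quotients
-/

set_option autoImplicit false

open scoped BigOperators
open Matrix

namespace Pool.Agent.K3M

noncomputable section

namespace H2X

/-- every vector is a sum of three cross products -/
theorem cross_span (u : Fin 3 → ℂ) : ∃ a b : Fin 3 → (Fin 3 → ℂ),
    u = ∑ l, crossProduct (a l) (b l) := by
  refine ⟨![![0, u 0, 0], ![0, 0, u 1], ![u 2, 0, 0]], ![![0, 0, 1], ![1, 0, 0], ![0, 1, 0]], ?_⟩
  funext i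
  rw [Fin.sum_univ_three, cross_apply, cross_apply, cross_apply]
  fin_cases i <;> simp

/-- ideals of the three-dimensional Lie algebra -/
theorem ideal (W : Submodule ℂ (Fin 3 → ℂ)) (hW : ∀ v, ∀ w ∈ W, crossProduct v w ∈ W) {w : Fin 3 → ℂ}
    (hw : w ∈ W) (h0 : w ≠ 0) : W = ⊤ := by
  have h1 : ∀ v v' : Fin 3 → ℂ, crossProduct v (crossProduct v' w) ∈ W := fun v v' =>
    hW _ _ (hW _ _ hw)
  have e0 : ∀ c : ℂ, ![c, 0, 0] ∈ W → c ≠ 0 → (![1, 0, 0] : Fin 3 → ℂ) ∈ W := by
    intro c hc hc0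
    have := W.smul_mem c⁻¹ hc
    simpa [hc0] using this
  have e1 : ∀ c : ℂ, ![0, c, 0] ∈ W → c ≠ 0 → (![0, 1, 0] : Fin 3 → ℂ) ∈ W := by
    intro c hc hc0
    have := W.smul_mem c⁻¹ hc
    simpa [hc0] using this
  have e2 : ∀ c : ℂ, ![0, 0, c] ∈ W → c ≠ 0 → (![0, 0, 1] : Fin 3 → ℂ) ∈ W := by
    intro c hc hc0
    have := W.smul_mem c⁻¹ hc
    simpa [hc0] using this
  have c01 : (![1, 0, 0] : Fin 3 → ℂ) ∈ W → (![0, 1, 0] : Fin 3 → ℂ) ∈ W := by
    intro h
    have := hW ![0, 0, 1] _ h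
    rw [cross_apply] at this
    simpa using this
  have c12 : (![0, 1, 0] : Fin 3 → ℂ) ∈ W → (![0, 0, 1] : Fin 3 → ℂ) ∈ W := by
    intro h
    have := hW ![1, 0, 0] _ h
    rw [cross_apply] at this
    simpa using this
  have c20 : (![0, 0, 1] : Fin 3 → ℂ) ∈ W → (![1, 0, 0] : Fin 3 → ℂ) ∈ W := by
    intro h
    have := hW ![0, 1, 0] _ h
    rw [cross_apply] at this
    simpa using this
  have key : (![1, 0, 0] : Fin 3 → ℂ) ∈ W → W = ⊤ := by
    intro h
    have k1 := c01 h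
    have k2 := c12 k1
    rw [eq_top_iff]
    intro u _
    have h3 := W.add_mem (W.add_mem (W.smul_mem (u 0) h) (W.smul_mem (u 1) k1)) (W.smul_mem (u 2) k2)
    have h4 : u 0 • (![1, 0, 0] : Fin 3 → ℂ) + u 1 • ![0, 1, 0] + u 2 • ![0, 0, 1] = u := by
      funext i
      fin_cases i <;> simp
    rwa [h4] at h3
  by_cases hw0 : w 0 = 0
  · by_cases hw1 : w 1 = 0
    · have hw2 : w 2 ≠ 0 := by
        intro h
        apply h0
        funext i
        fin_cases i <;> simp_all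
      have h3 := h1 ![0, 0, 1] ![1, 0, 0]
      rw [cross_apply, cross_apply] at h3
      refine key (e0 (w 2) ?_ hw2)
      simpa using h3
    · have h3 := h1 ![0, 1, 0] ![1, 0, 0]
      rw [cross_apply, cross_apply] at h3
      refine key (e0 (w 1) ?_ hw1)
      simpa using h3
  · have h3 := h1 ![1, 0, 0] ![0, 1, 0]
    rw [cross_apply, cross_apply] at h3
    refine key (c20 (c12 (e1 (w 0) ?_ hw0)))
    simpa using h3

/-- from single to joint surjectivity -/
theorem joint {V : Type} [AddCommGroup V] [Module ℂ V] (br : V → V → V) (k : ℕ)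
    (X : Fin k → V →ₗ[ℂ] (Fin 3 → ℂ)) (hX : ∀ i u v, X i (br u v) = crossProduct (X i u) (X i v))
    (hon : ∀ u : Fin k → (Fin 3 → ℂ), ∃ t, ∀ i, X i t = u i) (N : Submodule ℂ V)
    (hN : ∀ s, ∀ t ∈ N, br s t ∈ N) (h1 : ∀ i u, ∃ t ∈ N, X i t = u) (u : Fin k → (Fin 3 → ℂ)) :
    ∃ t ∈ N, ∀ i, X i t = u i := by
  classical
  let Xa : V →ₗ[ℂ] (Fin k → (Fin 3 → ℂ)) := LinearMap.pi X
  let W := N.map Xa
  have hs : ∀ i (v : Fin 3 → ℂ), Pi.single i v ∈ W := by
    intro i v
    obtain ⟨a, b, rfl⟩ := cross_span v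
    have h2 : (Pi.single i (∑ l, crossProduct (a l) (b l)) : Fin k → (Fin 3 → ℂ)) =
        ∑ l, Pi.single i (crossProduct (a l) (b l)) := by
      exact map_sum (LinearMap.single ℂ (fun _ : Fin k => Fin 3 → ℂ) i) _ _
    rw [h2]
    refine Submodule.sum_mem _ fun l _ => ?_
    obtain ⟨t, ht, hti⟩ := h1 i (b l)
    obtain ⟨s, hs⟩ := hon (Pi.single i (a l))
    refine ⟨br s t, hN s t ht, ?_⟩
    funext j
    show X j (br s t) = _
    rw [hX, hs]
    by_cases hj : j = i
    · subst hj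
      rw [Pi.single_eq_same, Pi.single_eq_same, hti]
    · rw [Pi.single_eq_of_ne hj, Pi.single_eq_of_ne hj, map_zero, LinearMap.zero_apply]
  have h3 : u ∈ W := by
    rw [← Finset.univ_sum_single u]
    exact Submodule.sum_mem _ fun i _ => hs i (u i)
  obtain ⟨t, ht, h4⟩ := h3
  exact ⟨t, ht, fun i => congrFun h4 i⟩

end H2X

open H2X

theorem H2_proof : Stmt_H2 := by
  classical
  intro V _ _ br k k' X Y hX hY hXon hYon
  have hX1 : ∀ i u, ∃ t, X i t = u := fun i u => by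
    obtain ⟨t, ht⟩ := hXon fun _ => u
    exact ⟨t, ht i⟩
  have hY1 : ∀ i u, ∃ t, Y i t = u := fun i u => by
    obtain ⟨t, ht⟩ := hYon fun _ => u
    exact ⟨t, ht i⟩
  by_cases hcase : ∃ i j, ∀ t, X i t = 0 → Y j t = 0
  · right
    obtain ⟨i, j, hij⟩ := hcase
    obtain ⟨g, hg⟩ := (X i).exists_rightInverse_of_surjective (LinearMap.range_eq_top.2 (hX1 i))
    have hg' : ∀ u, X i (g u) = u := fun u => congrArg (fun f => f u) hg
    let φ : (Fin 3 → ℂ) →ₗ[ℂ] (Fin 3 → ℂ) := (Y j).comp g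
    have hφ : ∀ t, Y j t = φ (X i t) := by
      intro t
      have h1 := hij (t - g (X i t)) (by rw [map_sub, hg', sub_self])
      rw [map_sub, sub_eq_zero] at h1
      exact h1
    have hs : Function.Surjective φ := by
      intro u
      obtain ⟨t, ht⟩ := hY1 j u
      exact ⟨X i t, by rw [← hφ, ht]⟩
    have hi : Function.Injective φ := LinearMap.injective_iff_surjective.2 hs
    refine ⟨i, j, LinearEquiv.ofBijective φ ⟨hi, hs⟩, ?_, hφ⟩
    intro u v
    obtain ⟨s, rfl⟩ := hX1 i u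
    obtain ⟨t, rfl⟩ := hX1 i v
    simp only [LinearEquiv.ofBijective_apply]
    rw [← hX, ← hφ, ← hφ, ← hφ, hY]
  · left
    push Not at hcase
    have hmul0 : ∀ v : Fin 3 → ℂ, crossProduct v (0 : Fin 3 → ℂ) = 0 := fun v => map_zero _
    -- images of the kernels
    have h1 : ∀ i j u, ∃ t, X i t = 0 ∧ Y j t = u := by
      intro i j u
      obtain ⟨t₀, ht₀, ht₀'⟩ := hcase i j
      have h2 : (LinearMap.ker (X i)).map (Y j) = ⊤ := H2X.ideal ((LinearMap.ker (X i)).map (Y j)) (by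
        rintro v _ ⟨t, ht, rfl⟩
        obtain ⟨s, rfl⟩ := hY1 j v
        refine ⟨br s t, ?_, hY j s t⟩
        have ht' : X i t = 0 := ht
        show X i (br s t) = 0
        rw [hX, ht', hmul0]) ⟨t₀, ht₀, rfl⟩ ht₀'
      have h3 : u ∈ (LinearMap.ker (X i)).map (Y j) := by rw [h2]; exact Submodule.mem_top
      obtain ⟨t', ht', h4⟩ := h3
      exact ⟨t', ht', h4⟩
    have h2 : ∀ i, ∀ u : Fin k' → (Fin 3 → ℂ), ∃ t ∈ LinearMap.ker (X i), ∀ j, Y j t = u j := by
      intro i u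
      refine joint br k' Y hY hYon (LinearMap.ker (X i)) (fun s t ht => ?_) (fun j u => ?_) u
      · have ht' : X i t = 0 := ht
        show X i (br s t) = 0
        rw [hX, ht', hmul0]
      · obtain ⟨t, ht, h⟩ := h1 i j u
        exact ⟨t, ht, h⟩
    intro u
    obtain ⟨t, ht, h3⟩ := joint br k X hX hXon (LinearMap.ker (LinearMap.pi Y)) (fun s t ht => by
        have ht' : ∀ j, Y j t = 0 := fun j => congrFun ht j
        show LinearMap.pi Y (br s t) = 0
        funext j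
        show Y j (br s t) = 0
        rw [hY, ht', hmul0]) (fun i u => by
        obtain ⟨t, ht⟩ := hX1 i u
        obtain ⟨t', ht', h3⟩ := h2 i fun j => Y j t
        have ht'' : X i t' = 0 := ht'
        refine ⟨t - t', ?_, ?_⟩
        · show LinearMap.pi Y (t - t') = 0
          funext j
          show Y j (t - t') = 0
          rw [map_sub, h3, sub_self]
        · rw [map_sub, ht, ht'', sub_zero]) u
    exact ⟨t, h3, fun j => congrFun ht j⟩

end

end Pool.Agent.K3M
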