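import Pool.Agent.K3M.HDefs

/-!
# H3: averages over quaternion groups
-/

set_option autoImplicit false
set_option linter.unusedSectionVars false
set_option linter.unusedSimpArgs false

open scoped BigOperators
open Matrix

namespace Pool.Agent.K3M

noncomputable section

namespace H3X

variable {κ κ' : Type} [Fintype κ] [DecidableEq κ] [Fintype κ'] [DecidableEq κ']

/-- quaternion units -/
structure Quat (e I J K : Matrix κ κ ℂ) : Prop where
  ee : e * e = e
  eI : e * I = I
  eJ : e * J = J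
  eK : e * K = K
  Ie : I * e = I
  Je : J * e = J
  Ke : K * e = K
  II : I * I = -e
  JJ : J * J = -e
  KK : K * K = -e
  IJ : I * J = K
  JK : J * K = I
  KI : K * I = J
  JI : J * I = -K
  KJ : K * J = -I
  IK : I * K = -J

theorem quat {e : Matrix κ κ ℂ} {P : (Fin 3 → ℂ) →ₗ[ℂ] Matrix κ κ ℂ} (h : QRel e P) :
    Quat e (P ![2, 0, 0]) (P ![0, 2, 0]) (P ![0, 0, 2]) := by
  have key : ∀ u v w : Fin 3 → ℂ, (1 / 2 : ℂ) • crossProduct u v = w → ∀ c : ℂ,
      -(1 / 4 : ℂ) * (u ⬝ᵥ v) = c → P u * P v = c • e + P w := by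
    intro u v w hw c hc
    rw [h.mul, hc, ← hw, map_smul]
  refine ⟨h.idem, h.eP _, h.eP _, h.eP _, h.Pe _, h.Pe _, h.Pe _, ?_, ?_, ?_, ?_, ?_, ?_, ?_, ?_, ?_⟩
  · rw [key _ _ 0 (by rw [cross_apply]; ext i; fin_cases i <;> simp) (-1)
      (by simp [dotProduct, Fin.sum_univ_three]; norm_num), map_zero, add_zero, neg_one_smul]
  · rw [key _ _ 0 (by rw [cross_apply]; ext i; fin_cases i <;> simp) (-1)
      (by simp [dotProduct, Fin.sum_univ_three]; norm_num), map_zero, add_zero, neg_one_smul]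
  · rw [key _ _ 0 (by rw [cross_apply]; ext i; fin_cases i <;> simp) (-1)
      (by simp [dotProduct, Fin.sum_univ_three]; norm_num), map_zero, add_zero, neg_one_smul]
  · rw [key _ _ ![0, 0, 2] (by rw [cross_apply]; ext i; fin_cases i <;> simp) 0
      (by simp [dotProduct, Fin.sum_univ_three]), zero_smul, zero_add]
  · rw [key _ _ ![2, 0, 0] (by rw [cross_apply]; ext i; fin_cases i <;> simp) 0
      (by simp [dotProduct, Fin.sum_univ_three]), zero_smul, zero_add]
  · rw [key _ _ ![0, 2, 0] (by rw [cross_apply]; ext i; fin_cases i <;> simp) 0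
      (by simp [dotProduct, Fin.sum_univ_three]), zero_smul, zero_add]
  · rw [key _ _ (-![0, 0, 2]) (by rw [cross_apply]; ext i; fin_cases i <;> simp) 0
      (by simp [dotProduct, Fin.sum_univ_three]), zero_smul, zero_add, map_neg]
  · rw [key _ _ (-![2, 0, 0]) (by rw [cross_apply]; ext i; fin_cases i <;> simp) 0
      (by simp [dotProduct, Fin.sum_univ_three]), zero_smul, zero_add, map_neg]
  · rw [key _ _ (-![0, 2, 0]) (by rw [cross_apply]; ext i; fin_cases i <;> simp) 0
      (by simp [dotProduct, Fin.sum_univ_three]), zero_smul, zero_add, map_neg]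

/-- The average. -/
def av (I J K : Matrix κ κ ℂ) (I' J' K' : Matrix κ' κ' ℂ) (X : Matrix κ' κ ℂ) : Matrix κ' κ ℂ :=
  X - I' * (X * I) - J' * (X * J) - K' * (X * K)

variable {e I J K : Matrix κ κ ℂ} {e' I' J' K' : Matrix κ' κ' ℂ}

theorem lft (h : Quat e' I' J' K') (Y : Matrix κ' κ ℂ) (hY : e' * Y = Y) :
    I' * (I' * Y) = -Y ∧ J' * (J' * Y) = -Y ∧ K' * (K' * Y) = -Y ∧
    I' * (J' * Y) = K' * Y ∧ J' * (K' * Y) = I' * Y ∧ K' * (I' * Y) = J' * Y ∧
    J' * (I' * Y) = -(K' * Y) ∧ K' * (J' * Y) = -(I' * Y) ∧ I' * (K' * Y) = -(J' * Y) := by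
  refine ⟨?_, ?_, ?_, ?_, ?_, ?_, ?_, ?_, ?_⟩
  · rw [← Matrix.mul_assoc, h.II, Matrix.neg_mul, hY]
  · rw [← Matrix.mul_assoc, h.JJ, Matrix.neg_mul, hY]
  · rw [← Matrix.mul_assoc, h.KK, Matrix.neg_mul, hY]
  · rw [← Matrix.mul_assoc, h.IJ]
  · rw [← Matrix.mul_assoc, h.JK]
  · rw [← Matrix.mul_assoc, h.KI]
  · rw [← Matrix.mul_assoc, h.JI, Matrix.neg_mul]
  · rw [← Matrix.mul_assoc, h.KJ, Matrix.neg_mul]
  · rw [← Matrix.mul_assoc, h.IK, Matrix.neg_mul]

theorem av_int (h : Quat e I J K) (h' : Quat e' I' J' K') (X : Matrix κ' κ ℂ) (hX : e' * X = X)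
    (hX' : X * e = X) : I' * av I J K I' J' K' X = av I J K I' J' K' X * I ∧
    J' * av I J K I' J' K' X = av I J K I' J' K' X * J ∧
    K' * av I J K I' J' K' X = av I J K I' J' K' X * K := by
  have lX : ∀ B : Matrix κ κ ℂ, e' * (X * B) = X * B := fun B => by rw [← Matrix.mul_assoc, hX]
  have h1 : I' * av I J K I' J' K' X = av I J K I' J' K' X * I := by
    unfold av
    simp only [Matrix.mul_sub, Matrix.sub_mul, Matrix.mul_assoc, h.II, h.JI, h.KI, h.IK, Matrix.mul_neg,
      hX', (lft h' _ (lX I)).1, (lft h' _ (lX J)).2.2.2.1, (lft h' _ (lX K)).2.2.2.2.2.2.2.2]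
    abel
  have h2 : J' * av I J K I' J' K' X = av I J K I' J' K' X * J := by
    unfold av
    simp only [Matrix.mul_sub, Matrix.sub_mul, Matrix.mul_assoc, h.IJ, h.JJ, h.KJ, Matrix.mul_neg,
      hX', (lft h' _ (lX I)).2.2.2.2.2.2.1, (lft h' _ (lX J)).2.1, (lft h' _ (lX K)).2.2.2.2.1]
    abel
  refine ⟨h1, h2, ?_⟩
  calc K' * av I J K I' J' K' X = I' * (J' * av I J K I' J' K' X) := by
        rw [← Matrix.mul_assoc, h'.IJ]
    _ = I' * av I J K I' J' K' X * J := by rw [h2, Matrix.mul_assoc]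
    _ = av I J K I' J' K' X * K := by rw [h1, Matrix.mul_assoc, h.IJ]

theorem av_sum (h' : Quat e' I' J' K') (X : Matrix κ' κ ℂ) (hX : e' * X = X) :
    av I J K I' J' K' X - I' * av I J K I' J' K' (I' * X) - J' * av I J K I' J' K' (J' * X) -
      K' * av I J K I' J' K' (K' * X) = (4 : ℂ) • X := by
  have lX : ∀ B : Matrix κ κ ℂ, e' * (X * B) = X * B := fun B => by rw [← Matrix.mul_assoc, hX]
  unfold av
  obtain ⟨a1, a2, a3, a4, a5, a6, a7, a8, a9⟩ := lft h' X hX
  obtain ⟨b1, b2, b3, b4, b5, b6, b7, b8, b9⟩ := lft h' (X * I) (lX I)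
  obtain ⟨c1, c2, c3, c4, c5, c6, c7, c8, c9⟩ := lft h' (X * J) (lX J)
  obtain ⟨d1, d2, d3, d4, d5, d6, d7, d8, d9⟩ := lft h' (X * K) (lX K)
  simp only [Matrix.mul_sub, Matrix.mul_assoc, Matrix.mul_neg, a1, a2, a3, b1, b2, b3, b4, b5, b6, b7, b8,
    b9, c1, c2, c3, c4, c5, c6, c7, c8, c9, d1, d2, d3, d4, d5, d6, d7, d8, d9, neg_neg]
  have e4 : (4 : ℂ) • X = X + X + X + X := by
    rw [show (4 : ℂ) = 1 + 1 + 1 + 1 by norm_num, add_smul, add_smul, add_smul, one_smul]
  rw [e4]
  abel

end H3X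

open H3X

theorem H3_proof : Stmt_H3 := by
  classical
  intro ι κ κ' _ _ _ _ R e P e' P' E E' hE hE' hEe hEe' hr hr' hc hc'
  -- the start
  obtain ⟨F₀, hF₀, hF₀e, hF₀e'⟩ : ∃ F : Matrix κ' κ ℂ, F ≠ 0 ∧ (∀ z ∈ R, e' z * F = F) ∧
      ∀ z ∈ R, F * e z = F := by
    obtain ⟨a, b, hab⟩ : ∃ a b, E a b ≠ 0 := by
      by_contra hcon
      push Not at hcon
      exact hE (Matrix.ext hcon)
    obtain ⟨a', b', hab'⟩ : ∃ a b, E' a b ≠ 0 := by
      by_contra hcon
      push Not at hcon
      exact hE' (Matrix.ext hcon)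
    refine ⟨E' * (Matrix.single b' a (1 : ℂ)) * E, ?_, ?_, ?_⟩
    · intro h
      have h1 := congrFun (congrFun h a') b
      rw [Matrix.zero_apply, Matrix.mul_apply, Finset.sum_eq_single a] at h1
      · rw [Matrix.mul_single_apply_same, mul_one] at h1
        rcases mul_eq_zero.1 h1 with h2 | h2
        · exact hab' h2
        · exact hab h2
      · intro c _ hca
        rw [Matrix.mul_single_apply_of_ne _ _ _ _ _ hca, zero_mul]
      · intro h2
        exact absurd (Finset.mem_univ a) h2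
    · intro z hz
      rw [← Matrix.mul_assoc, ← Matrix.mul_assoc, hEe' z hz]
    · intro z hz
      rw [Matrix.mul_assoc, hEe z hz]
  -- induction on the places
  have key : ∀ T : Finset ι, T ⊆ R → ∃ F : Matrix κ' κ ℂ, F ≠ 0 ∧ (∀ z ∈ R, e' z * F = F) ∧
      (∀ z ∈ R, F * e z = F) ∧ ∀ z ∈ T, ∀ u, P' z u * F = F * P z u := by
    intro T
    induction T using Finset.induction_on with
    | empty => exact fun _ => ⟨F₀, hF₀, hF₀e, hF₀e', fun z hz => absurd hz (Finset.notMem_empty z)⟩
    | insert z T hzT ih =>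
      intro hT
      obtain ⟨F, hF, h1, h2, h3⟩ := ih fun w hw => hT (Finset.mem_insert_of_mem hw)
      have hz : z ∈ R := hT (Finset.mem_insert_self _ _)
      have Q := quat (hr z hz)
      have Q' := quat (hr' z hz)
      set I := P z ![2, 0, 0]
      set J := P z ![0, 2, 0]
      set K := P z ![0, 0, 2]
      set I' := P' z ![2, 0, 0]
      set J' := P' z ![0, 2, 0]
      set K' := P' z ![0, 0, 2]
      -- the candidates
      have cand : ∀ X : Matrix κ' κ ℂ, (∀ w ∈ R, e' w * X = X) → (∀ w ∈ R, X * e w = X) →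
          (∀ w ∈ T, ∀ u, P' w u * X = X * P w u) → av I J K I' J' K' X ≠ 0 →
          ∃ F : Matrix κ' κ ℂ, F ≠ 0 ∧ (∀ z ∈ R, e' z * F = F) ∧
          (∀ z ∈ R, F * e z = F) ∧ ∀ w ∈ insert z T, ∀ u, P' w u * F = F * P w u := by
        intro X x1 x2 x3 hne
        obtain ⟨i1, i2, i3⟩ := av_int Q Q' X (x1 z hz) (x2 z hz)
        -- left and right factors at other places
        have hL : ∀ (A' : Matrix κ' κ' ℂ) (A : Matrix κ κ ℂ), A' * X = X * A → A' * I' = I' * A' →
            A' * J' = J' * A' → A' * K' = K' * A' → A * I = I * A → A * J = J * A → A * K = K * A →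
            A' * av I J K I' J' K' X = av I J K I' J' K' X * A := by
          intro A' A a0 a1 a2 a3 a4 a5 a6
          unfold av
          simp only [Matrix.mul_sub, Matrix.sub_mul]
          congr 1
          · congr 1
            · congr 1
              rw [← Matrix.mul_assoc, a1, Matrix.mul_assoc, ← Matrix.mul_assoc A', a0]
              simp only [Matrix.mul_assoc]
              rw [a4]
            · rw [← Matrix.mul_assoc, a2, Matrix.mul_assoc, ← Matrix.mul_assoc A', a0]
              simp only [Matrix.mul_assoc]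
              rw [a5]
          · rw [← Matrix.mul_assoc, a3, Matrix.mul_assoc, ← Matrix.mul_assoc A', a0]
            simp only [Matrix.mul_assoc]
            rw [a6]
        refine ⟨_, hne, fun w hw => ?_, fun w hw => ?_, fun w hw u => ?_⟩
        · unfold av
          simp only [Matrix.mul_sub]
          by_cases hwz : w = z
          · subst hwz
            have t : ∀ (M : Matrix κ' κ' ℂ) (Y : Matrix κ' κ ℂ), e' w * M = M → e' w * (M * Y) = M * Y :=
              fun M Y h => by rw [← Matrix.mul_assoc, h]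
            rw [x1 w hw, t _ _ Q'.eI, t _ _ Q'.eJ, t _ _ Q'.eK]
          · have hq := hc' w hw z hz hwz
            have t : ∀ (M : Matrix κ' κ' ℂ) (B : Matrix κ κ ℂ), e' w * M = M * e' w →
                e' w * (M * (X * B)) = M * (X * B) :=
              fun M B h => by
                rw [← Matrix.mul_assoc, h, Matrix.mul_assoc, ← Matrix.mul_assoc (e' w), x1 w hw]
            rw [x1 w hw, t _ _ (hq.eP _), t _ _ (hq.eP _), t _ _ (hq.eP _)]
        · unfold av
          simp only [Matrix.sub_mul, Matrix.mul_assoc]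
          by_cases hwz : w = z
          · subst hwz
            rw [x2 w hw, Q.Ie, Q.Je, Q.Ke]
          · have hq := hc w hw z hz hwz
            have t : ∀ (M : Matrix κ' κ' ℂ) (B : Matrix κ κ ℂ), e w * B = B * e w →
                M * (X * (B * e w)) = M * (X * B) :=
              fun M B h => by
                rw [← h, ← Matrix.mul_assoc X, x2 w hw]
            rw [x2 w hw, t _ _ (hq.eP _), t _ _ (hq.eP _), t _ _ (hq.eP _)]
        · rcases Finset.mem_insert.1 hw with hwz | hwT
          · subst hwz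
            have hu : u = (u 0 / 2) • ![2, 0, 0] + (u 1 / 2) • ![0, 2, 0] + (u 2 / 2) • ![0, 0, 2] := by
              funext i
              fin_cases i <;> simp
            rw [hu]
            simp only [map_add, map_smul, Matrix.add_mul, Matrix.mul_add, Matrix.smul_mul,
              Matrix.mul_smul]
            rw [i1, i2, i3]
          · have hwz : w ≠ z := fun h => hzT (h ▸ hwT)
            have hwR : w ∈ R := hT (Finset.mem_insert_of_mem hwT)
            have hq := hc w hwR z hz hwz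
            have hq' := hc' w hwR z hz hwz
            exact hL _ _ (x3 w hwT u) (hq'.PP _ _) (hq'.PP _ _) (hq'.PP _ _) (hq.PP _ _) (hq.PP _ _)
              (hq.PP _ _)
      -- multiples
      have mult : ∀ v, (∀ w ∈ R, e' w * (P' z v * F) = P' z v * F) ∧
          (∀ w ∈ R, P' z v * F * e w = P' z v * F) ∧
          ∀ w ∈ T, ∀ u, P' w u * (P' z v * F) = P' z v * F * P w u := by
        intro v
        refine ⟨fun w hw => ?_, fun w hw => ?_, fun w hw u => ?_⟩
        · by_cases hwz : w = z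
          · subst hwz
            rw [← Matrix.mul_assoc, (hr' w hw).eP]
          · rw [← Matrix.mul_assoc, (hc' w hw z hz hwz).eP, Matrix.mul_assoc, h1 w hw]
        · rw [Matrix.mul_assoc, h2 w hw]
        · have hwz : w ≠ z := fun h => hzT (h ▸ hw)
          have hwR : w ∈ R := hT (Finset.mem_insert_of_mem hw)
          rw [← Matrix.mul_assoc, (hc' w hwR z hz hwz).PP, Matrix.mul_assoc, h3 w hw, Matrix.mul_assoc]
      by_contra hcon
      have n0 : av I J K I' J' K' F = 0 := by
        by_contra hne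
        exact hcon (cand F h1 h2 h3 hne)
      have n1 : ∀ v, av I J K I' J' K' (P' z v * F) = 0 := by
        intro v
        by_contra hne
        obtain ⟨m1, m2, m3⟩ := mult v
        exact hcon (cand _ m1 m2 m3 hne)
      have h4 := av_sum (I := I) (J := J) (K := K) Q' F (h1 z hz)
      rw [n0, n1, n1, n1, Matrix.mul_zero, Matrix.mul_zero, Matrix.mul_zero, sub_zero, sub_zero,
        sub_zero] at h4
      exact hF ((smul_eq_zero.1 h4.symm).resolve_left (by norm_num))
  obtain ⟨F, hF, h1, h2, h3⟩ := key R subset_rfl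
  exact ⟨F, hF, fun z hz => ⟨h1 z hz, h2 z hz, h3 z hz⟩⟩

end

end Pool.Agent.K3M
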