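import Pool.Agent.K3M.H5

/-!
# HP: two factors without intertwining matrices are independent
-/

set_option autoImplicit false

open scoped BigOperators
open Matrix

namespace Pool.Agent.K3M

open Pool.Agent.DRB Pool.Agent.K3D Pool.Agent.K3E Pool.Agent.K3C Pool.Agent.K3P

namespace HX

section

variable {g g' n n' : ℕ} {d : Matrix (Fin n) (Fin n) ℂ → Matrix (Fin n') (Fin n') ℂ → Prop}

theorem relAdd {S : Submodule ℂ (Matrix (Fin n) (Fin n) ℂ)} {S' : Submodule ℂ (Matrix (Fin n') (Fin n') ℂ)}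
    (T : PairRel S S' d) {a a' : Matrix (Fin n) (Fin n) ℂ} {b b' : Matrix (Fin n') (Fin n') ℂ}
    (h : d a b) (h' : d a' b') : d (a + a') (b + b') := by
  have h1 := T.lin a b a' b' 1 h h'
  rwa [one_smul, one_smul] at h1

theorem relSmul {S : Submodule ℂ (Matrix (Fin n) (Fin n) ℂ)} {S' : Submodule ℂ (Matrix (Fin n') (Fin n') ℂ)}
    (T : PairRel S S' d) {a : Matrix (Fin n) (Fin n) ℂ} {b : Matrix (Fin n') (Fin n') ℂ}
    (t : ℂ) (h : d a b) : d (t • a) (t • b) := by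
  have h1 := T.lin 0 0 a b t T.zero h
  rwa [zero_add, zero_add] at h1

/-- a vector is a sum of three cross products -/
theorem cross_sum (u : Fin 3 → ℂ) :
    ∑ l : Fin 3, crossProduct (u l • (Pi.single (l + 1) 1 : Fin 3 → ℂ)) (Pi.single (l + 2) 1) = u := by
  rw [Fin.sum_univ_three]
  funext k
  fin_cases k <;> simp [cross_apply]

/-- The derived algebra maps onto the components. -/
theorem full' (Φ : SpinFac g n) {k : ℕ} (s : Fin k → Spin g n) {z : Φ.Ω} (hs : ∀ i, Φ.IsSp z (s i))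
    (hf : ∀ u : Fin k → (Fin 3 → ℂ), ∃ a ∈ Φ.S, ∀ i, (s i).x a = u i) (u : Fin k → (Fin 3 → ℂ)) :
    ∃ x y : Fin 3 → Matrix (Fin n) (Fin n) ℂ, (∀ l, x l ∈ Φ.S ∧ y l ∈ Φ.S) ∧
      ∀ i, (s i).x (∑ l, (x l * y l - y l * x l)) = u i := by
  choose x hx hxu using fun l : Fin 3 => hf fun i => u i l • (Pi.single (l + 1) 1 : Fin 3 → ℂ)
  choose y hy hyu using fun l : Fin 3 => hf fun _ => (Pi.single (l + 2) 1 : Fin 3 → ℂ)
  refine ⟨x, y, fun l => ⟨hx l, hy l⟩, fun i => ?_⟩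
  rw [map_sum]
  refine Eq.trans (Finset.sum_congr rfl fun l _ => ?_) (cross_sum (u i))
  rw [Φ.brk z _ (hs i) _ (hx l) _ (hy l), hxu, hyu]

/-- If no spin structures are matched at `(z, w)`, the places are independent. -/
theorem free_place (hH2 : Stmt_H2) (Φ : SpinFac g n) (Φ' : SpinFac g' n') (T : PairRel Φ.S Φ'.S d)
    {z : Φ.Ω} {w : Φ'.Ω} (hno : ∀ s s', Φ.IsSp z s → Φ'.IsSp w s' → ¬ Matched d s s') :
    ∀ x ∈ Φ.S, ∀ y ∈ Φ.S, ∃ a b, d a b ∧ Φ.pr z a = Φ.pr z (x * y - y * x) ∧ Φ'.pr w b = 0 := by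
  obtain ⟨k, s, hs, hf, hc⟩ := Φ.full z
  obtain ⟨k', s', hs', hf', hc'⟩ := Φ'.full w
  let V := relSub T
  let br : V → V → V := fun p q => ⟨(p.1.1 * q.1.1 - q.1.1 * p.1.1, p.1.2 * q.1.2 - q.1.2 * p.1.2),
    T.brk _ _ _ _ p.2 q.2⟩
  let X : Fin k → V →ₗ[ℂ] (Fin 3 → ℂ) := fun i => (s i).x ∘ₗ (LinearMap.fst ℂ _ _) ∘ₗ V.subtype
  let Y : Fin k' → V →ₗ[ℂ] (Fin 3 → ℂ) := fun i => (s' i).x ∘ₗ (LinearMap.snd ℂ _ _) ∘ₗ V.subtype
  have hX : ∀ i (p : V), X i p = (s i).x p.1.1 := fun i p => rfl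
  have hY : ∀ i (p : V), Y i p = (s' i).x p.1.2 := fun i p => rfl
  rcases hH2 V br k k' X Y
    (fun i u v => Φ.brk z _ (hs i) _ (T.mem _ _ u.2).1 _ (T.mem _ _ v.2).1)
    (fun i u v => Φ'.brk w _ (hs' i) _ (T.mem _ _ u.2).2 _ (T.mem _ _ v.2).2)
    (fun u => by
      obtain ⟨x, y, hxy, hu⟩ := full' Φ s hs hf u
      obtain ⟨b, hb⟩ := exists_lift T x y hxy
      exact ⟨⟨(_, b), hb⟩, hu⟩)
    (fun u => by
      obtain ⟨x, y, hxy, hu⟩ := full' Φ' s' hs' hf' u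
      obtain ⟨a, ha⟩ := exists_lift (relSymm T) x y hxy
      exact ⟨⟨(a, _), ha⟩, hu⟩) with hfree | ⟨i, j, φ, h1, h2⟩
  · intro x hx y hy
    obtain ⟨⟨⟨a1, b1⟩, hab1⟩, h1, h2⟩ := hfree fun i => (s i).x x
    obtain ⟨⟨⟨a2, b2⟩, hab2⟩, h3, h4⟩ := hfree fun i => (s i).x y
    have ha1 := (T.mem _ _ hab1).1
    have hb1 := (T.mem _ _ hab1).2
    have ha2 := (T.mem _ _ hab2).1
    have hb2 := (T.mem _ _ hab2).2
    have c1 : ∀ i, (s i).x (a1 - x) = 0 := by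
      intro i
      rw [map_sub, sub_eq_zero]
      exact h1 i
    have c2 : ∀ i, (s i).x (a2 - y) = 0 := by
      intro i
      rw [map_sub, sub_eq_zero]
      exact h3 i
    have k1 := hc _ (Φ.S.sub_mem ha1 hx) c1
    have k2 := hc _ (Φ.S.sub_mem ha2 hy) c2
    have k3 := hc' _ hb1 h2
    refine ⟨_, _, T.brk _ _ _ _ hab1 hab2, ?_, ?_⟩
    · rw [Φ.pr_brk z _ ha1 _ ha2, Φ.pr_brk z _ hx _ hy]
      have e1 := k1 _ (Φ.pr_mem z _ ha2)
      have e2 := k2 _ (Φ.pr_mem z _ hx)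
      rw [map_sub, sub_mul, mul_sub] at e1 e2
      have e3 : Φ.pr z a1 * Φ.pr z a2 - Φ.pr z a2 * Φ.pr z a1 =
          Φ.pr z x * Φ.pr z a2 - Φ.pr z a2 * Φ.pr z x := by
        rw [sub_eq_sub_iff_sub_eq_sub]
        exact e1
      have e4 : Φ.pr z x * Φ.pr z a2 - Φ.pr z a2 * Φ.pr z x =
          Φ.pr z x * Φ.pr z y - Φ.pr z y * Φ.pr z x := by
        rw [sub_eq_sub_iff_sub_eq_sub]
        exact e2.symm
      rw [e3, e4]
    · rw [Φ'.pr_brk w _ hb1 _ hb2, k3 _ (Φ'.pr_mem w _ hb2), sub_self]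
  · exact absurd ⟨φ, h1, fun a b hab => h2 ⟨(a, b), hab⟩⟩ (hno _ _ (hs i) (hs' j))

end

end HX

open HX in
/-- HP. -/
theorem HP_proof (hH2 : Stmt_H2) (hH5 : Stmt_H5) (hH6 : Stmt_H6) : Stmt_HP := by
  classical
  intro g g' n n' Φ Φ' d T hI x hx y hy
  let _ := Φ.fin
  let _ := Φ'.fin
  obtain ⟨h6, h6'⟩ := hH6 g g' n n' Φ Φ' d T
  -- nothing is matched
  have hno : ∀ z w s s', Φ.IsSp z s → Φ'.IsSp w s' → ¬ Matched d s s' := by
    intro z w s s' hs hs' hM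
    obtain ⟨σ, hσ⟩ := Φ.trans z
    have h1 := Φ.aut σ⁻¹ _ _ hs
    rw [act_symm Φ σ hσ] at h1
    have h2 := Φ'.aut σ⁻¹ _ _ hs'
    have h3 := matched_aut T σ⁻¹ hM
    have h4 := h6 _ _ _ h1 h2 h3
    rw [h4] at h2
    obtain ⟨F, hF, hF2⟩ := hH5 g g' n n' Φ Φ' d T h6 h6' _ _ h1 h2 h3
    exact hF (hI F hF2)
  have hfree : ∀ z w, ∀ x ∈ Φ.S, ∀ y ∈ Φ.S, ∃ a b, d a b ∧ Φ.pr z a = Φ.pr z (x * y - y * x) ∧
      Φ'.pr w b = 0 := fun z w => free_place hH2 Φ Φ' T fun s s' => hno z w s s'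
  have hbS : ∀ x ∈ Φ.S, ∀ y ∈ Φ.S, x * y - y * x ∈ Φ.S := by
    intro x hx y hy
    obtain ⟨b, hb⟩ := T.onto x hx y hy
    exact (T.mem _ _ hb).1
  -- finite sets of places
  have key : ∀ (z : Φ.Ω) (W : Finset Φ'.Ω), ∀ x ∈ Φ.S, ∀ y ∈ Φ.S, ∃ a b, d a b ∧
      Φ.pr z a = Φ.pr z (x * y - y * x) ∧ ∀ w ∈ W, Φ'.pr w b = 0 := by
    intro z W
    induction W using Finset.induction_on with
    | empty =>
      intro x hx y hy
      obtain ⟨b, hb⟩ := T.onto x hx y hy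
      exact ⟨_, b, hb, rfl, fun w hw => absurd hw (Finset.notMem_empty w)⟩
    | insert w0 W _ ih =>
      intro x hx y hy
      let U : Submodule ℂ (Matrix (Fin n) (Fin n) ℂ) :=
        { carrier := {c | ∃ a b, d a b ∧ Φ.pr z a = Φ.pr z c ∧ ∀ w ∈ insert w0 W, Φ'.pr w b = 0}
          add_mem' := by
            rintro c c' ⟨a, b, hab, h1, h2⟩ ⟨a', b', hab', h1', h2'⟩
            refine ⟨a + a', b + b', relAdd T hab hab', ?_, fun w hw => ?_⟩
            · rw [map_add, map_add, h1, h1']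
            · rw [map_add, h2 w hw, h2' w hw, add_zero]
          zero_mem' := ⟨0, 0, T.zero, rfl, fun w _ => map_zero _⟩
          smul_mem' := by
            rintro t c ⟨a, b, hab, h1, h2⟩
            refine ⟨t • a, t • b, relSmul T t hab, ?_, fun w hw => ?_⟩
            · rw [map_smul, map_smul, h1]
            · rw [map_smul, h2 w hw, smul_zero] }
      show x * y - y * x ∈ U
      refine Submodule.span_le.2 ?_ (Φ.perf x hx y hy)
      rintro c ⟨x, hx, y, hy, x', hx', y', hy', rfl⟩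
      obtain ⟨a, b, hab, h1, h2⟩ := ih x hx y hy
      obtain ⟨a', b', hab', h1', h2'⟩ := hfree z w0 x' hx' y' hy'
      have ha := T.mem _ _ hab
      have ha' := T.mem _ _ hab'
      refine ⟨_, _, T.brk _ _ _ _ hab hab', ?_, fun w hw => ?_⟩
      · rw [Φ.pr_brk z _ ha.1 _ ha'.1, h1, h1', ← Φ.pr_brk z _ (hbS x hx y hy) _ (hbS x' hx' y' hy')]
      · rw [Φ'.pr_brk w _ ha.2 _ ha'.2]
        rcases Finset.mem_insert.1 hw with h3 | h3
        · rw [h3, h2', mul_zero, zero_mul, sub_zero]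
        · rw [h2 w h3, mul_zero, zero_mul, sub_zero]
  have key2 : ∀ z : Φ.Ω, ∀ x ∈ Φ.S, ∀ y ∈ Φ.S, ∃ a, d a 0 ∧ Φ.pr z a = Φ.pr z (x * y - y * x) := by
    intro z x hx y hy
    obtain ⟨a, b, hab, h1, h2⟩ := key z Finset.univ x hx y hy
    have h3 : b = 0 := by
      rw [← Φ'.pr_sum b (T.mem _ _ hab).2]
      exact Finset.sum_eq_zero fun w hw => h2 w hw
    rw [h3] at hab
    exact ⟨a, hab, h1⟩
  -- cutting off the other components
  let U : Submodule ℂ (Matrix (Fin n) (Fin n) ℂ) :=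
    { carrier := {c | d c 0}
      add_mem' := by
        intro c c' h h'
        have h1 := relAdd T h h'
        rwa [add_zero] at h1
      zero_mem' := T.zero
      smul_mem' := by
        intro t c h
        have h1 := relSmul T t h
        rwa [smul_zero] at h1 }
  show x * y - y * x ∈ U
  refine Submodule.span_le.2 ?_ (Φ.perf x hx y hy)
  rintro c ⟨x, hx, y, hy, x', hx', y', hy', rfl⟩
  have hp := hbS x hx y hy
  have hq := hbS x' hx' y' hy'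
  set p := x * y - y * x with hpd
  set q := x' * y' - y' * x' with hqd
  show p * q - q * p ∈ U
  rw [← Φ.pr_sum _ (hbS p hp q hq)]
  refine Submodule.sum_mem _ fun z _ => ?_
  obtain ⟨a, ha, haz⟩ := key2 z x hx y hy
  have hxz := Φ.pr_mem z _ hx'
  have hyz := Φ.pr_mem z _ hy'
  obtain ⟨b, hb⟩ := T.onto _ hxz _ hyz
  have hbr := T.brk _ _ _ _ ha hb
  have haS := (T.mem _ _ ha).1
  rw [zero_mul, mul_zero, sub_zero] at hbr
  have hqz : Φ.pr z x' * Φ.pr z y' - Φ.pr z y' * Φ.pr z x' = Φ.pr z q := by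
    rw [hqd, Φ.pr_brk z _ hx' _ hy']
  rw [hqz] at hbr
  have hqzS := Φ.pr_mem z q hq
  have h5 : a * Φ.pr z q - Φ.pr z q * a = Φ.pr z (p * q - q * p) := by
    rw [← Φ.pr_sum _ (hbS a haS _ hqzS), Finset.sum_eq_single z]
    · rw [Φ.pr_brk z _ haS _ hqzS, Φ.pr_self z q hq, haz, Φ.pr_brk z _ hp _ hq]
    · intro z' _ hne
      rw [Φ.pr_brk z' _ haS _ hqzS, Φ.pr_ne z' z hne q hq, mul_zero, zero_mul, sub_zero]
    · intro h; exact absurd (Finset.mem_univ z) h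
  rw [h5] at hbr
  exact hbr

end Pool.Agent.K3M
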