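import Pool.Agent.K3M.HPair
import Pool.Agent.K3M.NC

/-!
# NCF. Two factors with complex multiplication are independent, final form
-/

set_option autoImplicit false

open scoped BigOperators
open Matrix Polynomial

namespace Pool.Agent.K3M

open Pool.Agent.DRB Pool.Agent.K3D Pool.Agent.K3E Pool.Agent.K3C Pool.Agent.K3P

theorem NCF_proof (hNS : Stmt_NS) (hHP : Stmt_HP) (h1C : Stmt_H1C) : Stmt_NCF := by
  intro r s h B h' B' n₁ m₁ K₁ n₂ m₂ K₂ d T Lg I hm hP j j' hj x hx y hy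
  have hT : NCX.TupC K₂ (fun b => ∃ a, d a b) :=
    { lin := fun a b c ⟨a1, h1⟩ ⟨a2, h2⟩ => ⟨_, T.lin a1 a a2 b c h1 h2⟩
      zero := ⟨0, T.zero⟩
      brk := fun a b ⟨a1, h1⟩ ⟨a2, h2⟩ => ⟨_, T.brk a1 a a2 b h1 h2⟩
      aut := fun σ a ⟨a1, h1⟩ => ⟨_, T.aut σ a1 a h1⟩
      mem := fun a ⟨a1, h1⟩ => (T.mem a1 a h1).2
      onto := fun j x hx y hy => by
        obtain ⟨a, b, h1, h2⟩ := T.onto' j x hx y hy
        exact ⟨b, ⟨a, h1⟩, h2⟩ }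
  have c1 := hm.2 j
  have c2 := hm.2 j'
  by_cases h2 : m₂ j = 2 ∧ m₂ j' = 2
  · exact HPX.hp_CC hHP h1C T Lg I hj h2.1 h2.2 x hx y hy
  · have hI : m₂ j = 1 ∨ m₂ j' = 1 ∨ m₂ j ≠ m₂ j' ∨ (4 ≤ m₂ j ∧ ∃ σ : ℂ ≃ₐ[ℚ] ℂ,
        (∀ z, aeval z (K₂ j).P = 0 → σ z = z) ∧
        ∀ z, aeval z (K₂ j').P = 0 → σ z = (starRingEnd ℂ) z) := by
      by_cases h3 : m₂ j = 1
      · exact Or.inl h3
      by_cases h4 : m₂ j ≠ m₂ j'
      · exact Or.inr (Or.inr (Or.inl h4))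
      rw [not_not] at h4
      refine Or.inr (Or.inr (Or.inr ⟨?_, hP j j' hj⟩))
      have h5 : Even (m₂ j) := c1.2.resolve_right h3
      obtain ⟨k, hk⟩ := h5
      omega
    obtain ⟨b, ⟨a, h1⟩, h2, h3⟩ := NCX.pair hNS hT c1.1 c2.1 hI hx hy
    exact ⟨a, b, h1, h2, h3⟩

end Pool.Agent.K3M
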