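import Pool.Agent.K3M.StmtsF
import Pool.Agent.K3M.N0
import Pool.Agent.K3M.NE
import Pool.Agent.K3M.NN
import Pool.Agent.K3M.ND
import Pool.Agent.K3M.NT

/-!
# N0, NN, ND, NT, NE in the final form
-/

set_option autoImplicit false

open scoped BigOperators
open Matrix Polynomial

namespace Pool.Agent.K3M

open Pool.Agent.DRB Pool.Agent.K3D Pool.Agent.K3E Pool.Agent.K3C Pool.Agent.K3P

theorem N0F_proof (hGb4 : Stmt_Gb4) (hK2a : Stmt_K2a) (hK2b : Stmt_K2b) (hK2c : Stmt_K2c)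
    (hE2d : Stmt_E2d) (hE5a : Stmt_E5a) (hE5v : Stmt_E5v) (hP8b : Stmt_P8b) (hPQ : Stmt_PQ)
    (hC2d : Stmt_C2d) (hC5v : Stmt_C5v) (hM8b : Stmt_M8b) : Stmt_N0F :=
  fun _ _ _ _ _ _ D _ _ K₁ _ _ K₂ hm =>
    N0_gen hGb4 hK2a hK2b hK2c hE2d hE5a hE5v hP8b hPQ hC2d hC5v hM8b D K₁ K₂
      (fun i => (hm.1 i).1) (fun i => (hm.1 i).2) hm.2

theorem NEF_proof (h0 : Stmt_N0F) (hL : Stmt_Leg) (hK1 : Stmt_K1) (hK2a : Stmt_K2a) (hK2b : Stmt_K2b)
    (hG4 : Stmt_Gb4) (hK2c : Stmt_K2c) (hK3 : Stmt_K3) (hE5a : Stmt_E5a) (hC5a : Stmt_C5a)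
    (hC5w : Stmt_C5w2) : Stmt_NEF :=
  fun _ _ _ _ _ _ D _ _ K₁ _ _ K₂ hm H1 H2 =>
    NE_gen hL hK1 hK2a hK2b hG4 hK2c hK3 hE5a hC5a hC5w D K₁ K₂ (fun i => (hm.1 i).1)
      (fun j => (hm.2 j).1) (h0 _ _ _ _ _ _ D _ _ K₁ _ _ K₂ hm) H1 H2

theorem NNF_proof (hL : Stmt_Leg) (hK2c : Stmt_K2c) (hE2d : Stmt_E2d) (hE5a : Stmt_E5a) (hE5v : Stmt_E5v)
    (hE8b : Stmt_E8b) (hE8c : Stmt_E8c) (hC2d : Stmt_C2d) (hPH : Stmt_PH) (hGA : Stmt_GA) : Stmt_NNF := by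
  intro g A r s h B D hHom n₁ m₁ K₁ n₂ m₂ K₂ hm i j hij Ψ hΨ hcon
  obtain ⟨F, hF, -, hZ⟩ := hGA _ _ (B (Fin.castAdd s i)) (B (Fin.castAdd s j)) _ _ _ _ (K₁ i) (K₁ j) Ψ hΨ
  -- the blocks of the elements of the Lie algebra
  have key : ∀ (k : Fin r) (Y : Matrix (Idx g) (Idx g) ℂ) (ξ : ℂ), InLie (Gam A) Y ξ →
      ∃ a ∈ (K₁ k).S, (∀ v, D.blk (Fin.castAdd s k) Y * (K₁ k).cl v -
          (K₁ k).cl v * D.blk (Fin.castAdd s k) Y = (K₁ k).cl (a *ᵥ v)) ∧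
        D.blk (Fin.castAdd s k) Y = (K₁ k).Z a + (ξ / 2) • 1 := by
    intro k Y ξ hY
    have hm3 : 3 ≤ m₁ k := (hm.1 k).1
    have hm5 : m₁ k ≠ 5 := (hm.1 k).2
    have h2 := Q3.blk_lie D hK2c Y ξ hY (Fin.castAdd s k)
    obtain ⟨a, c, ha, h3⟩ := PFX.decomp (K₁ k) hE5a hE5v hm3 (D.blk (Fin.castAdd s k) Y)
      (hK2c _ _ _ ξ h2).1 (fun v => by
        have h1 := (hE2d _ _ _ _ (K₁ k)).2 _ ξ h2 ((K₁ k).cl v) ((E5dX.mem_TC (K₁ k) _).2 ⟨v, rfl⟩)
        exact (E5dX.mem_TC (K₁ k) _).1 h1)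
    have h4 := (hK2c _ _ _ ξ h2).2
    rw [h3] at h4
    have h8 : InLie (Gam (B (Fin.castAdd s k))) ((K₁ k).Z a) 0 :=
      hE8c _ _ _ _ (K₁ k) hm3 (hE8b _ _ _ _ (K₁ k) hm3 hm5) a ha
    have h5 := (hK2c _ _ _ 0 h8).2
    rw [zero_smul] at h5
    have h6 := PFX.riem_half hL (K₁ k).pos h5 h4
    refine ⟨a, ha, fun v => ?_, ?_⟩
    · have h7 := (hE5a _ _ _ _ (K₁ k)).2.2.1 a (GEX.skew (K₁ k) ha) v
      rw [h3, ← h7]
      simp only [add_mul, mul_add, Matrix.smul_mul, Matrix.mul_smul, one_mul, mul_one]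
      abel
    · rw [h3, ← h6]
      congr 2
      ring
  have keyC : ∀ (k : Fin s) (Y : Matrix (Idx g) (Idx g) ℂ) (ξ : ℂ), InLie (Gam A) Y ξ →
      ∃ b, (K₂ k).Act (D.blk (Fin.natAdd r k) Y) b := by
    intro k Y ξ hY
    have h2 := Q3.blk_lie D hK2c Y ξ hY (Fin.natAdd r k)
    refine C8T.exists_act _ fun v => ?_
    have h1 := (hC2d _ _ _ _ (K₂ k)).2 _ ξ h2 ((K₂ k).cl v) ((C5X.mem_TC (K₂ k)).2 ⟨v, rfl⟩)
    exact (C5X.mem_TC (K₂ k)).1 h1
  have hint : ∀ Y ξ, InLie (Gam A) Y ξ →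
      D.blk (Fin.castAdd s j) Y * F = F * D.blk (Fin.castAdd s i) Y := by
    intro Y ξ hY
    choose t ht h1 h2 using fun k => key k Y ξ hY
    choose b hb using fun k => keyC k Y ξ hY
    have h3 := hcon t ⟨b, Y, ξ, hY, h1, hb⟩
    rw [h2 j, h2 i, Matrix.add_mul, Matrix.mul_add, hZ (t i) (t j) h3, Matrix.smul_mul, Matrix.mul_smul,
      Matrix.one_mul, Matrix.mul_one]
  have h1 := hPH g A (r + s) h B D (Fin.castAdd s i) (Fin.castAdd s j) F hint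
  have h2 : Submodule.span ℂ {Z | ∃ α, IsHom (B (Fin.castAdd s i)) (B (Fin.castAdd s j)) α ∧ Z = toR α} ≤
      ⊥ := by
    rw [Submodule.span_le]
    rintro _ ⟨α, hα, rfl⟩
    have hne : Fin.castAdd s i ≠ Fin.castAdd s j := fun h => hij (Fin.castAdd_injective r s h)
    rw [hHom _ _ hne α hα, Q1.toR_zero]
    exact Submodule.zero_mem _
  exact hF ((Submodule.mem_bot ℂ).1 (h2 h1))

open NDX in
/-- ND. -/
theorem NDF_proof : Stmt_NDF := by
  classical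
  intro r s h B h' B' n₁ m₁ K₁ n₂ m₂ K₂ d T hd hm hNC j
  -- killing the first part
  have hkill : ∀ a b, d a b → d 0 b := by
    intro a b hab
    have h1 : (a, (0 : ∀ j, Matrix (Fin (n₂ j)) (Fin (n₂ j)) ℂ)) ∈ sub2 T := by
      have h2 : a = ∑ i, Pi.single i (a i) := (Finset.univ_sum_single a).symm
      have h3 : (a, (0 : ∀ j, Matrix (Fin (n₂ j)) (Fin (n₂ j)) ℂ)) =
          ∑ i, (Pi.single i (a i), (0 : ∀ j, Matrix (Fin (n₂ j)) (Fin (n₂ j)) ℂ)) := by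
        refine Prod.ext ?_ ?_
        · rw [Prod.fst_sum]; exact h2
        · rw [Prod.snd_sum]; simp
      rw [h3]
      exact Submodule.sum_mem _ fun i _ => hd i _ ((T.mem a b hab).1 i)
    have h4 := (sub2 T).sub_mem ((mem_sub2 T a b).2 hab) h1
    have h5 : (a, b) - (a, (0 : ∀ j, Matrix (Fin (n₂ j)) (Fin (n₂ j)) ℂ)) = (0, b) := by
      refine Prod.ext ?_ ?_
      · exact sub_self a
      · exact sub_zero b
    rw [h5] at h4
    exact h4
  have key : ∀ J : Finset (Fin s), (∀ k ∈ J, k ≠ j) → ∀ x ∈ (K₂ j).S, ∀ y ∈ (K₂ j).S,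
      ∃ b, d 0 b ∧ b j = x * y - y * x ∧ ∀ k ∈ J, b k = 0 := by
    intro J
    induction J using Finset.induction_on with
    | empty =>
      intro _ x hx y hy
      obtain ⟨a, b, hab, hb⟩ := T.onto' j x hx y hy
      exact ⟨b, hkill a b hab, hb, fun k hk => absurd hk (Finset.notMem_empty k)⟩
    | insert j' J hj' ih =>
      intro hJ x hx y hy
      let W : Submodule ℂ (Matrix (Fin (n₂ j)) (Fin (n₂ j)) ℂ) :=
        { carrier := {c | ∃ b, d 0 b ∧ b j = c ∧ ∀ k ∈ insert j' J, b k = 0}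
          add_mem' := by
            rintro _ _ ⟨b, hb, rfl, hb0⟩ ⟨b', hb', rfl, hb0'⟩
            refine ⟨b + b', ?_, rfl, fun k hk => by rw [Pi.add_apply, hb0 k hk, hb0' k hk, add_zero]⟩
            have h1 := (sub2 T).add_mem ((mem_sub2 T _ _).2 hb) ((mem_sub2 T _ _).2 hb')
            have h2 : ((0 : ∀ i, Matrix (Fin (n₁ i)) (Fin (n₁ i)) ℂ), b) + (0, b') = (0, b + b') :=
              Prod.ext (add_zero _) rfl
            rw [h2] at h1
            exact h1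
          zero_mem' := ⟨0, T.zero, rfl, fun k _ => rfl⟩
          smul_mem' := by
            rintro c _ ⟨b, hb, rfl, hb0⟩
            refine ⟨c • b, ?_, rfl, fun k hk => by rw [Pi.smul_apply, hb0 k hk, smul_zero]⟩
            have h1 := (sub2 T).smul_mem c ((mem_sub2 T _ _).2 hb)
            have h2 : c • ((0 : ∀ i, Matrix (Fin (n₁ i)) (Fin (n₁ i)) ℂ), b) = (0, c • b) :=
              Prod.ext (smul_zero _) rfl
            rw [h2] at h1
            exact h1 }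
      show x * y - y * x ∈ W
      refine Submodule.span_le.2 ?_ (perfC (K₂ j) hx hy)
      rintro c ⟨x, hx, y, hy, x', hx', y', hy', rfl⟩
      obtain ⟨b, hb, hbj, hb0⟩ := ih (fun k hk => hJ k (Finset.mem_insert_of_mem hk)) x hx y hy
      obtain ⟨a', b', hab', hbj', hb'⟩ := hNC j j' (Ne.symm (hJ j' (Finset.mem_insert_self _ _)))
        x' hx' y' hy'
      have h1 := T.brk 0 b 0 b' hb (hkill a' b' hab')
      have h2 : (fun i => (0 : ∀ i, Matrix (Fin (n₁ i)) (Fin (n₁ i)) ℂ) i *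
          (0 : ∀ i, Matrix (Fin (n₁ i)) (Fin (n₁ i)) ℂ) i -
          (0 : ∀ i, Matrix (Fin (n₁ i)) (Fin (n₁ i)) ℂ) i *
          (0 : ∀ i, Matrix (Fin (n₁ i)) (Fin (n₁ i)) ℂ) i) = 0 := by
        funext i
        simp
      rw [h2] at h1
      refine ⟨_, h1, by rw [hbj, hbj'], fun k hk => ?_⟩
      rcases Finset.mem_insert.1 hk with h3 | h3
      · subst h3
        rw [hb', mul_zero, zero_mul, sub_zero]
      · rw [hb0 k h3, mul_zero, zero_mul, sub_zero]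
  intro x hx y hy
  obtain ⟨b, hb, hbj, hb0⟩ := key (Finset.univ.erase j) (fun k hk => Finset.ne_of_mem_erase hk) x hx y hy
  have h1 : b = Pi.single j (x * y - y * x) := by
    funext k
    by_cases hk : k = j
    · subst hk
      rw [Pi.single_eq_same, hbj]
    · rw [Pi.single_eq_of_ne hk]
      exact hb0 k (Finset.mem_erase.2 ⟨hk, Finset.mem_univ k⟩)
  rw [h1] at hb
  exact hb

open NTX in
/-- NT. -/
theorem NTF_proof (hK1 : Stmt_K1) (hK3 : Stmt_K3) (hK2a : Stmt_K2a) (hK2b : Stmt_K2b) (hG4 : Stmt_Gb4)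
    (hK2c : Stmt_K2c) (hE2d : Stmt_E2d) (hE5a : Stmt_E5a) (hE5v : Stmt_E5v)
    (hC2d : Stmt_C2d) (hC5a : Stmt_C5a) (hC5v : Stmt_C5v) (hC5w : Stmt_C5w2) (hPQ : Stmt_PQ) :
    Stmt_NTF := by
  classical
  intro g A r s h B D n₁ m₁ K₁ n₂ m₂ K₂ hdim hJ he1 hder
  have hd1 := hdim.1
  have hd2 := hdim.2
  have hm : ∀ j, 1 ≤ m₂ j := fun j => (hd2 j).1
  have hm1 : ∀ i, 3 ≤ m₁ i := fun i => (hd1 i).1
  choose τ h1 h2 hodd h3 h4 using fun j => hC5w _ _ (n₂ j) (m₂ j) (K₂ j) (hm j)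
  have hsplit := NTX.split (D := D) (K₁ := K₁) (K₂ := K₂) hK2a hm τ h2 hodd h3 he1 hder
  -- tuples of elements of the Lie algebra
  have htup : ∀ Y ξ, InLie (Gam A) Y ξ → ∃ a b, (∀ i, a i ∈ (K₁ i).S) ∧ (∀ j, b j ∈ (K₂ j).S) ∧
      DD2 D K₁ K₂ a b ∧ ∀ j, (K₂ j).Act (D.blk (Fin.natAdd r j) Y) (b j) := by
    intro Y ξ hY
    have hex1 := fun i => exists_SE hE2d hE5a hE5v hK2c (K₁ i) (hm1 i)
      (Q3.blk_lie D hK2c Y ξ hY (Fin.castAdd s i))
    have hex2 := fun j => C8T.exists_S (K := K₂ j) (hm j) hC2d hK2c hC5v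
      (Q3.blk_lie D hK2c Y ξ hY (Fin.natAdd r j))
    choose a ha ha' using hex1
    choose b hb hb' using hex2
    exact ⟨a, b, ha, hb, ⟨Y, ξ, hY, ha', hb'⟩, hb'⟩
  -- the annihilator vanishes
  have hbot : AnnM D K₁ K₂ = ⊥ := by
    by_contra hne
    obtain ⟨d, hd, hd0, j0, hdj, c, hc⟩ := hJ (AnnM D K₁ K₂) (fun d hd => hd.1) (fun d hd => hd.2.1)
      (fun σ d hd => AnnM_aut hK2b hG4 σ d hd) hne
    have hm0 : (m₂ j0 : ℂ) ≠ 0 := by
      have : m₂ j0 ≠ 0 := by have := hm j0; omega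
      exact_mod_cast this
    obtain ⟨z1, hz1⟩ : ∃ z, d j0 z ≠ 0 := by
      by_contra hh
      push Not at hh
      apply hd0
      funext j
      by_cases hj : j = j0
      · subst hj; exact funext hh
      · exact hdj j hj
    have hc0 : c ≠ 0 := by
      rintro rfl
      rcases hc z1 with h | h | h
      · exact hz1 h
      · exact hz1 h
      · exact hz1 (by simpa using h)
    have hcc : -c ≠ c := by omega
    set U : Finset ℂ := (C8T.roots (K₂ j0)).filter fun z => d j0 z = c with hU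
    have hUm : ∀ z, z ∈ U ↔ aeval z (K₂ j0).P = 0 ∧ d j0 z = c := by
      intro z
      rw [hU, Finset.mem_filter, C8T.mem_roots]
    have hconjU : ∀ z ∈ U, (starRingEnd ℂ) z ∉ U := by
      intro z hz h
      have h5 := ((hUm _).1 h).2
      rw [hd.2.1, ((hUm z).1 hz).2] at h5
      exact hcc h5
    obtain ⟨z0, hz0⟩ : ∃ z, z ∈ U := by
      have hr : aeval z1 (K₂ j0).P = 0 := by
        by_contra h
        exact hz1 (hd.1 j0 z1 h)
      rcases hc z1 with h | h | h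
      · exact absurd h hz1
      · exact ⟨z1, (hUm _).2 ⟨hr, h⟩⟩
      · refine ⟨(starRingEnd ℂ) z1, (hUm _).2 ⟨C5L.conj_root (K₂ j0) hr, ?_⟩⟩
        rw [hd.2.1, h, neg_neg]
    obtain ⟨Ω, hΩ0, hΩ⟩ := h4 j0 U fun z hz => ⟨((hUm z).1 hz).1, hconjU z hz⟩
    -- sums
    have hsum : ∀ f : Fin s → ℂ → ℂ, FLM D K₁ K₂ f → ∑ z ∈ U, f j0 z = 0 := by
      intro f hf
      have h5 := hd.2.2 f hf
      rw [Finset.sum_eq_single j0 (fun j _ hj => Finset.sum_eq_zero fun z _ => by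
        rw [hdj j hj, Pi.zero_apply, Int.cast_zero, zero_mul]) (fun h => absurd (Finset.mem_univ j0) h)]
        at h5
      have h6 : ∀ z ∈ C8T.roots (K₂ j0), (d j0 z : ℂ) * f j0 z =
          (if d j0 z = c then (c : ℂ) * f j0 z else 0) +
            (if d j0 ((starRingEnd ℂ) z) = c then (c : ℂ) * f j0 ((starRingEnd ℂ) z) else 0) := by
        intro z hz
        rw [hf.1 j0 z (C8T.mem_roots.1 hz), hd.2.1]
        rcases hc z with h | h | h
        · rw [h, if_neg (fun h => hc0 h.symm), neg_zero, if_neg (fun h => hc0 h.symm)]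
          simp
        · rw [h, if_pos rfl, if_neg hcc, add_zero]
        · rw [h, if_neg hcc, neg_neg, if_pos rfl, zero_add]
          push_cast
          ring
      rw [Finset.sum_congr rfl h6, Finset.sum_add_distrib,
        C8T.sum_conj (K := K₂ j0) (fun z => if d j0 z = c then (c : ℂ) * f j0 z else 0),
        ← Finset.sum_filter, ← Finset.mul_sum, ← two_mul] at h5
      have hcC : (c : ℂ) ≠ 0 := by exact_mod_cast hc0
      have h7 := (mul_eq_zero.1 h5).resolve_left two_ne_zero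
      exact (mul_eq_zero.1 h7).resolve_left hcC
    -- Ω commutes with the blocks of the Lie algebra
    have hcomm : ∀ X ξ, D.L (Fin.natAdd r j0) X ξ → X * Ω = Ω * X := by
      rintro X ξ ⟨Y, hY, rfl⟩
      obtain ⟨a, b, ha, hb, hab, hact⟩ := htup Y ξ hY
      have h5 := hsum _ (hsplit a b ha hb hab)
      have h6 := hΩ (D.blk (Fin.natAdd r j0) Y) (b j0) (hb j0) (hact j0)
      have h7 : ∑ z ∈ U, τ j0 z (b j0) = 0 := by
        have h8 : ∑ z ∈ U, τ j0 z (b j0) / (m₂ j0 : ℂ) = 0 := h5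
        rw [← Finset.sum_div] at h8
        rcases div_eq_zero_iff.1 h8 with h | h
        · exact h
        · exact absurd h hm0
      rw [h7, zero_smul] at h6
      exact sub_eq_zero.1 h6
    obtain ⟨-, -, -, hF, -⟩ := hPQ g A (r + s) h B D
    have hspan := (hF (Fin.natAdd r j0)).comm Ω hcomm
    obtain ⟨-, -, hlift, -, hend, -⟩ := hC5a _ _ (n₂ j0) (m₂ j0) (K₂ j0)
    have hz0r : aeval z0 (K₂ j0).P = 0 := ((hUm z0).1 hz0).1
    obtain ⟨δ, hδS, -, hδ⟩ := C5L.exists_central (K₂ j0) (fun z => ((C8T.ef z0 z : ℚ) : ℂ)) (fun z _ => by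
      show ((C8T.ef z0 ((starRingEnd ℂ) z) : ℚ) : ℂ) = -((C8T.ef z0 z : ℚ) : ℂ)
      rw [C8T.ef_conj hz0r]
      push_cast
      rfl)
    have hact : (K₂ j0).Act ((K₂ j0).Z δ) δ := fun v =>
      hlift δ (fun v w => C5X.S_skew (K₂ j0) δ hδS v w) v
    have h5 := hΩ ((K₂ j0).Z δ) δ hδS hact
    have h6 : (K₂ j0).Z δ * Ω - Ω * (K₂ j0).Z δ = 0 := by
      rw [hend Ω hspan δ hδS, sub_self]
    have h7 : ∑ z ∈ U, τ j0 z δ = m₂ j0 := by
      rw [Finset.sum_eq_single z0]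
      · rw [h2 j0 z0 hz0r δ hδS 1 (fun v hv => by
          rw [hδ z0 hz0r v hv, C8T.ef, if_pos rfl]
          norm_num), mul_one]
      · intro z hz hne
        have hne' : z ≠ (starRingEnd ℂ) z0 := by
          rintro rfl
          exact hconjU z0 hz0 hz
        rw [h2 j0 z ((hUm z).1 hz).1 δ hδS 0 (fun v hv => by
          rw [hδ z ((hUm z).1 hz).1 v hv, C8T.ef, if_neg hne, if_neg hne']
          norm_num), mul_zero]
      · intro h; exact absurd hz0 h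
    rw [h6, h7] at h5
    rcases smul_eq_zero.1 h5.symm with h | h
    · exact hm0 h
    · exact hΩ0 h
  -- conclusion
  intro j a ha
  have hef : ∀ z0 : {z // z ∈ C8T.roots (K₂ j)}, FLM D K₁ K₂ (fun j' z => (efM j z0 j' z : ℂ)) :=
    fun z0 => FLM_ef hK2a hK1 hK3 hK2c hC2d hC5v hm hbot (C8T.mem_roots.1 z0.2)
  choose δ hδd hδS hδv using fun z0 : {z // z ∈ C8T.roots (K₂ j)} => (hef z0).2
  set b : ∀ j', Matrix (Fin (n₂ j')) (Fin (n₂ j')) ℂ :=
    ∑ z0 : {z // z ∈ C8T.roots (K₂ j)}, (τ j z0 a / m₂ j / 2) • δ z0 with hb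
  have hbd : ((0 : ∀ i, Matrix (Fin (n₁ i)) (Fin (n₁ i)) ℂ), b) ∈ dsub D K₁ K₂ hK2a := by
    have : ((0 : ∀ i, Matrix (Fin (n₁ i)) (Fin (n₁ i)) ℂ), b) =
        ∑ z0 : {z // z ∈ C8T.roots (K₂ j)}, (τ j z0 a / m₂ j / 2) •
          ((0 : ∀ i, Matrix (Fin (n₁ i)) (Fin (n₁ i)) ℂ), δ z0) := by
      apply Prod.ext
      · rw [Prod.fst_sum]
        simp
      · rw [Prod.snd_sum]
        rfl
    rw [this]
    exact Submodule.sum_mem _ fun z0 _ => (dsub D K₁ K₂ hK2a).smul_mem _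
      ((mem_dsub D K₁ K₂ hK2a _ _).2 (hδd z0))
  have hbj : ∀ j', b j' = ∑ z0 : {z // z ∈ C8T.roots (K₂ j)}, (τ j z0 a / m₂ j / 2) • δ z0 j' := by
    intro j'
    rw [hb, Finset.sum_apply]
    rfl
  have hb0 : ∀ j', j' ≠ j → b j' = 0 := by
    intro j' hj'
    refine C5L.mat_extT (K₂ j') fun z hz v hv => ?_
    rw [hbj, Matrix.sum_mulVec, Matrix.zero_mulVec]
    refine Finset.sum_eq_zero fun z0 _ => ?_
    have h5 : efM j (z0 : ℂ) j' z = 0 := if_neg hj'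
    rw [Matrix.smul_mulVec, hδv z0 j' z hz v hv]
    show _ • (((efM j (z0 : ℂ) j' z : ℚ) : ℂ) • v) = 0
    rw [h5]
    simp
  have hbv : ∀ z : ℂ, aeval z (K₂ j).P = 0 → ∀ v ∈ (K₂ j).Tl z, b j *ᵥ v = (τ j z a / m₂ j) • v := by
    rw [hbj]
    refine C8T.sum_ef (K := K₂ j) (τ j) (hodd j) ha (fun z0 => δ z0 j) (fun z0 z hz v hv => ?_)
    rw [hδv z0 j z hz v hv]
    have h5 : efM j (z0 : ℂ) j z = C8T.ef z0 z := if_pos rfl
    show ((efM j (z0 : ℂ) j z : ℚ) : ℂ) • v = _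
    rw [h5]
  have hbS : b j ∈ (K₂ j).S := by
    rw [hbj]
    exact Submodule.sum_mem _ fun z0 _ => (K₂ j).S.smul_mem _ (hδS z0 j)
  have hbs : b = Pi.single j (b j) := by
    funext j'
    by_cases hj' : j' = j
    · subst hj'; rw [Pi.single_eq_same]
    · rw [hb0 j' hj', Pi.single_eq_of_ne hj']
  have hab : a - b j ∈
      Submodule.span ℂ {c | ∃ b ∈ (K₂ j).S, ∃ b' ∈ (K₂ j).S, c = b * b' - b' * b} := by
    refine h3 j _ ((K₂ j).S.sub_mem ha hbS) fun z hz => ?_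
    have hm0 : (m₂ j : ℂ) ≠ 0 := by
      have : m₂ j ≠ 0 := by have := hm j; omega
      exact_mod_cast this
    rw [map_sub, h2 j z hz (b j) hbS _ (hbv z hz)]
    field_simp
    ring
  have e1 := single_mem (D := D) (K₁ := K₁) (K₂ := K₂) hK2a j (hder j) hab
  have e2 := (dsub D K₁ K₂ hK2a).add_mem e1 hbd
  rw [Prod.mk_add_mk, add_zero, mem_dsub] at e2
  have e3 : Pi.single j (a - b j) + b = (Pi.single j a : ∀ j, Matrix (Fin (n₂ j)) (Fin (n₂ j)) ℂ) := by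
    conv_lhs => rw [hbs]
    rw [← Pi.single_add, Pi.single_eq_same, sub_add_cancel]
  rw [e3] at e2
  exact e2


end Pool.Agent.K3M
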