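import Pool.Agent.K3M.HDefs
import Pool.Agent.K3M.NE
import Pool.Agent.K3M.NN

/-!
# NI: factors without homomorphisms have no intertwining matrices
-/

set_option autoImplicit false

open scoped BigOperators
open Matrix

namespace Pool.Agent.K3M

open Pool.Agent.DRB Pool.Agent.K3D Pool.Agent.K3E Pool.Agent.K3C Pool.Agent.K3P

theorem NI_proof (hL : Stmt_Leg) (hK2c : Stmt_K2c) (hE2d : Stmt_E2d) (hE5a : Stmt_E5a) (hE5v : Stmt_E5v)
    (hC2d : Stmt_C2d) (hC5a : Stmt_C5a) (hC5v : Stmt_C5v) (hPH : Stmt_PH) : Stmt_NI := by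
  intro g A r s h B D hHom n₁ m₁ K₁ n₂ m₂ K₂ hm1 hm2
  -- the normal forms of the blocks
  have key : ∀ (Y : Matrix (Idx g) (Idx g) ℂ) (ξ : ℂ), InLie (Gam A) Y ξ →
      ∃ a b, DD2 D K₁ K₂ a b ∧
        (∀ i, D.blk (Fin.castAdd s i) Y = (K₁ i).Z (a i) + (ξ / 2) • 1) ∧
        ∀ j, D.blk (Fin.natAdd r j) Y = (K₂ j).Z (b j) + (ξ / 2) • 1 := by
    intro Y ξ hY
    obtain ⟨a, b, ha, hb⟩ := N0X.exists_tup (D := D) (K₁ := K₁) (K₂ := K₂) hK2c hE2d hC2d Y ξ hY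
    refine ⟨a, b, ⟨Y, ξ, hY, ha, hb⟩, fun i => ?_, fun j => ?_⟩
    · have h2 := Q3.blk_lie D hK2c Y ξ hY (Fin.castAdd s i)
      have h3 : a i ∈ (K₁ i).S := ⟨G0X.skewC (K₁ i) (G0X.bil_zero (K₁ i) hE5a (ha i)),
        (hE5v _ _ _ _ (K₁ i) (hm1 i)).1 _ _ (hK2c _ _ _ ξ h2).1 (ha i)⟩
      exact NEX.normalE hL hK2c hE5a (K₁ i) h2 h3 (ha i)
    · have h2 := Q3.blk_lie D hK2c Y ξ hY (Fin.natAdd r j)
      exact NEX.normalC hL hK2c hC5a (K₂ j) h2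
        ((hC5v _ _ _ _ (K₂ j) (hm2 j)).1 _ _ (hK2c _ _ _ ξ h2).1 (hb j)) (hb j)
  -- the conclusion
  have fin : ∀ i j, i ≠ j → ∀ F : Matrix (Idx (h j)) (Idx (h i)) ℂ,
      (∀ Y ξ, InLie (Gam A) Y ξ → D.blk j Y * F = F * D.blk i Y) → F = 0 := by
    intro i j hij F hF
    have h1 := hPH g A (r + s) h B D i j F hF
    have h2 : Submodule.span ℂ {Z | ∃ α, IsHom (B i) (B j) α ∧ Z = toR α} ≤ ⊥ := by
      rw [Submodule.span_le]
      rintro _ ⟨α, hα, rfl⟩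
      rw [hHom i j hij α hα, Q1.toR_zero]
      exact Submodule.zero_mem _
    exact (Submodule.mem_bot ℂ).1 (h2 h1)
  refine ⟨fun i j hij F hF => ?_, fun i j F hF => ?_, fun i j hij F hF => ?_⟩
  · refine fin _ _ (fun h => hij (Fin.castAdd_injective r s h)) F fun Y ξ hY => ?_
    obtain ⟨a, b, hd, e1, -⟩ := key Y ξ hY
    rw [e1 i, e1 j, Matrix.add_mul, Matrix.mul_add, hF a b hd, Matrix.smul_mul, Matrix.mul_smul,
      Matrix.one_mul, Matrix.mul_one]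
  · refine fin _ _ (fun h => ?_) F fun Y ξ hY => ?_
    · have h1 := congrArg Fin.val h
      simp only [Fin.val_castAdd, Fin.val_natAdd] at h1
      omega
    · obtain ⟨a, b, hd, e1, e2⟩ := key Y ξ hY
      rw [e1 i, e2 j, Matrix.add_mul, Matrix.mul_add, hF a b hd, Matrix.smul_mul, Matrix.mul_smul,
        Matrix.one_mul, Matrix.mul_one]
  · refine fin _ _ (fun h => hij (Fin.natAdd_injective s r h)) F fun Y ξ hY => ?_
    obtain ⟨a, b, hd, -, e2⟩ := key Y ξ hY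
    rw [e2 i, e2 j, Matrix.add_mul, Matrix.mul_add, hF a b hd, Matrix.smul_mul, Matrix.mul_smul,
      Matrix.one_mul, Matrix.mul_one]

end Pool.Agent.K3M
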