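import Pool.Agent.K3M.F4
import Pool.Agent.K3C.C8t

/-!
# F4, part (b): factors with `m = 4` and factors with complex multiplication
-/

set_option autoImplicit false

open scoped BigOperators
open Matrix Polynomial

namespace Pool.Agent.K3M

open Pool.Agent.DRB Pool.Agent.K3D Pool.Agent.K3E Pool.Agent.K3C Pool.Agent.K3P

namespace F4X

section one

variable {g n m : ℕ} {A : AbVar g} (K : KSC A n m)

/-- separation of vectors -/
theorem sepC {z : ℂ} (hz : aeval z K.P = 0) {v x : Fin n → ℂ} (hv : v ∈ K.Tl z) (h : ∀ c : ℂ, v ≠ c • x) :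
    ∃ η ∈ K.Tl ((starRingEnd ℂ) z), K.bil η v = 1 ∧ (x ∈ K.Tl z → K.bil η x = 0) := by
  obtain ⟨b, b', hb, hb', h0, h1, h2⟩ := C8D.dual K hz
  have hns : v ∉ Submodule.span ℂ {x} := by
    intro hmem
    obtain ⟨c, hc⟩ := Submodule.mem_span_singleton.1 hmem
    exact h c hc.symm
  obtain ⟨f, hf, hfx⟩ := Submodule.exists_le_ker_of_notMem hns
  have hfx' : f x = 0 := hfx (Submodule.mem_span_singleton_self x)
  have hη : ∀ t ∈ K.Tl z, K.bil (∑ k, f (b k) • b' k) t = f t := by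
    intro t ht
    conv_rhs => rw [← h1 t ht]
    rw [← C5L.bf_apply, map_sum, LinearMap.sum_apply, map_sum]
    refine Finset.sum_congr rfl fun k _ => ?_
    rw [map_smul, LinearMap.smul_apply, C5L.bf_apply, map_smul, smul_eq_mul, smul_eq_mul, mul_comm]
  refine ⟨(f v)⁻¹ • ∑ k, f (b k) • b' k, Submodule.smul_mem _ _ (Submodule.sum_mem _ fun k _ =>
    Submodule.smul_mem _ _ (hb' k)), ?_, fun hx => ?_⟩
  · rw [← C5L.bf_apply, map_smul, LinearMap.smul_apply, C5L.bf_apply, hη v hv, smul_eq_mul,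
      inv_mul_cancel₀ hf]
  · rw [← C5L.bf_apply, map_smul, LinearMap.smul_apply, C5L.bf_apply, hη x hx, hfx', smul_zero]

/-- An ideal of `sl(T_w)` containing a non-scalar element is everything. -/
theorem idealC (a : Submodule ℂ (Matrix (Fin n) (Fin n) ℂ)) (hm : 3 ≤ m) {w : ℂ}
    (hw : aeval w K.P = 0)
    (hres : ∀ X ∈ a, ∀ Y : Matrix (Fin n) (Fin n) ℂ, (∀ v ∈ K.Tl w, Y *ᵥ v = X *ᵥ v) → Y ∈ a)
    (hbr : ∀ X ∈ a, X ∈ K.S → ∀ x ∈ K.Tl w, ∀ y ∈ K.Tl ((starRingEnd ℂ) w), K.bil x y = 0 →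
      X * C5L.wm K x y - C5L.wm K x y * X ∈ a) {X : Matrix (Fin n) (Fin n) ℂ} (hXa : X ∈ a)
    (hXS : X ∈ K.S) {v0 : Fin n → ℂ} (hv0 : v0 ∈ K.Tl w) (hX0 : ∀ c : ℂ, X *ᵥ v0 ≠ c • v0)
    (x : Fin n → ℂ) (hx : x ∈ K.Tl w) (y : Fin n → ℂ) (hy : y ∈ K.Tl ((starRingEnd ℂ) w))
    (hxy : K.bil x y = 0) : C5L.wm K x y ∈ a := by
  have hne := C5L.conj_ne K hw
  have hwc := C5L.conj_root K hw
  have hcc : (starRingEnd ℂ) ((starRingEnd ℂ) w) = w := Complex.conj_conj w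
  -- scalar products inside one eigenspace vanish
  have o1 : ∀ v ∈ K.Tl w, ∀ v' ∈ K.Tl w, K.bil v v' = 0 := fun v hv v' hv' =>
    C5L.orth K (Ne.symm hne) hv hv'
  have o2 : ∀ v ∈ K.Tl ((starRingEnd ℂ) w), ∀ v' ∈ K.Tl ((starRingEnd ℂ) w), K.bil v v' = 0 :=
    fun v hv v' hv' => C5L.orth K (by rw [hcc]; exact hne) hv hv'
  have hz0 : ∀ u : Fin n → ℂ, C5L.wm K u 0 = 0 := C8D.wm_zero_right K
  have hz0' : ∀ u : Fin n → ℂ, C5L.wm K 0 u = 0 := C8D.wm_zero_left K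
  -- moves
  have hLmove : ∀ v ∈ K.Tl w, v ≠ 0 → ∀ y ∈ K.Tl ((starRingEnd ℂ) w), K.bil v y = 0 →
      C5L.wm K v y ∈ a → ∀ x ∈ K.Tl w, K.bil x y = 0 → C5L.wm K x y ∈ a := by
    intro v hv hv1 y hy hvy hin x hx hxy
    by_cases hc : ∃ c : ℂ, x = c • v
    · obtain ⟨c, rfl⟩ := hc
      rw [C8D.wm_smul_left]
      exact a.smul_mem c hin
    · have hvx : ∀ c : ℂ, v ≠ c • x := by
        intro c h
        by_cases hc0 : c = 0
        · exact hv1 (by rw [h, hc0, zero_smul])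
        · exact hc ⟨c⁻¹, by rw [h, smul_smul, inv_mul_cancel₀ hc0, one_smul]⟩
      obtain ⟨η, hη, h1, h2⟩ := sepC K hw hv hvx
      have h2' := h2 hx
      have hR := C5L.wm_mem K hw hx hη
      have h3 := hbr _ hin (C5L.wm_mem K hw hv hy) x hx η hη (by rw [C5L.bil_comm]; exact h2')
      have h4 := C8D.comm_wm K hR v y
      have e1 : C5L.wm K x η *ᵥ v = x := by
        rw [C5L.wm_mulVec, h1, o1 x hx v hv, one_smul, zero_smul, sub_zero]
      have e2 : C5L.wm K x η *ᵥ y = 0 := by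
        rw [C5L.wm_mulVec, o2 η hη y hy, hxy, zero_smul, zero_smul, sub_zero]
      rw [e1, e2, hz0, add_zero] at h4
      rw [← h4, ← neg_sub]
      exact a.neg_mem h3
  have hRmove : ∀ v ∈ K.Tl w, ∀ y ∈ K.Tl ((starRingEnd ℂ) w), y ≠ 0 → K.bil v y = 0 →
      C5L.wm K v y ∈ a → ∀ η ∈ K.Tl ((starRingEnd ℂ) w), K.bil v η = 0 → C5L.wm K v η ∈ a := by
    intro v hv y hy hy1 hvy hin η hη hvη
    by_cases hc : ∃ c : ℂ, η = c • y
    · obtain ⟨c, rfl⟩ := hc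
      rw [C8D.wm_smul_right]
      exact a.smul_mem c hin
    · have hyη : ∀ c : ℂ, y ≠ c • η := by
        intro c h
        by_cases hc0 : c = 0
        · exact hy1 (by rw [h, hc0, zero_smul])
        · exact hc ⟨c⁻¹, by rw [h, smul_smul, inv_mul_cancel₀ hc0, one_smul]⟩
      obtain ⟨u, hu, h1, h2⟩ := sepC K hwc hy hyη
      rw [hcc] at hu
      have h2' := h2 hη
      have hR := C5L.wm_mem K hw hu hη
      have h3 := hbr _ hin (C5L.wm_mem K hw hv hy) u hu η hη h2'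
      have h4 := C8D.comm_wm K hR v y
      have e1 : C5L.wm K u η *ᵥ v = 0 := by
        rw [C5L.wm_mulVec, C5L.bil_comm K η v, hvη, o1 u hu v hv, zero_smul, zero_smul, sub_zero]
      have e2 : C5L.wm K u η *ᵥ y = -η := by
        rw [C5L.wm_mulVec, o2 η hη y hy, h1, zero_smul, one_smul, zero_sub]
      rw [e1, e2, hz0', zero_add] at h4
      have e3 : C5L.wm K v (-η) = -C5L.wm K v η := (C8D.wl K v).map_neg η
      rw [e3] at h4
      have h5 : C5L.wm K v η = C5L.wm K v y * C5L.wm K u η - C5L.wm K u η * C5L.wm K v y := by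
        rw [← neg_sub, h4, neg_neg]
      rw [h5]
      exact h3
  -- first element
  have hXv : X *ᵥ v0 ∈ K.Tl w := C5L.S_pres K hXS hv0
  obtain ⟨y0, hy0, h1, h2⟩ := sepC K hw hXv hX0
  have h2' := h2 hv0
  have hv00 : v0 ≠ 0 := by
    rintro rfl
    apply hX0 0
    rw [Matrix.mulVec_zero, zero_smul]
  have hy00 : y0 ≠ 0 := by
    rintro rfl
    rw [← C5L.bf_apply, map_zero, LinearMap.zero_apply] at h1
    exact zero_ne_one h1
  have hvy : K.bil v0 y0 = 0 := by rw [C5L.bil_comm]; exact h2'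
  have hA := C5L.wm_mem K hw hv0 hy0
  have hXy : X *ᵥ y0 ∈ K.Tl ((starRingEnd ℂ) w) := C5L.S_pres K hXS hy0
  have hB1 := hbr X hXa hXS v0 hv0 y0 hy0 hvy
  have hB1' := C8D.comm_wm K hXS v0 y0
  have hB1S : X * C5L.wm K v0 y0 - C5L.wm K v0 y0 * X ∈ K.S := by
    rw [hB1']
    exact K.S.add_mem (C5L.wm_mem K hw hXv hy0) (C5L.wm_mem K hw hv0 hXy)
  have hB2 := hbr _ hB1 hB1S v0 hv0 y0 hy0 hvy
  have hin : C5L.wm K v0 y0 ∈ a := by
    refine hres _ (a.smul_mem (-1 / 2 : ℂ) hB2) _ fun v hv => ?_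
    have hXX : K.bil (X *ᵥ y0) v0 = -1 := by
      rw [C5L.bil_S K hXS, h1]
    have e0 : ∀ v ∈ K.Tl w, C5L.wm K v0 y0 *ᵥ v = K.bil y0 v • v0 := by
      intro v hv
      rw [C5L.wm_mulVec, o1 v0 hv0 v hv, zero_smul, sub_zero]
    have e1 : ∀ v ∈ K.Tl w, (X * C5L.wm K v0 y0 - C5L.wm K v0 y0 * X) *ᵥ v =
        K.bil y0 v • (X *ᵥ v0) + K.bil (X *ᵥ y0) v • v0 := by
      intro v hv
      rw [hB1', Matrix.add_mulVec, C5L.wm_mulVec, C5L.wm_mulVec, o1 _ hXv v hv, o1 v0 hv0 v hv,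
        zero_smul, sub_zero, zero_smul, sub_zero]
    rw [Matrix.smul_mulVec, Matrix.sub_mulVec, ← Matrix.mulVec_mulVec, ← Matrix.mulVec_mulVec, e0 v hv,
      e1 v hv, Matrix.mulVec_smul, e1 v0 hv0, Matrix.mulVec_add, Matrix.mulVec_smul,
      Matrix.mulVec_smul, e0 _ hXv, e0 v0 hv0, h1, h2', hXX]
    simp only [zero_smul, smul_zero, zero_add, add_zero, one_smul]
    module
  -- the target
  by_cases hx0 : x = 0
  · rw [hx0, hz0']; exact a.zero_mem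
  by_cases hy0' : y = 0
  · rw [hy0', hz0]; exact a.zero_mem
  obtain ⟨p, hp, hp0, hp1, hp2⟩ : ∃ p ∈ K.Tl w, p ≠ 0 ∧ K.bil p y0 = 0 ∧ K.bil p y = 0 := by
    let f : K.Tl w →ₗ[ℂ] (Fin 2 → ℂ) := LinearMap.pi ![(C5L.bf K y0).comp (K.Tl w).subtype,
      (C5L.bf K y).comp (K.Tl w).subtype]
    have hker : LinearMap.ker f ≠ ⊥ := by
      apply LinearMap.ker_ne_bot_of_finrank_lt
      rw [C5L.finrank_Tl K hw, Module.finrank_fin_fun]
      omega
    obtain ⟨⟨p, hpT⟩, hp', hne⟩ := Submodule.exists_mem_ne_zero_of_ne_bot hker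
    rw [LinearMap.mem_ker] at hp'
    have e0 := congrFun hp' 0
    have e1 := congrFun hp' 1
    refine ⟨p, hpT, fun h => hne (Subtype.ext h), ?_, ?_⟩
    · rw [C5L.bil_comm]
      exact e0
    · rw [C5L.bil_comm]
      exact e1
  have s1 := hLmove v0 hv0 hv00 y0 hy0 hvy hin p hp hp1
  have s2 := hRmove p hp y0 hy0 hy00 hp1 s1 y hy hp2
  exact hLmove p hp hp0 y hy hp2 s2 x hx hxy

end one

/-- the pairs of different indices -/
abbrev Pd (k : ℕ) : Type := {p : Fin k × Fin k // p.1 ≠ p.2}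

theorem cardd4 : Fintype.card (Pd 4) = 12 := by decide

section two

variable {g n m : ℕ} {A : AbVar g} (K : KSC A n m)

/-- a trace free wedge is a commutator -/
theorem wm_comm {w : ℂ} (hw : aeval w K.P = 0) {x y η : Fin n → ℂ} (hx : x ∈ K.Tl w)
    (hy : y ∈ K.Tl ((starRingEnd ℂ) w)) (hη : η ∈ K.Tl ((starRingEnd ℂ) w)) (hxy : K.bil x y = 0)
    (h1 : K.bil η x = 1) :
    C5L.wm K x y = C5L.wm K x η * C5L.wm K x y - C5L.wm K x y * C5L.wm K x η := by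
  have hne := C5L.conj_ne K hw
  have hcc : (starRingEnd ℂ) ((starRingEnd ℂ) w) = w := Complex.conj_conj w
  have e1 : C5L.wm K x η *ᵥ x = x := by
    rw [C5L.wm_mulVec, h1, C5L.orth K (Ne.symm hne) hx hx, one_smul, zero_smul, sub_zero]
  have e2 : C5L.wm K x η *ᵥ y = 0 := by
    rw [C5L.wm_mulVec, C5L.orth K (by rw [hcc]; exact hne) hη hy, hxy, zero_smul, zero_smul, sub_zero]
  rw [C8D.comm_wm K (C5L.wm_mem K hw hx hη), e1, e2, C8D.wm_zero_right, add_zero]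

/-- twelve independent trace free elements -/
theorem twelve (hm : 4 ≤ m) {w : ℂ} (hw : aeval w K.P = 0) :
    ∃ E : Pd 4 → Matrix (Fin n) (Fin n) ℂ, (∀ p, ∃ x ∈ K.S, ∃ y ∈ K.S, E p = x * y - y * x) ∧
      ∀ u : Pd 4 → ℂ, u ≠ 0 → ∃ v ∈ K.Tl w, ∀ c : ℂ, (∑ p, u p • E p) *ᵥ v ≠ c • v := by
  obtain ⟨b, b', hb, hb', h0, h1, h2⟩ := C8D.dual K hw
  have hne := C5L.conj_ne K hw
  have hfr : 4 ≤ Module.finrank ℂ (K.Tl w) := by rw [C5L.finrank_Tl K hw]; exact hm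
  set e : Fin 4 → Fin (Module.finrank ℂ (K.Tl w)) := fun k => Fin.castLE hfr k with he
  have hinj : ∀ k l, e k = e l → k = l := fun k l h => Fin.castLE_injective hfr h
  refine ⟨fun p => C5L.wm K (b (e p.1.1)) (b' (e p.1.2)), fun p => ?_, fun u hu => ?_⟩
  · refine ⟨C5L.wm K (b (e p.1.1)) (b' (e p.1.1)), C5L.wm_mem K hw (hb _) (hb' _),
      C5L.wm K (b (e p.1.1)) (b' (e p.1.2)), C5L.wm_mem K hw (hb _) (hb' _), ?_⟩
    refine wm_comm K hw (hb _) (hb' _) (hb' _) ?_ ?_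
    · rw [C5L.bil_comm, h0, if_neg (fun h => p.2 (hinj _ _ h))]
    · rw [h0, if_pos rfl]
  · obtain ⟨p0, hp0⟩ := Function.ne_iff.1 hu
    refine ⟨b (e p0.1.2), hb _, fun c hcon => ?_⟩
    have h3 : K.bil (b' (e p0.1.1)) ((∑ p, u p • C5L.wm K (b (e p.1.1)) (b' (e p.1.2))) *ᵥ
        b (e p0.1.2)) = u p0 := by
      rw [Matrix.sum_mulVec, ← C5L.bf_apply, map_sum, Finset.sum_eq_single p0]
      · rw [Matrix.smul_mulVec, map_smul, C5L.wm_mulVec, C5L.orth K (Ne.symm hne) (hb _) (hb _),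
          zero_smul, sub_zero, map_smul, C5L.bf_apply, h0, h0, if_pos rfl, if_pos rfl]
        simp
      · intro p _ hpne
        rw [Matrix.smul_mulVec, map_smul, C5L.wm_mulVec, C5L.orth K (Ne.symm hne) (hb _) (hb _),
          zero_smul, sub_zero, map_smul, C5L.bf_apply, h0, h0]
        split_ifs with h5 h6
        · exact absurd (Subtype.ext (Prod.ext (hinj _ _ h6) (hinj _ _ h5.symm))) hpne
        · simp
        · simp
        · simp
      · intro h; exact absurd (Finset.mem_univ p0) h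
    have hcon' : (∑ p, u p • C5L.wm K (b (e p.1.1)) (b' (e p.1.2))) *ᵥ b (e p0.1.2) =
        c • b (e p0.1.2) := hcon
    rw [hcon', ← C5L.bf_apply, map_smul, C5L.bf_apply, h0,
      if_neg (fun h => p0.2 (hinj _ _ h.symm)), smul_zero] at h3
    exact hp0 h3.symm

end two

section tup2

variable {r s : ℕ} {h : Fin r → ℕ} {B : ∀ i, AbVar (h i)} {h' : Fin s → ℕ} {B' : ∀ j, AbVar (h' j)}
  {n₁ m₁ : Fin r → ℕ} {K₁ : ∀ i, KSE (B i) (n₁ i) (m₁ i)}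
  {n₂ m₂ : Fin s → ℕ} {K₂ : ∀ j, KSC (B' j) (n₂ j) (m₂ j)}
  {d : (∀ i, Matrix (Fin (n₁ i)) (Fin (n₁ i)) ℂ) → (∀ j, Matrix (Fin (n₂ j)) (Fin (n₂ j)) ℂ) → Prop}

/-- the elements of `u(T_w)` hit by tuples with zero component on `T_z` -/
def kk (T : TupAlg2 K₁ K₂ d) (i : Fin r) (z : ℂ) (j : Fin s) (w : ℂ) :
    Submodule ℂ (Matrix (Fin (n₂ j)) (Fin (n₂ j)) ℂ) where
  carrier := {Y | ∃ a b, d a b ∧ (∀ v ∈ (K₂ j).Tl w, b j *ᵥ v = Y *ᵥ v) ∧
    ∀ v ∈ (K₁ i).Tl z, a i *ᵥ v = 0}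
  add_mem' := by
    rintro X Y ⟨a, b, hd, h1, h2⟩ ⟨a', b', hd', h1', h2'⟩
    have h3 := (NDX.sub2 T).add_mem ((NDX.mem_sub2 T a b).2 hd) ((NDX.mem_sub2 T a' b').2 hd')
    refine ⟨a + a', b + b', h3, fun v hv => ?_, fun v hv => ?_⟩
    · rw [Pi.add_apply, Matrix.add_mulVec, Matrix.add_mulVec, h1 v hv, h1' v hv]
    · rw [Pi.add_apply, Matrix.add_mulVec, h2 v hv, h2' v hv, add_zero]
  zero_mem' := by
    refine ⟨0, 0, (NDX.sub2 T).zero_mem, fun v _ => ?_, fun v _ => ?_⟩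
    · rw [Pi.zero_apply]
    · rw [Pi.zero_apply, Matrix.zero_mulVec]
  smul_mem' := by
    rintro c X ⟨a, b, hd, h1, h2⟩
    have h3 := (NDX.sub2 T).smul_mem c ((NDX.mem_sub2 T a b).2 hd)
    refine ⟨c • a, c • b, h3, fun v hv => ?_, fun v hv => ?_⟩
    · rw [Pi.smul_apply, Matrix.smul_mulVec, Matrix.smul_mulVec, h1 v hv]
    · rw [Pi.smul_apply, Matrix.smul_mulVec, h2 v hv, smul_zero]

/-- the elements of `so(T_z)` hit by tuples with zero component on the places in `J` -/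
def ww (T : TupAlg2 K₁ K₂ d) (i : Fin r) (z : ℂ) (j : Fin s) (J : Finset ℂ) :
    Submodule ℂ (Matrix (Fin (n₁ i)) (Fin (n₁ i)) ℂ) where
  carrier := {X | ∃ a b, d a b ∧ (∀ v ∈ (K₁ i).Tl z, a i *ᵥ v = X *ᵥ v) ∧
    ∀ w ∈ J, ∀ v ∈ (K₂ j).Tl w, b j *ᵥ v = 0}
  add_mem' := by
    rintro X Y ⟨a, b, hd, h1, h2⟩ ⟨a', b', hd', h1', h2'⟩
    have h3 := (NDX.sub2 T).add_mem ((NDX.mem_sub2 T a b).2 hd) ((NDX.mem_sub2 T a' b').2 hd')
    refine ⟨a + a', b + b', h3, fun v hv => ?_, fun w hw v hv => ?_⟩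
    · rw [Pi.add_apply, Matrix.add_mulVec, Matrix.add_mulVec, h1 v hv, h1' v hv]
    · rw [Pi.add_apply, Matrix.add_mulVec, h2 w hw v hv, h2' w hw v hv, add_zero]
  zero_mem' := by
    refine ⟨0, 0, (NDX.sub2 T).zero_mem, fun v _ => ?_, fun w _ v _ => ?_⟩
    · rw [Pi.zero_apply]
    · rw [Pi.zero_apply, Matrix.zero_mulVec]
  smul_mem' := by
    rintro c X ⟨a, b, hd, h1, h2⟩
    have h3 := (NDX.sub2 T).smul_mem c ((NDX.mem_sub2 T a b).2 hd)
    refine ⟨c • a, c • b, h3, fun v hv => ?_, fun w hw v hv => ?_⟩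
    · rw [Pi.smul_apply, Matrix.smul_mulVec, Matrix.smul_mulVec, h1 v hv]
    · rw [Pi.smul_apply, Matrix.smul_mulVec, h2 w hw v hv, smul_zero]

/-- the commutators of `u_E(T_j)` belong to `kk` -/
theorem kk_derived (T : TupAlg2 K₁ K₂ d) {i : Fin r} {j : Fin s} (hi : m₁ i = 4) (hj : 4 ≤ m₂ j)
    {z w : ℂ} (hz : aeval z (K₁ i).P = 0) (hw : aeval w (K₂ j).P = 0)
    {x y : Matrix (Fin (n₂ j)) (Fin (n₂ j)) ℂ} (hx : x ∈ (K₂ j).S) (hy : y ∈ (K₂ j).S) :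
    x * y - y * x ∈ kk T i z j w := by
  classical
  have hne := C5L.conj_ne (K₂ j) hw
  have hwc := C5L.conj_root (K₂ j) hw
  have hcc : (starRingEnd ℂ) ((starRingEnd ℂ) w) = w := Complex.conj_conj w
  -- lifts of trace free wedges
  have hlift : ∀ x ∈ (K₂ j).Tl w, ∀ y ∈ (K₂ j).Tl ((starRingEnd ℂ) w), (K₂ j).bil x y = 0 →
      ∃ a b, d a b ∧ b j = C5L.wm (K₂ j) x y := by
    intro x hx y hy hxy
    by_cases hx0 : x = 0
    · refine ⟨0, 0, T.zero, ?_⟩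
      rw [hx0, C8D.wm_zero_left]
      rfl
    · obtain ⟨η, hη, h1, -⟩ := sepC (K₂ j) hw (x := 0) hx (fun c h => hx0 (by rw [h, smul_zero]))
      rw [wm_comm (K₂ j) hw hx hy hη hxy h1]
      exact T.onto' j _ (C5L.wm_mem (K₂ j) hw hx hη) _ (C5L.wm_mem (K₂ j) hw hx hy)
  have hres : ∀ X ∈ kk T i z j w, ∀ Y : Matrix (Fin (n₂ j)) (Fin (n₂ j)) ℂ,
      (∀ v ∈ (K₂ j).Tl w, Y *ᵥ v = X *ᵥ v) → Y ∈ kk T i z j w := by
    rintro X ⟨a, b, hd, h1, h2⟩ Y hY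
    exact ⟨a, b, hd, fun v hv => by rw [h1 v hv, hY v hv], h2⟩
  have hbr : ∀ X ∈ kk T i z j w, X ∈ (K₂ j).S → ∀ x ∈ (K₂ j).Tl w,
      ∀ y ∈ (K₂ j).Tl ((starRingEnd ℂ) w), (K₂ j).bil x y = 0 →
      X * C5L.wm (K₂ j) x y - C5L.wm (K₂ j) x y * X ∈ kk T i z j w := by
    rintro X ⟨a, b, hd, h1, h2⟩ hX x hx y hy hxy
    obtain ⟨a', b', hd', hb'⟩ := hlift x hx y hy hxy
    have hwS := C5L.wm_mem (K₂ j) hw hx hy
    refine ⟨_, _, T.brk a b a' b' hd hd', fun v hv => ?_, fun v hv => ?_⟩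
    · rw [Matrix.sub_mulVec, Matrix.sub_mulVec, ← Matrix.mulVec_mulVec, ← Matrix.mulVec_mulVec,
        ← Matrix.mulVec_mulVec, ← Matrix.mulVec_mulVec, hb', h1 v hv,
        h1 _ (C5L.S_pres (K₂ j) hwS hv)]
    · rw [Matrix.sub_mulVec, ← Matrix.mulVec_mulVec, ← Matrix.mulVec_mulVec, h2 v hv,
        h2 _ (E5L.S_pres (K₁ i) ((T.mem a' b' hd').1 i) hv), Matrix.mulVec_zero, sub_zero]
  -- a non-scalar element
  obtain ⟨E, hE, hEu⟩ := twelve (K₂ j) hj hw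
  obtain ⟨c, hc, hcY⟩ := four (K₁ i) hi hz
  have hex : ∀ p : Pd 4, ∃ a b, d a b ∧ b j = E p := by
    intro p
    obtain ⟨x, hx, y, hy, hxy⟩ := hE p
    rw [hxy]
    exact T.onto' j x hx y hy
  choose a b hd hbE using hex
  let f : (Pd 4 → ℂ) →ₗ[ℂ] (Pr 4 → ℂ) :=
    { toFun := fun u q => ∑ p, u p * (K₁ i).bil (a p i *ᵥ c q.1.1) (c q.1.2)
      map_add' := by
        intro u v
        funext q
        rw [Pi.add_apply, ← Finset.sum_add_distrib]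
        exact Finset.sum_congr rfl fun p _ => by rw [Pi.add_apply, add_mul]
      map_smul' := by
        intro a u
        funext q
        rw [Pi.smul_apply, RingHom.id_apply, smul_eq_mul, Finset.mul_sum]
        exact Finset.sum_congr rfl fun p _ => by rw [Pi.smul_apply, smul_eq_mul, mul_assoc] }
  have hker : LinearMap.ker f ≠ ⊥ := by
    apply LinearMap.ker_ne_bot_of_finrank_lt
    rw [Module.finrank_fintype_fun_eq_card, Module.finrank_fintype_fun_eq_card, card4, cardd4]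
    norm_num
  obtain ⟨u, hu, hu0⟩ := Submodule.exists_mem_ne_zero_of_ne_bot hker
  rw [LinearMap.mem_ker] at hu
  obtain ⟨v0, hv0, hvc⟩ := hEu u hu0
  have hdt : d (∑ p, u p • a p) (∑ p, u p • b p) := by
    have h3 : ∑ p, u p • (a p, b p) ∈ NDX.sub2 T :=
      Submodule.sum_mem _ fun p _ => Submodule.smul_mem _ _ ((NDX.mem_sub2 T (a p) (b p)).2 (hd p))
    have h4 : ∑ p, u p • (a p, b p) = (∑ p, u p • a p, ∑ p, u p • b p) := by
      apply Prod.ext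
      · rw [Prod.fst_sum]; rfl
      · rw [Prod.snd_sum]; rfl
    rw [h4] at h3
    exact h3
  have hai : (∑ p, u p • a p) i = ∑ p, u p • a p i := by
    rw [Finset.sum_apply]; rfl
  have hbj : (∑ p, u p • b p) j = ∑ p, u p • E p := by
    rw [Finset.sum_apply]
    exact Finset.sum_congr rfl fun p _ => by rw [Pi.smul_apply, hbE]
  have hz0 : ∀ v ∈ (K₁ i).Tl z, (∑ p, u p • a p) i *ᵥ v = 0 := by
    refine hcY _ ((T.mem _ _ hdt).1 i) fun q => ?_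
    have h1 : f u q = 0 := congrFun hu q
    have h2 : f u q = ∑ p, u p * (K₁ i).bil (a p i *ᵥ c q.1.1) (c q.1.2) := rfl
    rw [hai, Matrix.sum_mulVec]
    have h4 : ∑ p, (u p • a p i) *ᵥ c q.1.1 = ∑ p, u p • (a p i *ᵥ c q.1.1) :=
      Finset.sum_congr rfl fun p _ => by rw [Matrix.smul_mulVec]
    rw [h4, bil_sum_left, ← h2, h1]
  have hYS : (∑ p, u p • E p) ∈ (K₂ j).S := by
    rw [← hbj]; exact (T.mem _ _ hdt).2 j
  have hYk : (∑ p, u p • E p) ∈ kk T i z j w :=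
    ⟨_, _, hdt, fun v _ => by rw [hbj], hz0⟩
  have hall := idealC (K₂ j) (kk T i z j w) (by omega) hw hres hbr hYk hYS hv0 hvc
  -- the derived algebra
  refine C8D.derived (K₂ j) (fun z' hz' x hx y hy hxy => ?_) hx hy
  by_cases h1 : z' = w
  · subst h1
    exact hall x hx y hy hxy
  by_cases h2 : z' = (starRingEnd ℂ) w
  · rw [h2] at hx hy
    rw [hcc] at hy
    have h3 := (kk T i z j w).neg_mem (hall y hy x hx (by rw [C5L.bil_comm]; exact hxy))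
    rw [← C8D.wm_swap] at h3
    exact h3
  · refine hres 0 (kk T i z j w).zero_mem _ fun v hv => ?_
    have h3 : (K₂ j).bil y v = 0 := C5L.orth (K₂ j) (by
      rw [Complex.conj_conj]; exact fun h => h1 h.symm) hy hv
    have h4 : (K₂ j).bil x v = 0 := C5L.orth (K₂ j) (by
      intro h
      apply h2
      rw [h, Complex.conj_conj]) hx hv
    rw [C5L.wm_mulVec, h3, h4, zero_smul, zero_smul, sub_zero, Matrix.zero_mulVec]

/-- one place of each factor -/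
theorem ww_one (T : TupAlg2 K₁ K₂ d) {i : Fin r} {j : Fin s} (hi : m₁ i = 4) (hj : 4 ≤ m₂ j)
    {z w : ℂ} (hz : aeval z (K₁ i).P = 0) (hw : aeval w (K₂ j).P = 0)
    {X : Matrix (Fin (n₁ i)) (Fin (n₁ i)) ℂ} (hX : X ∈ (K₁ i).S) : X ∈ ww T i z j {w} := by
  refine Submodule.span_le.2 ?_ (NDX.perf (K₁ i) (by omega) hX)
  rintro _ ⟨x, hx, y, hy, rfl⟩
  obtain ⟨a, b, hd, ha⟩ := T.onto i x hx
  obtain ⟨a', b', hd', ha'⟩ := T.onto i y hy
  obtain ⟨a3, b3, hd3, h1, h2⟩ := kk_derived T hi hj hz hw ((T.mem a b hd).2 j) ((T.mem a' b' hd').2 j)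
  have h3 := (NDX.sub2 T).sub_mem ((NDX.mem_sub2 T _ _).2 (T.brk a b a' b' hd hd'))
    ((NDX.mem_sub2 T _ _).2 hd3)
  refine ⟨_, _, h3, fun v hv => ?_, fun w' hw' v hv => ?_⟩
  · show ((a i * a' i - a' i * a i) - a3 i) *ᵥ v = _
    rw [Matrix.sub_mulVec, h2 v hv, sub_zero, ha, ha']
  · rw [Finset.mem_singleton] at hw'
    subst hw'
    show ((b j * b' j - b' j * b j) - b3 j) *ᵥ v = 0
    rw [Matrix.sub_mulVec, h1 v hv, sub_self]

/-- all places of the second factor -/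
theorem ww_all (T : TupAlg2 K₁ K₂ d) {i : Fin r} {j : Fin s} (hi : m₁ i = 4) (hj : 4 ≤ m₂ j)
    {z : ℂ} (hz : aeval z (K₁ i).P = 0) (J : Finset ℂ) (hJ : ∀ w ∈ J, aeval w (K₂ j).P = 0)
    {X : Matrix (Fin (n₁ i)) (Fin (n₁ i)) ℂ} (hX : X ∈ (K₁ i).S) : X ∈ ww T i z j J := by
  classical
  induction J using Finset.induction_on generalizing X with
  | empty =>
    obtain ⟨a, b, hd, ha⟩ := T.onto i X hX
    exact ⟨a, b, hd, fun v _ => by rw [ha], fun w hw => absurd hw (Finset.notMem_empty w)⟩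
  | insert w J hw ih =>
    have ih' := fun {X} hX => ih (fun w' hw' => hJ w' (Finset.mem_insert_of_mem hw')) (X := X) hX
    refine Submodule.span_le.2 ?_ (NDX.perf (K₁ i) (by omega) hX)
    rintro _ ⟨x, hx, y, hy, rfl⟩
    obtain ⟨a, b, hd, h1, h2⟩ := ih' hx
    obtain ⟨a', b', hd', h1', h2'⟩ := ww_one T hi hj hz (hJ w (Finset.mem_insert_self _ _)) hy
    refine ⟨_, _, T.brk a b a' b' hd hd', fun v hv => ?_, fun w' hw' v hv => ?_⟩
    · rw [Matrix.sub_mulVec, Matrix.sub_mulVec, ← Matrix.mulVec_mulVec, ← Matrix.mulVec_mulVec,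
        ← Matrix.mulVec_mulVec, ← Matrix.mulVec_mulVec, h1' v hv, h1 v hv,
        h1 _ (E5L.S_pres (K₁ i) hy hv), h1' _ (E5L.S_pres (K₁ i) hx hv)]
    · have hp := C5L.S_pres (K₂ j) ((T.mem a b hd).2 j) hv
      have hp' := C5L.S_pres (K₂ j) ((T.mem a' b' hd').2 j) hv
      rw [Matrix.sub_mulVec, ← Matrix.mulVec_mulVec, ← Matrix.mulVec_mulVec]
      rcases Finset.mem_insert.1 hw' with h | h
      · subst h
        rw [h2' w' (Finset.mem_singleton_self _) v hv, h2' w' (Finset.mem_singleton_self _) _ hp,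
          Matrix.mulVec_zero, sub_zero]
      · rw [h2 w' h v hv, h2 w' h _ hp', Matrix.mulVec_zero, sub_zero]

/-- F4, part (b). -/
theorem mixed4 (T : TupAlg2 K₁ K₂ d) {i : Fin r} {j : Fin s} (hi : m₁ i = 4)
    (hj : m₂ j = 1 ∨ 4 ≤ m₂ j) {x : Matrix (Fin (n₁ i)) (Fin (n₁ i)) ℂ} (hx : x ∈ (K₁ i).S) :
    ∃ a b, d a b ∧ a i = x ∧ b j = 0 := by
  classical
  let W : Submodule ℂ (Matrix (Fin (n₁ i)) (Fin (n₁ i)) ℂ) :=
    { carrier := {x | ∃ a b, d a b ∧ a i = x ∧ b j = 0}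
      add_mem' := by
        rintro x y ⟨a, b, hd, rfl, h2⟩ ⟨a', b', hd', rfl, h2'⟩
        refine ⟨a + a', b + b', (NDX.sub2 T).add_mem ((NDX.mem_sub2 T a b).2 hd)
          ((NDX.mem_sub2 T a' b').2 hd'), rfl, ?_⟩
        rw [Pi.add_apply, h2, h2', add_zero]
      zero_mem' := ⟨0, 0, (NDX.sub2 T).zero_mem, rfl, rfl⟩
      smul_mem' := by
        rintro c x ⟨a, b, hd, rfl, h2⟩
        refine ⟨c • a, c • b, (NDX.sub2 T).smul_mem c ((NDX.mem_sub2 T a b).2 hd), rfl, ?_⟩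
        rw [Pi.smul_apply, h2, smul_zero] }
  have hW : ∀ x, x ∈ W ↔ ∃ a b, d a b ∧ a i = x ∧ b j = 0 := fun x => Iff.rfl
  rw [← hW]
  rcases hj with hj | hj
  · refine Submodule.span_le.2 ?_ (NDX.perf (K₁ i) (by omega) hx)
    rintro _ ⟨x, hx, y, hy, rfl⟩
    obtain ⟨a, b, hd, ha⟩ := T.onto i x hx
    obtain ⟨a', b', hd', ha'⟩ := T.onto i y hy
    refine ⟨_, _, T.brk a b a' b' hd hd', ?_, ?_⟩
    · show a i * a' i - a' i * a i = _
      rw [ha, ha']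
    · exact NDX.comm1' (K₂ j) hj ((T.mem a b hd).2 j) ((T.mem a' b' hd').2 j)
  · refine Submodule.span_le.2 ?_ (DUAL.mem_span (K₁ i) hx)
    rintro _ ⟨z, x, y, hz, hx, hy, rfl⟩
    show E5L.wm (K₁ i) x y ∈ W
    -- commutators of wedges at one place
    have hbrk : ∀ p ∈ (K₁ i).Tl z, ∀ q ∈ (K₁ i).Tl z, ∀ p' ∈ (K₁ i).Tl z, ∀ q' ∈ (K₁ i).Tl z,
        E5L.wm (K₁ i) p q * E5L.wm (K₁ i) p' q' - E5L.wm (K₁ i) p' q' * E5L.wm (K₁ i) p q ∈ W := by
      intro p hp q hq p' hp' q' hq'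
      have hX := E5L.wm_mem (K₁ i) hp hq
      have hY := E5L.wm_mem (K₁ i) hp' hq'
      obtain ⟨a, b, hd, h1, h2⟩ := ww_all T hi hj hz (C8T.roots (K₂ j))
        (fun w hw => C8T.mem_roots.1 hw) hX
      have hb0 : b j = 0 := C5L.mat_extT (K₂ j) fun w hw v hv => by
        rw [h2 w (C8T.mem_roots.2 hw) v hv, Matrix.zero_mulVec]
      obtain ⟨a', b', hd', ha'⟩ := T.onto i _ hY
      refine ⟨_, _, T.brk a b a' b' hd hd', ?_, ?_⟩
      · show a i * a' i - a' i * a i = _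
        rw [ha', GGX.comm_wm (K₁ i) ((T.mem a b hd).1 i), h1 p' hp', h1 q' hq', GGX.comm_wm (K₁ i) hX]
      · show b j * b' j - b' j * b j = 0
        rw [hb0, Matrix.zero_mul, Matrix.mul_zero, sub_zero]
    obtain ⟨e, e', he, he', h0, h1, h2⟩ := DUAL.dual (K₁ i) z
    have hd0 : (Module.finrank ℂ ((K₁ i).Tl z) : ℂ) - 2 ≠ 0 := by
      rw [E5L.finrank_Tl (K₁ i) hz, hi]
      norm_num
    have h5 : E5L.wm (K₁ i) x y = ((Module.finrank ℂ ((K₁ i).Tl z) : ℂ) - 2)⁻¹ •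
        ∑ k, (E5L.wm (K₁ i) x (e k) * E5L.wm (K₁ i) (e' k) y -
          E5L.wm (K₁ i) (e' k) y * E5L.wm (K₁ i) x (e k)) := by
      rw [E8C.comm_sum (K₁ i) hx hy e e' he he' h0 h1 h2, smul_smul, inv_mul_cancel₀ hd0, one_smul]
    rw [h5]
    exact W.smul_mem _ (Submodule.sum_mem _ fun k _ => hbrk x hx _ (he k) _ (he' k) y hy)

end tup2

end F4X

end Pool.Agent.K3M
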