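import Pool.Agent.K3M.StmtsF
import Pool.Agent.K3M.N0

/-!
# Pairs of factors with three-dimensional components
-/

set_option autoImplicit false

open scoped BigOperators
open Matrix Polynomial

namespace Pool.Agent.K3M

open Pool.Agent.DRB Pool.Agent.K3D Pool.Agent.K3E Pool.Agent.K3C Pool.Agent.K3P

namespace HPX

variable {r s : ℕ} {h : Fin r → ℕ} {B : ∀ i, AbVar (h i)} {h' : Fin s → ℕ} {B' : ∀ j, AbVar (h' j)}
  {n₁ m₁ : Fin r → ℕ} {K₁ : ∀ i, KSE (B i) (n₁ i) (m₁ i)}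
  {n₂ m₂ : Fin s → ℕ} {K₂ : ∀ j, KSC (B' j) (n₂ j) (m₂ j)}
  {d : (∀ i, Matrix (Fin (n₁ i)) (Fin (n₁ i)) ℂ) → (∀ j, Matrix (Fin (n₂ j)) (Fin (n₂ j)) ℂ) → Prop}

/-- the real part of a tuple -/
theorem re_mem (T : TupAlg2 K₁ K₂ d) {a : ∀ i, Matrix (Fin (n₁ i)) (Fin (n₁ i)) ℂ}
    {b : ∀ j, Matrix (Fin (n₂ j)) (Fin (n₂ j)) ℂ} (hab : d a b) :
    d (fun i => ((a i).map Complex.re).map Complex.ofReal)
      (fun j => ((b j).map Complex.re).map Complex.ofReal) := by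
  have hcc := T.aut E8Y.cc0 _ _ hab
  have h1 := T.lin _ _ _ _ (1 / 2) T.zero (T.lin _ _ _ _ 1 hab hcc)
  convert h1 using 2 with k k
  · ext p q
    simp only [Matrix.map_apply, Matrix.add_apply, Matrix.smul_apply, Matrix.zero_apply,
      E8Y.cc0_apply, smul_eq_mul, Pi.zero_apply]
    rw [Complex.re_eq_add_conj]
    ring
  · ext p q
    simp only [Matrix.map_apply, Matrix.add_apply, Matrix.smul_apply, Matrix.zero_apply,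
      E8Y.cc0_apply, smul_eq_mul, Pi.zero_apply]
    rw [Complex.re_eq_add_conj]
    ring

theorem re_of {n : ℕ} {a : Matrix (Fin n) (Fin n) ℂ} {x : Matrix (Fin n) (Fin n) ℝ}
    (hx : a = x.map Complex.ofReal) : a.map Complex.re = x := by
  subst hx
  ext p q
  simp

/-- The relation between two factors with real multiplication. -/
theorem rel_EE (T : TupAlg2 K₁ K₂ d) (Lg : TupLog2 d) (i i' : Fin r) :
    PairRel (K₁ i).S (K₁ i').S (fun x y => ∃ a b, d a b ∧ a i = x ∧ a i' = y) where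
  lin := by
    rintro _ _ _ _ c ⟨a, b, h1, rfl, rfl⟩ ⟨a', b', h2, rfl, rfl⟩
    exact ⟨_, _, T.lin _ _ _ _ c h1 h2, rfl, rfl⟩
  zero := ⟨0, 0, T.zero, rfl, rfl⟩
  brk := by
    rintro _ _ _ _ ⟨a, b, h1, rfl, rfl⟩ ⟨a', b', h2, rfl, rfl⟩
    exact ⟨_, _, T.brk _ _ _ _ h1 h2, rfl, rfl⟩
  aut := by
    rintro σ _ _ ⟨a, b, h1, rfl, rfl⟩
    exact ⟨_, _, T.aut σ _ _ h1, rfl, rfl⟩
  mem := by
    rintro _ _ ⟨a, b, h1, rfl, rfl⟩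
    exact ⟨(T.mem a b h1).1 i, (T.mem a b h1).1 i'⟩
  onto := by
    intro x hx y hy
    obtain ⟨a, b, h1, h2⟩ := T.onto i x hx
    obtain ⟨a', b', h3, h4⟩ := T.onto i y hy
    refine ⟨_, _, _, T.brk _ _ _ _ h1 h3, ?_, rfl⟩
    rw [h2, h4]
  onto' := by
    intro x hx y hy
    obtain ⟨a, b, h1, h2⟩ := T.onto i' x hx
    obtain ⟨a', b', h3, h4⟩ := T.onto i' y hy
    refine ⟨_, _, _, T.brk _ _ _ _ h1 h3, rfl, ?_⟩
    rw [h2, h4]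
  log := by
    rintro x y ⟨a, b, h1, h2, h3⟩
    obtain ⟨u, v, h4, h5, -⟩ := Lg _ _ (re_mem T h1)
    refine ⟨u i, u i', ⟨_, _, h4, rfl, rfl⟩, ?_, ?_⟩
    · have := h5 i
      rwa [re_of h2] at this
    · have := h5 i'
      rwa [re_of h3] at this

/-- The relation between a factor with real multiplication and a factor with complex multiplication. -/
theorem rel_EC (T : TupAlg2 K₁ K₂ d) (Lg : TupLog2 d) (i : Fin r) (j : Fin s) :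
    PairRel (K₁ i).S (K₂ j).S (fun x y => ∃ a b, d a b ∧ a i = x ∧ b j = y) where
  lin := by
    rintro _ _ _ _ c ⟨a, b, h1, rfl, rfl⟩ ⟨a', b', h2, rfl, rfl⟩
    exact ⟨_, _, T.lin _ _ _ _ c h1 h2, rfl, rfl⟩
  zero := ⟨0, 0, T.zero, rfl, rfl⟩
  brk := by
    rintro _ _ _ _ ⟨a, b, h1, rfl, rfl⟩ ⟨a', b', h2, rfl, rfl⟩
    exact ⟨_, _, T.brk _ _ _ _ h1 h2, rfl, rfl⟩
  aut := by
    rintro σ _ _ ⟨a, b, h1, rfl, rfl⟩
    exact ⟨_, _, T.aut σ _ _ h1, rfl, rfl⟩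
  mem := by
    rintro _ _ ⟨a, b, h1, rfl, rfl⟩
    exact ⟨(T.mem a b h1).1 i, (T.mem a b h1).2 j⟩
  onto := by
    intro x hx y hy
    obtain ⟨a, b, h1, h2⟩ := T.onto i x hx
    obtain ⟨a', b', h3, h4⟩ := T.onto i y hy
    refine ⟨_, _, _, T.brk _ _ _ _ h1 h3, ?_, rfl⟩
    rw [h2, h4]
  onto' := by
    intro x hx y hy
    obtain ⟨a, b, h1, h2⟩ := T.onto' j x hx y hy
    exact ⟨_, a, b, h1, rfl, h2⟩
  log := by
    rintro x y ⟨a, b, h1, h2, h3⟩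
    obtain ⟨u, v, h4, h5, h6⟩ := Lg _ _ (re_mem T h1)
    refine ⟨u i, v j, ⟨_, _, h4, rfl, rfl⟩, ?_, ?_⟩
    · have := h5 i
      rwa [re_of h2] at this
    · have := h6 j
      rwa [re_of h3] at this

/-- The relation between two factors with complex multiplication. -/
theorem rel_CC (T : TupAlg2 K₁ K₂ d) (Lg : TupLog2 d) (j j' : Fin s) :
    PairRel (K₂ j).S (K₂ j').S (fun x y => ∃ a b, d a b ∧ b j = x ∧ b j' = y) where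
  lin := by
    rintro _ _ _ _ c ⟨a, b, h1, rfl, rfl⟩ ⟨a', b', h2, rfl, rfl⟩
    exact ⟨_, _, T.lin _ _ _ _ c h1 h2, rfl, rfl⟩
  zero := ⟨0, 0, T.zero, rfl, rfl⟩
  brk := by
    rintro _ _ _ _ ⟨a, b, h1, rfl, rfl⟩ ⟨a', b', h2, rfl, rfl⟩
    exact ⟨_, _, T.brk _ _ _ _ h1 h2, rfl, rfl⟩
  aut := by
    rintro σ _ _ ⟨a, b, h1, rfl, rfl⟩
    exact ⟨_, _, T.aut σ _ _ h1, rfl, rfl⟩
  mem := by
    rintro _ _ ⟨a, b, h1, rfl, rfl⟩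
    exact ⟨(T.mem a b h1).2 j, (T.mem a b h1).2 j'⟩
  onto := by
    intro x hx y hy
    obtain ⟨a, b, h1, h2⟩ := T.onto' j x hx y hy
    exact ⟨_, a, b, h1, h2, rfl⟩
  onto' := by
    intro x hx y hy
    obtain ⟨a, b, h1, h2⟩ := T.onto' j' x hx y hy
    exact ⟨_, a, b, h1, rfl, h2⟩
  log := by
    rintro x y ⟨a, b, h1, h2, h3⟩
    obtain ⟨u, v, h4, -, h6⟩ := Lg _ _ (re_mem T h1)
    refine ⟨v j, v j', ⟨_, _, h4, rfl, rfl⟩, ?_, ?_⟩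
    · have := h6 j
      rwa [re_of h2] at this
    · have := h6 j'
      rwa [re_of h3] at this

theorem spinC (h1C : Stmt_H1C) {g n m : ℕ} {A : AbVar g} (K : KSC A n m) (hm : m = 2) :
    ∃ Φ : SpinFac g n, Φ.S = K.S ∧ ∀ a, Φ.Z a = K.Z a := by
  subst hm
  exact h1C g A n K

theorem hp_EE (hHP : Stmt_HP) (h1E : Stmt_H1E) (T : TupAlg2 K₁ K₂ d) (Lg : TupLog2 d) (I : NoInt K₁ K₂ d)
    {i i' : Fin r} (hne : i ≠ i') (hm : m₁ i = 3 ∨ m₁ i = 4) (hm' : m₁ i' = 3 ∨ m₁ i' = 4) :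
    ∀ x ∈ (K₁ i).S, ∀ y ∈ (K₁ i).S, ∃ a b, d a b ∧ a i = x * y - y * x ∧ a i' = 0 := by
  obtain ⟨Φ, hS, hZ⟩ := h1E _ _ _ _ (K₁ i) hm
  obtain ⟨Φ', hS', hZ'⟩ := h1E _ _ _ _ (K₁ i') hm'
  have hR := rel_EE T Lg i i'
  rw [← hS, ← hS'] at hR
  have h1 := hHP _ _ _ _ Φ Φ' _ hR (fun F hF => I.EE i i' hne F fun a b hab => by
    rw [← hZ, ← hZ']
    exact hF _ _ ⟨a, b, hab, rfl, rfl⟩)
  intro x hx y hy
  rw [← hS] at hx hy
  exact h1 x hx y hy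

theorem hp_EC (hHP : Stmt_HP) (h1E : Stmt_H1E) (h1C : Stmt_H1C) (T : TupAlg2 K₁ K₂ d) (Lg : TupLog2 d)
    (I : NoInt K₁ K₂ d) (i : Fin r) (j : Fin s) (hm : m₁ i = 3 ∨ m₁ i = 4) (hm' : m₂ j = 2) :
    ∀ x ∈ (K₁ i).S, ∀ y ∈ (K₁ i).S, ∃ a b, d a b ∧ a i = x * y - y * x ∧ b j = 0 := by
  obtain ⟨Φ, hS, hZ⟩ := h1E _ _ _ _ (K₁ i) hm
  obtain ⟨Φ', hS', hZ'⟩ := spinC h1C (K₂ j) hm'
  have hR := rel_EC T Lg i j
  rw [← hS, ← hS'] at hR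
  have h1 := hHP _ _ _ _ Φ Φ' _ hR (fun F hF => I.EC i j F fun a b hab => by
    rw [← hZ, ← hZ']
    exact hF _ _ ⟨a, b, hab, rfl, rfl⟩)
  intro x hx y hy
  rw [← hS] at hx hy
  exact h1 x hx y hy

theorem hp_CC (hHP : Stmt_HP) (h1C : Stmt_H1C) (T : TupAlg2 K₁ K₂ d) (Lg : TupLog2 d)
    (I : NoInt K₁ K₂ d) {j j' : Fin s} (hne : j ≠ j') (hm : m₂ j = 2) (hm' : m₂ j' = 2) :
    ∀ x ∈ (K₂ j).S, ∀ y ∈ (K₂ j).S, ∃ a b, d a b ∧ b j = x * y - y * x ∧ b j' = 0 := by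
  obtain ⟨Φ, hS, hZ⟩ := spinC h1C (K₂ j) hm
  obtain ⟨Φ', hS', hZ'⟩ := spinC h1C (K₂ j') hm'
  have hR := rel_CC T Lg j j'
  rw [← hS, ← hS'] at hR
  have h1 := hHP _ _ _ _ Φ Φ' _ hR (fun F hF => I.CC j j' hne F fun a b hab => by
    rw [← hZ, ← hZ']
    exact hF _ _ ⟨a, b, hab, rfl, rfl⟩)
  intro x hx y hy
  rw [← hS] at hx hy
  exact h1 x hx y hy

end HPX

end Pool.Agent.K3M
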