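import Pool.Agent.K3M.GG4
import Pool.Agent.K3M.ND
import Pool.Agent.K3M.NP

/-!
# NQ for pairs of factors
-/

set_option autoImplicit false

open scoped BigOperators
open Matrix Polynomial

namespace Pool.Agent.K3M

open Pool.Agent.DRB Pool.Agent.K3D Pool.Agent.K3E Pool.Agent.K3C Pool.Agent.K3P Pool.Agent.K3D.K7w
  Pool.Agent.K3D.K7x

namespace NQX

open NDX

variable {r s : ℕ} {h : Fin r → ℕ} {B : ∀ i, AbVar (h i)} {h' : Fin s → ℕ} {B' : ∀ j, AbVar (h' j)}
  {n₁ m₁ : Fin r → ℕ} {K₁ : ∀ i, KSE (B i) (n₁ i) (m₁ i)}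
  {n₂ m₂ : Fin s → ℕ} {K₂ : ∀ j, KSC (B' j) (n₂ j) (m₂ j)}
  {d : (∀ i, Matrix (Fin (n₁ i)) (Fin (n₁ i)) ℂ) → (∀ j, Matrix (Fin (n₂ j)) (Fin (n₂ j)) ℂ) → Prop}

/-- the first components -/
theorem fst_alg (T : TupAlg2 K₁ K₂ d) : TupAlg K₁ (fun a => ∃ b, d a b) := by
  refine ⟨?_, ?_, ?_, ?_, ?_, ?_⟩
  · rintro a a' c ⟨b, hb⟩ ⟨b', hb'⟩
    exact ⟨_, T.lin a b a' b' c hb hb'⟩
  · exact ⟨0, T.zero⟩
  · rintro a a' ⟨b, hb⟩ ⟨b', hb'⟩
    exact ⟨_, T.brk a b a' b' hb hb'⟩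
  · rintro σ a ⟨b, hb⟩
    exact ⟨_, T.aut σ a b hb⟩
  · rintro a ⟨b, hb⟩ i
    exact (T.mem a b hb).1 i
  · intro i a ha
    obtain ⟨t, b, h1, h2⟩ := T.onto i a ha
    exact ⟨t, ⟨b, h1⟩, h2⟩

/-- hyperbolic logarithms of the first components -/
theorem fst_log (T : TupAlg2 K₁ K₂ d) (Lg : TupLog2 d) : TupLog (fun a => ∃ b, d a b) := by
  rintro a ⟨b, hb⟩
  -- a real second part
  have hcc := T.aut E8Y.cc0 _ _ hb
  have h1 := T.lin _ _ _ _ (1 / 2) T.zero (T.lin _ _ _ _ 1 hb hcc)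
  have h2 : d (fun i => (a i).map Complex.ofReal) (fun j => ((b j).map Complex.re).map Complex.ofReal) := by
    convert h1 using 2 with k k
    · ext p q
      simp only [Matrix.map_apply, Matrix.add_apply, Matrix.smul_apply, Matrix.zero_apply,
        E8Y.cc0_apply, smul_eq_mul, Pi.zero_apply, Complex.conj_ofReal]
      ring
    · ext p q
      simp only [Matrix.map_apply, Matrix.add_apply, Matrix.smul_apply, Matrix.zero_apply,
        E8Y.cc0_apply, smul_eq_mul, Pi.zero_apply]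
      rw [Complex.re_eq_add_conj]
      ring
  obtain ⟨x, y, h3, h4, -⟩ := Lg a (fun j => (b j).map Complex.re) h2
  exact ⟨x, ⟨_, h3⟩, h4⟩

/-- NQ, from independence of the pairs. -/
theorem nq_gen (T : TupAlg2 K₁ K₂ d) {i : Fin r} (hm3 : 3 ≤ m₁ i)
    (hfree : ∀ j, j ≠ i → ∀ z w : ℂ, aeval z (K₁ i).P = 0 → aeval w (K₁ j).P = 0 →
      GGX.Free K₁ (fun a => ∃ b, d a b) i z j w)
    (hNP : ∀ j, ∀ x ∈ (K₁ i).S, ∃ a b, d a b ∧ a i = x ∧ b j = 0) :
    ∀ x ∈ (K₁ i).S, d (Pi.single i x) 0 := by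
  classical
  have hg := fun x hx => GGX.all_of_free (fst_alg T) hm3 hfree x hx
  have key : ∀ J : Finset (Fin s), ∀ x ∈ (K₁ i).S, ∃ b, d (Pi.single i x) b ∧ ∀ j ∈ J, b j = 0 := by
    intro J
    induction J using Finset.induction_on with
    | empty =>
      intro x hx
      obtain ⟨t, ⟨b, hb⟩, hti, ht⟩ := hg x hx
      have h1 : t = Pi.single i x := by
        funext k
        by_cases hk : k = i
        · subst hk
          rw [Pi.single_eq_same, hti]
        · rw [Pi.single_eq_of_ne hk, ht k hk]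
      rw [h1] at hb
      exact ⟨b, hb, fun j hj => absurd hj (Finset.notMem_empty j)⟩
    | insert j J hj ih =>
      let W : Submodule ℂ (Matrix (Fin (n₁ i)) (Fin (n₁ i)) ℂ) :=
        { carrier := {x | ∃ b, d (Pi.single i x) b ∧ ∀ k ∈ insert j J, b k = 0}
          add_mem' := by
            rintro x x' ⟨b, hb, hb0⟩ ⟨b', hb', hb0'⟩
            refine ⟨b + b', ?_, fun k hk => by rw [Pi.add_apply, hb0 k hk, hb0' k hk, add_zero]⟩
            have h1 := (sub2 T).add_mem ((mem_sub2 T _ _).2 hb) ((mem_sub2 T _ _).2 hb')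
            rw [Pi.single_add]
            exact h1
          zero_mem' := by
            refine ⟨0, ?_, fun k _ => rfl⟩
            rw [Pi.single_zero]
            exact T.zero
          smul_mem' := by
            rintro c x ⟨b, hb, hb0⟩
            refine ⟨c • b, ?_, fun k hk => by rw [Pi.smul_apply, hb0 k hk, smul_zero]⟩
            have h1 := (sub2 T).smul_mem c ((mem_sub2 T _ _).2 hb)
            rw [Pi.single_smul]
            exact h1 }
      intro x hx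
      show x ∈ W
      refine Submodule.span_le.2 ?_ (perf (K₁ i) hm3 hx)
      rintro c ⟨x, hx, y, hy, rfl⟩
      obtain ⟨b, hb, hb0⟩ := ih x hx
      obtain ⟨a', b', hab, ha', hb'⟩ := hNP j y hy
      have h1 := T.brk _ _ _ _ hb hab
      have h2 : (fun k => (Pi.single i x : ∀ i, Matrix (Fin (n₁ i)) (Fin (n₁ i)) ℂ) k * a' k -
          a' k * (Pi.single i x : ∀ i, Matrix (Fin (n₁ i)) (Fin (n₁ i)) ℂ) k) =
          Pi.single i (x * y - y * x) := by
        funext k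
        by_cases hk : k = i
        · subst hk
          rw [Pi.single_eq_same, Pi.single_eq_same, ha']
        · rw [Pi.single_eq_of_ne hk, Pi.single_eq_of_ne hk, zero_mul, mul_zero, sub_zero]
      rw [h2] at h1
      refine ⟨_, h1, fun k hk => ?_⟩
      rcases Finset.mem_insert.1 hk with h3 | h3
      · subst h3
        rw [hb', mul_zero, zero_mul, sub_zero]
      · rw [hb0 k h3, mul_zero, zero_mul, sub_zero]
  intro x hx
  obtain ⟨b, hb, hb0⟩ := key Finset.univ x hx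
  have h1 : b = 0 := funext fun j => hb0 j (Finset.mem_univ j)
  rw [h1] at hb
  exact hb

open NPX in
/-- NP for one pair. -/
theorem np_pair (hE5l : Stmt_E5l) (hPM : Stmt_PM) (T : TupAlg2 K₁ K₂ d) (Lg : TupLog2 d) (i : Fin r)
    (j : Fin s) (hma : m₁ i = 3 ∨ 6 ≤ m₁ i) (hm1 : 1 ≤ m₂ j) (hmc : m₁ i = 3 → m₂ j ≠ 2) :
    ∀ x ∈ (K₁ i).S, ∃ a b, d a b ∧ a i = x ∧ b j = 0 := by
  classical
  have hm3 : 3 ≤ m₁ i := by omega
  have hn : 2 ≤ n₁ i := GPX.n_ge (K₁ i) hm3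
  have hV : 3 ≤ Module.finrank ℝ (E8Y.V0 (K₁ i)) := by
    rw [E8Y.finrank_V0 (K₁ i) hm3 hE5l]; exact hm3
  -- one place of `K₂ j`, the real place of `K₁ i`
  have h1 : ∀ w : ℂ, ∀ x ∈ (K₁ i).Tl ((K₁ i).lam : ℂ), ∀ y ∈ (K₁ i).Tl ((K₁ i).lam : ℂ),
      E5L.wm (K₁ i) x y ∈ II T i j {w} := by
    intro w
    by_cases h2 : m₂ j = 1 ∨ w ≠ (K₂ j).lam ∧ w ≠ (starRingEnd ℂ) (K₂ j).lam
    · exact place_compact T Lg i j hn hV hm1 h2
    · rw [not_or, not_and_or, not_not, not_not] at h2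
      refine place_special T Lg hE5l hPM i j hma ?_ h2.2
      omega
  -- one place of `K₂ j`, all places of `K₁ i`
  have h2 : ∀ w : ℂ, (K₁ i).S ≤ II T i j {w} := by
    intro w X hX
    refine Submodule.span_le.2 ?_ (DUAL.mem_span (K₁ i) hX)
    rintro _ ⟨z, x, y, hz, hx, hy, rfl⟩
    obtain ⟨σ, hσ⟩ := E5L.exists_aut (K₁ i).irr (E8Y.lam_rootC (K₁ i)) hz
    have hx' := E5L.map_Tl (K₁ i) σ.symm hx
    have hy' := E5L.map_Tl (K₁ i) σ.symm hy
    rw [← hσ, σ.symm_apply_apply] at hx' hy'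
    have h3 := II_aut T i j σ (h1 (σ.symm w) _ hx' _ hy')
    rw [σ.apply_symm_apply] at h3
    have h4 : (E5L.wm (K₁ i) (fun k => σ.symm (x k)) (fun k => σ.symm (y k))).map σ =
        E5L.wm (K₁ i) x y := by
      rw [E8Y.wm_map]
      simp only [AlgEquiv.apply_symm_apply]
    rwa [h4] at h3
  -- finite sets of places
  have h3 : ∀ W : Finset ℂ, (K₁ i).S ≤ II T i j W := by
    intro W
    induction W using Finset.induction_on with
    | empty =>
      intro X hX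
      obtain ⟨a, b, h4, h5⟩ := T.onto i X hX
      exact ⟨a, b, h4, h5, fun w hw => absurd hw (Finset.notMem_empty w)⟩
    | insert w W _ ih =>
      intro X hX
      refine Submodule.span_le.2 ?_ (DUAL.mem_span (K₁ i) hX)
      rintro _ ⟨z, x, y, hz, hx, hy, rfl⟩
      obtain ⟨c, c', hc, hc', k0, k1, k2⟩ := DUAL.dual (K₁ i) z
      have hd0 : (Module.finrank ℂ ((K₁ i).Tl z) : ℂ) - 2 ≠ 0 := by
        rw [E5L.finrank_Tl (K₁ i) hz]
        intro h
        have h3 : ((m₁ i : ℕ) : ℂ) = (2 : ℕ) := by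
          push_cast
          linear_combination h
        have h4 : m₁ i = 2 := by exact_mod_cast h3
        omega
      have h5 : E5L.wm (K₁ i) x y = ((Module.finrank ℂ ((K₁ i).Tl z) : ℂ) - 2)⁻¹ •
          ∑ k, (E5L.wm (K₁ i) x (c k) * E5L.wm (K₁ i) (c' k) y -
            E5L.wm (K₁ i) (c' k) y * E5L.wm (K₁ i) x (c k)) := by
        rw [E8C.comm_sum (K₁ i) hx hy c c' hc hc' k0 k1 k2, smul_smul, inv_mul_cancel₀ hd0, one_smul]
      rw [h5]
      refine Submodule.smul_mem _ _ (Submodule.sum_mem _ fun k _ => ?_)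
      have h6 := II_brk T i j (h2 w (E5L.wm_mem (K₁ i) hx (hc k))) (ih (E5L.wm_mem (K₁ i) (hc' k) hy))
      rwa [Finset.singleton_union] at h6
  intro X hX
  obtain ⟨a, b, h4, h5, h6⟩ := h3 ((K₂ j).P.aroots ℂ).toFinset hX
  refine ⟨a, b, h4, h5, C5L.mat_extT (K₂ j) fun w hw v hv => ?_⟩
  rw [h6 w (by
    rw [Multiset.mem_toFinset, Polynomial.mem_aroots]
    exact ⟨(K₂ j).irr.ne_zero, hw⟩) v hv, Matrix.zero_mulVec]


end NQX

end Pool.Agent.K3M
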