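import Pool.Agent.K3M.StmtsF
import Pool.Agent.K3M.NQ4
import Pool.Agent.K3M.F4b
import Pool.Agent.K3M.HPair

/-!
# NQ, final form: the factors with real multiplication
-/

set_option autoImplicit false

open scoped BigOperators
open Matrix Polynomial

namespace Pool.Agent.K3M

open Pool.Agent.DRB Pool.Agent.K3D Pool.Agent.K3E Pool.Agent.K3C Pool.Agent.K3P

namespace NQX

open NDX

variable {r s : ℕ} {h : Fin r → ℕ} {B : ∀ i, AbVar (h i)} {h' : Fin s → ℕ} {B' : ∀ j, AbVar (h' j)}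
  {n₁ m₁ : Fin r → ℕ} {K₁ : ∀ i, KSE (B i) (n₁ i) (m₁ i)}
  {n₂ m₂ : Fin s → ℕ} {K₂ : ∀ j, KSC (B' j) (n₂ j) (m₂ j)}
  {d : (∀ i, Matrix (Fin (n₁ i)) (Fin (n₁ i)) ℂ) → (∀ j, Matrix (Fin (n₂ j)) (Fin (n₂ j)) ℂ) → Prop}

/-- from commutators to everything, two factors with real multiplication -/
theorem all_EE (T : TupAlg2 K₁ K₂ d) {i j : Fin r} (hm3 : 3 ≤ m₁ i)
    (H : ∀ x ∈ (K₁ i).S, ∀ y ∈ (K₁ i).S, ∃ a b, d a b ∧ a i = x * y - y * x ∧ a j = 0) :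
    ∀ x ∈ (K₁ i).S, ∃ a b, d a b ∧ a i = x ∧ a j = 0 := by
  intro x hx
  let W : Submodule ℂ (Matrix (Fin (n₁ i)) (Fin (n₁ i)) ℂ) :=
    { carrier := {x | ∃ a b, d a b ∧ a i = x ∧ a j = 0}
      add_mem' := by
        rintro _ _ ⟨a, b, h1, rfl, h2⟩ ⟨a', b', h1', rfl, h2'⟩
        exact ⟨a + a', b + b', (sub2 T).add_mem ((mem_sub2 T _ _).2 h1) ((mem_sub2 T _ _).2 h1'), rfl, by
          rw [Pi.add_apply, h2, h2', add_zero]⟩
      zero_mem' := ⟨0, 0, T.zero, rfl, rfl⟩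
      smul_mem' := by
        rintro c _ ⟨a, b, h1, rfl, h2⟩
        exact ⟨c • a, c • b, (sub2 T).smul_mem c ((mem_sub2 T _ _).2 h1), rfl, by
          rw [Pi.smul_apply, h2, smul_zero]⟩ }
  show x ∈ W
  refine Submodule.span_le.2 ?_ (perf (K₁ i) hm3 hx)
  rintro c ⟨x, hx, y, hy, rfl⟩
  exact H x hx y hy

/-- from commutators to everything, real and complex multiplication -/
theorem all_EC (T : TupAlg2 K₁ K₂ d) {i : Fin r} {j : Fin s} (hm3 : 3 ≤ m₁ i)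
    (H : ∀ x ∈ (K₁ i).S, ∀ y ∈ (K₁ i).S, ∃ a b, d a b ∧ a i = x * y - y * x ∧ b j = 0) :
    ∀ x ∈ (K₁ i).S, ∃ a b, d a b ∧ a i = x ∧ b j = 0 := by
  intro x hx
  let W : Submodule ℂ (Matrix (Fin (n₁ i)) (Fin (n₁ i)) ℂ) :=
    { carrier := {x | ∃ a b, d a b ∧ a i = x ∧ b j = 0}
      add_mem' := by
        rintro _ _ ⟨a, b, h1, rfl, h2⟩ ⟨a', b', h1', rfl, h2'⟩
        exact ⟨a + a', b + b', (sub2 T).add_mem ((mem_sub2 T _ _).2 h1) ((mem_sub2 T _ _).2 h1'), rfl, by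
          rw [Pi.add_apply, h2, h2', add_zero]⟩
      zero_mem' := ⟨0, 0, T.zero, rfl, rfl⟩
      smul_mem' := by
        rintro c _ ⟨a, b, h1, rfl, h2⟩
        exact ⟨c • a, c • b, (sub2 T).smul_mem c ((mem_sub2 T _ _).2 h1), rfl, by
          rw [Pi.smul_apply, h2, smul_zero]⟩ }
  show x ∈ W
  refine Submodule.span_le.2 ?_ (perf (K₁ i) hm3 hx)
  rintro c ⟨x, hx, y, hy, rfl⟩
  exact H x hx y hy

/-- The core of NQ, final form. -/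
theorem nqf (hGP : Stmt_GPp) (hE5l : Stmt_E5l) (hPM : Stmt_PM) (T : TupAlg2 K₁ K₂ d) (Lg : TupLog2 d)
    (N : TupNoIso K₁ (fun a => ∃ b, d a b)) (hm : DimF m₁ m₂)
    (hEE : ∀ i j, i ≠ j → (m₁ i = 3 ∨ m₁ i = 4) → (m₁ j = 3 ∨ m₁ j = 4) →
      ∀ x ∈ (K₁ i).S, ∀ y ∈ (K₁ i).S, ∃ a b, d a b ∧ a i = x * y - y * x ∧ a j = 0)
    (hEC : ∀ i j, (m₁ i = 3 ∨ m₁ i = 4) → m₂ j = 2 →
      ∀ x ∈ (K₁ i).S, ∀ y ∈ (K₁ i).S, ∃ a b, d a b ∧ a i = x * y - y * x ∧ b j = 0) :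
    ∀ i, ∀ x ∈ (K₁ i).S, d (Pi.single i x) 0 := by
  intro i
  obtain ⟨hi3, hi5⟩ := hm.1 i
  refine nq_gen T hi3 (fun j hj z w hz hw => ?_) (fun j x hx => ?_)
  · obtain ⟨hj3, hj5⟩ := hm.1 j
    by_cases hs : (m₁ i = 3 ∨ m₁ i = 4) ∧ (m₁ j = 3 ∨ m₁ j = 4)
    · have h1 := all_EE T hi3 (hEE i j (Ne.symm hj) hs.1 hs.2)
      intro x hx y hy
      obtain ⟨a, b, hab, h2, h3⟩ := h1 _ (E5L.wm_mem (K₁ i) hx hy)
      exact ⟨a, ⟨b, hab⟩, fun v _ => by rw [h2], fun v _ => by rw [h3, Matrix.zero_mulVec]⟩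
    by_cases h4 : m₁ i = 4
    · exact F4X.free4 (fst_alg T) (by omega) h4 hw hz
    by_cases h4' : m₁ j = 4
    · exact F4X.free6 (fst_alg T) (by omega) h4' hz hw
    exact GG4X.free_pair hGP hE5l (fst_alg T) (fst_log T Lg) N (Ne.symm hj) (by omega) (by omega) hz hw
  · obtain ⟨hc1, hc2⟩ := hm.2 j
    by_cases h2 : m₂ j = 2
    · by_cases hs : m₁ i = 3 ∨ m₁ i = 4
      · exact all_EC T hi3 (hEC i j hs h2) x hx
      · exact np_pair hE5l hPM T Lg i j (by omega) hc1 (by omega) x hx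
    · have h3 : m₂ j = 1 ∨ 4 ≤ m₂ j := by
        rcases hc2 with h | h
        · obtain ⟨k, hk⟩ := h
          omega
        · exact Or.inl h
      by_cases h4 : m₁ i = 4
      · exact F4X.mixed4 T h4 h3 hx
      · exact np_pair hE5l hPM T Lg i j (by omega) hc1 (by omega) x hx

end NQX

/-- NQ, final form. -/
theorem NQF_proof (hGP : Stmt_GPp) (hE5l : Stmt_E5l) (hPM : Stmt_PM) (hHP : Stmt_HP) (h1E : Stmt_H1E)
    (h1C : Stmt_H1C) : Stmt_NQF := by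
  intro r s h B h' B' n₁ m₁ K₁ n₂ m₂ K₂ d T Lg N I hm
  exact NQX.nqf hGP hE5l hPM T Lg N hm
    (fun i j hij hi hj => HPX.hp_EE hHP h1E T Lg I hij hi hj)
    (fun i j hi hj => HPX.hp_EC hHP h1E h1C T Lg I i j hi hj)

end Pool.Agent.K3M
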