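import Pool.Agent.K3M.Assembly
import Pool.Agent.K3M.NFin
import Pool.Agent.K3M.H2
import Pool.Agent.K3M.H3
import Pool.Agent.K3M.HP
import Pool.Agent.K3M.NI
import Pool.Agent.K3M.NQF
import Pool.Agent.K3M.NCF
import Pool.Agent.K3M.GP4

/-!
# De Rham-Betti conjecture for products of Kuga-Satake varieties: assembly of the final form
-/

namespace Pool.Agent.K3M

open Pool.Agent.DRB Pool.Agent.K3D Pool.Agent.K3E Pool.Agent.K3C Pool.Agent.K3P

theorem n0fC : Stmt_N0F :=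
  N0F_proof gb4_proof k2aC k2b_proof k2cC e2dC E5a_proof e5vC p8bC pqC c2dC c5vC m8bC

theorem nefC : Stmt_NEF :=
  NEF_proof n0fC leg_proof k1C k2aC k2b_proof gb4_proof k2cC k3_proof E5a_proof c5aC c5wC

theorem nnfC : Stmt_NNF := NNF_proof leg_proof k2cC e2dC E5a_proof e5vC e8bC e8cC c2dC phC GA_proof

theorem ndfC : Stmt_NDF := NDF_proof

theorem ntfC : Stmt_NTF :=
  NTF_proof k1C k3_proof k2aC k2b_proof gb4_proof k2cC e2dC E5a_proof e5vC c2dC c5aC c5vC c5wC pqC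

theorem hpC : Stmt_HP := HP_proof H2_proof (H5_proof H3_proof) H6_proof

theorem niC : Stmt_NI := NI_proof leg_proof k2cC e2dC E5a_proof e5vC c2dC c5aC c5vC phC

theorem gppC : Stmt_GPp := GPp_proof PR_proof E5l_proof

/-- The final form, given H1E and H1C. -/
theorem mainM3_of (h1E : Stmt_H1E) (h1C : Stmt_H1C) : MainM3 :=
  MainM3_of n0fC nlC nnfC niC (NQF_proof gppC E5l_proof PM_proof hpC h1E h1C)
    (NCF_proof NS_proof hpC h1C) ndfC ntfC nefC
    (fun _ _ _ _ _ _ D _ _ K₁ _ _ K₂ c1 c2 H1 H2 =>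
      NW_proof k1C homx_proof tauC leg_proof k2aC k2cC e2dC c2dC E5a_proof e5vC c5aC c5vC D K₁ K₂ c1 c2 H1 H2)
    nfC ngC

end Pool.Agent.K3M
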