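import Pool.Agent.K3M.ND
import Pool.Agent.K3P.GG

/-!
# F4: factors with `m = 4`
-/

set_option autoImplicit false

open scoped BigOperators
open Matrix Polynomial

namespace Pool.Agent.K3M

open Pool.Agent.DRB Pool.Agent.K3D Pool.Agent.K3E Pool.Agent.K3C Pool.Agent.K3P

namespace F4X

open GGX

section one

variable {g n m : ℕ} {A : AbVar g} (K : KSE A n m)

theorem wm_sum_left {ι : Type} (s : Finset ι) (f : ι → Fin n → ℂ) (y : Fin n → ℂ) :
    E5L.wm K (∑ k ∈ s, f k) y = ∑ k ∈ s, E5L.wm K (f k) y := by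
  classical
  induction s using Finset.induction_on with
  | empty =>
    rw [Finset.sum_empty, Finset.sum_empty]
    ext i j; simp [E5L.wm]
  | insert k s hk ih => rw [Finset.sum_insert hk, Finset.sum_insert hk, wm_add_left, ih]

theorem wm_sub_left (x x' y : Fin n → ℂ) : E5L.wm K (x - x') y = E5L.wm K x y - E5L.wm K x' y := by
  ext i j
  simp only [E5L.wm, Matrix.of_apply, Matrix.sub_apply, Pi.sub_apply]
  ring

theorem wm_sub_right (x y y' : Fin n → ℂ) : E5L.wm K x (y - y') = E5L.wm K x y - E5L.wm K x y' := by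
  ext i j
  simp only [E5L.wm, Matrix.of_apply, Matrix.sub_apply, Pi.sub_apply]
  ring

theorem wm_smul_right (c : ℂ) (x y : Fin n → ℂ) : E5L.wm K x (c • y) = c • E5L.wm K x y := by
  ext i j
  simp only [E5L.wm, Matrix.of_apply, Matrix.smul_apply, Pi.smul_apply, smul_eq_mul]
  ring

theorem bil_sum_left {ι : Type} (s : Finset ι) (c : ι → ℂ) (f : ι → Fin n → ℂ) (y : Fin n → ℂ) :
    K.bil (∑ k ∈ s, c k • f k) y = ∑ k ∈ s, c k * K.bil (f k) y := by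
  rw [← E5L.bf_apply, map_sum, LinearMap.sum_apply]
  exact Finset.sum_congr rfl fun j _ => by rw [map_smul, LinearMap.smul_apply, smul_eq_mul, E5L.bf_apply]

theorem bil_smul_left (c : ℂ) (x y : Fin n → ℂ) : K.bil (c • x) y = c * K.bil x y := by
  rw [← E5L.bf_apply, map_smul, LinearMap.smul_apply, smul_eq_mul, E5L.bf_apply]

/-- the trace of a skew map vanishes -/
theorem trace_zero {z : ℂ} {X : Matrix (Fin n) (Fin n) ℂ} (hX : X ∈ K.S)
    (b b' : Fin (Module.finrank ℂ (K.Tl z)) → (Fin n → ℂ)) (hb' : ∀ j, b' j ∈ K.Tl z)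
    (h1 : ∀ v ∈ K.Tl z, ∑ j, K.bil (b' j) v • b j = v) :
    ∑ k, K.bil (X *ᵥ b k) (b' k) = 0 := by
  have e1 : ∀ k, K.bil (X *ᵥ b k) (b' k) = ∑ l, K.bil (b' l) (b' k) * K.bil (b l) (X *ᵥ b k) := by
    intro k
    rw [E5L.bil_comm]
    conv_lhs => rw [← h1 (b' k) (hb' k)]
    rw [bil_sum_left]
  have e2 : ∀ k l, K.bil (b' l) (b' k) * K.bil (b l) (X *ᵥ b k) =
      -(K.bil (b' k) (b' l) * K.bil (b k) (X *ᵥ b l)) := by
    intro k l
    have h3 := DUAL.bil_skew K hX (b l) (b k)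
    have h4 : K.bil (b l) (X *ᵥ b k) = -K.bil (b k) (X *ᵥ b l) := by
      rw [E5L.bil_comm K (b k), h3, neg_neg]
    rw [h4, E5L.bil_comm K (b' l)]
    ring
  have e3 : ∑ k, K.bil (X *ᵥ b k) (b' k) = -∑ k, K.bil (X *ᵥ b k) (b' k) := by
    conv_lhs => rw [Finset.sum_congr rfl fun k _ => e1 k, Finset.sum_comm]
    rw [← Finset.sum_neg_distrib]
    refine Finset.sum_congr rfl fun k _ => ?_
    rw [e1 k, ← Finset.sum_neg_distrib]
    refine Finset.sum_congr rfl fun l _ => ?_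
    rw [e2 l k]
  have e4 : (2 : ℂ) * ∑ k, K.bil (X *ᵥ b k) (b' k) = 0 := by
    rw [two_mul]
    nth_rewrite 1 [e3]
    rw [neg_add_cancel]
  exact (mul_eq_zero.1 e4).resolve_left two_ne_zero

/-- contraction of double brackets with an element of an ideal -/
theorem contract {z : ℂ} {X : Matrix (Fin n) (Fin n) ℂ} (hX : X ∈ K.S) {x y : Fin n → ℂ}
    (hx : x ∈ K.Tl z) (hy : y ∈ K.Tl z)
    (b b' : Fin (Module.finrank ℂ (K.Tl z)) → (Fin n → ℂ))
    (hb : ∀ j, b j ∈ K.Tl z) (hb' : ∀ j, b' j ∈ K.Tl z)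
    (h0 : ∀ i j, K.bil (b' i) (b j) = if j = i then 1 else 0)
    (h1 : ∀ v ∈ K.Tl z, ∑ j, K.bil (b' j) v • b j = v)
    (h2 : ∀ v ∈ K.Tl z, ∑ j, K.bil (b j) v • b' j = v) :
    ∑ k, ((X * E5L.wm K x (b k) - E5L.wm K x (b k) * X) * E5L.wm K (b' k) y -
        E5L.wm K (b' k) y * (X * E5L.wm K x (b k) - E5L.wm K x (b k) * X)) =
      ((Module.finrank ℂ (K.Tl z) : ℂ) - 3) • E5L.wm K (X *ᵥ x) y + E5L.wm K x (X *ᵥ y) -
        K.bil x y • ∑ k, E5L.wm K (b' k) (X *ᵥ b k) := by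
  have hXx := E5L.S_pres K hX hx
  have hXb : ∀ k, X *ᵥ b k ∈ K.Tl z := fun k => E5L.S_pres K hX (hb k)
  have e1 : ∀ k, ((X * E5L.wm K x (b k) - E5L.wm K x (b k) * X) * E5L.wm K (b' k) y -
        E5L.wm K (b' k) y * (X * E5L.wm K x (b k) - E5L.wm K x (b k) * X)) =
      (E5L.wm K (X *ᵥ x) (b k) * E5L.wm K (b' k) y - E5L.wm K (b' k) y * E5L.wm K (X *ᵥ x) (b k)) +
      (K.bil (X *ᵥ b k) (b' k) • E5L.wm K x y - E5L.wm K (K.bil (b' k) x • (X *ᵥ b k)) y +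
        (-E5L.wm K (K.bil (b k) (X *ᵥ y) • b' k) x) - K.bil x y • E5L.wm K (b' k) (X *ᵥ b k)) := by
    intro k
    have h3 := comm_wm K (E5L.wm_mem K hx (hXb k)) (b' k) y
    rw [comm_wm K hX, add_mul, mul_add]
    have h4 : E5L.wm K (X *ᵥ x) (b k) * E5L.wm K (b' k) y + E5L.wm K x (X *ᵥ b k) * E5L.wm K (b' k) y -
        (E5L.wm K (b' k) y * E5L.wm K (X *ᵥ x) (b k) + E5L.wm K (b' k) y * E5L.wm K x (X *ᵥ b k)) =
        (E5L.wm K (X *ᵥ x) (b k) * E5L.wm K (b' k) y - E5L.wm K (b' k) y * E5L.wm K (X *ᵥ x) (b k)) +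
        (E5L.wm K x (X *ᵥ b k) * E5L.wm K (b' k) y - E5L.wm K (b' k) y * E5L.wm K x (X *ᵥ b k)) := by
      abel
    rw [h4, h3, E5L.wm_mulVec, E5L.wm_mulVec, wm_sub_left, wm_sub_right,
      DUAL.bil_skew K hX (b k) y, E5L.bil_comm K x (b' k)]
    simp only [wm_smul_left, wm_smul_right]
    congr 1
    module
  rw [Finset.sum_congr rfl fun k _ => e1 k, Finset.sum_add_distrib,
    E8C.comm_sum K hXx hy b b' hb hb' h0 h1 h2, Finset.sum_sub_distrib, Finset.sum_add_distrib,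
    Finset.sum_sub_distrib, ← Finset.sum_smul, trace_zero K hX b b' hb' h1, zero_smul, zero_sub,
    ← wm_sum_left, Finset.sum_neg_distrib, ← wm_sum_left, h2 _ (E5L.S_pres K hX hy),
    ← Finset.smul_sum]
  have e2 : ∑ k, K.bil (b' k) x • (X *ᵥ b k) = X *ᵥ x := by
    conv_rhs => rw [← h1 x hx]
    rw [Matrix.mulVec_sum]
    exact Finset.sum_congr rfl fun k _ => by rw [Matrix.mulVec_smul]
  rw [e2, wm_swap K (X *ᵥ y) x]
  module

/-- the contraction of `X` -/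
theorem sum_wm {z : ℂ} {X : Matrix (Fin n) (Fin n) ℂ} (hX : X ∈ K.S)
    (b b' : Fin (Module.finrank ℂ (K.Tl z)) → (Fin n → ℂ))
    (h1 : ∀ v ∈ K.Tl z, ∑ j, K.bil (b' j) v • b j = v)
    (h2 : ∀ v ∈ K.Tl z, ∑ j, K.bil (b j) v • b' j = v) {w : Fin n → ℂ} (hw : w ∈ K.Tl z) :
    (∑ k, E5L.wm K (b' k) (X *ᵥ b k)) *ᵥ w = (-2 : ℂ) • (X *ᵥ w) := by
  have e1 : ∀ k, E5L.wm K (b' k) (X *ᵥ b k) *ᵥ w =
      -(K.bil (b k) (X *ᵥ w) • b' k) - X *ᵥ (K.bil (b' k) w • b k) := by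
    intro k
    rw [E5L.wm_mulVec, DUAL.bil_skew K hX (b k) w, Matrix.mulVec_smul, neg_smul]
  rw [Matrix.sum_mulVec, Finset.sum_congr rfl fun k _ => e1 k, Finset.sum_sub_distrib,
    Finset.sum_neg_distrib, h2 _ (E5L.S_pres K hX hw), ← Matrix.mulVec_sum, h1 w hw]
  module

/-- A nonzero ideal of `so(T_z)` is everything if `m ≥ 3` and `m ≠ 4`. -/
theorem ideal' (a : Submodule ℂ (Matrix (Fin n) (Fin n) ℂ)) (hm : 3 ≤ m) (hm4 : m ≠ 4) {z : ℂ}
    (hz : aeval z K.P = 0)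
    (hres : ∀ X ∈ a, ∀ Y : Matrix (Fin n) (Fin n) ℂ, (∀ v ∈ K.Tl z, Y *ᵥ v = X *ᵥ v) → Y ∈ a)
    (hbr : ∀ X ∈ a, X ∈ K.S → ∀ x ∈ K.Tl z, ∀ y ∈ K.Tl z,
      X * E5L.wm K x y - E5L.wm K x y * X ∈ a) {X : Matrix (Fin n) (Fin n) ℂ} (hXa : X ∈ a)
    (hXS : X ∈ K.S) {v0 : Fin n → ℂ} (hv0 : v0 ∈ K.Tl z) (hX0 : X *ᵥ v0 ≠ 0)
    (x : Fin n → ℂ) (hx : x ∈ K.Tl z) (y : Fin n → ℂ) (hy : y ∈ K.Tl z) : E5L.wm K x y ∈ a := by
  have hfr := E5L.finrank_Tl K hz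
  -- step 1
  have h1 : ∀ x ∈ K.Tl z, ∀ y ∈ K.Tl z, E5L.wm K (X *ᵥ x) y ∈ a := by
    intro x hx y hy
    obtain ⟨b, b', hb, hb', h0, h1, h2⟩ := DUAL.dual K z
    have hs : ∑ k, ((X * E5L.wm K x (b k) - E5L.wm K x (b k) * X) * E5L.wm K (b' k) y -
        E5L.wm K (b' k) y * (X * E5L.wm K x (b k) - E5L.wm K x (b k) * X)) ∈ a := by
      refine Submodule.sum_mem _ fun k _ => ?_
      refine hbr _ (hbr X hXa hXS x hx (b k) (hb k)) ?_ (b' k) (hb' k) y hy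
      rw [comm_wm K hXS]
      exact K.S.add_mem (E5L.wm_mem K (E5L.S_pres K hXS hx) (hb k))
        (E5L.wm_mem K hx (E5L.S_pres K hXS (hb k)))
    rw [contract K hXS hx hy b b' hb hb' h0 h1 h2] at hs
    have hY := hbr X hXa hXS x hx y hy
    rw [comm_wm K hXS] at hY
    have hS : ∑ k, E5L.wm K (b' k) (X *ᵥ b k) ∈ a := by
      refine hres _ (a.smul_mem (-2 : ℂ) hXa) _ fun v hv => ?_
      rw [sum_wm K hXS b b' h1 h2 hv, Matrix.smul_mulVec]
    have h3 := a.sub_mem (a.add_mem hs (a.smul_mem (K.bil x y) hS)) hY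
    have h4 : ((Module.finrank ℂ (K.Tl z) : ℂ) - 3) • E5L.wm K (X *ᵥ x) y + E5L.wm K x (X *ᵥ y) -
        K.bil x y • ∑ k, E5L.wm K (b' k) (X *ᵥ b k) + K.bil x y • ∑ k, E5L.wm K (b' k) (X *ᵥ b k) -
        (E5L.wm K (X *ᵥ x) y + E5L.wm K x (X *ᵥ y)) = ((m : ℂ) - 4) • E5L.wm K (X *ᵥ x) y := by
      have hfr' : ((Module.finrank ℂ (K.Tl z) : ℕ) : ℂ) = m := by rw [hfr]
      rw [hfr']
      module
    rw [h4] at h3
    have h5 : (m : ℂ) - 4 ≠ 0 := by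
      intro h
      apply hm4
      have : (m : ℂ) = ((4 : ℕ) : ℂ) := by
        push_cast
        linear_combination h
      exact_mod_cast this
    have h6 := a.smul_mem ((m : ℂ) - 4)⁻¹ h3
    rwa [smul_smul, inv_mul_cancel₀ h5, one_smul] at h6
  -- step 2
  have h2 : ∀ p ∈ K.Tl z, p ≠ 0 → (∀ y ∈ K.Tl z, E5L.wm K p y ∈ a) →
      ∀ x ∈ K.Tl z, K.bil x p = 0 → ∀ y ∈ K.Tl z, E5L.wm K x y ∈ a := by
    intro p hp hp0 hpa x hx hxp y hy
    obtain ⟨q, hq, hqp⟩ : ∃ q ∈ K.Tl z, K.bil q p = 1 := by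
      by_contra hcon
      push Not at hcon
      refine hp0 (E5L.nondegT K hp fun t ht => ?_)
      by_contra hne'
      refine hcon ((K.bil p t)⁻¹ • t) (Submodule.smul_mem _ _ ht) ?_
      rw [← E5L.bf_apply, map_smul, LinearMap.smul_apply, E5L.bf_apply, smul_eq_mul,
        E5L.bil_comm K t p, inv_mul_cancel₀ hne']
    have hR := E5L.wm_mem K hx hq
    have h3 := hbr _ (hpa y hy) (E5L.wm_mem K hp hy) x hx q hq
    have h4 := comm_wm K hR p y
    have h5 : E5L.wm K x q *ᵥ p = x := by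
      rw [E5L.wm_mulVec, hqp, hxp, one_smul, zero_smul, sub_zero]
    rw [h5] at h4
    have h6 : E5L.wm K x y = -(E5L.wm K p y * E5L.wm K x q - E5L.wm K x q * E5L.wm K p y) -
        E5L.wm K p (E5L.wm K x q *ᵥ y) := by
      rw [neg_sub, h4, add_sub_cancel_right]
    rw [h6]
    exact a.sub_mem (a.neg_mem h3) (hpa _ (E5L.S_pres K hR hy))
  -- step 3
  set p := X *ᵥ v0 with hp
  have hpT : p ∈ K.Tl z := E5L.S_pres K hXS hv0
  obtain ⟨p', hp', hp'0, hp1, hp2⟩ : ∃ p' ∈ K.Tl z, p' ≠ 0 ∧ K.bil p' p = 0 ∧ K.bil x p' = 0 := by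
    let f : K.Tl z →ₗ[ℂ] (Fin 2 → ℂ) := LinearMap.pi ![(E5L.bf K p).comp (K.Tl z).subtype,
      (E5L.bf K x).comp (K.Tl z).subtype]
    have hker : LinearMap.ker f ≠ ⊥ := by
      apply LinearMap.ker_ne_bot_of_finrank_lt
      rw [hfr, Module.finrank_fin_fun]
      omega
    obtain ⟨⟨p', hp'T⟩, hp', hne⟩ := Submodule.exists_mem_ne_zero_of_ne_bot hker
    rw [LinearMap.mem_ker] at hp'
    have e0 := congrFun hp' 0
    have e1 := congrFun hp' 1
    refine ⟨p', hp'T, fun h => hne (Subtype.ext h), ?_, ?_⟩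
    · rw [E5L.bil_comm]
      exact e0
    · exact e1
  exact h2 p' hp' hp'0 (fun y hy => h2 p hpT hX0 (fun y hy => h1 v0 hv0 y hy) p' hp' hp1 y hy) x hx
    hp2 y hy

end one

/-- the pairs of indices -/
abbrev Pr (k : ℕ) : Type := {p : Fin k × Fin k // p.1 < p.2}

/-- a skew map of a space of dimension four is given by six numbers -/
theorem four {g n m : ℕ} {A : AbVar g} (K : KSE A n m) (hm : m = 4) {w : ℂ} (hw : aeval w K.P = 0) :
    ∃ c : Fin 4 → (Fin n → ℂ), (∀ k, c k ∈ K.Tl w) ∧ ∀ Y ∈ K.S,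
      (∀ p : Pr 4, K.bil (Y *ᵥ c p.1.1) (c p.1.2) = 0) → ∀ v ∈ K.Tl w, Y *ᵥ v = 0 := by
  obtain ⟨b, b', hb, hb', h0, h1, h2⟩ := DUAL.dual K w
  have hfr : Module.finrank ℂ (K.Tl w) = 4 := by rw [E5L.finrank_Tl K hw, hm]
  refine ⟨fun k => b (Fin.cast hfr.symm k), fun k => hb _, fun Y hY hp => ?_⟩
  have hsk : ∀ x y, K.bil (Y *ᵥ x) y = -K.bil (Y *ᵥ y) x := by
    intro x y
    rw [DUAL.bil_skew K hY x y, E5L.bil_comm]
  have hall : ∀ k l : Fin 4, K.bil (Y *ᵥ b (Fin.cast hfr.symm k)) (b (Fin.cast hfr.symm l)) = 0 := by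
    intro k l
    rcases lt_trichotomy k l with h | h | h
    · exact hp ⟨(k, l), h⟩
    · subst h
      have h3 := hsk (b (Fin.cast hfr.symm k)) (b (Fin.cast hfr.symm k))
      have h4 : (2 : ℂ) * K.bil (Y *ᵥ b (Fin.cast hfr.symm k)) (b (Fin.cast hfr.symm k)) = 0 := by
        linear_combination h3
      exact (mul_eq_zero.1 h4).resolve_left two_ne_zero
    · rw [hsk, hp ⟨(l, k), h⟩, neg_zero]
  have hall' : ∀ k l, K.bil (Y *ᵥ b k) (b l) = 0 := by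
    intro k l
    have h3 := hall (Fin.cast hfr k) (Fin.cast hfr l)
    simpa using h3
  have hbz : ∀ k, Y *ᵥ b k = 0 := by
    intro k
    refine E5L.nondegT K (E5L.S_pres K hY (hb k)) fun t ht => ?_
    rw [← h1 t ht, E5L.bil_comm, bil_sum_left]
    exact Finset.sum_eq_zero fun l _ => by rw [E5L.bil_comm K (b l), hall', mul_zero]
  intro v hv
  rw [← h1 v hv, Matrix.mulVec_sum]
  exact Finset.sum_eq_zero fun k _ => by rw [Matrix.mulVec_smul, hbz, smul_zero]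

theorem card4 : Fintype.card (Pr 4) = 6 := by decide

theorem card6 : Fintype.card (Pr 6) = 15 := by decide

/-- six dimensions give fifteen independent skew maps -/
theorem six {g n m : ℕ} {A : AbVar g} (K : KSE A n m) (hm : 6 ≤ m) {z : ℂ} (hz : aeval z K.P = 0) :
    ∃ b : Fin 6 → (Fin n → ℂ), (∀ k, b k ∈ K.Tl z) ∧ ∀ u : Pr 6 → ℂ, u ≠ 0 →
      ∃ v ∈ K.Tl z, (∑ p, u p • E5L.wm K (b p.1.1) (b p.1.2)) *ᵥ v ≠ 0 := by
  obtain ⟨b, b', hb, hb', h0, h1, h2⟩ := DUAL.dual K z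
  have hfr : 6 ≤ Module.finrank ℂ (K.Tl z) := by rw [E5L.finrank_Tl K hz]; exact hm
  refine ⟨fun k => b (Fin.castLE hfr k), fun k => hb _, fun u hu => ?_⟩
  obtain ⟨p0, hp0⟩ := Function.ne_iff.1 hu
  refine ⟨b' (Fin.castLE hfr p0.1.2), hb' _, fun hcon => ?_⟩
  have h3 : K.bil (b' (Fin.castLE hfr p0.1.1)) ((∑ p, u p • E5L.wm K (b (Fin.castLE hfr p.1.1))
      (b (Fin.castLE hfr p.1.2))) *ᵥ b' (Fin.castLE hfr p0.1.2)) = u p0 := by
    rw [Matrix.sum_mulVec, E5L.bil_comm]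
    have h4 : ∑ p, (u p • E5L.wm K (b (Fin.castLE hfr p.1.1)) (b (Fin.castLE hfr p.1.2))) *ᵥ
        b' (Fin.castLE hfr p0.1.2) = ∑ p, u p • (E5L.wm K (b (Fin.castLE hfr p.1.1))
          (b (Fin.castLE hfr p.1.2)) *ᵥ b' (Fin.castLE hfr p0.1.2)) :=
      Finset.sum_congr rfl fun p _ => by rw [Matrix.smul_mulVec]
    rw [h4, bil_sum_left, Finset.sum_eq_single p0]
    · rw [E5L.wm_mulVec, GGX.bil_sub_left, bil_smul_left, bil_smul_left,
        E5L.bil_comm K (b (Fin.castLE hfr p0.1.2)) (b' (Fin.castLE hfr p0.1.2)),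
        E5L.bil_comm K (b (Fin.castLE hfr p0.1.1)) (b' (Fin.castLE hfr p0.1.2)),
        E5L.bil_comm K (b (Fin.castLE hfr p0.1.1)) (b' (Fin.castLE hfr p0.1.1)), h0, h0, h0,
        if_pos rfl, if_pos rfl, if_neg (fun h => p0.2.ne (Fin.castLE_injective hfr h))]
      ring
    · intro p _ hne
      rw [E5L.wm_mulVec, GGX.bil_sub_left, bil_smul_left, bil_smul_left,
        E5L.bil_comm K (b (Fin.castLE hfr p.1.2)) (b' (Fin.castLE hfr p0.1.2)),
        E5L.bil_comm K (b (Fin.castLE hfr p.1.1)) (b' (Fin.castLE hfr p0.1.2)),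
        E5L.bil_comm K (b (Fin.castLE hfr p.1.1)) (b' (Fin.castLE hfr p0.1.1)),
        E5L.bil_comm K (b (Fin.castLE hfr p.1.2)) (b' (Fin.castLE hfr p0.1.1)), h0, h0, h0, h0]
      have e1 : (if Fin.castLE hfr p.1.2 = Fin.castLE hfr p0.1.2 then (1 : ℂ) else 0) *
          (if Fin.castLE hfr p.1.1 = Fin.castLE hfr p0.1.1 then 1 else 0) = 0 := by
        split_ifs with h5 h6
        · exact absurd (Subtype.ext (Prod.ext (Fin.castLE_injective hfr h6)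
            (Fin.castLE_injective hfr h5))) hne
        · ring
        · ring
        · ring
      have e2 : (if Fin.castLE hfr p.1.1 = Fin.castLE hfr p0.1.2 then (1 : ℂ) else 0) *
          (if Fin.castLE hfr p.1.2 = Fin.castLE hfr p0.1.1 then 1 else 0) = 0 := by
        split_ifs with h5 h6
        · have h7 : p.1.1 = p0.1.2 := Fin.castLE_injective hfr h5
          have h8 : p.1.2 = p0.1.1 := Fin.castLE_injective hfr h6
          have h9 := p.2
          rw [h7, h8] at h9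
          exact absurd (lt_trans h9 p0.2) (lt_irrefl _)
        · ring
        · ring
        · ring
      rw [e1, e2]
      ring
    · intro h; exact absurd (Finset.mem_univ p0) h
  rw [hcon, ← E5L.bf_apply, map_zero] at h3
  exact hp0 h3.symm

section tup

variable {r : ℕ} {h : Fin r → ℕ} {B : ∀ i, AbVar (h i)} {n m : Fin r → ℕ}
  {K : ∀ i, KSE (B i) (n i) (m i)} {d : (∀ i, Matrix (Fin (n i)) (Fin (n i)) ℂ) → Prop}

/-- F4, first part. -/
theorem free6 (T : TupAlg K d) {i j : Fin r} (hi : 6 ≤ m i) (hj : m j = 4) {z w : ℂ}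
    (hz : aeval z (K i).P = 0) (hw : aeval w (K j).P = 0) : Free K d i z j w := by
  classical
  obtain ⟨b, hb, hbu⟩ := six (K i) hi hz
  obtain ⟨c, hc, hcY⟩ := four (K j) hj hw
  have hex : ∀ p : Pr 6, ∃ t, d t ∧ t i = E5L.wm (K i) (b p.1.1) (b p.1.2) := fun p =>
    T.onto i _ (E5L.wm_mem (K i) (hb _) (hb _))
  choose t ht hti using hex
  let f : (Pr 6 → ℂ) →ₗ[ℂ] (Pr 4 → ℂ) :=
    { toFun := fun u q => ∑ p, u p * (K j).bil (t p j *ᵥ c q.1.1) (c q.1.2)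
      map_add' := by
        intro u v
        funext q
        rw [Pi.add_apply, ← Finset.sum_add_distrib]
        exact Finset.sum_congr rfl fun p _ => by rw [Pi.add_apply, add_mul]
      map_smul' := by
        intro a u
        funext q
        rw [Pi.smul_apply, RingHom.id_apply, smul_eq_mul, Finset.mul_sum]
        exact Finset.sum_congr rfl fun p _ => by rw [Pi.smul_apply, smul_eq_mul, mul_assoc] }
  have hker : LinearMap.ker f ≠ ⊥ := by
    apply LinearMap.ker_ne_bot_of_finrank_lt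
    rw [Module.finrank_fintype_fun_eq_card, Module.finrank_fintype_fun_eq_card, card4, card6]
    norm_num
  obtain ⟨u, hu, hu0⟩ := Submodule.exists_mem_ne_zero_of_ne_bot hker
  rw [LinearMap.mem_ker] at hu
  set t' : ∀ k, Matrix (Fin (n k)) (Fin (n k)) ℂ := ∑ p, u p • t p with ht'
  have hdt' : d t' := (sub T).sum_mem fun p _ => (sub T).smul_mem (u p) (ht p)
  have hti' : t' i = ∑ p, u p • E5L.wm (K i) (b p.1.1) (b p.1.2) := by
    rw [ht', Finset.sum_apply]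
    exact Finset.sum_congr rfl fun p _ => by rw [Pi.smul_apply, hti]
  have htj' : t' j = ∑ p, u p • t p j := by
    rw [ht', Finset.sum_apply]
    exact Finset.sum_congr rfl fun p _ => by rw [Pi.smul_apply]
  have hz0 : ∀ v ∈ (K j).Tl w, t' j *ᵥ v = 0 := by
    refine hcY _ (T.mem _ hdt' j) fun q => ?_
    have h1 : f u q = 0 := congrFun hu q
    have h2 : f u q = ∑ p, u p * (K j).bil (t p j *ᵥ c q.1.1) (c q.1.2) := rfl
    rw [htj', Matrix.sum_mulVec]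
    have h4 : ∑ p, (u p • t p j) *ᵥ c q.1.1 = ∑ p, u p • (t p j *ᵥ c q.1.1) :=
      Finset.sum_congr rfl fun p _ => by rw [Matrix.smul_mulVec]
    rw [h4, bil_sum_left, ← h2, h1]
  obtain ⟨v0, hv0, hne⟩ := hbu u hu0
  rw [← hti'] at hne
  have hm4 : m i ≠ 4 := by omega
  rw [free_iff T]
  exact ideal' (K i) (Fr T i z j w) (by omega) hm4 hz
    (by
      rintro X ⟨s, hs, h1, h2⟩ Y hY
      exact ⟨s, hs, fun v hv => by rw [h1 v hv, hY v hv], h2⟩)
    (Fr_brk T) ⟨t', hdt', fun v _ => rfl, hz0⟩ (T.mem _ hdt' i) hv0 hne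

/-- elements of `S` on an independent place -/
theorem S_Fr (T : TupAlg K d) {i j : Fin r} {z w : ℂ} (hF : Free K d i z j w)
    {X : Matrix (Fin (n i)) (Fin (n i)) ℂ} (hX : X ∈ (K i).S) : X ∈ Fr T i z j w := by
  obtain ⟨b, b', hb, hb', h0, h1, h2⟩ := DUAL.dual (K i) z
  have h3 : (1 / 2 : ℂ) • ∑ k, E5L.wm (K i) (X *ᵥ b k) (b' k) ∈ Fr T i z j w := by
    refine Submodule.smul_mem _ _ (Submodule.sum_mem _ fun k _ => ?_)
    exact (free_iff T i z j w).1 hF _ (E5L.S_pres (K i) hX (hb k)) _ (hb' k)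
  obtain ⟨s, hs, h4, h5⟩ := h3
  refine ⟨s, hs, fun v hv => ?_, h5⟩
  rw [h4 v hv, Matrix.smul_mulVec]
  have h6 : (∑ k, E5L.wm (K i) (X *ᵥ b k) (b' k)) *ᵥ v = (2 : ℂ) • (X *ᵥ v) := by
    have h7 : ∑ k, E5L.wm (K i) (X *ᵥ b k) (b' k) = -∑ k, E5L.wm (K i) (b' k) (X *ᵥ b k) := by
      rw [← Finset.sum_neg_distrib]
      exact Finset.sum_congr rfl fun k _ => wm_swap (K i) _ _
    rw [h7, Matrix.neg_mulVec, sum_wm (K i) hX b b' h1 h2 hv]
    module
  rw [h6, smul_smul]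
  norm_num

/-- F4, second part. -/
theorem free4 (T : TupAlg K d) {i j : Fin r} (hi : 6 ≤ m i) (hj : m j = 4) {z w : ℂ}
    (hz : aeval z (K i).P = 0) (hw : aeval w (K j).P = 0) : Free K d j w i z := by
  intro x hx y hy
  obtain ⟨t, ht, htj⟩ := T.onto j _ (E5L.wm_mem (K j) hx hy)
  obtain ⟨s, hs, h1, h2⟩ := S_Fr T (free6 T hi hj hz hw) (T.mem t ht i)
  refine ⟨t - s, (sub T).sub_mem ht hs, fun v hv => ?_, fun v hv => ?_⟩
  · rw [Pi.sub_apply, Matrix.sub_mulVec, h2 v hv, sub_zero, htj]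
  · rw [Pi.sub_apply, Matrix.sub_mulVec, h1 v hv, sub_self]

end tup

end F4X

end Pool.Agent.K3M
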