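import Pool.Agent.K3M.H1Cc
import Pool.Agent.K3M.ND

/-!
# H1C: the spin structures of the factors with complex multiplication, `m = 2`
-/

set_option autoImplicit false
set_option linter.unusedSectionVars false
set_option linter.unusedSimpArgs false

open scoped BigOperators
open Matrix Polynomial

namespace Pool.Agent.K3M

open Pool.Agent.DRB Pool.Agent.K3D Pool.Agent.K3E Pool.Agent.K3C Pool.Agent.K3P
open Pool.Agent.K3D.K7w Pool.Agent.K3D.K7x
open K3C.C8T (roots mem_roots)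
open K3C.TritX (PT actP)

noncomputable section

namespace H1C

variable {g n : ℕ} {A : AbVar g} (K : KSC A n 2)

/-- The spin structures at a place. -/
def IsSp (z : PT K) (s : Spin g n) : Prop :=
  ∃ w ∈ z.1, ∃ (x₁ x₂ y₁ y₂ : Fin n → ℂ) (j : ℂ), Dual K w x₁ x₂ y₁ y₂ ∧ j * j = -1 ∧
    s = mk K j x₁ x₂ y₁ y₂

variable {K}

theorem ne_aux (s : PT K → Spin g n) (hs : ∀ z, IsSp K z (s z)) (R : Finset (PT K)) :
    ∃ E : Matrix (Idx g) (Idx g) ℂ, E ≠ 0 ∧ (∀ z ∈ R, (s z).e * E = E ∧ E * (s z).e = E) ∧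
      ∀ w : ℂ, aeval w K.P = 0 → (∀ z ∈ R, w ∉ z.1) → ∀ v ∈ K.Tl w, K.cl v * E = E * K.cl v := by
  classical
  induction R using Finset.induction_on with
  | empty =>
    refine ⟨1, C5X.one_ne K.pos, fun z hz => absurd hz (Finset.notMem_empty z), fun w _ _ v _ => ?_⟩
    rw [mul_one, one_mul]
  | insert z R hz ih =>
    obtain ⟨E, hE, h1, h2⟩ := ih
    obtain ⟨w, hw, x₁, x₂, y₁, y₂, j, D, hj, hsz⟩ := hs z
    have hwr := mem_root K z hw
    have hwc := C5L.conj_root K hwr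
    have hcar := car hwr D
    have hq := H1A.qrel hcar hj
    have he : (s z).e = H1A.ee (K.cl x₁) (K.cl x₂) (K.cl ((1 / 2 : ℂ) • y₁)) (K.cl ((1 / 2 : ℂ) • y₂)) := by
      rw [hsz]; rfl
    have hout : ∀ z' ∈ R, w ∉ z'.1 := fun z' hz' h => hz (eq_of_mem K z z' hw h ▸ hz')
    have hout' : ∀ z' ∈ R, (starRingEnd ℂ) w ∉ z'.1 := fun z' hz' h =>
      hout z' hz' ((mem_conj_iff K z').1 h)
    have c1 := h2 w hwr hout x₁ D.x1
    have c2 := h2 w hwr hout x₂ D.x2
    have c3 := h2 _ hwc hout' ((1 / 2 : ℂ) • y₁) (Submodule.smul_mem _ _ D.y1)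
    have c4 := h2 _ hwc hout' ((1 / 2 : ℂ) • y₂) (Submodule.smul_mem _ _ D.y2)
    have hcomm : (s z).e * E = E * (s z).e := by
      have q1 : ∀ p q : Matrix (Idx g) (Idx g) ℂ, p * E = E * p → q * E = E * q →
          (p * q) * E = E * (p * q) := by
        intro p q hp hq
        rw [mul_assoc, hq, ← mul_assoc, hp, mul_assoc]
      rw [he]
      unfold H1A.ee
      rw [sub_mul, add_mul, mul_sub, mul_add, q1 _ _ c1 c3, q1 _ _ c2 c4, Matrix.smul_mul,
        Matrix.mul_smul, q1 _ _ (q1 _ _ c1 c3) (q1 _ _ c2 c4)]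
    have hid : (s z).e * (s z).e = (s z).e := by rw [he]; exact hq.idem
    refine ⟨(s z).e * E, ?_, ?_, ?_⟩
    · intro h0
      apply hE
      rw [he] at h0
      exact H1A.ne hcar c1 c4 h0
    · intro z' hz'
      rcases Finset.mem_insert.1 hz' with rfl | hz'
      · refine ⟨by rw [← mul_assoc, hid], ?_⟩
        rw [mul_assoc, ← hcomm, ← mul_assoc, hid]
      · obtain ⟨w', hw', x₁', x₂', y₁', y₂', j', D', hj', hsz'⟩ := hs z'
        have hne : z ≠ z' := fun h => hz (h ▸ hz')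
        have n1 : w' ≠ w := fun h => hne (eq_of_mem K z z' hw (h ▸ hw'))
        have n2 : w' ≠ (starRingEnd ℂ) w := fun h => hne (eq_of_mem K z z' hw (by
          have := mem_conj K z' hw'
          rwa [h, Complex.conj_conj] at this))
        have hqc := H1A.qcomm (j := j) (j' := j') (anti2 n1 n2 D D')
        have hee : (s z).e * (s z').e = (s z').e * (s z).e := by
          rw [hsz, hsz']; exact hqc.ee
        refine ⟨?_, ?_⟩
        · rw [← mul_assoc, ← hee, mul_assoc, (h1 z' hz').1]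
        · rw [mul_assoc, (h1 z' hz').2]
    · intro r hr hrout v hv
      have hrz : r ∉ z.1 := hrout z (Finset.mem_insert_self _ _)
      have hrR := h2 r hr (fun z' hz' => hrout z' (Finset.mem_insert_of_mem hz')) v hv
      have n1 : r ≠ w := fun h => hrz (h ▸ hw)
      have n2 : r ≠ (starRingEnd ℂ) w := fun h => hrz (h ▸ mem_conj K z hw)
      have hrr := C5X.rel K
      have hss : ∀ v' : Fin n → ℂ, K.bil v' v = 0 → K.cl v * K.cl v' = -(K.cl v' * K.cl v) :=
        fun v' h => C5X.anti hrr v v' (by rw [C5L.bil_comm]; exact h)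
      have o1 : ∀ v' ∈ K.Tl w, K.bil v' v = 0 := fun v' hv' => C5L.orth K n2 hv' hv
      have o2 : ∀ v' ∈ K.Tl ((starRingEnd ℂ) w), K.bil v' v = 0 := fun v' hv' =>
        C5L.orth K (by rw [Complex.conj_conj]; exact n1) hv' hv
      have hec : (s z).e * K.cl v = K.cl v * (s z).e := by
        rw [he]
        exact H1A.ee_comm (hss _ (o1 _ D.x1)) (hss _ (o1 _ D.x2))
          (hss _ (o2 _ (Submodule.smul_mem _ _ D.y1))) (hss _ (o2 _ (Submodule.smul_mem _ _ D.y2)))
      rw [← mul_assoc, ← hec, mul_assoc, hrR, mul_assoc]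

/-- An element which vanishes in the spin structure is scalar on the eigenspaces. -/
theorem scalar {w : ℂ} (hw : aeval w K.P = 0) {x₁ x₂ y₁ y₂ : Fin n → ℂ} (D : Dual K w x₁ x₂ y₁ y₂)
    {j : ℂ} (hj : j * j = -1) {a : Matrix (Fin n) (Fin n) ℂ} (ha : a ∈ K.S)
    (h0 : (mk K j x₁ x₂ y₁ y₂).x a = 0) :
    ∃ c : ℂ, (∀ v ∈ K.Tl w, a *ᵥ v = c • v) ∧ ∀ v ∈ K.Tl ((starRingEnd ℂ) w), a *ᵥ v = -(c • v) := by
  have hj0 : j ≠ 0 := by rintro rfl; norm_num at hj
  have e0 := congrFun h0 0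
  have e1 := congrFun h0 1
  have e2 := congrFun h0 2
  rw [mk_x0, Pi.zero_apply] at e0
  rw [mk_x1, Pi.zero_apply] at e1
  rw [mk_x2, Pi.zero_apply] at e2
  have e0' := (mul_eq_zero.1 e0).resolve_left hj0
  have e2' := (mul_eq_zero.1 e2).resolve_left hj0
  have f12 : K.bil (a *ᵥ x₂) y₁ = 0 := by linear_combination (1 / 2 : ℂ) * e0' - (1 / 2 : ℂ) * e1
  have f21 : K.bil (a *ᵥ x₁) y₂ = 0 := by linear_combination (1 / 2 : ℂ) * e0' + (1 / 2 : ℂ) * e1
  have f22 : K.bil (a *ᵥ x₂) y₂ = K.bil (a *ᵥ x₁) y₁ := by linear_combination -e2'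
  have g1 := expand hw D (C5L.S_pres K ha D.x1)
  have g2 := expand hw D (C5L.S_pres K ha D.x2)
  rw [f21, zero_smul, add_zero] at g1
  rw [f12, f22, zero_smul, zero_add] at g2
  have hv1 : ∀ v ∈ K.Tl w, a *ᵥ v = K.bil (a *ᵥ x₁) y₁ • v := by
    intro v hv
    have h2 := expand hw D hv
    generalize K.bil (a *ᵥ x₁) y₁ = c at *
    rw [h2, Matrix.mulVec_add, Matrix.mulVec_smul, Matrix.mulVec_smul, g1, g2]
    module
  refine ⟨_, hv1, fun v hv => ?_⟩
  generalize K.bil (a *ᵥ x₁) y₁ = c at hv1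
  rw [eq_neg_iff_add_eq_zero]
  refine C5L.nondegT K (z := (starRingEnd ℂ) w) (Submodule.add_mem _ (C5L.S_pres K ha hv)
    (Submodule.smul_mem _ _ hv)) fun u hu => ?_
  rw [Complex.conj_conj] at hu
  rw [C5L.bil_add_left, C5L.bil_S K ha, hv1 u hu, C5L.bil_smul_left, C5L.bil_smul_right,
    neg_add_cancel]

theorem brk_wm {w : ℂ} (hw : aeval w K.P = 0) {x₁ x₂ y₁ y₂ : Fin n → ℂ} (D : Dual K w x₁ x₂ y₁ y₂) :
    C5L.wm K x₁ y₁ - C5L.wm K x₂ y₂ =
      C5L.wm K x₁ y₂ * C5L.wm K x₂ y₁ - C5L.wm K x₂ y₁ * C5L.wm K x₁ y₂ := by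
  have hwc := C5L.conj_root K hw
  have hX := C5L.wm_mem K hw D.x1 D.y2
  have o1 : K.bil x₁ x₂ = 0 := orthw hw D.x1 D.x2
  have o2 : K.bil y₂ y₁ = 0 := orthw hwc D.y2 D.y1
  have o3 : K.bil y₂ x₂ = 1 := by rw [C5L.bil_comm]; exact D.b22
  rw [C8D.comm_wm K hX, C5L.wm_mulVec, C5L.wm_mulVec, o1, o2, o3, D.b11, one_smul, zero_smul, sub_zero,
    zero_smul, one_smul, zero_sub, sub_eq_add_neg]
  congr 1
  exact ((C8D.wl K x₂).map_neg y₂).symm

/-- The hyperbolic element acts by `1` and `-1`. -/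
theorem hyp_act {w : ℂ} (hw : aeval w K.P = 0) {x₁ x₂ y₁ y₂ : Fin n → ℂ} (D : Dual K w x₁ x₂ y₁ y₂) :
    (C5L.wm K x₁ y₁ - C5L.wm K x₂ y₂) *ᵥ x₁ = x₁ ∧ (C5L.wm K x₁ y₁ - C5L.wm K x₂ y₂) *ᵥ x₂ = -x₂ ∧
    (C5L.wm K x₁ y₁ - C5L.wm K x₂ y₂) *ᵥ y₁ = -y₁ ∧ (C5L.wm K x₁ y₁ - C5L.wm K x₂ y₂) *ᵥ y₂ = y₂ := by
  have hwc := C5L.conj_root K hw
  have s11 := D.b11
  have s12 := D.b12
  have s21 := D.b21
  have s22 := D.b22
  have t11 : K.bil y₁ x₁ = 1 := by rw [C5L.bil_comm]; exact D.b11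
  have t12 : K.bil y₁ x₂ = 0 := by rw [C5L.bil_comm]; exact D.b21
  have t21 : K.bil y₂ x₁ = 0 := by rw [C5L.bil_comm]; exact D.b12
  have t22 : K.bil y₂ x₂ = 1 := by rw [C5L.bil_comm]; exact D.b22
  have u11 := orthw hw D.x1 D.x1
  have u12 := orthw hw D.x1 D.x2
  have u21 := orthw hw D.x2 D.x1
  have u22 := orthw hw D.x2 D.x2
  have v11 := orthw hwc D.y1 D.y1
  have v12 := orthw hwc D.y1 D.y2
  have v21 := orthw hwc D.y2 D.y1
  have v22 := orthw hwc D.y2 D.y2
  refine ⟨?_, ?_, ?_, ?_⟩ <;>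
  simp only [Matrix.sub_mulVec, C5L.wm_mulVec, s11, s12, s21, s22, t11, t12, t21, t22, u11, u12, u21, u22,
    v11, v12, v21, v22, one_smul, zero_smul, sub_zero, zero_sub, sub_self, neg_neg]

end H1C

open H1C in
/-- H1C. -/
theorem H1C_proof : Stmt_H1C := by
  intro g A n K
  classical
  refine ⟨{
    S := K.S
    Z := { toFun := K.Z, map_add' := C5X.Z_add K, map_smul' := C5X.Z_smul K }
    Ω := PT K
    fin := inferInstance
    act := fun σ z => actP K σ z
    act_one := fun z => by rw [map_one]; rfl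
    act_mul := fun σ τ z => by rw [map_mul]; rfl
    o := ⟨{K.lam, (starRingEnd ℂ) K.lam}, K.lam, K.lam_root, rfl⟩
    trans := ?_
    pr := prz K
    pr_mem := fun z a ha => pr_mem K z ha
    pr_sum := ?_
    pr_self := ?_
    pr_ne := ?_
    pr_brk := ?_
    IsSp := IsSp K
    rel := ?_
    brk := ?_
    x_pr := ?_
    Zx := ?_
    comm := ?_
    ne := ?_
    aut := ?_
    full := ?_
    hyp := ?_
    cpt := ?_
    perf := fun a ha b hb => NDX.perfC K ha hb }, rfl, fun a => rfl⟩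
  · -- trans
    intro z
    obtain ⟨w, hw⟩ := exists_mem K z
    obtain ⟨σ, hσ⟩ := E5L.exists_aut K.irr K.lam_root (mem_root K z hw)
    refine ⟨σ, eq_of_mem K _ z (w := w) ?_ hw⟩
    rw [TritX.actP_apply]
    exact Finset.mem_image.2 ⟨K.lam, Finset.mem_insert_self _ _, hσ⟩
  · -- pr_sum
    intro a _
    have h1 : ∀ z, prz K z a = pz K z.1 * a := fun z => rfl
    rw [Finset.sum_congr rfl fun z _ => h1 z, ← Finset.sum_mul, pz_sum, one_mul]
  · -- pr_self
    intro z a _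
    rw [prz_apply, prz_apply, ← mul_assoc, pz_idem]
  · -- pr_ne
    intro z w hne a _
    rw [prz_apply, prz_apply, ← mul_assoc, pz_ne K hne, zero_mul]
  · -- pr_brk
    intro z a ha b hb
    have h1 : ∀ {a b : Matrix (Fin n) (Fin n) ℂ}, a ∈ K.S →
        pz K z.1 * (a * b) = pz K z.1 * a * (pz K z.1 * b) := by
      intro a b ha
      rw [pz_comm K z.1 ha, mul_assoc a, ← mul_assoc (pz K z.1) (pz K z.1) b, pz_idem, ← mul_assoc,
        ← mul_assoc, pz_comm K z.1 ha]
    rw [prz_apply, prz_apply, prz_apply, mul_sub, h1 ha, h1 hb]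
  · -- rel
    rintro z s ⟨w, hw, x₁, x₂, y₁, y₂, j, D, hj, rfl⟩
    exact H1A.qrel (car (mem_root K z hw) D) hj
  · -- brk
    rintro z s ⟨w, hw, x₁, x₂, y₁, y₂, j, D, hj, rfl⟩ a ha b hb
    exact mk_brk (mem_root K z hw) D hj ha hb
  · -- x_pr
    rintro z s ⟨w, hw, x₁, x₂, y₁, y₂, j, D, hj, rfl⟩ a ha
    have h1 : prz K z a *ᵥ x₁ = a *ᵥ x₁ := by
      rw [prz_apply, ← Matrix.mulVec_mulVec, pz_in K z.1 (mem_root K z hw) (C5L.S_pres K ha D.x1) hw]
    have h2 : prz K z a *ᵥ x₂ = a *ᵥ x₂ := by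
      rw [prz_apply, ← Matrix.mulVec_mulVec, pz_in K z.1 (mem_root K z hw) (C5L.S_pres K ha D.x2) hw]
    funext k
    fin_cases k
    · show (mk K j x₁ x₂ y₁ y₂).x _ 0 = (mk K j x₁ x₂ y₁ y₂).x _ 0
      rw [mk_x0, mk_x0, h1, h2]
    · show (mk K j x₁ x₂ y₁ y₂).x _ 1 = (mk K j x₁ x₂ y₁ y₂).x _ 1
      rw [mk_x1, mk_x1, h1, h2]
    · show (mk K j x₁ x₂ y₁ y₂).x _ 2 = (mk K j x₁ x₂ y₁ y₂).x _ 2
      rw [mk_x2, mk_x2, h1, h2]
  · -- Zx
    rintro z s ⟨w, hw, x₁, x₂, y₁, y₂, j, D, hj, rfl⟩ a ha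
    exact mk_Z z hw D hj ha
  · -- comm
    rintro z z' s s' hne ⟨w, hw, x₁, x₂, y₁, y₂, j, D, hj, rfl⟩ ⟨w', hw', x₁', x₂', y₁', y₂', j', D', hj', rfl⟩
    have n1 : w' ≠ w := fun h => hne (eq_of_mem K z z' hw (h ▸ hw'))
    have n2 : w' ≠ (starRingEnd ℂ) w := fun h => hne (eq_of_mem K z z' hw (by
      have := mem_conj K z' hw'
      rwa [h, Complex.conj_conj] at this))
    exact H1A.qcomm (anti2 n1 n2 D D')
  · -- ne
    intro s hs
    obtain ⟨E, hE, h1, -⟩ := ne_aux s hs Finset.univ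
    exact ⟨E, hE, fun z => h1 z (Finset.mem_univ z)⟩
  · -- aut
    rintro σ z s ⟨w, hw, x₁, x₂, y₁, y₂, j, D, hj, rfl⟩
    refine ⟨σ w, ?_, _, _, _, _, σ j, D.map (mem_root K z hw) σ, ?_, mk_aut j x₁ x₂ y₁ y₂⟩
    · rw [TritX.actP_apply]
      exact Finset.mem_image_of_mem _ hw
    · rw [← map_mul, hj, map_neg, map_one]
  · -- full
    intro z
    obtain ⟨w, hw⟩ := exists_mem K z
    have hwr := mem_root K z hw
    have hwc := C5L.conj_root K hwr
    obtain ⟨x₁, hx₁, x₂, hx₂, y₁, hy₁, y₂, hy₂, -, b1, b2, b3, b4⟩ :=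
      SFX.exists_dual K le_rfl (1 : ℂ ≃ₐ[ℚ] ℂ) hwr rfl
    have D : Dual K w x₁ x₂ y₁ y₂ := ⟨hx₁, hx₂, hy₁, hy₂, b1, b2, b3, b4⟩
    have hI : Complex.I * Complex.I = -1 := Complex.I_mul_I
    refine ⟨1, fun _ => mk K Complex.I x₁ x₂ y₁ y₂,
      fun _ => ⟨w, hw, x₁, x₂, y₁, y₂, Complex.I, D, hI, rfl⟩, ?_, ?_⟩
    · intro u
      set α : ℂ := -(Complex.I * u 0 2) with hα
      set β : ℂ := (-(Complex.I * u 0 0) - u 0 1) / 2 with hβ
      set γ : ℂ := (-(Complex.I * u 0 0) + u 0 1) / 2 with hγ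
      refine ⟨α • C5L.wm K x₁ y₁ + β • C5L.wm K x₁ y₂ + γ • C5L.wm K x₂ y₁, ?_, fun i => ?_⟩
      · exact K.S.add_mem (K.S.add_mem (K.S.smul_mem _ (C5L.wm_mem K hwr hx₁ hy₁))
          (K.S.smul_mem _ (C5L.wm_mem K hwr hx₁ hy₂))) (K.S.smul_mem _ (C5L.wm_mem K hwr hx₂ hy₁))
      · have t11 : K.bil y₁ x₁ = 1 := by rw [C5L.bil_comm]; exact D.b11
        have t12 : K.bil y₁ x₂ = 0 := by rw [C5L.bil_comm]; exact D.b21
        have t21 : K.bil y₂ x₁ = 0 := by rw [C5L.bil_comm]; exact D.b12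
        have t22 : K.bil y₂ x₂ = 1 := by rw [C5L.bil_comm]; exact D.b22
        have u11 := orthw hwr D.x1 D.x1
        have u12 := orthw hwr D.x1 D.x2
        have u21 := orthw hwr D.x2 D.x1
        have u22 := orthw hwr D.x2 D.x2
        have k1 : (α • C5L.wm K x₁ y₁ + β • C5L.wm K x₁ y₂ + γ • C5L.wm K x₂ y₁) *ᵥ x₁ =
            α • x₁ + γ • x₂ := by
          simp only [Matrix.add_mulVec, Matrix.smul_mulVec, C5L.wm_mulVec, t11, t21, u11, u21, one_smul,
            zero_smul, sub_zero, smul_zero, add_zero]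
        have k2 : (α • C5L.wm K x₁ y₁ + β • C5L.wm K x₁ y₂ + γ • C5L.wm K x₂ y₁) *ᵥ x₂ = β • x₁ := by
          simp only [Matrix.add_mulVec, Matrix.smul_mulVec, C5L.wm_mulVec, t12, t22, u12, u22, one_smul,
            zero_smul, sub_zero, smul_zero, add_zero, zero_add]
        have l11 : K.bil (α • x₁ + γ • x₂) y₁ = α := by
          rw [C5L.bil_add_left, C5L.bil_smul_left, C5L.bil_smul_left, b1, b4]; ring
        have l12 : K.bil (α • x₁ + γ • x₂) y₂ = γ := by
          rw [C5L.bil_add_left, C5L.bil_smul_left, C5L.bil_smul_left, b3, b2]; ring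
        have l21 : K.bil (β • x₁) y₁ = β := by rw [C5L.bil_smul_left, b1, mul_one]
        have l22 : K.bil (β • x₁) y₂ = 0 := by rw [C5L.bil_smul_left, b3, mul_zero]
        have hi : i = 0 := Subsingleton.elim _ _
        subst hi
        funext k
        fin_cases k
        · show (mk K _ x₁ x₂ y₁ y₂).x _ 0 = u 0 0
          rw [mk_x0, k1, k2, l21, l12, hβ, hγ]
          linear_combination (-(u 0 0)) * hI
        · show (mk K _ x₁ x₂ y₁ y₂).x _ 1 = u 0 1
          rw [mk_x1, k1, k2, l21, l12, hβ, hγ]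
          ring
        · show (mk K _ x₁ x₂ y₁ y₂).x _ 2 = u 0 2
          rw [mk_x2, k1, k2, l11, l22, hα]
          linear_combination (-(u 0 2)) * hI
    · intro a ha h0 b hb
      obtain ⟨c, h1, h2⟩ := scalar hwr D hI ha (h0 0)
      have hpa := pr_mem K z ha
      refine C5L.mat_extT K fun r hr v hv => ?_
      rw [← Matrix.mulVec_mulVec, ← Matrix.mulVec_mulVec]
      have hbv := C5L.S_pres K hb hv
      have key : ∀ u ∈ K.Tl r, prz K z a *ᵥ u = (if r = w then c else if r = (starRingEnd ℂ) w then -c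
          else 0) • u := by
        intro u hu
        rw [prz_apply, ← Matrix.mulVec_mulVec, pz_mulVec K z.1 hr (C5L.S_pres K ha hu)]
        by_cases e1 : r = w
        · subst e1
          rw [if_pos hw, if_pos rfl, h1 u hu]
        · rw [if_neg e1]
          by_cases e2 : r = (starRingEnd ℂ) w
          · subst e2
            rw [if_pos (mem_conj K z hw), if_pos rfl, h2 u hu, neg_smul]
          · rw [if_neg e2, if_neg (fun h => (mem_pair K z hw h).elim e1 e2), zero_smul]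
      rw [key _ hbv, key _ hv, Matrix.mulVec_smul]
  · -- hyp
    obtain ⟨x₁, x₂, y₁, y₂, a, D, ha⟩ := H1C.hyp K le_rfl
    have hlr := K.lam_root
    have hX := C5L.wm_mem K hlr D.x1 D.y2
    have hY := C5L.wm_mem K hlr D.x2 D.y1
    obtain ⟨q1, q2, q3, q4⟩ := hyp_act hlr D
    rw [← ha] at q1 q2 q3 q4
    have haS : a.map Complex.ofReal ∈ K.S := by
      rw [ha]
      exact K.S.sub_mem (C5L.wm_mem K hlr D.x1 D.y1) (C5L.wm_mem K hlr D.x2 D.y2)
    have hx10 : x₁ ≠ 0 := by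
      rintro h
      have := D.b11
      rw [h, C5L.bil_zero_left] at this
      exact zero_ne_one this
    have hx20 : x₂ ≠ 0 := by
      rintro h
      have := D.b22
      rw [h, C5L.bil_zero_left] at this
      exact zero_ne_one this
    have hy10 : y₁ ≠ 0 := by
      rintro h
      have := D.b11
      rw [h, C5L.bil_zero_right] at this
      exact zero_ne_one this
    have hy20 : y₂ ≠ 0 := by
      rintro h
      have := D.b22
      rw [h, C5L.bil_zero_right] at this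
      exact zero_ne_one this
    refine ⟨1, fun _ => C5L.wm K x₁ y₂, fun _ => C5L.wm K x₂ y₁, a, fun _ => ⟨hX, hY⟩, ?_, ?_, ?_⟩
    · rw [Fin.sum_univ_one, ha, brk_wm hlr D]
    · intro h hl
      have hp := GPX.hypPart_of_log hl
      have he : ∀ (c : ℝ) (v : Fin n → ℂ), a.map Complex.ofReal *ᵥ v = (c : ℂ) • v →
          h.map Complex.ofReal *ᵥ v = a.map Complex.ofReal *ᵥ v := by
        intro c v hv
        rw [hv]
        have h1 := hp (c : ℂ) v ⟨1, by
          rw [pow_one, Matrix.sub_mulVec, hv, Matrix.smul_mulVec, Matrix.one_mulVec, sub_self]⟩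
        rw [Complex.ofReal_re] at h1
        exact h1
      have hmap : h.map Complex.ofReal = a.map Complex.ofReal := by
        refine C5L.mat_extT K fun r hr v hv => ?_
        by_cases e1 : r = K.lam
        · subst e1
          have hx1 := he 1 x₁ (by rw [q1]; simp)
          have hx2 := he (-1) x₂ (by rw [q2]; simp)
          rw [expand hlr D hv, Matrix.mulVec_add, Matrix.mulVec_smul, Matrix.mulVec_smul, hx1, hx2,
            Matrix.mulVec_add, Matrix.mulVec_smul, Matrix.mulVec_smul]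
        · by_cases e2 : r = (starRingEnd ℂ) K.lam
          · subst e2
            have hy1 := he (-1) y₁ (by rw [q3]; simp)
            have hy2 := he 1 y₂ (by rw [q4]; simp)
            rw [expand hr D.swap hv, Matrix.mulVec_add, Matrix.mulVec_smul, Matrix.mulVec_smul, hy1, hy2,
              Matrix.mulVec_add, Matrix.mulVec_smul, Matrix.mulVec_smul]
          · refine he 0 v ?_
            rw [ha, Matrix.sub_mulVec, C5L.wm_mulVec, C5L.wm_mulVec]
            have f1 : K.bil x₁ v = 0 := C5L.orth K e2 D.x1 hv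
            have f2 : K.bil x₂ v = 0 := C5L.orth K e2 D.x2 hv
            have f3 : K.bil y₁ v = 0 := C5L.orth K (by rw [Complex.conj_conj]; exact e1) D.y1 hv
            have f4 : K.bil y₂ v = 0 := C5L.orth K (by rw [Complex.conj_conj]; exact e1) D.y2 hv
            rw [f1, f2, f3, f4]
            simp
      ext i j
      have := congrFun (congrFun hmap i) j
      rw [Matrix.map_apply, Matrix.map_apply] at this
      exact_mod_cast this
    · rintro s ⟨w, hw, x₁', x₂', y₁', y₂', j, D', hj, rfl⟩ h0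
      obtain ⟨c, h1, h2⟩ := scalar (mem_root K _ hw) D' hj haS h0
      rcases Finset.mem_insert.1 hw with e | e
      · subst e
        have k1 := h1 x₁ D.x1
        have k2 := h1 x₂ D.x2
        rw [q1] at k1
        rw [q2] at k2
        have c1 : c = 1 := by
          have : (c - 1) • x₁ = 0 := by rw [sub_smul, ← k1, one_smul, sub_self]
          exact sub_eq_zero.1 ((smul_eq_zero.1 this).resolve_right hx10)
        have c2 : c = -1 := by
          have : (c + 1) • x₂ = 0 := by rw [add_smul, ← k2, one_smul, neg_add_cancel]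
          exact eq_neg_of_add_eq_zero_left ((smul_eq_zero.1 this).resolve_right hx20)
        rw [c1] at c2
        norm_num at c2
      · have e' := Finset.mem_singleton.1 e
        subst e'
        have k1 := h1 y₁ D.y1
        have k2 := h1 y₂ D.y2
        rw [q3] at k1
        rw [q4] at k2
        have c1 : c = -1 := by
          have : (c + 1) • y₁ = 0 := by rw [add_smul, ← k1, one_smul, neg_add_cancel]
          exact eq_neg_of_add_eq_zero_left ((smul_eq_zero.1 this).resolve_right hy10)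
        have c2 : c = 1 := by
          have : (c - 1) • y₂ = 0 := by rw [sub_smul, ← k2, one_smul, sub_self]
          exact sub_eq_zero.1 ((smul_eq_zero.1 this).resolve_right hy20)
        rw [c1] at c2
        norm_num at c2
  · -- cpt
    intro a h _ hh hl z hz
    have hd := (hypq (GPX.hypPart_of_log hl)).1
    refine C5L.mat_extT K fun r hr v hv => ?_
    rw [prz_apply, ← Matrix.mulVec_mulVec, pz_mulVec K z.1 hr (C5L.S_pres K hh hv), Matrix.zero_mulVec]
    split_ifs with hrz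
    · refine NPC.compact_zero K (by omega) hh hd (w := r) (Or.inr ⟨fun h => ?_, fun h => ?_⟩) hv
      · exact hz (eq_of_mem K z _ hrz (h ▸ Finset.mem_insert_self _ _))
      · exact hz (eq_of_mem K z _ hrz (h ▸ Finset.mem_insert_of_mem (Finset.mem_singleton_self _)))
    · rfl

end

end Pool.Agent.K3M
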