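import Pool.Agent.K3M.H1E
import Pool.Agent.K3P.GG2

/-!
# Spin structures of the factors with real multiplication: perfectness, compactness, hyperbolic element
-/

open scoped BigOperators
open Matrix Polynomial

namespace Pool.Agent.K3M

open Pool.Agent.DRB Pool.Agent.K3D Pool.Agent.K3E Pool.Agent.K3C Pool.Agent.K3P
open Pool.Agent.K3D.K7w Pool.Agent.K3D.K7x

noncomputable section

namespace H1Y

/-- A bracket of sums of brackets. -/
theorem brk_span {n : ℕ} {S : Submodule ℂ (Matrix (Fin n) (Fin n) ℂ)} {a b : Matrix (Fin n) (Fin n) ℂ}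
    (ha : a ∈ Submodule.span ℂ {c | ∃ x ∈ S, ∃ y ∈ S, c = x * y - y * x})
    (hb : b ∈ Submodule.span ℂ {c | ∃ x ∈ S, ∃ y ∈ S, c = x * y - y * x}) :
    a * b - b * a ∈ Submodule.span ℂ {c | ∃ x ∈ S, ∃ y ∈ S, ∃ x' ∈ S, ∃ y' ∈ S,
      c = (x * y - y * x) * (x' * y' - y' * x') - (x' * y' - y' * x') * (x * y - y * x)} := by
  refine Submodule.span_induction (p := fun a _ => a * b - b * a ∈ Submodule.span ℂ
    {c | ∃ x ∈ S, ∃ y ∈ S, ∃ x' ∈ S, ∃ y' ∈ S,
      c = (x * y - y * x) * (x' * y' - y' * x') - (x' * y' - y' * x') * (x * y - y * x)})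
    ?_ ?_ ?_ ?_ ha
  · rintro _ ⟨x, hx, y, hy, rfl⟩
    refine Submodule.span_induction (p := fun b _ => (x * y - y * x) * b - b * (x * y - y * x) ∈
      Submodule.span ℂ {c | ∃ x ∈ S, ∃ y ∈ S, ∃ x' ∈ S, ∃ y' ∈ S,
        c = (x * y - y * x) * (x' * y' - y' * x') - (x' * y' - y' * x') * (x * y - y * x)})
      ?_ ?_ ?_ ?_ hb
    · rintro _ ⟨x', hx', y', hy', rfl⟩
      exact Submodule.subset_span ⟨x, hx, y, hy, x', hx', y', hy', rfl⟩
    · rw [Matrix.mul_zero, Matrix.zero_mul, sub_zero]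
      exact Submodule.zero_mem _
    · intro u v _ _ h1 h2
      have h3 := Submodule.add_mem _ h1 h2
      rw [Matrix.mul_add, Matrix.add_mul]
      convert h3 using 1
      abel
    · intro c u _ h1
      have h3 := Submodule.smul_mem _ c h1
      rw [Matrix.mul_smul, Matrix.smul_mul, ← smul_sub]
      exact h3
  · rw [Matrix.mul_zero, Matrix.zero_mul, sub_zero]
    exact Submodule.zero_mem _
  · intro u v _ _ h1 h2
    have h3 := Submodule.add_mem _ h1 h2
    rw [Matrix.mul_add, Matrix.add_mul]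
    convert h3 using 1
    abel
  · intro c u _ h1
    have h3 := Submodule.smul_mem _ c h1
    rw [Matrix.mul_smul, Matrix.smul_mul, ← smul_sub]
    exact h3

/-- A sum of brackets. -/
theorem exists_sum {n : ℕ} {S : Submodule ℂ (Matrix (Fin n) (Fin n) ℂ)} {a : Matrix (Fin n) (Fin n) ℂ}
    (ha : a ∈ Submodule.span ℂ {c | ∃ x ∈ S, ∃ y ∈ S, c = x * y - y * x}) :
    ∃ (c : ℕ) (x y : Fin c → Matrix (Fin n) (Fin n) ℂ), (∀ i, x i ∈ S ∧ y i ∈ S) ∧
      a = ∑ i, (x i * y i - y i * x i) := by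
  refine Submodule.span_induction (p := fun a _ =>
    ∃ (c : ℕ) (x y : Fin c → Matrix (Fin n) (Fin n) ℂ), (∀ i, x i ∈ S ∧ y i ∈ S) ∧
      a = ∑ i, (x i * y i - y i * x i)) ?_ ?_ ?_ ?_ ha
  · rintro _ ⟨x, hx, y, hy, rfl⟩
    exact ⟨1, fun _ => x, fun _ => y, fun _ => ⟨hx, hy⟩, by simp⟩
  · exact ⟨0, fun _ => 0, fun _ => 0, fun i => i.elim0, by simp⟩
  · rintro u v _ _ ⟨c, x, y, h1, h2⟩ ⟨c', x', y', h1', h2'⟩
    refine ⟨c + c', Fin.append x x', Fin.append y y', fun i => ?_, ?_⟩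
    · refine Fin.addCases (fun i => ?_) (fun i => ?_) i
      · rw [Fin.append_left, Fin.append_left]; exact h1 i
      · rw [Fin.append_right, Fin.append_right]; exact h1' i
    · rw [Fin.sum_univ_add, h2, h2']
      simp only [Fin.append_left, Fin.append_right]
  · rintro t u _ ⟨c, x, y, h1, h2⟩
    refine ⟨c, fun i => t • x i, y, fun i => ⟨S.smul_mem t (h1 i).1, (h1 i).2⟩, ?_⟩
    rw [h2, Finset.smul_sum]
    exact Finset.sum_congr rfl fun i _ => by rw [Matrix.smul_mul, Matrix.mul_smul, smul_sub]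

section one

variable {g n m : ℕ} {A : AbVar g} (K : KSE A n m)

/-- Perfectness of the derived algebra. -/
theorem perfE (hm : 3 ≤ m) {a b : Matrix (Fin n) (Fin n) ℂ} (ha : a ∈ K.S) (hb : b ∈ K.S) :
    a * b - b * a ∈ Submodule.span ℂ {c | ∃ x ∈ K.S, ∃ y ∈ K.S, ∃ x' ∈ K.S, ∃ y' ∈ K.S,
      c = (x * y - y * x) * (x' * y' - y' * x') - (x' * y' - y' * x') * (x * y - y * x)} :=
  brk_span (NDX.perf K hm ha) (NDX.perf K hm hb)

/-- The compact places. -/
theorem cptE {a h : Matrix (Fin n) (Fin n) ℝ} (hh : h.map Complex.ofReal ∈ K.S)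
    (hl : IsHypLog (NormedSpace.exp a) h) {w : ℂ} (hw : aeval w K.P = 0) (hwl : w ≠ (K.lam : ℂ))
    {v : Fin n → ℂ} (hv : v ∈ K.Tl w) : (h.map Complex.ofReal) *ᵥ v = 0 :=
  GGX.compact_zero K hh (hypq (GPX.hypPart_of_log hl)).1 hw hwl hv

/-- The square of the lift of `e ∧ f` for isotropic vectors. -/
theorem Z_sq {e f : Fin n → ℂ} (hee : K.bil e e = 0) (hff : K.bil f f = 0) :
    K.Z (E5L.wm K e f) * K.Z (E5L.wm K e f) = ((1 / 4 : ℂ) * (K.bil e f * K.bil e f)) • 1 := by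
  have hr := E5X.rel K
  have he2 : K.cl e * K.cl e = 0 := by
    have h1 := hr e e
    rw [hee, mul_zero, zero_smul, ← two_smul ℂ] at h1
    exact (smul_eq_zero.1 h1).resolve_left two_ne_zero
  have hf2 : K.cl f * K.cl f = 0 := by
    have h1 := hr f f
    rw [hff, mul_zero, zero_smul, ← two_smul ℂ] at h1
    exact (smul_eq_zero.1 h1).resolve_left two_ne_zero
  have h1 : K.cl f * K.cl e = (2 * K.bil e f) • (1 : Matrix (Idx g) (Idx g) ℂ) - K.cl e * K.cl f := by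
    rw [← hr e f]; abel
  have h2 : K.cl e * K.cl f * (K.cl e * K.cl f) = (2 * K.bil e f) • (K.cl e * K.cl f) := by
    calc K.cl e * K.cl f * (K.cl e * K.cl f) = K.cl e * (K.cl f * K.cl e) * K.cl f := by
          simp only [Matrix.mul_assoc]
      _ = (2 * K.bil e f) • (K.cl e * K.cl f) - (K.cl e * K.cl e) * (K.cl f * K.cl f) := by
          rw [h1, Matrix.mul_sub, Matrix.sub_mul, Matrix.mul_smul, Matrix.mul_one, Matrix.smul_mul]
          simp only [Matrix.mul_assoc]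
      _ = (2 * K.bil e f) • (K.cl e * K.cl f) := by rw [he2, Matrix.zero_mul, sub_zero]
  rw [E10B.Z_wm, Matrix.smul_mul, Matrix.mul_smul, smul_smul, Matrix.sub_mul, Matrix.mul_sub,
    Matrix.mul_sub, h2, Matrix.mul_smul, Matrix.mul_one, Matrix.smul_mul, Matrix.one_mul,
    Matrix.smul_mul, Matrix.one_mul]
  module

/-- A hyperbolic element at the indefinite place. -/
theorem hypE (hm : 3 ≤ m) :
    ∃ (c : ℕ) (x y : Fin c → Matrix (Fin n) (Fin n) ℂ) (a : Matrix (Fin n) (Fin n) ℝ),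
      (∀ i, x i ∈ K.S ∧ y i ∈ K.S) ∧ a.map Complex.ofReal = ∑ i, (x i * y i - y i * x i) ∧
      (∀ h, IsHypLog (NormedSpace.exp a) h → h = a) ∧
      (∀ w : ℂ, w ≠ (K.lam : ℂ) → ∀ v ∈ K.Tl w, (a.map Complex.ofReal) *ᵥ v = 0) ∧
      a.map Complex.ofReal ∈ K.S ∧
      ∃ t : ℂ, t ≠ 0 ∧ K.Z (a.map Complex.ofReal) * K.Z (a.map Complex.ofReal) = t • 1 := by
  have hV : 3 ≤ Module.finrank ℝ (E8Y.V0 K) := by
    rw [E8Y.finrank_V0 K hm E5l_proof]; exact hm
  obtain ⟨e, he, f, hf, hee, hff, hef⟩ := RG.iso_pair K (GPX.n_ge K hm) hV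
  have hwm : (GPX.rm K e f).map Complex.ofReal =
      E5L.wm K (fun k => (e k : ℂ)) (fun k => (f k : ℂ)) := by
    ext p q
    simp only [GPX.rm, E5L.wm, Matrix.map_apply, Matrix.of_apply, GPX.qR]
    push_cast
    ring
  have hS := GPX.rm_mem K he hf
  obtain ⟨c, x, y, h1, h2⟩ := exists_sum (NDX.perf K hm hS)
  refine ⟨c, x, y, GPX.rm K e f, h1, h2, fun h hl => ?_, fun w hw v hv => ?_, hS, ?_⟩
  · exact GGX.hyp_rm K hee hff hef (hypq (GPX.hypPart_of_log hl)).2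
  · rw [hwm, E5L.wm_mulVec, E5L.orth K (Ne.symm hw) (GGX.ofReal_mem K hf) hv,
      E5L.orth K (Ne.symm hw) (GGX.ofReal_mem K he) hv, zero_smul, zero_smul, sub_zero]
  · refine ⟨(1 / 4 : ℂ) * (K.bil (fun k => (e k : ℂ)) (fun k => (f k : ℂ)) *
      K.bil (fun k => (e k : ℂ)) (fun k => (f k : ℂ))), ?_, ?_⟩
    · have h3 : K.bil (fun k => (e k : ℂ)) (fun k => (f k : ℂ)) ≠ 0 := by
        rw [GGX.bil_ofReal]
        exact_mod_cast hef
      exact mul_ne_zero (by norm_num) (mul_ne_zero h3 h3)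
    · rw [hwm]
      exact Z_sq K (by rw [GGX.bil_ofReal, hee, Complex.ofReal_zero])
        (by rw [GGX.bil_ofReal, hff, Complex.ofReal_zero])

theorem realData (hm : 3 ≤ m) : H1X.RealData K where
  hyp := by
    obtain ⟨c, x, y, a, h1, h2, h3, h4, -, h5⟩ := hypE K hm
    exact ⟨c, x, y, a, h1, h2, h3, fun w _ hw v hv => h4 w hw v hv, h5⟩
  cpt := fun _ _ _ hh hl _ hw hwl _ hv => cptE K hh hl hw hwl hv
  perf := fun _ ha _ hb => perfE K hm ha hb

end one

end H1Y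

/-- H1E. The spin structures of the factors with real multiplication. -/
theorem H1E_proof : Stmt_H1E :=
  H1E_of fun _ _ _ _ K hm => H1Y.realData K (by omega)

end

end Pool.Agent.K3M
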