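import Pool.Agent.K3M.AssemblyF
import Pool.Agent.K3M.H1c
import Pool.Agent.K3M.H1C
import Pool.Agent.K3C.Trit

/-!
# De Rham-Betti conjecture for products of Kuga-Satake varieties: the final form
-/

namespace Pool.Agent.K3M

/-- The main theorem, final form. -/
theorem mainM3 : MainM3 := mainM3_of H1E_proof H1C_proof

end Pool.Agent.K3M
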