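import Pool.Agent.K3P.GG
import Pool.Agent.K3M.GP4

/-!
# GG for pairs of factors
-/

set_option autoImplicit false

open scoped BigOperators
open Matrix Polynomial

namespace Pool.Agent.K3M

open Pool.Agent.DRB Pool.Agent.K3D Pool.Agent.K3E Pool.Agent.K3P

namespace GG4X

open GGX

variable {r : ℕ} {h : Fin r → ℕ} {B : ∀ i, AbVar (h i)} {n m : Fin r → ℕ}
  {K : ∀ i, KSE (B i) (n i) (m i)} {d : (∀ i, Matrix (Fin (n i)) (Fin (n i)) ℂ) → Prop}

/-- Two factors whose dimensions are 3 or at least 6 are independent at all places. -/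
theorem free_pair (hGP : Stmt_GPp) (hE5l : Stmt_E5l) (T : TupAlg K d) (Lg : TupLog d)
    (N : TupNoIso K d) {i j : Fin r} (hij : i ≠ j) (hmi : m i = 3 ∨ 6 ≤ m i) (hmj : m j = 3 ∨ 6 ≤ m j)
    {z w : ℂ} (hz : aeval z (K i).P = 0) (hw : aeval w (K j).P = 0) : Free K d i z j w := by
  have h3i : 3 ≤ m i := by omega
  have h3j : 3 ≤ m j := by omega
  obtain ⟨σ, hσ⟩ := E5L.exists_aut (K i).irr (E8Y.lam_rootC (K i)) hz
  have hw' : aeval (σ.symm w) (K j).P = 0 := by
    have h1 : aeval (σ.symm w) (K j).P = σ.symm (aeval w (K j).P) := by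
      exact (Polynomial.aeval_algHom_apply (σ.symm : ℂ →ₐ[ℚ] ℂ) w (K j).P)
    rw [h1, hw, map_zero]
  have key : Free K d i ((K i).lam : ℂ) j (σ.symm w) := by
    by_cases hl : σ.symm w = ((K j).lam : ℂ)
    · rw [hl]
      rcases hGP r h B n m K d T Lg i j hij hmi hmj with h1 | ⟨ψ, c, hc, h1, h2⟩
      · exact free_real T h1
      · exfalso
        obtain ⟨M, G⟩ := good_real T ψ hc h1 h2
        exact no_good T N hij h3i h3j (E8Y.lam_rootC (K i)) (E8Y.lam_rootC (K j)) G
    · have hfin := E8Y.finrank_V0 (K i) h3i hE5l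
      exact free_compact T Lg (GPX.n_ge (K i) h3i) (by rw [hfin]; exact h3i) hw' hl
  have h1 := free_aut T σ key
  rwa [hσ, σ.apply_symm_apply] at h1

end GG4X

end Pool.Agent.K3M
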