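import Pool.Agent.K3M.HDefs

/-!
# H1C, algebra: the quaternion algebra of two fermions
-/

set_option autoImplicit false
set_option linter.unusedSectionVars false
set_option linter.unusedSimpArgs false

open scoped BigOperators
open Matrix

namespace Pool.Agent.K3M

open Pool.Agent.DRB Pool.Agent.K3D Pool.Agent.K3E Pool.Agent.K3C Pool.Agent.K3P

noncomputable section

namespace H1A

variable {κ : Type} [Fintype κ] [DecidableEq κ]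

/-- Two fermions. -/
structure CAR (a₁ a₂ b₁ b₂ : Matrix κ κ ℂ) : Prop where
  a11 : a₁ * a₁ = 0
  a22 : a₂ * a₂ = 0
  b11 : b₁ * b₁ = 0
  b22 : b₂ * b₂ = 0
  a12 : a₂ * a₁ = -(a₁ * a₂)
  b12 : b₂ * b₁ = -(b₁ * b₂)
  ab11 : b₁ * a₁ = 1 - a₁ * b₁
  ab22 : b₂ * a₂ = 1 - a₂ * b₂
  ab12 : b₁ * a₂ = -(a₂ * b₁)
  ab21 : b₂ * a₁ = -(a₁ * b₂)

/-- The idempotent. -/
def ee (a₁ a₂ b₁ b₂ : Matrix κ κ ℂ) : Matrix κ κ ℂ :=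
  a₁ * b₁ + a₂ * b₂ - (2 : ℂ) • (a₁ * b₁ * (a₂ * b₂))

/-- The linear map on `ℂ³` with three given values. -/
def Pl (P₁ P₂ P₃ : Matrix κ κ ℂ) : (Fin 3 → ℂ) →ₗ[ℂ] Matrix κ κ ℂ where
  toFun u := u 0 • P₁ + u 1 • P₂ + u 2 • P₃
  map_add' u v := by simp only [Pi.add_apply, add_smul]; abel
  map_smul' c u := by
    simp only [Pi.smul_apply, smul_eq_mul, RingHom.id_apply, smul_add, smul_smul]

theorem Pl_apply (P₁ P₂ P₃ : Matrix κ κ ℂ) (u : Fin 3 → ℂ) :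
    Pl P₁ P₂ P₃ u = u 0 • P₁ + u 1 • P₂ + u 2 • P₃ := rfl

/-- The Clifford elements: `j² = -1`. -/
def PP (j : ℂ) (a₁ a₂ b₁ b₂ : Matrix κ κ ℂ) : (Fin 3 → ℂ) →ₗ[ℂ] Matrix κ κ ℂ :=
  Pl (-(j / 2) • (a₁ * b₂ + a₂ * b₁)) ((1 / 2 : ℂ) • (a₂ * b₁ - a₁ * b₂))
    (-(j / 2) • (a₁ * b₁ - a₂ * b₂))

theorem qrel_Pl {e P₁ P₂ P₃ : Matrix κ κ ℂ} (he : e * e = e) (e1 : e * P₁ = P₁) (e2 : e * P₂ = P₂)
    (e3 : e * P₃ = P₃) (f1 : P₁ * e = P₁) (f2 : P₂ * e = P₂) (f3 : P₃ * e = P₃)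
    (h11 : P₁ * P₁ = (-(1 / 4) : ℂ) • e) (h22 : P₂ * P₂ = (-(1 / 4) : ℂ) • e)
    (h33 : P₃ * P₃ = (-(1 / 4) : ℂ) • e) (h12 : P₁ * P₂ = (1 / 2 : ℂ) • P₃)
    (h21 : P₂ * P₁ = (-(1 / 2) : ℂ) • P₃) (h23 : P₂ * P₃ = (1 / 2 : ℂ) • P₁)
    (h32 : P₃ * P₂ = (-(1 / 2) : ℂ) • P₁) (h31 : P₃ * P₁ = (1 / 2 : ℂ) • P₂)
    (h13 : P₁ * P₃ = (-(1 / 2) : ℂ) • P₂) : QRel e (Pl P₁ P₂ P₃) where
  idem := he
  eP u := by rw [Pl_apply]; simp only [mul_add, Matrix.mul_smul, e1, e2, e3]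
  Pe u := by rw [Pl_apply]; simp only [add_mul, Matrix.smul_mul, f1, f2, f3]
  mul u v := by
    rw [Pl_apply, Pl_apply, Pl_apply]
    simp only [add_mul, mul_add, Matrix.smul_mul, Matrix.mul_smul, h11, h22, h33, h12, h21, h23, h32,
      h31, h13, smul_smul, smul_add]
    have c0 : crossProduct u v 0 = u 1 * v 2 - u 2 * v 1 := by rw [cross_apply]; rfl
    have c1 : crossProduct u v 1 = u 2 * v 0 - u 0 * v 2 := by rw [cross_apply]; rfl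
    have c2 : crossProduct u v 2 = u 0 * v 1 - u 1 * v 0 := by rw [cross_apply]; rfl
    rw [c0, c1, c2]
    simp only [dotProduct, Fin.sum_univ_three]
    module

section car

variable {a₁ a₂ b₁ b₂ : Matrix κ κ ℂ} (h : CAR a₁ a₂ b₁ b₂)

include h

/-- the rules, in associated form -/
theorem rules : (∀ z, a₁ * (a₁ * z) = 0) ∧ (∀ z, a₂ * (a₂ * z) = 0) ∧ (∀ z, b₁ * (b₁ * z) = 0) ∧
    (∀ z, b₂ * (b₂ * z) = 0) ∧ (∀ z, a₂ * (a₁ * z) = -(a₁ * (a₂ * z))) ∧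
    (∀ z, b₂ * (b₁ * z) = -(b₁ * (b₂ * z))) ∧ (∀ z, b₁ * (a₁ * z) = z - a₁ * (b₁ * z)) ∧
    (∀ z, b₂ * (a₂ * z) = z - a₂ * (b₂ * z)) ∧ (∀ z, b₁ * (a₂ * z) = -(a₂ * (b₁ * z))) ∧
    (∀ z, b₂ * (a₁ * z) = -(a₁ * (b₂ * z))) := by
  refine ⟨fun z => ?_, fun z => ?_, fun z => ?_, fun z => ?_, fun z => ?_, fun z => ?_, fun z => ?_,
    fun z => ?_, fun z => ?_, fun z => ?_⟩
  · rw [← mul_assoc, h.a11, zero_mul]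
  · rw [← mul_assoc, h.a22, zero_mul]
  · rw [← mul_assoc, h.b11, zero_mul]
  · rw [← mul_assoc, h.b22, zero_mul]
  · rw [← mul_assoc, h.a12, neg_mul, mul_assoc]
  · rw [← mul_assoc, h.b12, neg_mul, mul_assoc]
  · rw [← mul_assoc, h.ab11, sub_mul, one_mul, mul_assoc]
  · rw [← mul_assoc, h.ab22, sub_mul, one_mul, mul_assoc]
  · rw [← mul_assoc, h.ab12, neg_mul, mul_assoc]
  · rw [← mul_assoc, h.ab21, neg_mul, mul_assoc]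

theorem qrel {j : ℂ} (hj : j * j = -1) : QRel (ee a₁ a₂ b₁ b₂) (PP j a₁ a₂ b₁ b₂) := by
  obtain ⟨r1, r2, r3, r4, r5, r6, r7, r8, r9, r10⟩ := rules h
  have hj2 : j ^ 2 = -1 := by rw [sq, hj]
  refine qrel_Pl ?_ ?_ ?_ ?_ ?_ ?_ ?_ ?_ ?_ ?_ ?_ ?_ ?_ ?_ ?_ ?_ <;>
  · try unfold ee
    simp only [mul_assoc, mul_add, add_mul, mul_sub, sub_mul, mul_neg, neg_mul, mul_zero, zero_mul,
      mul_one, one_mul, neg_neg, Matrix.mul_smul, Matrix.smul_mul, smul_smul, smul_add, smul_sub, smul_neg,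
      smul_zero, neg_zero, sub_zero, zero_sub, add_zero, zero_add, r1, r2, r3, r4, r5, r6, r7, r8, r9, r10,
      h.a11, h.a22, h.b11, h.b22, h.a12, h.b12, h.ab11, h.ab22, h.ab12, h.ab21]
    try (match_scalars <;> ring_nf <;> simp [hj2] <;> ring_nf)

/-- The Lie algebra acts through the Clifford elements. -/
theorem lift {j : ℂ} (hj : j * j = -1) (α₁₁ α₁₂ α₂₁ α₂₂ : ℂ) {u : Fin 3 → ℂ}
    (hu0 : u 0 = j * (α₁₂ + α₂₁)) (hu1 : u 1 = α₂₁ - α₁₂) (hu2 : u 2 = j * (α₁₁ - α₂₂)) :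
    (α₁₁ • (a₁ * b₁ - (1 / 2 : ℂ) • 1) + α₁₂ • (a₁ * b₂) + α₂₁ • (a₂ * b₁) +
        α₂₂ • (a₂ * b₂ - (1 / 2 : ℂ) • 1)) * ee a₁ a₂ b₁ b₂ = PP j a₁ a₂ b₁ b₂ u ∧
    ee a₁ a₂ b₁ b₂ * (α₁₁ • (a₁ * b₁ - (1 / 2 : ℂ) • 1) + α₁₂ • (a₁ * b₂) + α₂₁ • (a₂ * b₁) +
        α₂₂ • (a₂ * b₂ - (1 / 2 : ℂ) • 1)) = PP j a₁ a₂ b₁ b₂ u := by
  obtain ⟨r1, r2, r3, r4, r5, r6, r7, r8, r9, r10⟩ := rules h
  have hj2 : j ^ 2 = -1 := by rw [sq, hj]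
  constructor <;>
  · unfold ee PP
    rw [Pl_apply, hu0, hu1, hu2]
    simp only [mul_assoc, mul_add, add_mul, mul_sub, sub_mul, mul_neg, neg_mul, mul_zero, zero_mul,
      mul_one, one_mul, neg_neg, Matrix.mul_smul, Matrix.smul_mul, smul_smul, smul_add, smul_sub, smul_neg,
      smul_zero, neg_zero, sub_zero, zero_sub, add_zero, zero_add, r1, r2, r3, r4, r5, r6, r7, r8, r9, r10,
      h.a11, h.a22, h.b11, h.b22, h.a12, h.b12, h.ab11, h.ab22, h.ab12, h.ab21]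
    match_scalars <;> ring_nf <;> simp [hj2] <;> ring_nf

/-- Nonvanishing. -/
theorem ne {M : Matrix κ κ ℂ} (m1 : a₁ * M = M * a₁)
    (m4 : b₂ * M = M * b₂) (h0 : ee a₁ a₂ b₁ b₂ * M = 0) : M = 0 := by
  obtain ⟨r1, r2, r3, r4, r5, r6, r7, r8, r9, r10⟩ := rules h
  -- `b₁ b₂ a₂ e M = b₁ b₂ a₂ M`
  have e1 : b₁ * (b₂ * a₂) * ee a₁ a₂ b₁ b₂ = b₁ * (b₂ * a₂) := by
    unfold ee
    simp only [mul_assoc, mul_add, add_mul, mul_sub, sub_mul, mul_neg, neg_mul, mul_zero, zero_mul,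
      mul_one, one_mul, neg_neg, Matrix.mul_smul, Matrix.smul_mul, smul_smul, smul_add, smul_sub, smul_neg,
      smul_zero, neg_zero, sub_zero, zero_sub, add_zero, zero_add, r1, r2, r3, r4, r5, r6, r7, r8, r9, r10,
      h.a11, h.a22, h.b11, h.b22, h.a12, h.b12, h.ab11, h.ab22, h.ab12, h.ab21]
    match_scalars <;> ring
  have e2 : b₁ * (b₂ * a₂) * M = 0 := by
    rw [← e1, mul_assoc _ (ee a₁ a₂ b₁ b₂) M, h0, mul_zero]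
  -- `a₁ (b₁ X) + (b₁ X) a₁ = X` for `X = b₂ a₂ M`
  have e3 : b₂ * a₂ * M = a₁ * (b₁ * (b₂ * a₂) * M) + (b₁ * (b₂ * a₂) * M) * a₁ := by
    have e4 : (b₁ * (b₂ * a₂) * M) * a₁ = b₁ * (b₂ * a₂) * a₁ * M := by
      rw [mul_assoc _ M a₁, ← m1, ← mul_assoc]
    rw [e4]
    have e5 : a₁ * (b₁ * (b₂ * a₂) * M) + b₁ * (b₂ * a₂) * a₁ * M =
        (a₁ * (b₁ * (b₂ * a₂)) + b₁ * (b₂ * a₂) * a₁) * M := by noncomm_ring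
    rw [e5]
    congr 1
    simp only [mul_assoc, mul_add, add_mul, mul_sub, sub_mul, mul_neg, neg_mul, mul_zero, zero_mul,
      mul_one, one_mul, neg_neg, Matrix.mul_smul, Matrix.smul_mul, smul_smul, smul_add, smul_sub, smul_neg,
      smul_zero, neg_zero, sub_zero, zero_sub, add_zero, zero_add, r1, r2, r3, r4, r5, r6, r7, r8, r9, r10,
      h.a11, h.a22, h.b11, h.b22, h.a12, h.b12, h.ab11, h.ab22, h.ab12, h.ab21]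
    match_scalars <;> ring
  rw [e2, mul_zero, zero_mul, add_zero] at e3
  -- `a₂ M = a₂ b₂ a₂ M = 0`
  have e6 : a₂ * M = 0 := by
    have : a₂ * (b₂ * a₂ * M) = a₂ * M := by
      have e7 : a₂ * (b₂ * a₂) = a₂ := by rw [h.ab22, mul_sub, mul_one, r2, sub_zero]
      rw [← mul_assoc, e7]
    rw [← this, e3, mul_zero]
  have e8 : M = b₂ * (a₂ * M) + (a₂ * M) * b₂ := by
    rw [mul_assoc a₂ M b₂, ← m4, ← mul_assoc, ← mul_assoc, ← add_mul, h.ab22, sub_add_cancel, one_mul]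
  rw [e8, e6, mul_zero, zero_mul, add_zero]

end car

theorem comm2 {p q c : Matrix κ κ ℂ} (pc : c * p = -(p * c)) (qc : c * q = -(q * c)) :
    (p * q) * c = c * (p * q) := by
  rw [← mul_assoc, pc, neg_mul, mul_assoc p c q, qc, mul_neg, neg_neg, mul_assoc]

theorem comm22 {p q c d : Matrix κ κ ℂ} (pc : c * p = -(p * c)) (qc : c * q = -(q * c))
    (pd : d * p = -(p * d)) (qd : d * q = -(q * d)) : (p * q) * (c * d) = (c * d) * (p * q) := by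
  rw [← mul_assoc, comm2 pc qc, mul_assoc, comm2 pd qd, mul_assoc]

/-- The idempotent commutes with `c` if `c` anticommutes with the fermions. -/
theorem ee_comm {a₁ a₂ b₁ b₂ c : Matrix κ κ ℂ} (h1 : c * a₁ = -(a₁ * c)) (h2 : c * a₂ = -(a₂ * c))
    (h3 : c * b₁ = -(b₁ * c)) (h4 : c * b₂ = -(b₂ * c)) : ee a₁ a₂ b₁ b₂ * c = c * ee a₁ a₂ b₁ b₂ := by
  have e1 : a₁ * b₁ * c = c * (a₁ * b₁) := comm2 h1 h3
  have e2 : a₂ * b₂ * c = c * (a₂ * b₂) := comm2 h2 h4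
  unfold ee
  rw [sub_mul, add_mul, mul_sub, mul_add, e1, e2, Matrix.smul_mul, Matrix.mul_smul, mul_assoc (a₁ * b₁),
    e2, ← mul_assoc (a₁ * b₁), e1, mul_assoc c]

/-- Anticommuting families. -/
structure Anti (a₁ a₂ b₁ b₂ c₁ c₂ d₁ d₂ : Matrix κ κ ℂ) : Prop where
  ac11 : c₁ * a₁ = -(a₁ * c₁)
  ac12 : c₂ * a₁ = -(a₁ * c₂)
  ac21 : c₁ * a₂ = -(a₂ * c₁)
  ac22 : c₂ * a₂ = -(a₂ * c₂)
  ad11 : d₁ * a₁ = -(a₁ * d₁)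
  ad12 : d₂ * a₁ = -(a₁ * d₂)
  ad21 : d₁ * a₂ = -(a₂ * d₁)
  ad22 : d₂ * a₂ = -(a₂ * d₂)
  bc11 : c₁ * b₁ = -(b₁ * c₁)
  bc12 : c₂ * b₁ = -(b₁ * c₂)
  bc21 : c₁ * b₂ = -(b₂ * c₁)
  bc22 : c₂ * b₂ = -(b₂ * c₂)
  bd11 : d₁ * b₁ = -(b₁ * d₁)
  bd12 : d₂ * b₁ = -(b₁ * d₂)
  bd21 : d₁ * b₂ = -(b₂ * d₁)
  bd22 : d₂ * b₂ = -(b₂ * d₂)

theorem quad_ee {p q c₁ c₂ d₁ d₂ : Matrix κ κ ℂ}
    (h1 : c₁ * p = -(p * c₁)) (h2 : c₂ * p = -(p * c₂)) (h3 : d₁ * p = -(p * d₁)) (h4 : d₂ * p = -(p * d₂))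
    (k1 : c₁ * q = -(q * c₁)) (k2 : c₂ * q = -(q * c₂)) (k3 : d₁ * q = -(q * d₁)) (k4 : d₂ * q = -(q * d₂)) :
    (p * q) * ee c₁ c₂ d₁ d₂ = ee c₁ c₂ d₁ d₂ * (p * q) := by
  have e1 : p * q * (c₁ * d₁) = (c₁ * d₁) * (p * q) := comm22 h1 k1 h3 k3
  have e2 : p * q * (c₂ * d₂) = (c₂ * d₂) * (p * q) := comm22 h2 k2 h4 k4
  unfold ee
  rw [mul_sub, mul_add, sub_mul, add_mul, e1, e2, Matrix.mul_smul, Matrix.smul_mul,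
    ← mul_assoc (p * q) (c₁ * d₁), e1, mul_assoc (c₁ * d₁) (p * q), e2, mul_assoc (c₁ * d₁) (c₂ * d₂)]

theorem quad_PP {j : ℂ} {p q c₁ c₂ d₁ d₂ : Matrix κ κ ℂ}
    (h1 : c₁ * p = -(p * c₁)) (h2 : c₂ * p = -(p * c₂)) (h3 : d₁ * p = -(p * d₁)) (h4 : d₂ * p = -(p * d₂))
    (k1 : c₁ * q = -(q * c₁)) (k2 : c₂ * q = -(q * c₂)) (k3 : d₁ * q = -(q * d₁)) (k4 : d₂ * q = -(q * d₂))
    (u : Fin 3 → ℂ) :
    (p * q) * PP j c₁ c₂ d₁ d₂ u = PP j c₁ c₂ d₁ d₂ u * (p * q) := by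
  have e11 : p * q * (c₁ * d₁) = (c₁ * d₁) * (p * q) := comm22 h1 k1 h3 k3
  have e22 : p * q * (c₂ * d₂) = (c₂ * d₂) * (p * q) := comm22 h2 k2 h4 k4
  have e12 : p * q * (c₁ * d₂) = (c₁ * d₂) * (p * q) := comm22 h1 k1 h4 k4
  have e21 : p * q * (c₂ * d₁) = (c₂ * d₁) * (p * q) := comm22 h2 k2 h3 k3
  unfold PP
  rw [Pl_apply]
  simp only [mul_add, mul_sub, add_mul, sub_mul, Matrix.mul_smul, Matrix.smul_mul, e11, e22, e12, e21]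

theorem qcomm {j j' : ℂ} {a₁ a₂ b₁ b₂ c₁ c₂ d₁ d₂ : Matrix κ κ ℂ} (h : Anti a₁ a₂ b₁ b₂ c₁ c₂ d₁ d₂) :
    QComm (ee a₁ a₂ b₁ b₂) (PP j a₁ a₂ b₁ b₂) (ee c₁ c₂ d₁ d₂) (PP j' c₁ c₂ d₁ d₂) := by
  -- the quadratic elements commute
  have q11 := quad_ee h.ac11 h.ac12 h.ad11 h.ad12 h.bc11 h.bc12 h.bd11 h.bd12
  have q12 := quad_ee h.ac11 h.ac12 h.ad11 h.ad12 h.bc21 h.bc22 h.bd21 h.bd22
  have q21 := quad_ee h.ac21 h.ac22 h.ad21 h.ad22 h.bc11 h.bc12 h.bd11 h.bd12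
  have q22 := quad_ee h.ac21 h.ac22 h.ad21 h.ad22 h.bc21 h.bc22 h.bd21 h.bd22
  have p11 := quad_PP (j := j') h.ac11 h.ac12 h.ad11 h.ad12 h.bc11 h.bc12 h.bd11 h.bd12
  have p12 := quad_PP (j := j') h.ac11 h.ac12 h.ad11 h.ad12 h.bc21 h.bc22 h.bd21 h.bd22
  have p21 := quad_PP (j := j') h.ac21 h.ac22 h.ad21 h.ad22 h.bc11 h.bc12 h.bd11 h.bd12
  have p22 := quad_PP (j := j') h.ac21 h.ac22 h.ad21 h.ad22 h.bc21 h.bc22 h.bd21 h.bd22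
  have ecomm : ∀ X : Matrix κ κ ℂ, (a₁ * b₁) * X = X * (a₁ * b₁) → (a₂ * b₂) * X = X * (a₂ * b₂) →
      ee a₁ a₂ b₁ b₂ * X = X * ee a₁ a₂ b₁ b₂ := by
    intro X h1 h2
    unfold ee
    rw [mul_sub, mul_add, sub_mul, add_mul, h1, h2, Matrix.mul_smul, Matrix.smul_mul,
      mul_assoc (a₁ * b₁), h2, ← mul_assoc (a₁ * b₁) X, h1, mul_assoc X]
  have pcomm : ∀ X : Matrix κ κ ℂ, (a₁ * b₁) * X = X * (a₁ * b₁) → (a₂ * b₂) * X = X * (a₂ * b₂) →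
      (a₁ * b₂) * X = X * (a₁ * b₂) → (a₂ * b₁) * X = X * (a₂ * b₁) → ∀ u,
      PP j a₁ a₂ b₁ b₂ u * X = X * PP j a₁ a₂ b₁ b₂ u := by
    intro X h1 h2 h3 h4 u
    unfold PP
    rw [Pl_apply]
    simp only [mul_add, mul_sub, add_mul, sub_mul, Matrix.mul_smul, Matrix.smul_mul, h1, h2, h3, h4]
  exact ⟨ecomm _ q11 q22, fun u => ecomm _ (p11 u) (p22 u), fun u => pcomm _ q11 q22 q12 q21 u,
    fun u v => pcomm _ (p11 v) (p22 v) (p12 v) (p21 v) u⟩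

/-- The bracket is the cross product. -/
theorem cross_brk {j : ℂ} (hj : j * j = -1) (α₁₁ α₁₂ α₂₁ α₂₂ β₁₁ β₁₂ β₂₁ β₂₂ : ℂ) {u v w : Fin 3 → ℂ}
    (hu0 : u 0 = j * (α₁₂ + α₂₁)) (hu1 : u 1 = α₂₁ - α₁₂) (hu2 : u 2 = j * (α₁₁ - α₂₂))
    (hv0 : v 0 = j * (β₁₂ + β₂₁)) (hv1 : v 1 = β₂₁ - β₁₂) (hv2 : v 2 = j * (β₁₁ - β₂₂))
    (hw0 : w 0 = j * ((α₁₁ * β₁₂ + α₁₂ * β₂₂ - (β₁₁ * α₁₂ + β₁₂ * α₂₂)) +
      (α₂₁ * β₁₁ + α₂₂ * β₂₁ - (β₂₁ * α₁₁ + β₂₂ * α₂₁))))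
    (hw1 : w 1 = (α₂₁ * β₁₁ + α₂₂ * β₂₁ - (β₂₁ * α₁₁ + β₂₂ * α₂₁)) -
      (α₁₁ * β₁₂ + α₁₂ * β₂₂ - (β₁₁ * α₁₂ + β₁₂ * α₂₂)))
    (hw2 : w 2 = j * ((α₁₁ * β₁₁ + α₁₂ * β₂₁ - (β₁₁ * α₁₁ + β₁₂ * α₂₁)) -
      (α₂₁ * β₁₂ + α₂₂ * β₂₂ - (β₂₁ * α₁₂ + β₂₂ * α₂₂)))) :
    w = crossProduct u v := by
  have c0 : crossProduct u v 0 = u 1 * v 2 - u 2 * v 1 := by rw [cross_apply]; rfl
  have c1 : crossProduct u v 1 = u 2 * v 0 - u 0 * v 2 := by rw [cross_apply]; rfl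
  have c2 : crossProduct u v 2 = u 0 * v 1 - u 1 * v 0 := by rw [cross_apply]; rfl
  funext i
  fin_cases i
  · show w 0 = crossProduct u v 0
    rw [c0, hu1, hu2, hv1, hv2, hw0]; ring
  · show w 1 = crossProduct u v 1
    rw [c1, hu0, hu2, hv0, hv2, hw1]
    linear_combination (-((α₁₁ - α₂₂) * (β₁₂ + β₂₁) - (α₁₂ + α₂₁) * (β₁₁ - β₂₂))) * hj
  · show w 2 = crossProduct u v 2
    rw [c2, hu0, hu1, hv0, hv1, hw2]; ring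

end H1A

end

end Pool.Agent.K3M
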