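import Pool.Agent.K3M.H1Ca
import Pool.Agent.K3M.XC
import Pool.Agent.K3M.SF
import Pool.Agent.K3C.Trit
import Pool.Agent.K3C.C8b1

/-!
# H1C: components and spin structures of the factors with complex multiplication, `m = 2`
-/

set_option autoImplicit false
set_option linter.unusedSectionVars false
set_option linter.unusedSimpArgs false

open scoped BigOperators
open Matrix Polynomial

namespace Pool.Agent.K3M

open Pool.Agent.DRB Pool.Agent.K3D Pool.Agent.K3E Pool.Agent.K3C Pool.Agent.K3P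
open K3C.C8T (roots mem_roots)
open K3C.TritX (PT actP)

noncomputable section

namespace H1C

section gen

variable {g n m : ℕ} {A : AbVar g} (K : KSC A n m)

/-- The projection to a set of eigenspaces. -/
def pz (S : Finset ℂ) : Matrix (Fin n) (Fin n) ℂ :=
  aeval K.thC (Lagrange.interpolate (roots K) id fun w => if w ∈ S then (1 : ℂ) else 0)

theorem pz_mulVec (S : Finset ℂ) {w : ℂ} (hw : aeval w K.P = 0) {v : Fin n → ℂ} (hv : v ∈ K.Tl w) :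
    pz K S *ᵥ v = if w ∈ S then v else 0 := by
  unfold pz
  rw [C5L.aeval_mulVecC K _ hv]
  have h1 := Lagrange.eval_interpolate_at_node (s := roots K) (v := id)
    (fun w => if w ∈ S then (1 : ℂ) else 0) (Function.injective_id.injOn) (mem_roots.2 hw)
  have h2 : eval w (Lagrange.interpolate (roots K) id fun w => if w ∈ S then (1 : ℂ) else 0) =
      if w ∈ S then (1 : ℂ) else 0 := h1
  rw [h2]
  split_ifs
  · rw [one_smul]
  · rw [zero_smul]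

theorem pz_in (S : Finset ℂ) {w : ℂ} (hw : aeval w K.P = 0) {v : Fin n → ℂ} (hv : v ∈ K.Tl w)
    (h : w ∈ S) : pz K S *ᵥ v = v := by rw [pz_mulVec K S hw hv, if_pos h]

theorem pz_out (S : Finset ℂ) {w : ℂ} (hw : aeval w K.P = 0) {v : Fin n → ℂ} (hv : v ∈ K.Tl w)
    (h : w ∉ S) : pz K S *ᵥ v = 0 := by rw [pz_mulVec K S hw hv, if_neg h]

/-- The component. -/
def prz (z : PT K) : Matrix (Fin n) (Fin n) ℂ →ₗ[ℂ] Matrix (Fin n) (Fin n) ℂ :=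
  LinearMap.mulLeft ℂ (pz K z.1)

theorem prz_apply (z : PT K) (a : Matrix (Fin n) (Fin n) ℂ) : prz K z a = pz K z.1 * a := rfl

theorem mem_root (z : PT K) {w : ℂ} (hw : w ∈ z.1) : aeval w K.P = 0 := by
  obtain ⟨S, w0, hw0, rfl⟩ := z
  rcases Finset.mem_insert.1 hw with h | h
  · rw [h]; exact hw0
  · rw [Finset.mem_singleton.1 h]; exact C5L.conj_root K hw0

theorem mem_conj (z : PT K) {w : ℂ} (hw : w ∈ z.1) : (starRingEnd ℂ) w ∈ z.1 := by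
  obtain ⟨S, w0, hw0, rfl⟩ := z
  rcases Finset.mem_insert.1 hw with h | h
  · rw [h]; exact Finset.mem_insert_of_mem (Finset.mem_singleton_self _)
  · rw [Finset.mem_singleton.1 h, Complex.conj_conj]; exact Finset.mem_insert_self _ _

theorem mem_conj_iff (z : PT K) {w : ℂ} : (starRingEnd ℂ) w ∈ z.1 ↔ w ∈ z.1 := by
  refine ⟨fun h => ?_, mem_conj K z⟩
  have := mem_conj K z h
  rwa [Complex.conj_conj] at this

theorem mem_pair (z : PT K) {w : ℂ} (hw : w ∈ z.1) {v : ℂ} (hv : v ∈ z.1) :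
    v = w ∨ v = (starRingEnd ℂ) w := by
  obtain ⟨S, w0, hw0, rfl⟩ := z
  rcases Finset.mem_insert.1 hw with h | h <;> rcases Finset.mem_insert.1 hv with h' | h'
  · left; rw [h, h']
  · right; rw [h, Finset.mem_singleton.1 h']
  · right; rw [Finset.mem_singleton.1 h, h', Complex.conj_conj]
  · left; rw [Finset.mem_singleton.1 h, Finset.mem_singleton.1 h']

theorem eq_of_mem (z z' : PT K) {w : ℂ} (h : w ∈ z.1) (h' : w ∈ z'.1) : z = z' := by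
  apply Subtype.ext
  ext v
  constructor
  · intro hv
    rcases mem_pair K z h hv with e | e
    · rw [e]; exact h'
    · rw [e]; exact mem_conj K z' h'
  · intro hv
    rcases mem_pair K z' h' hv with e | e
    · rw [e]; exact h
    · rw [e]; exact mem_conj K z h

theorem exists_mem (z : PT K) : ∃ w, w ∈ z.1 := by
  obtain ⟨S, w0, hw0, rfl⟩ := z
  exact ⟨w0, Finset.mem_insert_self _ _⟩

theorem pr_mem (z : PT K) {a : Matrix (Fin n) (Fin n) ℂ} (ha : a ∈ K.S) : prz K z a ∈ K.S := by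
  refine (C5L.mem_S K).2 ⟨?_, ?_⟩
  · intro v w
    rw [prz_apply]
    refine C5L.indT K (p := fun v => K.bil ((pz K z.1 * a) *ᵥ v) w + K.bil v ((pz K z.1 * a) *ᵥ w) = 0)
      ?_ ?_ ?_ v
    · intro r hr v hv
      refine C5L.indT K (p := fun w => K.bil ((pz K z.1 * a) *ᵥ v) w +
        K.bil v ((pz K z.1 * a) *ᵥ w) = 0) ?_ ?_ ?_ w
      · intro s hs w hw
        have hav := C5L.S_pres K ha hv
        have haw := C5L.S_pres K ha hw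
        rw [← Matrix.mulVec_mulVec, ← Matrix.mulVec_mulVec, pz_mulVec K z.1 hr hav,
          pz_mulVec K z.1 hs haw]
        by_cases h : s = (starRingEnd ℂ) r
        · subst h
          by_cases h1 : r ∈ z.1
          · rw [if_pos h1, if_pos (mem_conj K z h1), C5L.bil_S K ha v w, neg_add_cancel]
          · rw [if_neg h1, if_neg (fun h2 => h1 ((mem_conj_iff K z).1 h2)), C5L.bil_zero_left,
              C5L.bil_zero_right, add_zero]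
        · have e1 := C5L.orth K h hav hw
          have e2 := C5L.orth K h hv haw
          split_ifs <;> simp [e1, e2, C5L.bil_zero_left, C5L.bil_zero_right]
      · rw [Matrix.mulVec_zero, C5L.bil_zero_right, C5L.bil_zero_right, add_zero]
      · intro w w' h1 h2
        rw [C5L.bil_add_right, Matrix.mulVec_add, C5L.bil_add_right, add_add_add_comm, h1, h2, add_zero]
    · rw [Matrix.mulVec_zero, C5L.bil_zero_left, C5L.bil_zero_left, add_zero]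
    · intro v v' h1 h2
      rw [Matrix.mulVec_add, C5L.bil_add_left, C5L.bil_add_left, add_add_add_comm, h1, h2, add_zero]
  · have h1 : K.thC * pz K z.1 = pz K z.1 * K.thC := (C5L.comm_aeval K rfl _).symm
    rw [prz_apply, mul_assoc, ha.2, ← mul_assoc, ← mul_assoc, h1]

theorem pz_comm (S : Finset ℂ) {a : Matrix (Fin n) (Fin n) ℂ} (ha : a ∈ K.S) :
    pz K S * a = a * pz K S := C5L.comm_aeval K ha.2 _

theorem pz_idem (S : Finset ℂ) : pz K S * pz K S = pz K S := by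
  refine C5L.mat_extT K fun w hw v hv => ?_
  rw [← Matrix.mulVec_mulVec, pz_mulVec K S hw hv]
  split_ifs with h
  · exact pz_in K S hw hv h
  · rw [Matrix.mulVec_zero]

theorem pz_ne {z z' : PT K} (hne : z ≠ z') : pz K z.1 * pz K z'.1 = 0 := by
  refine C5L.mat_extT K fun w hw v hv => ?_
  rw [← Matrix.mulVec_mulVec, pz_mulVec K z'.1 hw hv, Matrix.zero_mulVec]
  split_ifs with h
  · exact pz_out K z.1 hw hv fun h' => hne (eq_of_mem K z z' h' h)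
  · rw [Matrix.mulVec_zero]

instance : Fintype (PT K) := Fintype.ofFinite _

theorem pz_sum : ∑ z : PT K, pz K z.1 = 1 := by
  refine C5L.mat_extT K fun w hw v hv => ?_
  rw [Matrix.sum_mulVec, Matrix.one_mulVec]
  rw [Finset.sum_eq_single (⟨{w, (starRingEnd ℂ) w}, w, hw, rfl⟩ : PT K)]
  · exact pz_in K _ hw hv (Finset.mem_insert_self _ _)
  · intro z _ hz
    refine pz_out K _ hw hv fun h => hz ?_
    exact eq_of_mem K z ⟨{w, (starRingEnd ℂ) w}, w, hw, rfl⟩ h (Finset.mem_insert_self _ _)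
  · intro h
    exact absurd (Finset.mem_univ _) h

end gen

section two

variable {g n m : ℕ} {A : AbVar g} (K : KSC A n m)

/-- Dual vectors. -/
structure Dual (w : ℂ) (x₁ x₂ y₁ y₂ : Fin n → ℂ) : Prop where
  x1 : x₁ ∈ K.Tl w
  x2 : x₂ ∈ K.Tl w
  y1 : y₁ ∈ K.Tl ((starRingEnd ℂ) w)
  y2 : y₂ ∈ K.Tl ((starRingEnd ℂ) w)
  b11 : K.bil x₁ y₁ = 1
  b22 : K.bil x₂ y₂ = 1
  b12 : K.bil x₁ y₂ = 0
  b21 : K.bil x₂ y₁ = 0

variable {K}

theorem Dual.swap {w : ℂ} {x₁ x₂ y₁ y₂ : Fin n → ℂ} (D : Dual K w x₁ x₂ y₁ y₂) :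
    Dual K ((starRingEnd ℂ) w) y₁ y₂ x₁ x₂ where
  x1 := D.y1
  x2 := D.y2
  y1 := by rw [Complex.conj_conj]; exact D.x1
  y2 := by rw [Complex.conj_conj]; exact D.x2
  b11 := by rw [C5L.bil_comm]; exact D.b11
  b22 := by rw [C5L.bil_comm]; exact D.b22
  b12 := by rw [C5L.bil_comm]; exact D.b21
  b21 := by rw [C5L.bil_comm]; exact D.b12

theorem Dual.map {w : ℂ} {x₁ x₂ y₁ y₂ : Fin n → ℂ} (D : Dual K w x₁ x₂ y₁ y₂)
    (hw : aeval w K.P = 0) (σ : ℂ ≃ₐ[ℚ] ℂ) :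
    Dual K (σ w) (fun i => σ (x₁ i)) (fun i => σ (x₂ i)) (fun i => σ (y₁ i)) (fun i => σ (y₂ i)) where
  x1 := C5L.map_Tl K σ D.x1
  x2 := C5L.map_Tl K σ D.x2
  y1 := by rw [← C8T.conj_aut K σ hw]; exact C5L.map_Tl K σ D.y1
  y2 := by rw [← C8T.conj_aut K σ hw]; exact C5L.map_Tl K σ D.y2
  b11 := by rw [C5X.bil_map, D.b11, map_one]
  b22 := by rw [C5X.bil_map, D.b22, map_one]
  b12 := by rw [C5X.bil_map, D.b12, map_zero]
  b21 := by rw [C5X.bil_map, D.b21, map_zero]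

/-- Orthogonality in one eigenspace. -/
theorem orthw {w : ℂ} (hw : aeval w K.P = 0) {v v' : Fin n → ℂ} (hv : v ∈ K.Tl w) (hv' : v' ∈ K.Tl w) :
    K.bil v v' = 0 := C5L.orth K (Ne.symm (C5L.conj_ne K hw)) hv hv'

/-- The fermions. -/
theorem car {w : ℂ} (hw : aeval w K.P = 0) {x₁ x₂ y₁ y₂ : Fin n → ℂ} (D : Dual K w x₁ x₂ y₁ y₂) :
    H1A.CAR (K.cl x₁) (K.cl x₂) (K.cl ((1 / 2 : ℂ) • y₁)) (K.cl ((1 / 2 : ℂ) • y₂)) := by
  have hr := C5X.rel K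
  have hwc := C5L.conj_root K hw
  have hs : ∀ {v v' : Fin n → ℂ}, K.bil v v' = 0 → K.cl v' * K.cl v = -(K.cl v * K.cl v') :=
    fun {v v'} h => C5X.anti hr v' v (by rw [C5L.bil_comm]; exact h)
  have h0 : ∀ v : Fin n → ℂ, K.bil v v = 0 → K.cl v * K.cl v = 0 := fun v h => by
    rw [C5X.sq hr, h, zero_smul]
  have y1 : (1 / 2 : ℂ) • y₁ ∈ K.Tl ((starRingEnd ℂ) w) := Submodule.smul_mem _ _ D.y1
  have y2 : (1 / 2 : ℂ) • y₂ ∈ K.Tl ((starRingEnd ℂ) w) := Submodule.smul_mem _ _ D.y2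
  refine ⟨h0 _ (orthw hw D.x1 D.x1), h0 _ (orthw hw D.x2 D.x2), h0 _ (orthw hwc y1 y1),
    h0 _ (orthw hwc y2 y2), hs (orthw hw D.x1 D.x2), hs (orthw hwc y1 y2), ?_, ?_, hs ?_, hs ?_⟩
  · rw [eq_sub_iff_add_eq, hr, C5L.bil_comm, C5L.bil_smul_right, D.b11]
    norm_num
  · rw [eq_sub_iff_add_eq, hr, C5L.bil_comm, C5L.bil_smul_right, D.b22]
    norm_num
  · rw [C5L.bil_smul_right, D.b21, mul_zero]
  · rw [C5L.bil_smul_right, D.b12, mul_zero]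

/-- The fermions at different places anticommute. -/
theorem anti2 {w w' : ℂ} (h1 : w' ≠ w) (h2 : w' ≠ (starRingEnd ℂ) w)
    {x₁ x₂ y₁ y₂ : Fin n → ℂ} (D : Dual K w x₁ x₂ y₁ y₂)
    {x₁' x₂' y₁' y₂' : Fin n → ℂ} (D' : Dual K w' x₁' x₂' y₁' y₂') :
    H1A.Anti (K.cl x₁) (K.cl x₂) (K.cl ((1 / 2 : ℂ) • y₁)) (K.cl ((1 / 2 : ℂ) • y₂))
      (K.cl x₁') (K.cl x₂') (K.cl ((1 / 2 : ℂ) • y₁')) (K.cl ((1 / 2 : ℂ) • y₂')) := by
  have hr := C5X.rel K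
  have hs : ∀ {v v' : Fin n → ℂ}, K.bil v v' = 0 → K.cl v' * K.cl v = -(K.cl v * K.cl v') :=
    fun {v v'} h => C5X.anti hr v' v (by rw [C5L.bil_comm]; exact h)
  have y1 : (1 / 2 : ℂ) • y₁ ∈ K.Tl ((starRingEnd ℂ) w) := Submodule.smul_mem _ _ D.y1
  have y2 : (1 / 2 : ℂ) • y₂ ∈ K.Tl ((starRingEnd ℂ) w) := Submodule.smul_mem _ _ D.y2
  have y1' : (1 / 2 : ℂ) • y₁' ∈ K.Tl ((starRingEnd ℂ) w') := Submodule.smul_mem _ _ D'.y1
  have y2' : (1 / 2 : ℂ) • y₂' ∈ K.Tl ((starRingEnd ℂ) w') := Submodule.smul_mem _ _ D'.y2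
  have e3 : (starRingEnd ℂ) w' ≠ (starRingEnd ℂ) w := fun h => h1 ((starRingEnd ℂ).injective h)
  have e4 : (starRingEnd ℂ) w' ≠ w := fun h => h2 (by rw [← h, Complex.conj_conj])
  have o1 : ∀ {v v' : Fin n → ℂ}, v ∈ K.Tl w → v' ∈ K.Tl w' → K.bil v v' = 0 :=
    fun hv hv' => C5L.orth K h2 hv hv'
  have o2 : ∀ {v v' : Fin n → ℂ}, v ∈ K.Tl w → v' ∈ K.Tl ((starRingEnd ℂ) w') → K.bil v v' = 0 :=
    fun hv hv' => C5L.orth K e3 hv hv'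
  have o3 : ∀ {v v' : Fin n → ℂ}, v ∈ K.Tl ((starRingEnd ℂ) w) → v' ∈ K.Tl w' → K.bil v v' = 0 :=
    fun hv hv' => C5L.orth K (by rw [Complex.conj_conj]; exact h1) hv hv'
  have o4 : ∀ {v v' : Fin n → ℂ}, v ∈ K.Tl ((starRingEnd ℂ) w) → v' ∈ K.Tl ((starRingEnd ℂ) w') →
      K.bil v v' = 0 := fun hv hv' => C5L.orth K (by rw [Complex.conj_conj]; exact e4) hv hv'
  exact ⟨hs (o1 D.x1 D'.x1), hs (o1 D.x1 D'.x2), hs (o1 D.x2 D'.x1), hs (o1 D.x2 D'.x2),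
    hs (o2 D.x1 y1'), hs (o2 D.x1 y2'), hs (o2 D.x2 y1'), hs (o2 D.x2 y2'),
    hs (o3 y1 D'.x1), hs (o3 y1 D'.x2), hs (o3 y2 D'.x1), hs (o3 y2 D'.x2),
    hs (o4 y1 y1'), hs (o4 y1 y2'), hs (o4 y2 y1'), hs (o4 y2 y2')⟩

variable (K) in
/-- The spin structure of dual vectors. -/
def mk (j : ℂ) (x₁ x₂ y₁ y₂ : Fin n → ℂ) : Spin g n where
  x :=
    { toFun := fun a => ![j * (K.bil (a *ᵥ x₂) y₁ + K.bil (a *ᵥ x₁) y₂),
        K.bil (a *ᵥ x₁) y₂ - K.bil (a *ᵥ x₂) y₁, j * (K.bil (a *ᵥ x₁) y₁ - K.bil (a *ᵥ x₂) y₂)]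
      map_add' := by
        intro a b
        funext i
        fin_cases i <;>
        · simp [Matrix.add_mulVec, C5L.bil_add_left]
          ring
      map_smul' := by
        intro c a
        funext i
        fin_cases i <;>
        · simp [Matrix.smul_mulVec, C5L.bil_smul_left]
          ring }
  e := H1A.ee (K.cl x₁) (K.cl x₂) (K.cl ((1 / 2 : ℂ) • y₁)) (K.cl ((1 / 2 : ℂ) • y₂))
  P := H1A.PP j (K.cl x₁) (K.cl x₂) (K.cl ((1 / 2 : ℂ) • y₁)) (K.cl ((1 / 2 : ℂ) • y₂))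

theorem mk_x0 (j : ℂ) (x₁ x₂ y₁ y₂ : Fin n → ℂ) (a : Matrix (Fin n) (Fin n) ℂ) :
    (mk K j x₁ x₂ y₁ y₂).x a 0 = j * (K.bil (a *ᵥ x₂) y₁ + K.bil (a *ᵥ x₁) y₂) := rfl

theorem mk_x1 (j : ℂ) (x₁ x₂ y₁ y₂ : Fin n → ℂ) (a : Matrix (Fin n) (Fin n) ℂ) :
    (mk K j x₁ x₂ y₁ y₂).x a 1 = K.bil (a *ᵥ x₁) y₂ - K.bil (a *ᵥ x₂) y₁ := rfl

theorem mk_x2 (j : ℂ) (x₁ x₂ y₁ y₂ : Fin n → ℂ) (a : Matrix (Fin n) (Fin n) ℂ) :
    (mk K j x₁ x₂ y₁ y₂).x a 2 = j * (K.bil (a *ᵥ x₁) y₁ - K.bil (a *ᵥ x₂) y₂) := rfl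

theorem mk_aut {σ : ℂ ≃ₐ[ℚ] ℂ} (j : ℂ) (x₁ x₂ y₁ y₂ : Fin n → ℂ) :
    (mk K j x₁ x₂ y₁ y₂).aut σ =
      mk K (σ j) (fun i => σ (x₁ i)) (fun i => σ (x₂ i)) (fun i => σ (y₁ i)) (fun i => σ (y₂ i)) := by
  have hm : ∀ Z Z' : Matrix (Idx g) (Idx g) ℂ, (Z * Z').map σ = Z.map σ * Z'.map σ :=
    fun Z Z' => Matrix.map_mul (f := (σ : ℂ →+* ℂ))
  have ha : ∀ Z Z' : Matrix (Idx g) (Idx g) ℂ, (Z + Z').map σ = Z.map σ + Z'.map σ := by
    intro Z Z'; ext i j; simp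
  have hsb : ∀ Z Z' : Matrix (Idx g) (Idx g) ℂ, (Z - Z').map σ = Z.map σ - Z'.map σ := by
    intro Z Z'; ext i j; simp
  have hs : ∀ (c : ℂ) (Z : Matrix (Idx g) (Idx g) ℂ), (c • Z).map σ = σ c • Z.map σ := by
    intro c Z; ext i j; simp
  have h2 : σ (2 : ℂ) = 2 := by
    have : (2 : ℂ) = ((2 : ℚ) : ℂ) := by norm_num
    rw [this]; exact σ.commutes 2
  have h12 : σ (1 / 2 : ℂ) = 1 / 2 := by rw [map_div₀, h2, map_one]
  have hcl : ∀ v : Fin n → ℂ, (K.cl v).map σ = K.cl fun i => σ (v i) := fun v => (C5X.cl_map K σ v).symm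
  have hcl2 : ∀ v : Fin n → ℂ, (K.cl ((1 / 2 : ℂ) • v)).map σ = K.cl ((1 / 2 : ℂ) • fun i => σ (v i)) := by
    intro v
    rw [hcl]
    congr 1
    funext i
    rw [Pi.smul_apply, Pi.smul_apply, smul_eq_mul, map_mul, h12, smul_eq_mul]
  have hb : ∀ (a : Matrix (Fin n) (Fin n) ℂ) (v w : Fin n → ℂ),
      σ (K.bil (a.map σ.symm *ᵥ v) w) = K.bil (a *ᵥ fun i => σ (v i)) fun i => σ (w i) := by
    intro a v w
    rw [← C5X.bil_map]
    congr 1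
    funext i
    simp only [Matrix.mulVec, dotProduct, map_sum, map_mul, Matrix.map_apply, AlgEquiv.apply_symm_apply]
  have hx : ((mk K j x₁ x₂ y₁ y₂).aut σ).x =
      (mk K (σ j) (fun i => σ (x₁ i)) (fun i => σ (x₂ i)) (fun i => σ (y₁ i)) (fun i => σ (y₂ i))).x := by
    refine LinearMap.ext fun a => funext fun k => ?_
    show σ ((mk K j x₁ x₂ y₁ y₂).x (a.map σ.symm) k) = _
    fin_cases k
    · show σ ((mk K j x₁ x₂ y₁ y₂).x (a.map σ.symm) 0) = (mk K _ _ _ _ _).x a 0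
      rw [mk_x0, mk_x0, map_mul, map_add, hb, hb]
    · show σ ((mk K j x₁ x₂ y₁ y₂).x (a.map σ.symm) 1) = (mk K _ _ _ _ _).x a 1
      rw [mk_x1, mk_x1, map_sub, hb, hb]
    · show σ ((mk K j x₁ x₂ y₁ y₂).x (a.map σ.symm) 2) = (mk K _ _ _ _ _).x a 2
      rw [mk_x2, mk_x2, map_mul, map_sub, hb, hb]
  have he : ((mk K j x₁ x₂ y₁ y₂).aut σ).e =
      (mk K (σ j) (fun i => σ (x₁ i)) (fun i => σ (x₂ i)) (fun i => σ (y₁ i)) (fun i => σ (y₂ i))).e := by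
    show (H1A.ee (K.cl x₁) (K.cl x₂) (K.cl ((1 / 2 : ℂ) • y₁)) (K.cl ((1 / 2 : ℂ) • y₂))).map σ =
      H1A.ee _ _ _ _
    unfold H1A.ee
    rw [hsb, ha, hs, hm, hm, hm, hm, hm, hcl2, hcl2, hcl x₁, hcl x₂, h2]
  have hP : ((mk K j x₁ x₂ y₁ y₂).aut σ).P =
      (mk K (σ j) (fun i => σ (x₁ i)) (fun i => σ (x₂ i)) (fun i => σ (y₁ i)) (fun i => σ (y₂ i))).P := by
    refine LinearMap.ext fun u => ?_
    show (H1A.PP j (K.cl x₁) (K.cl x₂) (K.cl ((1 / 2 : ℂ) • y₁)) (K.cl ((1 / 2 : ℂ) • y₂))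
      fun k => σ.symm (u k)).map σ = H1A.PP _ _ _ _ _ u
    unfold H1A.PP
    rw [H1A.Pl_apply, H1A.Pl_apply]
    rw [ha, ha, hs, hs, hs, hs, hs, hs, hsb, hsb, ha, hm, hm, hm, hm, hcl2, hcl2, hcl x₁, hcl x₂, h12,
      map_neg, map_div₀, h2]
    simp only [AlgEquiv.apply_symm_apply]
  generalize (mk K j x₁ x₂ y₁ y₂).aut σ = s at hx he hP
  generalize mk K (σ j) (fun i => σ (x₁ i)) (fun i => σ (x₂ i)) (fun i => σ (y₁ i)) (fun i => σ (y₂ i)) =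
    s' at hx he hP
  cases s
  cases s'
  simp only at hx he hP
  subst hx he hP
  rfl

end two

section m2

variable {g n : ℕ} {A : AbVar g} {K : KSC A n 2}

theorem expand {w : ℂ} (hw : aeval w K.P = 0) {x₁ x₂ y₁ y₂ : Fin n → ℂ} (D : Dual K w x₁ x₂ y₁ y₂)
    {v : Fin n → ℂ} (hv : v ∈ K.Tl w) : v = K.bil v y₁ • x₁ + K.bil v y₂ • x₂ := by
  have hli : LinearIndependent ℂ ![(⟨x₁, D.x1⟩ : K.Tl w), ⟨x₂, D.x2⟩] := by
    rw [LinearIndependent.pair_iff]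
    intro s t hst
    have h0 : s • x₁ + t • x₂ = 0 := congrArg Subtype.val hst
    have e1 := congrArg (fun u => K.bil u y₁) h0
    have e2 := congrArg (fun u => K.bil u y₂) h0
    simp only [C5L.bil_add_left, C5L.bil_smul_left, C5L.bil_zero_left, D.b11, D.b12, D.b21, D.b22, mul_one,
      mul_zero, add_zero, zero_add] at e1 e2
    exact ⟨e1, e2⟩
  have hsp := hli.span_eq_top_of_card_eq_finrank' (by rw [C5L.finrank_Tl K hw]; simp)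
  have hmem : (⟨v, hv⟩ : K.Tl w) ∈ Submodule.span ℂ (Set.range ![(⟨x₁, D.x1⟩ : K.Tl w), ⟨x₂, D.x2⟩]) := by
    rw [hsp]; exact Submodule.mem_top
  rw [Submodule.mem_span_range_iff_exists_fun] at hmem
  obtain ⟨c, hc⟩ := hmem
  rw [Fin.sum_univ_two] at hc
  have h0 : c 0 • x₁ + c 1 • x₂ = v := congrArg Subtype.val hc
  rw [← h0]
  simp only [C5L.bil_add_left, C5L.bil_smul_left, D.b11, D.b12, D.b21, D.b22, mul_one,
      mul_zero, add_zero, zero_add]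

theorem bil_mul {w : ℂ} (hw : aeval w K.P = 0) {x₁ x₂ y₁ y₂ : Fin n → ℂ} (D : Dual K w x₁ x₂ y₁ y₂)
    {a b : Matrix (Fin n) (Fin n) ℂ} (hb : b ∈ K.S) {x : Fin n → ℂ} (hx : x ∈ K.Tl w) (y : Fin n → ℂ) :
    K.bil ((a * b) *ᵥ x) y = K.bil (a *ᵥ x₁) y * K.bil (b *ᵥ x) y₁ +
      K.bil (a *ᵥ x₂) y * K.bil (b *ᵥ x) y₂ := by
  have h1 := expand hw D (C5L.S_pres K hb hx)
  rw [← Matrix.mulVec_mulVec]
  conv_lhs => rw [h1]
  rw [Matrix.mulVec_add, Matrix.mulVec_smul, Matrix.mulVec_smul, C5L.bil_add_left, C5L.bil_smul_left,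
    C5L.bil_smul_left]
  ring

theorem mk_brk {w : ℂ} (hw : aeval w K.P = 0) {x₁ x₂ y₁ y₂ : Fin n → ℂ} (D : Dual K w x₁ x₂ y₁ y₂)
    {j : ℂ} (hj : j * j = -1) {a b : Matrix (Fin n) (Fin n) ℂ} (ha : a ∈ K.S) (hb : b ∈ K.S) :
    (mk K j x₁ x₂ y₁ y₂).x (a * b - b * a) =
      crossProduct ((mk K j x₁ x₂ y₁ y₂).x a) ((mk K j x₁ x₂ y₁ y₂).x b) := by
  have hsub : ∀ (x y : Fin n → ℂ), K.bil ((a * b - b * a) *ᵥ x) y =
      K.bil ((a * b) *ᵥ x) y - K.bil ((b * a) *ᵥ x) y := by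
    intro x y
    rw [Matrix.sub_mulVec, C5L.bil_sub_left]
  refine H1A.cross_brk hj (K.bil (a *ᵥ x₁) y₁) (K.bil (a *ᵥ x₂) y₁) (K.bil (a *ᵥ x₁) y₂)
    (K.bil (a *ᵥ x₂) y₂) (K.bil (b *ᵥ x₁) y₁) (K.bil (b *ᵥ x₂) y₁) (K.bil (b *ᵥ x₁) y₂)
    (K.bil (b *ᵥ x₂) y₂) (mk_x0 _ _ _ _ _ _) (mk_x1 _ _ _ _ _ _) (mk_x2 _ _ _ _ _ _)
    (mk_x0 _ _ _ _ _ _) (mk_x1 _ _ _ _ _ _) (mk_x2 _ _ _ _ _ _) ?_ ?_ ?_
  · rw [mk_x0, hsub, hsub, bil_mul hw D hb D.x2, bil_mul hw D ha D.x2, bil_mul hw D hb D.x1,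
      bil_mul hw D ha D.x1]
  · rw [mk_x1, hsub, hsub, bil_mul hw D hb D.x2, bil_mul hw D ha D.x2, bil_mul hw D hb D.x1,
      bil_mul hw D ha D.x1]
  · rw [mk_x2, hsub, hsub, bil_mul hw D hb D.x2, bil_mul hw D ha D.x2, bil_mul hw D hb D.x1,
      bil_mul hw D ha D.x1]

/-- The component as a combination of matrices of rank two. -/
theorem comp (z : PT K) {w : ℂ} (hz : w ∈ z.1) {x₁ x₂ y₁ y₂ : Fin n → ℂ} (D : Dual K w x₁ x₂ y₁ y₂)
    {a : Matrix (Fin n) (Fin n) ℂ} (ha : a ∈ K.S) :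
    prz K z a = K.bil (a *ᵥ x₁) y₁ • C5L.wm K x₁ y₁ + K.bil (a *ᵥ x₂) y₁ • C5L.wm K x₁ y₂ +
      K.bil (a *ᵥ x₁) y₂ • C5L.wm K x₂ y₁ + K.bil (a *ᵥ x₂) y₂ • C5L.wm K x₂ y₂ := by
  have hw := mem_root K z hz
  have hwc := C5L.conj_root K hw
  have hne := C5L.conj_ne K hw
  rw [prz_apply]
  refine C5L.mat_extT K fun r hr v hv => ?_
  rw [← Matrix.mulVec_mulVec, pz_mulVec K z.1 hr (C5L.S_pres K ha hv)]
  simp only [Matrix.add_mulVec, Matrix.smul_mulVec, C5L.wm_mulVec]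
  by_cases h1 : r = w
  · subst h1
    rw [if_pos hz]
    have e1 : K.bil x₁ v = 0 := orthw hw D.x1 hv
    have e2 : K.bil x₂ v = 0 := orthw hw D.x2 hv
    rw [e1, e2]
    have h2 := expand hw D hv
    have h3 := expand hw D (C5L.S_pres K ha D.x1)
    have h4 := expand hw D (C5L.S_pres K ha D.x2)
    rw [C5L.bil_comm K y₁ v, C5L.bil_comm K y₂ v]
    conv_lhs => rw [h2, Matrix.mulVec_add, Matrix.mulVec_smul, Matrix.mulVec_smul, h3, h4]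
    module
  · by_cases h2 : r = (starRingEnd ℂ) w
    · subst h2
      rw [if_pos (mem_conj K z hz)]
      have e1 : K.bil y₁ v = 0 := orthw hwc D.y1 hv
      have e2 : K.bil y₂ v = 0 := orthw hwc D.y2 hv
      rw [e1, e2]
      have h2 := expand hwc D.swap hv
      have h3 := expand hwc D.swap (C5L.S_pres K ha hv)
      rw [C5L.bil_comm K x₁ v, C5L.bil_comm K x₂ v]
      have e3 : K.bil (a *ᵥ v) x₁ = -(K.bil (a *ᵥ x₁) y₁ * K.bil v x₁ + K.bil (a *ᵥ x₁) y₂ * K.bil v x₂) := by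
        rw [C5L.bil_S K ha, C5L.bil_comm K v]
        conv_lhs => rw [h2, C5L.bil_add_right, C5L.bil_smul_right, C5L.bil_smul_right]
        ring
      have e4 : K.bil (a *ᵥ v) x₂ = -(K.bil (a *ᵥ x₂) y₁ * K.bil v x₁ + K.bil (a *ᵥ x₂) y₂ * K.bil v x₂) := by
        rw [C5L.bil_S K ha, C5L.bil_comm K v]
        conv_lhs => rw [h2, C5L.bil_add_right, C5L.bil_smul_right, C5L.bil_smul_right]
        ring
      conv_lhs => rw [h3, e3, e4]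
      module
    · rw [if_neg (fun h => (mem_pair K z hz h).elim h1 h2)]
      have e1 : K.bil x₁ v = 0 := C5L.orth K h2 D.x1 hv
      have e2 : K.bil x₂ v = 0 := C5L.orth K h2 D.x2 hv
      have e3 : K.bil y₁ v = 0 := C5L.orth K (by rw [Complex.conj_conj]; exact h1) D.y1 hv
      have e4 : K.bil y₂ v = 0 := C5L.orth K (by rw [Complex.conj_conj]; exact h1) D.y2 hv
      rw [e1, e2, e3, e4]
      simp

theorem mk_Z (z : PT K) {w : ℂ} (hz : w ∈ z.1) {x₁ x₂ y₁ y₂ : Fin n → ℂ} (D : Dual K w x₁ x₂ y₁ y₂)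
    {j : ℂ} (hj : j * j = -1) {a : Matrix (Fin n) (Fin n) ℂ} (ha : a ∈ K.S) :
    K.Z (prz K z a) * (mk K j x₁ x₂ y₁ y₂).e = (mk K j x₁ x₂ y₁ y₂).P ((mk K j x₁ x₂ y₁ y₂).x a) ∧
    (mk K j x₁ x₂ y₁ y₂).e * K.Z (prz K z a) = (mk K j x₁ x₂ y₁ y₂).P ((mk K j x₁ x₂ y₁ y₂).x a) := by
  have hw := mem_root K z hz
  have hcl : ∀ x y : Fin n → ℂ, K.cl x * K.cl ((1 / 2 : ℂ) • y) = (1 / 2 : ℂ) • (K.cl x * K.cl y) := by
    intro x y
    rw [C5X.cl_smul, Matrix.mul_smul]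
  have h1 : K.Z (prz K z a) =
      K.bil (a *ᵥ x₁) y₁ • (K.cl x₁ * K.cl ((1 / 2 : ℂ) • y₁) - (1 / 2 : ℂ) • 1) +
      K.bil (a *ᵥ x₂) y₁ • (K.cl x₁ * K.cl ((1 / 2 : ℂ) • y₂)) +
      K.bil (a *ᵥ x₁) y₂ • (K.cl x₂ * K.cl ((1 / 2 : ℂ) • y₁)) +
      K.bil (a *ᵥ x₂) y₂ • (K.cl x₂ * K.cl ((1 / 2 : ℂ) • y₂) - (1 / 2 : ℂ) • 1) := by
    rw [comp z hz D ha, C5X.Z_add, C5X.Z_add, C5X.Z_add, C5X.Z_smul, C5X.Z_smul, C5X.Z_smul, C5X.Z_smul,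
      XCX.Z_wm, XCX.Z_wm, XCX.Z_wm, XCX.Z_wm, D.b11, D.b12, D.b21, D.b22, hcl, hcl, hcl, hcl]
    module
  rw [h1]
  exact H1A.lift (car hw D) hj _ _ _ _ (mk_x0 _ _ _ _ _ _) (mk_x1 _ _ _ _ _ _) (mk_x2 _ _ _ _ _ _)

end m2

end H1C

end

end Pool.Agent.K3M
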