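import Pool.Agent.K3C.C6
import Pool.Agent.K3P.GP

/-!
# NP, first part: one factor with complex multiplication, real linear algebra
-/

set_option autoImplicit false

open scoped BigOperators
open Matrix Polynomial

namespace Pool.Agent.K3M

open Pool.Agent.DRB Pool.Agent.K3D Pool.Agent.K3E Pool.Agent.K3C Pool.Agent.K3P
open Pool.Agent.K3D.K7w Pool.Agent.K3D.K7x

noncomputable section

namespace NPC

/-- the restriction of a form of signature `(2, *)`, negative on the orthogonal complement -/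
theorem data_gen {n : ℕ} (q : Fin n → ℝ) (V0 : Submodule ℝ (Fin n → ℝ)) (hn2 : 2 ≤ n)
    (hqpos : ∀ i : Fin n, (i : ℕ) < 2 → 0 < q i) (hqneg : ∀ i : Fin n, 2 ≤ (i : ℕ) → q i < 0)
    (hneg : ∀ v : Fin n → ℝ, (∀ x ∈ V0, Bq q x v = 0) → 0 ≤ Bq q v v → v = 0) :
    (∀ x, (∀ y, B0 (Bq q) V0 x y = 0) → x = 0) ∧
    (∃ x y, 0 < B0 (Bq q) V0 x x ∧ 0 < B0 (Bq q) V0 y y ∧ B0 (Bq q) V0 x y = 0 ∧
      ∀ z, z ≠ 0 → B0 (Bq q) V0 x z = 0 → B0 (Bq q) V0 y z = 0 → B0 (Bq q) V0 z z < 0) := by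
  set B := Bq q with hB
  have hsymm : ∀ x y, B x y = B y x := Bq_symm
  have hnd : ∀ x ∈ V0, (∀ y ∈ V0, B x y = 0) → x = 0 := by
    intro x hx h
    exact hneg x (fun y hy => by rw [hsymm]; exact h y hy) (h x hx).ge
  have hsig := sigq hn2 hqpos hqneg
  have hdec : ∀ v, ∃ v0 ∈ V0, ∃ v1, (∀ x ∈ V0, B x v1 = 0) ∧ v = v0 + v1 := by
    have hrefl : (LinearMap.BilinForm.restrict B V0).Nondegenerate := by
      refine ⟨?_, ?_⟩
      · intro x hx
        exact Subtype.ext (hnd x x.2 fun y hy => hx ⟨y, hy⟩)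
      · intro x hx
        exact Subtype.ext (hnd x x.2 fun y hy => by rw [hsymm]; exact hx ⟨y, hy⟩)
    have hcompl := LinearMap.BilinForm.isCompl_orthogonal_of_restrict_nondegenerate
      (B := B) (W := V0) (fun x y h => by rw [hsymm]; exact h) hrefl
    intro v
    have htop : v ∈ V0 ⊔ LinearMap.BilinForm.orthogonal B V0 := by
      rw [hcompl.sup_eq_top]; exact Submodule.mem_top
    obtain ⟨k, hk, k', hk', hkk⟩ := Submodule.mem_sup.1 htop
    exact ⟨k, hk, k', fun x hx => hk' x hx, hkk.symm⟩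
  refine ⟨fun x hx => Subtype.ext (hnd x x.2 fun y hy => hx ⟨y, hy⟩), ?_⟩
  let i0 : Fin n := ⟨0, by omega⟩
  let i1 : Fin n := ⟨1, by omega⟩
  have hi01 : i0 ≠ i1 := by
    intro h
    have := congrArg Fin.val h
    simp [i0, i1] at this
  obtain ⟨p0, hp0, r0, hr0, e0⟩ := hdec (Pi.single i0 1)
  obtain ⟨p1, hp1, r1, hr1, e1⟩ := hdec (Pi.single i1 1)
  have hle : ∀ v, (∀ x ∈ V0, B x v = 0) → B v v ≤ 0 := by
    intro v hv
    by_contra hcon
    rw [hneg v hv (not_le.1 hcon).le] at hcon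
    exact hcon (by simp)
  have gen : ∀ P Q, B P Q = 0 → B Q P = 0 → B (P + Q) (P + Q) = B P P + B Q Q := by
    intro P Q h h'
    simp only [map_add, LinearMap.add_apply, h, h']
    ring
  have hposc : ∀ c0 c1 : ℝ, (c0 ≠ 0 ∨ c1 ≠ 0) → 0 < B (c0 • p0 + c1 • p1) (c0 • p0 + c1 • p1) := by
    intro c0 c1 hc
    have h1 : B (c0 • r0 + c1 • r1) (c0 • r0 + c1 • r1) ≤ 0 := hle _ fun x hx => by
      rw [map_add, map_smul, map_smul, hr0 x hx, hr1 x hx, smul_zero, smul_zero, add_zero]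
    have h2 : B (c0 • p0 + c1 • p1) (c0 • r0 + c1 • r1) = 0 := by
      have hx : c0 • p0 + c1 • p1 ∈ V0 :=
        Submodule.add_mem _ (Submodule.smul_mem _ _ hp0) (Submodule.smul_mem _ _ hp1)
      rw [map_add, map_smul, map_smul, hr0 _ hx, hr1 _ hx, smul_zero, smul_zero, add_zero]
    have h3 : B (c0 • r0 + c1 • r1) (c0 • p0 + c1 • p1) = 0 := by rw [hsymm]; exact h2
    have h4 : c0 • (Pi.single i0 (1 : ℝ) : Fin n → ℝ) + c1 • Pi.single i1 (1 : ℝ) =
        (c0 • p0 + c1 • p1) + (c0 • r0 + c1 • r1) := by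
      rw [e0, e1]; module
    have h5 : B (c0 • (Pi.single i0 (1 : ℝ) : Fin n → ℝ) + c1 • Pi.single i1 (1 : ℝ))
        (c0 • (Pi.single i0 (1 : ℝ) : Fin n → ℝ) + c1 • Pi.single i1 (1 : ℝ)) =
        c0 * c0 * (q i0) + c1 * c1 * (q i1) := by
      simp only [map_add, map_smul, LinearMap.add_apply, LinearMap.smul_apply, smul_eq_mul, hB,
        Bq_single_left, Pi.single_eq_same, Pi.single_eq_of_ne hi01, Pi.single_eq_of_ne (Ne.symm hi01)]
      ring
    have h6 : B (c0 • (Pi.single i0 (1 : ℝ) : Fin n → ℝ) + c1 • Pi.single i1 (1 : ℝ))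
        (c0 • (Pi.single i0 (1 : ℝ) : Fin n → ℝ) + c1 • Pi.single i1 (1 : ℝ)) =
        B (c0 • p0 + c1 • p1) (c0 • p0 + c1 • p1) + B (c0 • r0 + c1 • r1) (c0 • r0 + c1 • r1) := by
      rw [h4]
      exact gen _ _ h2 h3
    have h7 : 0 < c0 * c0 * (q i0) + c1 * c1 * (q i1) := by
      have ha := hqpos i0 (by simp [i0])
      have hb := hqpos i1 (by simp [i1])
      rcases hc with h | h
      · have := mul_pos (mul_self_pos.2 h) ha
        have := mul_nonneg (mul_self_nonneg c1) hb.le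
        linarith
      · have := mul_pos (mul_self_pos.2 h) hb
        have := mul_nonneg (mul_self_nonneg c0) ha.le
        linarith
    rw [← h5, h6] at h7
    linarith
  have hp00 : 0 < B p0 p0 := by
    have := hposc 1 0 (Or.inl one_ne_zero)
    simpa using this
  set t := B p0 p1 / B p0 p0 with ht
  have hy : p1 - t • p0 ∈ V0 := Submodule.sub_mem _ hp1 (Submodule.smul_mem _ _ hp0)
  have hxy : B p0 (p1 - t • p0) = 0 := by
    rw [map_sub, map_smul, smul_eq_mul, ht]
    field_simp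
    ring
  have hyy : 0 < B (p1 - t • p0) (p1 - t • p0) := by
    have := hposc (-t) 1 (Or.inr one_ne_zero)
    have e : (-t) • p0 + (1 : ℝ) • p1 = p1 - t • p0 := by module
    rwa [e] at this
  refine ⟨⟨p0, hp0⟩, ⟨_, hy⟩, hp00, hyy, hxy, ?_⟩
  rintro ⟨z, hz⟩ hz0 h1 h2
  have hz0' : z ≠ 0 := fun h => hz0 (Subtype.ext h)
  have h1' : B p0 z = 0 := h1
  have h2' : B (p1 - t • p0) z = 0 := h2
  show B z z < 0
  by_contra hcon
  have hcon := not_lt.1 hcon
  generalize p1 - t • p0 = y at *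
  have s1 : B z p0 = 0 := by rw [hsymm]; exact h1'
  have s2 : B z y = 0 := by rw [hsymm]; exact h2'
  have s3 : B y p0 = 0 := by rw [hsymm]; exact hxy
  have hli : LinearIndependent ℝ ![p0, y, z] := by
    rw [Fintype.linearIndependent_iff]
    intro g hg
    simp only [Fin.sum_univ_three, Matrix.cons_val_zero, Matrix.cons_val_one,
      Matrix.cons_val_two, Matrix.head_cons, Matrix.tail_cons] at hg
    have g0 : g 0 = 0 := by
      have := congrArg (fun x => B p0 x) hg
      simp only [map_add, map_smul, smul_eq_mul, hxy, h1', mul_zero, add_zero, map_zero] at this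
      exact (mul_eq_zero.1 this).resolve_right hp00.ne'
    have g1 : g 1 = 0 := by
      have := congrArg (fun x => B y x) hg
      simp only [map_add, map_smul, smul_eq_mul, s3, h2', mul_zero, add_zero, map_zero,
        zero_add] at this
      exact (mul_eq_zero.1 this).resolve_right hyy.ne'
    rw [g0, g1, zero_smul, zero_smul, zero_add, zero_add, smul_eq_zero] at hg
    intro i
    fin_cases i
    · exact g0
    · exact g1
    · exact hg.resolve_right hz0'
  obtain ⟨c, hc⟩ := hsig _ hli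
  have hc' : B (∑ i, c i • (![p0, y, z] : Fin 3 → Fin n → ℝ) i)
      (∑ i, c i • (![p0, y, z] : Fin 3 → Fin n → ℝ) i) < 0 := hc
  simp only [Fin.sum_univ_three, Matrix.cons_val_zero, Matrix.cons_val_one,
    Matrix.cons_val_two, Matrix.head_cons, Matrix.tail_cons, map_add, map_smul,
    LinearMap.add_apply, LinearMap.smul_apply, smul_eq_mul, hxy, h1', h2', s1, s2, s3] at hc'
  nlinarith [mul_nonneg (mul_self_nonneg (c 2)) hcon, mul_nonneg (mul_self_nonneg (c 0)) hp00.le,
    mul_nonneg (mul_self_nonneg (c 1)) hyy.le]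

open C7C C8Y

variable {g n m : ℕ} {A : AbVar g} (K : KSC A n m)

/-- the form with the right sign -/
structure Data (ε : ℝ) : Prop where
  e0 : ε = 1 ∨ ε = -1
  neg : ∀ v : Fin n → ℝ, (∀ x ∈ V0 K, Bq (fun i => ε * C7C.qR K i) x v = 0) → v ≠ 0 →
    Bq (fun i => ε * C7C.qR K i) v v < 0
  nondeg : ∀ x, (∀ y, B0 (Bq fun i => ε * C7C.qR K i) (V0 K) x y = 0) → x = 0
  pos : ∃ x y, 0 < B0 (Bq fun i => ε * C7C.qR K i) (V0 K) x x ∧
    0 < B0 (Bq fun i => ε * C7C.qR K i) (V0 K) y y ∧ B0 (Bq fun i => ε * C7C.qR K i) (V0 K) x y = 0 ∧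
    ∀ z, z ≠ 0 → B0 (Bq fun i => ε * C7C.qR K i) (V0 K) x z = 0 →
      B0 (Bq fun i => ε * C7C.qR K i) (V0 K) y z = 0 →
      B0 (Bq fun i => ε * C7C.qR K i) (V0 K) z z < 0

theorem exists_data (hm1 : 1 ≤ m) : ∃ ε, Data K ε := by
  have hn2 := C8Y.n_ge K hm1
  have hcast : ∀ i, (0 < C7C.qR K i ↔ 0 < K.q i) ∧ (C7C.qR K i < 0 ↔ K.q i < 0) := by
    intro i
    simp only [C7C.qR]
    constructor
    · exact_mod_cast Iff.rfl
    · exact_mod_cast Iff.rfl
  -- orthogonality
  have hperp : ∀ v : Fin n → ℝ, (∀ x ∈ V0 K, ∑ i, C7C.qR K i * x i * v i = 0) →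
      ∀ w : Fin n → ℂ, K.thC *ᵥ w = K.lam • w → ∑ i, (K.q i : ℂ) * (v i : ℂ) * w i = 0 := by
    intro v hv w hw
    obtain ⟨h1, h2⟩ := Tl_re K (v := w) hw
    rw [← h2]
    generalize (fun i => (w i).re) = x at *
    have e1 := hv x h1
    have e2 := hv _ (J_mem K h1)
    have e3 : ∑ i, (K.q i : ℂ) * (v i : ℂ) * Pp K x i =
        ((∑ i, C7C.qR K i * x i * v i : ℝ) : ℂ) -
          Complex.I * ((∑ i, C7C.qR K i * (JR K *ᵥ x) i * v i : ℝ) : ℂ) := by
      push_cast
      rw [Finset.mul_sum, ← Finset.sum_sub_distrib]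
      refine Finset.sum_congr rfl fun i _ => ?_
      rw [Pp_apply]
      simp only [C7C.qR]
      push_cast
      ring
    rw [e3, e1, e2]; simp
  -- the form with the right sign
  obtain ⟨ε, hε, hqpos, hqneg, hneg⟩ : ∃ ε : ℝ, (ε = 1 ∨ ε = -1) ∧
      (∀ i : Fin n, (i : ℕ) < 2 → 0 < ε * C7C.qR K i) ∧
      (∀ i : Fin n, 2 ≤ (i : ℕ) → ε * C7C.qR K i < 0) ∧
      ∀ v : Fin n → ℝ, (∀ x ∈ V0 K, ∑ i, C7C.qR K i * x i * v i = 0) → v ≠ 0 →
        ε * ∑ i, C7C.qR K i * v i * v i < 0 := by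
    rcases K.sig with ⟨hs, hs2⟩ | ⟨hs, hs2⟩
    · refine ⟨1, Or.inl rfl, ?_, ?_, ?_⟩
      · intro i hi
        rw [one_mul, (hcast i).1, hs]; exact hi
      · intro i hi
        have h1 : ¬ 0 < K.q i := by rw [hs]; omega
        rw [one_mul, (hcast i).2]
        exact lt_of_le_of_ne (not_lt.1 h1) (K.q_ne i)
      · intro v hv hv0
        rw [one_mul]
        exact hs2 v hv0 (hperp v hv)
    · refine ⟨-1, Or.inr rfl, ?_, ?_, ?_⟩
      · intro i hi
        have h1 : C7C.qR K i < 0 := by rw [(hcast i).2, hs]; exact hi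
        linarith
      · intro i hi
        have h1 : ¬ K.q i < 0 := by rw [hs]; omega
        have h2 : 0 < C7C.qR K i := by
          rw [(hcast i).1]
          exact lt_of_le_of_ne (not_lt.1 h1) (K.q_ne i).symm
        linarith
      · intro v hv hv0
        have h1 := hs2 v hv0 (hperp v hv)
        have h2 : ∑ i, C7C.qR K i * v i * v i = ∑ i, (K.q i : ℝ) * v i * v i := rfl
        rw [h2]
        linarith
  have hε0 : ε ≠ 0 := by rcases hε with h | h <;> rw [h] <;> norm_num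
  have hsum : ∀ x y : Fin n → ℝ, Bq (fun i => ε * C7C.qR K i) x y = ε * ∑ i, C7C.qR K i * x i * y i := by
    intro x y
    rw [Bq_apply, Finset.mul_sum]
    exact Finset.sum_congr rfl fun i _ => by ring
  have hneg' : ∀ v : Fin n → ℝ, (∀ x ∈ V0 K, Bq (fun i => ε * C7C.qR K i) x v = 0) → v ≠ 0 →
      Bq (fun i => ε * C7C.qR K i) v v < 0 := by
    intro v hv hv0
    rw [hsum]
    refine hneg v (fun x hx => ?_) hv0
    have h1 := hv x hx
    rw [hsum] at h1
    exact (mul_eq_zero.1 h1).resolve_left hε0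
  obtain ⟨h1, h2⟩ := data_gen (fun i => ε * C7C.qR K i) (V0 K) hn2 hqpos hqneg fun v hv h0 => by
    by_contra hne
    have := hneg' v hv hne
    linarith
  exact ⟨ε, hε, hneg', h1, h2⟩

theorem finrank_V0 : Module.finrank ℝ (V0 K) = 2 * m := by
  refine le_antisymm ?_ (C6X.finrank_V0 K)
  let f : V0 K →ₗ[ℝ] K.Tl K.lam :=
    { toFun := fun v => ⟨Pp K v, Pp_mem K v.2⟩
      map_add' := fun v w => Subtype.ext (by simp)
      map_smul' := fun c v => Subtype.ext (by simp) }
  have hf : Function.Injective f := by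
    intro v w h
    apply Subtype.ext
    have h1 : Pp K (v : Fin n → ℝ) = Pp K (w : Fin n → ℝ) := congrArg Subtype.val h
    rw [← Pp_re K (v : Fin n → ℝ), h1, Pp_re]
  have h1 := LinearMap.finrank_le_finrank_of_injective hf
  have h2 : Module.finrank ℝ (K.Tl K.lam) = 2 * Module.finrank ℂ (K.Tl K.lam) :=
    finrank_real_of_complex _
  rw [h2, C5L.finrank_Tl K K.lam_root] at h1
  exact h1

/-- real elements of `S` preserve `V0` -/
theorem pres {a : Matrix (Fin n) (Fin n) ℝ} (ha : a.map Complex.ofReal ∈ K.S) {v : Fin n → ℝ}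
    (hv : v ∈ V0 K) : a *ᵥ v ∈ V0 K := by
  have h1 := C8Y.lie_comm K ha v
  have h2 := C8Y.lie_comm K ha (JR K *ᵥ v)
  rw [mem_V0, ← h1, ← h2, (mem_V0 K).1 hv, Matrix.mulVec_neg]

/-- real elements of `S` are skew -/
theorem skew {a : Matrix (Fin n) (Fin n) ℝ} (ha : a.map Complex.ofReal ∈ K.S) (ε : ℝ)
    (x y : Fin n → ℝ) : Bq (fun i => ε * C7C.qR K i) (a *ᵥ x) y +
      Bq (fun i => ε * C7C.qR K i) x (a *ᵥ y) = 0 := by
  have h1 : aᵀ * Matrix.diagonal (C7C.qR K) + Matrix.diagonal (C7C.qR K) * a = 0 := by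
    ext i j
    have h2 := congrFun (congrFun ha.1 i) j
    rw [Matrix.add_apply, Matrix.mul_diagonal, Matrix.diagonal_mul, Matrix.transpose_apply,
      Matrix.zero_apply] at h2 ⊢
    rw [Matrix.map_apply, Matrix.map_apply] at h2
    have h3 : ((a j i * C7C.qR K j + C7C.qR K i * a i j : ℝ) : ℂ) = 0 := by
      simp only [C7C.qR]
      push_cast
      exact h2
    exact_mod_cast h3
  have h2 : aᵀ * Matrix.diagonal (fun i => ε * C7C.qR K i) +
      Matrix.diagonal (fun i => ε * C7C.qR K i) * a = 0 := by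
    have h3 : Matrix.diagonal (fun i => ε * C7C.qR K i) = ε • Matrix.diagonal (C7C.qR K) := by
      rw [← Matrix.diagonal_smul]; rfl
    rw [h3, Matrix.mul_smul, Matrix.smul_mul, ← smul_add, h1, smul_zero]
  have h3 := Bq_skew h2 x y
  rw [Matrix.toLin'_apply, Matrix.toLin'_apply] at h3
  linarith

/-- the complex structure on `V0` -/
def JE : Module.End ℝ (V0 K) := (Matrix.toLin' (JR K)).restrict fun v hv => by
  rw [Matrix.toLin'_apply]; exact J_mem K hv

theorem JE_apply (x : V0 K) : (JE K x : Fin n → ℝ) = JR K *ᵥ (x : Fin n → ℝ) := rfl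

theorem JE_JE (x : V0 K) : JE K (JE K x) = -x := Subtype.ext x.2

theorem JE_skew (ε : ℝ) (x y : V0 K) : B0 (Bq fun i => ε * C7C.qR K i) (V0 K) (JE K x) y =
    - B0 (Bq fun i => ε * C7C.qR K i) (V0 K) x (JE K y) := by
  have h1 := (Jskew K (C8Y.horth K) x.2 y.2).1
  rw [B0_apply, B0_apply, JE_apply, JE_apply, Bq_apply, Bq_apply]
  have h2 : ∀ u v : Fin n → ℝ, ∑ i, ε * C7C.qR K i * u i * v i = ε * ∑ i, C7C.qR K i * u i * v i := by
    intro u v
    rw [Finset.mul_sum]
    exact Finset.sum_congr rfl fun i _ => by ring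
  rw [h2, h2, h1]
  ring

theorem JE_B (ε : ℝ) (x y : V0 K) : B0 (Bq fun i => ε * C7C.qR K i) (V0 K) (JE K x) (JE K y) =
    B0 (Bq fun i => ε * C7C.qR K i) (V0 K) x y := by
  rw [JE_skew, JE_JE, map_neg, neg_neg]

/-- the real matrices `x ∧ y + J x ∧ J y` belong to `S` -/
theorem um_mem {x y : Fin n → ℝ} (hx : x ∈ V0 K) (hy : y ∈ V0 K) :
    (um K x y).map Complex.ofReal ∈ K.S := by
  have h1 : C5L.wm K (Pp K x) (Pm K y) ∈ K.S := C5L.wm_mem K K.lam_root (Pp_mem K hx) (Pm_mem K hy)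
  have h2 : C5L.wm K (Pp K y) (Pm K x) ∈ K.S := C5L.wm_mem K K.lam_root (Pp_mem K hy) (Pm_mem K hx)
  have h3 : (um K x y).map Complex.ofReal =
      (1 / 2 : ℂ) • (C5L.wm K (Pp K x) (Pm K y) - C5L.wm K (Pp K y) (Pm K x)) := by
    have e1 : C5L.wm K (Pp K x) (Pm K y) = C7C.wm K (Pp K x) (Pm K y) := rfl
    have e2 : C5L.wm K (Pp K y) (Pm K x) = C7C.wm K (Pp K y) (Pm K x) := rfl
    rw [e1, e2, wm_eq K hy, wm_eq K hx]
    ext i j
    simp only [um, Matrix.of_apply, Matrix.add_apply, Matrix.sub_apply, Matrix.smul_apply,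
      Matrix.map_apply, (mem_V0 K).1 hy, (mem_V0 K).1 hx, C7C.qR, smul_eq_mul, Pi.neg_apply]
    push_cast
    ring
  rw [h3]
  exact Submodule.smul_mem _ _ (Submodule.sub_mem _ h1 h2)

/-- unitary endomorphisms of `V0` extend to real elements of `S` -/
theorem extend {ε : ℝ} (D : Data K ε) (a : Module.End ℝ (V0 K))
    (ha : ∀ x y, B0 (Bq fun k => ε * C7C.qR K k) (V0 K) (a x) y +
      B0 (Bq fun k => ε * C7C.qR K k) (V0 K) x (a y) = 0)
    (hJ : ∀ x, a (JE K x) = JE K (a x)) :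
    ∃ M : Matrix (Fin n) (Fin n) ℝ, M.map Complex.ofReal ∈ K.S ∧
      ∀ x : V0 K, (a x : Fin n → ℝ) = M *ᵥ (x : Fin n → ℝ) := by
  set b := B0 (Bq fun k => ε * C7C.qR K k) (V0 K) with hb
  have hs : ∀ x y, b x y = b y x := fun x y => Bq_symm _ _
  have h1 := span_of_nondeg (B := b) hs D.nondeg (Y := a) (fun x y => by have := ha x y; linarith)
  let R : Submodule ℝ (Module.End ℝ (V0 K)) :=
    { carrier := {Z | ∃ M : Matrix (Fin n) (Fin n) ℝ, M.map Complex.ofReal ∈ K.S ∧
        ∀ x : V0 K, (Z x : Fin n → ℝ) = M *ᵥ (x : Fin n → ℝ)}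
      zero_mem' := ⟨0, by
        have : ((0 : Matrix (Fin n) (Fin n) ℝ).map Complex.ofReal) = 0 := by ext i j; simp
        rw [this]; exact K.S.zero_mem, fun x => by simp⟩
      add_mem' := by
        rintro Z Z' ⟨M, h1, h2⟩ ⟨M', h3, h4⟩
        refine ⟨M + M', ?_, fun x => ?_⟩
        · have : (M + M').map Complex.ofReal = M.map Complex.ofReal + M'.map Complex.ofReal := by
            ext i j; simp
          rw [this]; exact K.S.add_mem h1 h3
        · rw [LinearMap.add_apply, Submodule.coe_add, h2, h4, Matrix.add_mulVec]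
      smul_mem' := by
        rintro c Z ⟨M, h1, h2⟩
        refine ⟨c • M, ?_, fun x => ?_⟩
        · have : (c • M).map Complex.ofReal = (c : ℂ) • M.map Complex.ofReal := by
            ext i j; simp
          rw [this]; exact K.S.smul_mem _ h1
        · rw [LinearMap.smul_apply, Submodule.coe_smul, h2, Matrix.smul_mulVec] }
  let F : Module.End ℝ (V0 K) →ₗ[ℝ] Module.End ℝ (V0 K) :=
    { toFun := fun Z => Z - JE K * Z * JE K
      map_add' := fun Z Z' => by rw [mul_add, add_mul]; abel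
      map_smul' := fun c Z => by
        rw [mul_smul_comm, smul_mul_assoc, RingHom.id_apply]
        exact (smul_sub c Z _).symm }
  have hF : ∀ Z, F Z = Z - JE K * Z * JE K := fun Z => rfl
  have h2 : Submodule.span ℝ {Z | ∃ x y, Z = wd b x y} ≤ R.comap F := by
    refine Submodule.span_le.2 ?_
    rintro _ ⟨x, y, rfl⟩
    refine ⟨ε • um K x y, ?_, fun v => ?_⟩
    · have : (ε • um K (x : Fin n → ℝ) y).map Complex.ofReal =
          (ε : ℂ) • (um K (x : Fin n → ℝ) y).map Complex.ofReal := by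
        ext i j; simp
      rw [this]; exact K.S.smul_mem _ (um_mem K x.2 y.2)
    · have e1 : ∀ u v : V0 K, b u v = ε * ∑ k, C7C.qR K k * (u : Fin n → ℝ) k * (v : Fin n → ℝ) k := by
        intro u v
        rw [hb, B0_apply, Bq_apply, Finset.mul_sum]
        exact Finset.sum_congr rfl fun k _ => by ring
      have e2 : F (wd b x y) v = wd b x y v + wd b (JE K x) (JE K y) v := by
        rw [hF, LinearMap.sub_apply, Module.End.mul_apply, Module.End.mul_apply, wd_apply, wd_apply,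
          wd_apply]
        have e3 : ∀ u, b u (JE K v) = - b (JE K u) v := fun u => by
          rw [hb, JE_skew, neg_neg]
        rw [e3, e3, map_sub, map_smul, map_smul]
        module
      show ((F (wd b x y)) v : Fin n → ℝ) = _
      rw [e2, wd_apply, wd_apply, e1, e1, e1, e1, Matrix.smul_mulVec, um_mulVec]
      simp only [Submodule.coe_add, Submodule.coe_sub, Submodule.coe_smul, JE_apply]
      module
  have h3 : F a ∈ R := h2 h1
  have h4 : a = (1 / 2 : ℝ) • F a := by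
    refine LinearMap.ext fun x => ?_
    rw [LinearMap.smul_apply, hF, LinearMap.sub_apply, Module.End.mul_apply, Module.End.mul_apply, hJ,
      JE_JE, sub_neg_eq_add, ← two_smul ℝ, smul_smul]
    norm_num
  rw [h4]
  exact R.smul_mem _ h3

/-- a real diagonalizable skew matrix vanishes on a stable subspace where the form is definite -/
theorem def_zero {n : ℕ} {q : Fin n → ℝ} {a : Matrix (Fin n) (Fin n) ℝ}
    (hs : ∀ x y, Bq q (a *ᵥ x) y + Bq q x (a *ᵥ y) = 0)
    (hd : ⨆ μ : ℝ, Module.End.eigenspace (Matrix.toLin' a) μ = ⊤)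
    (W : Submodule ℝ (Fin n → ℝ)) (hW : ∀ v ∈ W, a *ᵥ v ∈ W)
    (hdef : ∀ v ∈ W, v ≠ 0 → Bq q v v ≠ 0) {v : Fin n → ℝ} (hv : v ∈ W) : a *ᵥ v = 0 := by
  have hpj : ∀ v ∈ W, Matrix.toLin' a v ∈ W := fun v hv => by
    rw [Matrix.toLin'_apply]; exact hW v hv
  have htop : (⨆ μ : ℝ, Module.End.eigenspace ((Matrix.toLin' a).restrict hpj) μ) = ⊤ :=
    Module.End.genEigenspace_restrict_eq_top (f := Matrix.toLin' a) (k := 1) hpj hd
  have hx : (⟨v, hv⟩ : W) ∈ ⨆ μ : ℝ, Module.End.eigenspace ((Matrix.toLin' a).restrict hpj) μ := by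
    rw [htop]; exact Submodule.mem_top
  refine Submodule.iSup_induction _ (motive := fun x : W => a *ᵥ (x : Fin n → ℝ) = 0) hx ?_ ?_ ?_
  · intro c y hy
    rw [Module.End.mem_eigenspace_iff] at hy
    have h1 : a *ᵥ (y : Fin n → ℝ) = c • (y : Fin n → ℝ) := by
      have h2 := congrArg Subtype.val hy
      rw [LinearMap.restrict_apply] at h2
      exact h2
    have h3 := hs (y : Fin n → ℝ) (y : Fin n → ℝ)
    rw [h1, map_smul, LinearMap.smul_apply, map_smul, smul_eq_mul, ← add_mul, ← two_mul] at h3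
    rw [h1]
    by_cases hy0 : (y : Fin n → ℝ) = 0
    · rw [hy0, smul_zero]
    · rcases mul_eq_zero.1 h3 with h6 | h6
      · have : c = 0 := by linarith
        rw [this, zero_smul]
      · exact absurd h6 (hdef _ y.2 hy0)
  · rw [Submodule.coe_zero, Matrix.mulVec_zero]
  · intro x y hx hy
    rw [Submodule.coe_add, Matrix.mulVec_add, hx, hy, add_zero]

/-- the orthogonal complement of `V0` -/
def V1 : Submodule ℝ (Fin n → ℝ) where
  carrier := {v | ∀ x ∈ V0 K, Bq (C7C.qR K) x v = 0}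
  zero_mem' := fun x _ => map_zero _
  add_mem' := by
    intro a b ha hb x hx
    rw [map_add, ha x hx, hb x hx, add_zero]
  smul_mem' := by
    intro c a ha x hx
    rw [map_smul, ha x hx, smul_zero]

/-- real and imaginary parts of the elements of the other eigenspaces -/
theorem re_im_V1 {w : ℂ} (h1 : w ≠ K.lam) (h2 : w ≠ (starRingEnd ℂ) K.lam) {v : Fin n → ℂ}
    (hv : v ∈ K.Tl w) : (fun i => (v i).re) ∈ V1 K ∧ (fun i => (v i).im) ∈ V1 K := by
  have key : ∀ x ∈ V0 K, ∑ i, (K.q i : ℂ) * (x i : ℂ) * v i = 0 := by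
    intro x hx
    have e1 : K.bil (Pp K x) v = 0 := C5L.orth K h2 (Pp_mem K hx) hv
    have e2 : K.bil (Pm K x) v = 0 := by
      refine C5L.orth K ?_ (Pm_mem K hx) hv
      rw [Complex.conj_conj]
      exact h1
    have e3 : K.bil (Pp K x) v + K.bil (Pm K x) v = 2 * ∑ i, (K.q i : ℂ) * (x i : ℂ) * v i := by
      simp only [KSC.bil, Pp_apply, Pm_apply]
      rw [← Finset.sum_add_distrib, Finset.mul_sum]
      exact Finset.sum_congr rfl fun i _ => by ring
    rw [e1, e2, add_zero] at e3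
    exact (mul_eq_zero.1 e3.symm).resolve_left two_ne_zero
  constructor
  · intro x hx
    have h3 := congrArg Complex.re (key x hx)
    rw [Complex.re_sum] at h3
    rw [Bq_apply, ← Complex.zero_re, ← h3]
    refine Finset.sum_congr rfl fun i _ => ?_
    simp [C7C.qR, Complex.mul_re]
  · intro x hx
    have h3 := congrArg Complex.im (key x hx)
    rw [Complex.im_sum] at h3
    rw [Bq_apply, ← Complex.zero_im, ← h3]
    refine Finset.sum_congr rfl fun i _ => ?_
    simp [C7C.qR, Complex.mul_im]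

/-- real and imaginary parts -/
theorem re_im (v : Fin n → ℂ) : v = (fun i => (((v i).re : ℝ) : ℂ)) +
    Complex.I • fun i => (((v i).im : ℝ) : ℂ) := by
  funext i
  rw [Pi.add_apply, Pi.smul_apply, smul_eq_mul, mul_comm]
  exact (Complex.re_add_im _).symm

/-- The compact places. -/
theorem compact_zero (hm1 : 1 ≤ m) {a : Matrix (Fin n) (Fin n) ℝ} (ha : a.map Complex.ofReal ∈ K.S)
    (hd : ⨆ μ : ℝ, Module.End.eigenspace (Matrix.toLin' a) μ = ⊤) {w : ℂ}
    (hw : m = 1 ∨ w ≠ K.lam ∧ w ≠ (starRingEnd ℂ) K.lam) {v : Fin n → ℂ} (hv : v ∈ K.Tl w) :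
    (a.map Complex.ofReal) *ᵥ v = 0 := by
  obtain ⟨ε, D⟩ := exists_data K hm1
  have hε0 : ε ≠ 0 := by rcases D.e0 with h | h <;> rw [h] <;> norm_num
  have hsk := skew K ha ε
  have hB : ∀ x v : Fin n → ℝ, Bq (fun i => ε * C7C.qR K i) x v = ε * Bq (C7C.qR K) x v := by
    intro x v
    rw [Bq_apply, Bq_apply, Finset.mul_sum]
    exact Finset.sum_congr rfl fun i _ => by ring
  have h1 : ∀ v ∈ V1 K, a *ᵥ v = 0 := by
    intro v hv
    refine def_zero hsk hd (V1 K) ?_ ?_ hv
    · intro v hv x hx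
      have e1 := hsk x v
      have e2 := hv _ (pres K ha hx)
      rw [hB, hB, e2, mul_zero, zero_add] at e1
      exact (mul_eq_zero.1 e1).resolve_left hε0
    · intro v hv hv0
      exact (D.neg v (fun x hx => by rw [hB, hv x hx, mul_zero]) hv0).ne
  have h0 : m = 1 → ∀ v ∈ V0 K, a *ᵥ v = 0 := by
    intro hm v hv
    refine def_zero hsk hd (V0 K) (fun v hv => pres K ha hv) ?_ hv
    intro v hv hv0
    obtain ⟨x, y, p1, p2, p3, p4⟩ := D.pos
    set b := B0 (Bq fun i => ε * C7C.qR K i) (V0 K) with hb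
    have hs : ∀ x y, b x y = b y x := fun x y => Bq_symm _ _
    have hfin : Module.finrank ℝ (V0 K) = 2 := by
      have := finrank_V0 K
      omega
    have hli : LinearIndependent ℝ ![x, y] := by
      rw [LinearIndependent.pair_iff]
      intro s t hst
      have e1 := congrArg (fun u => b x u) hst
      have e2 := congrArg (fun u => b y u) hst
      simp only [map_add, map_smul, smul_eq_mul, map_zero, p3, hs y x, mul_zero, add_zero,
        zero_add] at e1 e2
      exact ⟨(mul_eq_zero.1 e1).resolve_right p1.ne', (mul_eq_zero.1 e2).resolve_right p2.ne'⟩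
    have hsp := hli.span_eq_top_of_card_eq_finrank' (by rw [hfin]; simp)
    have hmem : (⟨v, hv⟩ : V0 K) ∈ Submodule.span ℝ (Set.range ![x, y]) := by
      rw [hsp]; exact Submodule.mem_top
    rw [Matrix.range_cons, Matrix.range_cons, Matrix.range_empty, Set.union_empty,
      Set.singleton_union, Submodule.mem_span_pair] at hmem
    obtain ⟨s, t, hst⟩ := hmem
    have e1 : b ⟨v, hv⟩ ⟨v, hv⟩ = s * s * b x x + t * t * b y y := by
      rw [← hst]
      simp only [map_add, map_smul, LinearMap.add_apply, LinearMap.smul_apply, smul_eq_mul, p3,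
        hs y x]
      ring
    have e2 : s ≠ 0 ∨ t ≠ 0 := by
      by_contra hcon
      push Not at hcon
      rw [hcon.1, hcon.2, zero_smul, zero_smul, add_zero] at hst
      exact hv0 (congrArg Subtype.val hst.symm)
    have e3 : 0 < s * s * b x x + t * t * b y y := by
      rcases e2 with h | h
      · have := mul_pos (mul_self_pos.2 h) p1
        have := mul_nonneg (mul_self_nonneg t) p2.le
        linarith
      · have := mul_pos (mul_self_pos.2 h) p2
        have := mul_nonneg (mul_self_nonneg s) p1.le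
        linarith
    rw [← e1] at e3
    exact e3.ne'
  have hre : ∀ x : Fin n → ℝ, a *ᵥ x = 0 → (a.map Complex.ofReal) *ᵥ (fun i => (x i : ℂ)) = 0 := by
    intro x hx
    rw [E8Y.ofReal_mulVec, hx]
    funext i; simp
  by_cases hw1 : w ≠ K.lam ∧ w ≠ (starRingEnd ℂ) K.lam
  · obtain ⟨e1, e2⟩ := re_im_V1 K hw1.1 hw1.2 hv
    rw [re_im v, Matrix.mulVec_add, Matrix.mulVec_smul, hre _ (h1 _ e1), hre _ (h1 _ e2), smul_zero,
      add_zero]
  · have hm := hw.resolve_right hw1
    have h2 : ∀ x ∈ V0 K, (a.map Complex.ofReal) *ᵥ Pp K x = 0 ∧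
        (a.map Complex.ofReal) *ᵥ Pm K x = 0 := by
      intro x hx
      rw [map_Pp K (C8Y.lie_comm K ha x), map_Pm K (C8Y.lie_comm K ha x), h0 hm x hx, map_zero,
        map_zero]
      exact ⟨rfl, rfl⟩
    rw [not_and_or, not_not, not_not] at hw1
    rcases hw1 with rfl | rfl
    · obtain ⟨e1, e2⟩ := Tl_re K hv
      rw [← e2]
      exact (h2 _ e1).1
    · obtain ⟨e1, e2⟩ := Tl_re' K hv
      rw [← e2]
      exact (h2 _ e1).2

/-- from `V0` to the eigenspaces -/
theorem special_zero {a : Matrix (Fin n) (Fin n) ℝ} (ha : a.map Complex.ofReal ∈ K.S)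
    (h0 : ∀ v ∈ V0 K, a *ᵥ v = 0) {w : ℂ} (hw : w = K.lam ∨ w = (starRingEnd ℂ) K.lam)
    {v : Fin n → ℂ} (hv : v ∈ K.Tl w) : (a.map Complex.ofReal) *ᵥ v = 0 := by
  rcases hw with rfl | rfl
  · obtain ⟨e1, e2⟩ := Tl_re K hv
    rw [← e2, map_Pp K (C8Y.lie_comm K ha _), h0 _ e1, map_zero]
  · obtain ⟨e1, e2⟩ := Tl_re' K hv
    rw [← e2, map_Pm K (C8Y.lie_comm K ha _), h0 _ e1, map_zero]

end NPC

end

end Pool.Agent.K3M
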