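import Pool.Agent.K3M.H1Cb
import Pool.Agent.K3M.NP1

/-!
# H1C: the hyperbolic element at the indefinite place
-/

set_option autoImplicit false
set_option linter.unusedSectionVars false
set_option linter.unusedSimpArgs false

open scoped BigOperators
open Matrix Polynomial

namespace Pool.Agent.K3M

open Pool.Agent.DRB Pool.Agent.K3D Pool.Agent.K3E Pool.Agent.K3C Pool.Agent.K3P
open Pool.Agent.K3D.K7w Pool.Agent.K3D.K7x
open K3C.C7C K3C.C8Y

noncomputable section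

namespace H1C

variable {g n m : ℕ} {A : AbVar g} (K : KSC A n m)

/-- complex conjugation of vectors -/
def cj (v : Fin n → ℂ) : Fin n → ℂ := fun i => (starRingEnd ℂ) (v i)

theorem cj_cj (v : Fin n → ℂ) : cj (cj v) = v := by
  funext i; exact Complex.conj_conj _

theorem cj_add (v w : Fin n → ℂ) : cj (v + w) = cj v + cj w := by
  funext i; simp [cj]

theorem cj_sub (v w : Fin n → ℂ) : cj (v - w) = cj v - cj w := by
  funext i; simp [cj]

theorem cj_smul (c : ℂ) (v : Fin n → ℂ) : cj (c • v) = (starRingEnd ℂ) c • cj v := by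
  funext i; simp [cj]

theorem bil_cj (v w : Fin n → ℂ) : K.bil (cj v) (cj w) = (starRingEnd ℂ) (K.bil v w) :=
  C5X.bil_map K TritX.rho v w

theorem cj_mem {z : ℂ} {v : Fin n → ℂ} (hv : v ∈ K.Tl z) : cj v ∈ K.Tl ((starRingEnd ℂ) z) :=
  C5L.map_Tl K TritX.rho hv

theorem bil_sw (v w : Fin n → ℂ) : K.bil w (cj v) = (starRingEnd ℂ) (K.bil v (cj w)) := by
  rw [← bil_cj, cj_cj, C5L.bil_comm]

theorem bil_real (v : Fin n → ℂ) : ∃ r : ℝ, K.bil v (cj v) = r := by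
  refine ⟨(K.bil v (cj v)).re, ?_⟩
  exact (Complex.conj_eq_iff_re.1 (bil_sw K v v).symm).symm

theorem herm_Pp {x : Fin n → ℝ} (hx : x ∈ V0 K) :
    K.bil (Pp K x) (cj (Pp K x)) = ((2 * ∑ i, qR K i * x i * x i : ℝ) : ℂ) := by
  have h1 : cj (Pp K x) = Pm K x := by
    funext i
    simp [cj, Pp_apply, Pm_apply]
  rw [h1, bil_Pp_Pm, (Jskew K (C8Y.horth K) hx hx).2]
  have h2 : ∑ i, qR K i * x i * (JR K *ᵥ x) i - ∑ i, qR K i * (JR K *ᵥ x) i * x i = 0 := by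
    rw [← Finset.sum_sub_distrib]
    exact Finset.sum_eq_zero fun i _ => by ring
  rw [h2, Complex.ofReal_zero, mul_zero, add_zero, two_mul]

/-- Both signs occur if `m ≥ 2`. -/
theorem signs (hm : 2 ≤ m) : ∃ u ∈ K.Tl K.lam, ∃ w ∈ K.Tl K.lam, ∃ r s : ℝ,
    K.bil u (cj u) = r ∧ K.bil w (cj w) = s ∧ r * s < 0 := by
  obtain ⟨ε, D⟩ := NPC.exists_data K (by omega)
  have hε : ε * ε = 1 := by rcases D.e0 with h | h <;> rw [h] <;> norm_num
  obtain ⟨x, y, hx, hy, hxy, hneg⟩ := D.pos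
  set B := B0 (Bq fun i => ε * C7C.qR K i) (V0 K) with hB
  have hBv : ∀ u : V0 K, B u u = ε * ∑ i, qR K i * (u : Fin n → ℝ) i * (u : Fin n → ℝ) i := by
    intro u
    rw [hB, B0_apply, Bq_apply, Finset.mul_sum]
    exact Finset.sum_congr rfl fun i _ => by ring
  obtain ⟨z, hz0, hz1, hz2⟩ : ∃ z : V0 K, z ≠ 0 ∧ B x z = 0 ∧ B y z = 0 := by
    let f : V0 K →ₗ[ℝ] ℝ × ℝ := LinearMap.prod (B x) (B y)
    have h1 : LinearMap.ker f ≠ ⊥ := by
      apply LinearMap.ker_ne_bot_of_finrank_lt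
      rw [NPC.finrank_V0 K, Module.finrank_prod, Module.finrank_self]
      omega
    obtain ⟨z, hz, hz0⟩ := (Submodule.ne_bot_iff _).1 h1
    rw [LinearMap.mem_ker] at hz
    exact ⟨z, hz0, congrArg Prod.fst hz, congrArg Prod.snd hz⟩
  have h3 := hneg z hz0 hz1 hz2
  rw [hBv] at hx h3
  refine ⟨_, Pp_mem K x.2, _, Pp_mem K z.2, _, _, herm_Pp K x.2, herm_Pp K z.2, ?_⟩
  nlinarith [mul_neg_of_pos_of_neg hx h3]

/-- Gram-Schmidt. -/
theorem gs (hm : 2 ≤ m) : ∃ u ∈ K.Tl K.lam, ∃ w ∈ K.Tl K.lam, ∃ r s : ℝ,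
    K.bil u (cj u) = r ∧ K.bil w (cj w) = s ∧ K.bil w (cj u) = 0 ∧ r * s < 0 := by
  obtain ⟨u, hu, w, hw, r, s, h1, h2, h3⟩ := signs K hm
  have hr : r ≠ 0 := by rintro rfl; simp at h3
  set c : ℂ := K.bil w (cj u) / r with hc
  have hrC : (r : ℂ) ≠ 0 := by exact_mod_cast hr
  have e1 : K.bil w (cj u) = c * r := by rw [hc, div_mul_cancel₀ _ hrC]
  have e2 : K.bil u (cj w) = (starRingEnd ℂ) c * r := by
    rw [bil_sw K w u, e1, map_mul, Complex.conj_ofReal]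
  refine ⟨u, hu, w - c • u, Submodule.sub_mem _ hw (Submodule.smul_mem _ _ hu), r,
    s - r * Complex.normSq c, h1, ?_, ?_, ?_⟩
  · rw [cj_sub, cj_smul, C5L.bil_sub_left, C5L.bil_sub_right, C5L.bil_sub_right, C5L.bil_smul_left,
      C5L.bil_smul_left, C5L.bil_smul_right, C5L.bil_smul_right, e1, e2, h1, h2]
    have h4 : ((s - r * Complex.normSq c : ℝ) : ℂ) = s - r * (c * (starRingEnd ℂ) c) := by
      rw [Complex.mul_conj]; push_cast; ring
    rw [h4]; ring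
  · rw [C5L.bil_sub_left, C5L.bil_smul_left, e1, h1, sub_self]
  · have h5 : 0 ≤ Complex.normSq c := Complex.normSq_nonneg c
    nlinarith [mul_self_nonneg r, mul_nonneg (mul_self_nonneg r) h5]

/-- Isotropic vectors. -/
theorem iso (hm : 2 ≤ m) : ∃ x₁ ∈ K.Tl K.lam, ∃ x₂ ∈ K.Tl K.lam, ∃ t : ℝ, t ≠ 0 ∧
    K.bil x₁ (cj x₁) = 0 ∧ K.bil x₂ (cj x₂) = 0 ∧ K.bil x₁ (cj x₂) = t := by
  obtain ⟨u, hu, w, hw, r, s, h1, h2, h3, h4⟩ := gs K hm
  have h3' : K.bil u (cj w) = 0 := by rw [bil_sw K w u, h3, map_zero]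
  have hr : r ≠ 0 := by rintro rfl; simp at h4
  have hs : s ≠ 0 := by rintro rfl; simp at h4
  set α : ℝ := Real.sqrt |s| with hα
  set β : ℝ := Real.sqrt |r| with hβ
  have hα2 : α * α = |s| := Real.mul_self_sqrt (abs_nonneg s)
  have hβ2 : β * β = |r| := Real.mul_self_sqrt (abs_nonneg r)
  have hsum : α * α * r + β * β * s = 0 := by
    rw [hα2, hβ2]
    rcases lt_or_gt_of_ne hr with hr' | hr'
    · have hs' : 0 < s := by nlinarith
      rw [abs_of_pos hs', abs_of_neg hr']; ring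
    · have hs' : s < 0 := by nlinarith
      rw [abs_of_neg hs', abs_of_pos hr']; ring
  have hαr : α * α * r ≠ 0 := by
    rw [hα2]
    exact mul_ne_zero (abs_ne_zero.2 hs) hr
  refine ⟨(α : ℂ) • u + (β : ℂ) • w, Submodule.add_mem _ (Submodule.smul_mem _ _ hu)
      (Submodule.smul_mem _ _ hw), (α : ℂ) • u - (β : ℂ) • w, Submodule.sub_mem _
      (Submodule.smul_mem _ _ hu) (Submodule.smul_mem _ _ hw), 2 * (α * α * r), ?_, ?_, ?_, ?_⟩
  · exact mul_ne_zero two_ne_zero hαr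
  · rw [cj_add, cj_smul, cj_smul, Complex.conj_ofReal, Complex.conj_ofReal, C5L.bil_add_left,
      C5L.bil_add_right, C5L.bil_add_right]
    simp only [C5L.bil_smul_left, C5L.bil_smul_right, h1, h2, h3, h3']
    have : ((α * α * r + β * β * s : ℝ) : ℂ) = 0 := by rw [hsum]; simp
    push_cast at this
    linear_combination this
  · rw [cj_sub, cj_smul, cj_smul, Complex.conj_ofReal, Complex.conj_ofReal, C5L.bil_sub_left,
      C5L.bil_sub_right, C5L.bil_sub_right]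
    simp only [C5L.bil_smul_left, C5L.bil_smul_right, h1, h2, h3, h3']
    have : ((α * α * r + β * β * s : ℝ) : ℂ) = 0 := by rw [hsum]; simp
    push_cast at this
    linear_combination this
  · rw [cj_sub, cj_smul, cj_smul, Complex.conj_ofReal, Complex.conj_ofReal, C5L.bil_add_left,
      C5L.bil_sub_right, C5L.bil_sub_right]
    simp only [C5L.bil_smul_left, C5L.bil_smul_right, h1, h2, h3, h3']
    have : ((α * α * r + β * β * s : ℝ) : ℂ) = 0 := by rw [hsum]; simp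
    push_cast at this
    push_cast
    linear_combination -this

/-- The hyperbolic element. -/
theorem hyp (hm : 2 ≤ m) : ∃ (x₁ x₂ y₁ y₂ : Fin n → ℂ) (a : Matrix (Fin n) (Fin n) ℝ),
    Dual K K.lam x₁ x₂ y₁ y₂ ∧ a.map Complex.ofReal = C5L.wm K x₁ y₁ - C5L.wm K x₂ y₂ := by
  obtain ⟨x₁, h1, x₂, h2, t, ht, e1, e2, e3⟩ := iso K hm
  have htC : (t : ℂ) ≠ 0 := by exact_mod_cast ht
  have e4 : K.bil x₂ (cj x₁) = t := by rw [bil_sw K x₁ x₂, e3, Complex.conj_ofReal]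
  refine ⟨x₁, x₂, (t : ℂ)⁻¹ • cj x₂, (t : ℂ)⁻¹ • cj x₁,
    (C5L.wm K x₁ ((t : ℂ)⁻¹ • cj x₂) - C5L.wm K x₂ ((t : ℂ)⁻¹ • cj x₁)).map Complex.re, ⟨h1, h2,
      Submodule.smul_mem _ _ (cj_mem K h2), Submodule.smul_mem _ _ (cj_mem K h1), ?_, ?_, ?_, ?_⟩, ?_⟩
  · rw [C5L.bil_smul_right, e3, inv_mul_cancel₀ htC]
  · rw [C5L.bil_smul_right, e4, inv_mul_cancel₀ htC]
  · rw [C5L.bil_smul_right, e1, mul_zero]
  · rw [C5L.bil_smul_right, e2, mul_zero]
  · ext i j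
    rw [Matrix.map_apply, Matrix.map_apply]
    refine Complex.conj_eq_iff_re.1 ?_
    simp only [C5L.wm, Matrix.sub_apply, Matrix.of_apply, Pi.smul_apply, smul_eq_mul, cj, map_sub, map_mul,
      map_inv₀, Complex.conj_ofReal, Complex.conj_conj, map_ratCast]
    ring

end H1C

end

end Pool.Agent.K3M
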