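import Pool.Agent.K3M.H1d

/-!
# Spin structures of the factors with real multiplication, `m = 3` or `m = 4`
-/

open scoped BigOperators
open Matrix Polynomial

namespace Pool.Agent.K3M

open Pool.Agent.DRB Pool.Agent.K3D Pool.Agent.K3E Pool.Agent.K3C Pool.Agent.K3P

noncomputable section

namespace H1X

section one

variable {g n m : ℕ} {A : AbVar g} (K : KSE A n m)

theorem mem_R (w : ℂ) : w ∈ (K.P.aroots ℂ).toFinset ↔ aeval w K.P = 0 := by
  rw [Multiset.mem_toFinset, Polynomial.mem_aroots]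
  exact ⟨fun h => h.2, fun h => ⟨K.irr.ne_zero, h⟩⟩

/-- the lift as a linear map -/
def ZL : Matrix (Fin n) (Fin n) ℂ →ₗ[ℂ] Matrix (Idx g) (Idx g) ℂ where
  toFun := K.Z
  map_add' := E5X.Z_add K
  map_smul' := E5X.Z_smul K

/-- the real elements -/
structure RealData : Prop where
  hyp : ∃ (c : ℕ) (x y : Fin c → Matrix (Fin n) (Fin n) ℂ) (a : Matrix (Fin n) (Fin n) ℝ),
    (∀ i, x i ∈ K.S ∧ y i ∈ K.S) ∧ a.map Complex.ofReal = ∑ i, (x i * y i - y i * x i) ∧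
    (∀ h, IsHypLog (NormedSpace.exp a) h → h = a) ∧
    (∀ w : ℂ, aeval w K.P = 0 → w ≠ (K.lam : ℂ) → ∀ v ∈ K.Tl w, (a.map Complex.ofReal) *ᵥ v = 0) ∧
    ∃ t : ℂ, t ≠ 0 ∧ K.Z (a.map Complex.ofReal) * K.Z (a.map Complex.ofReal) = t • 1
  cpt : ∀ a h : Matrix (Fin n) (Fin n) ℝ, a.map Complex.ofReal ∈ K.S → h.map Complex.ofReal ∈ K.S →
    IsHypLog (NormedSpace.exp a) h → ∀ w : ℂ, aeval w K.P = 0 → w ≠ (K.lam : ℂ) → ∀ v ∈ K.Tl w,
      (h.map Complex.ofReal) *ᵥ v = 0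
  perf : ∀ a ∈ K.S, ∀ b ∈ K.S, a * b - b * a ∈ Submodule.span ℂ {c | ∃ x ∈ K.S, ∃ y ∈ K.S,
    ∃ x' ∈ K.S, ∃ y' ∈ K.S,
    c = (x * y - y * x) * (x' * y' - y' * x') - (x' * y' - y' * x') * (x * y - y * x)}

theorem sub_mem_S {a b : Matrix (Fin n) (Fin n) ℂ} (ha : a ∈ K.S) (hb : b ∈ K.S) : a * b - b * a ∈ K.S :=
  E8C.comm_mem_S K ha hb

/-- The spin structures of the factor. -/
def fac (hm : m = 3 ∨ m = 4) (R : RealData K) : SpinFac g n where
  S := K.S
  Z := ZL K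
  Ω := {z : ℂ // aeval z K.P = 0}
  fin := Fintype.subtype (K.P.aroots ℂ).toFinset (mem_R K)
  act σ z := ⟨σ z.1, by
    have h := Polynomial.aeval_algHom_apply (σ : ℂ →ₐ[ℚ] ℂ) z.1 K.P
    rw [z.2, map_zero] at h
    exact h⟩
  act_one z := rfl
  act_mul σ τ z := rfl
  o := ⟨(K.lam : ℂ), E8Y.lam_rootC K⟩
  trans z := by
    obtain ⟨σ, hσ⟩ := E5L.exists_aut K.irr (E8Y.lam_rootC K) z.2
    exact ⟨σ, Subtype.ext hσ⟩
  pr z := LinearMap.mulRight ℂ (Pj K z.1)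
  pr_mem z a ha := mul_Pj_mem K ha z.1
  pr_sum a ha := by
    refine ext_T K fun w hw v hv => ?_
    rw [Matrix.sum_mulVec]
    rw [Finset.sum_eq_single (⟨w, hw⟩ : {z : ℂ // aeval z K.P = 0})]
    · show (a * Pj K w) *ᵥ v = a *ᵥ v
      rw [← Matrix.mulVec_mulVec, Pj_same K hv]
    · intro z _ hz
      show (a * Pj K z.1) *ᵥ v = 0
      rw [← Matrix.mulVec_mulVec, Pj_ne K (fun h => hz (Subtype.ext h.symm)) hv, Matrix.mulVec_zero]
    · intro h
      exact absurd (@Finset.mem_univ _ (Fintype.subtype (K.P.aroots ℂ).toFinset (mem_R K)) _) h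
  pr_self z a ha := by
    show a * Pj K z.1 * Pj K z.1 = a * Pj K z.1
    rw [Matrix.mul_assoc, Pj_idem]
  pr_ne z w hzw a ha := by
    show a * Pj K w.1 * Pj K z.1 = 0
    rw [Matrix.mul_assoc, Pj_orth K (fun h => hzw (Subtype.ext h.symm)), Matrix.mul_zero]
  pr_brk z a ha b hb := pr_brk K ha hb z.1
  IsSp z s := ∃ v ε e, Fr K z.1 v ε e ∧ s = mk K v ε e
  rel := by
    rintro z s ⟨v, ε, e, F, rfl⟩
    exact F.rel K
  brk := by
    rintro z s ⟨v, ε, e, F, rfl⟩ a ha b hb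
    exact F.brk K ha hb
  x_pr := by
    rintro z s ⟨v, ε, e, F, rfl⟩ a ha
    exact X_Pj K F a
  Zx := by
    rintro z s ⟨v, ε, e, F, rfl⟩ a ha
    exact F.Zx K ha
  comm := by
    rintro z w s s' hzw ⟨v, ε, e, F, rfl⟩ ⟨v', ε', e', F', rfl⟩
    exact F.qcomm K (fun h => hzw (Subtype.ext h)) F'
  ne := by
    classical
    intro s hs
    choose v ε e F hs using hs
    let : Fintype {z : ℂ // aeval z K.P = 0} := Fintype.subtype (K.P.aroots ℂ).toFinset (mem_R K)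
    obtain ⟨E, hE, h1⟩ := exists_E K (fun z : {z : ℂ // aeval z K.P = 0} => z.1) Subtype.val_injective
      v ε e F
    refine ⟨E, hE, fun z => ?_⟩
    rw [hs z]
    exact h1 z
  aut := by
    rintro σ z s ⟨v, ε, e, F, rfl⟩
    exact ⟨_, _, _, F.map K σ, mk_aut K v ε e σ⟩
  full z := by
    obtain ⟨k, s, h1, h2, h3⟩ := full K hm z.2
    refine ⟨k, s, h1, h2, fun a ha h0 b hb => ?_⟩
    show a * Pj K z.1 * b = b * (a * Pj K z.1)
    rw [h3 a ha h0, Matrix.zero_mul, Matrix.mul_zero]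
  hyp := by
    obtain ⟨c, x, y, a, h1, h2, h3, h4, t, ht, h5⟩ := R.hyp
    refine ⟨c, x, y, a, h1, h2, h3, ?_⟩
    rintro s ⟨v, ε, e, F, rfl⟩ h0
    have haS : a.map Complex.ofReal ∈ K.S := by
      rw [h2]
      exact Submodule.sum_mem _ fun i _ => sub_mem_S K (h1 i).1 (h1 i).2
    have h6 : a.map Complex.ofReal * Pj K (K.lam : ℂ) = a.map Complex.ofReal := by
      refine ext_T K fun w hw u hu => ?_
      rw [← Matrix.mulVec_mulVec]
      by_cases h : w = (K.lam : ℂ)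
      · subst h
        rw [Pj_same K hu]
      · rw [Pj_ne K h hu, Matrix.mulVec_zero, h4 w hw h u hu]
    have h7 := (F.Zx K haS).1
    rw [h6] at h7
    have h8 : K.Z (a.map Complex.ofReal) * e = 0 := by
      rw [h7]
      have h9 : X K v ε (a.map Complex.ofReal) = 0 := h0
      rw [h9, map_zero]
    apply F.e_ne K
    have h9 : t • e = 0 := by
      calc t • e = (t • (1 : Matrix (Idx g) (Idx g) ℂ)) * e := by rw [Matrix.smul_mul, Matrix.one_mul]
        _ = 0 := by rw [← h5, Matrix.mul_assoc, h8, Matrix.mul_zero]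
    exact (smul_eq_zero.1 h9).resolve_left ht
  cpt a h ha hh hl z hz := by
    show h.map Complex.ofReal * Pj K z.1 = 0
    refine ext_T K fun w hw u hu => ?_
    rw [← Matrix.mulVec_mulVec, Matrix.zero_mulVec]
    by_cases h1 : w = z.1
    · rw [h1] at hu
      rw [Pj_same K hu]
      exact R.cpt a h ha hh hl z.1 z.2 (fun h => hz (Subtype.ext h)) u hu
    · rw [Pj_ne K h1 hu, Matrix.mulVec_zero]
  perf := R.perf

end one

end H1X

/-- H1E from the real data. -/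
theorem H1E_of (hR : ∀ (g : ℕ) (A : AbVar g) (n m : ℕ) (K : KSE A n m), (m = 3 ∨ m = 4) → H1X.RealData K) :
    Stmt_H1E := by
  intro g A n m K hm
  exact ⟨H1X.fac K hm (hR g A n m K hm), rfl, fun a => rfl⟩

end

end Pool.Agent.K3M
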