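import Pool.Agent.K3M.HDefs
import Pool.Agent.K3M.ND
import Pool.Agent.K3P.GE
import Pool.Agent.K3P.GP
import Pool.Agent.K3E.E10b

/-!
# Spin structures of the factors with real multiplication, `m = 3` or `m = 4`: preparations
-/

open scoped BigOperators
open Matrix Polynomial

namespace Pool.Agent.K3M

open Pool.Agent.DRB Pool.Agent.K3D Pool.Agent.K3E Pool.Agent.K3C Pool.Agent.K3P

noncomputable section

namespace H1X

/-! ### Quaternion relations -/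

section quat

variable {κ : Type} [Fintype κ] [DecidableEq κ]

theorem P_inj {e : Matrix κ κ ℂ} {P : (Fin 3 → ℂ) →ₗ[ℂ] Matrix κ κ ℂ} (h : QRel e P) (he : e ≠ 0)
    {u : Fin 3 → ℂ} (hu : P u = 0) : u = 0 := by
  funext i
  have h1 := h.mul u (Pi.single i 1)
  have h2 := h.mul (Pi.single i 1) u
  rw [hu, Matrix.zero_mul] at h1
  rw [hu, Matrix.mul_zero] at h2
  have h3 : crossProduct (Pi.single i 1) u = -crossProduct u (Pi.single i 1) := by
    rw [cross_anticomm]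
  rw [h3, map_neg, dotProduct_comm] at h2
  have h4 : (-(1 / 2 : ℂ) * (u ⬝ᵥ Pi.single i 1)) • e = 0 := by
    have h5 : (-(1 / 2 : ℂ) * (u ⬝ᵥ Pi.single i 1)) • e =
        ((-(1 / 4 : ℂ) * (u ⬝ᵥ Pi.single i 1)) • e + (1 / 2 : ℂ) • P (crossProduct u (Pi.single i 1))) +
        ((-(1 / 4 : ℂ) * (u ⬝ᵥ Pi.single i 1)) • e +
          (1 / 2 : ℂ) • -P (crossProduct u (Pi.single i 1))) := by module
    rw [h5, ← h1, ← h2, add_zero]
  have h6 := (smul_eq_zero.1 h4).resolve_right he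
  rw [dotProduct_single, mul_one] at h6
  rw [Pi.zero_apply]
  linear_combination -2 * h6

/-- Brackets from the lift. -/
theorem brk_of {e : Matrix κ κ ℂ} {P : (Fin 3 → ℂ) →ₗ[ℂ] Matrix κ κ ℂ} (h : QRel e P) (he : e ≠ 0)
    {X Y Z : Matrix κ κ ℂ} {x y z : Fin 3 → ℂ} (hX : X * e = P x) (hX' : e * X = P x)
    (hY : Y * e = P y) (hY' : e * Y = P y) (hZ : Z * e = P z) (hXY : X * Y - Y * X = Z) :
    z = crossProduct x y := by
  have h1 : P z = P x * P y - P y * P x := by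
    rw [← hZ, ← hXY, Matrix.sub_mul, Matrix.mul_assoc, Matrix.mul_assoc, hY, hX]
    have e1 : X * P y = P x * P y := by
      calc X * P y = X * (e * P y) := by rw [h.eP]
        _ = P x * P y := by rw [← Matrix.mul_assoc, hX]
    have e2 : Y * P x = P y * P x := by
      calc Y * P x = Y * (e * P x) := by rw [h.eP]
        _ = P y * P x := by rw [← Matrix.mul_assoc, hY]
    rw [e1, e2]
  have h2 : P z = P (crossProduct x y) := by
    rw [h1, h.mul, h.mul, dotProduct_comm y x, ← cross_anticomm x y, map_neg]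
    module
  have h3 : P (z - crossProduct x y) = 0 := by rw [map_sub, h2, sub_self]
  exact sub_eq_zero.1 (P_inj h he h3)

/-- A projection from three anticommuting square roots of one. -/
theorem qrel_of {I J K e : Matrix κ κ ℂ} (hII : I * I = -1) (hJJ : J * J = -1) (hKK : K * K = -1)
    (hIJ : I * J = -K) (hJI : J * I = K) (hJK : J * K = -I) (hKJ : K * J = I) (hKI : K * I = -J)
    (hIK : I * K = J) (he : e * e = e) (heI : e * I = I * e) (heJ : e * J = J * e) (heK : e * K = K * e)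
    {P : (Fin 3 → ℂ) →ₗ[ℂ] Matrix κ κ ℂ}
    (hP : ∀ u, P u = -(1 / 2 : ℂ) • ((u 0 • I + u 1 • J + u 2 • K) * e)) : QRel e P := by
  have hcom : ∀ u : Fin 3 → ℂ, e * (u 0 • I + u 1 • J + u 2 • K) = (u 0 • I + u 1 • J + u 2 • K) * e := by
    intro u
    simp only [Matrix.mul_add, Matrix.add_mul, Matrix.mul_smul, Matrix.smul_mul, heI, heJ, heK]
  refine ⟨he, fun u => ?_, fun u => ?_, fun u v => ?_⟩
  · rw [hP, Matrix.mul_smul, ← Matrix.mul_assoc, hcom, Matrix.mul_assoc, he]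
  · rw [hP, Matrix.smul_mul, Matrix.mul_assoc, he]
  · rw [hP, hP, hP]
    have h1 : (u 0 • I + u 1 • J + u 2 • K) * e * ((v 0 • I + v 1 • J + v 2 • K) * e) =
        (u 0 • I + u 1 • J + u 2 • K) * (v 0 • I + v 1 • J + v 2 • K) * e := by
      rw [Matrix.mul_assoc _ e, ← Matrix.mul_assoc e, hcom, Matrix.mul_assoc _ e e, he, ← Matrix.mul_assoc]
    have h2 : (u 0 • I + u 1 • J + u 2 • K) * (v 0 • I + v 1 • J + v 2 • K) =
        (-(u ⬝ᵥ v)) • 1 - (crossProduct u v 0 • I + crossProduct u v 1 • J + crossProduct u v 2 • K) := by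
      simp only [Matrix.mul_add, Matrix.add_mul, Matrix.mul_smul, Matrix.smul_mul, hII, hJJ, hKK, hIJ, hJI,
        hJK, hKJ, hKI, hIK, cross_apply, dotProduct, Fin.sum_univ_three, Matrix.cons_val_zero,
        Matrix.cons_val_one, Matrix.cons_val_two, Matrix.head_cons, Matrix.tail_cons]
      module
    rw [Matrix.smul_mul, Matrix.mul_smul, smul_smul, h1, h2, Matrix.sub_mul, Matrix.smul_mul, Matrix.one_mul]
    module

end quat

section one

variable {g n m : ℕ} {A : AbVar g} (K : KSE A n m)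

/-! ### Spectral projections -/

theorem ext_T {M N : Matrix (Fin n) (Fin n) ℂ}
    (h : ∀ z : ℂ, aeval z K.P = 0 → ∀ v ∈ K.Tl z, M *ᵥ v = N *ᵥ v) : M = N := by
  refine E5L.mat_ext fun v => ?_
  have hle : (⨆ z ∈ {z : ℂ | aeval z K.P = 0}, K.Tl z) ≤ LinearMap.ker (Matrix.mulVecLin (M - N)) := by
    refine iSup₂_le fun z hz w hw => ?_
    rw [LinearMap.mem_ker, Matrix.mulVecLin_apply, Matrix.sub_mulVec, h z hz w hw, sub_self]
  have h3 := hle (E5L.top' K v)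
  rw [LinearMap.mem_ker, Matrix.mulVecLin_apply, Matrix.sub_mulVec] at h3
  exact sub_eq_zero.1 h3

theorem exists_proj (z : ℂ) : ∃ M : Matrix (Fin n) (Fin n) ℂ, (∀ v ∈ K.Tl z, M *ᵥ v = v) ∧
    ∀ w : ℂ, w ≠ z → ∀ v ∈ K.Tl w, M *ᵥ v = 0 := by
  obtain ⟨b, b', hb, hb', -, h1, -⟩ := DUAL.dual K z
  let M : Matrix (Fin n) (Fin n) ℂ := Matrix.of fun i k => ∑ j, b j i * ((K.q k : ℂ) * b' j k)
  have hM : ∀ v, M *ᵥ v = ∑ j, K.bil (b' j) v • b j := by
    intro v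
    funext i
    simp only [M, Matrix.mulVec, dotProduct, Matrix.of_apply, Finset.sum_apply, Pi.smul_apply, smul_eq_mul,
      KSE.bil, Finset.sum_mul]
    rw [Finset.sum_comm]
    exact Finset.sum_congr rfl fun j _ => Finset.sum_congr rfl fun k _ => by ring
  refine ⟨M, fun v hv => by rw [hM, h1 v hv], fun w hw v hv => ?_⟩
  rw [hM]
  refine Finset.sum_eq_zero fun j _ => ?_
  rw [E5L.orth K (Ne.symm hw) (hb' j) hv, zero_smul]

/-- The spectral projection. -/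
def Pj (z : ℂ) : Matrix (Fin n) (Fin n) ℂ := (exists_proj K z).choose

theorem Pj_same {z : ℂ} {v : Fin n → ℂ} (hv : v ∈ K.Tl z) : Pj K z *ᵥ v = v :=
  (exists_proj K z).choose_spec.1 v hv

theorem Pj_ne {z w : ℂ} (h : w ≠ z) {v : Fin n → ℂ} (hv : v ∈ K.Tl w) : Pj K z *ᵥ v = 0 :=
  (exists_proj K z).choose_spec.2 w h v hv

theorem Pj_comm {a : Matrix (Fin n) (Fin n) ℂ} (ha : a ∈ K.S) (z : ℂ) : a * Pj K z = Pj K z * a := by
  refine ext_T K fun w hw v hv => ?_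
  rw [← Matrix.mulVec_mulVec, ← Matrix.mulVec_mulVec]
  by_cases h : w = z
  · subst h
    rw [Pj_same K hv, Pj_same K (E5L.S_pres K ha hv)]
  · rw [Pj_ne K h hv, Pj_ne K h (E5L.S_pres K ha hv), Matrix.mulVec_zero]

theorem Pj_idem (z : ℂ) : Pj K z * Pj K z = Pj K z := by
  refine ext_T K fun w hw v hv => ?_
  rw [← Matrix.mulVec_mulVec]
  by_cases h : w = z
  · subst h
    rw [Pj_same K hv, Pj_same K hv]
  · rw [Pj_ne K h hv, Matrix.mulVec_zero]

theorem Pj_orth {z z' : ℂ} (hz : z ≠ z') : Pj K z * Pj K z' = 0 := by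
  refine ext_T K fun w hw v hv => ?_
  rw [← Matrix.mulVec_mulVec, Matrix.zero_mulVec]
  by_cases h : w = z'
  · subst h
    rw [Pj_same K hv, Pj_ne K (Ne.symm hz) hv]
  · rw [Pj_ne K h hv, Matrix.mulVec_zero]

theorem Pj_mem_Tl {z : ℂ} (v : Fin n → ℂ) : Pj K z *ᵥ v ∈ K.Tl z := by
  have hle : (⨆ z ∈ {z : ℂ | aeval z K.P = 0}, K.Tl z) ≤ (K.Tl z).comap (Matrix.mulVecLin (Pj K z)) := by
    refine iSup₂_le fun w hw u hu => ?_
    rw [Submodule.mem_comap, Matrix.mulVecLin_apply]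
    by_cases h : w = z
    · subst h
      rw [Pj_same K hu]; exact hu
    · rw [Pj_ne K h hu]; exact Submodule.zero_mem _
  exact hle (E5L.top' K v)

/-- The component of an element of `S` belongs to `S`. -/
theorem mul_Pj_mem {a : Matrix (Fin n) (Fin n) ℂ} (ha : a ∈ K.S) (z : ℂ) : a * Pj K z ∈ K.S := by
  obtain ⟨b, b', hb, hb', -, h1, h2⟩ := DUAL.dual K z
  obtain ⟨h3, h4⟩ := DUAL.comp K ha z b b' hb hb' h1 h2
  have h5 : a * Pj K z = ∑ j, (1 / 2 : ℂ) • E5L.wm K (a *ᵥ b j) (b' j) := by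
    refine ext_T K fun w hw v hv => ?_
    rw [← Matrix.mulVec_mulVec]
    by_cases h : w = z
    · subst h
      rw [Pj_same K hv, h3 v hv]
    · rw [Pj_ne K h hv, Matrix.mulVec_zero, h4 w h v hv]
  rw [h5]
  exact Submodule.sum_mem _ fun j _ => Submodule.smul_mem _ _ (E5L.wm_mem K (E5L.S_pres K ha (hb j)) (hb' j))

/-! ### Frames -/

/-- Orthonormal frames of `T_z`, three or four vectors. -/
structure Fr (z : ℂ) (v : Fin 4 → (Fin n → ℂ)) (ε : ℂ) (e : Matrix (Idx g) (Idx g) ℂ) : Prop where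
  mem : ∀ i, v i ∈ K.Tl z
  n0 : K.bil (v 0) (v 0) = 1
  n1 : K.bil (v 1) (v 1) = 1
  n2 : K.bil (v 2) (v 2) = 1
  o01 : K.bil (v 0) (v 1) = 0
  o02 : K.bil (v 0) (v 2) = 0
  o12 : K.bil (v 1) (v 2) = 0
  o03 : K.bil (v 0) (v 3) = 0
  o13 : K.bil (v 1) (v 3) = 0
  o23 : K.bil (v 2) (v 3) = 0
  sp : ∀ u ∈ K.Tl z, u = K.bil (v 0) u • v 0 + K.bil (v 1) u • v 1 + K.bil (v 2) u • v 2 +
    K.bil (v 3) u • v 3
  cs : (v 3 = 0 ∧ ε = 0 ∧ e = 1) ∨ (K.bil (v 3) (v 3) = 1 ∧ ε * ε = 1 ∧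
    e = (1 / 2 : ℂ) • (1 + ε • (K.cl (v 0) * K.cl (v 1) * K.cl (v 2) * K.cl (v 3))))

/-- The coordinates. -/
def X (v : Fin 4 → (Fin n → ℂ)) (ε : ℂ) : Matrix (Fin n) (Fin n) ℂ →ₗ[ℂ] (Fin 3 → ℂ) where
  toFun a := ![-(K.bil (v 1) (a *ᵥ v 2) - ε * K.bil (v 0) (a *ᵥ v 3)),
    -(K.bil (v 2) (a *ᵥ v 0) - ε * K.bil (v 1) (a *ᵥ v 3)),
    -(K.bil (v 0) (a *ᵥ v 1) - ε * K.bil (v 2) (a *ᵥ v 3))]
  map_add' a b := by
    ext i
    fin_cases i <;>
    · simp [Matrix.add_mulVec, E5X.bil_add_right]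
      ring
  map_smul' c a := by
    ext i
    fin_cases i <;>
    · simp [Matrix.smul_mulVec, E5X.bil_smul_right]
      ring

theorem X0 (v : Fin 4 → (Fin n → ℂ)) (ε : ℂ) (a : Matrix (Fin n) (Fin n) ℂ) :
    X K v ε a 0 = -(K.bil (v 1) (a *ᵥ v 2) - ε * K.bil (v 0) (a *ᵥ v 3)) := rfl

theorem X1 (v : Fin 4 → (Fin n → ℂ)) (ε : ℂ) (a : Matrix (Fin n) (Fin n) ℂ) :
    X K v ε a 1 = -(K.bil (v 2) (a *ᵥ v 0) - ε * K.bil (v 1) (a *ᵥ v 3)) := rfl

theorem X2 (v : Fin 4 → (Fin n → ℂ)) (ε : ℂ) (a : Matrix (Fin n) (Fin n) ℂ) :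
    X K v ε a 2 = -(K.bil (v 0) (a *ᵥ v 1) - ε * K.bil (v 2) (a *ᵥ v 3)) := rfl

/-- The quaternions. -/
def PP (v : Fin 4 → (Fin n → ℂ)) (e : Matrix (Idx g) (Idx g) ℂ) :
    (Fin 3 → ℂ) →ₗ[ℂ] Matrix (Idx g) (Idx g) ℂ where
  toFun u := -(1 / 2 : ℂ) • ((u 0 • (K.cl (v 1) * K.cl (v 2)) + u 1 • (K.cl (v 2) * K.cl (v 0)) +
    u 2 • (K.cl (v 0) * K.cl (v 1))) * e)
  map_add' u u' := by
    simp only [Pi.add_apply, Matrix.add_mul, Matrix.smul_mul]
    module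
  map_smul' c u := by
    simp only [Pi.smul_apply, Matrix.add_mul, Matrix.smul_mul, RingHom.id_apply, smul_eq_mul]
    module

theorem PP_apply (v : Fin 4 → (Fin n → ℂ)) (e : Matrix (Idx g) (Idx g) ℂ) (u : Fin 3 → ℂ) :
    PP K v e u = -(1 / 2 : ℂ) • ((u 0 • (K.cl (v 1) * K.cl (v 2)) + u 1 • (K.cl (v 2) * K.cl (v 0)) +
      u 2 • (K.cl (v 0) * K.cl (v 1))) * e) := rfl

/-- The spin structure of a frame. -/
def mk (v : Fin 4 → (Fin n → ℂ)) (ε : ℂ) (e : Matrix (Idx g) (Idx g) ℂ) : Spin g n where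
  x := X K v ε
  e := e
  P := PP K v e

end one

end H1X

end

end Pool.Agent.K3M
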