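import Pool.Agent.K3M.H1a
import Pool.Agent.K3E.E5a

/-!
# Spin structures of the factors with real multiplication, `m = 3` or `m = 4`: Clifford computations
-/

open scoped BigOperators
open Matrix Polynomial

namespace Pool.Agent.K3M

open Pool.Agent.DRB Pool.Agent.K3D Pool.Agent.K3E Pool.Agent.K3C Pool.Agent.K3P

noncomputable section

namespace H1X

section cliff

variable {κ : Type} [Fintype κ] [DecidableEq κ]

/-- Clifford relations of a frame. -/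
structure CR (c0 c1 c2 c3 : Matrix κ κ ℂ) (ε : ℂ) (e : Matrix κ κ ℂ) : Prop where
  h00 : c0 * c0 = 1
  h11 : c1 * c1 = 1
  h22 : c2 * c2 = 1
  h10 : c1 * c0 = -(c0 * c1)
  h20 : c2 * c0 = -(c0 * c2)
  h21 : c2 * c1 = -(c1 * c2)
  cs : (c3 = 0 ∧ ε = 0 ∧ e = 1) ∨ (c3 * c3 = 1 ∧ c3 * c0 = -(c0 * c3) ∧ c3 * c1 = -(c1 * c3) ∧
    c3 * c2 = -(c2 * c3) ∧ ε * ε = 1 ∧ e = (1 / 2 : ℂ) • (1 + ε • (c0 * c1 * c2 * c3)))

theorem tail_sq {a : Matrix κ κ ℂ} (h : a * a = 1) (x : Matrix κ κ ℂ) : a * (a * x) = x := by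
  rw [← Matrix.mul_assoc, h, Matrix.one_mul]

theorem tail_anti {a b : Matrix κ κ ℂ} (h : a * b = -(b * a)) (x : Matrix κ κ ℂ) :
    a * (b * x) = -(b * (a * x)) := by
  rw [← Matrix.mul_assoc, h, Matrix.neg_mul, Matrix.mul_assoc]

variable {c0 c1 c2 c3 : Matrix κ κ ℂ} {ε : ℂ} {e : Matrix κ κ ℂ}

theorem CR.idem (h : CR c0 c1 c2 c3 ε e) : e * e = e := by
  rcases h.cs with ⟨-, -, he⟩ | ⟨h33, h30, h31, h32, hε, he⟩
  · rw [he, Matrix.one_mul]
  · have hw : (c0 * c1 * c2 * c3) * (c0 * c1 * c2 * c3) = 1 := by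
      simp only [Matrix.mul_assoc, tail_sq h.h00, tail_sq h.h11, tail_sq h.h22, tail_anti h.h10,
        tail_anti h.h20, tail_anti h.h21, tail_anti h30, tail_anti h31, tail_anti h32, h33,
        Matrix.mul_neg, neg_neg]
      try simp only [h.h22, h.h11, h.h00, neg_neg]
    rw [he]
    have h1 : ((1 / 2 : ℂ) • (1 + ε • (c0 * c1 * c2 * c3))) * ((1 / 2 : ℂ) • (1 + ε • (c0 * c1 * c2 * c3))) =
        (1 / 4 : ℂ) • (1 + (2 * ε) • (c0 * c1 * c2 * c3) +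
          (ε * ε) • ((c0 * c1 * c2 * c3) * (c0 * c1 * c2 * c3))) := by
      simp only [Matrix.smul_mul, Matrix.mul_smul, Matrix.add_mul, Matrix.mul_add, Matrix.one_mul,
        Matrix.mul_one]
      module
    rw [h1, hw, hε]
    module

/-- an element commuting with the even words commutes with `e` -/
theorem CR.e_comm_of (h : CR c0 c1 c2 c3 ε e) {M : Matrix κ κ ℂ}
    (hM : M * (c0 * c1 * c2 * c3) = (c0 * c1 * c2 * c3) * M) : M * e = e * M := by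
  rcases h.cs with ⟨-, -, he⟩ | ⟨h33, h30, h31, h32, hε, he⟩
  · rw [he, Matrix.mul_one, Matrix.one_mul]
  · rw [he, Matrix.mul_smul, Matrix.smul_mul, Matrix.mul_add, Matrix.add_mul, Matrix.mul_smul,
      Matrix.smul_mul, hM, Matrix.mul_one, Matrix.one_mul]

theorem CR.e12 (h : CR c0 c1 c2 c3 ε e) : (c1 * c2) * e = e * (c1 * c2) := by
  rcases h.cs with ⟨-, -, he⟩ | ⟨h33, h30, h31, h32, hε, he⟩
  · rw [he, Matrix.mul_one, Matrix.one_mul]
  · refine h.e_comm_of ?_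
    simp only [Matrix.mul_assoc, tail_sq h.h00, tail_sq h.h11, tail_sq h.h22, tail_anti h.h10,
        tail_anti h.h20, tail_anti h.h21, tail_anti h30, tail_anti h31, tail_anti h32, h33, h.h22, h.h11, h.h00,
        h.h10, h.h20, h.h21, h30, h31, h32, Matrix.mul_neg, neg_neg, Matrix.neg_mul]

theorem CR.e20 (h : CR c0 c1 c2 c3 ε e) : (c2 * c0) * e = e * (c2 * c0) := by
  rcases h.cs with ⟨-, -, he⟩ | ⟨h33, h30, h31, h32, hε, he⟩
  · rw [he, Matrix.mul_one, Matrix.one_mul]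
  · refine h.e_comm_of ?_
    simp only [Matrix.mul_assoc, tail_sq h.h00, tail_sq h.h11, tail_sq h.h22, tail_anti h.h10,
        tail_anti h.h20, tail_anti h.h21, tail_anti h30, tail_anti h31, tail_anti h32, h33, h.h22, h.h11, h.h00,
        h.h10, h.h20, h.h21, h30, h31, h32, Matrix.mul_neg, neg_neg, Matrix.neg_mul]

theorem CR.e01 (h : CR c0 c1 c2 c3 ε e) : (c0 * c1) * e = e * (c0 * c1) := by
  rcases h.cs with ⟨-, -, he⟩ | ⟨h33, h30, h31, h32, hε, he⟩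
  · rw [he, Matrix.mul_one, Matrix.one_mul]
  · refine h.e_comm_of ?_
    simp only [Matrix.mul_assoc, tail_sq h.h00, tail_sq h.h11, tail_sq h.h22, tail_anti h.h10,
        tail_anti h.h20, tail_anti h.h21, tail_anti h30, tail_anti h31, tail_anti h32, h33, h.h22, h.h11, h.h00,
        h.h10, h.h20, h.h21, h30, h31, h32, Matrix.mul_neg, neg_neg, Matrix.neg_mul]

theorem CR.e03 (h : CR c0 c1 c2 c3 ε e) : (c0 * c3) * e = e * (c0 * c3) := by
  rcases h.cs with ⟨-, -, he⟩ | ⟨h33, h30, h31, h32, hε, he⟩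
  · rw [he, Matrix.mul_one, Matrix.one_mul]
  · refine h.e_comm_of ?_
    simp only [Matrix.mul_assoc, tail_sq h.h00, tail_sq h.h11, tail_sq h.h22, tail_anti h.h10,
        tail_anti h.h20, tail_anti h.h21, tail_anti h30, tail_anti h31, tail_anti h32, h33, h.h22, h.h11, h.h00,
        h.h10, h.h20, h.h21, h30, h31, h32, Matrix.mul_neg, neg_neg, Matrix.neg_mul]

theorem CR.e13 (h : CR c0 c1 c2 c3 ε e) : (c1 * c3) * e = e * (c1 * c3) := by
  rcases h.cs with ⟨-, -, he⟩ | ⟨h33, h30, h31, h32, hε, he⟩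
  · rw [he, Matrix.mul_one, Matrix.one_mul]
  · refine h.e_comm_of ?_
    simp only [Matrix.mul_assoc, tail_sq h.h00, tail_sq h.h11, tail_sq h.h22, tail_anti h.h10,
        tail_anti h.h20, tail_anti h.h21, tail_anti h30, tail_anti h31, tail_anti h32, h33, h.h22, h.h11, h.h00,
        h.h10, h.h20, h.h21, h30, h31, h32, Matrix.mul_neg, neg_neg, Matrix.neg_mul]

theorem CR.e23 (h : CR c0 c1 c2 c3 ε e) : (c2 * c3) * e = e * (c2 * c3) := by
  rcases h.cs with ⟨-, -, he⟩ | ⟨h33, h30, h31, h32, hε, he⟩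
  · rw [he, Matrix.mul_one, Matrix.one_mul]
  · refine h.e_comm_of ?_
    simp only [Matrix.mul_assoc, tail_sq h.h00, tail_sq h.h11, tail_sq h.h22, tail_anti h.h10,
        tail_anti h.h20, tail_anti h.h21, tail_anti h30, tail_anti h31, tail_anti h32, h33, h.h22, h.h11, h.h00,
        h.h10, h.h20, h.h21, h30, h31, h32, Matrix.mul_neg, neg_neg, Matrix.neg_mul]

theorem CR.qrel (h : CR c0 c1 c2 c3 ε e) {P : (Fin 3 → ℂ) →ₗ[ℂ] Matrix κ κ ℂ}
    (hP : ∀ u, P u = -(1 / 2 : ℂ) • ((u 0 • (c1 * c2) + u 1 • (c2 * c0) + u 2 • (c0 * c1)) * e)) :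
    QRel e P := by
  refine qrel_of (I := c1 * c2) (J := c2 * c0) (K := c0 * c1) ?_ ?_ ?_ ?_ ?_ ?_ ?_ ?_ ?_ h.idem
    h.e12.symm h.e20.symm h.e01.symm hP
  all_goals
    simp only [Matrix.mul_assoc, tail_sq h.h00, tail_sq h.h11, tail_sq h.h22, tail_anti h.h10,
        tail_anti h.h20, tail_anti h.h21, h.h22, h.h11, h.h00,
        h.h10, h.h20, h.h21, Matrix.mul_neg, neg_neg, Matrix.neg_mul, Matrix.mul_one]

theorem CR.we (h : CR c0 c1 c2 c3 ε e) : (c0 * c1 * c2 * c3) * e = ε • e := by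
  rcases h.cs with ⟨h3, hε, -⟩ | ⟨h33, h30, h31, h32, hε, he⟩
  · rw [h3, hε, Matrix.mul_zero, Matrix.zero_mul, zero_smul]
  · have hw : (c0 * c1 * c2 * c3) * (c0 * c1 * c2 * c3) = 1 := by
      simp only [Matrix.mul_assoc, tail_sq h.h00, tail_sq h.h11, tail_sq h.h22, tail_anti h.h10,
        tail_anti h.h20, tail_anti h.h21, tail_anti h30, tail_anti h31, tail_anti h32, h33,
        Matrix.mul_neg, neg_neg]
      try simp only [h.h22, h.h11, h.h00, neg_neg]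
    have h2 : ε • ((1 / 2 : ℂ) • (1 + ε • (c0 * c1 * c2 * c3))) =
        (1 / 2 : ℂ) • (ε • 1 + (ε * ε) • (c0 * c1 * c2 * c3)) := by module
    rw [he, Matrix.mul_smul, Matrix.mul_add, Matrix.mul_smul, hw, Matrix.mul_one, h2, hε]
    module

theorem CR.f0 (h : CR c0 c1 c2 c3 ε e) : c0 * c3 * e = -ε • (c1 * c2 * e) := by
  rcases h.cs with ⟨h3, hε, -⟩ | ⟨h33, h30, h31, h32, hε, he⟩
  · rw [h3, hε, Matrix.mul_zero, Matrix.zero_mul, neg_zero, zero_smul]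
  · have h1 : c0 * c3 = -((c1 * c2) * (c0 * c1 * c2 * c3)) := by
      simp only [Matrix.mul_assoc, tail_sq h.h00, tail_sq h.h11, tail_sq h.h22, tail_anti h.h10,
        tail_anti h.h20, tail_anti h.h21, h.h22, h.h11, h.h00,
        h.h10, h.h20, h.h21, Matrix.mul_neg, neg_neg, Matrix.neg_mul]
    rw [h1, Matrix.neg_mul, Matrix.mul_assoc, h.we, Matrix.mul_smul, neg_smul]

theorem CR.f1 (h : CR c0 c1 c2 c3 ε e) : c1 * c3 * e = -ε • (c2 * c0 * e) := by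
  rcases h.cs with ⟨h3, hε, -⟩ | ⟨h33, h30, h31, h32, hε, he⟩
  · rw [h3, hε, Matrix.mul_zero, Matrix.zero_mul, neg_zero, zero_smul]
  · have h1 : c1 * c3 = -((c2 * c0) * (c0 * c1 * c2 * c3)) := by
      simp only [Matrix.mul_assoc, tail_sq h.h00, tail_sq h.h11, tail_sq h.h22, tail_anti h.h10,
        tail_anti h.h20, tail_anti h.h21, h.h22, h.h11, h.h00,
        h.h10, h.h20, h.h21, Matrix.mul_neg, neg_neg, Matrix.neg_mul]
    rw [h1, Matrix.neg_mul, Matrix.mul_assoc, h.we, Matrix.mul_smul, neg_smul]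

theorem CR.f2 (h : CR c0 c1 c2 c3 ε e) : c2 * c3 * e = -ε • (c0 * c1 * e) := by
  rcases h.cs with ⟨h3, hε, -⟩ | ⟨h33, h30, h31, h32, hε, he⟩
  · rw [h3, hε, Matrix.mul_zero, Matrix.zero_mul, neg_zero, zero_smul]
  · have h1 : c2 * c3 = -((c0 * c1) * (c0 * c1 * c2 * c3)) := by
      simp only [Matrix.mul_assoc, tail_sq h.h00, tail_sq h.h11, tail_sq h.h22, tail_anti h.h10,
        tail_anti h.h20, tail_anti h.h21, h.h22, h.h11, h.h00,
        h.h10, h.h20, h.h21, Matrix.mul_neg, neg_neg, Matrix.neg_mul]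
    rw [h1, Matrix.neg_mul, Matrix.mul_assoc, h.we, Matrix.mul_smul, neg_smul]

/-- nonvanishing -/
theorem CR.mul_ne (h : CR c0 c1 c2 c3 ε e) {E : Matrix κ κ ℂ} (hE : E ≠ 0) (hc : E * c0 = c0 * E) :
    E * e ≠ 0 := by
  rcases h.cs with ⟨-, -, he⟩ | ⟨h33, h30, h31, h32, hε, he⟩
  · rw [he, Matrix.mul_one]; exact hE
  · intro h0
    apply hE
    have hw0 : (c0 * c1 * c2 * c3) * c0 = -(c0 * (c0 * c1 * c2 * c3)) := by
      simp only [Matrix.mul_assoc, tail_sq h.h00, tail_anti h.h10,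
        tail_anti h.h20, h.h00, h.h10, h.h20, h30, Matrix.mul_neg, neg_neg, Matrix.neg_mul]
    have h1 : E + ε • (E * (c0 * c1 * c2 * c3)) = 0 := by
      have h2 : (2 : ℂ) • (E * e) = E + ε • (E * (c0 * c1 * c2 * c3)) := by
        rw [he, Matrix.mul_smul, smul_smul, Matrix.mul_add, Matrix.mul_one, Matrix.mul_smul]
        norm_num
      rw [← h2, h0, smul_zero]
    have h3 : E * c0 = 0 := by
      have h4 : (E + ε • (E * (c0 * c1 * c2 * c3))) * c0 = 0 := by rw [h1, Matrix.zero_mul]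
      have h5 : c0 * (E + ε • (E * (c0 * c1 * c2 * c3))) = 0 := by rw [h1, Matrix.mul_zero]
      rw [Matrix.add_mul, Matrix.smul_mul, Matrix.mul_assoc, hw0, Matrix.mul_neg, ← Matrix.mul_assoc E,
        hc, Matrix.mul_assoc c0 E] at h4
      rw [Matrix.mul_add, Matrix.mul_smul] at h5
      rw [hc]
      have h6 : (2 : ℂ) • (c0 * E) = 0 := by
        calc (2 : ℂ) • (c0 * E) = (c0 * E + ε • -(c0 * (E * (c0 * c1 * c2 * c3)))) +
              (c0 * E + ε • (c0 * (E * (c0 * c1 * c2 * c3)))) := by module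
          _ = 0 := by rw [h4, h5, add_zero]
      exact (smul_eq_zero.1 h6).resolve_left two_ne_zero
    calc E = E * (c0 * c0) := by rw [h.h00, Matrix.mul_one]
      _ = 0 := by rw [← Matrix.mul_assoc, h3, Matrix.zero_mul]

end cliff

section one

variable {g n m : ℕ} {A : AbVar g} (K : KSE A n m)

theorem Fr.cr {z : ℂ} {v : Fin 4 → (Fin n → ℂ)} {ε : ℂ} {e : Matrix (Idx g) (Idx g) ℂ}
    (F : Fr K z v ε e) : CR (K.cl (v 0)) (K.cl (v 1)) (K.cl (v 2)) (K.cl (v 3)) ε e := by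
  have hr := E5X.rel K
  have hb : ∀ x y, K.bil x y = K.bil y x := E5X.bil_comm K
  refine ⟨?_, ?_, ?_, ?_, ?_, ?_, ?_⟩
  · rw [E5X.sq hr, F.n0, one_smul]
  · rw [E5X.sq hr, F.n1, one_smul]
  · rw [E5X.sq hr, F.n2, one_smul]
  · exact E5X.anti hr _ _ (by rw [hb, F.o01])
  · exact E5X.anti hr _ _ (by rw [hb, F.o02])
  · exact E5X.anti hr _ _ (by rw [hb, F.o12])
  · rcases F.cs with ⟨h3, hε, he⟩ | ⟨h33, hε, he⟩
    · exact Or.inl ⟨by rw [h3, E5X.cl_zero], hε, he⟩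
    · exact Or.inr ⟨by rw [E5X.sq hr, h33, one_smul], E5X.anti hr _ _ (by rw [hb, F.o03]),
        E5X.anti hr _ _ (by rw [hb, F.o13]), E5X.anti hr _ _ (by rw [hb, F.o23]), hε, he⟩

theorem Fr.rel {z : ℂ} {v : Fin 4 → (Fin n → ℂ)} {ε : ℂ} {e : Matrix (Idx g) (Idx g) ℂ}
    (F : Fr K z v ε e) : QRel e (PP K v e) := (F.cr K).qrel (PP_apply K v e)

theorem Fr.e_ne {z : ℂ} {v : Fin 4 → (Fin n → ℂ)} {ε : ℂ} {e : Matrix (Idx g) (Idx g) ℂ}
    (F : Fr K z v ε e) : e ≠ 0 := by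
  have h := (F.cr K).mul_ne (E5X.one_ne K.pos) (by rw [Matrix.one_mul, Matrix.mul_one])
  rwa [Matrix.one_mul] at h

/-- the component at `z` in terms of a frame -/
theorem Fr.dec {z : ℂ} {v : Fin 4 → (Fin n → ℂ)} {ε : ℂ} {e : Matrix (Idx g) (Idx g) ℂ}
    (F : Fr K z v ε e) {a : Matrix (Fin n) (Fin n) ℂ} (ha : a ∈ K.S) :
    a * Pj K z = K.bil (v 0) (a *ᵥ v 1) • E5L.wm K (v 0) (v 1) +
      K.bil (v 1) (a *ᵥ v 2) • E5L.wm K (v 1) (v 2) + K.bil (v 2) (a *ᵥ v 0) • E5L.wm K (v 2) (v 0) +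
      K.bil (v 0) (a *ᵥ v 3) • E5L.wm K (v 0) (v 3) + K.bil (v 1) (a *ᵥ v 3) • E5L.wm K (v 1) (v 3) +
      K.bil (v 2) (a *ᵥ v 3) • E5L.wm K (v 2) (v 3) := by
  refine ext_T K fun w hw u hu => ?_
  rw [← Matrix.mulVec_mulVec]
  simp only [Matrix.add_mulVec, Matrix.smul_mulVec, E5L.wm_mulVec]
  by_cases h : w = z
  · subst h
    rw [Pj_same K hu]
    have hsk : ∀ x y, K.bil x (a *ᵥ y) = -K.bil y (a *ᵥ x) := by
      intro x y
      rw [E5X.bil_comm K x, DUAL.bil_skew K ha]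
    have h0 : ∀ x, K.bil x (a *ᵥ x) = 0 := by
      intro x
      have h1 := hsk x x
      linear_combination (1 / 2 : ℂ) * h1
    have hc : ∀ i : Fin 4, K.bil (v i) (a *ᵥ u) = K.bil (v 0) u * K.bil (v i) (a *ᵥ v 0) +
        K.bil (v 1) u * K.bil (v i) (a *ᵥ v 1) + K.bil (v 2) u * K.bil (v i) (a *ᵥ v 2) +
        K.bil (v 3) u * K.bil (v i) (a *ᵥ v 3) := by
      intro i
      conv_lhs => rw [F.sp u hu]
      rw [Matrix.mulVec_add, Matrix.mulVec_add, Matrix.mulVec_add, Matrix.mulVec_smul, Matrix.mulVec_smul,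
        Matrix.mulVec_smul, Matrix.mulVec_smul, E5X.bil_add_right, E5X.bil_add_right, E5X.bil_add_right,
        E5X.bil_smul_right, E5X.bil_smul_right, E5X.bil_smul_right, E5X.bil_smul_right]
    rw [F.sp _ (E5L.S_pres K ha hu), hc, hc, hc, hc, h0, h0, h0, h0, hsk (v 1) (v 0), hsk (v 0) (v 2),
      hsk (v 2) (v 1), hsk (v 3) (v 0), hsk (v 3) (v 1), hsk (v 3) (v 2)]
    module
  · rw [Pj_ne K h hu, Matrix.mulVec_zero]
    have h1 : ∀ i, K.bil (v i) u = 0 := fun i => E5L.orth K (Ne.symm h) (F.mem i) hu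
    simp only [h1, zero_smul, sub_zero, smul_zero, add_zero]

/-- the lift of the component -/
theorem Fr.Zdec {z : ℂ} {v : Fin 4 → (Fin n → ℂ)} {ε : ℂ} {e : Matrix (Idx g) (Idx g) ℂ}
    (F : Fr K z v ε e) {a : Matrix (Fin n) (Fin n) ℂ} (ha : a ∈ K.S) :
    K.Z (a * Pj K z) = (1 / 2 : ℂ) • (K.bil (v 0) (a *ᵥ v 1) • (K.cl (v 0) * K.cl (v 1)) +
      K.bil (v 1) (a *ᵥ v 2) • (K.cl (v 1) * K.cl (v 2)) +
      K.bil (v 2) (a *ᵥ v 0) • (K.cl (v 2) * K.cl (v 0)) +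
      K.bil (v 0) (a *ᵥ v 3) • (K.cl (v 0) * K.cl (v 3)) +
      K.bil (v 1) (a *ᵥ v 3) • (K.cl (v 1) * K.cl (v 3)) +
      K.bil (v 2) (a *ᵥ v 3) • (K.cl (v 2) * K.cl (v 3))) := by
  rw [F.dec K ha]
  simp only [E5X.Z_add, E5X.Z_smul, E10B.Z_wm, F.o01, F.o12, F.o03, F.o13, F.o23, E5X.bil_comm K (v 2) (v 0),
    F.o02, zero_smul, sub_zero]
  module

theorem Fr.Zx {z : ℂ} {v : Fin 4 → (Fin n → ℂ)} {ε : ℂ} {e : Matrix (Idx g) (Idx g) ℂ}
    (F : Fr K z v ε e) {a : Matrix (Fin n) (Fin n) ℂ} (ha : a ∈ K.S) :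
    K.Z (a * Pj K z) * e = PP K v e (X K v ε a) ∧ e * K.Z (a * Pj K z) = PP K v e (X K v ε a) := by
  have hc := F.cr K
  have h1 : K.Z (a * Pj K z) * e = PP K v e (X K v ε a) := by
    rw [F.Zdec K ha, PP_apply, X0, X1, X2]
    simp only [Matrix.smul_mul, Matrix.add_mul, hc.f0, hc.f1, hc.f2]
    module
  refine ⟨h1, ?_⟩
  rw [← h1, F.Zdec K ha]
  simp only [Matrix.smul_mul, Matrix.add_mul, Matrix.mul_smul, Matrix.mul_add, hc.e01, hc.e12, hc.e20,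
    hc.e03, hc.e13, hc.e23]

theorem X_Pj {z : ℂ} {v : Fin 4 → (Fin n → ℂ)} {ε : ℂ} {e : Matrix (Idx g) (Idx g) ℂ}
    (F : Fr K z v ε e) (a : Matrix (Fin n) (Fin n) ℂ) : X K v ε (a * Pj K z) = X K v ε a := by
  have h1 : ∀ i, (a * Pj K z) *ᵥ v i = a *ᵥ v i := by
    intro i
    rw [← Matrix.mulVec_mulVec, Pj_same K (F.mem i)]
  funext k
  fin_cases k
  · show X K v ε (a * Pj K z) 0 = X K v ε a 0
    rw [X0, X0, h1, h1]
  · show X K v ε (a * Pj K z) 1 = X K v ε a 1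
    rw [X1, X1, h1, h1]
  · show X K v ε (a * Pj K z) 2 = X K v ε a 2
    rw [X2, X2, h1, h1]

theorem pr_brk {a b : Matrix (Fin n) (Fin n) ℂ} (ha : a ∈ K.S) (hb : b ∈ K.S) (z : ℂ) :
    (a * b - b * a) * Pj K z = a * Pj K z * (b * Pj K z) - b * Pj K z * (a * Pj K z) := by
  have h1 : ∀ {a b : Matrix (Fin n) (Fin n) ℂ}, a ∈ K.S → b ∈ K.S →
      a * Pj K z * (b * Pj K z) = a * b * Pj K z := by
    intro a b ha hb
    rw [Matrix.mul_assoc, ← Matrix.mul_assoc (Pj K z), ← Pj_comm K hb, Matrix.mul_assoc, Pj_idem,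
      ← Matrix.mul_assoc]
  rw [h1 ha hb, h1 hb ha, Matrix.sub_mul]

theorem Fr.brk {z : ℂ} {v : Fin 4 → (Fin n → ℂ)} {ε : ℂ} {e : Matrix (Idx g) (Idx g) ℂ}
    (F : Fr K z v ε e) {a b : Matrix (Fin n) (Fin n) ℂ} (ha : a ∈ K.S) (hb : b ∈ K.S) :
    X K v ε (a * b - b * a) = crossProduct (X K v ε a) (X K v ε b) := by
  have h1 := F.Zx K ha
  have h2 := F.Zx K hb
  have h3 := F.Zx K (E8C.comm_mem_S K ha hb)
  refine brk_of (F.rel K) (F.e_ne K) h1.1 h1.2 h2.1 h2.2 h3.1 ?_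
  rw [pr_brk K ha hb]
  exact GEX.Z_brk K E5a_proof (mul_Pj_mem K ha z) (mul_Pj_mem K hb z)

/-! ### Commutation -/

theorem Fr.com1 {z w : ℂ} (hw : w ≠ z) {v : Fin 4 → (Fin n → ℂ)} {ε : ℂ} {e : Matrix (Idx g) (Idx g) ℂ}
    (F : Fr K z v ε e) {x : Fin n → ℂ} (hx : x ∈ K.Tl w) :
    K.cl x * e = e * K.cl x ∧ ∀ u, K.cl x * PP K v e u = PP K v e u * K.cl x := by
  have hr := E5X.rel K
  have h1 : ∀ i, K.cl x * K.cl (v i) = -(K.cl (v i) * K.cl x) := fun i =>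
    E5X.anti hr _ _ (E5L.orth K hw hx (F.mem i))
  have h2 : ∀ i j, K.cl x * (K.cl (v i) * K.cl (v j)) = K.cl (v i) * K.cl (v j) * K.cl x := by
    intro i j
    rw [tail_anti (h1 i), h1 j, Matrix.mul_neg, neg_neg, Matrix.mul_assoc]
  have h3 : K.cl x * e = e * K.cl x := by
    refine (F.cr K).e_comm_of ?_
    calc K.cl x * (K.cl (v 0) * K.cl (v 1) * K.cl (v 2) * K.cl (v 3))
        = (K.cl x * (K.cl (v 0) * K.cl (v 1))) * (K.cl (v 2) * K.cl (v 3)) := by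
          simp only [Matrix.mul_assoc]
      _ = (K.cl (v 0) * K.cl (v 1)) * (K.cl x * (K.cl (v 2) * K.cl (v 3))) := by
          rw [h2]; simp only [Matrix.mul_assoc]
      _ = _ := by rw [h2]; simp only [Matrix.mul_assoc]
  refine ⟨h3, fun u => ?_⟩
  rw [PP_apply, Matrix.mul_smul, Matrix.smul_mul]
  congr 1
  have h4 : K.cl x * (u 0 • (K.cl (v 1) * K.cl (v 2)) + u 1 • (K.cl (v 2) * K.cl (v 0)) +
      u 2 • (K.cl (v 0) * K.cl (v 1))) = (u 0 • (K.cl (v 1) * K.cl (v 2)) + u 1 • (K.cl (v 2) * K.cl (v 0)) +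
      u 2 • (K.cl (v 0) * K.cl (v 1))) * K.cl x := by
    simp only [Matrix.mul_add, Matrix.add_mul, Matrix.mul_smul, Matrix.smul_mul, h2]
  rw [← Matrix.mul_assoc, h4, Matrix.mul_assoc, h3, Matrix.mul_assoc]

theorem Fr.com2 {z : ℂ} {v : Fin 4 → (Fin n → ℂ)} {ε : ℂ} {e : Matrix (Idx g) (Idx g) ℂ}
    (F : Fr K z v ε e) {M : Matrix (Idx g) (Idx g) ℂ} (hM : ∀ i, M * K.cl (v i) = K.cl (v i) * M) :
    M * e = e * M ∧ ∀ u, M * PP K v e u = PP K v e u * M := by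
  have h2 : ∀ i j, M * (K.cl (v i) * K.cl (v j)) = K.cl (v i) * K.cl (v j) * M := by
    intro i j
    rw [← Matrix.mul_assoc, hM, Matrix.mul_assoc, hM, ← Matrix.mul_assoc]
  have h3 : M * e = e * M := by
    refine (F.cr K).e_comm_of ?_
    calc M * (K.cl (v 0) * K.cl (v 1) * K.cl (v 2) * K.cl (v 3))
        = (M * (K.cl (v 0) * K.cl (v 1))) * (K.cl (v 2) * K.cl (v 3)) := by
          simp only [Matrix.mul_assoc]
      _ = (K.cl (v 0) * K.cl (v 1)) * (M * (K.cl (v 2) * K.cl (v 3))) := by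
          rw [h2]; simp only [Matrix.mul_assoc]
      _ = _ := by rw [h2]; simp only [Matrix.mul_assoc]
  refine ⟨h3, fun u => ?_⟩
  rw [PP_apply, Matrix.mul_smul, Matrix.smul_mul]
  congr 1
  have h4 : M * (u 0 • (K.cl (v 1) * K.cl (v 2)) + u 1 • (K.cl (v 2) * K.cl (v 0)) +
      u 2 • (K.cl (v 0) * K.cl (v 1))) = (u 0 • (K.cl (v 1) * K.cl (v 2)) + u 1 • (K.cl (v 2) * K.cl (v 0)) +
      u 2 • (K.cl (v 0) * K.cl (v 1))) * M := by
    simp only [Matrix.mul_add, Matrix.add_mul, Matrix.mul_smul, Matrix.smul_mul, h2]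
  rw [← Matrix.mul_assoc, h4, Matrix.mul_assoc, h3, Matrix.mul_assoc]

theorem Fr.qcomm {z w : ℂ} (hw : z ≠ w) {v : Fin 4 → (Fin n → ℂ)} {ε : ℂ} {e : Matrix (Idx g) (Idx g) ℂ}
    (F : Fr K z v ε e) {v' : Fin 4 → (Fin n → ℂ)} {ε' : ℂ} {e' : Matrix (Idx g) (Idx g) ℂ}
    (F' : Fr K w v' ε' e') : QComm e (PP K v e) e' (PP K v' e') := by
  have h1 : ∀ i, e * K.cl (v' i) = K.cl (v' i) * e := fun i =>
    ((F.com1 K hw.symm (F'.mem i)).1).symm
  have h2 : ∀ u i, PP K v e u * K.cl (v' i) = K.cl (v' i) * PP K v e u := fun u i =>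
    ((F.com1 K hw.symm (F'.mem i)).2 u).symm
  have h3 := F'.com2 K h1
  exact ⟨h3.1, fun u => h3.2 u, fun u => (F'.com2 K (h2 u)).1, fun u u' => (F'.com2 K (h2 u)).2 u'⟩

/-- the products of idempotents at different places do not vanish -/
theorem exists_E {ι : Type} [Fintype ι] [DecidableEq ι] (pl : ι → ℂ) (hpl : Function.Injective pl)
    (v : ι → Fin 4 → (Fin n → ℂ)) (ε : ι → ℂ) (e : ι → Matrix (Idx g) (Idx g) ℂ)
    (F : ∀ i, Fr K (pl i) (v i) (ε i) (e i)) :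
    ∃ E : Matrix (Idx g) (Idx g) ℂ, E ≠ 0 ∧ ∀ i, e i * E = E ∧ E * e i = E := by
  have key : ∀ R : Finset ι, ∃ E : Matrix (Idx g) (Idx g) ℂ, E ≠ 0 ∧ (∀ i ∈ R, e i * E = E ∧ E * e i = E) ∧
      ∀ i ∉ R, ∀ x ∈ K.Tl (pl i), E * K.cl x = K.cl x * E := by
    intro R
    induction R using Finset.induction_on with
    | empty =>
      exact ⟨1, E5X.one_ne K.pos, fun i hi => absurd hi (Finset.notMem_empty i), fun i _ x _ => by
        rw [Matrix.one_mul, Matrix.mul_one]⟩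
    | insert j R hj ih =>
      obtain ⟨E, hE, h1, h2⟩ := ih
      have h3 : E * e j = e j * E := ((F j).com2 K fun i => h2 j hj _ ((F j).mem i)).1
      refine ⟨E * e j, ((F j).cr K).mul_ne hE (h2 j hj _ ((F j).mem 0)), ?_, ?_⟩
      · intro i hi
        rcases Finset.mem_insert.1 hi with rfl | hi
        · constructor
          · rw [← Matrix.mul_assoc, ← h3, Matrix.mul_assoc, ((F i).rel K).idem]
          · rw [Matrix.mul_assoc, ((F i).rel K).idem]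
        · constructor
          · rw [← Matrix.mul_assoc, (h1 i hi).1]
          · rw [h3, Matrix.mul_assoc, (h1 i hi).2]
      · intro i hi x hx
        rw [Finset.mem_insert, not_or] at hi
        have h4 := ((F j).com1 K (fun h => hi.1 (hpl h)) hx).1
        rw [Matrix.mul_assoc, ← h4, ← Matrix.mul_assoc, h2 i hi.2 x hx, Matrix.mul_assoc]
  obtain ⟨E, hE, h1, -⟩ := key Finset.univ
  exact ⟨E, hE, fun i => h1 i (Finset.mem_univ i)⟩

end one

end H1X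

end

end Pool.Agent.K3M
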