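import Pool.Agent.K3M.H1b

/-!
# Spin structures of the factors with real multiplication, `m = 3` or `m = 4`: frames, conjugates, real elements
-/

open scoped BigOperators
open Matrix Polynomial

namespace Pool.Agent.K3M

open Pool.Agent.DRB Pool.Agent.K3D Pool.Agent.K3E Pool.Agent.K3C Pool.Agent.K3P

noncomputable section

namespace H1X

section one

variable {g n m : ℕ} {A : AbVar g} (K : KSE A n m)

/-- orthonormal bases of `T_z` -/
theorem exists_onb {z : ℂ} (hz : aeval z K.P = 0) : ∃ u : Fin m → (Fin n → ℂ), (∀ i, u i ∈ K.Tl z) ∧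
    (∀ i j, K.bil (u i) (u j) = if i = j then 1 else 0) ∧
    ∀ x ∈ K.Tl z, x = ∑ i, K.bil (u i) x • u i := by
  obtain ⟨k, b, hb, hinj, horth, hne, hspan, -⟩ := E5X.orth_basis K (K.Tl z)
    (fun v hv h => E5L.nondegT K hv h)
  have hc : ∀ i, ∃ c : ℂ, c * c = K.bil (b i) (b i) := by
    intro i
    obtain ⟨c, hc⟩ := IsAlgClosed.exists_pow_nat_eq (K.bil (b i) (b i)) (n := 2) (by norm_num)
    exact ⟨c, by rw [← hc, pow_two]⟩
  choose c hc using hc
  have hc0 : ∀ i, c i ≠ 0 := by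
    intro i h
    apply hne i
    rw [← hc i, h, mul_zero]
  let u : Fin k → (Fin n → ℂ) := fun i => (c i)⁻¹ • b i
  have hu : ∀ i, u i ∈ K.Tl z := fun i => Submodule.smul_mem _ _ (hb i)
  have huu : ∀ i j, K.bil (u i) (u j) = if i = j then 1 else 0 := by
    intro i j
    show K.bil ((c i)⁻¹ • b i) ((c j)⁻¹ • b j) = _
    rw [E5X.bil_smul_left, E5X.bil_smul_right]
    by_cases h : i = j
    · subst h
      rw [if_pos rfl, ← hc i]
      field_simp [hc0 i]
    · rw [if_neg h, horth i j h, mul_zero, mul_zero]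
  have hexp : ∀ x ∈ K.Tl z, x = ∑ i, K.bil (u i) x • u i := by
    intro x hx
    have h0 : x - ∑ i, K.bil (u i) x • u i = 0 := by
      have hmem : x - ∑ i, K.bil (u i) x • u i ∈ K.Tl z :=
        Submodule.sub_mem _ hx (Submodule.sum_mem _ fun i _ => Submodule.smul_mem _ _ (hu i))
      refine E5L.nondegT K hmem fun w hw => ?_
      have hb0 : ∀ j, K.bil (x - ∑ i, K.bil (u i) x • u i) (b j) = 0 := by
        intro j
        have hbj : b j = c j • u j := by
          show b j = c j • ((c j)⁻¹ • b j)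
          rw [smul_smul, mul_inv_cancel₀ (hc0 j), one_smul]
        rw [hbj, E5X.bil_smul_right]
        have h3 : K.bil (x - ∑ i, K.bil (u i) x • u i) (u j) = 0 := by
          have h4 : K.bil (∑ i, K.bil (u i) x • u i) (u j) = K.bil (u j) x := by
            rw [E5X.bil_comm K, ← E5X.bf_apply, map_sum, Finset.sum_eq_single j]
            · rw [map_smul, E5X.bf_apply, huu, if_pos rfl, smul_eq_mul, mul_one]
            · intro i _ hij
              rw [map_smul, E5X.bf_apply, huu, if_neg (Ne.symm hij), smul_zero]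
            · intro h; exact absurd (Finset.mem_univ j) h
          rw [E5X.bil_comm K, ← E5X.bf_apply, map_sub, E5X.bf_apply, E5X.bf_apply,
            E5X.bil_comm K (u j) (∑ i, K.bil (u i) x • u i), h4, sub_self]
        rw [h3, mul_zero]
      have hle : Submodule.span ℂ (Set.range b) ≤
          LinearMap.ker (E5X.bf K (x - ∑ i, K.bil (u i) x • u i)) := by
        rw [Submodule.span_le]
        rintro _ ⟨j, rfl⟩
        exact hb0 j
      exact hle (hspan w hw)
    exact sub_eq_zero.1 h0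
  have hli : LinearIndependent ℂ u := by
    rw [Fintype.linearIndependent_iff]
    intro a ha i
    have h1 : K.bil (u i) (∑ j, a j • u j) = a i := by
      rw [← E5X.bf_apply, map_sum, Finset.sum_eq_single i]
      · rw [map_smul, E5X.bf_apply, huu, if_pos rfl, smul_eq_mul, mul_one]
      · intro j _ hji
        rw [map_smul, E5X.bf_apply, huu, if_neg (Ne.symm hji), smul_zero]
      · intro h; exact absurd (Finset.mem_univ i) h
    rw [ha] at h1
    rw [← h1, ← E5X.bf_apply, map_zero]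
  have hsp : Submodule.span ℂ (Set.range u) = K.Tl z := by
    apply le_antisymm
    · rw [Submodule.span_le]
      rintro _ ⟨j, rfl⟩
      exact hu j
    · intro x hx
      rw [hexp x hx]
      exact Submodule.sum_mem _ fun i _ => Submodule.smul_mem _ _ (Submodule.subset_span ⟨i, rfl⟩)
  have hk : k = m := by
    have h1 := finrank_span_eq_card hli
    rw [hsp, E5L.finrank_Tl K hz, Fintype.card_fin] at h1
    exact h1.symm
  subst hk
  exact ⟨u, hu, huu, hexp⟩

/-- conjugates of matrices -/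
theorem map_mulVec' (σ : ℂ ≃ₐ[ℚ] ℂ) (a : Matrix (Fin n) (Fin n) ℂ) (v : Fin n → ℂ) :
    (fun i => σ ((a.map σ.symm *ᵥ v) i)) = a *ᵥ fun i => σ (v i) := by
  funext i
  simp [Matrix.mulVec, dotProduct, map_sum]

theorem Fr.map {z : ℂ} {v : Fin 4 → (Fin n → ℂ)} {ε : ℂ} {e : Matrix (Idx g) (Idx g) ℂ}
    (F : Fr K z v ε e) (σ : ℂ ≃ₐ[ℚ] ℂ) : Fr K (σ z) (fun i j => σ (v i j)) (σ ε) (e.map σ) := by
  have hb : ∀ i j, K.bil (fun k => σ (v i k)) (fun k => σ (v j k)) = σ (K.bil (v i) (v j)) := fun i j =>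
    E5X.bil_map K σ _ _
  refine ⟨fun i => E5L.map_Tl K σ (F.mem i), ?_, ?_, ?_, ?_, ?_, ?_, ?_, ?_, ?_, ?_, ?_⟩
  · rw [hb, F.n0, map_one]
  · rw [hb, F.n1, map_one]
  · rw [hb, F.n2, map_one]
  · rw [hb, F.o01, map_zero]
  · rw [hb, F.o02, map_zero]
  · rw [hb, F.o12, map_zero]
  · rw [hb, F.o03, map_zero]
  · rw [hb, F.o13, map_zero]
  · rw [hb, F.o23, map_zero]
  · intro u hu
    have h1 := E5L.map_Tl K σ.symm hu
    rw [AlgEquiv.symm_apply_apply] at h1
    have h2 := F.sp _ h1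
    have h3 : ∀ i, K.bil (fun k => σ (v i k)) u = σ (K.bil (v i) fun k => σ.symm (u k)) := by
      intro i
      rw [← E5X.bil_map]
      congr 1
      funext k
      rw [AlgEquiv.apply_symm_apply]
    funext j
    have h4 := congrArg σ (congrFun h2 j)
    rw [AlgEquiv.apply_symm_apply] at h4
    rw [h4]
    simp only [Pi.add_apply, Pi.smul_apply, smul_eq_mul, map_add, map_mul, h3]
  · rcases F.cs with ⟨h3, hε, he⟩ | ⟨h33, hε, he⟩
    · refine Or.inl ⟨?_, by rw [hε, map_zero], ?_⟩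
      · funext j
        show σ (v 3 j) = 0
        rw [h3, Pi.zero_apply, map_zero]
      · rw [he]
        exact (Matrix.map_one σ (map_zero σ) (map_one σ))
    · refine Or.inr ⟨by rw [hb, h33, map_one], by rw [← map_mul, hε, map_one], ?_⟩
      rw [he, E5X.cl_map, E5X.cl_map, E5X.cl_map, E5X.cl_map]
      have hm : ∀ M N : Matrix (Idx g) (Idx g) ℂ, (M * N).map σ = M.map σ * N.map σ := fun M N =>
        Matrix.map_mul (f := (σ : ℂ →+* ℂ))
      have h1 : (1 : Matrix (Idx g) (Idx g) ℂ).map σ = 1 := Matrix.map_one σ (map_zero σ) (map_one σ)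
      rw [← hm, ← hm, ← hm]
      have hs : ∀ (c : ℂ) (M : Matrix (Idx g) (Idx g) ℂ), (c • M).map σ = σ c • M.map σ := by
        intro c M
        ext i j
        simp
      have ha : ∀ M N : Matrix (Idx g) (Idx g) ℂ, (M + N).map σ = M.map σ + N.map σ := by
        intro M N
        ext i j
        simp
      rw [hs, ha, hs, h1]
      simp only [map_div₀, map_one, map_ofNat]

theorem mk_aut (v : Fin 4 → (Fin n → ℂ)) (ε : ℂ) (e : Matrix (Idx g) (Idx g) ℂ) (σ : ℂ ≃ₐ[ℚ] ℂ) :
    (mk K v ε e).aut σ = mk K (fun i j => σ (v i j)) (σ ε) (e.map σ) := by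
  have hb : ∀ (a : Matrix (Fin n) (Fin n) ℂ) (x y : Fin n → ℂ),
      K.bil (fun k => σ (x k)) (a *ᵥ fun k => σ (y k)) = σ (K.bil x (a.map σ.symm *ᵥ y)) := by
    intro a x y
    rw [← map_mulVec', E5X.bil_map]
  have hx : ((mk K v ε e).aut σ).x = (mk K (fun i j => σ (v i j)) (σ ε) (e.map σ)).x := by
    refine LinearMap.ext fun a => ?_
    funext k
    show σ (X K v ε (a.map σ.symm) k) = X K (fun i j => σ (v i j)) (σ ε) a k
    fin_cases k
    · show σ (X K v ε (a.map σ.symm) 0) = X K (fun i j => σ (v i j)) (σ ε) a 0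
      rw [X0, X0, hb, hb, map_neg, map_sub, map_mul]
    · show σ (X K v ε (a.map σ.symm) 1) = X K (fun i j => σ (v i j)) (σ ε) a 1
      rw [X1, X1, hb, hb, map_neg, map_sub, map_mul]
    · show σ (X K v ε (a.map σ.symm) 2) = X K (fun i j => σ (v i j)) (σ ε) a 2
      rw [X2, X2, hb, hb, map_neg, map_sub, map_mul]
  have hm : ∀ M N : Matrix (Idx g) (Idx g) ℂ, (M * N).map σ = M.map σ * N.map σ := fun M N =>
    Matrix.map_mul (f := (σ : ℂ →+* ℂ))
  have hs : ∀ (c : ℂ) (M : Matrix (Idx g) (Idx g) ℂ), (c • M).map σ = σ c • M.map σ := by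
    intro c M
    ext i j
    simp
  have ha : ∀ M N : Matrix (Idx g) (Idx g) ℂ, (M + N).map σ = M.map σ + N.map σ := by
    intro M N
    ext i j
    simp
  have hP : ((mk K v ε e).aut σ).P = (mk K (fun i j => σ (v i j)) (σ ε) (e.map σ)).P := by
    refine LinearMap.ext fun u => ?_
    show (PP K v e fun k => σ.symm (u k)).map σ = PP K (fun i j => σ (v i j)) (e.map σ) u
    rw [PP_apply, PP_apply, hs, hm, ha, ha, hs, hs, hs, hm, hm, hm, E5X.cl_map, E5X.cl_map, E5X.cl_map]
    simp only [AlgEquiv.apply_symm_apply, map_neg, map_div₀, map_one, map_ofNat]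
  have he : ((mk K v ε e).aut σ).e = (mk K (fun i j => σ (v i j)) (σ ε) (e.map σ)).e := rfl
  calc (mk K v ε e).aut σ = ⟨((mk K v ε e).aut σ).x, ((mk K v ε e).aut σ).e, ((mk K v ε e).aut σ).P⟩ := rfl
    _ = _ := by rw [hx, he, hP]

/-! ### Completeness -/

/-- The coordinates of a combination. -/
theorem Fr.X_comb {z : ℂ} {v : Fin 4 → (Fin n → ℂ)} {ε : ℂ} {e : Matrix (Idx g) (Idx g) ℂ}
    (F : Fr K z v ε e) (p0 p1 p2 r0 r1 r2 : ℂ) :
    X K v ε (p0 • E5L.wm K (v 1) (v 2) + p1 • E5L.wm K (v 2) (v 0) + p2 • E5L.wm K (v 0) (v 1) +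
      r0 • E5L.wm K (v 0) (v 3) + r1 • E5L.wm K (v 1) (v 3) + r2 • E5L.wm K (v 2) (v 3)) =
    ![-(p0 - ε * (r0 * K.bil (v 3) (v 3))), -(p1 - ε * (r1 * K.bil (v 3) (v 3))),
      -(p2 - ε * (r2 * K.bil (v 3) (v 3)))] := by
  have hb : ∀ x y, K.bil x y = K.bil y x := E5X.bil_comm K
  have o10 : K.bil (v 1) (v 0) = 0 := by rw [hb, F.o01]
  have o20 : K.bil (v 2) (v 0) = 0 := by rw [hb, F.o02]
  have o21 : K.bil (v 2) (v 1) = 0 := by rw [hb, F.o12]
  have o30 : K.bil (v 3) (v 0) = 0 := by rw [hb, F.o03]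
  have o31 : K.bil (v 3) (v 1) = 0 := by rw [hb, F.o13]
  have o32 : K.bil (v 3) (v 2) = 0 := by rw [hb, F.o23]
  have hsub : ∀ x y w, K.bil w (x - y) = K.bil w x - K.bil w y := by
    intro x y w
    rw [← E5X.bf_apply, map_sub, E5X.bf_apply, E5X.bf_apply]
  funext k
  fin_cases k
  · show X K v ε _ 0 = _
    rw [X0]
    simp only [Matrix.add_mulVec, Matrix.smul_mulVec, E5L.wm_mulVec, E5X.bil_add_right, E5X.bil_smul_right,
      hsub, F.n0, F.n1, F.n2, F.o01, F.o02, F.o12, F.o03, F.o13, F.o23, o10, o20, o21, o30, o31, o32]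
    simp
  · show X K v ε _ 1 = _
    rw [X1]
    simp only [Matrix.add_mulVec, Matrix.smul_mulVec, E5L.wm_mulVec, E5X.bil_add_right, E5X.bil_smul_right,
      hsub, F.n0, F.n1, F.n2, F.o01, F.o02, F.o12, F.o03, F.o13, F.o23, o10, o20, o21, o30, o31, o32]
    simp
  · show X K v ε _ 2 = _
    rw [X2]
    simp only [Matrix.add_mulVec, Matrix.smul_mulVec, E5L.wm_mulVec, E5X.bil_add_right, E5X.bil_smul_right,
      hsub, F.n0, F.n1, F.n2, F.o01, F.o02, F.o12, F.o03, F.o13, F.o23, o10, o20, o21, o30, o31, o32]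
    simp

theorem Fr.comb_mem {z : ℂ} {v : Fin 4 → (Fin n → ℂ)} {ε : ℂ} {e : Matrix (Idx g) (Idx g) ℂ}
    (F : Fr K z v ε e) (p0 p1 p2 r0 r1 r2 : ℂ) :
    p0 • E5L.wm K (v 1) (v 2) + p1 • E5L.wm K (v 2) (v 0) + p2 • E5L.wm K (v 0) (v 1) +
      r0 • E5L.wm K (v 0) (v 3) + r1 • E5L.wm K (v 1) (v 3) + r2 • E5L.wm K (v 2) (v 3) ∈ K.S := by
  have h : ∀ i j, E5L.wm K (v i) (v j) ∈ K.S := fun i j => E5L.wm_mem K (F.mem i) (F.mem j)
  exact Submodule.add_mem _ (Submodule.add_mem _ (Submodule.add_mem _ (Submodule.add_mem _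
    (Submodule.add_mem _ (Submodule.smul_mem _ _ (h 1 2)) (Submodule.smul_mem _ _ (h 2 0)))
    (Submodule.smul_mem _ _ (h 0 1))) (Submodule.smul_mem _ _ (h 0 3))) (Submodule.smul_mem _ _ (h 1 3)))
    (Submodule.smul_mem _ _ (h 2 3))

/-- the spin structures at a place are complete -/
theorem full (hm : m = 3 ∨ m = 4) {z : ℂ} (hz : aeval z K.P = 0) :
    ∃ (k : ℕ) (s : Fin k → Spin g n), (∀ i, ∃ v ε e, Fr K z v ε e ∧ s i = mk K v ε e) ∧
      (∀ u : Fin k → (Fin 3 → ℂ), ∃ a ∈ K.S, ∀ i, (s i).x a = u i) ∧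
      (∀ a ∈ K.S, (∀ i, (s i).x a = 0) → a * Pj K z = 0) := by
  obtain ⟨u, hu, huu, hexp⟩ := exists_onb K hz
  rcases hm with rfl | rfl
  · -- three
    let v : Fin 4 → (Fin n → ℂ) := ![u 0, u 1, u 2, 0]
    have hbz : ∀ x, K.bil x 0 = 0 := fun x => by rw [← E5X.bf_apply, map_zero]
    have F : Fr K z v 0 1 := by
      refine ⟨?_, ?_, ?_, ?_, ?_, ?_, ?_, ?_, ?_, ?_, ?_, ?_⟩
      · intro i
        fin_cases i
        · exact hu 0
        · exact hu 1
        · exact hu 2
        · exact Submodule.zero_mem _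
      · show K.bil (u 0) (u 0) = 1
        rw [huu]; rfl
      · show K.bil (u 1) (u 1) = 1
        rw [huu]; rfl
      · show K.bil (u 2) (u 2) = 1
        rw [huu]; rfl
      · show K.bil (u 0) (u 1) = 0
        rw [huu]; rfl
      · show K.bil (u 0) (u 2) = 0
        rw [huu]; rfl
      · show K.bil (u 1) (u 2) = 0
        rw [huu]; rfl
      · exact hbz _
      · exact hbz _
      · exact hbz _
      · intro x hx
        show x = K.bil (u 0) x • u 0 + K.bil (u 1) x • u 1 + K.bil (u 2) x • u 2 +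
          K.bil (0 : Fin n → ℂ) x • (0 : Fin n → ℂ)
        rw [smul_zero, add_zero]
        have h1 := hexp x hx
        rwa [Fin.sum_univ_three] at h1
      · exact Or.inl ⟨rfl, rfl, rfl⟩
    refine ⟨1, fun _ => mk K v 0 1, fun _ => ⟨v, 0, 1, F, rfl⟩, fun w => ?_, fun a ha h0 => ?_⟩
    · refine ⟨_, F.comb_mem K (-(w 0 0)) (-(w 0 1)) (-(w 0 2)) 0 0 0, fun i => ?_⟩
      show X K v 0 _ = _
      rw [F.X_comb K, Subsingleton.elim i 0]
      funext k
      fin_cases k <;> simp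
    · have h1 : X K v 0 a = 0 := h0 0
      have e0 := congrFun h1 0
      have e1 := congrFun h1 1
      have e2 := congrFun h1 2
      rw [X0, Pi.zero_apply, zero_mul, sub_zero, neg_eq_zero] at e0
      rw [X1, Pi.zero_apply, zero_mul, sub_zero, neg_eq_zero] at e1
      rw [X2, Pi.zero_apply, zero_mul, sub_zero, neg_eq_zero] at e2
      have e3 : ∀ i, K.bil (v i) (a *ᵥ v 3) = 0 := by
        intro i
        have h3 : v 3 = 0 := rfl
        rw [h3, Matrix.mulVec_zero, hbz]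
      rw [F.dec K ha, e0, e1, e2, e3, e3, e3]
      simp
  · -- four
    have F : ∀ ε : ℂ, ε * ε = 1 → Fr K z u ε ((1 / 2 : ℂ) • (1 + ε • (K.cl (u 0) * K.cl (u 1) *
        K.cl (u 2) * K.cl (u 3)))) := by
      intro ε hε
      refine ⟨hu, ?_, ?_, ?_, ?_, ?_, ?_, ?_, ?_, ?_, ?_, ?_⟩
      · rw [huu]; rfl
      · rw [huu]; rfl
      · rw [huu]; rfl
      · rw [huu]; rfl
      · rw [huu]; rfl
      · rw [huu]; rfl
      · rw [huu]; rfl
      · rw [huu]; rfl
      · rw [huu]; rfl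
      · intro x hx
        have h1 := hexp x hx
        rwa [Fin.sum_univ_four] at h1
      · refine Or.inr ⟨?_, hε, rfl⟩
        rw [huu]; rfl
    have F1 := F 1 (by norm_num)
    have F2 := F (-1) (by norm_num)
    set e1 := (1 / 2 : ℂ) • (1 + (1 : ℂ) • (K.cl (u 0) * K.cl (u 1) * K.cl (u 2) * K.cl (u 3))) with he1
    set e2 := (1 / 2 : ℂ) • (1 + (-1 : ℂ) • (K.cl (u 0) * K.cl (u 1) * K.cl (u 2) * K.cl (u 3))) with he2
    have h33 : K.bil (u 3) (u 3) = 1 := by rw [huu]; rfl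
    refine ⟨2, ![mk K u 1 e1, mk K u (-1) e2], ?_, fun w => ?_, fun a ha h0 => ?_⟩
    · intro i
      fin_cases i
      · exact ⟨u, 1, e1, F1, rfl⟩
      · exact ⟨u, -1, e2, F2, rfl⟩
    · refine ⟨_, F1.comb_mem K (-(w 0 0 + w 1 0) / 2) (-(w 0 1 + w 1 1) / 2) (-(w 0 2 + w 1 2) / 2)
        ((w 0 0 - w 1 0) / 2) ((w 0 1 - w 1 1) / 2) ((w 0 2 - w 1 2) / 2), fun i => ?_⟩
      fin_cases i
      · show X K u 1 _ = w 0
        rw [F1.X_comb K, h33]
        funext k
        fin_cases k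
        · show _ = w 0 0
          simp
          ring
        · show _ = w 0 1
          simp
          ring
        · show _ = w 0 2
          simp
          ring
      · show X K u (-1) _ = w 1
        rw [F2.X_comb K, h33]
        funext k
        fin_cases k
        · show _ = w 1 0
          simp
          ring
        · show _ = w 1 1
          simp
          ring
        · show _ = w 1 2
          simp
          ring
    · have h1 : X K u 1 a = 0 := h0 0
      have h2 : X K u (-1) a = 0 := h0 1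
      have a0 := congrFun h1 0
      have a1 := congrFun h1 1
      have a2 := congrFun h1 2
      have b0 := congrFun h2 0
      have b1 := congrFun h2 1
      have b2 := congrFun h2 2
      rw [X0, Pi.zero_apply] at a0 b0
      rw [X1, Pi.zero_apply] at a1 b1
      rw [X2, Pi.zero_apply] at a2 b2
      have c0 : K.bil (u 1) (a *ᵥ u 2) = 0 := by linear_combination (-1 / 2 : ℂ) * a0 - (1 / 2 : ℂ) * b0
      have c1 : K.bil (u 2) (a *ᵥ u 0) = 0 := by linear_combination (-1 / 2 : ℂ) * a1 - (1 / 2 : ℂ) * b1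
      have c2 : K.bil (u 0) (a *ᵥ u 1) = 0 := by linear_combination (-1 / 2 : ℂ) * a2 - (1 / 2 : ℂ) * b2
      have d0 : K.bil (u 0) (a *ᵥ u 3) = 0 := by linear_combination (1 / 2 : ℂ) * a0 - (1 / 2 : ℂ) * b0
      have d1 : K.bil (u 1) (a *ᵥ u 3) = 0 := by linear_combination (1 / 2 : ℂ) * a1 - (1 / 2 : ℂ) * b1
      have d2 : K.bil (u 2) (a *ᵥ u 3) = 0 := by linear_combination (1 / 2 : ℂ) * a2 - (1 / 2 : ℂ) * b2
      rw [F1.dec K ha, c0, c1, c2, d0, d1, d2]
      simp

end one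

end H1X

end

end Pool.Agent.K3M
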