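import Pool.Agent.K3M.H6

/-!
# H5: matched spin structures at the indefinite places give an intertwining matrix
-/

set_option autoImplicit false

open scoped BigOperators
open Matrix

namespace Pool.Agent.K3M

open Pool.Agent.DRB Pool.Agent.K3D Pool.Agent.K3E Pool.Agent.K3C Pool.Agent.K3P

namespace HX

theorem triple (u v w : Fin 3 → ℂ) :
    crossProduct u (crossProduct v w) = (u ⬝ᵥ w) • v - (u ⬝ᵥ v) • w := by
  funext k
  fin_cases k <;> simp [cross_apply, dotProduct, Fin.sum_univ_three] <;> ring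

/-- isomorphisms of the cross product preserve the scalar product -/
theorem dot_eq (φ : (Fin 3 → ℂ) ≃ₗ[ℂ] (Fin 3 → ℂ))
    (h : ∀ u v, φ (crossProduct u v) = crossProduct (φ u) (φ v)) (u w : Fin 3 → ℂ) :
    φ u ⬝ᵥ φ w = u ⬝ᵥ w := by
  have key : ∀ v : Fin 3 → ℂ, (φ u ⬝ᵥ φ w - u ⬝ᵥ w) • v = (φ u ⬝ᵥ φ v - u ⬝ᵥ v) • w := by
    intro v
    apply φ.injective
    have h1 := congrArg φ (triple u v w)
    rw [h, h, triple, map_sub, map_smul, map_smul] at h1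
    rw [map_smul, map_smul, sub_smul, sub_smul, sub_eq_sub_iff_sub_eq_sub, h1]
  by_contra hne
  have hc : φ u ⬝ᵥ φ w - u ⬝ᵥ w ≠ 0 := sub_ne_zero.2 hne
  by_cases hw : w = 0
  · apply hne
    rw [hw, map_zero, dotProduct_zero, dotProduct_zero]
  -- every vector is a multiple of w
  have h2 : ∀ v : Fin 3 → ℂ, ∃ c : ℂ, v = c • w := by
    intro v
    refine ⟨(φ u ⬝ᵥ φ w - u ⬝ᵥ w)⁻¹ * (φ u ⬝ᵥ φ v - u ⬝ᵥ v), ?_⟩
    rw [mul_smul, ← key v, smul_smul, inv_mul_cancel₀ hc, one_smul]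
  obtain ⟨c0, h3⟩ := h2 (Pi.single 0 1)
  obtain ⟨c1, h4⟩ := h2 (Pi.single 1 1)
  have e1 := congrFun h3 0
  have e2 := congrFun h3 1
  have e3 := congrFun h4 0
  have e4 := congrFun h4 1
  simp only [Pi.single_eq_same, Pi.smul_apply, smul_eq_mul] at e1 e4
  rw [Pi.single_eq_of_ne (by decide), Pi.smul_apply, smul_eq_mul] at e2 e3
  have h5 : w 1 = 0 := by
    rcases mul_eq_zero.1 e2.symm with h | h
    · rw [h, zero_mul] at e1; exact absurd e1 one_ne_zero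
    · exact h
  rw [h5, mul_zero] at e4
  exact one_ne_zero e4

section

variable {g g' n n' : ℕ} {d : Matrix (Fin n) (Fin n) ℂ → Matrix (Fin n') (Fin n') ℂ → Prop}

theorem act_symm (Φ : SpinFac g n) (σ : ℂ ≃ₐ[ℚ] ℂ) {z w : Φ.Ω} (h : Φ.act σ z = w) :
    Φ.act σ⁻¹ w = z := by
  rw [← h, ← Φ.act_mul, inv_mul_cancel, Φ.act_one]

/-- The twisted quaternion relations. -/
theorem QRel.twist {κ : Type} [Fintype κ] [DecidableEq κ] {e : Matrix κ κ ℂ}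
    {P : (Fin 3 → ℂ) →ₗ[ℂ] Matrix κ κ ℂ} (Q : QRel e P) (φ : (Fin 3 → ℂ) ≃ₗ[ℂ] (Fin 3 → ℂ))
    (h : ∀ u v, φ (crossProduct u v) = crossProduct (φ u) (φ v)) : QRel e (P ∘ₗ φ.toLinearMap) where
  idem := Q.idem
  eP := fun u => Q.eP (φ u)
  Pe := fun u => Q.Pe (φ u)
  mul := fun u v => by
    show P (φ u) * P (φ v) = _ • e + _ • P (φ (crossProduct u v))
    rw [Q.mul, dot_eq φ h, h]

theorem QComm.twist {κ : Type} [Fintype κ] [DecidableEq κ] {e e' : Matrix κ κ ℂ}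
    {P P' : (Fin 3 → ℂ) →ₗ[ℂ] Matrix κ κ ℂ} (Q : QComm e P e' P')
    (φ φ' : (Fin 3 → ℂ) ≃ₗ[ℂ] (Fin 3 → ℂ)) :
    QComm e (P ∘ₗ φ.toLinearMap) e' (P' ∘ₗ φ'.toLinearMap) where
  ee := Q.ee
  eP := fun u => Q.eP (φ' u)
  Pe := fun u => Q.Pe (φ u)
  PP := fun u v => Q.PP (φ u) (φ' v)

end

end HX

open HX in
/-- H5. -/
theorem H5_proof (hH3 : Stmt_H3) : Stmt_H5 := by
  classical
  intro g g' n n' Φ Φ' d T h6 h6' s s' hs hs' hM
  let _ := Φ.fin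
  let _ := Φ'.fin
  -- conjugates
  choose σ hσ using Φ.trans
  choose τ hτ using Φ'.trans
  let w : Φ.Ω → Φ'.Ω := fun z => Φ'.act (σ z) Φ'.o
  have hw : ∀ z, w z = Φ'.act (σ z) Φ'.o := fun z => rfl
  have hinj : Function.Injective w := by
    intro z z' hzz
    rw [hw, hw] at hzz
    have h1 : Φ'.act ((σ z')⁻¹ * σ z) Φ'.o = Φ'.o := by
      rw [Φ'.act_mul, hzz]
      exact act_symm Φ' _ rfl
    have h2 := h6' _ _ _ (Φ.aut ((σ z')⁻¹ * σ z) _ _ hs) (by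
      have h3 := Φ'.aut ((σ z')⁻¹ * σ z) _ _ hs'
      rwa [h1] at h3) (matched_aut T _ hM)
    have h3 := congrArg (Φ.act (σ z')) h2
    rw [← Φ.act_mul, mul_inv_cancel_left, hσ, hσ] at h3
    exact h3
  have hsurj : Function.Surjective w := by
    intro w'
    refine ⟨Φ.act (τ w') Φ.o, ?_⟩
    set z := Φ.act (τ w') Φ.o with hz
    have h1 : Φ.act ((τ w')⁻¹ * σ z) Φ.o = Φ.o := by
      rw [Φ.act_mul, hσ z]
      exact act_symm Φ _ rfl
    have h2 := h6 _ _ _ (by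
      have h3 := Φ.aut ((τ w')⁻¹ * σ z) _ _ hs
      rwa [h1] at h3) (Φ'.aut ((τ w')⁻¹ * σ z) _ _ hs') (matched_aut T _ hM)
    have h3 := congrArg (Φ'.act (τ w')) h2
    rw [← Φ'.act_mul, mul_inv_cancel_left, hτ] at h3
    exact h3
  let E := Equiv.ofBijective w ⟨hinj, hsurj⟩
  let S : Φ.Ω → Spin g n := fun z => s.aut (σ z)
  let S' : Φ.Ω → Spin g' n' := fun z => s'.aut (σ z)
  have hS : ∀ z, Φ.IsSp z (S z) := by
    intro z
    have h3 := Φ.aut (σ z) _ _ hs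
    rwa [hσ z] at h3
  have hS' : ∀ z, Φ'.IsSp (w z) (S' z) := fun z => Φ'.aut (σ z) _ _ hs'
  have hMz : ∀ z, Matched d (S z) (S' z) := fun z => matched_aut T (σ z) hM
  choose φ hφ1 hφ2 using hMz
  obtain ⟨E1, hE1, hE2⟩ := Φ.ne S hS
  obtain ⟨E1', hE1', hE2'⟩ := Φ'.ne (fun w' => S' (E.symm w')) (fun w' => by
    have h1 := hS' (E.symm w')
    have h2 : w (E.symm w') = w' := E.apply_symm_apply w'
    rwa [h2] at h1)
  obtain ⟨F, hF, hF2⟩ := hH3 Φ.Ω (Idx g) (Idx g') Finset.univ (fun z => (S z).e) (fun z => (S z).P)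
    (fun z => (S' z).e) (fun z => (S' z).P ∘ₗ (φ z).toLinearMap) E1 E1' hE1 hE1'
    (fun z _ => (hE2 z).2)
    (fun z _ => by
      have h1 := (hE2' (w z)).1
      have h2 : E.symm (w z) = z := E.symm_apply_apply z
      rwa [h2] at h1)
    (fun z _ => Φ.rel z _ (hS z))
    (fun z _ => QRel.twist (Φ'.rel _ _ (hS' z)) (φ z) (hφ1 z))
    (fun z _ z' _ hne => Φ.comm z z' _ _ hne (hS z) (hS z'))
    (fun z _ z' _ hne => QComm.twist (Φ'.comm _ _ _ _ (fun h => hne (hinj h)) (hS' z) (hS' z')) (φ z) (φ z'))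
  refine ⟨F, hF, fun a b hab => ?_⟩
  obtain ⟨ha, hb⟩ := T.mem a b hab
  have h1 : Φ.Z a = ∑ z, Φ.Z (Φ.pr z a) := by
    conv_lhs => rw [← Φ.pr_sum a ha]
    rw [map_sum]
  have h2 : Φ'.Z b = ∑ z, Φ'.Z (Φ'.pr (w z) b) := by
    conv_lhs => rw [← Φ'.pr_sum b hb]
    rw [map_sum]
    exact (Equiv.sum_comp E (fun w' => Φ'.Z (Φ'.pr w' b))).symm
  rw [h1, h2, Matrix.sum_mul, Matrix.mul_sum]
  refine Finset.sum_congr rfl fun z _ => ?_
  obtain ⟨k1, k2, k3⟩ := hF2 z (Finset.mem_univ z)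
  have k4 := (Φ'.Zx _ _ (hS' z) b hb).1
  have k5 := (Φ.Zx _ _ (hS z) a ha).2
  calc Φ'.Z (Φ'.pr (w z) b) * F = Φ'.Z (Φ'.pr (w z) b) * ((S' z).e * F) := by rw [k1]
    _ = (S' z).P ((S' z).x b) * F := by rw [← Matrix.mul_assoc, k4]
    _ = F * (S z).P ((S z).x a) := by
        rw [hφ2 z a b hab]
        exact k3 _
    _ = (F * (S z).e) * Φ.Z (Φ.pr z a) := by rw [← k5, ← Matrix.mul_assoc]
    _ = F * Φ.Z (Φ.pr z a) := by rw [k2]

end Pool.Agent.K3M
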