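import Pool.Agent.K3M.HDefs
import Pool.Agent.K3E.E8b

/-!
# H6: places over the indefinite places
-/

set_option autoImplicit false

open scoped BigOperators
open Matrix

namespace Pool.Agent.K3M

open Pool.Agent.DRB Pool.Agent.K3D Pool.Agent.K3E Pool.Agent.K3C Pool.Agent.K3P

namespace HX

theorem cross_map (σ : ℂ ≃ₐ[ℚ] ℂ) (u v : Fin 3 → ℂ) :
    crossProduct (fun k => σ (u k)) (fun k => σ (v k)) = fun k => σ (crossProduct u v k) := by
  funext k
  fin_cases k <;> simp [cross_apply]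

section rel

variable {n n' : ℕ} {S : Submodule ℂ (Matrix (Fin n) (Fin n) ℂ)}
    {S' : Submodule ℂ (Matrix (Fin n') (Fin n') ℂ)}
    {d : Matrix (Fin n) (Fin n) ℂ → Matrix (Fin n') (Fin n') ℂ → Prop}

theorem relSymm (T : PairRel S S' d) : PairRel S' S (fun b a => d a b) where
  lin := fun b a b' a' c h h' => T.lin a b a' b' c h h'
  zero := T.zero
  brk := fun b a b' a' h h' => T.brk a b a' b' h h'
  aut := fun σ b a h => T.aut σ a b h
  mem := fun b a h => ⟨(T.mem a b h).2, (T.mem a b h).1⟩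
  onto := T.onto'
  onto' := T.onto
  log := fun b a h => by
    obtain ⟨x, y, h1, h2, h3⟩ := T.log a b h
    exact ⟨y, x, h1, h3, h2⟩

/-- the pairs as a subspace -/
def relSub (T : PairRel S S' d) :
    Submodule ℂ (Matrix (Fin n) (Fin n) ℂ × Matrix (Fin n') (Fin n') ℂ) where
  carrier := {p | d p.1 p.2}
  add_mem' := by
    intro p q hp hq
    have h1 := T.lin p.1 p.2 q.1 q.2 1 hp hq
    simp only [one_smul] at h1
    exact h1
  zero_mem' := T.zero
  smul_mem' := by
    intro c p hp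
    have h1 := T.lin 0 0 p.1 p.2 c T.zero hp
    simp only [zero_add] at h1
    exact h1

theorem mem_relSub (T : PairRel S S' d) (a : Matrix (Fin n) (Fin n) ℂ) (b : Matrix (Fin n') (Fin n') ℂ) :
    (a, b) ∈ relSub T ↔ d a b := Iff.rfl

/-- sums of commutators lift -/
theorem exists_lift (T : PairRel S S' d) {c : ℕ} (x y : Fin c → Matrix (Fin n) (Fin n) ℂ)
    (h : ∀ i, x i ∈ S ∧ y i ∈ S) : ∃ b, d (∑ i, (x i * y i - y i * x i)) b := by
  choose b hb using fun i => T.onto (x i) (h i).1 (y i) (h i).2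
  refine ⟨∑ i, b i, ?_⟩
  have h1 : ∑ i, (x i * y i - y i * x i, b i) ∈ relSub T := Submodule.sum_mem _ fun i _ => hb i
  have h2 : ∑ i, (x i * y i - y i * x i, b i) = (∑ i, (x i * y i - y i * x i), ∑ i, b i) := by
    refine Prod.ext ?_ ?_
    · rw [Prod.fst_sum]
    · rw [Prod.snd_sum]
  rw [h2] at h1
  exact h1

/-- real parts -/
theorem real_right (T : PairRel S S' d) {a : Matrix (Fin n) (Fin n) ℝ} {b : Matrix (Fin n') (Fin n') ℂ}
    (h : d (a.map Complex.ofReal) b) : d (a.map Complex.ofReal) ((b.map Complex.re).map Complex.ofReal) := by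
  have hcc := T.aut E8Y.cc0 _ _ h
  have h1 := T.lin _ _ _ _ (1 / 2) T.zero (T.lin _ _ _ _ 1 h hcc)
  convert h1 using 1
  · ext p q
    simp only [Matrix.map_apply, Matrix.add_apply, Matrix.smul_apply, Matrix.zero_apply,
      E8Y.cc0_apply, smul_eq_mul, Complex.conj_ofReal]
    ring
  · ext p q
    simp only [Matrix.map_apply, Matrix.add_apply, Matrix.smul_apply, Matrix.zero_apply,
      E8Y.cc0_apply, smul_eq_mul]
    rw [Complex.re_eq_add_conj]
    ring

end rel

section matched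

variable {g g' n n' : ℕ} {S : Submodule ℂ (Matrix (Fin n) (Fin n) ℂ)}
    {S' : Submodule ℂ (Matrix (Fin n') (Fin n') ℂ)}
    {d : Matrix (Fin n) (Fin n) ℂ → Matrix (Fin n') (Fin n') ℂ → Prop} {s : Spin g n} {s' : Spin g' n'}

theorem matched_symm (hM : Matched d s s') : Matched (fun b a => d a b) s' s := by
  obtain ⟨φ, h1, h2⟩ := hM
  refine ⟨φ.symm, fun u v => ?_, fun b a hab => ?_⟩
  · apply φ.injective
    rw [φ.apply_symm_apply, h1, φ.apply_symm_apply, φ.apply_symm_apply]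
  · rw [h2 a b hab, φ.symm_apply_apply]

/-- the conjugate of an isomorphism -/
noncomputable def phiAut (σ : ℂ ≃ₐ[ℚ] ℂ) (φ : (Fin 3 → ℂ) ≃ₗ[ℂ] (Fin 3 → ℂ)) :
    (Fin 3 → ℂ) ≃ₗ[ℂ] (Fin 3 → ℂ) where
  toFun := fun u k => σ (φ (fun k => σ.symm (u k)) k)
  invFun := fun u k => σ (φ.symm (fun k => σ.symm (u k)) k)
  map_add' := by
    intro u v
    funext k
    have h : (fun k => σ.symm ((u + v) k)) = (fun k => σ.symm (u k)) + fun k => σ.symm (v k) := by
      funext k; simp
    rw [h, map_add, Pi.add_apply, map_add, Pi.add_apply]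
  map_smul' := by
    intro c u
    funext k
    have h : (fun k => σ.symm ((c • u) k)) = σ.symm c • fun k => σ.symm (u k) := by
      funext k; simp
    rw [h, map_smul, Pi.smul_apply, smul_eq_mul, map_mul, AlgEquiv.apply_symm_apply]
    rfl
  left_inv := by
    intro u
    funext k
    simp only [AlgEquiv.symm_apply_apply]
    rw [φ.symm_apply_apply]
    exact σ.apply_symm_apply _
  right_inv := by
    intro u
    funext k
    simp only [AlgEquiv.symm_apply_apply]
    rw [φ.apply_symm_apply]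
    exact σ.apply_symm_apply _

theorem phiAut_apply (σ : ℂ ≃ₐ[ℚ] ℂ) (φ : (Fin 3 → ℂ) ≃ₗ[ℂ] (Fin 3 → ℂ)) (u : Fin 3 → ℂ) :
    phiAut σ φ u = fun k => σ (φ (fun k => σ.symm (u k)) k) := rfl

theorem matched_aut (T : PairRel S S' d) (σ : ℂ ≃ₐ[ℚ] ℂ) (hM : Matched d s s') :
    Matched d (s.aut σ) (s'.aut σ) := by
  obtain ⟨φ, h1, h2⟩ := hM
  refine ⟨phiAut σ φ, fun u v => ?_, fun a b hab => ?_⟩
  · rw [phiAut_apply, phiAut_apply, phiAut_apply, cross_map, ← h1]
    have h3 : (fun k => σ.symm (crossProduct u v k)) =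
        crossProduct (fun k => σ.symm (u k)) (fun k => σ.symm (v k)) := (cross_map σ.symm u v).symm
    rw [h3]
  · have h3 := h2 _ _ (T.aut σ.symm a b hab)
    rw [phiAut_apply]
    funext k
    show σ (s'.x (b.map σ.symm) k) = σ (φ (fun k => σ.symm (σ (s.x (a.map σ.symm) k))) k)
    simp only [AlgEquiv.symm_apply_apply]
    rw [h3]

/-- H6, first half. -/
theorem overO (Φ : SpinFac g n) (Φ' : SpinFac g' n') (T : PairRel Φ.S Φ'.S d) {w : Φ'.Ω}
    (hs : Φ.IsSp Φ.o s) (hs' : Φ'.IsSp w s') (hM : Matched d s s') : w = Φ'.o := by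
  by_contra hw
  obtain ⟨c, x, y, a, hxy, hsum, hlog, hne⟩ := Φ.hyp
  obtain ⟨b, hb⟩ := exists_lift T x y hxy
  rw [← hsum] at hb
  have hb' := real_right T hb
  obtain ⟨u, v, huv, hu, hv⟩ := T.log _ _ hb'
  have hua := hlog u hu
  have h1 := Φ'.cpt _ v (T.mem _ _ hb').2 (T.mem _ _ huv).2 hv w hw
  obtain ⟨φ, -, hφ⟩ := hM
  have h2 := hφ _ _ huv
  rw [← Φ'.x_pr w s' hs' _ (T.mem _ _ huv).2, h1, map_zero, hua] at h2
  apply hne s hs
  have h3 : φ (s.x (a.map Complex.ofReal)) = φ 0 := by rw [← h2, map_zero]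
  exact φ.injective h3

end matched

end HX

open HX in
/-- H6. -/
theorem H6_proof : Stmt_H6 := by
  intro g g' n n' Φ Φ' d T
  refine ⟨fun w s s' hs hs' hM => overO Φ Φ' T hs hs' hM, fun z s s' hs hs' hM => ?_⟩
  exact overO Φ' Φ (relSymm T) hs' hs (matched_symm hM)

end Pool.Agent.K3M
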