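import Pool.Agent.K3M.Stmts

/-!
# Three-dimensional simple factors: spin structures, definitions and statements
-/

open scoped BigOperators
open Matrix

namespace Pool.Agent.K3M

open Pool.Agent.DRB Pool.Agent.K3D Pool.Agent.K3E Pool.Agent.K3C Pool.Agent.K3P

noncomputable section

/-- A map `x` to the three-dimensional Lie algebra (cross product) with Clifford elements `P` on the image of
an idempotent `e`. -/
structure Spin (g n : ℕ) where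
  x : Matrix (Fin n) (Fin n) ℂ →ₗ[ℂ] (Fin 3 → ℂ)
  e : Matrix (Idx g) (Idx g) ℂ
  P : (Fin 3 → ℂ) →ₗ[ℂ] Matrix (Idx g) (Idx g) ℂ

/-- The quaternion relations. -/
structure QRel {κ : Type} [Fintype κ] [DecidableEq κ] (e : Matrix κ κ ℂ)
    (P : (Fin 3 → ℂ) →ₗ[ℂ] Matrix κ κ ℂ) : Prop where
  idem : e * e = e
  eP : ∀ u, e * P u = P u
  Pe : ∀ u, P u * e = P u
  mul : ∀ u v, P u * P v = (-(1 / 4 : ℂ) * (u ⬝ᵥ v)) • e + (1 / 2 : ℂ) • P (crossProduct u v)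

/-- Two quaternion algebras commute. -/
structure QComm {κ : Type} [Fintype κ] [DecidableEq κ] (e : Matrix κ κ ℂ)
    (P : (Fin 3 → ℂ) →ₗ[ℂ] Matrix κ κ ℂ) (e' : Matrix κ κ ℂ)
    (P' : (Fin 3 → ℂ) →ₗ[ℂ] Matrix κ κ ℂ) : Prop where
  ee : e * e' = e' * e
  eP : ∀ u, e * P' u = P' u * e
  Pe : ∀ u, P u * e' = e' * P u
  PP : ∀ u v, P u * P' v = P' v * P u

/-- The conjugate of a spin structure. -/
def Spin.aut {g n : ℕ} (σ : ℂ ≃ₐ[ℚ] ℂ) (s : Spin g n) : Spin g n where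
  x :=
    { toFun := fun a k => σ (s.x (a.map σ.symm) k)
      map_add' := by
        intro a b
        funext k
        have h : (a + b).map σ.symm = a.map σ.symm + b.map σ.symm := by
          ext i j; simp
        rw [h, map_add, Pi.add_apply, map_add, Pi.add_apply]
      map_smul' := by
        intro c a
        funext k
        have h : (c • a).map σ.symm = σ.symm c • a.map σ.symm := by
          ext i j; simp
        rw [h, map_smul, Pi.smul_apply, smul_eq_mul, map_mul, AlgEquiv.apply_symm_apply]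
        rfl }
  e := s.e.map σ
  P :=
    { toFun := fun u => (s.P fun k => σ.symm (u k)).map σ
      map_add' := by
        intro u v
        have h : (fun k => σ.symm ((u + v) k)) = (fun k => σ.symm (u k)) + fun k => σ.symm (v k) := by
          funext k; simp
        rw [h, map_add]
        ext i j; simp
      map_smul' := by
        intro c u
        have h : (fun k => σ.symm ((c • u) k)) = σ.symm c • fun k => σ.symm (u k) := by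
          funext k; simp
        rw [h, map_smul]
        ext i j; simp }

/-- The places of a factor and its spin structures. -/
structure SpinFac (g n : ℕ) where
  /-- the Lie algebra -/
  S : Submodule ℂ (Matrix (Fin n) (Fin n) ℂ)
  /-- the lift to the Clifford algebra -/
  Z : Matrix (Fin n) (Fin n) ℂ →ₗ[ℂ] Matrix (Idx g) (Idx g) ℂ
  Ω : Type
  fin : Fintype Ω
  act : (ℂ ≃ₐ[ℚ] ℂ) → Ω → Ω
  act_one : ∀ z, act 1 z = z
  act_mul : ∀ σ τ z, act (σ * τ) z = act σ (act τ z)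
  /-- the indefinite place -/
  o : Ω
  trans : ∀ z, ∃ σ, act σ o = z
  /-- the components -/
  pr : Ω → Matrix (Fin n) (Fin n) ℂ →ₗ[ℂ] Matrix (Fin n) (Fin n) ℂ
  pr_mem : ∀ z, ∀ a ∈ S, pr z a ∈ S
  pr_sum : ∀ a ∈ S, ∑ z, pr z a = a
  pr_self : ∀ z, ∀ a ∈ S, pr z (pr z a) = pr z a
  pr_ne : ∀ z w, z ≠ w → ∀ a ∈ S, pr z (pr w a) = 0
  pr_brk : ∀ z, ∀ a ∈ S, ∀ b ∈ S, pr z (a * b - b * a) = pr z a * pr z b - pr z b * pr z a
  /-- `s` is a spin structure at the place `z` -/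
  IsSp : Ω → Spin g n → Prop
  rel : ∀ z s, IsSp z s → QRel s.e s.P
  brk : ∀ z s, IsSp z s → ∀ a ∈ S, ∀ b ∈ S, s.x (a * b - b * a) = crossProduct (s.x a) (s.x b)
  x_pr : ∀ z s, IsSp z s → ∀ a ∈ S, s.x (pr z a) = s.x a
  Zx : ∀ z s, IsSp z s → ∀ a ∈ S, Z (pr z a) * s.e = s.P (s.x a) ∧ s.e * Z (pr z a) = s.P (s.x a)
  comm : ∀ z w s s', z ≠ w → IsSp z s → IsSp w s' → QComm s.e s.P s'.e s'.P
  ne : ∀ s : Ω → Spin g n, (∀ z, IsSp z (s z)) → ∃ E : Matrix (Idx g) (Idx g) ℂ, E ≠ 0 ∧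
    ∀ z, (s z).e * E = E ∧ E * (s z).e = E
  aut : ∀ σ z s, IsSp z s → IsSp (act σ z) (s.aut σ)
  /-- the spin structures at the place `z` are complete -/
  full : ∀ z, ∃ (k : ℕ) (s : Fin k → Spin g n), (∀ i, IsSp z (s i)) ∧
    (∀ u : Fin k → (Fin 3 → ℂ), ∃ a ∈ S, ∀ i, (s i).x a = u i) ∧
    (∀ a ∈ S, (∀ i, (s i).x a = 0) → ∀ b ∈ S, pr z a * b = b * pr z a)
  /-- a hyperbolic element at the indefinite place -/
  hyp : ∃ (c : ℕ) (x y : Fin c → Matrix (Fin n) (Fin n) ℂ) (a : Matrix (Fin n) (Fin n) ℝ),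
    (∀ i, x i ∈ S ∧ y i ∈ S) ∧ a.map Complex.ofReal = ∑ i, (x i * y i - y i * x i) ∧
    (∀ h, IsHypLog (NormedSpace.exp a) h → h = a) ∧ ∀ s, IsSp o s → s.x (a.map Complex.ofReal) ≠ 0
  /-- the other places are compact -/
  cpt : ∀ a h : Matrix (Fin n) (Fin n) ℝ, a.map Complex.ofReal ∈ S → h.map Complex.ofReal ∈ S →
    IsHypLog (NormedSpace.exp a) h → ∀ z, z ≠ o → pr z (h.map Complex.ofReal) = 0
  /-- perfectness of the derived algebra, in the components -/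
  perf : ∀ a ∈ S, ∀ b ∈ S, a * b - b * a ∈ Submodule.span ℂ {c | ∃ x ∈ S, ∃ y ∈ S, ∃ x' ∈ S, ∃ y' ∈ S,
    c = (x * y - y * x) * (x' * y' - y' * x') - (x' * y' - y' * x') * (x * y - y * x)}

/-- The relation between the components of two factors. -/
structure PairRel {n n' : ℕ} (S : Submodule ℂ (Matrix (Fin n) (Fin n) ℂ))
    (S' : Submodule ℂ (Matrix (Fin n') (Fin n') ℂ))
    (d : Matrix (Fin n) (Fin n) ℂ → Matrix (Fin n') (Fin n') ℂ → Prop) : Prop where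
  lin : ∀ a b a' b' (c : ℂ), d a b → d a' b' → d (a + c • a') (b + c • b')
  zero : d 0 0
  brk : ∀ a b a' b', d a b → d a' b' → d (a * a' - a' * a) (b * b' - b' * b)
  aut : ∀ (σ : ℂ ≃ₐ[ℚ] ℂ) a b, d a b → d (a.map σ) (b.map σ)
  mem : ∀ a b, d a b → a ∈ S ∧ b ∈ S'
  onto : ∀ x ∈ S, ∀ y ∈ S, ∃ b, d (x * y - y * x) b
  onto' : ∀ x ∈ S', ∀ y ∈ S', ∃ a, d a (x * y - y * x)
  log : ∀ (a : Matrix (Fin n) (Fin n) ℝ) (b : Matrix (Fin n') (Fin n') ℝ),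
    d (a.map Complex.ofReal) (b.map Complex.ofReal) →
    ∃ (x : Matrix (Fin n) (Fin n) ℝ) (y : Matrix (Fin n') (Fin n') ℝ),
      d (x.map Complex.ofReal) (y.map Complex.ofReal) ∧
      IsHypLog (NormedSpace.exp a) x ∧ IsHypLog (NormedSpace.exp b) y

/-- The spin structures `s` and `s'` are matched by the relation `d`. -/
def Matched {g g' n n' : ℕ} (d : Matrix (Fin n) (Fin n) ℂ → Matrix (Fin n') (Fin n') ℂ → Prop)
    (s : Spin g n) (s' : Spin g' n') : Prop :=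
  ∃ φ : (Fin 3 → ℂ) ≃ₗ[ℂ] (Fin 3 → ℂ),
    (∀ u v, φ (crossProduct u v) = crossProduct (φ u) (φ v)) ∧ ∀ a b, d a b → s'.x b = φ (s.x a)

/-- H2. Goursat for three-dimensional quotients. -/
def Stmt_H2 : Prop :=
  ∀ (V : Type) [AddCommGroup V] [Module ℂ V] (br : V → V → V) (k k' : ℕ)
    (X : Fin k → V →ₗ[ℂ] (Fin 3 → ℂ)) (Y : Fin k' → V →ₗ[ℂ] (Fin 3 → ℂ)),
    (∀ i u v, X i (br u v) = crossProduct (X i u) (X i v)) →
    (∀ i u v, Y i (br u v) = crossProduct (Y i u) (Y i v)) →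
    (∀ u : Fin k → (Fin 3 → ℂ), ∃ t, ∀ i, X i t = u i) →
    (∀ u : Fin k' → (Fin 3 → ℂ), ∃ t, ∀ i, Y i t = u i) →
    (∀ u : Fin k → (Fin 3 → ℂ), ∃ t, (∀ i, X i t = u i) ∧ ∀ j, Y j t = 0) ∨
    ∃ i j, ∃ φ : (Fin 3 → ℂ) ≃ₗ[ℂ] (Fin 3 → ℂ),
      (∀ u v, φ (crossProduct u v) = crossProduct (φ u) (φ v)) ∧ ∀ t, Y j t = φ (X i t)

/-- H3. Averages. -/
def Stmt_H3 : Prop :=
  ∀ (ι κ κ' : Type) [Fintype κ] [DecidableEq κ] [Fintype κ'] [DecidableEq κ'] (R : Finset ι)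
    (e : ι → Matrix κ κ ℂ) (P : ι → (Fin 3 → ℂ) →ₗ[ℂ] Matrix κ κ ℂ)
    (e' : ι → Matrix κ' κ' ℂ) (P' : ι → (Fin 3 → ℂ) →ₗ[ℂ] Matrix κ' κ' ℂ)
    (E : Matrix κ κ ℂ) (E' : Matrix κ' κ' ℂ), E ≠ 0 → E' ≠ 0 →
    (∀ z ∈ R, E * e z = E) → (∀ z ∈ R, e' z * E' = E') →
    (∀ z ∈ R, QRel (e z) (P z)) → (∀ z ∈ R, QRel (e' z) (P' z)) →
    (∀ z ∈ R, ∀ w ∈ R, z ≠ w → QComm (e z) (P z) (e w) (P w)) →
    (∀ z ∈ R, ∀ w ∈ R, z ≠ w → QComm (e' z) (P' z) (e' w) (P' w)) →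
    ∃ F : Matrix κ' κ ℂ, F ≠ 0 ∧ ∀ z ∈ R, e' z * F = F ∧ F * e z = F ∧ ∀ u, P' z u * F = F * P z u

/-- H5. Matched spin structures at the indefinite places give an intertwining matrix. -/
def Stmt_H5 : Prop :=
  ∀ (g g' n n' : ℕ) (Φ : SpinFac g n) (Φ' : SpinFac g' n')
    (d : Matrix (Fin n) (Fin n) ℂ → Matrix (Fin n') (Fin n') ℂ → Prop), PairRel Φ.S Φ'.S d →
    (∀ w s s', Φ.IsSp Φ.o s → Φ'.IsSp w s' → Matched d s s' → w = Φ'.o) →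
    (∀ z s s', Φ.IsSp z s → Φ'.IsSp Φ'.o s' → Matched d s s' → z = Φ.o) →
    ∀ s s', Φ.IsSp Φ.o s → Φ'.IsSp Φ'.o s' → Matched d s s' →
    ∃ F : Matrix (Idx g') (Idx g) ℂ, F ≠ 0 ∧ ∀ a b, d a b → Φ'.Z b * F = F * Φ.Z a

/-- H6. Matched spin structures: a place over the indefinite place is indefinite. -/
def Stmt_H6 : Prop :=
  ∀ (g g' n n' : ℕ) (Φ : SpinFac g n) (Φ' : SpinFac g' n')
    (d : Matrix (Fin n) (Fin n) ℂ → Matrix (Fin n') (Fin n') ℂ → Prop), PairRel Φ.S Φ'.S d →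
    (∀ w s s', Φ.IsSp Φ.o s → Φ'.IsSp w s' → Matched d s s' → w = Φ'.o) ∧
    (∀ z s s', Φ.IsSp z s → Φ'.IsSp Φ'.o s' → Matched d s s' → z = Φ.o)

/-- HP. Two factors without intertwining matrices are independent. -/
def Stmt_HP : Prop :=
  ∀ (g g' n n' : ℕ) (Φ : SpinFac g n) (Φ' : SpinFac g' n')
    (d : Matrix (Fin n) (Fin n) ℂ → Matrix (Fin n') (Fin n') ℂ → Prop), PairRel Φ.S Φ'.S d →
    (∀ F : Matrix (Idx g') (Idx g) ℂ, (∀ a b, d a b → Φ'.Z b * F = F * Φ.Z a) → F = 0) →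
    ∀ x ∈ Φ.S, ∀ y ∈ Φ.S, d (x * y - y * x) 0

/-- NI. Factors without homomorphisms have no intertwining matrices. -/
def Stmt_NI : Prop :=
  ∀ (g : ℕ) (A : AbVar g) (r s : ℕ) (h : Fin (r + s) → ℕ) (B : ∀ i, AbVar (h i)) (D : Decomp A B),
    (∀ i j, i ≠ j → ∀ α, IsHom (B i) (B j) α → α = 0) →
    ∀ (n₁ m₁ : Fin r → ℕ) (K₁ : ∀ i, KSE (B (Fin.castAdd s i)) (n₁ i) (m₁ i))
    (n₂ m₂ : Fin s → ℕ) (K₂ : ∀ j, KSC (B (Fin.natAdd r j)) (n₂ j) (m₂ j)),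
    (∀ i, 3 ≤ m₁ i) → (∀ j, 1 ≤ m₂ j) →
    (∀ i j, i ≠ j → ∀ F : Matrix (Idx (h (Fin.castAdd s j))) (Idx (h (Fin.castAdd s i))) ℂ,
      (∀ a b, DD2 D K₁ K₂ a b → (K₁ j).Z (a j) * F = F * (K₁ i).Z (a i)) → F = 0) ∧
    (∀ i j, ∀ F : Matrix (Idx (h (Fin.natAdd r j))) (Idx (h (Fin.castAdd s i))) ℂ,
      (∀ a b, DD2 D K₁ K₂ a b → (K₂ j).Z (b j) * F = F * (K₁ i).Z (a i)) → F = 0) ∧
    (∀ i j, i ≠ j → ∀ F : Matrix (Idx (h (Fin.natAdd r j))) (Idx (h (Fin.natAdd r i))) ℂ,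
      (∀ a b, DD2 D K₁ K₂ a b → (K₂ j).Z (b j) * F = F * (K₂ i).Z (b i)) → F = 0)

/-- H1E. The spin structures of the factors with real multiplication, `m = 3` or `m = 4`. -/
def Stmt_H1E : Prop :=
  ∀ (g : ℕ) (A : AbVar g) (n m : ℕ) (K : KSE A n m), (m = 3 ∨ m = 4) →
    ∃ Φ : SpinFac g n, Φ.S = K.S ∧ ∀ a, Φ.Z a = K.Z a

/-- H1C. The spin structures of the factors with complex multiplication, `m = 2`. -/
def Stmt_H1C : Prop :=
  ∀ (g : ℕ) (A : AbVar g) (n : ℕ) (K : KSC A n 2),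
    ∃ Φ : SpinFac g n, Φ.S = K.S ∧ ∀ a, Φ.Z a = K.Z a

end

end Pool.Agent.K3M
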