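import Pool.Agent.K3M.Stmts
import Pool.Agent.K3M.ND

/-!
# NC, first part: ideals of `sl(T_z)`, pairs of places
-/

set_option autoImplicit false

open scoped BigOperators
open Matrix Polynomial

namespace Pool.Agent.K3M

open Pool.Agent.DRB Pool.Agent.K3D Pool.Agent.K3E Pool.Agent.K3C Pool.Agent.K3P

namespace NCX

section one

variable {g n m : ℕ} {A : AbVar g} (K : KSC A n m)

/-- a vector with given scalar product -/
theorem ex_one {z : ℂ} {x : Fin n → ℂ} (hx : x ∈ K.Tl z) (hx0 : x ≠ 0) :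
    ∃ u ∈ K.Tl ((starRingEnd ℂ) z), K.bil x u = 1 := by
  by_contra hcon
  push Not at hcon
  refine hx0 (C5L.nondegT K hx fun t ht => ?_)
  by_contra hne'
  refine hcon ((K.bil x t)⁻¹ • t) (Submodule.smul_mem _ _ ht) ?_
  rw [C5L.bil_smul_right, inv_mul_cancel₀ hne']

theorem ex_one' {z : ℂ} {y : Fin n → ℂ} (hy : y ∈ K.Tl ((starRingEnd ℂ) z)) (hy0 : y ≠ 0) :
    ∃ w ∈ K.Tl z, K.bil w y = 1 := by
  obtain ⟨w, hw, h⟩ := ex_one K hy hy0
  rw [Complex.conj_conj] at hw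
  exact ⟨w, hw, by rw [C5L.bil_comm]; exact h⟩

/-- scalar products inside one eigenspace vanish -/
theorem o1 {z : ℂ} (hz : aeval z K.P = 0) {v v' : Fin n → ℂ} (hv : v ∈ K.Tl z) (hv' : v' ∈ K.Tl z) :
    K.bil v v' = 0 := C5L.orth K (Ne.symm (C5L.conj_ne K hz)) hv hv'

theorem o2 {z : ℂ} (hz : aeval z K.P = 0) {v v' : Fin n → ℂ} (hv : v ∈ K.Tl ((starRingEnd ℂ) z))
    (hv' : v' ∈ K.Tl ((starRingEnd ℂ) z)) : K.bil v v' = 0 :=
  C5L.orth K (by rw [Complex.conj_conj]; exact C5L.conj_ne K hz) hv hv'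

/-- A flag opposite to two given flags. -/
theorem opp {z : ℂ} {x u : Fin n → ℂ} (hx : x ∈ K.Tl z) (hu : u ∈ K.Tl z) {y v : Fin n → ℂ}
    (hy : y ∈ K.Tl ((starRingEnd ℂ) z)) (hv : v ∈ K.Tl ((starRingEnd ℂ) z)) (hx0 : x ≠ 0) (hu0 : u ≠ 0)
    (hy0 : y ≠ 0) (hv0 : v ≠ 0) (hxy : K.bil x y = 0) (huv : K.bil u v = 0) :
    ∃ x' ∈ K.Tl z, ∃ y' ∈ K.Tl ((starRingEnd ℂ) z), K.bil x' y' = 0 ∧ K.bil x y' ≠ 0 ∧ K.bil u y' ≠ 0 ∧
      K.bil x' y ≠ 0 ∧ K.bil x' v ≠ 0 := by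
  obtain ⟨y', hy', h1, h2⟩ : ∃ y' ∈ K.Tl ((starRingEnd ℂ) z), K.bil x y' ≠ 0 ∧ K.bil u y' ≠ 0 := by
    obtain ⟨y1, hy1, e1⟩ := ex_one K hx hx0
    obtain ⟨y2, hy2, e2⟩ := ex_one K hu hu0
    by_cases h3 : K.bil u y1 = 0
    · by_cases h4 : K.bil x y2 = 0
      · refine ⟨y1 + y2, Submodule.add_mem _ hy1 hy2, ?_, ?_⟩
        · rw [C5L.bil_add_right, e1, h4, add_zero]; exact one_ne_zero
        · rw [C5L.bil_add_right, e2, h3, zero_add]; exact one_ne_zero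
      · exact ⟨y2, hy2, h4, by rw [e2]; exact one_ne_zero⟩
    · exact ⟨y1, hy1, by rw [e1]; exact one_ne_zero, h3⟩
  -- r and s in the orthogonal of y'
  obtain ⟨r, hr, r1, r2⟩ : ∃ r ∈ K.Tl z, K.bil r y' = 0 ∧ K.bil r y = 1 := by
    obtain ⟨r0, hr0, e⟩ := ex_one' K hy hy0
    refine ⟨r0 - (K.bil r0 y' / K.bil x y') • x, Submodule.sub_mem _ hr0 (Submodule.smul_mem _ _ hx), ?_, ?_⟩
    · rw [sub_eq_add_neg, ← neg_smul, C5L.bil_add_left, C5L.bil_smul_left]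
      field_simp
      ring
    · rw [sub_eq_add_neg, ← neg_smul, C5L.bil_add_left, C5L.bil_smul_left, hxy, e]
      ring
  obtain ⟨s, hs, s1, s2⟩ : ∃ s ∈ K.Tl z, K.bil s y' = 0 ∧ K.bil s v = 1 := by
    obtain ⟨s0, hs0, e⟩ := ex_one' K hv hv0
    refine ⟨s0 - (K.bil s0 y' / K.bil u y') • u, Submodule.sub_mem _ hs0 (Submodule.smul_mem _ _ hu), ?_, ?_⟩
    · rw [sub_eq_add_neg, ← neg_smul, C5L.bil_add_left, C5L.bil_smul_left]
      field_simp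
      ring
    · rw [sub_eq_add_neg, ← neg_smul, C5L.bil_add_left, C5L.bil_smul_left, huv, e]
      ring
  by_cases h3 : K.bil r v = 0
  · by_cases h4 : K.bil s y = 0
    · refine ⟨r + s, Submodule.add_mem _ hr hs, y', hy', ?_, h1, h2, ?_, ?_⟩
      · rw [C5L.bil_add_left, r1, s1, add_zero]
      · rw [C5L.bil_add_left, r2, h4, add_zero]; exact one_ne_zero
      · rw [C5L.bil_add_left, s2, h3, zero_add]; exact one_ne_zero
    · exact ⟨s, hs, y', hy', s1, h1, h2, h4, by rw [s2]; exact one_ne_zero⟩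
  · exact ⟨r, hr, y', hy', r1, h1, h2, by rw [r2]; exact one_ne_zero, h3⟩

/-- Double brackets with a flag. -/
theorem brk2 {z : ℂ} (hz : aeval z K.P = 0) {x y : Fin n → ℂ} (hx : x ∈ K.Tl z)
    (hy : y ∈ K.Tl ((starRingEnd ℂ) z)) (hxy : K.bil x y = 0) {c : Matrix (Fin n) (Fin n) ℂ}
    (hc : c ∈ K.S) :
    (c * C5L.wm K x y - C5L.wm K x y * c) * C5L.wm K x y -
      C5L.wm K x y * (c * C5L.wm K x y - C5L.wm K x y * c) = (-(2 * K.bil (c *ᵥ x) y)) • C5L.wm K x y := by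
  have hX := C5L.wm_mem K hz hx hy
  have hcx := C5L.S_pres K hc hx
  have hcy := C5L.S_pres K hc hy
  have hyx : K.bil y x = 0 := by rw [C5L.bil_comm]; exact hxy
  have h1 : c * C5L.wm K x y - C5L.wm K x y * c = C5L.wm K (c *ᵥ x) y + C5L.wm K x (c *ᵥ y) :=
    C8D.comm_wm K hc x y
  have h2 := C8D.comm_wm K hX (c *ᵥ x) y
  have h3 := C8D.comm_wm K hX x (c *ᵥ y)
  have e1 : C5L.wm K x y *ᵥ (c *ᵥ x) = K.bil (c *ᵥ x) y • x := by
    rw [C5L.wm_mulVec, o1 K hz hx hcx, zero_smul, sub_zero, C5L.bil_comm]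
  have e2 : C5L.wm K x y *ᵥ y = 0 := by
    rw [C5L.wm_mulVec, o2 K hz hy hy, hxy, zero_smul, zero_smul, sub_zero]
  have e3 : C5L.wm K x y *ᵥ x = 0 := by
    rw [C5L.wm_mulVec, o1 K hz hx hx, hyx, zero_smul, zero_smul, sub_zero]
  have e4 : C5L.wm K x y *ᵥ (c *ᵥ y) = K.bil (c *ᵥ x) y • y := by
    rw [C5L.wm_mulVec, o2 K hz hy hcy, zero_smul, zero_sub, C5L.bil_S K hc x y, neg_smul]
  rw [e1, e2, C8D.wm_zero_right, C8D.wm_smul_left, add_zero] at h2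
  rw [e3, e4, C8D.wm_zero_left, C8D.wm_smul_right, zero_add] at h3
  rw [h1]
  have h5 : (C5L.wm K (c *ᵥ x) y + C5L.wm K x (c *ᵥ y)) * C5L.wm K x y -
      C5L.wm K x y * (C5L.wm K (c *ᵥ x) y + C5L.wm K x (c *ᵥ y)) =
      -((C5L.wm K x y * C5L.wm K (c *ᵥ x) y - C5L.wm K (c *ᵥ x) y * C5L.wm K x y) +
      (C5L.wm K x y * C5L.wm K x (c *ᵥ y) - C5L.wm K x (c *ᵥ y) * C5L.wm K x y)) := by noncomm_ring
  rw [h5, h2, h3, ← add_smul, ← neg_smul]
  congr 1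
  ring

/-- two elements of `S` equal on `T_z` are equal on `T_{z^c}` -/
theorem S_dual {a a' : Matrix (Fin n) (Fin n) ℂ} (ha : a ∈ K.S) (ha' : a' ∈ K.S) {z : ℂ}
    (h : ∀ v ∈ K.Tl z, a *ᵥ v = a' *ᵥ v) : ∀ v ∈ K.Tl ((starRingEnd ℂ) z), a *ᵥ v = a' *ᵥ v := by
  intro v hv
  rw [← sub_eq_zero]
  refine C5L.nondegT K (Submodule.sub_mem _ (C5L.S_pres K ha hv) (C5L.S_pres K ha' hv)) fun w hw => ?_
  rw [Complex.conj_conj] at hw
  have h1 : K.bil (a *ᵥ v - a' *ᵥ v) w = K.bil (a *ᵥ v) w - K.bil (a' *ᵥ v) w := by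
    rw [← C5L.bf_apply, map_sub, LinearMap.sub_apply, C5L.bf_apply, C5L.bf_apply]
  rw [h1, C5L.bil_S K ha, C5L.bil_S K ha', h w hw, sub_self]

/-- A non scalar element has a nonzero coefficient at some flag. -/
theorem ex_flag {z : ℂ} (hz : aeval z K.P = 0) {c : Matrix (Fin n) (Fin n) ℂ} (hc : c ∈ K.S)
    (hns : ¬ ∃ μ : ℂ, ∀ v ∈ K.Tl z, c *ᵥ v = μ • v) :
    ∃ x ∈ K.Tl z, ∃ y ∈ K.Tl ((starRingEnd ℂ) z), K.bil x y = 0 ∧ K.bil (c *ᵥ x) y ≠ 0 := by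
  classical
  by_contra hcon
  push Not at hcon
  apply hns
  obtain ⟨b, b', hb, hb', h0, h1, -⟩ := C8D.dual K hz
  have h0' : ∀ i j, K.bil (b i) (b' j) = if i = j then 1 else 0 := by
    intro i j; rw [C5L.bil_comm, h0]
  rcases isEmpty_or_nonempty (Fin (Module.finrank ℂ (K.Tl z))) with hN | ⟨⟨i0⟩⟩
  · refine ⟨0, fun v hv => ?_⟩
    have : v = 0 := by
      rw [← h1 v hv]
      exact Finset.sum_eq_zero fun j _ => (hN.false j).elim
    rw [this, Matrix.mulVec_zero, smul_zero]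
  refine ⟨K.bil (c *ᵥ b i0) (b' i0), ?_⟩
  have hoff : ∀ i j, i ≠ j → K.bil (c *ᵥ b i) (b' j) = 0 := fun i j hij =>
    hcon _ (hb i) _ (hb' j) (by rw [h0', if_neg hij])
  have hdiag : ∀ i, K.bil (c *ᵥ b i) (b' i) = K.bil (c *ᵥ b i0) (b' i0) := by
    intro i
    by_cases hi : i = i0
    · rw [hi]
    have h3 := hcon (b i + b i0) (Submodule.add_mem _ (hb i) (hb i0)) (b' i - b' i0)
      (Submodule.sub_mem _ (hb' i) (hb' i0)) (by
        rw [sub_eq_add_neg, ← neg_one_smul ℂ (b' i0), C5L.bil_add_left, C5L.bil_add_right,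
          C5L.bil_add_right, C5L.bil_smul_right, C5L.bil_smul_right, h0', h0', h0', h0', if_pos rfl,
          if_pos rfl, if_neg hi, if_neg (Ne.symm hi)]
        ring)
    rw [Matrix.mulVec_add, sub_eq_add_neg, ← neg_one_smul ℂ (b' i0), C5L.bil_add_left,
      C5L.bil_add_right, C5L.bil_add_right, C5L.bil_smul_right, C5L.bil_smul_right, hoff i i0 hi,
      hoff i0 i (Ne.symm hi)] at h3
    linear_combination h3
  have hbi : ∀ i, c *ᵥ b i = K.bil (c *ᵥ b i0) (b' i0) • b i := by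
    intro i
    rw [← h1 (c *ᵥ b i) (C5L.S_pres K hc (hb i)), Finset.sum_eq_single i]
    · rw [C5L.bil_comm, hdiag]
    · intro j _ hj
      rw [C5L.bil_comm, hoff i j (Ne.symm hj), zero_smul]
    · intro h; exact absurd (Finset.mem_univ i) h
  intro v hv
  have h4 : c *ᵥ v = ∑ j, K.bil (b' j) v • (c *ᵥ b j) := by
    conv_lhs => rw [← h1 v hv]
    rw [← Matrix.mulVecLin_apply, map_sum]
    exact Finset.sum_congr rfl fun j _ => by rw [map_smul, Matrix.mulVecLin_apply]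
  rw [h4]
  conv_rhs => rw [← h1 v hv, Finset.smul_sum]
  exact Finset.sum_congr rfl fun j _ => by rw [hbi, smul_comm]

/-- An `sl_2` triple for a flag. -/
theorem triple {z : ℂ} (hz : aeval z K.P = 0) {x y : Fin n → ℂ} (hx : x ∈ K.Tl z)
    (hy : y ∈ K.Tl ((starRingEnd ℂ) z)) (hx0 : x ≠ 0) (hy0 : y ≠ 0) (hxy : K.bil x y = 0) :
    ∃ w ∈ K.Tl z, ∃ u ∈ K.Tl ((starRingEnd ℂ) z), K.bil w u = 0 ∧
      (C5L.wm K x y * C5L.wm K w u - C5L.wm K w u * C5L.wm K x y) * C5L.wm K x y -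
        C5L.wm K x y * (C5L.wm K x y * C5L.wm K w u - C5L.wm K w u * C5L.wm K x y) =
          (2 : ℂ) • C5L.wm K x y := by
  obtain ⟨u, hu, hxu⟩ := ex_one K hx hx0
  obtain ⟨w0, hw0, hwy⟩ := ex_one' K hy hy0
  have hw : w0 - K.bil w0 u • x ∈ K.Tl z := Submodule.sub_mem _ hw0 (Submodule.smul_mem _ _ hx)
  have h1 : K.bil (w0 - K.bil w0 u • x) u = 0 := by
    rw [sub_eq_add_neg, ← neg_smul, C5L.bil_add_left, C5L.bil_smul_left, hxu]
    ring
  have h2 : K.bil (w0 - K.bil w0 u • x) y = 1 := by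
    rw [sub_eq_add_neg, ← neg_smul, C5L.bil_add_left, C5L.bil_smul_left, hxy, hwy]
    ring
  generalize w0 - K.bil w0 u • x = w at hw h1 h2
  refine ⟨w, hw, u, hu, h1, ?_⟩
  have h3 := brk2 K hz hx hy hxy (C5L.wm_mem K hz hw hu)
  have h4 : C5L.wm K w u *ᵥ x = w := by
    rw [C5L.wm_mulVec, o1 K hz hw hx, zero_smul, sub_zero, C5L.bil_comm, hxu, one_smul]
  rw [h4, h2] at h3
  have h5 : (C5L.wm K x y * C5L.wm K w u - C5L.wm K w u * C5L.wm K x y) * C5L.wm K x y -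
        C5L.wm K x y * (C5L.wm K x y * C5L.wm K w u - C5L.wm K w u * C5L.wm K x y) =
      -((C5L.wm K w u * C5L.wm K x y - C5L.wm K x y * C5L.wm K w u) * C5L.wm K x y -
        C5L.wm K x y * (C5L.wm K w u * C5L.wm K x y - C5L.wm K x y * C5L.wm K w u)) := by noncomm_ring
  rw [h5, h3, ← neg_smul]
  congr 1
  ring

/-- wedges vanish at the other places -/
theorem wm_other {z z' : ℂ} (h1 : z' ≠ z) (h2 : z' ≠ (starRingEnd ℂ) z) {x y : Fin n → ℂ}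
    (hx : x ∈ K.Tl z) (hy : y ∈ K.Tl ((starRingEnd ℂ) z)) {v : Fin n → ℂ} (hv : v ∈ K.Tl z') :
    C5L.wm K x y *ᵥ v = 0 := by
  rw [C5L.wm_mulVec, C5L.orth K h2 hx hv, C5L.orth K (by rw [Complex.conj_conj]; exact h1) hy hv,
    zero_smul, zero_smul, sub_zero]

end one

/-- The tuples of matrices at the factors with complex multiplication. -/
structure TupC {s : ℕ} {h : Fin s → ℕ} {B : ∀ j, AbVar (h j)} {n m : Fin s → ℕ}
    (K : ∀ j, KSC (B j) (n j) (m j)) (e : (∀ j, Matrix (Fin (n j)) (Fin (n j)) ℂ) → Prop) : Prop where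
  lin : ∀ a b (c : ℂ), e a → e b → e (fun j => a j + c • b j)
  zero : e 0
  brk : ∀ a b, e a → e b → e (fun j => a j * b j - b j * a j)
  aut : ∀ (σ : ℂ ≃ₐ[ℚ] ℂ) a, e a → e (fun j => (a j).map σ)
  mem : ∀ a, e a → ∀ j, a j ∈ (K j).S
  onto : ∀ j, ∀ x ∈ (K j).S, ∀ y ∈ (K j).S, ∃ a, e a ∧ a j = x * y - y * x

section tup

variable {s : ℕ} {h : Fin s → ℕ} {B : ∀ j, AbVar (h j)} {n m : Fin s → ℕ}
  {K : ∀ j, KSC (B j) (n j) (m j)} {e : (∀ j, Matrix (Fin (n j)) (Fin (n j)) ℂ) → Prop}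

/-- the tuples as a subspace -/
def sub (T : TupC K e) : Submodule ℂ (∀ j, Matrix (Fin (n j)) (Fin (n j)) ℂ) where
  carrier := {p | e p}
  add_mem' := by
    intro p q hp hq
    have h1 := T.lin p q 1 hp hq
    simp only [one_smul] at h1
    exact h1
  zero_mem' := T.zero
  smul_mem' := by
    intro c p hp
    have h1 := T.lin 0 p c T.zero hp
    simp only [Pi.zero_apply, zero_add] at h1
    exact h1

theorem mem_sub (T : TupC K e) (a : ∀ j, Matrix (Fin (n j)) (Fin (n j)) ℂ) : a ∈ sub T ↔ e a := Iff.rfl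

theorem pres (T : TupC K e) {t : ∀ j, Matrix (Fin (n j)) (Fin (n j)) ℂ} (ht : e t) (j : Fin s)
    {w : ℂ} {v : Fin (n j) → ℂ} (hv : v ∈ (K j).Tl w) : t j *ᵥ v ∈ (K j).Tl w :=
  C5L.S_pres (K j) (T.mem t ht j) hv

/-- lifts of flags -/
theorem lift_flag (T : TupC K e) (j : Fin s) {z : ℂ} (hz : aeval z (K j).P = 0) {x y : Fin (n j) → ℂ}
    (hx : x ∈ (K j).Tl z) (hy : y ∈ (K j).Tl ((starRingEnd ℂ) z)) (hxy : (K j).bil x y = 0) :
    ∃ t, e t ∧ t j = C5L.wm (K j) x y := by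
  by_cases hx0 : x = 0
  · exact ⟨0, T.zero, by rw [hx0, C8D.wm_zero_left]; rfl⟩
  by_cases hy0 : y = 0
  · exact ⟨0, T.zero, by rw [hy0, C8D.wm_zero_right]; rfl⟩
  obtain ⟨w, hw, u, hu, -, h1⟩ := triple (K j) hz hx hy hx0 hy0 hxy
  have hX := C5L.wm_mem (K j) hz hx hy
  have hW := C5L.wm_mem (K j) hz hw hu
  obtain ⟨a, ha, haj⟩ := T.onto j _ hX _ hW
  obtain ⟨t, ht, htj⟩ := T.onto j _ (T.mem a ha j) _ hX
  refine ⟨(1 / 2 : ℂ) • t, (sub T).smul_mem _ ht, ?_⟩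
  rw [Pi.smul_apply, htj, haj, h1, smul_smul]
  norm_num

/-- The matrices which lift to tuples vanishing at a given place. -/
def L (T : TupC K e) (j : Fin s) (z : ℂ) (j' : Fin s) (w : ℂ) :
    Submodule ℂ (Matrix (Fin (n j)) (Fin (n j)) ℂ) where
  carrier := {X | ∃ t, e t ∧ (∀ v ∈ (K j).Tl z, t j *ᵥ v = X *ᵥ v) ∧ ∀ v ∈ (K j').Tl w, t j' *ᵥ v = 0}
  add_mem' := by
    rintro X Y ⟨t, ht, h1, h2⟩ ⟨s, hs, h3, h4⟩
    refine ⟨t + s, (sub T).add_mem ht hs, fun v hv => ?_, fun v hv => ?_⟩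
    · rw [Pi.add_apply, Matrix.add_mulVec, h1 v hv, h3 v hv, Matrix.add_mulVec]
    · rw [Pi.add_apply, Matrix.add_mulVec, h2 v hv, h4 v hv, add_zero]
  zero_mem' := by
    refine ⟨0, (sub T).zero_mem, fun v _ => ?_, fun v _ => ?_⟩
    · rw [Pi.zero_apply]
    · rw [Pi.zero_apply, Matrix.zero_mulVec]
  smul_mem' := by
    rintro c X ⟨t, ht, h1, h2⟩
    refine ⟨c • t, (sub T).smul_mem c ht, fun v hv => ?_, fun v hv => ?_⟩
    · rw [Pi.smul_apply, Matrix.smul_mulVec, h1 v hv, Matrix.smul_mulVec]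
    · rw [Pi.smul_apply, Matrix.smul_mulVec, h2 v hv, smul_zero]

/-- The places `(j, z)` and `(j', w)` are independent. -/
def Free (T : TupC K e) (j : Fin s) (z : ℂ) (j' : Fin s) (w : ℂ) : Prop :=
  ∀ x ∈ (K j).Tl z, ∀ y ∈ (K j).Tl ((starRingEnd ℂ) z), (K j).bil x y = 0 →
    C5L.wm (K j) x y ∈ L T j z j' w

/-- brackets with flags -/
theorem L_brk (T : TupC K e) {j : Fin s} {z : ℂ} {j' : Fin s} {w : ℂ} (hz : aeval z (K j).P = 0)
    {X : Matrix (Fin (n j)) (Fin (n j)) ℂ} (hX : X ∈ L T j z j' w) {x y : Fin (n j) → ℂ}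
    (hx : x ∈ (K j).Tl z) (hy : y ∈ (K j).Tl ((starRingEnd ℂ) z)) (hxy : (K j).bil x y = 0) :
    X * C5L.wm (K j) x y - C5L.wm (K j) x y * X ∈ L T j z j' w := by
  obtain ⟨t, ht, h1, h2⟩ := hX
  obtain ⟨s, hs, hsj⟩ := lift_flag T j hz hx hy hxy
  refine ⟨fun k => t k * s k - s k * t k, T.brk t s ht hs, fun v hv => ?_, fun v hv => ?_⟩
  · rw [Matrix.sub_mulVec, Matrix.sub_mulVec, ← Matrix.mulVec_mulVec, ← Matrix.mulVec_mulVec,
      ← Matrix.mulVec_mulVec, ← Matrix.mulVec_mulVec, hsj, h1 v hv,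
      h1 _ (C5L.S_pres (K j) (C5L.wm_mem (K j) hz hx hy) hv)]
  · rw [Matrix.sub_mulVec, ← Matrix.mulVec_mulVec, ← Matrix.mulVec_mulVec, h2 v hv,
      h2 _ (pres T hs j' hv), Matrix.mulVec_zero, sub_zero]

/-- Simplicity of `sl(T_z)`. -/
theorem simple (T : TupC K e) {j : Fin s} {z : ℂ} {j' : Fin s} {w : ℂ} (hz : aeval z (K j).P = 0)
    {c : Matrix (Fin (n j)) (Fin (n j)) ℂ} (hcS : c ∈ (K j).S) (hc : c ∈ L T j z j' w)
    (hns : ¬ ∃ μ : ℂ, ∀ v ∈ (K j).Tl z, c *ᵥ v = μ • v) : Free T j z j' w := by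
  -- the double bracket
  have key : ∀ c ∈ (K j).S, c ∈ L T j z j' w → ∀ x ∈ (K j).Tl z, ∀ y ∈ (K j).Tl ((starRingEnd ℂ) z),
      (K j).bil x y = 0 → (K j).bil (c *ᵥ x) y ≠ 0 → C5L.wm (K j) x y ∈ L T j z j' w := by
    intro c hcS hc x hx y hy hxy hne
    have h1 := L_brk T hz (L_brk T hz hc hx hy hxy) hx hy hxy
    rw [brk2 (K j) hz hx hy hxy hcS] at h1
    have h2 := (L T j z j' w).smul_mem (-(2 * (K j).bil (c *ᵥ x) y))⁻¹ h1
    rwa [smul_smul, inv_mul_cancel₀ (neg_ne_zero.2 (mul_ne_zero two_ne_zero hne)), one_smul] at h2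
  obtain ⟨x0, hx0, y0, hy0, hxy0, hne0⟩ := ex_flag (K j) hz hcS hns
  have hf0 := key c hcS hc x0 hx0 y0 hy0 hxy0 hne0
  have hx00 : x0 ≠ 0 := by
    rintro rfl
    rw [Matrix.mulVec_zero, C5L.bil_zero_left] at hne0
    exact hne0 rfl
  have hy00 : y0 ≠ 0 := by
    rintro rfl
    rw [C5L.bil_zero_right] at hne0
    exact hne0 rfl
  intro u hu v hv huv
  by_cases hu0 : u = 0
  · rw [hu0, C8D.wm_zero_left]; exact Submodule.zero_mem _
  by_cases hv0 : v = 0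
  · rw [hv0, C8D.wm_zero_right]; exact Submodule.zero_mem _
  obtain ⟨x', hx', y', hy', h1, h2, h3, h4, h5⟩ := opp (K j) hx0 hu hy0 hv hx00 hu0 hy00 hv0 hxy0 huv
  have hf' := key _ (C5L.wm_mem (K j) hz hx0 hy0) hf0 x' hx' y' hy' h1 (by
    rw [C5L.wm_mulVec, o1 (K j) hz hx0 hx', zero_smul, sub_zero, C5L.bil_smul_left, C5L.bil_comm (K j) y0]
    exact mul_ne_zero h4 h2)
  exact key _ (C5L.wm_mem (K j) hz hx' hy') hf' u hu v hv huv (by
    rw [C5L.wm_mulVec, o1 (K j) hz hx' hu, zero_smul, sub_zero, C5L.bil_smul_left, C5L.bil_comm (K j) y']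
    exact mul_ne_zero h3 h5)

/-- From pairs of places to finite sets of places. -/
theorem kill (T : TupC K e) {j : Fin s} {z : ℂ} (hz : aeval z (K j).P = 0) (j' : Fin s)
    (J : Finset ℂ) (hJ : ∀ w ∈ J, Free T j z j' w) :
    ∀ x ∈ (K j).Tl z, ∀ y ∈ (K j).Tl ((starRingEnd ℂ) z), (K j).bil x y = 0 → ∃ t, e t ∧
      t j = C5L.wm (K j) x y ∧ ∀ w ∈ J, ∀ v ∈ (K j').Tl w, t j' *ᵥ v = 0 := by
  classical
  induction J using Finset.induction_on with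
  | empty =>
    intro x hx y hy hxy
    obtain ⟨t, ht, htj⟩ := lift_flag T j hz hx hy hxy
    exact ⟨t, ht, htj, fun w hw => absurd hw (Finset.notMem_empty w)⟩
  | insert w J hw ih =>
    intro x hx y hy hxy
    by_cases hx0 : x = 0
    · exact ⟨0, T.zero, by rw [hx0, C8D.wm_zero_left]; rfl, fun w _ v _ => by
        rw [Pi.zero_apply, Matrix.zero_mulVec]⟩
    by_cases hy0 : y = 0
    · exact ⟨0, T.zero, by rw [hy0, C8D.wm_zero_right]; rfl, fun w _ v _ => by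
        rw [Pi.zero_apply, Matrix.zero_mulVec]⟩
    have ih' := ih fun w hw => hJ w (Finset.mem_insert_of_mem hw)
    obtain ⟨w', hw', u, hu, hwu, h1⟩ := triple (K j) hz hx hy hx0 hy0 hxy
    obtain ⟨t1, ht1, h1j, h1J⟩ := ih' x hx y hy hxy
    obtain ⟨t2, ht2, h2j⟩ := lift_flag T j hz hw' hu hwu
    obtain ⟨t3, ht3, h3j, h3w⟩ := hJ w (Finset.mem_insert_self _ _) x hx y hy hxy
    have hX := C5L.wm_mem (K j) hz hx hy
    have hW := C5L.wm_mem (K j) hz hw' hu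
    obtain ⟨t4, h4, ht4⟩ : ∃ t4, e t4 ∧ ∀ k, t4 k = t1 k * t2 k - t2 k * t1 k :=
      ⟨fun k => t1 k * t2 k - t2 k * t1 k, T.brk t1 t2 ht1 ht2, fun _ => rfl⟩
    obtain ⟨t5, h5, ht5⟩ : ∃ t5, e t5 ∧ ∀ k, t5 k = t4 k * t3 k - t3 k * t4 k :=
      ⟨fun k => t4 k * t3 k - t3 k * t4 k, T.brk t4 t3 h4 ht3, fun _ => rfl⟩
    have h4j : t4 j = C5L.wm (K j) x y * C5L.wm (K j) w' u - C5L.wm (K j) w' u * C5L.wm (K j) x y := by
      rw [ht4, h1j, h2j]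
    have h5z : ∀ v ∈ (K j).Tl z, t5 j *ᵥ v = ((2 : ℂ) • C5L.wm (K j) x y) *ᵥ v := by
      intro v hv
      have h6 : t4 j *ᵥ v ∈ (K j).Tl z := pres T h4 j hv
      rw [← h1, ← h4j, ht5, Matrix.sub_mulVec, ← Matrix.mulVec_mulVec, ← Matrix.mulVec_mulVec, h3j v hv,
        h3j _ h6, Matrix.sub_mulVec, ← Matrix.mulVec_mulVec, ← Matrix.mulVec_mulVec]
    have h5j : t5 j = (2 : ℂ) • C5L.wm (K j) x y := by
      refine C5L.mat_extT (K j) fun z' hz' v hv => ?_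
      by_cases e1 : z' = z
      · subst e1; exact h5z v hv
      by_cases e2 : z' = (starRingEnd ℂ) z
      · rw [e2] at hv
        exact S_dual (K j) (T.mem t5 h5 j) ((K j).S.smul_mem 2 hX) h5z v hv
      · have h7 : ∀ v ∈ (K j).Tl z', t4 j *ᵥ v = 0 := by
          intro v hv
          rw [h4j, Matrix.sub_mulVec, ← Matrix.mulVec_mulVec, ← Matrix.mulVec_mulVec,
            wm_other (K j) e1 e2 hx hy hv, wm_other (K j) e1 e2 hw' hu hv, Matrix.mulVec_zero,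
            Matrix.mulVec_zero, sub_zero]
        rw [ht5, Matrix.sub_mulVec, ← Matrix.mulVec_mulVec, ← Matrix.mulVec_mulVec, h7 v hv,
          h7 _ (pres T ht3 j hv), Matrix.mulVec_zero, sub_zero, Matrix.smul_mulVec,
          wm_other (K j) e1 e2 hx hy hv, smul_zero]
    refine ⟨(1 / 2 : ℂ) • t5, (sub T).smul_mem _ h5, ?_, ?_⟩
    · rw [Pi.smul_apply, h5j, smul_smul]
      norm_num
    · intro q hq v hv
      rw [Pi.smul_apply, Matrix.smul_mulVec, ht5, Matrix.sub_mulVec, ← Matrix.mulVec_mulVec,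
        ← Matrix.mulVec_mulVec]
      rcases Finset.mem_insert.1 hq with hqw | hqJ
      · subst hqw
        rw [h3w v hv, h3w _ (pres T h4 j' hv), Matrix.mulVec_zero, sub_zero, smul_zero]
      · have h8 : ∀ v ∈ (K j').Tl q, t4 j' *ᵥ v = 0 := by
          intro v hv
          rw [ht4, Matrix.sub_mulVec, ← Matrix.mulVec_mulVec, ← Matrix.mulVec_mulVec, h1J q hqJ v hv,
            h1J q hqJ _ (pres T ht2 j' hv), Matrix.mulVec_zero, sub_zero]
        rw [h8 v hv, h8 _ (pres T ht3 j' hv), Matrix.mulVec_zero, sub_zero, smul_zero]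

/-- If all pairs of places are independent, the factors are independent. -/
theorem of_free (T : TupC K e) {j j' : Fin s}
    (hfree : ∀ z w : ℂ, aeval z (K j).P = 0 → aeval w (K j').P = 0 → Free T j z j' w)
    {x y : Matrix (Fin (n j)) (Fin (n j)) ℂ} (hx : x ∈ (K j).S) (hy : y ∈ (K j).S) :
    ∃ b, e b ∧ b j = x * y - y * x ∧ b j' = 0 := by
  classical
  let W : Submodule ℂ (Matrix (Fin (n j)) (Fin (n j)) ℂ) :=
    { carrier := {c | ∃ b, e b ∧ b j = c ∧ b j' = 0}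
      add_mem' := by
        rintro a b ⟨t, ht, rfl, ht0⟩ ⟨s, hs, rfl, hs0⟩
        exact ⟨t + s, (sub T).add_mem ht hs, rfl, by rw [Pi.add_apply, ht0, hs0, add_zero]⟩
      zero_mem' := ⟨0, (sub T).zero_mem, rfl, rfl⟩
      smul_mem' := by
        rintro c a ⟨t, ht, rfl, ht0⟩
        exact ⟨c • t, (sub T).smul_mem c ht, rfl, by rw [Pi.smul_apply, ht0, smul_zero]⟩ }
  show x * y - y * x ∈ W
  refine C8D.derived (K j) (fun z hz x hx y hy hxy => ?_) hx hy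
  let R : Finset ℂ := ((K j').P.aroots ℂ).toFinset
  have hR : ∀ w, w ∈ R ↔ aeval w (K j').P = 0 := by
    intro w
    rw [Multiset.mem_toFinset, Polynomial.mem_aroots]
    exact ⟨fun h => h.2, fun h => ⟨(K j').irr.ne_zero, h⟩⟩
  obtain ⟨t, ht, htj, htJ⟩ := kill T hz j' R (fun w hw => hfree z w hz ((hR w).1 hw)) x hx y hy hxy
  refine ⟨t, ht, htj, ?_⟩
  refine C5L.mat_extT (K j') fun w hw v hv => ?_
  rw [htJ w ((hR w).2 hw) v hv, Matrix.zero_mulVec]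

end tup

end NCX

end Pool.Agent.K3M
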