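import Pool.Agent.K3M.NC1
import Pool.Agent.K3M.NCd
import Pool.Agent.K3C.C8t

/-!
# NC, second part: the derived algebra, kernels at two places, dimensions
-/

set_option autoImplicit false

open scoped BigOperators
open Matrix Polynomial

namespace Pool.Agent.K3M

open Pool.Agent.DRB Pool.Agent.K3D Pool.Agent.K3E Pool.Agent.K3C Pool.Agent.K3P

namespace NCX

theorem tr_comm {V : Type} [AddCommGroup V] [Module ℂ V] (f g : Module.End ℂ V) :
    LinearMap.trace ℂ V (f * g - g * f) = 0 := by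
  rw [map_sub, LinearMap.trace_mul_comm, sub_self]

theorem rk {V W : Type} [AddCommGroup V] [Module ℂ V] [AddCommGroup W] [Module ℂ W]
    [FiniteDimensional ℂ V] (f : V →ₗ[ℂ] W) :
    Module.finrank ℂ (LinearMap.range f) + Module.finrank ℂ (LinearMap.ker f) = Module.finrank ℂ V :=
  LinearMap.finrank_range_add_finrank_ker f

theorem trk {V : Type} [AddCommGroup V] [Module ℂ V] [FiniteDimensional ℂ V] {k : ℕ} (hk : 1 ≤ k)
    (hV : Module.finrank ℂ V = k) :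
    Module.finrank ℂ (LinearMap.ker (LinearMap.trace ℂ V)) + 1 = k * k := by
  have h1 := rk (LinearMap.trace ℂ V)
  have h2 : LinearMap.range (LinearMap.trace ℂ V) = ⊤ := by
    rw [LinearMap.range_eq_top]
    intro c
    refine ⟨(c / (k : ℂ)) • (1 : Module.End ℂ V), ?_⟩
    rw [map_smul, LinearMap.trace_one, hV, smul_eq_mul]
    have h3 : (k : ℂ) ≠ 0 := by
      rw [Ne, Nat.cast_eq_zero]; omega
    field_simp
  rw [h2, finrank_top, Module.finrank_self, Module.finrank_linearMap, hV] at h1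
  omega

section one

variable {g n m : ℕ} {A : AbVar g} (K : KSC A n m)

theorem S_comm {a b : Matrix (Fin n) (Fin n) ℂ} (ha : a ∈ K.S) (hb : b ∈ K.S) : a * b - b * a ∈ K.S := by
  obtain ⟨h1, h2⟩ := ha
  obtain ⟨h3, h4⟩ := hb
  have h5 : aᵀ * Matrix.diagonal (fun i => (K.q i : ℂ)) = -(Matrix.diagonal (fun i => (K.q i : ℂ)) * a) :=
    eq_neg_of_add_eq_zero_left h1
  have h6 : bᵀ * Matrix.diagonal (fun i => (K.q i : ℂ)) = -(Matrix.diagonal (fun i => (K.q i : ℂ)) * b) :=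
    eq_neg_of_add_eq_zero_left h3
  refine ⟨?_, ?_⟩
  · generalize Matrix.diagonal (fun i => (K.q i : ℂ)) = Q at *
    have h7 : (a * b - b * a)ᵀ * Q + Q * (a * b - b * a) =
        bᵀ * (aᵀ * Q) - aᵀ * (bᵀ * Q) + Q * (a * b - b * a) := by
      rw [Matrix.transpose_sub, Matrix.transpose_mul, Matrix.transpose_mul]; noncomm_ring
    rw [h7, h5, h6]
    have h8 : bᵀ * -(Q * a) - aᵀ * -(Q * b) + Q * (a * b - b * a) =
        -((bᵀ * Q) * a) + (aᵀ * Q) * b + Q * (a * b - b * a) := by noncomm_ring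
    rw [h8, h5, h6]
    noncomm_ring
  · rw [Matrix.sub_mul, Matrix.mul_sub, Matrix.mul_assoc, h4, ← Matrix.mul_assoc, h2, Matrix.mul_assoc b,
      h2, ← Matrix.mul_assoc b, h4, Matrix.mul_assoc, Matrix.mul_assoc]

theorem rs_apply (z : ℂ) (a : Matrix (Fin n) (Fin n) ℂ) (ha : a ∈ K.S) (v : K.Tl z) :
    ((rs K z a ha v : K.Tl z) : Fin n → ℂ) = a *ᵥ v.1 := rfl

theorem rs_add (z : ℂ) {a b : Matrix (Fin n) (Fin n) ℂ} (ha : a ∈ K.S) (hb : b ∈ K.S) (hab : a + b ∈ K.S) :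
    rs K z (a + b) hab = rs K z a ha + rs K z b hb := by
  refine LinearMap.ext fun v => Subtype.ext ?_
  rw [LinearMap.add_apply, Submodule.coe_add, rs_apply, rs_apply, rs_apply, Matrix.add_mulVec]

theorem rs_smul (z : ℂ) (c : ℂ) {a : Matrix (Fin n) (Fin n) ℂ} (ha : a ∈ K.S) (hca : c • a ∈ K.S) :
    rs K z (c • a) hca = c • rs K z a ha := by
  refine LinearMap.ext fun v => Subtype.ext ?_
  rw [LinearMap.smul_apply, Submodule.coe_smul, rs_apply, rs_apply, Matrix.smul_mulVec]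

theorem rs_comm (z : ℂ) {a b : Matrix (Fin n) (Fin n) ℂ} (ha : a ∈ K.S) (hb : b ∈ K.S)
    (hab : a * b - b * a ∈ K.S) :
    rs K z (a * b - b * a) hab = rs K z a ha * rs K z b hb - rs K z b hb * rs K z a ha := by
  refine LinearMap.ext fun v => Subtype.ext ?_
  rw [LinearMap.sub_apply, Submodule.coe_sub, Module.End.mul_apply, Module.End.mul_apply, rs_apply, rs_apply,
    rs_apply, rs_apply, rs_apply, Matrix.sub_mulVec, ← Matrix.mulVec_mulVec, ← Matrix.mulVec_mulVec]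

/-- the derived algebra -/
def dS : Submodule ℂ (Matrix (Fin n) (Fin n) ℂ) :=
  Submodule.span ℂ {c | ∃ x ∈ K.S, ∃ y ∈ K.S, c = x * y - y * x}

theorem comm_dS {x y : Matrix (Fin n) (Fin n) ℂ} (hx : x ∈ K.S) (hy : y ∈ K.S) : x * y - y * x ∈ dS K :=
  Submodule.subset_span ⟨x, hx, y, hy, rfl⟩

theorem dS_le : dS K ≤ K.S := by
  refine Submodule.span_le.2 ?_
  rintro _ ⟨x, hx, y, hy, rfl⟩
  exact S_comm K hx hy

theorem dS_tr (z : ℂ) {a : Matrix (Fin n) (Fin n) ℂ} (ha : a ∈ dS K) :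
    ∀ h : a ∈ K.S, LinearMap.trace ℂ _ (rs K z a h) = 0 := by
  refine Submodule.span_induction (p := fun a _ => ∀ h : a ∈ K.S, LinearMap.trace ℂ _ (rs K z a h) = 0)
    ?_ ?_ ?_ ?_ ha
  · rintro _ ⟨x, hx, y, hy, rfl⟩ h
    rw [rs_comm K z hx hy]
    exact tr_comm (rs K z x hx) (rs K z y hy)
  · intro h
    have h1 : rs K z 0 h = 0 := by
      refine LinearMap.ext fun v => Subtype.ext ?_
      rw [rs_apply, Matrix.zero_mulVec]
      rfl
    rw [h1, map_zero]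
  · intro a b ha hb h1 h2 h
    rw [rs_add K z (dS_le K ha) (dS_le K hb), map_add, h1, h2, add_zero]
  · intro c a ha h1 h
    rw [rs_smul K z c (dS_le K ha), map_smul, h1, smul_zero]

theorem dS_map (σ : ℂ ≃ₐ[ℚ] ℂ) {a : Matrix (Fin n) (Fin n) ℂ} (ha : a ∈ dS K) : a.map σ ∈ dS K := by
  refine Submodule.span_induction (p := fun a _ => a.map σ ∈ dS K) ?_ ?_ ?_ ?_ ha
  · rintro _ ⟨x, hx, y, hy, rfl⟩
    have h1 : (x * y - y * x).map σ = x.map σ * y.map σ - y.map σ * x.map σ := by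
      have h2 : ∀ Z Z' : Matrix (Fin n) (Fin n) ℂ, (Z * Z').map σ = Z.map σ * Z'.map σ :=
        fun Z Z' => Matrix.map_mul (f := (σ : ℂ →+* ℂ))
      rw [← h2, ← h2]
      ext i j
      rw [Matrix.map_apply, Matrix.sub_apply, map_sub, Matrix.sub_apply, Matrix.map_apply, Matrix.map_apply]
    rw [h1]
    exact comm_dS K (C8T.S_map K σ hx) (C8T.S_map K σ hy)
  · have h1 : (0 : Matrix (Fin n) (Fin n) ℂ).map σ = 0 := by ext i j; simp
    rw [h1]; exact Submodule.zero_mem _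
  · intro a b _ _ h1 h2
    have h3 : (a + b).map σ = a.map σ + b.map σ := by ext i j; simp
    rw [h3]; exact Submodule.add_mem _ h1 h2
  · intro c a _ h1
    have h3 : (c • a).map σ = σ c • a.map σ := by ext i j; simp
    rw [h3]; exact Submodule.smul_mem _ _ h1

theorem tr_eq {z : ℂ} {a : Matrix (Fin n) (Fin n) ℂ} (ha : a ∈ K.S) {N : ℕ} (b b' : Fin N → (Fin n → ℂ))
    (hb : ∀ j, b j ∈ K.Tl z) (h1 : ∀ v ∈ K.Tl z, ∑ j, K.bil (b' j) v • b j = v) :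
    LinearMap.trace ℂ _ (rs K z a ha) = ∑ j, K.bil (b' j) (a *ᵥ b j) := by
  have h2 : rs K z a ha = ∑ j, ((C5L.bf K (b' j)).domRestrict (K.Tl z)).smulRight
      (⟨a *ᵥ b j, C5L.S_pres K ha (hb j)⟩ : K.Tl z) := by
    refine LinearMap.ext fun v => Subtype.ext ?_
    rw [rs_apply, LinearMap.sum_apply, Submodule.coe_sum]
    conv_lhs => rw [← h1 v.1 v.2, ← Matrix.mulVecLin_apply, map_sum]
    refine Finset.sum_congr rfl fun j _ => ?_
    rw [map_smul, Matrix.mulVecLin_apply]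
    rfl
  rw [h2, map_sum]
  refine Finset.sum_congr rfl fun j _ => ?_
  rw [LinearMap.trace_smulRight]
  rfl

theorem split {L : Submodule ℂ (Matrix (Fin n) (Fin n) ℂ)} {z : ℂ} (hz : aeval z K.P = 0)
    (hL : ∀ x ∈ K.Tl z, ∀ y ∈ K.Tl ((starRingEnd ℂ) z), K.bil x y = 0 → C5L.wm K x y ∈ L)
    {a : Matrix (Fin n) (Fin n) ℂ} (ha : a ∈ K.S) (h0 : LinearMap.trace ℂ _ (rs K z a ha) = 0) :
    ∃ c ∈ L, ∀ v ∈ K.Tl z, c *ᵥ v = a *ᵥ v := by
  classical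
  obtain ⟨b, b', hb, hb', -, h1, -⟩ := C8D.dual K hz
  obtain ⟨w0, hw0⟩ := C8D.tr_zero K hz hL
  refine ⟨∑ j, C5L.wm K (a *ᵥ b j) (b' j), ?_, fun v hv => ?_⟩
  · have h2 : ∑ j, (C5L.wm K (a *ᵥ b j) (b' j) - K.bil (a *ᵥ b j) (b' j) • w0) ∈ L :=
      Submodule.sum_mem _ fun j _ => hw0 _ (C5L.S_pres K ha (hb j)) _ (hb' j)
    rw [Finset.sum_sub_distrib, ← Finset.sum_smul] at h2
    have h3 : ∑ j, K.bil (a *ᵥ b j) (b' j) = 0 := by
      rw [← h0, tr_eq K ha b b' hb h1]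
      exact Finset.sum_congr rfl fun j _ => C5L.bil_comm K _ _
    rwa [h3, zero_smul, sub_zero] at h2
  · rw [Matrix.sum_mulVec]
    conv_rhs => rw [← h1 v hv, ← Matrix.mulVecLin_apply, map_sum]
    refine Finset.sum_congr rfl fun j _ => ?_
    rw [C5L.wm_mulVec, o1 K hz (C5L.S_pres K ha (hb j)) hv, zero_smul, sub_zero, map_smul,
      Matrix.mulVecLin_apply]

theorem ex_rs {z : ℂ} (hz : aeval z K.P = 0) (f : Module.End ℂ (K.Tl z)) :
    ∃ a, ∃ ha : a ∈ K.S, rs K z a ha = f := by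
  classical
  obtain ⟨b, b', hb, hb', -, h1, -⟩ := C8D.dual K hz
  refine ⟨∑ j, C5L.wm K (f ⟨b j, hb j⟩).1 (b' j), Submodule.sum_mem _ fun j _ =>
    C5L.wm_mem K hz (f ⟨b j, hb j⟩).2 (hb' j), ?_⟩
  refine LinearMap.ext fun v => Subtype.ext ?_
  rw [rs_apply, Matrix.sum_mulVec]
  have h2 : v = ∑ j, K.bil (b' j) v.1 • (⟨b j, hb j⟩ : K.Tl z) := by
    apply Subtype.ext
    rw [Submodule.coe_sum]
    exact (h1 v.1 v.2).symm
  conv_rhs => rw [h2, map_sum, Submodule.coe_sum]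
  refine Finset.sum_congr rfl fun j _ => ?_
  rw [C5L.wm_mulVec, o1 K hz (f ⟨b j, hb j⟩).2 v.2, zero_smul, sub_zero, map_smul, Submodule.coe_smul]

/-- scalar elements of the derived algebra vanish -/
theorem scal_zero (hm : 1 ≤ m) {z : ℂ} (hz : aeval z K.P = 0) {a : Matrix (Fin n) (Fin n) ℂ}
    (ha : a ∈ K.S) (h0 : LinearMap.trace ℂ _ (rs K z a ha) = 0) {μ : ℂ} (h : ∀ v ∈ K.Tl z, a *ᵥ v = μ • v) :
    ∀ v ∈ K.Tl z, a *ᵥ v = 0 := by
  have h1 : rs K z a ha = μ • (1 : Module.End ℂ (K.Tl z)) := by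
    refine LinearMap.ext fun v => Subtype.ext ?_
    rw [rs_apply, h v.1 v.2]
    rfl
  rw [h1, map_smul, LinearMap.trace_one, C5L.finrank_Tl K hz, smul_eq_mul] at h0
  have h2 : μ = 0 := by
    rcases mul_eq_zero.1 h0 with h | h
    · exact h
    · rw [Nat.cast_eq_zero] at h; omega
  intro v hv
  rw [h v hv, h2, zero_smul]

end one

section tup

variable {s : ℕ} {h : Fin s → ℕ} {B : ∀ j, AbVar (h j)} {n m : Fin s → ℕ}
  {K : ∀ j, KSC (B j) (n j) (m j)} {e : (∀ j, Matrix (Fin (n j)) (Fin (n j)) ℂ) → Prop}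

/-- The tuples in the derived algebras. -/
def D1 (T : TupC K e) : Submodule ℂ (∀ j, Matrix (Fin (n j)) (Fin (n j)) ℂ) where
  carrier := {t | e t ∧ ∀ k, t k ∈ dS (K k)}
  add_mem' := by
    rintro a b ⟨h1, h2⟩ ⟨h3, h4⟩
    exact ⟨(sub T).add_mem h1 h3, fun k => Submodule.add_mem _ (h2 k) (h4 k)⟩
  zero_mem' := ⟨T.zero, fun k => Submodule.zero_mem _⟩
  smul_mem' := by
    rintro c a ⟨h1, h2⟩
    exact ⟨(sub T).smul_mem c h1, fun k => Submodule.smul_mem _ _ (h2 k)⟩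

theorem D1_brk (T : TupC K e) {t u : ∀ j, Matrix (Fin (n j)) (Fin (n j)) ℂ} (ht : e t) (hu : e u) :
    (fun k => t k * u k - u k * t k) ∈ D1 T :=
  ⟨T.brk t u ht hu, fun k => comm_dS (K k) (T.mem t ht k) (T.mem u hu k)⟩

theorem D1_flag (T : TupC K e) (j : Fin s) {z : ℂ} (hz : aeval z (K j).P = 0) {x y : Fin (n j) → ℂ}
    (hx : x ∈ (K j).Tl z) (hy : y ∈ (K j).Tl ((starRingEnd ℂ) z)) (hxy : (K j).bil x y = 0) :
    ∃ t ∈ D1 T, t j = C5L.wm (K j) x y := by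
  by_cases hx0 : x = 0
  · exact ⟨0, Submodule.zero_mem _, by rw [hx0, C8D.wm_zero_left]; rfl⟩
  by_cases hy0 : y = 0
  · exact ⟨0, Submodule.zero_mem _, by rw [hy0, C8D.wm_zero_right]; rfl⟩
  obtain ⟨w, hw, u, hu, hwu, h1⟩ := triple (K j) hz hx hy hx0 hy0 hxy
  obtain ⟨t1, ht1, h1j⟩ := lift_flag T j hz hx hy hxy
  obtain ⟨t2, ht2, h2j⟩ := lift_flag T j hz hw hu hwu
  have h3 := D1_brk T (T.brk t1 t2 ht1 ht2) ht1
  refine ⟨(1 / 2 : ℂ) • _, Submodule.smul_mem _ _ h3, ?_⟩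
  rw [Pi.smul_apply]
  show (1 / 2 : ℂ) • ((t1 j * t2 j - t2 j * t1 j) * t1 j - t1 j * (t1 j * t2 j - t2 j * t1 j)) = _
  rw [h1j, h2j, h1, smul_smul]
  norm_num

/-- the image of `D1` in a factor -/
def im (T : TupC K e) (j : Fin s) : Submodule ℂ (Matrix (Fin (n j)) (Fin (n j)) ℂ) :=
  (D1 T).map (LinearMap.proj j)

theorem D1_lift (T : TupC K e) (j : Fin s) {x y : Matrix (Fin (n j)) (Fin (n j)) ℂ} (hx : x ∈ (K j).S)
    (hy : y ∈ (K j).S) : ∃ t ∈ D1 T, t j = x * y - y * x := by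
  have h1 : x * y - y * x ∈ im T j := by
    refine C8D.derived (K j) (fun z hz x hx y hy hxy => ?_) hx hy
    obtain ⟨t, ht, htj⟩ := D1_flag T j hz hx hy hxy
    exact ⟨t, ht, htj⟩
  obtain ⟨t, ht, htj⟩ := h1
  exact ⟨t, ht, htj⟩

theorem D1_tr (T : TupC K e) (j : Fin s) {z : ℂ} (hz : aeval z (K j).P = 0)
    {a : Matrix (Fin (n j)) (Fin (n j)) ℂ} (ha : a ∈ (K j).S)
    (h0 : LinearMap.trace ℂ _ (rs (K j) z a ha) = 0) :
    ∃ t ∈ D1 T, ∀ v ∈ (K j).Tl z, t j *ᵥ v = a *ᵥ v := by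
  obtain ⟨c, ⟨t, ht, htc⟩, hc⟩ := split (K j) (L := im T j) hz (fun x hx y hy hxy => by
    obtain ⟨t, ht, htj⟩ := D1_flag T j hz hx hy hxy
    exact ⟨t, ht, htj⟩) ha h0
  refine ⟨t, ht, fun v hv => ?_⟩
  rw [← hc v hv, ← htc]
  rfl

theorem D1_map (T : TupC K e) (σ : ℂ ≃ₐ[ℚ] ℂ) {t : ∀ j, Matrix (Fin (n j)) (Fin (n j)) ℂ}
    (ht : t ∈ D1 T) : (fun k => (t k).map σ) ∈ D1 T :=
  ⟨T.aut σ t ht.1, fun k => dS_map (K k) σ (ht.2 k)⟩

theorem ker1 (T : TupC K e) {j : Fin s} {z : ℂ} {j' : Fin s} {w : ℂ} (hz : aeval z (K j).P = 0)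
    (hm : 1 ≤ m j) (hnf : ¬ Free T j z j' w) {t : ∀ j, Matrix (Fin (n j)) (Fin (n j)) ℂ}
    (ht : t ∈ D1 T) (h0 : ∀ v ∈ (K j').Tl w, t j' *ᵥ v = 0) : ∀ v ∈ (K j).Tl z, t j *ᵥ v = 0 := by
  have h1 : ∃ μ : ℂ, ∀ v ∈ (K j).Tl z, t j *ᵥ v = μ • v := by
    by_contra hcon
    exact hnf (simple T hz (T.mem t ht.1 j) ⟨t, ht.1, fun v _ => rfl, h0⟩ hcon)
  obtain ⟨μ, hμ⟩ := h1
  exact scal_zero (K j) hm hz (T.mem t ht.1 j) (dS_tr (K j) z (ht.2 j) _) hμ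

theorem free_symm (T : TupC K e) {j : Fin s} {z : ℂ} {j' : Fin s} {w : ℂ} (hz : aeval z (K j).P = 0)
    (hw : aeval w (K j').P = 0) (hf : Free T j' w j z) : Free T j z j' w := by
  intro x hx y hy hxy
  obtain ⟨t, ht, htj⟩ := D1_flag T j hz hx hy hxy
  obtain ⟨c, ⟨u, hu, hu1, hu2⟩, hc⟩ := split (K j') (L := L T j' w j z) hw hf (T.mem t ht.1 j')
    (dS_tr (K j') w (ht.2 j') _)
  refine ⟨t - u, (sub T).sub_mem ht.1 hu, fun v hv => ?_, fun v hv => ?_⟩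
  · rw [Pi.sub_apply, Matrix.sub_mulVec, hu2 v hv, sub_zero, htj]
  · rw [Pi.sub_apply, Matrix.sub_mulVec, hu1 v hv, hc v hv, sub_self]

/-- restriction to a place -/
noncomputable def rho (T : TupC K e) (j : Fin s) (z : ℂ) : D1 T →ₗ[ℂ] Module.End ℂ ((K j).Tl z) where
  toFun t := rs (K j) z (t.1 j) (T.mem t.1 t.2.1 j)
  map_add' t u := rs_add (K j) z _ _ _
  map_smul' c t := rs_smul (K j) z c _ _

theorem rho_ker (T : TupC K e) (j : Fin s) (z : ℂ) (t : D1 T) :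
    t ∈ LinearMap.ker (rho T j z) ↔ ∀ v ∈ (K j).Tl z, t.1 j *ᵥ v = 0 := by
  rw [LinearMap.mem_ker]
  constructor
  · intro h v hv
    have h1 := congrArg (fun f : Module.End ℂ ((K j).Tl z) => ((f ⟨v, hv⟩ : (K j).Tl z) : Fin (n j) → ℂ)) h
    exact h1
  · intro h
    refine LinearMap.ext fun v => Subtype.ext ?_
    exact h v.1 v.2

theorem rho_range (T : TupC K e) (j : Fin s) {z : ℂ} (hz : aeval z (K j).P = 0) :
    LinearMap.range (rho T j z) = LinearMap.ker (LinearMap.trace ℂ ((K j).Tl z)) := by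
  apply le_antisymm
  · rintro _ ⟨t, rfl⟩
    rw [LinearMap.mem_ker]
    exact dS_tr (K j) z (t.2.2 j) (T.mem t.1 t.2.1 j)
  · intro f hf
    rw [LinearMap.mem_ker] at hf
    obtain ⟨a, ha, haf⟩ := ex_rs (K j) hz f
    rw [← haf] at hf
    obtain ⟨t, ht, htv⟩ := D1_tr T j hz ha hf
    refine ⟨⟨t, ht⟩, ?_⟩
    rw [← haf]
    refine LinearMap.ext fun v => Subtype.ext ?_
    exact htv v.1 v.2

theorem rho_finrank (T : TupC K e) (j : Fin s) {z : ℂ} (hz : aeval z (K j).P = 0) (hm : 1 ≤ m j) :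
    Module.finrank ℂ (LinearMap.range (rho T j z)) + 1 = m j * m j := by
  rw [rho_range T j hz]
  exact trk hm (C5L.finrank_Tl (K j) hz)

/-- Equal kernels at two places force equal dimensions. -/
theorem dims (T : TupC K e) {j : Fin s} {z : ℂ} {j' : Fin s} {w : ℂ} (hz : aeval z (K j).P = 0)
    (hw : aeval w (K j').P = 0) (hm : 1 ≤ m j) (hm' : 1 ≤ m j')
    (hk : ∀ t ∈ D1 T, (∀ v ∈ (K j).Tl z, t j *ᵥ v = 0) ↔ ∀ v ∈ (K j').Tl w, t j' *ᵥ v = 0) :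
    m j = m j' := by
  have h1 := rk (V := D1 T) (W := Module.End ℂ ((K j).Tl z)) (rho T j z)
  have h2 := rk (V := D1 T) (W := Module.End ℂ ((K j').Tl w)) (rho T j' w)
  have h3 : LinearMap.ker (rho T j z) = LinearMap.ker (rho T j' w) := by
    ext t
    rw [rho_ker, rho_ker]
    exact hk t.1 t.2
  have h4 := rho_finrank T j hz hm
  have h5 := rho_finrank T j' hw hm'
  rw [h3] at h1
  have h6 : m j * m j = m j' * m j' := by omega
  exact Nat.mul_self_inj.1 h6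

/-- The kernels at two dependent places agree. -/
theorem ker_iff (T : TupC K e) {j : Fin s} {z : ℂ} {j' : Fin s} {w : ℂ} (hz : aeval z (K j).P = 0)
    (hw : aeval w (K j').P = 0) (hm : 1 ≤ m j) (hm' : 1 ≤ m j') (hnf : ¬ Free T j z j' w) :
    ∀ t ∈ D1 T, (∀ v ∈ (K j).Tl z, t j *ᵥ v = 0) ↔ ∀ v ∈ (K j').Tl w, t j' *ᵥ v = 0 := by
  intro t ht
  constructor
  · exact ker1 T hw hm' (fun hf => hnf (free_symm T hz hw hf)) ht
  · exact ker1 T hz hm hnf ht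

end tup

end NCX

end Pool.Agent.K3M
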