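import Pool.Agent.K3M.PM

/-!
# NP, second part: a quadratic space and a complex space of small dimension
-/

set_option autoImplicit false

namespace Pool.Agent.K3M

open Module Pool.Agent.K3P Pool.Agent.K3P.PRX

noncomputable section

namespace NPD

variable {V V' : Type} [AddCommGroup V] [Module ℝ V] [AddCommGroup V'] [Module ℝ V']

/-- two vectors which span a complex space of real dimension at most four -/
theorem two_gen [FiniteDimensional ℝ V'] (J : Module.End ℝ V') (JJ : ∀ x, J (J x) = -x)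
    (h4 : finrank ℝ V' ≤ 4) : ∃ x₁ x₂ : V', ∀ W : Submodule ℝ V', (∀ v ∈ W, J v ∈ W) → x₁ ∈ W → x₂ ∈ W →
      W = ⊤ := by
  classical
  by_cases h0 : ∀ x : V', x = 0
  · refine ⟨0, 0, fun W _ _ _ => ?_⟩
    rw [eq_top_iff]
    intro v _
    rw [h0 v]; exact W.zero_mem
  push Not at h0
  obtain ⟨x₁, hx₁⟩ := h0
  have hJs : ∀ (W : Submodule ℝ V') (x : V'), (∀ v ∈ W, J v ∈ W) → ∀ a b : ℝ, a • x + b • J x ∈ W →
      (a ≠ 0 ∨ b ≠ 0) → x ∈ W := by
    intro W x hW a b h hab
    have h1 := W.sub_mem (W.smul_mem a h) (W.smul_mem b (hW _ h))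
    have h2 : a • (a • x + b • J x) - b • J (a • x + b • J x) = (a * a + b * b) • x := by
      rw [map_add, map_smul, map_smul, JJ]
      module
    rw [h2] at h1
    have h3 : a * a + b * b ≠ 0 := by
      rcases hab with h | h
      · have := mul_self_pos.2 h
        have := mul_self_nonneg b
        positivity
      · have := mul_self_pos.2 h
        have := mul_self_nonneg a
        positivity
    have h4 := W.smul_mem (a * a + b * b)⁻¹ h1
    rwa [smul_smul, inv_mul_cancel₀ h3, one_smul] at h4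
  let N : Submodule ℝ V' := Submodule.span ℝ {x₁, J x₁}
  have hNJ : ∀ v ∈ N, J v ∈ N := by
    intro v hv
    obtain ⟨a, b, rfl⟩ := Submodule.mem_span_pair.1 hv
    rw [map_add, map_smul, map_smul, JJ]
    exact Submodule.mem_span_pair.2 ⟨-b, a, by module⟩
  have hx₁N : x₁ ∈ N := Submodule.subset_span (by simp)
  by_cases hN : N = ⊤
  · refine ⟨x₁, x₁, fun W hW h1 _ => ?_⟩
    rw [eq_top_iff, ← hN]
    refine Submodule.span_le.2 ?_
    rintro v (rfl | rfl)
    · exact h1
    · exact hW _ h1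
  obtain ⟨x₂, hx₂⟩ : ∃ x₂, x₂ ∉ N := by
    by_contra hcon
    push Not at hcon
    exact hN (eq_top_iff.2 fun v _ => hcon v)
  refine ⟨x₁, x₂, fun W hW h1 h2 => ?_⟩
  have hli : LinearIndependent ℝ ![x₁, J x₁, x₂, J x₂] := by
    rw [Fintype.linearIndependent_iff]
    intro c hc
    simp only [Fin.sum_univ_four, Matrix.cons_val_zero, Matrix.cons_val_one, Matrix.cons_val] at hc
    have e1 : c 2 • x₂ + c 3 • J x₂ ∈ N := by
      have : c 2 • x₂ + c 3 • J x₂ = (-c 0) • x₁ + (-c 1) • J x₁ := by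
        rw [← sub_eq_zero, ← hc]; module
      rw [this]
      exact Submodule.mem_span_pair.2 ⟨_, _, rfl⟩
    have e2 : c 2 = 0 ∧ c 3 = 0 := by
      by_contra hcon
      rw [not_and_or] at hcon
      exact hx₂ (hJs N x₂ hNJ _ _ e1 hcon)
    have e3 : c 0 = 0 ∧ c 1 = 0 := by
      by_contra hcon
      rw [not_and_or] at hcon
      have : c 0 • x₁ + c 1 • J x₁ ∈ (⊥ : Submodule ℝ V') := by
        rw [Submodule.mem_bot, ← hc, e2.1, e2.2]; module
      have h5 := hJs ⊥ x₁ (fun v hv => by
        rw [Submodule.mem_bot] at hv ⊢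
        rw [hv, map_zero]) _ _ this hcon
      exact hx₁ ((Submodule.mem_bot ℝ).1 h5)
    intro i
    fin_cases i
    · exact e3.1
    · exact e3.2
    · exact e2.1
    · exact e2.2
  have hcard := hli.fintype_card_le_finrank
  rw [Fintype.card_fin] at hcard
  have hsp := hli.span_eq_top_of_card_eq_finrank' (by rw [Fintype.card_fin]; omega)
  rw [eq_top_iff, ← hsp]
  refine Submodule.span_le.2 ?_
  rintro _ ⟨i, rfl⟩
  fin_cases i
  · exact h1
  · exact hW _ h1
  · exact h2
  · exact hW _ h2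

/-- `so(V)`, `dim V ≥ 6`, is not a quotient of a Lie algebra of complex `2 × 2` matrices -/
theorem dim4 [FiniteDimensional ℝ V] [FiniteDimensional ℝ V'] {b : LinearMap.BilinForm ℝ V}
    (hQ : QH b) (h6 : 6 ≤ finrank ℝ V) (J : Module.End ℝ V') (JJ : ∀ x, J (J x) = -x)
    (h4 : finrank ℝ V' ≤ 4) (l : Submodule ℝ (Module.End ℝ V × Module.End ℝ V'))
    (skew : ∀ p ∈ l, Sk b p.1) (comm' : ∀ p ∈ l, ∀ x, p.2 (J x) = J (p.2 x))
    (brk : ∀ p ∈ l, ∀ q ∈ l, (p.1 * q.1 - q.1 * p.1, p.2 * q.2 - q.2 * p.2) ∈ l)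
    (onto : ∀ a : Module.End ℝ V, Sk b a → ∃ a', (a, a') ∈ l) (a : Module.End ℝ V) (ha : Sk b a) :
    (a, (0 : Module.End ℝ V')) ∈ l := by
  let K : Submodule ℝ (Module.End ℝ V) := l.comap (LinearMap.inl ℝ _ _)
  have mK : ∀ a, a ∈ K ↔ (a, (0 : Module.End ℝ V')) ∈ l := fun a => Iff.rfl
  by_cases hK : K ≠ ⊥
  · refine (mK a).1 (simple hQ K (fun a ha => skew _ ha) ?_ hK ha)
    intro s hs a ha
    obtain ⟨s', hs'⟩ := onto s hs
    have := brk _ hs' _ ((mK a).1 ha)
    simp only [mul_zero, zero_mul, sub_zero] at this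
    exact this
  exfalso
  rw [not_not] at hK
  obtain ⟨x₁, x₂, hx⟩ := two_gen J JJ h4
  -- the dimension of l is at most eight
  let F : l →ₗ[ℝ] V' × V' :=
    { toFun := fun p => (p.1.2 x₁, p.1.2 x₂)
      map_add' := fun p q => rfl
      map_smul' := fun c p => rfl }
  have hF : Function.Injective F := by
    rw [← LinearMap.ker_eq_bot, eq_bot_iff]
    rintro ⟨⟨p, p'⟩, hp⟩ hk
    rw [LinearMap.mem_ker] at hk
    have h1 : p' x₁ = 0 := congrArg Prod.fst hk
    have h2 : p' x₂ = 0 := congrArg Prod.snd hk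
    have h3 : LinearMap.ker p' = ⊤ := hx _ (fun v hv => by
      rw [LinearMap.mem_ker] at hv ⊢
      rw [comm' _ hp v, hv, map_zero]) h1 h2
    have h5 : p' = 0 := by
      refine LinearMap.ext fun v => ?_
      have : v ∈ LinearMap.ker p' := by rw [h3]; exact Submodule.mem_top
      exact this
    subst h5
    have h6 : p ∈ K := hp
    rw [hK, Submodule.mem_bot] at h6
    subst h6
    rw [Submodule.mem_bot]
    rfl
  have hl : finrank ℝ l ≤ 8 := by
    have h1 := LinearMap.finrank_le_finrank_of_injective hF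
    rw [finrank_prod] at h1
    omega
  -- nine independent elements
  obtain ⟨e, f, hp⟩ := exists_HP hQ
  let U : Submodule ℝ V := LinearMap.ker ((b e).prod (b f))
  have mU : ∀ u, u ∈ U ↔ b e u = 0 ∧ b f u = 0 := by
    intro u
    rw [LinearMap.mem_ker]
    exact Prod.mk_eq_zero
  have hU : 4 ≤ finrank ℝ U := by
    have h1 := LinearMap.finrank_range_add_finrank_ker ((b e).prod (b f))
    have h2 := (LinearMap.range ((b e).prod (b f))).finrank_le
    rw [finrank_prod, finrank_self] at h2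
    have h3 : finrank ℝ (LinearMap.ker ((b e).prod (b f))) = finrank ℝ U := rfl
    omega
  let G : ℝ × U × U →ₗ[ℝ] Module.End ℝ V :=
    { toFun := fun p => p.1 • wd b e f + wd b e p.2.1 + wd b f p.2.2
      map_add' := by
        rintro ⟨s, u, w⟩ ⟨s', u', w'⟩
        simp only [Prod.mk_add_mk, add_smul, Submodule.coe_add, map_add]
        abel
      map_smul' := by
        rintro c ⟨s, u, w⟩
        simp only [Prod.smul_mk, Submodule.coe_smul, map_smul, RingHom.id_apply, smul_add, smul_smul,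
          smul_eq_mul] }
  have hGa : ∀ p, G p = p.1 • wd b e f + wd b e p.2.1 + wd b f p.2.2 := fun p => rfl
  have hG : Function.Injective G := by
    rw [← LinearMap.ker_eq_bot, eq_bot_iff]
    rintro ⟨s, ⟨u, hu⟩, ⟨w, hw⟩⟩ hk
    rw [LinearMap.mem_ker, hGa] at hk
    obtain ⟨hu1, hu2⟩ := (mU u).1 hu
    obtain ⟨hw1, hw2⟩ := (mU w).1 hw
    dsimp only at hk
    have h1 := congrArg (fun Z : Module.End ℝ V => Z f) hk
    simp only [LinearMap.add_apply, LinearMap.smul_apply, hp.hf, hp.wef hu2, LinearMap.zero_apply] at h1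
    rw [wd_apply, hp.symm w f, hw2, hp.ff, zero_smul, zero_smul, sub_zero, add_zero] at h1
    have h2 := congrArg (fun v => b e v) h1
    simp only [map_add, map_smul, map_neg, hp.ef, hu1, map_zero, smul_eq_mul] at h2
    have hs : s = 0 := by linarith
    rw [hs, zero_smul, zero_add] at h1
    have hu0 : u = 0 := neg_eq_zero.1 h1
    have h3 := congrArg (fun Z : Module.End ℝ V => Z e) hk
    simp only [hs, hu0, map_zero, zero_smul, zero_add, LinearMap.zero_apply] at h3
    rw [hp.swap.wef hw1] at h3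
    have hw0 : w = 0 := neg_eq_zero.1 h3
    subst hs; subst hu0; subst hw0
    rw [Submodule.mem_bot]
    rfl
  have hGr : LinearMap.range G ≤ l.map (LinearMap.fst ℝ _ _) := by
    rintro _ ⟨p, rfl⟩
    have h1 : Sk b (G p) := by
      intro x y
      have e1 := wd_skew hp.symm e f x y
      have e2 := wd_skew hp.symm e (p.2.1 : V) x y
      have e3 := wd_skew hp.symm f (p.2.2 : V) x y
      rw [hGa]
      simp only [LinearMap.add_apply, LinearMap.smul_apply, map_add, map_smul, smul_eq_mul]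
      linear_combination p.1 * e1 + e2 + e3
    obtain ⟨a', ha'⟩ := onto _ h1
    exact ⟨_, ha', rfl⟩
  have h9 : 9 ≤ finrank ℝ l := by
    have h1 := Submodule.finrank_mono hGr
    rw [LinearMap.finrank_range_of_inj hG, finrank_prod, finrank_prod, finrank_self] at h1
    have h2 := Submodule.finrank_map_le (LinearMap.fst ℝ (Module.End ℝ V) (Module.End ℝ V')) l
    omega
  omega

end NPD

end

end Pool.Agent.K3M
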