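import Pool.Agent.K3M.NP1
import Pool.Agent.K3M.NP2
import Pool.Agent.K3M.Stmts
import Pool.Agent.K3P.GG2

/-!
# NP, third part: a pair of real places
-/

set_option autoImplicit false

open scoped BigOperators
open Matrix Polynomial

namespace Pool.Agent.K3M

open Pool.Agent.DRB Pool.Agent.K3D Pool.Agent.K3E Pool.Agent.K3C Pool.Agent.K3P
open Pool.Agent.K3D.K7w Pool.Agent.K3D.K7x

noncomputable section

namespace NPX

section tup

variable {r s : ℕ} {h : Fin r → ℕ} {B : ∀ i, AbVar (h i)} {h' : Fin s → ℕ} {B' : ∀ j, AbVar (h' j)}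
  {n₁ m₁ : Fin r → ℕ} {K₁ : ∀ i, KSE (B i) (n₁ i) (m₁ i)}
  {n₂ m₂ : Fin s → ℕ} {K₂ : ∀ j, KSC (B' j) (n₂ j) (m₂ j)}
  {d : (∀ i, Matrix (Fin (n₁ i)) (Fin (n₁ i)) ℂ) → (∀ j, Matrix (Fin (n₂ j)) (Fin (n₂ j)) ℂ) → Prop}

/-- real parts -/
theorem re_d (T : TupAlg2 K₁ K₂ d) {a : ∀ i, Matrix (Fin (n₁ i)) (Fin (n₁ i)) ℂ}
    {b : ∀ j, Matrix (Fin (n₂ j)) (Fin (n₂ j)) ℂ} (hd : d a b) :
    d (fun i => ((a i).map Complex.re).map Complex.ofReal)
      (fun j => ((b j).map Complex.re).map Complex.ofReal) := by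
  have h1 := T.lin _ _ _ _ (1 / 2) T.zero (T.lin _ _ _ _ 1 hd (T.aut E8Y.cc0 a b hd))
  convert h1 using 2 with k k
  · ext p q
    simp only [Matrix.map_apply, Matrix.add_apply, Matrix.smul_apply, E8Y.cc0_apply,
      smul_eq_mul, Pi.zero_apply, Matrix.zero_apply]
    rw [Complex.re_eq_add_conj]
    ring
  · ext p q
    simp only [Matrix.map_apply, Matrix.add_apply, Matrix.smul_apply, E8Y.cc0_apply,
      smul_eq_mul, Pi.zero_apply, Matrix.zero_apply]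
    rw [Complex.re_eq_add_conj]
    ring

theorem re_ofReal {n : ℕ} (w : Matrix (Fin n) (Fin n) ℝ) : (w.map Complex.ofReal).map Complex.re = w := by
  ext p q; simp

/-- real tuples with given component -/
theorem real_onto (T : TupAlg2 K₁ K₂ d) (i : Fin r) {w : Matrix (Fin (n₁ i)) (Fin (n₁ i)) ℝ}
    (hw : w.map Complex.ofReal ∈ (K₁ i).S) :
    ∃ (a : ∀ i, Matrix (Fin (n₁ i)) (Fin (n₁ i)) ℝ) (b : ∀ j, Matrix (Fin (n₂ j)) (Fin (n₂ j)) ℝ),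
      d (fun i => (a i).map Complex.ofReal) (fun j => (b j).map Complex.ofReal) ∧ a i = w := by
  obtain ⟨a, b, hd, ha⟩ := T.onto i _ hw
  exact ⟨_, _, re_d T hd, by rw [ha, re_ofReal]⟩

/-- real tuples with given commutator -/
theorem real_onto' (T : TupAlg2 K₁ K₂ d) (j : Fin s) {w w' : Matrix (Fin (n₂ j)) (Fin (n₂ j)) ℝ}
    (hw : w.map Complex.ofReal ∈ (K₂ j).S) (hw' : w'.map Complex.ofReal ∈ (K₂ j).S) :
    ∃ (a : ∀ i, Matrix (Fin (n₁ i)) (Fin (n₁ i)) ℝ) (b : ∀ j, Matrix (Fin (n₂ j)) (Fin (n₂ j)) ℝ),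
      d (fun i => (a i).map Complex.ofReal) (fun j => (b j).map Complex.ofReal) ∧
        b j = w * w' - w' * w := by
  obtain ⟨a, b, hd, hb⟩ := T.onto' j _ hw _ hw'
  refine ⟨_, _, re_d T hd, ?_⟩
  rw [hb, ← E8Y.map_mul_real, ← E8Y.map_mul_real]
  ext p q; simp

variable (K₁ K₂)

/-- the real tuples, restricted to two real places -/
def lij (T : TupAlg2 K₁ K₂ d) (i : Fin r) (j : Fin s) :
    Submodule ℝ (Module.End ℝ (E8Y.V0 (K₁ i)) × Module.End ℝ (C7C.V0 (K₂ j))) where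
  carrier := {p | ∃ (a : ∀ i, Matrix (Fin (n₁ i)) (Fin (n₁ i)) ℝ)
      (b : ∀ j, Matrix (Fin (n₂ j)) (Fin (n₂ j)) ℝ),
    d (fun i => (a i).map Complex.ofReal) (fun j => (b j).map Complex.ofReal) ∧
    (∀ x : E8Y.V0 (K₁ i), (p.1 x : Fin (n₁ i) → ℝ) = a i *ᵥ (x : Fin (n₁ i) → ℝ)) ∧
    (∀ x : C7C.V0 (K₂ j), (p.2 x : Fin (n₂ j) → ℝ) = b j *ᵥ (x : Fin (n₂ j) → ℝ))}
  zero_mem' := by
    refine ⟨fun k => 0, fun k => 0, ?_, fun x => ?_, fun x => ?_⟩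
    · have h1 := T.zero
      convert h1 using 2 with k k
      · ext i j; simp
      · ext i j; simp
    · simp
    · simp
  add_mem' := by
    rintro p p' ⟨a, b, ha, h1, h2⟩ ⟨a', b', hb, h3, h4⟩
    refine ⟨fun k => a k + a' k, fun k => b k + b' k, ?_, fun x => ?_, fun x => ?_⟩
    · have h5 := T.lin _ _ _ _ 1 ha hb
      convert h5 using 2 with k k
      · ext i j; simp
      · ext i j; simp
    · rw [Prod.fst_add, LinearMap.add_apply, Submodule.coe_add, h1, h3, Matrix.add_mulVec]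
    · rw [Prod.snd_add, LinearMap.add_apply, Submodule.coe_add, h2, h4, Matrix.add_mulVec]
  smul_mem' := by
    rintro c p ⟨a, b, ha, h1, h2⟩
    refine ⟨fun k => c • a k, fun k => c • b k, ?_, fun x => ?_, fun x => ?_⟩
    · have h5 := T.lin _ _ _ _ c T.zero ha
      convert h5 using 2 with k k
      · ext i j; simp
      · ext i j; simp
    · rw [Prod.smul_fst, LinearMap.smul_apply, Submodule.coe_smul, h1, Matrix.smul_mulVec]
    · rw [Prod.smul_snd, LinearMap.smul_apply, Submodule.coe_smul, h2, Matrix.smul_mulVec]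

variable {K₁ K₂}

/-- restriction of real elements of `S` -/
def rs1 (i : Fin r) {a : Matrix (Fin (n₁ i)) (Fin (n₁ i)) ℝ} (ha : a.map Complex.ofReal ∈ (K₁ i).S) :
    Module.End ℝ (E8Y.V0 (K₁ i)) := (Matrix.toLin' a).restrict fun v hv => by
  rw [Matrix.toLin'_apply]; exact GPX.pres (K₁ i) ha hv

def rs2 (j : Fin s) {b : Matrix (Fin (n₂ j)) (Fin (n₂ j)) ℝ} (hb : b.map Complex.ofReal ∈ (K₂ j).S) :
    Module.End ℝ (C7C.V0 (K₂ j)) := (Matrix.toLin' b).restrict fun v hv => by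
  rw [Matrix.toLin'_apply]; exact NPC.pres (K₂ j) hb hv

theorem rs_mem (T : TupAlg2 K₁ K₂ d) (i : Fin r) (j : Fin s)
    {a : ∀ i, Matrix (Fin (n₁ i)) (Fin (n₁ i)) ℝ} {b : ∀ j, Matrix (Fin (n₂ j)) (Fin (n₂ j)) ℝ}
    (hd : d (fun i => (a i).map Complex.ofReal) (fun j => (b j).map Complex.ofReal)) :
    (rs1 i ((T.mem _ _ hd).1 i), rs2 j ((T.mem _ _ hd).2 j)) ∈ lij K₁ K₂ T i j :=
  ⟨a, b, hd, fun _ => rfl, fun _ => rfl⟩

/-- the first projection is onto -/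
theorem onto1 (T : TupAlg2 K₁ K₂ d) (i : Fin r) (j : Fin s) {ε : ℝ} (D : GPX.Data (K₁ i) ε)
    (a : Module.End ℝ (E8Y.V0 (K₁ i)))
    (ha : ∀ x y, B0 (Bq fun k => ε * GPX.qR (K₁ i) k) (E8Y.V0 (K₁ i)) (a x) y +
      B0 (Bq fun k => ε * GPX.qR (K₁ i) k) (E8Y.V0 (K₁ i)) x (a y) = 0) :
    ∃ a', (a, a') ∈ lij K₁ K₂ T i j := by
  have h1 := span_of_nondeg (B := B0 (Bq fun k => ε * GPX.qR (K₁ i) k) (E8Y.V0 (K₁ i))) D.symm D.nondeg
    (Y := a) (fun x y => by have := ha x y; linarith)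
  have h2 : Submodule.span ℝ {Z | ∃ x y, Z = wd (B0 (Bq fun k => ε * GPX.qR (K₁ i) k)
      (E8Y.V0 (K₁ i))) x y} ≤ (lij K₁ K₂ T i j).map (LinearMap.fst ℝ _ _) := by
    refine Submodule.span_le.2 ?_
    rintro _ ⟨x, y, rfl⟩
    obtain ⟨t, u, ht, hti⟩ := real_onto T i (GPX.rm_mem (K₁ i) x.2 y.2)
    have h3 := (lij K₁ K₂ T i j).smul_mem ε (rs_mem T i j ht)
    refine ⟨_, h3, ?_⟩
    refine LinearMap.ext fun v => Subtype.ext ?_
    show ε • (t i *ᵥ (v : Fin (n₁ i) → ℝ)) = _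
    rw [hti, GPX.rm_mulVec, wd_apply]
    have e1 : ∀ u : E8Y.V0 (K₁ i), B0 (Bq fun k => ε * GPX.qR (K₁ i) k) (E8Y.V0 (K₁ i)) u v =
        ε * ∑ k, GPX.qR (K₁ i) k * (u : Fin (n₁ i) → ℝ) k * (v : Fin (n₁ i) → ℝ) k := by
      intro u
      rw [B0_apply, Bq_apply, Finset.mul_sum]
      exact Finset.sum_congr rfl fun k _ => by ring
    rw [e1, e1, Submodule.coe_sub, Submodule.coe_smul, Submodule.coe_smul]
    module
  obtain ⟨⟨a1, a'⟩, hp, ha1⟩ := h2 h1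
  have ha1' : a1 = a := ha1
  rw [ha1'] at hp
  exact ⟨a', hp⟩

/-- At the real places where the forms are indefinite. -/
theorem real_place (T : TupAlg2 K₁ K₂ d) (Lg : TupLog2 d) (hE5l : Stmt_E5l) (hPM : Stmt_PM)
    (i : Fin r) (j : Fin s) (hm : m₁ i = 3 ∨ 6 ≤ m₁ i) (hm2 : 3 ≤ m₂ j ∨ (m₂ j ≤ 2 ∧ 1 ≤ m₂ j ∧ 6 ≤ m₁ i))
    {ε : ℝ} (D : GPX.Data (K₁ i) ε) (a : Module.End ℝ (E8Y.V0 (K₁ i)))
    (ha : ∀ x y, B0 (Bq fun k => ε * GPX.qR (K₁ i) k) (E8Y.V0 (K₁ i)) (a x) y +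
      B0 (Bq fun k => ε * GPX.qR (K₁ i) k) (E8Y.V0 (K₁ i)) x (a y) = 0) :
    (a, (0 : Module.End ℝ (C7C.V0 (K₂ j)))) ∈ lij K₁ K₂ T i j := by
  have hm3 : 3 ≤ m₁ i := by omega
  obtain ⟨ε', D'⟩ := NPC.exists_data (K₂ j) (by omega)
  have hf1 := E8Y.finrank_V0 (K₁ i) hm3 hE5l
  have hf2 := NPC.finrank_V0 (K₂ j)
  have hskew : ∀ p ∈ lij K₁ K₂ T i j, ∀ x y,
      B0 (Bq fun k => ε * GPX.qR (K₁ i) k) (E8Y.V0 (K₁ i)) (p.1 x) y +
      B0 (Bq fun k => ε * GPX.qR (K₁ i) k) (E8Y.V0 (K₁ i)) x (p.1 y) = 0 := by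
    rintro ⟨p, p'⟩ ⟨a, b, hd, h1, h2⟩ x y
    rw [B0_apply, B0_apply, h1, h1]
    exact GPX.skew (K₁ i) ((T.mem _ _ hd).1 i) ε _ _
  have hcomm : ∀ p ∈ lij K₁ K₂ T i j, ∀ x, p.2 (NPC.JE (K₂ j) x) = NPC.JE (K₂ j) (p.2 x) := by
    rintro ⟨p, p'⟩ ⟨a, b, hd, h1, h2⟩ x
    refine Subtype.ext ?_
    dsimp only at h2 ⊢
    rw [h2, NPC.JE_apply, NPC.JE_apply, h2]
    exact C8Y.lie_comm (K₂ j) ((T.mem _ _ hd).2 j) _
  have hbrk : ∀ p ∈ lij K₁ K₂ T i j, ∀ q ∈ lij K₁ K₂ T i j,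
      (p.1 * q.1 - q.1 * p.1, p.2 * q.2 - q.2 * p.2) ∈ lij K₁ K₂ T i j := by
    rintro ⟨p, p'⟩ ⟨a, b, ha, h1, h2⟩ ⟨q, q'⟩ ⟨a', b', hb, h3, h4⟩
    refine ⟨fun k => a k * a' k - a' k * a k, fun k => b k * b' k - b' k * b k, ?_, fun x => ?_,
      fun x => ?_⟩
    · have h5 := T.brk _ _ _ _ ha hb
      convert h5 using 2 with k k
      · have e1 : ((a k * a' k - a' k * a k).map Complex.ofReal) =
            (a k * a' k).map Complex.ofReal - (a' k * a k).map Complex.ofReal := by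
          ext i j; simp
        rw [e1, E8Y.map_mul_real, E8Y.map_mul_real]
      · have e1 : ((b k * b' k - b' k * b k).map Complex.ofReal) =
            (b k * b' k).map Complex.ofReal - (b' k * b k).map Complex.ofReal := by
          ext i j; simp
        rw [e1, E8Y.map_mul_real, E8Y.map_mul_real]
    · show ((p * q - q * p) x : Fin (n₁ i) → ℝ) = _
      rw [LinearMap.sub_apply, Module.End.mul_apply, Module.End.mul_apply, Submodule.coe_sub]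
      dsimp only at h1 h3
      rw [h1, h3, h3, h1, Matrix.sub_mulVec, ← Matrix.mulVec_mulVec, ← Matrix.mulVec_mulVec]
    · show ((p' * q' - q' * p') x : Fin (n₂ j) → ℝ) = _
      rw [LinearMap.sub_apply, Module.End.mul_apply, Module.End.mul_apply, Submodule.coe_sub]
      dsimp only at h2 h4
      rw [h2, h4, h4, h2, Matrix.sub_mulVec, ← Matrix.mulVec_mulVec, ← Matrix.mulVec_mulVec]
  rcases hm2 with h2 | ⟨h2, h2', h2''⟩
  · refine hPM (E8Y.V0 (K₁ i)) (C7C.V0 (K₂ j)) (B0 (Bq fun k => ε * GPX.qR (K₁ i) k) (E8Y.V0 (K₁ i)))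
      (B0 (Bq fun k => ε' * C7C.qR (K₂ j) k) (C7C.V0 (K₂ j))) (NPC.JE (K₂ j)) (lij K₁ K₂ T i j)
      ⟨D.symm, fun x y => Bq_symm _ _, D.nondeg, D'.nondeg, D.pos, D'.pos, by rw [hf1]; exact hm,
        by rw [hf2]; omega, NPC.JE_JE (K₂ j), NPC.JE_B (K₂ j) ε', hskew, ?_, hcomm, hbrk,
        fun a ha => onto1 T i j D a ha, ?_, ?_⟩ a ha
    · rintro ⟨p, p'⟩ ⟨a, b, hd, h1, h2⟩ x y
      rw [B0_apply, B0_apply, h2, h2]
      exact NPC.skew (K₂ j) ((T.mem _ _ hd).2 j) ε' _ _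
    · intro a₁ a₂ k1 k2 k3 k4
      obtain ⟨M₁, hM₁, e1⟩ := NPC.extend (K₂ j) D' a₁ k1 k2
      obtain ⟨M₂, hM₂, e2⟩ := NPC.extend (K₂ j) D' a₂ k3 k4
      obtain ⟨t, u, htu, hu⟩ := real_onto' T j hM₁ hM₂
      refine ⟨rs1 i ((T.mem _ _ htu).1 i), t, u, htu, fun _ => rfl, fun x => ?_⟩
      show ((a₁ * a₂ - a₂ * a₁) x : Fin (n₂ j) → ℝ) = _
      rw [hu, LinearMap.sub_apply, Module.End.mul_apply, Module.End.mul_apply, Submodule.coe_sub,
        e1, e2, e2, e1, Matrix.sub_mulVec, ← Matrix.mulVec_mulVec, ← Matrix.mulVec_mulVec]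
    · rintro ⟨p, p'⟩ ⟨a, b, hd, h1, h2⟩ htop
      obtain ⟨u, v, huv, hul, hvl⟩ := Lg a b hd
      have hi := hypq (GPX.hypPart_of_log (hul i))
      have hj := hypq (GPX.hypPart_of_log (hvl j))
      refine ⟨rs2 j ((T.mem _ _ huv).2 j), ⟨u, v, huv, fun x => ?_, fun x => rfl⟩, ?_⟩
      · dsimp only
        have hx : x ∈ ⨆ c : ℝ, Module.End.eigenspace p c := by rw [htop]; exact Submodule.mem_top
        refine Submodule.iSup_induction _ (motive := fun x => (p x : Fin (n₁ i) → ℝ) =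
          u i *ᵥ (x : Fin (n₁ i) → ℝ)) hx ?_ ?_ ?_
        · intro c y hy
          rw [Module.End.mem_eigenspace_iff] at hy
          have h3 : Matrix.toLin' (a i) (y : Fin (n₁ i) → ℝ) = c • (y : Fin (n₁ i) → ℝ) := by
            rw [Matrix.toLin'_apply, ← h1]
            show (p y : Fin (n₁ i) → ℝ) = _
            rw [hy]; rfl
          have h4 := hi.2 c _ h3
          rw [Matrix.toLin'_apply] at h4
          rw [h4, hy]; rfl
        · rw [map_zero, Submodule.coe_zero, Matrix.mulVec_zero]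
        · intro y z hy hz
          rw [map_add, Submodule.coe_add, hy, hz, Submodule.coe_add, Matrix.mulVec_add]
      · exact Module.End.genEigenspace_restrict_eq_top (f := Matrix.toLin' (v j)) (k := 1) _ hj.1
  · exact NPD.dim4 (b := B0 (Bq fun k => ε * GPX.qR (K₁ i) k) (E8Y.V0 (K₁ i)))
      ⟨D.symm, D.nondeg, D.pos, by rw [hf1]; exact hm⟩ (by rw [hf1]; exact h2'') (NPC.JE (K₂ j))
      (NPC.JE_JE (K₂ j)) (by rw [hf2]; omega) (lij K₁ K₂ T i j) hskew hcomm hbrk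
      (fun a ha => onto1 T i j D a ha) a ha

end tup

end NPX

end

end Pool.Agent.K3M
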