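import Mathlib

/-!
# NS, first part: matrices without trace, Goursat's lemma for two factors
-/

set_option autoImplicit false

open scoped BigOperators
open Matrix

namespace Pool.Agent.K3M

noncomputable section

namespace NSX

variable {ι κ : Type} [Fintype ι] [DecidableEq ι] [Fintype κ] [DecidableEq κ]

/-- the elementary matrices -/
abbrev E (i j : ι) : Matrix ι ι ℂ := Matrix.single i j 1

theorem EE (i j k : ι) : E i j * E j k = E i k := by
  rw [Matrix.single_mul_single_same, one_mul]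

theorem EE0 (i k : ι) {j j' : ι} (h : j ≠ j') : E i j * E j' k = 0 :=
  Matrix.single_mul_single_of_ne _ _ _ _ h _

theorem EXE (i j k l : ι) (X : Matrix ι ι ℂ) : E i j * X * E k l = X j k • E i l := by
  rw [Matrix.single_mul_mul_single, one_mul, mul_one, Matrix.smul_single, smul_eq_mul, mul_one]

theorem tr_E {i j : ι} (h : i ≠ j) : (E i j).trace = 0 := Matrix.trace_single_eq_of_ne i j 1 h

theorem tr_comm (A B : Matrix ι ι ℂ) : (A * B - B * A).trace = 0 := by
  rw [Matrix.trace_sub, Matrix.trace_mul_comm, sub_self]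

/-- the matrices without trace are spanned by elementary ones -/
theorem gen (P : Submodule ℂ (Matrix ι ι ℂ)) (h1 : ∀ k l, k ≠ l → E k l ∈ P)
    (h2 : ∀ k l, k ≠ l → E k k - E l l ∈ P) {A : Matrix ι ι ℂ} (hA : A.trace = 0) : A ∈ P := by
  classical
  rcases isEmpty_or_nonempty ι with he | ⟨⟨o⟩⟩
  · have : A = 0 := by ext i; exact (he.false i).elim
    rw [this]; exact P.zero_mem
  have e1 : A = ∑ k, ∑ l, (A k l • E k l - if k = l then A k k • E o o else 0) := by
    have e2 : ∑ k, ∑ l, (if k = l then A k k • E o o else (0 : Matrix ι ι ℂ)) = 0 := by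
      have e3 : ∀ k, ∑ l, (if k = l then A k k • E o o else (0 : Matrix ι ι ℂ)) = A k k • E o o := by
        intro k
        rw [Finset.sum_ite_eq, if_pos (Finset.mem_univ k)]
      rw [Finset.sum_congr rfl fun k _ => e3 k, ← Finset.sum_smul]
      have : ∑ k, A k k = 0 := hA
      rw [this, zero_smul]
    simp only [Finset.sum_sub_distrib]
    rw [e2, sub_zero]
    conv_lhs => rw [Matrix.matrix_eq_sum_single A]
    refine Finset.sum_congr rfl fun k _ => Finset.sum_congr rfl fun l _ => ?_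
    rw [Matrix.smul_single, smul_eq_mul, mul_one]
  rw [e1]
  refine Submodule.sum_mem _ fun k _ => Submodule.sum_mem _ fun l _ => ?_
  by_cases hkl : k = l
  · subst hkl
    rw [if_pos rfl, ← smul_sub]
    by_cases hko : k = o
    · subst hko
      rw [sub_self, smul_zero]; exact P.zero_mem
    · exact P.smul_mem _ (h2 k o hko)
  · rw [if_neg hkl, sub_zero]
    exact P.smul_mem _ (h1 k l hkl)

/-- the Lie algebra of the matrices without trace is perfect -/
theorem perf (P : Submodule ℂ (Matrix ι ι ℂ))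
    (h : ∀ A B : Matrix ι ι ℂ, A.trace = 0 → B.trace = 0 → A * B - B * A ∈ P) {A : Matrix ι ι ℂ}
    (hA : A.trace = 0) : A ∈ P := by
  have h2 : ∀ k l : ι, k ≠ l → E k k - E l l ∈ P := by
    intro k l hkl
    have h3 := h (E k l) (E l k) (tr_E hkl) (tr_E (Ne.symm hkl))
    rwa [EE, EE] at h3
  refine gen P (fun k l hkl => ?_) h2 hA
  have ht : (E k k - E l l : Matrix ι ι ℂ).trace = 0 := by
    rw [Matrix.trace_sub, Matrix.trace_single_eq_same, Matrix.trace_single_eq_same, sub_self]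
  have h3 := P.smul_mem (1 / 2) (h (E k k - E l l) (E k l) ht (tr_E hkl))
  have h4 : (E k k - E l l) * E k l - E k l * (E k k - E l l) = (2 : ℂ) • E k l := by
    rw [sub_mul, mul_sub, EE, EE, EE0 _ _ (Ne.symm hkl), EE0 _ _ (Ne.symm hkl)]
    module
  rw [h4, smul_smul] at h3
  norm_num at h3
  exact h3

/-- it is simple -/
theorem simple (I : Submodule ℂ (Matrix ι ι ℂ))
    (hI : ∀ S : Matrix ι ι ℂ, S.trace = 0 → ∀ X ∈ I, S * X - X * S ∈ I) {X : Matrix ι ι ℂ} (hX : X ∈ I)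
    (hns : ∀ c : ℂ, X ≠ c • (1 : Matrix ι ι ℂ)) {A : Matrix ι ι ℂ} (hA : A.trace = 0) : A ∈ I := by
  -- double commutators
  have hd : ∀ k l : ι, k ≠ l → ∀ X ∈ I, X l k • E k l ∈ I := by
    intro k l hkl X hX
    have h1 := hI _ (tr_E hkl) _ (hI _ (tr_E hkl) X hX)
    have h2 : E k l * (E k l * X - X * E k l) - (E k l * X - X * E k l) * E k l =
        (-2 * X l k) • E k l := by
      rw [mul_sub, sub_mul, ← mul_assoc, ← mul_assoc, EE0 _ _ (Ne.symm hkl), zero_mul, EXE,
        mul_assoc X, EE0 _ _ (Ne.symm hkl), mul_zero]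
      module
    rw [h2] at h1
    have h3 := I.smul_mem (-(1 / 2)) h1
    rw [smul_smul] at h3
    have h4 : -(1 / 2) * (-2 * X l k) = X l k := by ring
    rwa [h4] at h3
  -- one elementary matrix
  obtain ⟨a, b, hab, hE⟩ : ∃ a b : ι, a ≠ b ∧ E a b ∈ I := by
    by_cases h1 : ∃ a b : ι, a ≠ b ∧ X a b ≠ 0
    · obtain ⟨a, b, hab, hne⟩ := h1
      refine ⟨b, a, Ne.symm hab, ?_⟩
      have h2 := I.smul_mem (X a b)⁻¹ (hd b a (Ne.symm hab) X hX)
      rwa [smul_smul, inv_mul_cancel₀ hne, one_smul] at h2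
    · push Not at h1
      obtain ⟨a, b, hab⟩ : ∃ a b, X a a ≠ X b b := by
        by_contra hcon
        push Not at hcon
        rcases isEmpty_or_nonempty ι with he | ⟨⟨o⟩⟩
        · exact hns 0 (by ext i; exact (he.false i).elim)
        · refine hns (X o o) ?_
          ext i j
          rw [Matrix.smul_apply, Matrix.one_apply]
          split_ifs with hij
          · subst hij
            rw [hcon i o, smul_eq_mul, mul_one]
          · rw [h1 i j hij, smul_zero]
      have hab' : a ≠ b := fun h => hab (by rw [h])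
      refine ⟨a, b, hab', ?_⟩
      have h2 := hI (E a b) (tr_E hab') X hX
      have h3 : E a b * X - X * E a b = (X b b - X a a) • E a b := by
        ext i j
        rw [Matrix.sub_apply, Matrix.smul_apply, smul_eq_mul]
        by_cases hia : i = a
        · subst hia
          by_cases hjb : j = b
          · subst hjb
            simp
          · have := h1 b j (Ne.symm hjb)
            simp [hjb, this, Matrix.single_apply_of_col_ne, Ne.symm hjb]
        · by_cases hjb : j = b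
          · subst hjb
            have := h1 i a hia
            simp [hia, this, Matrix.single_apply_of_row_ne, Ne.symm hia]
          · simp [hia, hjb, Matrix.single_apply_of_row_ne, Ne.symm hia]
      rw [h3] at h2
      have h4 := I.smul_mem (X b b - X a a)⁻¹ h2
      rwa [smul_smul, inv_mul_cancel₀ (sub_ne_zero.2 (Ne.symm hab)), one_smul] at h4
  have s1 : ∀ k, k ≠ b → E k b ∈ I := by
    intro k hk
    by_cases hka : k = a
    · rw [hka]; exact hE
    · have h1 := hI (E k a) (tr_E hka) _ hE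
      rwa [EE, EE0 _ _ (Ne.symm hk), sub_zero] at h1
  have s2 : ∀ k l, k ≠ b → k ≠ l → E k l ∈ I := by
    intro k l hk hkl
    by_cases hlb : l = b
    · rw [hlb]; exact s1 k hk
    · have h1 := hI (E b l) (tr_E (Ne.symm hlb)) _ (s1 k hk)
      rw [EE, EE0 _ _ (Ne.symm hkl), zero_sub] at h1
      have h2 := I.neg_mem h1
      rwa [neg_neg] at h2
  have s3 : ∀ k l, k ≠ l → E k l ∈ I := by
    intro k l hkl
    by_cases hk : k = b
    · subst hk
      have h1 := hd k l hkl _ (s1 l (Ne.symm hkl))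
      have h2 : (E l k : Matrix ι ι ℂ) l k = 1 := Matrix.single_apply_same l k 1
      rwa [h2, one_smul] at h1
    · exact s2 k l hk hkl
  refine gen I s3 (fun k l hkl => ?_) hA
  have h1 := hI (E k l) (tr_E hkl) _ (s3 l k (Ne.symm hkl))
  rwa [EE, EE] at h1

/-! ### Goursat -/

section gour

variable {D : Type} [AddCommGroup D] [Module ℂ D] (br : D → D → D) (f : D →ₗ[ℂ] Matrix ι ι ℂ)
  (g : D →ₗ[ℂ] Matrix κ κ ℂ)

/-- a Lie algebra acting on two spaces, with all the matrices without trace in both images -/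
structure GH : Prop where
  fbr : ∀ t t', f (br t t') = f t * f t' - f t' * f t
  gbr : ∀ t t', g (br t t') = g t * g t' - g t' * g t
  fon : ∀ A : Matrix ι ι ℂ, A.trace = 0 → ∃ t, f t = A
  gon : ∀ A : Matrix κ κ ℂ, A.trace = 0 → ∃ t, g t = A

variable {br f g}

theorem GH.swap (H : GH br f g) : GH br g f := ⟨H.gbr, H.fbr, H.gon, H.fon⟩

theorem free_of (H : GH br f g) {t : D} {c : ℂ} (hg : g t = c • 1) (hf : ∀ c : ℂ, f t ≠ c • 1) :
    ∀ A : Matrix ι ι ℂ, A.trace = 0 → ∃ t, f t = A ∧ g t = 0 := by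
  let I : Submodule ℂ (Matrix ι ι ℂ) :=
    { carrier := {X | ∃ t, f t = X ∧ ∃ c : ℂ, g t = c • 1}
      add_mem' := by
        rintro X Y ⟨t, rfl, c, h1⟩ ⟨t', rfl, c', h2⟩
        exact ⟨t + t', map_add _ _ _, c + c', by rw [map_add, h1, h2, add_smul]⟩
      zero_mem' := ⟨0, map_zero _, 0, by rw [map_zero, zero_smul]⟩
      smul_mem' := by
        rintro a X ⟨t, rfl, c, h1⟩
        exact ⟨a • t, map_smul _ _ _, a * c, by rw [map_smul, h1, smul_smul]⟩ }
  have hI : ∀ A : Matrix ι ι ℂ, A.trace = 0 → A ∈ I := by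
    intro A hA
    refine simple I ?_ (X := f t) ⟨t, rfl, c, hg⟩ hf hA
    rintro S hS X ⟨t, rfl, c, h1⟩
    obtain ⟨s, rfl⟩ := H.fon S hS
    refine ⟨br s t, H.fbr s t, 0, ?_⟩
    rw [H.gbr, h1, Matrix.mul_smul, Matrix.smul_mul, mul_one, one_mul, sub_self, zero_smul]
  let P : Submodule ℂ (Matrix ι ι ℂ) :=
    { carrier := {X | ∃ t, f t = X ∧ g t = 0}
      add_mem' := by
        rintro X Y ⟨t, rfl, h1⟩ ⟨t', rfl, h2⟩
        exact ⟨t + t', map_add _ _ _, by rw [map_add, h1, h2, add_zero]⟩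
      zero_mem' := ⟨0, map_zero _, map_zero _⟩
      smul_mem' := by
        rintro a X ⟨t, rfl, h1⟩
        exact ⟨a • t, map_smul _ _ _, by rw [map_smul, h1, smul_zero]⟩ }
  intro A hA
  have h1 : A ∈ P := perf P (fun A B hA hB => by
    obtain ⟨s, hs, c, h1⟩ := hI A hA
    obtain ⟨t, ht, c', h2⟩ := hI B hB
    refine ⟨br s t, by rw [H.fbr, hs, ht], ?_⟩
    rw [H.gbr, h1, h2, Matrix.mul_smul, Matrix.smul_mul, mul_one, Matrix.mul_smul, Matrix.smul_mul,
      mul_one, smul_smul, smul_smul, mul_comm, sub_self]) hA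
  exact h1

/-- Goursat's lemma -/
theorem goursat (H : GH br f g) :
    (∀ A : Matrix ι ι ℂ, A.trace = 0 → ∃ t, f t = A ∧ g t = 0) ∨
    (∀ t, (∃ c : ℂ, f t = c • 1) ↔ ∃ c : ℂ, g t = c • 1) := by
  by_cases h1 : ∃ t, (∃ c : ℂ, g t = c • 1) ∧ ∀ c : ℂ, f t ≠ c • 1
  · obtain ⟨t, ⟨c, hc⟩, h2⟩ := h1
    exact Or.inl (free_of H hc h2)
  by_cases h2 : ∃ t, (∃ c : ℂ, f t = c • 1) ∧ ∀ c : ℂ, g t ≠ c • 1
  · obtain ⟨t, ⟨c, hc⟩, h2⟩ := h2
    left
    have h3 := free_of H.swap hc h2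
    let P : Submodule ℂ (Matrix ι ι ℂ) :=
      { carrier := {X | ∃ t, f t = X ∧ g t = 0}
        add_mem' := by
          rintro X Y ⟨t, rfl, h1⟩ ⟨t', rfl, h2⟩
          exact ⟨t + t', map_add _ _ _, by rw [map_add, h1, h2, add_zero]⟩
        zero_mem' := ⟨0, map_zero _, map_zero _⟩
        smul_mem' := by
          rintro a X ⟨t, rfl, h1⟩
          exact ⟨a • t, map_smul _ _ _, by rw [map_smul, h1, smul_zero]⟩ }
    intro A hA
    have h4 : A ∈ P := perf P (fun A B hA hB => by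
      obtain ⟨s, rfl⟩ := H.fon A hA
      obtain ⟨t, rfl⟩ := H.fon B hB
      obtain ⟨u, hu1, hu2⟩ := h3 (g (br s t)) (by rw [H.gbr]; exact tr_comm _ _)
      exact ⟨br s t - u, by rw [map_sub, H.fbr, hu2, sub_zero], by rw [map_sub, hu1, sub_self]⟩) hA
    exact h4
  right
  intro t
  constructor
  · intro hc
    by_contra hcon
    exact h2 ⟨t, hc, fun c h => hcon ⟨c, h⟩⟩
  · intro hc
    by_contra hcon
    exact h1 ⟨t, hc, fun c h => hcon ⟨c, h⟩⟩

end gour

/-! ### Isomorphisms -/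

/-- The matrices without trace. -/
abbrev sl (ι : Type) [Fintype ι] [DecidableEq ι] : Submodule ℂ (Matrix ι ι ℂ) :=
  LinearMap.ker (Matrix.traceLinearMap ι ℂ ℂ)

theorem mem_sl {A : Matrix ι ι ℂ} : A ∈ sl ι ↔ A.trace = 0 := by
  rw [LinearMap.mem_ker, Matrix.traceLinearMap_apply]

/-- The bracket. -/
def lb (A B : sl ι) : sl ι := ⟨(A : Matrix ι ι ℂ) * B - B * A, mem_sl.2 (tr_comm _ _)⟩

theorem lb_coe (A B : sl ι) : (lb A B : Matrix ι ι ℂ) = (A : Matrix ι ι ℂ) * B - B * A := rfl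

theorem finrank_sl [Nonempty ι] : Module.finrank ℂ (sl ι) + 1 = Fintype.card ι * Fintype.card ι := by
  have h1 := LinearMap.finrank_range_add_finrank_ker (Matrix.traceLinearMap ι ℂ ℂ)
  have h2 : LinearMap.range (Matrix.traceLinearMap ι ℂ ℂ) = ⊤ := by
    rw [LinearMap.range_eq_top]
    intro c
    obtain ⟨o⟩ := ‹Nonempty ι›
    exact ⟨Matrix.single o o c, by rw [Matrix.traceLinearMap_apply, Matrix.trace_single_eq_same]⟩
  rw [h2, finrank_top, Module.finrank_self, Module.finrank_matrix, Module.finrank_self, mul_one] at h1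
  rw [← h1, add_comm]

/-- the part without trace -/
def tf (ι : Type) [Fintype ι] [DecidableEq ι] : Matrix ι ι ℂ →ₗ[ℂ] Matrix ι ι ℂ where
  toFun A := A - (A.trace / Fintype.card ι) • (1 : Matrix ι ι ℂ)
  map_add' A B := by rw [Matrix.trace_add]; module
  map_smul' c A := by rw [Matrix.trace_smul, RingHom.id_apply, smul_eq_mul]; module

theorem tf_apply (A : Matrix ι ι ℂ) : tf ι A = A - (A.trace / Fintype.card ι) • (1 : Matrix ι ι ℂ) := rfl

theorem tf_mem [Nonempty ι] (A : Matrix ι ι ℂ) : tf ι A ∈ sl ι := by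
  rw [mem_sl, tf_apply, Matrix.trace_sub, Matrix.trace_smul, Matrix.trace_one, smul_eq_mul,
    div_mul_cancel₀ _ (by exact_mod_cast Fintype.card_ne_zero), sub_self]

theorem tf_of (A : Matrix ι ι ℂ) (h : A.trace = 0) : tf ι A = A := by
  rw [tf_apply, h, zero_div, zero_smul, sub_zero]

theorem tf_zero [Nonempty ι] (A : Matrix ι ι ℂ) : tf ι A = 0 ↔ ∃ c : ℂ, A = c • 1 := by
  constructor
  · intro h
    exact ⟨_, sub_eq_zero.1 h⟩
  · rintro ⟨c, rfl⟩
    rw [tf_apply, Matrix.trace_smul, Matrix.trace_one, smul_eq_mul, mul_div_assoc,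
      div_self (by exact_mod_cast Fintype.card_ne_zero), mul_one, sub_self]

theorem tf_br (A B : Matrix ι ι ℂ) : tf ι A * tf ι B - tf ι B * tf ι A = A * B - B * A := by
  rw [tf_apply, tf_apply]
  simp only [sub_mul, mul_sub, Matrix.mul_smul, Matrix.smul_mul, mul_one, one_mul]
  module

/-- the isomorphism given by a graph -/
theorem exists_iso {D : Type} [AddCommGroup D] [Module ℂ D] {br : D → D → D}
    {f : D →ₗ[ℂ] Matrix ι ι ℂ} {g : D →ₗ[ℂ] Matrix κ κ ℂ} [Nonempty ι] [Nonempty κ] (H : GH br f g)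
    (hfg : ∀ t, (∃ c : ℂ, f t = c • 1) ↔ ∃ c : ℂ, g t = c • 1) :
    ∃ φ : sl ι ≃ₗ[ℂ] sl κ, (∀ A B, φ (lb A B) = lb (φ A) (φ B)) ∧
      ∀ t, (φ ⟨tf ι (f t), tf_mem _⟩ : Matrix κ κ ℂ) = tf κ (g t) := by
  let F : D →ₗ[ℂ] sl ι := (tf ι ∘ₗ f).codRestrict (sl ι) fun t => tf_mem _
  let G : D →ₗ[ℂ] sl κ := (tf κ ∘ₗ g).codRestrict (sl κ) fun t => tf_mem _
  have hF : ∀ t, (F t : Matrix ι ι ℂ) = tf ι (f t) := fun t => rfl
  have hG : ∀ t, (G t : Matrix κ κ ℂ) = tf κ (g t) := fun t => rfl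
  have sF : Function.Surjective F := by
    rintro ⟨A, hA⟩
    obtain ⟨t, ht⟩ := H.fon A (mem_sl.1 hA)
    exact ⟨t, Subtype.ext (by rw [hF, ht, tf_of A (mem_sl.1 hA)])⟩
  have sG : Function.Surjective G := by
    rintro ⟨A, hA⟩
    obtain ⟨t, ht⟩ := H.gon A (mem_sl.1 hA)
    exact ⟨t, Subtype.ext (by rw [hG, ht, tf_of A (mem_sl.1 hA)])⟩
  have kFG : LinearMap.ker F = LinearMap.ker G := by
    ext t
    rw [LinearMap.mem_ker, LinearMap.mem_ker, ← Submodule.coe_eq_zero, ← Submodule.coe_eq_zero, hF, hG,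
      tf_zero, tf_zero]
    exact hfg t
  let φ : sl ι ≃ₗ[ℂ] sl κ := (F.quotKerEquivOfSurjective sF).symm.trans
    ((Submodule.quotEquivOfEq _ _ kFG).trans (G.quotKerEquivOfSurjective sG))
  have hφ : ∀ t, φ (F t) = G t := by
    intro t
    have h1 : (F.quotKerEquivOfSurjective sF).symm (F t) = Submodule.Quotient.mk t := by
      rw [LinearEquiv.symm_apply_eq]
      rfl
    show (G.quotKerEquivOfSurjective sG) ((Submodule.quotEquivOfEq _ _ kFG)
      ((F.quotKerEquivOfSurjective sF).symm (F t))) = G t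
    rw [h1, Submodule.quotEquivOfEq_mk]
    rfl
  refine ⟨φ, fun A B => ?_, fun t => congrArg Subtype.val (hφ t)⟩
  obtain ⟨s, rfl⟩ := sF A
  obtain ⟨t, rfl⟩ := sF B
  have h1 : lb (F s) (F t) = F (br s t) := by
    refine Subtype.ext ?_
    rw [lb_coe, hF, hF, hF, tf_br, tf_of _ (by rw [H.fbr]; exact tr_comm _ _), H.fbr]
  have h2 : lb (G s) (G t) = G (br s t) := by
    refine Subtype.ext ?_
    rw [lb_coe, hG, hG, hG, tf_br, tf_of _ (by rw [H.gbr]; exact tr_comm _ _), H.gbr]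
  rw [h1, hφ, hφ, hφ, h2]

/-! ### The image of a reflection -/

theorem tr_LR (A B : Matrix ι ι ℂ) :
    LinearMap.trace ℂ (Matrix ι ι ℂ) (LinearMap.mulLeft ℂ A ∘ₗ LinearMap.mulRight ℂ B) =
      A.trace * B.trace := by
  rw [LinearMap.trace_eq_matrix_trace ℂ (Matrix.stdBasis ℂ ι ι), Matrix.trace, Fintype.sum_prod_type,
    Matrix.trace, Matrix.trace, Finset.sum_mul_sum]
  refine Finset.sum_congr rfl fun i _ => Finset.sum_congr rfl fun j _ => ?_
  rw [Matrix.diag_apply, LinearMap.toMatrix_apply, Matrix.stdBasis_eq_single]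
  have h1 : (Matrix.stdBasis ℂ ι ι).repr ((LinearMap.mulLeft ℂ A ∘ₗ LinearMap.mulRight ℂ B)
      (Matrix.single i j 1)) (i, j) = (A * (E i j * B)) i j := rfl
  rw [h1, ← mul_assoc, Matrix.mul_apply, Finset.sum_eq_single j, Matrix.mul_single_apply_same, mul_one]
  · rfl
  · intro k _ hk
    rw [Matrix.mul_single_apply_of_ne _ _ _ _ _ hk, zero_mul]
  · intro h; exact absurd (Finset.mem_univ j) h

/-- `Z ↦ [A, [A, Z]]` -/
def adsq (A : Matrix ι ι ℂ) : Matrix ι ι ℂ →ₗ[ℂ] Matrix ι ι ℂ :=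
  LinearMap.mulLeft ℂ (A * A) ∘ₗ LinearMap.mulRight ℂ 1 -
    (2 : ℂ) • (LinearMap.mulLeft ℂ A ∘ₗ LinearMap.mulRight ℂ A) +
    LinearMap.mulLeft ℂ 1 ∘ₗ LinearMap.mulRight ℂ (A * A)

theorem adsq_apply (A Z : Matrix ι ι ℂ) : adsq A Z = A * (A * Z - Z * A) - (A * Z - Z * A) * A := by
  have h1 : adsq A Z = A * A * (Z * 1) - (2 : ℂ) • (A * (Z * A)) + 1 * (Z * (A * A)) := rfl
  rw [h1, two_smul]
  noncomm_ring

theorem tr_adsq (A : Matrix ι ι ℂ) : LinearMap.trace ℂ (Matrix ι ι ℂ) (adsq A) =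
    2 * (Fintype.card ι * (A * A).trace) - 2 * (A.trace * A.trace) := by
  rw [adsq, map_add, map_sub, map_smul, tr_LR, tr_LR, tr_LR, Matrix.trace_one, smul_eq_mul]
  ring

theorem adsq_mem (A Z : Matrix ι ι ℂ) : adsq A Z ∈ sl ι := by
  rw [mem_sl, adsq_apply]
  exact tr_comm _ _

/-- the Killing form is preserved -/
theorem killing (φ : sl ι ≃ₗ[ℂ] sl κ) (hφ : ∀ A B, φ (lb A B) = lb (φ A) (φ B)) (A : sl ι) :
    (Fintype.card κ : ℂ) * ((φ A : Matrix κ κ ℂ) * (φ A)).trace =
      Fintype.card ι * ((A : Matrix ι ι ℂ) * A).trace := by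
  have h1 := LinearMap.trace_restrict_eq_of_forall_mem (sl ι) (adsq (A : Matrix ι ι ℂ))
    (fun Z => adsq_mem _ _)
  have h2 := LinearMap.trace_restrict_eq_of_forall_mem (sl κ) (adsq (φ A : Matrix κ κ ℂ))
    (fun Z => adsq_mem _ _)
  have h3 : φ.conj ((adsq (A : Matrix ι ι ℂ)).restrict fun Z _ => adsq_mem _ Z) =
      (adsq (φ A : Matrix κ κ ℂ)).restrict fun Z _ => adsq_mem _ Z := by
    refine LinearMap.ext fun Z => ?_
    obtain ⟨Y, rfl⟩ := φ.surjective Z
    rw [LinearEquiv.conj_apply_apply, φ.symm_apply_apply]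
    have e1 : (adsq (A : Matrix ι ι ℂ)).restrict (fun Z _ => adsq_mem _ Z) Y = lb A (lb A Y) := by
      refine Subtype.ext ?_
      show adsq (A : Matrix ι ι ℂ) Y = _
      rw [adsq_apply]; rfl
    have e2 : (adsq (φ A : Matrix κ κ ℂ)).restrict (fun Z _ => adsq_mem _ Z) (φ Y) =
        lb (φ A) (lb (φ A) (φ Y)) := by
      refine Subtype.ext ?_
      show adsq (φ A : Matrix κ κ ℂ) (φ Y) = _
      rw [adsq_apply]; rfl
    rw [e1, e2, hφ, hφ]
  have h4 := LinearMap.trace_conj' ((adsq (A : Matrix ι ι ℂ)).restrict fun Z _ => adsq_mem _ Z) φ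
  rw [h3, h2, h1, tr_adsq, tr_adsq, mem_sl.1 A.2, mem_sl.1 (φ A).2] at h4
  linear_combination (1 / 2 : ℂ) * h4

theorem ent (A B : Matrix ι ι ℂ) (i j k l : ι) : (A * E k l * B) i j = A i k * B l j := by
  rw [Matrix.mul_apply, Finset.sum_eq_single l, Matrix.mul_single_apply_same, mul_one]
  · intro p _ hp
    rw [Matrix.mul_single_apply_of_ne _ _ _ _ _ hp, zero_mul]
  · intro h; exact absurd (Finset.mem_univ l) h

/-- if `(ad M)^3 = c^2 ad M` then `M` has degree at most two -/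
theorem quadr {M : Matrix ι ι ℂ} {c : ℂ} (hns : ∀ s : ℂ, M ≠ s • 1)
    (h : ∀ Z : Matrix ι ι ℂ, M * M * M * Z - (M * M * Z * M + M * M * Z * M + M * M * Z * M) +
      (M * Z * (M * M) + M * Z * (M * M) + M * Z * (M * M)) -
      Z * (M * M * M) = c ^ 2 • (M * Z - Z * M)) :
    ∃ a b : ℂ, M * M = a • M + b • 1 ∧ a ^ 2 + 4 * b = c ^ 2 := by
  -- the tensor identity
  have key : ∀ l j : ι, (if l = j then (1 : ℂ) else 0) • (M * M * M) - (3 * M l j) • (M * M) +
      (3 * (M * M) l j) • M - ((M * M * M) l j) • (1 : Matrix ι ι ℂ) =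
      c ^ 2 • ((if l = j then (1 : ℂ) else 0) • M - M l j • (1 : Matrix ι ι ℂ)) := by
    intro l j
    ext i k
    have h1 := congrFun (congrFun (h (E k l)) i) j
    have e1 : (M * M * M * E k l) i j = (M * M * M) i k * (1 : Matrix ι ι ℂ) l j := by
      rw [← ent, mul_one]
    have e2 : (E k l * (M * M * M)) i j = (1 : Matrix ι ι ℂ) i k * (M * M * M) l j := by
      rw [← ent, one_mul]
    have e3 : (M * E k l) i j = M i k * (1 : Matrix ι ι ℂ) l j := by rw [← ent, mul_one]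
    have e4 : (E k l * M) i j = (1 : Matrix ι ι ℂ) i k * M l j := by rw [← ent, one_mul]
    simp only [Matrix.sub_apply, Matrix.add_apply] at h1
    rw [e1, e2, ent, ent, Matrix.smul_apply, Matrix.sub_apply, e3, e4, smul_eq_mul] at h1
    have e6 : (1 : Matrix ι ι ℂ) l j = if l = j then (1 : ℂ) else 0 := Matrix.one_apply
    rw [e6] at h1
    simp only [Matrix.sub_apply, Matrix.add_apply, Matrix.smul_apply, smul_eq_mul]
    linear_combination h1
  have hsq : ∃ a b : ℂ, M * M = a • M + b • 1 := by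
    by_cases h1 : ∃ l j : ι, l ≠ j ∧ M l j ≠ 0
    · obtain ⟨l, j, hlj, hne⟩ := h1
      have h2 := key l j
      rw [if_neg hlj, zero_smul, zero_smul, zero_sub, zero_sub] at h2
      refine ⟨(3 * M l j)⁻¹ * (3 * (M * M) l j), (3 * M l j)⁻¹ * (c ^ 2 * M l j - (M * M * M) l j), ?_⟩
      have h3 : (3 * M l j) • (M * M) = (3 * (M * M) l j) • M +
          (c ^ 2 * M l j - (M * M * M) l j) • (1 : Matrix ι ι ℂ) := by
        rw [← sub_eq_zero]
        have h4 := sub_eq_zero.2 h2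
        rw [← neg_eq_zero, ← h4]
        module
      have h5 : 3 * M l j ≠ 0 := mul_ne_zero three_ne_zero hne
      have h6 := congrArg (fun Y => (3 * M l j)⁻¹ • Y) h3
      simp only [smul_add, smul_smul, inv_mul_cancel₀ h5, one_smul] at h6
      exact h6
    · push Not at h1
      obtain ⟨l, j, hlj⟩ : ∃ l j, M l l ≠ M j j := by
        by_contra hcon
        push Not at hcon
        rcases isEmpty_or_nonempty ι with he | ⟨⟨o⟩⟩
        · exact hns 0 (by ext i; exact (he.false i).elim)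
        · refine hns (M o o) ?_
          ext i j
          rw [Matrix.smul_apply, Matrix.one_apply]
          split_ifs with hij
          · subst hij
            rw [hcon i o, smul_eq_mul, mul_one]
          · rw [h1 i j hij, smul_zero]
      have h2 := key l l
      have h3 := key j j
      rw [if_pos rfl] at h2 h3
      have h5 : 3 * (M l l - M j j) ≠ 0 := mul_ne_zero three_ne_zero (sub_ne_zero.2 hlj)
      refine ⟨(3 * (M l l - M j j))⁻¹ * (3 * ((M * M) l l - (M * M) j j)),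
        (3 * (M l l - M j j))⁻¹ * (c ^ 2 * (M l l - M j j) - ((M * M * M) l l - (M * M * M) j j)), ?_⟩
      have h6 : (3 * (M l l - M j j)) • (M * M) = (3 * ((M * M) l l - (M * M) j j)) • M +
          (c ^ 2 * (M l l - M j j) - ((M * M * M) l l - (M * M * M) j j)) • (1 : Matrix ι ι ℂ) := by
        rw [← sub_eq_zero]
        have h4 := sub_eq_zero.2 h2
        have h4' := sub_eq_zero.2 h3
        have h7 := congrArg₂ (fun X Y => X - Y) h4' h4
        simp only [sub_zero] at h7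
        rw [← h7]
        module
      have h7 := congrArg (fun Y => (3 * (M l l - M j j))⁻¹ • Y) h6
      simp only [smul_add, smul_smul, inv_mul_cancel₀ h5, one_smul] at h7
      exact h7
  obtain ⟨a, b, hab⟩ := hsq
  refine ⟨a, b, hab, ?_⟩
  by_contra hne
  -- all commutators vanish
  have h3 : ∀ Z : Matrix ι ι ℂ, M * Z - Z * M = 0 := by
    intro Z
    have h1 := h Z
    have e1 : M * M * M = (a ^ 2 + b) • M + (a * b) • 1 := by
      rw [hab, Matrix.add_mul, Matrix.smul_mul, Matrix.smul_mul, hab, one_mul]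
      module
    rw [e1, hab] at h1
    simp only [Matrix.add_mul, Matrix.mul_add, Matrix.smul_mul, Matrix.mul_smul, one_mul, mul_one] at h1
    have h2 : (a ^ 2 + 4 * b - c ^ 2) • (M * Z - Z * M) = 0 := by
      rw [← sub_eq_zero] at h1
      rw [← h1]
      module
    exact (smul_eq_zero.1 h2).resolve_left (sub_ne_zero.2 hne)
  have h4 : M ∈ Set.range (Matrix.scalar ι) := by
    refine Matrix.mem_range_scalar_of_commute_single fun i j _ => ?_
    exact (sub_eq_zero.1 (h3 _)).symm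
  obtain ⟨s, hs⟩ := h4
  refine hns s ?_
  rw [← hs, Matrix.scalar_apply, Matrix.smul_one_eq_diagonal]

/-- The image of `c (F - 1/m)`, `F` idempotent of rank one. -/
theorem core [Nonempty κ] (hcard : Fintype.card ι = Fintype.card κ) (hc2 : 2 ≤ Fintype.card ι)
    (φ : sl ι ≃ₗ[ℂ] sl κ) (hφ : ∀ A B, φ (lb A B) = lb (φ A) (φ B)) {c : ℂ} (hc : c ≠ 0)
    {F : Matrix ι ι ℂ} (hEE : F * F = F) (htE : F.trace = 1)
    (X : sl ι) (hX : (X : Matrix ι ι ℂ) = tf ι (c • F)) :
    ∃ a b : ℂ, (φ X : Matrix κ κ ℂ) * φ X = a • (φ X : Matrix κ κ ℂ) + b • 1 ∧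
      ((Fintype.card κ : ℂ) * a) ^ 2 = c ^ 2 * ((Fintype.card κ : ℂ) - 2) ^ 2 ∧
      (∀ s : ℂ, (φ X : Matrix κ κ ℂ) ≠ s • 1) := by
  set N : ℂ := (Fintype.card κ : ℂ) with hN
  have hN' : (Fintype.card ι : ℂ) = N := by rw [hcard]
  have hN0 : N ≠ 0 := by rw [hN]; exact_mod_cast Fintype.card_ne_zero
  have hN1 : N - 1 ≠ 0 := by
    rw [hN, sub_ne_zero]
    intro h
    have : Fintype.card κ = 1 := by exact_mod_cast h
    omega
  have hX' : (X : Matrix ι ι ℂ) = c • F - (c / N) • 1 := by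
    rw [hX, tf_apply, Matrix.trace_smul, htE, smul_eq_mul, mul_one, hN']
  -- the cube
  have hcube : ∀ Z : Matrix ι ι ℂ, (X : Matrix ι ι ℂ) * (adsq X Z) - (adsq X Z) * X =
      c ^ 2 • ((X : Matrix ι ι ℂ) * Z - Z * X) := by
    intro Z
    have e0 : ∀ Y : Matrix ι ι ℂ, (X : Matrix ι ι ℂ) * Y - Y * X = c • (F * Y - Y * F) := by
      intro Y
      rw [hX']
      simp only [sub_mul, mul_sub, Matrix.smul_mul, Matrix.mul_smul, one_mul, mul_one]
      module
    rw [adsq_apply, e0, e0, e0]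
    simp only [Matrix.smul_mul, Matrix.mul_smul, ← smul_sub, smul_smul]
    have e1 : F * (F * (F * Z - Z * F) - (F * Z - Z * F) * F) -
        (F * (F * Z - Z * F) - (F * Z - Z * F) * F) * F =
        F * Z - Z * F := by
      have a1 : ∀ Y : Matrix ι ι ℂ, F * (F * Y) = F * Y := fun Y => by
        rw [← mul_assoc, hEE]
      have a2 : ∀ Y : Matrix ι ι ℂ, Y * F * F = Y * F := fun Y => by
        rw [mul_assoc, hEE]
      simp only [mul_sub, sub_mul, a1, a2, mul_assoc, hEE]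
      abel
    rw [e1]
    congr 1
    ring
  have hns : ∀ s : ℂ, (φ X : Matrix κ κ ℂ) ≠ s • 1 := by
    intro s hs
    have h1 := mem_sl.1 (φ X).2
    rw [hs, Matrix.trace_smul, Matrix.trace_one, smul_eq_mul] at h1
    have h2 : s = 0 := (mul_eq_zero.1 h1).resolve_right hN0
    rw [h2, zero_smul] at hs
    have h3 : φ X = 0 := Subtype.ext hs
    have h4 : X = 0 := by
      rw [← φ.symm_apply_apply X, h3, map_zero]
    have h5 : ((X : Matrix ι ι ℂ) * X).trace = 0 := by
      rw [h4]; simp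
    rw [hX'] at h5
    have h6 : ((c • F - (c / N) • 1 : Matrix ι ι ℂ) * (c • F - (c / N) • 1)).trace =
        c ^ 2 * (1 - 1 / N) := by
      have e1 : (c • F - (c / N) • 1 : Matrix ι ι ℂ) * (c • F - (c / N) • 1) =
          (c ^ 2 - 2 * c ^ 2 / N) • F + (c ^ 2 / N ^ 2) • 1 := by
        simp only [sub_mul, mul_sub, Matrix.smul_mul, Matrix.mul_smul, one_mul, mul_one, hEE]
        module
      rw [e1, Matrix.trace_add, Matrix.trace_smul, Matrix.trace_smul, htE, Matrix.trace_one, hN',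
        smul_eq_mul, smul_eq_mul]
      field_simp
      ring
    rw [h6] at h5
    rcases mul_eq_zero.1 h5 with h7 | h7
    · exact hc (pow_eq_zero_iff (two_ne_zero) |>.1 h7)
    · apply hN1
      field_simp at h7
      linear_combination h7
  -- the cube on the other side
  have hcube' : ∀ Z : Matrix κ κ ℂ, (φ X : Matrix κ κ ℂ) * (adsq (φ X) Z) - (adsq (φ X) Z) * φ X =
      c ^ 2 • ((φ X : Matrix κ κ ℂ) * Z - Z * φ X) := by
    have h1 : ∀ Z : sl κ, (φ X : Matrix κ κ ℂ) * (adsq (φ X : Matrix κ κ ℂ) (Z : Matrix κ κ ℂ)) -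
        (adsq (φ X : Matrix κ κ ℂ) (Z : Matrix κ κ ℂ)) * φ X =
        c ^ 2 • ((φ X : Matrix κ κ ℂ) * Z - Z * φ X) := by
      intro Z
      obtain ⟨Y, rfl⟩ := φ.surjective Z
      have e1 : lb X (lb X (lb X Y)) = c ^ 2 • lb X Y := by
        refine Subtype.ext ?_
        have e2 := hcube (Y : Matrix ι ι ℂ)
        rw [adsq_apply] at e2
        exact e2
      have e3 := congrArg φ e1
      rw [hφ, hφ, hφ, map_smul, hφ] at e3
      have e4 := congrArg Subtype.val e3
      rw [adsq_apply]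
      exact e4
    intro Z
    have h2 := h1 ⟨tf κ Z, tf_mem Z⟩
    have h3 : (φ X : Matrix κ κ ℂ) * tf κ Z - tf κ Z * φ X = (φ X : Matrix κ κ ℂ) * Z - Z * φ X := by
      rw [tf_apply]
      simp only [sub_mul, mul_sub, Matrix.smul_mul, Matrix.mul_smul, one_mul, mul_one]
      module
    have h4 : adsq (φ X : Matrix κ κ ℂ) (tf κ Z) = adsq (φ X : Matrix κ κ ℂ) Z := by
      rw [adsq_apply, adsq_apply, h3]
    dsimp only at h2
    rwa [h4, h3] at h2
  obtain ⟨a, b, h1, h2⟩ := quadr (M := (φ X : Matrix κ κ ℂ)) (c := c) hns (fun Z => by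
    rw [← hcube' Z, adsq_apply]
    noncomm_ring)
  refine ⟨a, b, h1, ?_, hns⟩
  -- the trace
  have h3 := killing φ hφ X
  have h4 : ((X : Matrix ι ι ℂ) * X).trace = c ^ 2 * (1 - 1 / N) := by
    rw [hX']
    have e1 : (c • F - (c / N) • 1 : Matrix ι ι ℂ) * (c • F - (c / N) • 1) =
        (c ^ 2 - 2 * c ^ 2 / N) • F + (c ^ 2 / N ^ 2) • 1 := by
      simp only [sub_mul, mul_sub, Matrix.smul_mul, Matrix.mul_smul, one_mul, mul_one, hEE]
      module
    rw [e1, Matrix.trace_add, Matrix.trace_smul, Matrix.trace_smul, htE, Matrix.trace_one, hN',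
      smul_eq_mul, smul_eq_mul]
    field_simp
    ring
  have h5 : ((φ X : Matrix κ κ ℂ) * φ X).trace = b * N := by
    rw [h1, Matrix.trace_add, Matrix.trace_smul, Matrix.trace_smul, mem_sl.1 (φ X).2, Matrix.trace_one,
      smul_zero, zero_add, smul_eq_mul]
  rw [h4, h5, hN', ← hN] at h3
  have h6 : b * N = c ^ 2 * (1 - 1 / N) := mul_left_cancel₀ hN0 h3
  have h7 : b * N ^ 2 = c ^ 2 * (N - 1) := by
    have : b * N ^ 2 = (b * N) * N := by ring
    rw [this, h6]
    field_simp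
  linear_combination N ^ 2 * h2 - 4 * h7

end NSX

end

end Pool.Agent.K3M
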