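import Pool.Agent.K3P.PR

/-!
# PM: pairs of an orthogonal and a unitary Lie algebra
-/

set_option autoImplicit false

namespace Pool.Agent.K3M

open Module Pool.Agent.K3P Pool.Agent.K3P.PRX

noncomputable section

/-- The data of a quadratic space, a hermitian space (with complex structure `J`, of complex dimension at
least three and signature `(1, *)`) and a Lie algebra acting on both. -/
structure MixHyp (V V' : Type) [AddCommGroup V] [Module ℝ V] [FiniteDimensional ℝ V]
    [AddCommGroup V'] [Module ℝ V'] [FiniteDimensional ℝ V'] (b : LinearMap.BilinForm ℝ V)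
    (b' : LinearMap.BilinForm ℝ V') (J : Module.End ℝ V')
    (l : Submodule ℝ (Module.End ℝ V × Module.End ℝ V')) : Prop where
  symm : ∀ x y, b x y = b y x
  symm' : ∀ x y, b' x y = b' y x
  nondeg : ∀ x, (∀ y, b x y = 0) → x = 0
  nondeg' : ∀ x, (∀ y, b' x y = 0) → x = 0
  /-- the signatures are `(2, *)` -/
  pos : ∃ x y, 0 < b x x ∧ 0 < b y y ∧ b x y = 0 ∧ ∀ z, z ≠ 0 → b x z = 0 → b y z = 0 → b z z < 0
  pos' : ∃ x y, 0 < b' x x ∧ 0 < b' y y ∧ b' x y = 0 ∧ ∀ z, z ≠ 0 → b' x z = 0 → b' y z = 0 → b' z z < 0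
  dim : Module.finrank ℝ V = 3 ∨ 6 ≤ Module.finrank ℝ V
  dim' : 6 ≤ Module.finrank ℝ V'
  JJ : ∀ x, J (J x) = -x
  Jb : ∀ x y, b' (J x) (J y) = b' x y
  skew : ∀ p ∈ l, ∀ x y, b (p.1 x) y + b x (p.1 y) = 0
  skew' : ∀ p ∈ l, ∀ x y, b' (p.2 x) y + b' x (p.2 y) = 0
  comm' : ∀ p ∈ l, ∀ x, p.2 (J x) = J (p.2 x)
  brk : ∀ p ∈ l, ∀ q ∈ l, (p.1 * q.1 - q.1 * p.1, p.2 * q.2 - q.2 * p.2) ∈ l
  /-- the first projection is onto, the second one contains the derived algebra -/
  onto : ∀ a : Module.End ℝ V, (∀ x y, b (a x) y + b x (a y) = 0) → ∃ a', (a, a') ∈ l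
  onto' : ∀ a₁ a₂ : Module.End ℝ V', (∀ x y, b' (a₁ x) y + b' x (a₁ y) = 0) → (∀ x, a₁ (J x) = J (a₁ x)) →
    (∀ x y, b' (a₂ x) y + b' x (a₂ y) = 0) → (∀ x, a₂ (J x) = J (a₂ x)) →
    ∃ a, (a, a₁ * a₂ - a₂ * a₁) ∈ l
  /-- hyperbolic lifts -/
  hyp : ∀ p ∈ l, (⨆ c : ℝ, Module.End.eigenspace p.1 c = ⊤) →
    ∃ a', (p.1, a') ∈ l ∧ (⨆ c : ℝ, Module.End.eigenspace a' c = ⊤)

/-- PM. The Lie algebra contains the first factor. -/
def Stmt_PM : Prop :=
  ∀ (V V' : Type) [AddCommGroup V] [Module ℝ V] [FiniteDimensional ℝ V]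
    [AddCommGroup V'] [Module ℝ V'] [FiniteDimensional ℝ V'] (b : LinearMap.BilinForm ℝ V)
    (b' : LinearMap.BilinForm ℝ V') (J : Module.End ℝ V')
    (l : Submodule ℝ (Module.End ℝ V × Module.End ℝ V')),
    MixHyp V V' b b' J l →
    ∀ a : Module.End ℝ V, (∀ x y, b (a x) y + b x (a y) = 0) → (a, (0 : Module.End ℝ V')) ∈ l

namespace PMX

variable {V : Type} [AddCommGroup V] [Module ℝ V] {b : LinearMap.BilinForm ℝ V} {J : Module.End ℝ V}

/-- isotropic vectors orthogonal to an isotropic complex line lie on it -/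
theorem iso3 [FiniteDimensional ℝ V] (h : QH b) (JJ : ∀ x, J (J x) = -x)
    (Jb : ∀ x y, b (J x) (J y) = b x y) {x v : V} (hx0 : x ≠ 0) (hx : b x x = 0) (hv : b v v = 0)
    (h1 : b x v = 0) (h2 : b (J x) v = 0) : ∃ s t : ℝ, v = s • x + t • J x := by
  have hxJ : b x (J x) = 0 := by
    have e1 := Jb x (J x)
    rw [JJ, map_neg, h.symm] at e1
    linarith
  have hJx : b (J x) x = 0 := by rw [h.symm]; exact hxJ
  have hJJ : b (J x) (J x) = 0 := by rw [Jb]; exact hx
  have h1' : b v x = 0 := by rw [h.symm]; exact h1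
  have h2' : b v (J x) = 0 := by rw [h.symm]; exact h2
  by_contra hcon
  push Not at hcon
  have hli : LinearIndependent ℝ ![x, J x, v] := by
    rw [Fintype.linearIndependent_iff]
    intro c hc
    rw [Fin.sum_univ_three] at hc
    simp only [Matrix.cons_val_zero, Matrix.cons_val_one, Matrix.cons_val] at hc
    have c2 : c 2 = 0 := by
      by_contra h0
      apply hcon (-(c 2)⁻¹ * c 0) (-(c 2)⁻¹ * c 1)
      have e1 : c 2 • v = -(c 0 • x + c 1 • J x) := by
        rw [eq_neg_iff_add_eq_zero, add_comm]; exact hc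
      calc v = (c 2)⁻¹ • (c 2 • v) := by rw [smul_smul, inv_mul_cancel₀ h0, one_smul]
        _ = _ := by rw [e1]; module
    rw [c2, zero_smul, add_zero] at hc
    have c3 : c 0 • J x - c 1 • x = 0 := by
      have := congrArg J hc
      rw [map_add, map_smul, map_smul, JJ, map_zero] at this
      rw [← this]; module
    have c4 : (c 0 * c 0 + c 1 * c 1) • x = 0 := by
      have e1 : c 0 • (c 0 • x + c 1 • J x) - c 1 • (c 0 • J x - c 1 • x) = 0 := by
        rw [hc, c3, smul_zero, smul_zero, sub_zero]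
      rw [← e1]; module
    have c5 := (smul_eq_zero.1 c4).resolve_right hx0
    have n0 := mul_self_nonneg (c 0)
    have n1 := mul_self_nonneg (c 1)
    have c6 : c 0 = 0 := mul_self_eq_zero.1 (by linarith)
    have c7 : c 1 = 0 := mul_self_eq_zero.1 (by linarith)
    intro i
    fin_cases i
    · exact c6
    · exact c7
    · exact c2
  have h3 := le_two h (Submodule.span ℝ (Set.range ![x, J x, v])) (by
    intro z hz
    have key : Submodule.span ℝ (Set.range ![x, J x, v]) ≤ LinearMap.ker (b z) ∧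
        b z x = 0 ∧ b z (J x) = 0 ∧ b z v = 0 := by
      have k1 : b z x = 0 ∧ b z (J x) = 0 ∧ b z v = 0 := by
        induction hz using Submodule.span_induction with
        | mem w hw =>
          obtain ⟨i, rfl⟩ := hw
          fin_cases i
          · exact ⟨hx, hxJ, h1⟩
          · exact ⟨hJx, hJJ, h2⟩
          · exact ⟨h1', h2', hv⟩
        | zero => simp
        | add w w' _ _ k k' =>
          simp only [map_add, LinearMap.add_apply, k.1, k'.1, k.2.1, k'.2.1, k.2.2, k'.2.2, add_zero,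
            and_self]
        | smul r w _ k =>
          simp only [map_smul, LinearMap.smul_apply, k.1, k.2.1, k.2.2, smul_zero, and_self]
      refine ⟨?_, k1⟩
      rw [Submodule.span_le]
      rintro _ ⟨i, rfl⟩
      fin_cases i
      · exact k1.1
      · exact k1.2.1
      · exact k1.2.2
    exact (LinearMap.mem_ker.1 (key.1 hz)).ge)
  rw [finrank_span_eq_card hli, Fintype.card_fin] at h3
  omega

end PMX

open PMX in
/-- PM. -/
theorem PM_proof : Stmt_PM := by
  intro V V' _ _ _ _ _ _ b b' J l H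
  have h : QH b := ⟨H.symm, H.nondeg, H.pos, H.dim⟩
  have h' : QH b' := ⟨H.symm', H.nondeg', H.pos', Or.inr H.dim'⟩
  let K : Submodule ℝ (Module.End ℝ V) := l.comap (LinearMap.inl ℝ _ _)
  have mK : ∀ a, a ∈ K ↔ (a, (0 : Module.End ℝ V')) ∈ l := fun a => Iff.rfl
  by_cases hK : K = ⊥
  swap
  · intro a ha
    refine (mK a).1 (simple h K (fun a ha => H.skew _ ha) ?_ hK ha)
    intro s hs a ha
    obtain ⟨s', hs'⟩ := H.onto s hs
    have := H.brk _ hs' _ ((mK a).1 ha)
    simp only [mul_zero, zero_mul, sub_zero] at this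
    exact this
  exfalso
  have uq' : ∀ a, (a, (0 : Module.End ℝ V')) ∈ l → a = 0 := by
    intro a ha
    have : a ∈ K := ha
    rw [hK] at this
    exact this
  obtain ⟨e, f, hp⟩ := exists_HP h
  obtain ⟨s', hs'⟩ := H.onto _ (wd_skew h.symm e f)
  obtain ⟨k, hk, hkd⟩ := H.hyp _ hs' (by
    rw [eq_top_iff]
    intro v _
    refine hp.ind _ ?_ ?_ ?_ v
    · refine (le_iSup (fun c : ℝ => Module.End.eigenspace (wd b e f) c) 1) ?_
      rw [Module.End.mem_eigenspace_iff, hp.he, one_smul]
    · refine (le_iSup (fun c : ℝ => Module.End.eigenspace (wd b e f) c) (-1)) ?_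
      rw [Module.End.mem_eigenspace_iff, hp.hf, neg_smul, one_smul]
    · intro u h1 h2
      refine (le_iSup (fun c : ℝ => Module.End.eigenspace (wd b e f) c) 0) ?_
      rw [Module.End.mem_eigenspace_iff, hp.hu h1 h2, zero_smul])
  have hk' : (wd b e f, k) ∈ l := hk
  have hh0 : wd b e f ≠ 0 := by
    intro h1
    have h2 := hp.he
    rw [h1, LinearMap.zero_apply] at h2
    have h3 := hp.ef
    rw [← h2, map_zero, LinearMap.zero_apply] at h3
    exact zero_ne_one h3
  have hk0 : k ≠ 0 := by
    rintro rfl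
    exact hh0 (uq' _ hk')
  have hks : Sk b' k := H.skew' _ hk'
  have hkJ : ∀ x, k (J x) = J (k x) := H.comm' _ hk'
  have orth : ∀ (c d : ℝ) (x y : V'), k x = c • x → k y = d • y → c + d ≠ 0 → b' x y = 0 := by
    intro c d x y hx hy hcd
    have h1 := hks x y
    rw [hx, hy] at h1
    simp only [map_smul, LinearMap.smul_apply, smul_eq_mul] at h1
    have h2 : (c + d) * b' x y = 0 := by linarith
    exact (mul_eq_zero.1 h2).resolve_left hcd
  have extk : ∀ {W : Type} [AddCommGroup W] [Module ℝ W] (a a' : V' →ₗ[ℝ] W),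
      (∀ (c : ℝ) (x : V'), k x = c • x → a x = a' x) → a = a' := by
    intro W _ _ a a' haa
    ext v
    have h1 : (⨆ c : ℝ, Module.End.eigenspace k c) ≤ LinearMap.eqLocus a a' :=
      iSup_le fun c x hx => haa c x (Module.End.mem_eigenspace_iff.1 hx)
    rw [hkd] at h1
    exact h1 Submodule.mem_top
  -- an eigenvector
  obtain ⟨c, x, hx, hxn, hc⟩ : ∃ (c : ℝ) (x : V'), k x = c • x ∧ x ≠ 0 ∧ c ≠ 0 := by
    by_contra hcon
    push Not at hcon
    apply hk0
    refine extk _ _ fun c x hx => ?_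
    rw [LinearMap.zero_apply, hx]
    by_cases hxn : x = 0
    · rw [hxn, smul_zero]
    · rw [hcon c x hx hxn, zero_smul]
  have hJx : k (J x) = c • J x := by rw [hkJ, hx, map_smul]
  have c2 : c + c ≠ 0 := fun h0 => hc (by linarith)
  have xx : b' x x = 0 := orth c c x x hx hx c2
  have xJx : b' x (J x) = 0 := orth c c x (J x) hx hJx c2
  have Jxx : b' (J x) x = 0 := orth c c (J x) x hJx hx c2
  have JxJx : b' (J x) (J x) = 0 := orth c c (J x) (J x) hJx hJx c2
  -- the dual eigenvector
  obtain ⟨y, hy, hxy, hJxy⟩ : ∃ y, k y = (-c) • y ∧ b' x y = 1 ∧ b' (J x) y = 0 := by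
    obtain ⟨w, hw, hxw⟩ : ∃ w, k w = (-c) • w ∧ b' x w ≠ 0 := by
      by_contra hcon
      push Not at hcon
      apply hxn
      refine h'.nondeg x fun y => ?_
      have : b' x = 0 := by
        refine extk _ _ fun d y hy => ?_
        rw [LinearMap.zero_apply]
        by_cases hd : d = -c
        · rw [hd] at hy; exact hcon y hy
        · exact orth c d x y hx hy fun h => hd (by linarith)
      rw [this, LinearMap.zero_apply]
    have hJw : k (J w) = (-c) • J w := by rw [hkJ, hw, map_smul]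
    set p := b' x w with hp
    set q := b' (J x) w with hq
    have e1 : b' x (J w) = -q := by
      have := H.Jb x (J w)
      rw [H.JJ, map_neg] at this
      linarith
    have e2 : b' (J x) (J w) = p := H.Jb x w
    have hpq : p * p + q * q ≠ 0 := by
      have n0 : 0 < p * p := by
        rcases lt_or_gt_of_ne hxw with h | h
        · exact mul_pos_of_neg_of_neg h h
        · exact mul_pos h h
      have n1 := mul_self_nonneg q
      linarith
    refine ⟨(p * p + q * q)⁻¹ • (p • w - q • J w), ?_, ?_, ?_⟩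
    · rw [map_smul, map_sub, map_smul, map_smul, hw, hJw]; module
    · rw [map_smul, map_sub, map_smul, map_smul, ← hp, e1, smul_eq_mul, smul_eq_mul, smul_eq_mul]
      field_simp
      ring
    · rw [map_smul, map_sub, map_smul, map_smul, ← hq, e2, smul_eq_mul, smul_eq_mul, smul_eq_mul]
      ring
  have hJy : k (J y) = (-c) • J y := by rw [hkJ, hy, map_smul]
  have c3 : -c + -c ≠ 0 := fun h0 => hc (by linarith)
  have yy : b' y y = 0 := orth _ _ y y hy hy c3
  have yJy : b' y (J y) = 0 := orth _ _ y (J y) hy hJy c3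
  have Jyy : b' (J y) y = 0 := orth _ _ (J y) y hJy hy c3
  have JyJy : b' (J y) (J y) = 0 := orth _ _ (J y) (J y) hJy hJy c3
  have yx : b' y x = 1 := by rw [h'.symm]; exact hxy
  have yJx : b' y (J x) = 0 := by rw [h'.symm]; exact hJxy
  have xJy : b' x (J y) = 0 := by
    have := H.Jb x (J y)
    rw [H.JJ, map_neg, hJxy] at this
    linarith
  have Jyx : b' (J y) x = 0 := by rw [h'.symm]; exact xJy
  have JxJy : b' (J x) (J y) = 1 := by rw [H.Jb]; exact hxy
  have JyJx : b' (J y) (J x) = 1 := by rw [H.Jb]; exact yx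
  have hy0 : y ≠ 0 := by
    rintro rfl
    rw [map_zero] at hxy
    exact zero_ne_one hxy
  -- the wedges in the unitary Lie algebra
  let uu : V' → V' → Module.End ℝ V' := fun a a' => wd b' a a' + wd b' (J a) (J a')
  have huu : ∀ a a', uu a a' = wd b' a a' + wd b' (J a) (J a') := fun _ _ => rfl
  have uua : ∀ a a' v, uu a a' v = (b' a' v • a - b' a v • a') + (b' (J a') v • J a - b' (J a) v • J a') := by
    intro a a' v
    rw [huu, LinearMap.add_apply, wd_apply, wd_apply]
  have uus : ∀ a a', Sk b' (uu a a') := by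
    intro a a' v w
    have e1 := wd_skew h'.symm a a' v w
    have e2 := wd_skew h'.symm (J a) (J a') v w
    rw [huu]
    simp only [LinearMap.add_apply, map_add]
    linarith
  have bJ : ∀ a v, b' (J a) v = - b' a (J v) := by
    intro a v
    have := H.Jb a (J v)
    rw [H.JJ, map_neg] at this
    linarith
  have uuJ : ∀ a a' v, uu a a' (J v) = J (uu a a' v) := by
    intro a a' v
    rw [uua, uua]
    simp only [map_add, map_sub, map_smul, H.JJ, bJ, map_neg]
    module
  have uub : ∀ {p : Module.End ℝ V'}, Sk b' p → (∀ v, p (J v) = J (p v)) → ∀ a a',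
      p * uu a a' - uu a a' * p = uu (p a) a' + uu a (p a') := by
    intro p hp1 hp2 a a'
    have e1 := comm_wd hp1 a a'
    have e2 := comm_wd hp1 (J a) (J a')
    rw [hp2, hp2] at e2
    calc p * uu a a' - uu a a' * p = (p * wd b' a a' - wd b' a a' * p) +
        (p * wd b' (J a) (J a') - wd b' (J a) (J a') * p) := by rw [huu, mul_add, add_mul]; abel
      _ = _ := by rw [e1, e2, huu, huu]; abel
  have uul : ∀ (r : ℝ) a a', uu (r • a) a' = r • uu a a' := by
    intro r a a'
    rw [huu, huu, map_smul, map_smul, map_smul, LinearMap.smul_apply, LinearMap.smul_apply, smul_add]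
  have uur : ∀ (r : ℝ) a a', uu a (r • a') = r • uu a a' := by
    intro r a a'
    rw [huu, huu, map_smul, map_smul, map_smul, smul_add]
  clear_value uu
  -- the form of `k`
  have kk1 : uu x y x = x := by rw [uua, yx, xx, Jyx, Jxx]; module
  have kk2 : uu x y (J x) = J x := by rw [uuJ, kk1]
  have kk3 : uu x y y = -y := by rw [uua, yy, hxy, Jyy, hJxy]; module
  have kk4 : uu x y (J y) = -J y := by rw [uuJ, kk3, map_neg]
  have hkk : k = c • uu x y := by
    refine extk _ _ fun d v hv => ?_
    have hJv : k (J v) = d • J v := by rw [hkJ, hv, map_smul]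
    rw [LinearMap.smul_apply]
    by_cases hd : d = 0
    · rw [hd] at hv
      have e1 : b' x v = 0 := orth c 0 x v hx hv (by rwa [add_zero])
      have e2 : b' y v = 0 := orth (-c) 0 y v hy hv (by rw [add_zero]; exact neg_ne_zero.2 hc)
      have e3 : b' (J x) v = 0 := orth c 0 (J x) v hJx hv (by rwa [add_zero])
      have e4 : b' (J y) v = 0 := orth (-c) 0 (J y) v hJy hv (by rw [add_zero]; exact neg_ne_zero.2 hc)
      rw [hv, uua, e1, e2, e3, e4]
      module
    · have vv : b' v v = 0 := orth d d v v hv hv (fun h0 => hd (by linarith))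
      by_cases hdc : d = -c
      · have e2 : b' y v = 0 := orth (-c) d y v hy hv (by rw [hdc]; exact c3)
        have e4 : b' (J y) v = 0 := orth (-c) d (J y) v hJy hv (by rw [hdc]; exact c3)
        obtain ⟨s, t, rfl⟩ := iso3 h' H.JJ H.Jb hy0 yy vv e2 e4
        rw [map_add, map_smul, map_smul, hy, hJy, map_add, map_smul, map_smul, kk3, kk4]
        module
      · have e1 : b' x v = 0 := orth c d x v hx hv (fun h0 => hdc (by linarith))
        have e3 : b' (J x) v = 0 := orth c d (J x) v hJx hv (fun h0 => hdc (by linarith))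
        obtain ⟨s, t, rfl⟩ := iso3 h' H.JJ H.Jb hxn xx vv e1 e3
        rw [map_add, map_smul, map_smul, hx, hJx, map_add, map_smul, map_smul, kk1, kk2]
        module
  -- a vector in the kernel
  obtain ⟨u, -, hu0, hF⟩ := exists_ker ![b' x, b' y, b' (J x), b' (J y)] ⊤ (by
    rw [finrank_top]; have := H.dim'; omega)
  have hxu : b' x u = 0 := hF 0
  have hyu : b' y u = 0 := hF 1
  have hJxu : b' (J x) u = 0 := hF 2
  have hJyu : b' (J y) u = 0 := hF 3
  have hku : k u = 0 := by
    rw [hkk, LinearMap.smul_apply, uua, hxu, hyu, hJxu, hJyu]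
    module
  have huu0 : b' u u ≠ 0 := by
    intro h0
    obtain ⟨s, t, rfl⟩ := iso3 h' H.JJ H.Jb hxn xx h0 hxu hJxu
    rw [map_add, map_smul, map_smul, yx, yJx, smul_eq_mul, smul_eq_mul, mul_one, mul_zero,
      add_zero] at hyu
    rw [map_add, map_smul, map_smul, Jyx, JyJx, smul_eq_mul, smul_eq_mul, mul_one, mul_zero,
      zero_add] at hJyu
    apply hu0
    rw [hyu, hJyu, zero_smul, zero_smul, add_zero]
  have hkJu : k (J u) = 0 := by rw [hkJ, hku, map_zero]
  -- elements of the derived algebra which are eigenvectors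
  have lift : ∀ (r : ℝ) a a', r ≠ 0 → k * uu a a' - uu a a' * k = r • uu a a' →
      ∃ s, (s, uu a a') ∈ l := by
    intro r a a' hr h1
    obtain ⟨s, hs⟩ := H.onto' k (uu a a') hks hkJ (uus a a') (uuJ a a')
    rw [h1] at hs
    have h2 := l.smul_mem r⁻¹ hs
    rw [Prod.smul_mk, smul_smul, inv_mul_cancel₀ hr, one_smul] at h2
    exact ⟨_, h2⟩
  have kill : ∀ (r : ℝ) a a', r ≠ 0 → k * uu a a' - uu a a' * k = r • uu a a' → r * r * r - r ≠ 0 →
      ((0 : Module.End ℝ V), uu a a') ∈ l := by
    intro r a a' hr h1 h2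
    obtain ⟨s, hs⟩ := lift r a a' hr h1
    have g0 : ∀ t : ℝ, k * (t • uu a a') - (t • uu a a') * k = (t * r) • uu a a' := by
      intro t
      rw [mul_smul_comm, smul_mul_assoc, ← smul_sub, h1, smul_smul]
    have g1 := H.brk _ hk' _ hs
    have g2 := H.brk _ hk' _ g1
    have g3 := H.brk _ hk' _ g2
    simp only at g1 g3
    rw [hp.cube (H.skew _ hs)] at g3
    rw [h1, g0, g0] at g3
    rw [h1] at g1
    have g4 := l.sub_mem g3 g1
    rw [Prod.mk_sub_mk, sub_self, ← sub_smul] at g4
    have g5 := l.smul_mem (r * r * r - r)⁻¹ g4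
    rwa [Prod.smul_mk, smul_zero, smul_smul, inv_mul_cancel₀ h2, one_smul] at g5
  have w1 : k * uu x (J x) - uu x (J x) * k = (c + c) • uu x (J x) := by
    rw [uub hks hkJ, hx, hJx, uul, uur, add_smul]
  have w2 : k * uu y (J y) - uu y (J y) * k = (-c + -c) • uu y (J y) := by
    rw [uub hks hkJ, hy, hJy, uul, uur, add_smul]
  have w3 : k * uu x u - uu x u * k = c • uu x u := by
    have e0 : uu x (0 : V') = 0 := by
      have := uur 0 x 0
      rwa [zero_smul, zero_smul] at this
    rw [uub hks hkJ, hx, hku, uul, e0, add_zero]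
  have w4 : k * uu x (J u) - uu x (J u) * k = c • uu x (J u) := by
    have e0 : uu x (0 : V') = 0 := by
      have := uur 0 x 0
      rwa [zero_smul, zero_smul] at this
    rw [uub hks hkJ, hx, hkJu, uul, e0, add_zero]
  -- `W`
  have hW : ((0 : Module.End ℝ V), uu x (J x)) ∈ l := by
    by_cases hc1 : (c + c) * (c + c) * (c + c) - (c + c) = 0
    · have hc2 : c * c * c - c ≠ 0 := by
        intro h0
        have e1 : c * (c * c - 1) = 0 := by linarith
        have e2 : c * (4 * (c * c) - 1) = 0 := by linarith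
        have e3 := (mul_eq_zero.1 e1).resolve_left hc
        have e4 := (mul_eq_zero.1 e2).resolve_left hc
        linarith
      have n1 := kill c x u hc w3 hc2
      obtain ⟨s, n2⟩ := lift c x (J u) hc w4
      have n3 := H.brk _ n1 _ n2
      simp only [zero_mul, mul_zero, sub_zero] at n3
      have uJu : b' u (J u) = 0 := by
        have e1 := bJ u u
        rw [h'.symm] at e1
        linarith
      have e1 : uu x u x = 0 := by
        rw [uua, xx, Jxx, h'.symm u x, hxu, bJ u x, h'.symm u (J x), hJxu]; module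
      have e2 : uu x u (J u) = b' u u • J x := by
        rw [uuJ, uua, hxu, hJxu, bJ u u, uJu, map_add, map_sub, map_sub, map_smul, map_smul, map_smul,
          map_smul]
        module
      have e0 : uu (0 : V') (J u) = 0 := by
        have := uul 0 0 (J u)
        rwa [zero_smul, zero_smul] at this
      rw [uub (uus x u) (uuJ x u), e1, e2, e0, uur, zero_add] at n3
      have n4 := l.smul_mem (b' u u)⁻¹ n3
      rwa [Prod.smul_mk, smul_zero, smul_smul, inv_mul_cancel₀ huu0, one_smul] at n4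
    · exact kill (c + c) x (J x) c2 w1 hc1
  obtain ⟨s, hs2⟩ := lift (-c + -c) y (J y) c3 w2
  have n3 := H.brk _ hW _ hs2
  simp only [zero_mul, mul_zero, sub_zero] at n3
  have e1 : uu x (J x) y = (-2 : ℝ) • J x := by
    rw [uua, hJxy, hxy, H.JJ, map_neg, LinearMap.neg_apply, hxy]; module
  have e2 : uu x (J x) (J y) = (2 : ℝ) • x := by
    rw [uuJ, e1, map_smul, H.JJ]; module
  have e3 : uu (J x) (J y) = uu x y := by
    rw [huu, huu, H.JJ, H.JJ, map_neg, map_neg, LinearMap.neg_apply, neg_neg, add_comm]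
  have e4 : uu y x = - uu x y := by
    rw [huu, huu, wd_swap y x, wd_swap (J y) (J x)]; abel
  rw [uub (uus _ _) (uuJ _ _), e1, e2, uul, uur, e3, e4] at n3
  have n4 := l.smul_mem (-(4 : ℝ)⁻¹ * c) n3
  have n5 : (-(4 : ℝ)⁻¹ * c) • ((-2 : ℝ) • uu x y + (2 : ℝ) • -uu x y) = k := by
    rw [hkk]; module
  rw [Prod.smul_mk, smul_zero, n5] at n4
  have n6 := l.sub_mem hk' n4
  rw [Prod.mk_sub_mk, sub_self, sub_zero] at n6
  exact hh0 (uq' _ n6)

end

end Pool.Agent.K3M
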