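import Pool.Agent.K3M.HDefs
import Pool.Agent.K3M.StmtsG
import Pool.Agent.K3M.JT

/-!
# De Rham-Betti conjecture: products of Kuga-Satake varieties, the final form
-/

open scoped BigOperators
open Matrix

namespace Pool.Agent.K3M

open Pool.Agent.DRB Pool.Agent.K3D Pool.Agent.K3E Pool.Agent.K3C Pool.Agent.K3P

noncomputable section

/-- The de Rham-Betti conjecture for products of Kuga-Satake varieties, with the group, final form. -/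
def MainM3 : Prop :=
  ∀ (g : ℕ) (A : AbVar g) (r s : ℕ) (h : Fin (r + s) → ℕ) (B : ∀ i, AbVar (h i)) (D : Decomp A B),
    (∀ i j, i ≠ j → ∀ α, IsHom (B i) (B j) α → α = 0) →
    ∀ (n₁ m₁ : Fin r → ℕ) (K₁ : ∀ i, KSE (B (Fin.castAdd s i)) (n₁ i) (m₁ i))
      (n₂ m₂ : Fin s → ℕ) (K₂ : ∀ j, KSC (B (Fin.natAdd r j)) (n₂ j) (m₂ j)),
    (∀ i, 3 ≤ m₁ i ∧ m₁ i ≠ 5) → (∀ j, 1 ≤ m₂ j ∧ (Even (m₂ j) ∨ m₂ j = 1)) →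
    (∀ j, (K₂ j).Trit) → PairConj K₂ →
    (∀ (x : GL (Idx g) ℂ) (ν : ℂˣ), InGdRB A x ν ↔
      ((∀ α ∈ A.EndQ, x.val * AbVar.toC α = AbVar.toC α * x.val) ∧
        (∀ i, ∀ Y ∈ (K₁ i).TC, D.blk (Fin.castAdd s i) x.val * Y * D.blk (Fin.castAdd s i) (x⁻¹).val ∈
          (K₁ i).TC) ∧
        (∀ j, ∀ Y ∈ (K₂ j).TC, D.blk (Fin.natAdd r j) x.val * Y * D.blk (Fin.natAdd r j) (x⁻¹).val ∈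
          (K₂ j).TC) ∧
        x.valᵀ * A.riem * x.val = ν.val • A.riem)) ∧
    ∀ (t : TData) (E : Submodule ℂ (TIdx t (Idx g) → ℂ)), IsDRB A t E → IsHodge A t E

/-- The hypotheses on the dimensions, final form. -/
def DimF {r s : ℕ} (m₁ : Fin r → ℕ) (m₂ : Fin s → ℕ) : Prop :=
  (∀ i, 3 ≤ m₁ i ∧ m₁ i ≠ 5) ∧ ∀ j, 1 ≤ m₂ j ∧ (Even (m₂ j) ∨ m₂ j = 1)

/-- No intertwining matrices. -/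
structure NoInt {r s : ℕ} {h : Fin r → ℕ} {B : ∀ i, AbVar (h i)} {h' : Fin s → ℕ} {B' : ∀ j, AbVar (h' j)}
    {n₁ m₁ : Fin r → ℕ} (K₁ : ∀ i, KSE (B i) (n₁ i) (m₁ i))
    {n₂ m₂ : Fin s → ℕ} (K₂ : ∀ j, KSC (B' j) (n₂ j) (m₂ j))
    (d : (∀ i, Matrix (Fin (n₁ i)) (Fin (n₁ i)) ℂ) → (∀ j, Matrix (Fin (n₂ j)) (Fin (n₂ j)) ℂ) → Prop) :
    Prop where
  EE : ∀ i j, i ≠ j → ∀ F : Matrix (Idx (h j)) (Idx (h i)) ℂ,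
    (∀ a b, d a b → (K₁ j).Z (a j) * F = F * (K₁ i).Z (a i)) → F = 0
  EC : ∀ i j, ∀ F : Matrix (Idx (h' j)) (Idx (h i)) ℂ,
    (∀ a b, d a b → (K₂ j).Z (b j) * F = F * (K₁ i).Z (a i)) → F = 0
  CC : ∀ i j, i ≠ j → ∀ F : Matrix (Idx (h' j)) (Idx (h' i)) ℂ,
    (∀ a b, d a b → (K₂ j).Z (b j) * F = F * (K₂ i).Z (b i)) → F = 0

/-- N0, final form. -/
def Stmt_N0F : Prop :=
  ∀ (g : ℕ) (A : AbVar g) (r s : ℕ) (h : Fin (r + s) → ℕ) (B : ∀ i, AbVar (h i)) (D : Decomp A B)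
    (n₁ m₁ : Fin r → ℕ) (K₁ : ∀ i, KSE (B (Fin.castAdd s i)) (n₁ i) (m₁ i))
    (n₂ m₂ : Fin s → ℕ) (K₂ : ∀ j, KSC (B (Fin.natAdd r j)) (n₂ j) (m₂ j)), DimF m₁ m₂ →
    TupAlg2 K₁ K₂ (DD2 D K₁ K₂)

/-- NN, final form. -/
def Stmt_NNF : Prop :=
  ∀ (g : ℕ) (A : AbVar g) (r s : ℕ) (h : Fin (r + s) → ℕ) (B : ∀ i, AbVar (h i)) (D : Decomp A B),
    (∀ i j, i ≠ j → ∀ α, IsHom (B i) (B j) α → α = 0) →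
    ∀ (n₁ m₁ : Fin r → ℕ) (K₁ : ∀ i, KSE (B (Fin.castAdd s i)) (n₁ i) (m₁ i))
    (n₂ m₂ : Fin s → ℕ) (K₂ : ∀ j, KSC (B (Fin.natAdd r j)) (n₂ j) (m₂ j)), DimF m₁ m₂ →
    TupNoIso K₁ (fun a => ∃ b, DD2 D K₁ K₂ a b)

/-- NQ, final form. The factors with real multiplication. -/
def Stmt_NQF : Prop :=
  ∀ (r s : ℕ) (h : Fin r → ℕ) (B : ∀ i, AbVar (h i)) (h' : Fin s → ℕ) (B' : ∀ j, AbVar (h' j))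
    (n₁ m₁ : Fin r → ℕ) (K₁ : ∀ i, KSE (B i) (n₁ i) (m₁ i))
    (n₂ m₂ : Fin s → ℕ) (K₂ : ∀ j, KSC (B' j) (n₂ j) (m₂ j))
    (d : (∀ i, Matrix (Fin (n₁ i)) (Fin (n₁ i)) ℂ) → (∀ j, Matrix (Fin (n₂ j)) (Fin (n₂ j)) ℂ) → Prop),
    TupAlg2 K₁ K₂ d → TupLog2 d → TupNoIso K₁ (fun a => ∃ b, d a b) → NoInt K₁ K₂ d → DimF m₁ m₂ →
    ∀ i, ∀ x ∈ (K₁ i).S, d (Pi.single i x) 0

/-- NC, final form. Two factors with complex multiplication are independent. -/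
def Stmt_NCF : Prop :=
  ∀ (r s : ℕ) (h : Fin r → ℕ) (B : ∀ i, AbVar (h i)) (h' : Fin s → ℕ) (B' : ∀ j, AbVar (h' j))
    (n₁ m₁ : Fin r → ℕ) (K₁ : ∀ i, KSE (B i) (n₁ i) (m₁ i))
    (n₂ m₂ : Fin s → ℕ) (K₂ : ∀ j, KSC (B' j) (n₂ j) (m₂ j))
    (d : (∀ i, Matrix (Fin (n₁ i)) (Fin (n₁ i)) ℂ) → (∀ j, Matrix (Fin (n₂ j)) (Fin (n₂ j)) ℂ) → Prop),
    TupAlg2 K₁ K₂ d → TupLog2 d → NoInt K₁ K₂ d → DimF m₁ m₂ → PairConj K₂ →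
    ∀ j j', j ≠ j' → ∀ x ∈ (K₂ j).S, ∀ y ∈ (K₂ j).S, ∃ a b, d a b ∧ b j = x * y - y * x ∧ b j' = 0

/-- ND, final form. The derived algebras of the factors with complex multiplication. -/
def Stmt_NDF : Prop :=
  ∀ (r s : ℕ) (h : Fin r → ℕ) (B : ∀ i, AbVar (h i)) (h' : Fin s → ℕ) (B' : ∀ j, AbVar (h' j))
    (n₁ m₁ : Fin r → ℕ) (K₁ : ∀ i, KSE (B i) (n₁ i) (m₁ i))
    (n₂ m₂ : Fin s → ℕ) (K₂ : ∀ j, KSC (B' j) (n₂ j) (m₂ j))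
    (d : (∀ i, Matrix (Fin (n₁ i)) (Fin (n₁ i)) ℂ) → (∀ j, Matrix (Fin (n₂ j)) (Fin (n₂ j)) ℂ) → Prop),
    TupAlg2 K₁ K₂ d → (∀ i, ∀ x ∈ (K₁ i).S, d (Pi.single i x) 0) → DimF m₁ m₂ →
    (∀ j j', j ≠ j' → ∀ x ∈ (K₂ j).S, ∀ y ∈ (K₂ j).S, ∃ a b, d a b ∧ b j = x * y - y * x ∧ b j' = 0) →
    ∀ j, ∀ x ∈ (K₂ j).S, ∀ y ∈ (K₂ j).S, d 0 (Pi.single j (x * y - y * x))

/-- NT, final form. The torus. -/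
def Stmt_NTF : Prop :=
  ∀ (g : ℕ) (A : AbVar g) (r s : ℕ) (h : Fin (r + s) → ℕ) (B : ∀ i, AbVar (h i)) (D : Decomp A B)
    (n₁ m₁ : Fin r → ℕ) (K₁ : ∀ i, KSE (B (Fin.castAdd s i)) (n₁ i) (m₁ i))
    (n₂ m₂ : Fin s → ℕ) (K₂ : ∀ j, KSC (B (Fin.natAdd r j)) (n₂ j) (m₂ j)), DimF m₁ m₂ → JTrit K₂ →
    (∀ i, ∀ x ∈ (K₁ i).S, DD2 D K₁ K₂ (Pi.single i x) 0) →
    (∀ j, ∀ x ∈ (K₂ j).S, ∀ y ∈ (K₂ j).S, DD2 D K₁ K₂ 0 (Pi.single j (x * y - y * x))) →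
    ∀ j, ∀ y ∈ (K₂ j).S, DD2 D K₁ K₂ 0 (Pi.single j y)

/-- NE, final form. From tuples to the Lie algebra. -/
def Stmt_NEF : Prop :=
  ∀ (g : ℕ) (A : AbVar g) (r s : ℕ) (h : Fin (r + s) → ℕ) (B : ∀ i, AbVar (h i)) (D : Decomp A B)
    (n₁ m₁ : Fin r → ℕ) (K₁ : ∀ i, KSE (B (Fin.castAdd s i)) (n₁ i) (m₁ i))
    (n₂ m₂ : Fin s → ℕ) (K₂ : ∀ j, KSC (B (Fin.natAdd r j)) (n₂ j) (m₂ j)), DimF m₁ m₂ →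
    (∀ i, ∀ x ∈ (K₁ i).S, DD2 D K₁ K₂ (Pi.single i x) 0) →
    (∀ j, ∀ y ∈ (K₂ j).S, DD2 D K₁ K₂ 0 (Pi.single j y)) →
    (∀ i, ∀ x ∈ (K₁ i).S, InLie (Gam A) (D.emb (Fin.castAdd s i) ((K₁ i).Z x)) 0) ∧
    ∀ j, ∀ y ∈ (K₂ j).S, InLie (Gam A) (D.emb (Fin.natAdd r j) ((K₂ j).Z y)) 0

end

/-- Assembly. -/
theorem MainM3_of (h0 : Stmt_N0F) (hl : Stmt_NL) (hn : Stmt_NNF) (hi : Stmt_NI) (hq : Stmt_NQF)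
    (hc : Stmt_NCF) (hd : Stmt_NDF) (ht : Stmt_NTF) (he : Stmt_NEF)
    (hw : ∀ (g : ℕ) (A : AbVar g) (r s : ℕ) (h : Fin (r + s) → ℕ) (B : ∀ i, AbVar (h i)) (D : Decomp A B)
      (n₁ m₁ : Fin r → ℕ) (K₁ : ∀ i, KSE (B (Fin.castAdd s i)) (n₁ i) (m₁ i))
      (n₂ m₂ : Fin s → ℕ) (K₂ : ∀ j, KSC (B (Fin.natAdd r j)) (n₂ j) (m₂ j)),
      (∀ i, 3 ≤ m₁ i) → (∀ j, 1 ≤ m₂ j) →
      (∀ i, ∀ x ∈ (K₁ i).S, InLie (Gam A) (D.emb (Fin.castAdd s i) ((K₁ i).Z x)) 0) →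
      (∀ j, ∀ y ∈ (K₂ j).S, InLie (Gam A) (D.emb (Fin.natAdd r j) ((K₂ j).Z y)) 0) →
      InLie (Gam A) ((1 / 2 : ℂ) • (1 : Matrix (Idx g) (Idx g) ℂ)) 1)
    (hf : Stmt_NF) (hG : Stmt_NG) : MainM3 := by
  intro g A r s h B D hH n₁ m₁ K₁ n₂ m₂ K₂ c1 c2 hT hP
  have hm : DimF m₁ m₂ := ⟨c1, c2⟩
  have c1' : ∀ i, 3 ≤ m₁ i := fun i => (c1 i).1
  have T := h0 g A r s h B D n₁ m₁ K₁ n₂ m₂ K₂ hm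
  have L := hl g A r s h B D n₁ m₁ K₁ n₂ m₂ K₂
  obtain ⟨i1, i2, i3⟩ := hi g A r s h B D hH n₁ m₁ K₁ n₂ m₂ K₂ c1' (fun j => (c2 j).1)
  have I : NoInt K₁ K₂ (DD2 D K₁ K₂) := ⟨i1, i2, i3⟩
  have e1 := hq r s _ _ _ _ n₁ m₁ K₁ n₂ m₂ K₂ _ T L
    (hn g A r s h B D hH n₁ m₁ K₁ n₂ m₂ K₂ hm) I hm
  have e2 := hd r s _ _ _ _ n₁ m₁ K₁ n₂ m₂ K₂ _ T e1 hm
    (hc r s _ _ _ _ n₁ m₁ K₁ n₂ m₂ K₂ _ T L I hm hP)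
  have e3 := ht g A r s h B D n₁ m₁ K₁ n₂ m₂ K₂ hm (JTrit_of K₂ hT hP) e1 e2
  obtain ⟨f2, f3⟩ := he g A r s h B D n₁ m₁ K₁ n₂ m₂ K₂ hm e1 e3
  have f1 := hw g A r s h B D n₁ m₁ K₁ n₂ m₂ K₂ c1' (fun j => (c2 j).1) f2 f3
  exact ⟨hG g A r s h B D n₁ m₁ K₁ n₂ m₂ K₂ c1' (fun j => (c2 j).1) f1 f2 f3,
    hf g A r s h B D n₁ m₁ K₁ n₂ m₂ K₂ c1' (fun j => (c2 j).1) f1 f2 f3⟩

end Pool.Agent.K3M
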